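import Pool.Agent.Work.MP_ccd212_pr.Defs

/-! Elementary facts on connections, distances, boxes and lattice symmetries. -/

namespace Pool.Agent.Work.MP_ccd212_pr

@[simp] theorem G_adj {x y : Site} : G.Adj x y ↔ Adj x y := Iff.rfl

theorem Adj.symm {x y : Site} (h : Adj x y) : Adj y x := by unfold Adj at *; (clear * - h; lia)

theorem Adj.ne {x y : Site} (h : Adj x y) : x ≠ y := by
  rintro rfl; unfold Adj at h; omega

@[simp] theorem mem_ball {c v : Site} {R : ℕ} : v ∈ ball c R ↔ dst c v ≤ R := Iff.rfl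
@[simp] theorem mem_ann {c v : Site} {r R : ℕ} : v ∈ ann c r R ↔ r ≤ dst c v ∧ dst c v ≤ R := Iff.rfl
@[simp] theorem mem_rect {x1 x2 y1 y2 : ℤ} {v : Site} :
    v ∈ rect x1 x2 y1 y2 ↔ x1 ≤ v.1 ∧ v.1 ≤ x2 ∧ y1 ≤ v.2 ∧ v.2 ≤ y2 := Iff.rfl
@[simp] theorem mem_Col {ω : Site → Bool} {b : Bool} {v : Site} : v ∈ Col ω b ↔ ω v = b := Iff.rfl
@[simp] theorem mem_ev {ω : Site → Bool} {b : Bool} {Φ : Set Site → Prop} :
    ω ∈ ev b Φ ↔ Φ (Col ω b) := Iff.rfl

theorem Col_not (ω : Site → Bool) (b : Bool) : Col ω (!b) = (Col ω b)ᶜ := by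
  ext v; cases b <;> simp

theorem dst_self (c : Site) : dst c c = 0 := by simp [dst]
theorem dst_comm (c v : Site) : dst c v = dst v c := by unfold dst; omega
theorem dst_triangle (a b c : Site) : dst a c ≤ dst a b + dst b c := by unfold dst; omega
theorem dst_eq_zero {a b : Site} (h : dst a b = 0) : a = b := by
  unfold dst at h; ext <;> omega
theorem Adj.dst_eq {x y : Site} (h : Adj x y) : dst x y = 1 := by unfold Adj at h; unfold dst; omega
theorem Adj.dst_le {x y : Site} (h : Adj x y) (c : Site) : dst c y ≤ dst c x + 1 := by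
  unfold Adj at h; unfold dst; omega

theorem ball_eq_rect (c : Site) (R : ℕ) :
    ball c R = rect (c.1 - R) (c.1 + R) (c.2 - R) (c.2 + R) := by
  ext v; simp only [mem_ball, mem_rect, dst]; omega

/-- The rectangle as a finset. -/
noncomputable def rectF (x1 x2 y1 y2 : ℤ) : Finset Site := Finset.Icc x1 x2 ×ˢ Finset.Icc y1 y2

@[simp] theorem mem_rectF {x1 x2 y1 y2 : ℤ} {v : Site} :
    v ∈ rectF x1 x2 y1 y2 ↔ x1 ≤ v.1 ∧ v.1 ≤ x2 ∧ y1 ≤ v.2 ∧ v.2 ≤ y2 := by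
  simp [rectF, and_assoc]

theorem coe_rectF (x1 x2 y1 y2 : ℤ) : (rectF x1 x2 y1 y2 : Set Site) = rect x1 x2 y1 y2 := by
  ext v; simp

theorem card_rectF (x1 x2 y1 y2 : ℤ) :
    (rectF x1 x2 y1 y2).card = (x2 + 1 - x1).toNat * (y2 + 1 - y1).toNat := by
  simp [rectF]

theorem rect_finite (x1 x2 y1 y2 : ℤ) : (rect x1 x2 y1 y2).Finite := by
  rw [← coe_rectF]; exact Finset.finite_toSet _

theorem ball_finite (c : Site) (R : ℕ) : (ball c R).Finite := by
  rw [ball_eq_rect]; exact rect_finite _ _ _ _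

theorem ann_finite (c : Site) (r R : ℕ) : (ann c r R).Finite :=
  (ball_finite c R).subset fun _ h => h.2

/-- The box as a finset. -/
noncomputable def ballF (c : Site) (R : ℕ) : Finset Site := rectF (c.1 - R) (c.1 + R) (c.2 - R) (c.2 + R)

@[simp] theorem mem_ballF {c v : Site} {R : ℕ} : v ∈ ballF c R ↔ dst c v ≤ R := by
  simp only [ballF, mem_rectF, dst]; omega

theorem card_ballF (c : Site) (R : ℕ) : (ballF c R).card = (2 * R + 1) ^ 2 := by
  rw [ballF, card_rectF]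
  have h1 : (c.1 + R + 1 - (c.1 - R)).toNat = 2 * R + 1 := by omega
  have h2 : (c.2 + R + 1 - (c.2 - R)).toNat = 2 * R + 1 := by omega
  rw [h1, h2]; ring

/-- The ring as a finset. -/
noncomputable def annF (c : Site) (r R : ℕ) : Finset Site := (ballF c R).filter fun v => r ≤ dst c v

@[simp] theorem mem_annF {c v : Site} {r R : ℕ} : v ∈ annF c r R ↔ r ≤ dst c v ∧ dst c v ≤ R := by
  simp [annF, and_comm]

theorem card_annF_self (c : Site) {t : ℕ} (ht : 1 ≤ t) : (annF c t t).card = 8 * t := by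
  have h : annF c t t = ballF c t \ ballF c (t - 1) := by
    ext v; simp only [mem_annF, Finset.mem_sdiff, mem_ballF]; omega
  rw [h, Finset.card_sdiff_of_subset (fun v hv => by simp only [mem_ballF] at *; omega),
    card_ballF, card_ballF]
  obtain ⟨k, rfl⟩ : ∃ k, t = k + 1 := ⟨t - 1, by omega⟩
  simp only [Nat.add_sub_cancel]
  have : (2 * (k + 1) + 1) ^ 2 = (2 * k + 1) ^ 2 + 8 * (k + 1) := by ring
  omega

/-! ### Connections -/

namespace Conn

variable {S T : Set Site} {a b c : Site}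

theorem refl (h : a ∈ S) : Conn S a a := ⟨.nil, by simpa using h⟩

theorem left_mem (h : Conn S a b) : a ∈ S := by
  obtain ⟨w, hw⟩ := h; exact hw _ w.start_mem_support

theorem right_mem (h : Conn S a b) : b ∈ S := by
  obtain ⟨w, hw⟩ := h; exact hw _ w.end_mem_support

theorem symm (h : Conn S a b) : Conn S b a := by
  obtain ⟨w, hw⟩ := h; exact ⟨w.reverse, by simpa using hw⟩

theorem trans (h : Conn S a b) (h' : Conn S b c) : Conn S a c := by
  obtain ⟨w, hw⟩ := h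
  obtain ⟨w', hw'⟩ := h'
  refine ⟨w.append w', fun v hv => ?_⟩
  rcases (SimpleGraph.Walk.mem_support_append_iff _ _).1 hv with h | h
  exacts [hw v h, hw' v h]

theorem mono (hST : S ⊆ T) (h : Conn S a b) : Conn T a b := by
  obtain ⟨w, hw⟩ := h; exact ⟨w, fun v hv => hST (hw v hv)⟩

theorem of_adj (h : Adj a b) (ha : a ∈ S) (hb : b ∈ S) : Conn S a b :=
  ⟨.cons (show G.Adj a b from h) .nil, by simp [ha, hb]⟩

theorem tail (h : Conn S a b) (hbc : Adj b c) (hc : c ∈ S) : Conn S a c :=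
  h.trans (of_adj hbc h.right_mem hc)

theorem head (hab : Adj a b) (ha : a ∈ S) (h : Conn S b c) : Conn S a c :=
  (of_adj hab ha h.left_mem).trans h

/-- Induction along a connection. -/
theorem ind {P : Site → Prop} (h : Conn S a b) (h0 : P a)
    (hs : ∀ x y, Conn S a x → y ∈ S → Adj x y → P x → P y) : P b := by
  obtain ⟨w, hw⟩ := h
  have key : ∀ {x y : Site} (w : G.Walk x y), (∀ v ∈ w.support, v ∈ S) → Conn S a x → P x → P y := by
    intro x y w
    induction w with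
    | nil => intro _ _ h; exact h
    | @cons u v z huv w ih =>
      intro hw hc hp
      have hv : v ∈ S := hw v (by simp)
      exact ih (fun t ht => hw t (by simp [ht])) (hc.tail huv hv) (hs u v hc hv huv hp)
  exact key w hw (refl (hw _ w.start_mem_support)) h0

/-- A connection stays in the cluster of its starting point. -/
theorem inter_of (h : Conn S a b) (hT : ∀ v, Conn S a v → v ∈ T) : Conn (S ∩ T) a b :=
  h.ind (refl ⟨h.left_mem, hT a (refl h.left_mem)⟩) fun _ y hx hy hxy hp =>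
    hp.tail hxy ⟨hy, hT y (hx.tail hxy hy)⟩

theorem cluster (h : Conn S a b) : Conn {v | Conn S a v} a b :=
  (h.inter_of (T := {v | Conn S a v}) fun _ hv => hv).mono Set.inter_subset_right

/-- First entrance into `T`. -/
theorem first_hit (h : Conn S a b) (ha : a ∉ T) (hb : b ∈ T) :
    ∃ u t, u ∉ T ∧ t ∈ T ∧ Adj u t ∧ Conn (S \ T) a u ∧ Conn S t b := by
  obtain ⟨w, hw⟩ := h
  induction w with
  | nil => exact absurd hb ha
  | @cons u v z huv w ih =>
    have hu : u ∈ S := hw u (by simp)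
    have hw' : ∀ t ∈ w.support, t ∈ S := fun t ht => hw t (by simp [ht])
    by_cases hv : v ∈ T
    · exact ⟨u, v, ha, hv, huv, refl ⟨hu, ha⟩, w, hw'⟩
    · obtain ⟨p, t, h1, h2, h3, h4, h5⟩ := ih hv hb hw'
      exact ⟨p, t, h1, h2, h3, head huv ⟨hu, ha⟩ h4, h5⟩

/-- Last exit from `T`. -/
theorem last_exit (h : Conn S a b) (ha : a ∈ T) (hb : b ∉ T) :
    ∃ t u, t ∈ T ∧ u ∉ T ∧ Adj t u ∧ Conn S a t ∧ Conn (S \ T) u b := by
  obtain ⟨u, t, h1, h2, h3, h4, h5⟩ := h.symm.first_hit hb ha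
  exact ⟨t, u, h2, h1, h3.symm, h5.symm, h4.symm⟩

/-- First visit of `T`, the starting point being allowed. -/
theorem first_hit' (h : Conn S a b) (hb : b ∈ T) :
    ∃ t, t ∈ T ∧ Conn (S \ T ∪ {t}) a t ∧ Conn S t b := by
  by_cases ha : a ∈ T
  · exact ⟨a, ha, refl (by simp), h⟩
  · obtain ⟨u, t, _, h2, h3, h4, h5⟩ := h.first_hit ha hb
    exact ⟨t, h2, (h4.mono Set.subset_union_left).tail h3 (by simp), h5⟩

/-- A connection crosses every slab of a function that moves by at most one along edges. -/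
theorem sub_cross (f : Site → ℤ) (hf : ∀ x y, Adj x y → f y ≤ f x + 1) {i j : ℤ}
    (h : Conn S a b) (hij : i ≤ j) (ha : f a ≤ i) (hb : j ≤ f b) :
    ∃ a' b', f a' = i ∧ f b' = j ∧ Conn (S ∩ {v | i ≤ f v ∧ f v ≤ j}) a' b' ∧ Conn S a a' ∧
      Conn S b' b ∧ (a' = a ∨ ∃ u, u ∈ S ∧ Adj a' u ∧ f u < i) := by
  obtain ⟨b', hb1, hb2, hb3⟩ := h.first_hit' (T := {v | j ≤ f v}) hb
  have hb1 : j ≤ f b' := hb1
  have hbj : f b' = j := by
    by_cases hab : a = b'
    · subst hab; omega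
    · obtain ⟨u, t, h1, h2, h3, h4, _⟩ := hb2.first_hit (T := {b'}) hab rfl
      have ht : t = b' := h2
      subst ht
      have hu := h4.right_mem
      have hu' : ¬ j ≤ f u := by
        rcases hu.1 with hu1 | hu1
        · exact hu1.2
        · exact absurd hu1 hu.2
      have := hf u t h3
      omega
  have hsub : S \ {v | j ≤ f v} ∪ {b'} ⊆ S ∩ {v | f v ≤ j} := by
    rintro v (hv | hv)
    · exact ⟨hv.1, le_of_lt (not_le.1 (show ¬ j ≤ f v from hv.2))⟩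
    · rw [Set.mem_singleton_iff.1 hv]; exact ⟨hb3.left_mem, hbj.le⟩
  have h2 := hb2.mono hsub
  by_cases hex : ∃ u, Conn (S ∩ {v | f v ≤ j}) a u ∧ Conn (S ∩ {v | f v ≤ j}) u b' ∧ f u < i
  · obtain ⟨u, hu1, hu2, hu3⟩ := hex
    obtain ⟨t, a', h1, h3, h4, h5, h6⟩ := hu2.last_exit (T := {v | f v < i}) hu3
      (show ¬ f b' < i by omega)
    have h1 : f t < i := h1
    have h3 : ¬ f a' < i := h3
    have := hf t a' h4
    refine ⟨a', b', by omega, hbj, h6.mono ?_, ?_, hb3, Or.inr ⟨t, h5.right_mem.1, h4.symm, h1⟩⟩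
    · rintro v ⟨⟨hv1, hv2⟩, hv3⟩
      exact ⟨hv1, not_lt.1 hv3, hv2⟩
    · exact ((hu1.trans h5).mono Set.inter_subset_left).tail h4 h6.left_mem.1.1
  · have hall : ∀ v, Conn (S ∩ {v | f v ≤ j}) a v → i ≤ f v := fun v hv => by
      by_contra hc
      exact hex ⟨v, hv, hv.symm.trans h2, not_le.1 hc⟩
    have hai : i ≤ f a := hall a (refl h2.left_mem)
    refine ⟨a, b', by omega, hbj, (h2.inter_of (T := {v | i ≤ f v}) hall).mono ?_,
      refl h.left_mem, hb3, Or.inl rfl⟩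
    rintro v ⟨⟨hv1, hv2⟩, hv3⟩
    exact ⟨hv1, hv3, hv2⟩

theorem congr_sup {Z S' : Set Site} (hS : ∀ v ∈ Z, v ∈ S ↔ v ∈ S') (h : Conn (S ∩ Z) a b) :
    Conn (S' ∩ Z) a b :=
  h.mono fun v hv => ⟨(hS v hv.2).1 hv.1, hv.2⟩

end Conn

theorem conn_hor {S : Set Site} {x1 x2 y : ℤ} (h : x1 ≤ x2)
    (hS : ∀ x, x1 ≤ x → x ≤ x2 → (x, y) ∈ S) : Conn S (x1, y) (x2, y) := by
  induction x2, h using Int.leInduction with
  | base => exact Conn.refl (hS _ le_rfl le_rfl)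
  | succ n hn ih =>
    exact (ih fun x h1 h2 => hS x h1 (by omega)).tail (by simp [Adj]) (hS _ (by omega) le_rfl)

theorem conn_ver {S : Set Site} {x y1 y2 : ℤ} (h : y1 ≤ y2)
    (hS : ∀ y, y1 ≤ y → y ≤ y2 → (x, y) ∈ S) : Conn S (x, y1) (x, y2) := by
  induction y2, h using Int.leInduction with
  | base => exact Conn.refl (hS _ le_rfl le_rfl)
  | succ n hn ih =>
    exact (ih fun y h1 h2 => hS y h1 (by omega)).tail (by simp [Adj]) (hS _ (by omega) le_rfl)

theorem isConn_rect (x1 x2 y1 y2 : ℤ) : IsConn (rect x1 x2 y1 y2) := by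
  have key : ∀ a ∈ rect x1 x2 y1 y2, Conn (rect x1 x2 y1 y2) (x1, y1) a := by
    rintro ⟨x, y⟩ ⟨h1, h2, h3, h4⟩
    simp only at h1 h2 h3 h4
    refine (conn_hor (y := y1) h1 fun t _ _ => ?_).trans (conn_ver h3 fun t _ _ => ?_) <;>
      simp only [mem_rect] <;> omega
  exact fun a ha b hb => (key a ha).symm.trans (key b hb)

/-- A connection inside `D` that passes the columns `x1 ≤ x2`, where `D` has rows in `[y1,y2]`,
contains a left-right crossing. -/
theorem Conn.sub_LR {S : Set Site} {a b : Site} {x1 x2 y1 y2 : ℤ} (h : Conn S a b) (hx : x1 ≤ x2)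
    (ha : a.1 ≤ x1) (hb : x2 ≤ b.1) (hS : ∀ v ∈ S, x1 ≤ v.1 → v.1 ≤ x2 → y1 ≤ v.2 ∧ v.2 ≤ y2) :
    ∃ a' b' : Site, a'.1 = x1 ∧ b'.1 = x2 ∧ Conn (S ∩ rect x1 x2 y1 y2) a' b' ∧ Conn S a a' := by
  obtain ⟨a', b', h1, h2, h3, h4, _⟩ :=
    h.sub_cross (fun v => v.1) (fun x y hxy => by unfold Adj at hxy; omega) hx ha hb
  exact ⟨a', b', h1, h2, h3.mono fun v hv =>
    ⟨hv.1, hv.2.1, hv.2.2, hS v hv.1 hv.2.1 hv.2.2⟩, h4⟩

theorem Conn.sub_TB {S : Set Site} {a b : Site} {x1 x2 y1 y2 : ℤ} (h : Conn S a b) (hy : y1 ≤ y2)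
    (ha : a.2 ≤ y1) (hb : y2 ≤ b.2) (hS : ∀ v ∈ S, y1 ≤ v.2 → v.2 ≤ y2 → x1 ≤ v.1 ∧ v.1 ≤ x2) :
    ∃ a' b' : Site, a'.2 = y1 ∧ b'.2 = y2 ∧ Conn (S ∩ rect x1 x2 y1 y2) a' b' ∧ Conn S a a' := by
  obtain ⟨a', b', h1, h2, h3, h4, _⟩ :=
    h.sub_cross (fun v => v.2) (fun x y hxy => by unfold Adj at hxy; omega) hy ha hb
  exact ⟨a', b', h1, h2, h3.mono fun v hv =>
    ⟨hv.1, (hS v hv.1 hv.2.1 hv.2.2).1, (hS v hv.1 hv.2.1 hv.2.2).2, hv.2.1, hv.2.2⟩, h4⟩

/-- A connection from inside `ball c (r-1)` (or from an inner boundary point) to distance at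
least `R` contains a crossing of the ring. -/
theorem Conn.sub_ann {S : Set Site} {a b c : Site} {r R : ℕ} (h : Conn S a b) (hr : r ≤ R)
    (ha : dst c a < r ∨ InnerB c r a) (hb : R ≤ dst c b) :
    ∃ a' b', InnerB c r a' ∧ dst c b' = R ∧ Conn (S ∩ ann c r R) a' b' ∧ Conn S a a' ∧
      Conn S b' b := by
  obtain ⟨a', b', h1, h2, h3, h4, h5, h6⟩ :=
    h.sub_cross (fun v => (dst c v : ℤ)) (fun x y hxy => by have := hxy.dst_le c; omega)
      (i := r) (j := R) (by omega) (by rcases ha with ha | ha; omega; have := ha.1; omega)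
      (by omega)
  refine ⟨a', b', ?_, by omega, h3.mono fun v hv => ⟨hv.1, ?_⟩, h4, h5⟩
  · rcases h6 with rfl | ⟨u, _, hu1, hu2⟩
    · rcases ha with ha | ha
      · omega
      · exact ha
    · exact ⟨by omega, u, hu1, by omega⟩
  · have := hv.2
    simp only [Set.mem_ofPred_eq] at this
    simp only [mem_ann]; omega

theorem Conn.arm {S : Set Site} {a b c : Site} {r R : ℕ} (h : Conn S a b) (hr : r ≤ R)
    (ha : dst c a < r ∨ InnerB c r a) (hb : R ≤ dst c b) : Arm S c r R := by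
  obtain ⟨a', b', h1, h2, h3, _⟩ := h.sub_ann hr ha hb
  exact ⟨a', b', h1, h2, h3⟩

theorem InnerB.le_or {c a : Site} {r r' : ℕ} (h : InnerB c r a) (hr : r ≤ r') :
    dst c a < r' ∨ InnerB c r' a := by
  rcases hr.lt_or_eq with h' | rfl
  · left; have := h.1; omega
  · exact Or.inr h

theorem Arm.mono_ring {S : Set Site} {c : Site} {r R r' R' : ℕ} (h : Arm S c r R) (h1 : r ≤ r')
    (h2 : r' ≤ R') (h3 : R' ≤ R) : Arm S c r' R' := by
  obtain ⟨a, b, ha, hb, hc⟩ := h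
  exact (hc.mono Set.inter_subset_left).arm h2 (ha.le_or h1) (by omega)

theorem Arm.mono {S T : Set Site} {c : Site} {r R : ℕ} (h : Arm S c r R) (hST : S ⊆ T) :
    Arm T c r R := by
  obtain ⟨a, b, ha, hb, hc⟩ := h
  exact ⟨a, b, ha, hb, hc.mono (Set.inter_subset_inter_left _ hST)⟩

theorem Two.mono_ring {S : Set Site} {c : Site} {r R r' R' : ℕ} (h : Two S c r R) (h1 : r ≤ r')
    (h2 : r' ≤ R') (h3 : R' ≤ R) : Two S c r' R' := by
  obtain ⟨a, b, a', b', ha, ha', hb, hb', hc, hc', hn⟩ := h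
  obtain ⟨u, v, hu, hv, h4, h5, _⟩ := hc.sub_ann h2 (ha.le_or h1) (by omega)
  obtain ⟨u', v', hu', hv', h4', h5', _⟩ := hc'.sub_ann h2 (ha'.le_or h1) (by omega)
  have hs : S ∩ ann c r R ∩ ann c r' R' ⊆ S ∩ ann c r' R' := fun t ht => ⟨ht.1.1, ht.2⟩
  refine ⟨u, v, u', v', hu, hu', hv, hv', h4.mono hs, h4'.mono hs, fun hcon => hn ?_⟩
  have hs2 : S ∩ ann c r' R' ⊆ S ∩ ann c r R := fun t ht => ⟨ht.1, by
    have := ht.2
    simp only [mem_ann] at *; omega⟩
  exact h5.trans ((hcon.mono hs2).trans h5'.symm)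

theorem Two.arm {S : Set Site} {c : Site} {r R : ℕ} (h : Two S c r R) : Arm S c r R := by
  obtain ⟨a, b, _, _, ha, _, hb, _, hc, _⟩ := h
  exact ⟨a, b, ha, hb, hc⟩

theorem SandTwo.mono_ring {L H : Set Site} {c : Site} {r R r' R' : ℕ} (h : SandTwo L H c r R)
    (h1 : r ≤ r') (h2 : r' ≤ R') (h3 : R' ≤ R) : SandTwo L H c r' R' := by
  obtain ⟨X, hL, hH, h⟩ := h
  exact ⟨X, hL, hH, h.mono_ring h1 h2 h3⟩

theorem SandTwo.mono {L H L' H' : Set Site} {c : Site} {r R : ℕ} (h : SandTwo L H c r R)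
    (h1 : L' ⊆ L) (h2 : H ⊆ H') : SandTwo L' H' c r R := by
  obtain ⟨X, hL, hH, h⟩ := h
  exact ⟨X, h1.trans hL, hH.trans h2, h⟩

theorem inc_LR (x1 x2 y1 y2 : ℤ) : Inc fun S => LR S x1 x2 y1 y2 := by
  rintro S S' hS ⟨a, b, h1, h2, h3⟩
  exact ⟨a, b, h1, h2, h3.mono (Set.inter_subset_inter_left _ hS)⟩

theorem inc_TB (x1 x2 y1 y2 : ℤ) : Inc fun S => TB S x1 x2 y1 y2 := by
  rintro S S' hS ⟨a, b, h1, h2, h3⟩
  exact ⟨a, b, h1, h2, h3.mono (Set.inter_subset_inter_left _ hS)⟩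

theorem inc_Arm (c : Site) (r R : ℕ) : Inc fun S => Arm S c r R := fun _ _ hS h => h.mono hS

theorem sup_LR (x1 x2 y1 y2 : ℤ) : Sup (fun S => LR S x1 x2 y1 y2) (rect x1 x2 y1 y2) := by
  rintro S S' hS ⟨a, b, h1, h2, h3⟩
  exact ⟨a, b, h1, h2, h3.congr_sup hS⟩

theorem sup_TB (x1 x2 y1 y2 : ℤ) : Sup (fun S => TB S x1 x2 y1 y2) (rect x1 x2 y1 y2) := by
  rintro S S' hS ⟨a, b, h1, h2, h3⟩
  exact ⟨a, b, h1, h2, h3.congr_sup hS⟩

theorem sup_Arm (c : Site) (r R : ℕ) : Sup (fun S => Arm S c r R) (ann c r R) := by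
  rintro S S' hS ⟨a, b, h1, h2, h3⟩
  exact ⟨a, b, h1, h2, h3.congr_sup hS⟩

theorem sup_Two (c : Site) (r R : ℕ) : Sup (fun S => Two S c r R) (ann c r R) := by
  rintro S S' hS ⟨a, b, a', b', h1, h2, h3, h4, h5, h6, h7⟩
  exact ⟨a, b, a', b', h1, h2, h3, h4, h5.congr_sup hS, h6.congr_sup hS,
    fun h => h7 (h.congr_sup fun v hv => (hS v hv).symm)⟩

theorem Sup.mono {Φ : Set Site → Prop} {Z Z' : Set Site} (h : Sup Φ Z) (hZ : Z ⊆ Z') : Sup Φ Z' :=
  fun S S' hS => h S S' fun v hv => hS v (hZ hv)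

theorem Sup.and {Φ Ψ : Set Site → Prop} {Z : Set Site} (h : Sup Φ Z) (h' : Sup Ψ Z) :
    Sup (fun S => Φ S ∧ Ψ S) Z := fun S S' hS hh => ⟨h S S' hS hh.1, h' S S' hS hh.2⟩

theorem Sup.not {Φ : Set Site → Prop} {Z : Set Site} (h : Sup Φ Z) : Sup (fun S => ¬ Φ S) Z :=
  fun S S' hS hn hp => hn (h S' S (fun v hv => (hS v hv).symm) hp)

theorem Sup.compl {Φ : Set Site → Prop} {Z : Set Site} (h : Sup Φ Z) : Sup (fun S => Φ Sᶜ) Z :=
  fun S S' hS hp => h Sᶜ S'ᶜ (fun v hv => by simp [hS v hv]) hp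

theorem Inc.and {Φ Ψ : Set Site → Prop} (h : Inc Φ) (h' : Inc Ψ) : Inc fun S => Φ S ∧ Ψ S :=
  fun S S' hS hh => ⟨h S S' hS hh.1, h' S S' hS hh.2⟩

theorem Sup.dep {Φ : Set Site → Prop} {Z : Set Site} (h : Sup Φ Z) (b : Bool) :
    Dep (ev b Φ) Z :=
  fun ω ω' hω hh => h _ _ (fun v hv => by simp [hω v hv]) hh

theorem Sup.loc {Φ : Set Site → Prop} {Z : Set Site} (h : Sup Φ Z) (hZ : Z.Finite) (b : Bool) :
    Loc (ev b Φ) := ⟨Z, hZ, h.dep b⟩

section Dep
variable {α : Type} {E F : Set (Site → α)} {S T : Set Site}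

theorem Dep.mono (h : Dep E S) (hST : S ⊆ T) : Dep E T :=
  fun ω ω' hω => h ω ω' fun v hv => hω v (hST hv)

theorem Dep.compl (h : Dep E S) : Dep Eᶜ S :=
  fun ω ω' hω hn hp => hn (h ω' ω (fun v hv => (hω v hv).symm) hp)

theorem Dep.inter (h : Dep E S) (h' : Dep F S) : Dep (E ∩ F) S :=
  fun ω ω' hω hh => ⟨h ω ω' hω hh.1, h' ω ω' hω hh.2⟩

theorem Dep.union (h : Dep E S) (h' : Dep F S) : Dep (E ∪ F) S :=
  fun ω ω' hω hh => hh.elim (fun h1 => Or.inl (h ω ω' hω h1)) fun h1 => Or.inr (h' ω ω' hω h1)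

theorem Loc.compl (h : Loc E) : Loc Eᶜ := let ⟨S, h1, h2⟩ := h; ⟨S, h1, h2.compl⟩

theorem Loc.inter (h : Loc E) (h' : Loc F) : Loc (E ∩ F) :=
  let ⟨S, h1, h2⟩ := h
  let ⟨T, h3, h4⟩ := h'
  ⟨S ∪ T, h1.union h3, (h2.mono Set.subset_union_left).inter (h4.mono Set.subset_union_right)⟩

theorem Loc.union (h : Loc E) (h' : Loc F) : Loc (E ∪ F) :=
  let ⟨S, h1, h2⟩ := h
  let ⟨T, h3, h4⟩ := h'
  ⟨S ∪ T, h1.union h3, (h2.mono Set.subset_union_left).union (h4.mono Set.subset_union_right)⟩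

end Dep

/-! ### Lattice symmetries -/

/-- A bijection of the sites that preserves adjacency. -/
structure Aut where
  e : Site ≃ Site
  adj : ∀ x y, Adj (e x) (e y) ↔ Adj x y

theorem Conn.map (g : Aut) {S : Set Site} {a b : Site} (h : Conn (g.e ⁻¹' S) a b) :
    Conn S (g.e a) (g.e b) :=
  h.ind (P := fun v => Conn S (g.e a) (g.e v)) (Conn.refl h.left_mem) fun x y _ hy hxy hp =>
    hp.tail ((g.adj x y).2 hxy) hy

/-- The inverse symmetry. -/
def Aut.inv (g : Aut) : Aut where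
  e := g.e.symm
  adj x y := by rw [← g.adj]; simp

theorem conn_preimage (g : Aut) {S : Set Site} {a b : Site} :
    Conn (g.e ⁻¹' S) a b ↔ Conn S (g.e a) (g.e b) := by
  refine ⟨Conn.map g, fun h => ?_⟩
  have := Conn.map g.inv (S := g.e ⁻¹' S) (a := g.e a) (b := g.e b)
    (h.mono fun v hv => by simpa [Aut.inv] using hv)
  simpa [Aut.inv] using this

/-- Translation by `c`. -/
def sh (c : Site) : Aut where
  e := Equiv.addRight c
  adj x y := by
    simp only [Equiv.coe_addRight, Adj, Prod.fst_add, Prod.snd_add]; (clear * -; lia)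

/-- Exchange of the coordinates. -/
def sw : Aut where
  e := Equiv.prodComm ℤ ℤ
  adj x y := by
    simp only [Equiv.prodComm_apply, Adj, Prod.fst_swap, Prod.snd_swap]; (clear * -; lia)

/-- The symmetry that carries the bottom side of a centred box to its right (`0`), top (`1`),
left (`2`), bottom (`3`) side. Each of the four is an involution. -/
def syf (i : Fin 4) (v : Site) : Site :=
  if i = 0 then (-v.2, -v.1) else if i = 1 then (-v.1, -v.2) else if i = 2 then (v.2, v.1) else v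

theorem syf_syf (i : Fin 4) (v : Site) : syf i (syf i v) = v := by
  fin_cases i <;> simp [syf]

/-- `syf` as a lattice symmetry. -/
def sy (i : Fin 4) : Aut where
  e := ⟨syf i, syf i, syf_syf i, syf_syf i⟩
  adj x y := by
    fin_cases i <;> simp [syf, Adj] <;> (clear * -; lia)

@[simp] theorem sh_apply (c v : Site) : (sh c).e v = v + c := rfl
@[simp] theorem sw_apply (v : Site) : sw.e v = (v.2, v.1) := rfl
@[simp] theorem sy_apply (i : Fin 4) (v : Site) : (sy i).e v = syf i v := rfl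

theorem dst_syf (i : Fin 4) (c v : Site) : dst (syf i c) (syf i v) = dst c v := by
  fin_cases i <;> simp [syf, dst] <;> (clear * -; lia)

theorem syf_zero (i : Fin 4) : syf i 0 = 0 := by fin_cases i <;> simp [syf]

theorem dst_zero_syf (i : Fin 4) (v : Site) : dst 0 (syf i v) = dst 0 v := by
  have := dst_syf i 0 v; rwa [syf_zero] at this

theorem dst_add (c a v : Site) : dst (a + c) (v + c) = dst a v := by
  simp only [dst, Prod.fst_add, Prod.snd_add]; (clear * -; lia)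

/-- Transport of the ring events along a symmetry that preserves the distance to the centre. -/
theorem innerB_map (g : Aut) {c c' : Site} (hg : ∀ v, dst c' (g.e v) = dst c v) {r : ℕ} {v : Site} :
    InnerB c' r (g.e v) ↔ InnerB c r v := by
  constructor
  · rintro ⟨h1, u, h2, h3⟩
    obtain ⟨u, rfl⟩ := g.e.surjective u
    exact ⟨by rw [← hg, h1], u, (g.adj _ _).1 h2, by rwa [← hg]⟩
  · rintro ⟨h1, u, h2, h3⟩
    exact ⟨by rw [hg, h1], g.e u, (g.adj _ _).2 h2, by rwa [hg]⟩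

theorem conn_ann_map (g : Aut) {c c' : Site} (hg : ∀ v, dst c' (g.e v) = dst c v) {r R : ℕ}
    {S : Set Site} {a b : Site} :
    Conn (S ∩ ann c' r R) (g.e a) (g.e b) ↔ Conn (g.e ⁻¹' S ∩ ann c r R) a b := by
  rw [← conn_preimage]
  have : g.e ⁻¹' (S ∩ ann c' r R) = g.e ⁻¹' S ∩ ann c r R := by
    ext v; simp [hg]
  rw [this]

theorem arm_map (g : Aut) {c c' : Site} (hg : ∀ v, dst c' (g.e v) = dst c v) {r R : ℕ}
    {S : Set Site} : Arm S c' r R ↔ Arm (g.e ⁻¹' S) c r R := by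
  constructor
  · rintro ⟨a, b, h1, h2, h3⟩
    obtain ⟨a, rfl⟩ := g.e.surjective a
    obtain ⟨b, rfl⟩ := g.e.surjective b
    exact ⟨a, b, (innerB_map g hg).1 h1, by rwa [← hg], (conn_ann_map g hg).1 h3⟩
  · rintro ⟨a, b, h1, h2, h3⟩
    exact ⟨g.e a, g.e b, (innerB_map g hg).2 h1, by rwa [hg], (conn_ann_map g hg).2 h3⟩

theorem two_map (g : Aut) {c c' : Site} (hg : ∀ v, dst c' (g.e v) = dst c v) {r R : ℕ}
    {S : Set Site} : Two S c' r R ↔ Two (g.e ⁻¹' S) c r R := by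
  constructor
  · rintro ⟨a, b, a', b', h1, h2, h3, h4, h5, h6, h7⟩
    obtain ⟨a, rfl⟩ := g.e.surjective a
    obtain ⟨b, rfl⟩ := g.e.surjective b
    obtain ⟨a', rfl⟩ := g.e.surjective a'
    obtain ⟨b', rfl⟩ := g.e.surjective b'
    exact ⟨a, b, a', b', (innerB_map g hg).1 h1, (innerB_map g hg).1 h2, by rwa [← hg],
      by rwa [← hg], (conn_ann_map g hg).1 h5, (conn_ann_map g hg).1 h6,
      fun h => h7 ((conn_ann_map g hg).2 h)⟩
  · rintro ⟨a, b, a', b', h1, h2, h3, h4, h5, h6, h7⟩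
    exact ⟨g.e a, g.e b, g.e a', g.e b', (innerB_map g hg).2 h1, (innerB_map g hg).2 h2,
      by rwa [hg], by rwa [hg], (conn_ann_map g hg).2 h5, (conn_ann_map g hg).2 h6,
      fun h => h7 ((conn_ann_map g hg).1 h)⟩

theorem dst_sh (c v : Site) : dst c ((sh c).e v) = dst 0 v := by
  simp only [sh_apply, dst, Prod.fst_add, Prod.snd_add, Prod.fst_zero, Prod.snd_zero]; (clear * -; lia)

theorem LR_sh (c : Site) {S : Set Site} {x1 x2 y1 y2 : ℤ} :
    LR S (x1 + c.1) (x2 + c.1) (y1 + c.2) (y2 + c.2) ↔ LR ((sh c).e ⁻¹' S) x1 x2 y1 y2 := by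
  have hr : (sh c).e ⁻¹' (S ∩ rect (x1 + c.1) (x2 + c.1) (y1 + c.2) (y2 + c.2)) =
      (sh c).e ⁻¹' S ∩ rect x1 x2 y1 y2 := by
    ext v; simp
  constructor
  · rintro ⟨a, b, h1, h2, h3⟩
    obtain ⟨a, rfl⟩ := (sh c).e.surjective a
    obtain ⟨b, rfl⟩ := (sh c).e.surjective b
    rw [← conn_preimage, hr] at h3
    exact ⟨a, b, by simpa using h1, by simpa using h2, h3⟩
  · rintro ⟨a, b, h1, h2, h3⟩
    rw [← hr, conn_preimage] at h3
    exact ⟨_, _, by simp [h1], by simp [h2], h3⟩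

theorem TB_iff_LR_sw {S : Set Site} {x1 x2 y1 y2 : ℤ} :
    TB S x1 x2 y1 y2 ↔ LR (sw.e ⁻¹' S) y1 y2 x1 x2 := by
  have hr : sw.e ⁻¹' (S ∩ rect x1 x2 y1 y2) = sw.e ⁻¹' S ∩ rect y1 y2 x1 x2 := by
    ext v; simp; tauto
  constructor
  · rintro ⟨a, b, h1, h2, h3⟩
    obtain ⟨a, rfl⟩ := sw.e.surjective a
    obtain ⟨b, rfl⟩ := sw.e.surjective b
    rw [← conn_preimage, hr] at h3
    exact ⟨a, b, by simpa using h1, by simpa using h2, h3⟩
  · rintro ⟨a, b, h1, h2, h3⟩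
    rw [← hr, conn_preimage] at h3
    exact ⟨_, _, by simp [h1], by simp [h2], h3⟩

end Pool.Agent.Work.MP_ccd212_pr
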