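import Mathlib

/-!
Site percolation on the triangular lattice in the coordinates `ℤ × ℤ`: lattice, boxes,
connections, arm events, product probabilities of finite label spaces, good scales.
-/

namespace Pool.Agent.Work.MP_ccd212_pr

open MeasureTheory

/-- Sites of the triangular lattice, in the basis `1, exp(iπ/3)`. -/
abbrev Site := ℤ × ℤ

/-- Nearest neighbours: differences `±(1,0)`, `±(0,1)`, `±(1,-1)`. -/
def Adj (x y : Site) : Prop :=
  (y.1 = x.1 + 1 ∧ y.2 = x.2) ∨ (y.1 = x.1 - 1 ∧ y.2 = x.2) ∨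
  (y.1 = x.1 ∧ y.2 = x.2 + 1) ∨ (y.1 = x.1 ∧ y.2 = x.2 - 1) ∨
  (y.1 = x.1 + 1 ∧ y.2 = x.2 - 1) ∨ (y.1 = x.1 - 1 ∧ y.2 = x.2 + 1)

instance : DecidableRel Adj := fun x y => by unfold Adj; infer_instance

/-- The triangular lattice as a graph. -/
def G : SimpleGraph Site where
  Adj := Adj
  symm := ⟨fun x y h => by unfold Adj at *; omega⟩
  loopless := ⟨fun x h => by unfold Adj at h; omega⟩

/-- Sup-norm distance of the coordinates. -/
def dst (c v : Site) : ℕ := max (v.1 - c.1).natAbs (v.2 - c.2).natAbs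

/-- The box of radius `R`. -/
def ball (c : Site) (R : ℕ) : Set Site := {v | dst c v ≤ R}

/-- The square ring `r ≤ dst ≤ R`. -/
def ann (c : Site) (r R : ℕ) : Set Site := {v | r ≤ dst c v ∧ dst c v ≤ R}

/-- A coordinate rectangle (closed). -/
def rect (x1 x2 y1 y2 : ℤ) : Set Site := {v | x1 ≤ v.1 ∧ v.1 ≤ x2 ∧ y1 ≤ v.2 ∧ v.2 ≤ y2}

/-- `a` and `b` are joined by a lattice walk all of whose vertices lie in `S`. -/
def Conn (S : Set Site) (a b : Site) : Prop := ∃ w : G.Walk a b, ∀ v ∈ w.support, v ∈ S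

/-- Any two points of `S` are joined inside `S`. -/
def IsConn (S : Set Site) : Prop := ∀ a ∈ S, ∀ b ∈ S, Conn S a b

/-- Left-right crossing of a rectangle inside `S`. -/
def LR (S : Set Site) (x1 x2 y1 y2 : ℤ) : Prop :=
  ∃ a b : Site, a.1 = x1 ∧ b.1 = x2 ∧ Conn (S ∩ rect x1 x2 y1 y2) a b

/-- Bottom-top crossing of a rectangle inside `S`. -/
def TB (S : Set Site) (x1 x2 y1 y2 : ℤ) : Prop :=
  ∃ a b : Site, a.2 = y1 ∧ b.2 = y2 ∧ Conn (S ∩ rect x1 x2 y1 y2) a b

/-- `v` is at distance `r` from `c` and has a neighbour closer to `c`. -/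
def InnerB (c : Site) (r : ℕ) (v : Site) : Prop := dst c v = r ∧ ∃ u, Adj v u ∧ dst c u < r

/-- A crossing of the ring inside `S`. -/
def Arm (S : Set Site) (c : Site) (r R : ℕ) : Prop :=
  ∃ a b, InnerB c r a ∧ dst c b = R ∧ Conn (S ∩ ann c r R) a b

/-- Two crossings of the ring inside `S` that are not joined inside `S` and the ring. -/
def Two (S : Set Site) (c : Site) (r R : ℕ) : Prop :=
  ∃ a b a' b', InnerB c r a ∧ InnerB c r a' ∧ dst c b = R ∧ dst c b' = R ∧
    Conn (S ∩ ann c r R) a b ∧ Conn (S ∩ ann c r R) a' b' ∧ ¬ Conn (S ∩ ann c r R) a a'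

/-- `Two` for some set between `Lo` and `Hi`. -/
def SandTwo (Lo Hi : Set Site) (c : Site) (r R : ℕ) : Prop :=
  ∃ X : Set Site, Lo ⊆ X ∧ X ⊆ Hi ∧ Two X c r R

/-! ### Product probabilities -/

/-- Probability weights on a finite type. -/
structure PW (α : Type) [Fintype α] where
  w : α → ℝ
  nonneg : ∀ a, 0 ≤ w a
  sum_one : ∑ a, w a = 1

/-- The measure with the given weights. -/
noncomputable def PW.meas {α : Type} [Fintype α] (μ : PW α) : @Measure α ⊤ :=
  letI : MeasurableSpace α := ⊤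
  ∑ a, ENNReal.ofReal (μ.w a) • Measure.dirac a

/-- The product measure on labellings of the lattice. -/
noncomputable def PW.prod {α : Type} [Fintype α] (μ : PW α) :
    @Measure (Site → α) (@MeasurableSpace.pi Site (fun _ => α) fun _ => ⊤) :=
  letI : MeasurableSpace α := ⊤
  Measure.infinitePi fun _ : Site => μ.meas

/-- Probability of a set of labellings under independent labels with weights `μ`. -/
noncomputable def pr {α : Type} [Fintype α] (μ : PW α) (E : Set (Site → α)) : ℝ :=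
  (μ.prod E).toReal

/-- Total weight of a set of labels. -/
noncomputable def PW.mass {α : Type} [Fintype α] (μ : PW α) (A : Set α) : ℝ :=
  ∑ a, Set.indicator A μ.w a

/-- Bernoulli weights, the parameter being clamped to `[0,1]`. -/
noncomputable def ber (p : ℝ) : PW Bool where
  w b := if b then max 0 (min p 1) else 1 - max 0 (min p 1)
  nonneg b := by
    cases b
    · simp only [Bool.false_eq_true, if_false, sub_nonneg]
      exact max_le zero_le_one (min_le_right _ _)
    · simp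
  sum_one := by simp

/-- Uniform weights on `Fin (m + 1)`. -/
noncomputable def unif (m : ℕ) : PW (Fin (m + 1)) where
  w _ := 1 / (m + 1 : ℝ)
  nonneg _ := by positivity
  sum_one := by
    simp only [Finset.sum_const, Finset.card_univ, Fintype.card_fin, nsmul_eq_mul]
    push_cast
    field_simp

/-- The event `E` only depends on the labels in `S`. -/
def Dep {α : Type} (E : Set (Site → α)) (S : Set Site) : Prop :=
  ∀ ω ω' : Site → α, (∀ v ∈ S, ω v = ω' v) → ω ∈ E → ω' ∈ E

/-- The event `E` only depends on finitely many labels. -/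
def Loc {α : Type} (E : Set (Site → α)) : Prop := ∃ S : Set Site, S.Finite ∧ Dep E S

/-- Sites of colour `b`. -/
def Col (ω : Site → Bool) (b : Bool) : Set Site := {v | ω v = b}

/-- The event that the set of sites of colour `b` has the property `Φ`. -/
def ev (b : Bool) (Φ : Set Site → Prop) : Set (Site → Bool) := {ω | Φ (Col ω b)}

/-- A property of sets that only looks at the trace on `Z`. -/
def Sup (Φ : Set Site → Prop) (Z : Set Site) : Prop :=
  ∀ S S' : Set Site, (∀ v ∈ Z, v ∈ S ↔ v ∈ S') → Φ S → Φ S'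

/-- An increasing property of sets. -/
def Inc (Φ : Set Site → Prop) : Prop := ∀ S S' : Set Site, S ⊆ S' → Φ S → Φ S'

/-- Probability of two distinct open crossing clusters. -/
noncomputable def alpha (p : ℝ) (r R : ℕ) : ℝ := pr (ber p) (ev true fun S => Two S 0 r R)

/-- Box-crossing hypothesis with constant `c` up to scale `N`, for both colours. -/
def RSW (p c : ℝ) (N : ℕ) : Prop :=
  1 / 4 ≤ p ∧ p ≤ 3 / 4 ∧ ∀ n : ℕ, 1 ≤ n → n ≤ N → ∀ b : Bool,
    c ≤ pr (ber p) (ev b fun S => LR S 0 (2 * n) 0 n)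

/-! ### Good scales -/

/-- Sites with label below `k`. -/
def lev {m : ℕ} (ω : Site → Fin m) (k : ℕ) : Set Site := {v | (ω v : ℕ) < k}

/-- Sites with label in the window `[M - j H, M + j H)`. -/
def win {m : ℕ} (ω : Site → Fin m) (M H j : ℕ) : Set Site :=
  {v | M - j * H ≤ (ω v : ℕ) ∧ (ω v : ℕ) < M + j * H}

/-- Window sites of the thin ring with four arms of length `s` in some intermediate
configuration. -/
def XS {m : ℕ} (ω : Site → Fin m) (M H j : ℕ) (g : Site) (s : ℕ) : Set Site :=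
  {v | v ∈ ann g (5 * s) (6 * s) ∧ v ∈ win ω M H j ∧
    (SandTwo (lev ω (M - j * H)) (lev ω (M + j * H)) v 1 s ∨
      SandTwo (lev ω (M + j * H))ᶜ (lev ω (M - j * H))ᶜ v 1 s)}

/-- The scale `s` is good around `g`. -/
structure Good {m : ℕ} (ω : Site → Fin m) (M H k0 : ℕ) (g : Site) (s : ℕ) : Prop where
  radial : Arm (lev ω (M + H)) g s (9 * s)
  hi_in : ¬ Arm (lev ω (M + H))ᶜ g s (2 * s)
  hi_mid : ¬ Arm (lev ω (M + H))ᶜ g (5 * s) (6 * s)
  hi_out : ¬ Arm (lev ω (M + H))ᶜ g (8 * s) (9 * s)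
  lo_in : ¬ Arm (lev ω (M - H)) g s (2 * s)
  lo_mid : ¬ Arm (lev ω (M - H)) g (5 * s) (6 * s)
  lo_out : ¬ Arm (lev ω (M - H)) g (8 * s) (9 * s)
  card_le : (XS ω M H 5 g s).ncard ≤ k0
  alone : ∀ v ∈ XS ω M H 5 g s, ∀ u, u ≠ v → dst v u ≤ 2 → u ∉ win ω M H 5

end Pool.Agent.Work.MP_ccd212_pr
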