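import Pool.Agent.Work.MP_ccd212_pr.Basic

-- merged part: Pool.Agent.Work.MP_ccd212_pr.Top3
section
-- merged part: Pool.Agent.Work.MP_ccd212_pr.TDefs
section
/-! Faces of the triangular lattice, winding parity, boundary order of a rectangle. -/

namespace Pool.Agent.Work.MP_ccd212_pr

/-- Faces: `(x, false)` has vertices `x, x+(1,0), x+(0,1)`; `(x, true)` has vertices
`x+(1,0), x+(0,1), x+(1,1)`. -/
abbrev Face := Site × Bool

/-- `v` is a vertex of the face `f`. -/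
def InF (f : Face) (v : Site) : Prop :=
  (v.1 = f.1.1 + 1 ∧ v.2 = f.1.2) ∨ (v.1 = f.1.1 ∧ v.2 = f.1.2 + 1) ∨
  (f.2 = false ∧ v.1 = f.1.1 ∧ v.2 = f.1.2) ∨ (f.2 = true ∧ v.1 = f.1.1 + 1 ∧ v.2 = f.1.2 + 1)

instance (f : Face) (v : Site) : Decidable (InF f v) := by unfold InF; infer_instance

/-- `f` and `g` are the two faces of the edge `a b`. -/
def Shares (f g : Face) (a b : Site) : Prop :=
  f ≠ g ∧ a ≠ b ∧ InF f a ∧ InF f b ∧ InF g a ∧ InF g b

/-- Parity of the number of times a walk uses the edge `a b`. -/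
def mult {u v : Site} (w : G.Walk u v) (a b : Site) : ZMod 2 := (w.edges.count s(a, b) : ℕ)

/-- The edge `a b` lies in the horizontal strip of the face `f`, to the left of `f`. -/
def LeftOf (a b : Site) (f : Face) : Prop :=
  (a.2 = f.1.2 ∧ b.2 = f.1.2 + 1 ∧ a.1 + b.1 ≤ 2 * f.1.1 + (if f.2 then 1 else 0)) ∨
  (b.2 = f.1.2 ∧ a.2 = f.1.2 + 1 ∧ a.1 + b.1 ≤ 2 * f.1.1 + (if f.2 then 1 else 0))

instance (a b : Site) (f : Face) : Decidable (LeftOf a b f) := by unfold LeftOf; infer_instance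

/-- Parity of the number of steps of the walk that cross the horizontal ray going left from `f`. -/
def wind {u v : Site} (w : G.Walk u v) (f : Face) : ZMod 2 :=
  (w.darts.map fun d => if LeftOf d.fst d.snd f then (1 : ZMod 2) else 0).sum

/-- Closed walks inside `D` do not wind around faces that are not inside `D`. -/
def SC (D : Set Site) : Prop :=
  ∀ (u : Site) (w : G.Walk u u), (∀ v ∈ w.support, v ∈ D) →
    ∀ f : Face, (∃ v, InF f v ∧ v ∉ D) → wind w f = 0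

/-- `v` is on the boundary of the rectangle. -/
def OnBd (x1 x2 y1 y2 : ℤ) (v : Site) : Prop :=
  v ∈ rect x1 x2 y1 y2 ∧ (v.1 = x1 ∨ v.1 = x2 ∨ v.2 = y1 ∨ v.2 = y2)

/-- Counterclockwise position of a boundary point, starting from the bottom right corner. -/
def idx (x1 x2 y1 y2 : ℤ) (v : Site) : ℤ :=
  if v.1 = x2 ∧ v.2 < y2 then v.2 - y1
  else if v.2 = y2 ∧ x1 < v.1 then (y2 - y1) + (x2 - v.1)
  else if v.1 = x1 ∧ y1 < v.2 then (y2 - y1) + (x2 - x1) + (y2 - v.2)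
  else 2 * (y2 - y1) + (x2 - x1) + (v.1 - x1)

/-- Position on the boundary of the centred box of radius `n`. -/
def ridx (n : ℕ) (v : Site) : ℤ := idx (-n) n (-n) n v

/-- The four numbers are in cyclic order. -/
def CCW (a b c d : ℤ) : Prop :=
  (a < b ∧ b < c ∧ c < d) ∨ (b < c ∧ c < d ∧ d < a) ∨ (c < d ∧ d < a ∧ a < b) ∨
  (d < a ∧ a < b ∧ b < c)

/-- The pairs `{a,c}` and `{b,d}` separate each other. -/
def Alt (a b c d : ℤ) : Prop := CCW a b c d ∨ CCW a d c b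

/-- An edge from `U` to its complement. -/
def Cut (U : Set Site) (e : Site × Site) : Prop := Adj e.1 e.2 ∧ e.1 ∈ U ∧ e.2 ∉ U

/-- Exactly one of the two faces of the edge lies in `F`. -/
def Exit (F : Set Face) (e : Site × Site) : Prop := ∃ f g, Shares f g e.1 e.2 ∧ f ∈ F ∧ g ∉ F

/-- Two cut edges of a common face of `F`. -/
def CStep (U : Set Site) (F : Set Face) (e e' : Site × Site) : Prop :=
  Cut U e ∧ Cut U e' ∧ ∃ f ∈ F, InF f e.1 ∧ InF f e.2 ∧ InF f e'.1 ∧ InF f e'.2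

/-- A rectangle with the centred box of radius `r - 1` removed. -/
def Dom (x1 x2 y1 y2 : ℤ) (r : ℕ) : Set Site := rect x1 x2 y1 y2 ∩ {v | r ≤ dst 0 v}

/-- The rectangle contains the centred box of radius `n`. -/
def Big (x1 x2 y1 y2 : ℤ) (n : ℕ) : Prop := x1 ≤ -n ∧ (n : ℤ) ≤ x2 ∧ y1 ≤ -n ∧ (n : ℤ) ≤ y2

/-- Colour of arm `i`: the set itself for even `i`, its complement for odd `i`. -/
def cs (S : Set Site) (i : Fin 4) : Set Site := if i.val % 2 = 0 then S else Sᶜ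

/-- Four boundary points whose even and odd pairs separate each other. -/
def AltT (x1 x2 y1 y2 : ℤ) (z : Fin 4 → Site) : Prop :=
  (∀ i, OnBd x1 x2 y1 y2 (z i)) ∧
    Alt (idx x1 x2 y1 y2 (z 0)) (idx x1 x2 y1 y2 (z 1)) (idx x1 x2 y1 y2 (z 2))
      (idx x1 x2 y1 y2 (z 3))

/-- End points for a pivotal box: left and right for the even arms, top and bottom for the odd. -/
def PivT (x1 x2 y1 y2 : ℤ) (z : Fin 4 → Site) : Prop :=
  AltT x1 x2 y1 y2 z ∧ (z 0).1 = x1 ∧ (z 2).1 = x2 ∧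
    (((z 1).2 = y1 ∧ (z 3).2 = y2) ∨ ((z 1).2 = y2 ∧ (z 3).2 = y1))

/-- Four arms of alternating colours from the centred box of radius `r - 1` to end points
satisfying `T`. -/
def Arms4 (S : Set Site) (x1 x2 y1 y2 : ℤ) (r : ℕ) (T : (Fin 4 → Site) → Prop) : Prop :=
  ∃ e z : Fin 4 → Site, (∀ i, InnerB 0 r (e i)) ∧ T z ∧
    ∀ i, Conn (cs S i ∩ Dom x1 x2 y1 y2 r) (e i) (z i)

end Pool.Agent.Work.MP_ccd212_pr
end

-- merged part: Pool.Agent.Work.MP_ccd212_pr.Top1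
section
/-! Winding parity of walks and the crossing lemmas. -/

namespace Pool.Agent.Work.MP_ccd212_pr

theorem InF.adj {f : Face} {a b : Site} (ha : InF f a) (hb : InF f b) (h : a ≠ b) : Adj a b := by
  obtain ⟨⟨i, j⟩, t⟩ := f
  have h' : ¬ (a.1 = b.1 ∧ a.2 = b.2) := fun e => h (Prod.ext e.1 e.2)
  cases t <;> simp only [InF, Adj, Bool.false_eq_true, Bool.true_eq_false, false_and, true_and,
    or_false, false_or] at ha hb ⊢ <;>
  rcases ha with ha | ha | ha <;> rcases hb with hb | hb | hb <;> omega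

private theorem Top1_sh {f g : Face} {a b : Site} (h1 : f.2 ≠ g.2) (h2 : Adj a b)
    (h3 : InF f a ∧ InF f b ∧ InF g a ∧ InF g b) : Shares f g a b :=
  ⟨fun e => h1 (congrArg _ e), h2.ne, h3⟩

theorem Adj.exists_shares {a b : Site} (h : Adj a b) : ∃ f g, Shares f g a b := by
  obtain ⟨i, j⟩ := a
  obtain ⟨k, l⟩ := b
  have h' := h
  simp only [Adj] at h'
  rcases h' with h' | h' | h' | h' | h' | h'
  · exact ⟨((i, j), false), ((i, j - 1), true), Top1_sh (by simp) h (by simp only [InF]; simp; omega)⟩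
  · exact ⟨((k, l), false), ((k, l - 1), true), Top1_sh (by simp) h (by simp only [InF]; simp; omega)⟩
  · exact ⟨((i, j), false), ((i - 1, j), true), Top1_sh (by simp) h (by simp only [InF]; simp; omega)⟩
  · exact ⟨((k, l), false), ((k - 1, l), true), Top1_sh (by simp) h (by simp only [InF]; simp; omega)⟩
  · exact ⟨((i, l), false), ((i, l), true), Top1_sh (by simp) h (by simp only [InF]; simp; omega)⟩
  · exact ⟨((k, j), false), ((k, j), true), Top1_sh (by simp) h (by simp only [InF]; simp; omega)⟩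

theorem Shares.symm {f g : Face} {a b : Site} (h : Shares f g a b) : Shares g f a b :=
  ⟨h.1.symm, h.2.1, h.2.2.2.2.1, h.2.2.2.2.2, h.2.2.1, h.2.2.2.1⟩

theorem Shares.swap {f g : Face} {a b : Site} (h : Shares f g a b) : Shares f g b a :=
  ⟨h.1, h.2.1.symm, h.2.2.2.1, h.2.2.1, h.2.2.2.2.2, h.2.2.2.2.1⟩

/-- Two faces of the same type with two common vertices are equal. -/
private theorem Top1_same {f g : Face} {a b : Site} (hab : a ≠ b) (ht : f.2 = g.2) (h1 : InF f a)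
    (h2 : InF f b) (h3 : InF g a) (h4 : InF g b) : f = g := by
  obtain ⟨⟨i, j⟩, t⟩ := f
  obtain ⟨⟨k, l⟩, s⟩ := g
  have h' : ¬ (a.1 = b.1 ∧ a.2 = b.2) := fun e => hab (Prod.ext e.1 e.2)
  dsimp only at ht
  subst ht
  have : i = k ∧ j = l := by
    cases t <;> simp only [InF, Bool.false_eq_true, Bool.true_eq_false, false_and, true_and,
      or_false, false_or] at h1 h2 h3 h4 <;> omega
  rw [this.1, this.2]

private theorem Top1_ne {f g : Face} {a b : Site} (h : Shares f g a b) : f.2 ≠ g.2 :=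
  fun e => h.1 (Top1_same h.2.1 e h.2.2.1 h.2.2.2.1 h.2.2.2.2.1 h.2.2.2.2.2)

/-- An edge has exactly two faces. -/
theorem Shares.eq_or {f g h : Face} {a b : Site} (hs : Shares f g a b) (ha : InF h a)
    (hb : InF h b) : h = f ∨ h = g := by
  have hne := Top1_ne hs
  by_cases e : h.2 = f.2
  · exact Or.inl (Top1_same hs.2.1 e ha hb hs.2.2.1 hs.2.2.2.1)
  · refine Or.inr (Top1_same hs.2.1 ?_ ha hb hs.2.2.2.2.1 hs.2.2.2.2.2)
    revert e hne
    cases h.2 <;> cases f.2 <;> cases g.2 <;> simp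

theorem InF.exists_other {f : Face} {a b : Site} (ha : InF f a) (hb : InF f b) (h : a ≠ b) :
    ∃ g, Shares f g a b := by
  obtain ⟨p, q, hs⟩ := (ha.adj hb h).exists_shares
  rcases hs.eq_or ha hb with rfl | rfl
  · exact ⟨q, hs⟩
  · exact ⟨p, hs.symm⟩

/-- A face has exactly three vertices. -/
theorem exists_three (f : Face) : ∃ a b c, a ≠ b ∧ a ≠ c ∧ b ≠ c ∧
    ∀ v, InF f v ↔ v = a ∨ v = b ∨ v = c := by
  obtain ⟨⟨i, j⟩, t⟩ := f
  cases t
  · refine ⟨(i + 1, j), (i, j + 1), (i, j), by simp, by simp, by simp, fun v => ?_⟩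
    simp [InF, Prod.ext_iff]
  · refine ⟨(i + 1, j), (i, j + 1), (i + 1, j + 1), by simp, by simp, by simp, fun v => ?_⟩
    simp [InF, Prod.ext_iff]

theorem exists_inF (v : Site) : ∃ f, InF f v :=
  ⟨(v, false), Or.inr (Or.inr (Or.inl ⟨rfl, rfl, rfl⟩))⟩

theorem mult_append {u v t : Site} (w : G.Walk u v) (w' : G.Walk v t) (a b : Site) :
    mult (w.append w') a b = mult w a b + mult w' a b := by
  simp [mult, SimpleGraph.Walk.edges_append, List.count_append]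

theorem mult_reverse {u v : Site} (w : G.Walk u v) (a b : Site) :
    mult w.reverse a b = mult w a b := by
  simp [mult, SimpleGraph.Walk.edges_reverse, List.count_reverse]

theorem mult_eq_zero {u v : Site} (w : G.Walk u v) {a b : Site} (h : a ∉ w.support) :
    mult w a b = 0 := by
  have : w.edges.count s(a, b) = 0 :=
    List.count_eq_zero.2 fun e => h (w.fst_mem_support_of_mem_edges e)
  simp [mult, this]

theorem wind_append {u v t : Site} (w : G.Walk u v) (w' : G.Walk v t) (f : Face) :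
    wind (w.append w') f = wind w f + wind w' f := by
  simp [wind, SimpleGraph.Walk.darts_append]

private theorem Top1_left_comm (a b : Site) (f : Face) : LeftOf a b f ↔ LeftOf b a f := by
  unfold LeftOf
  rw [add_comm a.1 b.1]
  exact Or.comm

theorem wind_reverse {u v : Site} (w : G.Walk u v) (f : Face) : wind w.reverse f = wind w f := by
  unfold wind
  rw [SimpleGraph.Walk.darts_reverse, List.map_reverse, List.sum_reverse, List.map_map]
  congr 1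
  refine List.map_congr_left fun d _ => ?_
  exact if_congr (Top1_left_comm _ _ _) rfl rfl

private theorem Top1_wind_cons {u v t : Site} (h : G.Adj u v) (w : G.Walk v t) (f : Face) :
    wind (.cons h w) f = (if LeftOf u v f then 1 else 0) + wind w f := by
  simp [wind]

private theorem Top1_wind_nil (u : Site) (f : Face) :
    wind (SimpleGraph.Walk.nil : G.Walk u u) f = 0 := by
  simp [wind]

private theorem Top1_mult_cons {u v t : Site} (h : G.Adj u v) (w : G.Walk v t) (a b : Site) :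
    mult (.cons h w) a b = (if s(u, v) = s(a, b) then 1 else 0) + mult w a b := by
  simp only [mult, SimpleGraph.Walk.edges_cons, List.count_cons, beq_iff_eq]
  split_ifs <;> simp [add_comm]

/-- The potential attached to a horizontal edge. -/
private def Top1_psi (a b v : Site) : Prop := a.2 = b.2 ∧ v.2 = a.2 ∧ v.1 ≤ a.1 ∧ v.1 ≤ b.1

private instance Top1_dec (a b v : Site) : Decidable (Top1_psi a b v) := by
  unfold Top1_psi; infer_instance

private theorem Top1_nf {i j k l : ℤ} {a b : Site} (h : Shares ((i, j), false) ((k, l), true) a b) :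
    ((k = i ∧ l = j - 1 ∧ a = (i, j) ∧ b = (i + 1, j)) ∨
      (k = i - 1 ∧ l = j ∧ a = (i, j) ∧ b = (i, j + 1)) ∨
      (k = i ∧ l = j ∧ a = (i + 1, j) ∧ b = (i, j + 1))) ∨
    ((k = i ∧ l = j - 1 ∧ b = (i, j) ∧ a = (i + 1, j)) ∨
      (k = i - 1 ∧ l = j ∧ b = (i, j) ∧ a = (i, j + 1)) ∨
      (k = i ∧ l = j ∧ b = (i + 1, j) ∧ a = (i, j + 1))) := by
  obtain ⟨-, hab, h1, h2, h3, h4⟩ := h
  obtain ⟨a1, a2⟩ := a
  obtain ⟨b1, b2⟩ := b
  simp only [InF, Bool.false_eq_true, Bool.true_eq_false, false_and, true_and,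
      or_false, false_or] at h1 h2 h3 h4
  rcases h1 with ⟨rfl, rfl⟩ | ⟨rfl, rfl⟩ | ⟨rfl, rfl⟩ <;>
    rcases h2 with ⟨rfl, rfl⟩ | ⟨rfl, rfl⟩ | ⟨rfl, rfl⟩
  · exact absurd rfl hab
  · exact .inl (.inr (.inr ⟨by omega, by omega, rfl, rfl⟩))
  · exact .inr (.inl ⟨by omega, by omega, rfl, rfl⟩)
  · exact .inr (.inr (.inr ⟨by omega, by omega, rfl, rfl⟩))
  · exact absurd rfl hab
  · exact .inr (.inr (.inl ⟨by omega, by omega, rfl, rfl⟩))
  · exact .inl (.inl ⟨by omega, by omega, rfl, rfl⟩)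
  · exact .inl (.inr (.inl ⟨by omega, by omega, rfl, rfl⟩))
  · exact absurd rfl hab

private theorem Top1_iff5 {p q r s t : Prop} (h1 : p → q → (r ↔ ¬ (s ↔ t)))
    (h2 : ¬ p → ¬ q → (r ↔ ¬ (s ↔ t))) (h3 : p → ¬ q → (r ↔ (s ↔ t)))
    (h4 : ¬ p → q → (r ↔ (s ↔ t))) : (p ↔ q) ↔ (r ↔ ¬ (s ↔ t)) := by
  by_cases hp : p <;> by_cases hq : q
  · exact iff_of_true (iff_of_true hp hq) (h1 hp hq)
  · refine iff_of_false (fun h => hq (h.1 hp)) ?_
    rw [h3 hp hq]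
    exact iff_not_self
  · refine iff_of_false (fun h => hp (h.2 hq)) ?_
    rw [h4 hp hq]
    exact iff_not_self
  · exact iff_of_true (iff_of_false hp hq) (h2 hp hq)

private theorem Top1_iff3 {r s t : Prop} (h1 : s → t → r) (h2 : ¬ s → ¬ t → r)
    (h3 : s → ¬ t → r → False) (h4 : ¬ s → t → r → False) : r ↔ (s ↔ t) := by
  by_cases hs : s <;> by_cases ht : t <;> simp_all

private theorem Top1_iff3' {r s t : Prop} (h1 : s → t → r → False) (h2 : ¬ s → ¬ t → r → False)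
    (h3 : s → ¬ t → r) (h4 : ¬ s → t → r) : r ↔ ¬ (s ↔ t) := by
  by_cases hs : s <;> by_cases ht : t <;> simp_all

private theorem Top1_left_h (x1 y1 x2 : ℤ) (f : Face) : LeftOf (x1, x2) (y1, x2) f ↔ False := by
  simp only [LeftOf, iff_false]
  omega

private theorem Top1_left_u (x1 y1 x2 i j : ℤ) (t : Bool) :
    LeftOf (x1, x2) (y1, x2 + 1) ((i, j), t) ↔
      x2 = j ∧ x1 + y1 ≤ 2 * i + (if t then 1 else 0) := by
  simp only [LeftOf]
  generalize (if t = true then (1 : ℤ) else 0) = e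
  constructor <;> intro h <;> omega

private theorem Top1_left_d (x1 y1 x2 i j : ℤ) (t : Bool) :
    LeftOf (y1, x2 + 1) (x1, x2) ((i, j), t) ↔
      x2 = j ∧ x1 + y1 ≤ 2 * i + (if t then 1 else 0) := by
  rw [Top1_left_comm, Top1_left_u]

private theorem Top1_key00 {i j k l : ℤ} {a b : Site} {x1 x2 y1 y2 : ℤ}
    (h : (k = i ∧ l = j - 1 ∧ a = (i, j) ∧ b = (i + 1, j)) ∨
      (k = i - 1 ∧ l = j ∧ a = (i, j) ∧ b = (i, j + 1)) ∨
      (k = i ∧ l = j ∧ a = (i + 1, j) ∧ b = (i, j + 1)))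
    (hxy : (y1 = x1 + 1 ∧ y2 = x2) ∨ (y1 = x1 ∧ y2 = x2 + 1) ∨ (y1 = x1 - 1 ∧ y2 = x2 + 1)) :
    (LeftOf (x1, x2) (y1, y2) ((i, j), false) ↔ LeftOf (x1, x2) (y1, y2) ((k, l), true)) ↔
      (s((x1, x2), (y1, y2)) = s(a, b) ↔
        ¬ (Top1_psi a b (x1, x2) ↔ Top1_psi a b (y1, y2))) := by
  rcases h with ⟨rfl, rfl, rfl, rfl⟩ | ⟨rfl, rfl, rfl, rfl⟩ | ⟨rfl, rfl, rfl, rfl⟩ <;>
  rcases hxy with ⟨rfl, rfl⟩ | ⟨rfl, rfl⟩ | ⟨rfl, rfl⟩ <;>
  refine Top1_iff5 (fun hp hq => Top1_iff3' ?_ ?_ ?_ ?_) (fun hp hq => Top1_iff3' ?_ ?_ ?_ ?_)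
    (fun hp hq => Top1_iff3 ?_ ?_ ?_ ?_) (fun hp hq => Top1_iff3 ?_ ?_ ?_ ?_) <;>
  simp only [Top1_left_h, Top1_left_u, Bool.false_eq_true, if_false, if_true] at hp hq <;>
  simp only [Top1_psi, Sym2.eq_iff, Prod.ext_iff, true_and] <;> intros <;> lia

private theorem Top1_psi_comm (a b v : Site) : Top1_psi a b v ↔ Top1_psi b a v := by
  unfold Top1_psi
  constructor <;> intro h <;> omega

private theorem Top1_key01 {i j k l : ℤ} {a b x y : Site}
    (h : (k = i ∧ l = j - 1 ∧ a = (i, j) ∧ b = (i + 1, j)) ∨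
      (k = i - 1 ∧ l = j ∧ a = (i, j) ∧ b = (i, j + 1)) ∨
      (k = i ∧ l = j ∧ a = (i + 1, j) ∧ b = (i, j + 1))) (hxy : Adj x y) :
    (LeftOf x y ((i, j), false) ↔ LeftOf x y ((k, l), true)) ↔
      (s(x, y) = s(a, b) ↔ ¬ (Top1_psi a b x ↔ Top1_psi a b y)) := by
  obtain ⟨x1, x2⟩ := x
  obtain ⟨y1, y2⟩ := y
  simp only [Adj] at hxy
  by_cases h1 : (y1 = x1 + 1 ∧ y2 = x2) ∨ (y1 = x1 ∧ y2 = x2 + 1) ∨ (y1 = x1 - 1 ∧ y2 = x2 + 1)
  · exact Top1_key00 h h1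
  · have h2 : (x1 = y1 + 1 ∧ x2 = y2) ∨ (x1 = y1 ∧ x2 = y2 + 1) ∨ (x1 = y1 - 1 ∧ x2 = y2 + 1) := by
      (clear * - h1 hxy; lia)
    rw [Top1_left_comm (x1, x2), Top1_left_comm (x1, x2), Sym2.eq_swap (a := (x1, x2)),
      Iff.comm (a := Top1_psi a b (x1, x2))]
    exact Top1_key00 h h2

private theorem Top1_key0 {i j k l : ℤ} {a b x y : Site}
    (h : Shares ((i, j), false) ((k, l), true) a b) (hxy : Adj x y) :
    (LeftOf x y ((i, j), false) ↔ LeftOf x y ((k, l), true)) ↔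
      (s(x, y) = s(a, b) ↔ ¬ (Top1_psi a b x ↔ Top1_psi a b y)) := by
  rcases Top1_nf h with h1 | h1
  · exact Top1_key01 h1 hxy
  · rw [Sym2.eq_swap (a := a), Top1_psi_comm a b x, Top1_psi_comm a b y]
    exact Top1_key01 h1 hxy

private theorem Top1_key1 {f g : Face} {a b x y : Site} (h : Shares f g a b) (hxy : Adj x y) :
    (LeftOf x y f ↔ LeftOf x y g) ↔
      (s(x, y) = s(a, b) ↔ ¬ (Top1_psi a b x ↔ Top1_psi a b y)) := by
  have hne := Top1_ne h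
  obtain ⟨⟨i, j⟩, t⟩ := f
  obtain ⟨⟨k, l⟩, s⟩ := g
  cases t <;> cases s
  · exact absurd rfl hne
  · exact Top1_key0 h hxy
  · rw [← Top1_key0 h.symm hxy]
    exact Iff.comm
  · exact absurd rfl hne

private theorem Top1_par5 {p q r s t : Prop} [Decidable p] [Decidable q] [Decidable r]
    [Decidable s] [Decidable t] (h : (p ↔ q) ↔ (r ↔ ¬ (s ↔ t))) :
    ((if p then 1 else 0) + (if q then 1 else 0) : ZMod 2) =
      (if r then 1 else 0) + (if s then 1 else 0) + (if t then 1 else 0) := by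
  by_cases hp : p <;> by_cases hq : q <;> by_cases hr : r <;> by_cases hs : s <;> by_cases ht : t <;>
    simp only [hp, hq, hr, hs, ht, if_true, if_false] at h ⊢ <;>
    first | decide | (exfalso; revert h; decide)

private theorem Top1_shares_gen {u v : Site} (w : G.Walk u v) {f g : Face} {a b : Site}
    (h : Shares f g a b) : wind w f + wind w g = mult w a b +
      (if Top1_psi a b u then 1 else 0) + (if Top1_psi a b v then 1 else 0) := by
  induction w with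
  | nil =>
    rw [Top1_wind_nil, Top1_wind_nil, add_assoc, CharTwo.add_self_eq_zero (R := ZMod 2) (ite _ _ _)]
    simp [mult]
  | @cons x y z hxy p ih =>
    rw [Top1_wind_cons, Top1_wind_cons, Top1_mult_cons]
    have h1 := Top1_par5 (Top1_key1 h (x := x) (y := y) hxy)
    have h2 := CharTwo.add_self_eq_zero (R := ZMod 2) (if Top1_psi a b y then 1 else 0)
    linear_combination ih + h1 + h2

/-- The winding parity of a closed walk jumps exactly across the edges used an odd number of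
times. -/
theorem wind_shares {u : Site} (w : G.Walk u u) {f g : Face} {a b : Site} (h : Shares f g a b) :
    wind w f + wind w g = mult w a b := by
  rw [Top1_shares_gen w h, add_assoc, CharTwo.add_self_eq_zero, add_zero]

private theorem Top1_step {u : Site} (w : G.Walk u u) {f g : Face} {a b : Site}
    (ha : a ∉ w.support) (h : Shares f g a b) : wind w f = wind w g := by
  have h1 := wind_shares w h
  rw [mult_eq_zero w ha] at h1
  have h2 := CharTwo.add_self_eq_zero (R := ZMod 2) (wind w g)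
  linear_combination h1 - h2

private theorem Top1_vertex0 {u : Site} (w : G.Walk u u) {v : Site} (hv : v ∉ w.support)
    {f : Face} (hf : InF f v) : wind w f = wind w (v, false) := by
  obtain ⟨i, j⟩ := v
  have e2 : wind w ((i - 1, j), true) = wind w ((i, j), false) :=
    Top1_step w hv (b := (i, j + 1)) (Top1_sh (by simp) (by simp [Adj]) (by simp [InF]))
  have e3 : wind w ((i - 1, j), false) = wind w ((i - 1, j), true) :=
    Top1_step w hv (b := (i - 1, j + 1)) (Top1_sh (by simp) (by simp [Adj]) (by simp [InF]))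
  have e4 : wind w ((i - 1, j - 1), true) = wind w ((i - 1, j), false) :=
    Top1_step w hv (b := (i - 1, j)) (Top1_sh (by simp) (by simp [Adj]) (by simp [InF]))
  have e5 : wind w ((i, j - 1), false) = wind w ((i - 1, j - 1), true) :=
    Top1_step w hv (b := (i, j - 1)) (Top1_sh (by simp) (by simp [Adj]) (by simp [InF]))
  have e6 : wind w ((i, j - 1), true) = wind w ((i, j - 1), false) :=
    Top1_step w hv (b := (i + 1, j - 1)) (Top1_sh (by simp) (by simp [Adj]) (by simp [InF]))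
  obtain ⟨⟨k, l⟩, t⟩ := f
  cases t <;> simp only [InF, Bool.false_eq_true, Bool.true_eq_false, false_and, true_and,
      or_false, false_or] at hf
  · rcases hf with hf | hf | hf
    · obtain ⟨rfl, rfl⟩ : k = i - 1 ∧ l = j := by omega
      rw [e3, e2]
    · obtain ⟨rfl, rfl⟩ : k = i ∧ l = j - 1 := by omega
      rw [e5, e4, e3, e2]
    · obtain ⟨rfl, rfl⟩ : k = i ∧ l = j := by omega
      rfl
  · rcases hf with hf | hf | hf
    · obtain ⟨rfl, rfl⟩ : k = i - 1 ∧ l = j := by omega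
      rw [e2]
    · obtain ⟨rfl, rfl⟩ : k = i ∧ l = j - 1 := by omega
      rw [e6, e5, e4, e3, e2]
    · obtain ⟨rfl, rfl⟩ : k = i - 1 ∧ l = j - 1 := by omega
      rw [e4, e3, e2]

/-- The faces at the vertices of a connection that avoids a closed walk all have the same
winding parity. -/
theorem wind_eq_of_conn {u : Site} (w : G.Walk u u) {S : Set Site} (hS : ∀ v ∈ S, v ∉ w.support)
    {a b : Site} (h : Conn S a b) {f g : Face} (hf : InF f a) (hg : InF g b) :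
    wind w f = wind w g := by
  have key : wind w (b, false) = wind w (a, false) :=
    h.ind (P := fun v => wind w (v, false) = wind w (a, false)) rfl fun x y hx hy hxy hp => by
      obtain ⟨p, q, hs⟩ := hxy.exists_shares
      rw [← hp, ← Top1_vertex0 w (hS x hx.right_mem) hs.2.2.1, ← Top1_vertex0 w (hS y hy) hs.2.2.2.1]
  rw [Top1_vertex0 w (hS a h.left_mem) hf, Top1_vertex0 w (hS b h.right_mem) hg, key]

private theorem Top1_par4 {p q r s : Prop} [Decidable p] [Decidable q] [Decidable r]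
    [Decidable s] (h : s ↔ ((p ↔ q) ↔ r)) :
    ((if p then 1 else 0) + ((if q then 1 else 0) + ((if r then 1 else 0) + 0)) : ZMod 2) =
      if s then 1 else 0 := by
  by_cases hp : p <;> by_cases hq : q <;> by_cases hr : r <;> by_cases hs : s <;>
    simp only [hp, hq, hr, hs, if_true, if_false] at h ⊢ <;>
    first | decide | (exfalso; revert h; decide)

private theorem Top1_iff4 {s p q r : Prop} (h1 : p → q → r → s) (h2 : p → q → ¬ r → s → False)
    (h3 : p → ¬ q → r → s → False) (h4 : p → ¬ q → ¬ r → s) (h5 : ¬ p → q → r → s → False)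
    (h6 : ¬ p → q → ¬ r → s) (h7 : ¬ p → ¬ q → r → s) (h8 : ¬ p → ¬ q → ¬ r → s → False) :
    s ↔ ((p ↔ q) ↔ r) := by
  by_cases hp : p <;> by_cases hq : q <;> by_cases hr : r <;> simp_all

private theorem Top1_tri0 (i j k l : ℤ) (s : Bool) :
    (((k, l), s) = ((i, j), false) ↔ ((LeftOf (i + 1, j) (i, j + 1) ((k, l), s) ↔
      LeftOf (i, j + 1) (i, j) ((k, l), s)) ↔ LeftOf (i, j) (i + 1, j) ((k, l), s))) ∧
    (((k, l), s) = ((i, j), true) ↔ ((LeftOf (i + 1, j) (i, j + 1) ((k, l), s) ↔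
      LeftOf (i, j + 1) (i + 1, j + 1) ((k, l), s)) ↔
        LeftOf (i + 1, j + 1) (i + 1, j) ((k, l), s))) := by
  constructor <;> cases s <;> refine Top1_iff4 ?_ ?_ ?_ ?_ ?_ ?_ ?_ ?_ <;>
  simp only [Top1_left_h, Top1_left_u, Top1_left_d, Prod.ext_iff, Bool.false_eq_true,
    Bool.true_eq_false, if_false, if_true, and_true, and_false, not_false_eq_true,
    false_imp_iff, true_imp_iff, imp_true_iff] <;> intros <;> omega

private theorem Top1_perm {p q r a b c : Site} (f : Face) (ha : a = p ∨ a = q ∨ a = r)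
    (hb : b = p ∨ b = q ∨ b = r) (hc : c = p ∨ c = q ∨ c = r) (hab : a ≠ b) (hbc : b ≠ c)
    (hca : c ≠ a) : ((LeftOf a b f ↔ LeftOf b c f) ↔ LeftOf c a f) ↔
      ((LeftOf p q f ↔ LeftOf q r f) ↔ LeftOf r p f) := by
  have e1 := Top1_left_comm q p f
  have e2 := Top1_left_comm r q f
  have e3 := Top1_left_comm p r f
  rcases ha with ha | ha | ha <;> rcases hb with hb | hb | hb <;> rcases hc with hc | hc | hc <;>
    first
    | exact absurd (ha.trans hb.symm) hab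
    | exact absurd (hb.trans hc.symm) hbc
    | exact absurd (hc.trans ha.symm) hca
    | (rw [ha, hb, hc]
       try simp only [e1, e2, e3]
       all_goals
         by_cases hx : LeftOf p q f <;> by_cases hy : LeftOf q r f <;>
           by_cases hz : LeftOf r p f <;> simp [hx, hy, hz])

private theorem Top1_tri {F : Face} {a b c : Site} (ha : InF F a) (hb : InF F b) (hc : InF F c)
    (hab : a ≠ b) (hbc : b ≠ c) (hca : c ≠ a) (f : Face) :
    f = F ↔ ((LeftOf a b f ↔ LeftOf b c f) ↔ LeftOf c a f) := by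
  obtain ⟨⟨i, j⟩, t⟩ := F
  obtain ⟨⟨k, l⟩, s⟩ := f
  cases t
  · have e : ∀ v, InF ((i, j), false) v → v = (i + 1, j) ∨ v = (i, j + 1) ∨ v = (i, j) := by
      simp [InF, Prod.ext_iff]
    rw [Top1_perm _ (e a ha) (e b hb) (e c hc) hab hbc hca]
    exact (Top1_tri0 i j k l s).1
  · have e : ∀ v, InF ((i, j), true) v →
        v = (i + 1, j) ∨ v = (i, j + 1) ∨ v = (i + 1, j + 1) := by
      simp [InF, Prod.ext_iff]
    rw [Top1_perm _ (e a ha) (e b hb) (e c hc) hab hbc hca]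
    exact (Top1_tri0 i j k l s).2

/-- The boundary of a face winds around this face only. -/
theorem wind_triangle {F : Face} {a b c : Site} (ha : InF F a) (hb : InF F b) (hc : InF F c)
    (hab : G.Adj a b) (hbc : G.Adj b c) (hca : G.Adj c a) (f : Face) :
    wind (.cons hab (.cons hbc (.cons hca .nil))) f = if f = F then 1 else 0 := by
  rw [Top1_wind_cons, Top1_wind_cons, Top1_wind_cons, Top1_wind_nil]
  exact Top1_par4 (Top1_tri ha hb hc hab.ne hbc.ne hca.ne f)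

private theorem Top1_tele {D : Set Site} {f : Face} (φ : Site → ZMod 2)
    (h : ∀ x ∈ D, ∀ y ∈ D, Adj x y → (if LeftOf x y f then 1 else 0) = φ x + φ y)
    {u v : Site} (w : G.Walk u v) (hw : ∀ z ∈ w.support, z ∈ D) : wind w f = φ u + φ v := by
  induction w with
  | nil => rw [Top1_wind_nil, CharTwo.add_self_eq_zero]
  | @cons x y z hxy p ih =>
    have hp : ∀ z ∈ p.support, z ∈ D := fun z hz => hw z (by simp [hz])
    rw [Top1_wind_cons, ih hp, h x (hw x (by simp)) y (hp y p.start_mem_support) hxy]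
    have h2 := CharTwo.add_self_eq_zero (R := ZMod 2) (φ y)
    linear_combination h2

private theorem Top1_par3 {p q r : Prop} [Decidable p] [Decidable q] [Decidable r]
    (h : p ↔ ¬ (q ↔ r)) :
    ((if p then 1 else 0) : ZMod 2) = (if q then 1 else 0) + (if r then 1 else 0) := by
  by_cases hp : p <;> by_cases hq : q <;> by_cases hr : r <;>
    simp only [hp, hq, hr, if_true, if_false] at h ⊢ <;>
    first | decide | (exfalso; revert h; decide)

/-- A domain whose rows are intervals. -/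
theorem sc_strip (y1 y2 : ℤ) (l r : ℤ → ℤ) :
    SC {v | y1 ≤ v.2 ∧ v.2 ≤ y2 ∧ l v.2 ≤ v.1 ∧ v.1 ≤ r v.2} := by
  rintro u w hw ⟨⟨i, j⟩, t⟩ ⟨v, hf, hv⟩
  have hrow : ∀ x ∈ {v : Site | y1 ≤ v.2 ∧ v.2 ≤ y2 ∧ l v.2 ≤ v.1 ∧ v.1 ≤ r v.2},
      y1 ≤ x.2 ∧ x.2 ≤ y2 ∧ (x.2 = v.2 → l v.2 ≤ x.1 ∧ x.1 ≤ r v.2) :=
    fun x hx => ⟨hx.1, hx.2.1, fun e => e ▸ hx.2.2⟩
  simp only [Set.mem_ofPred_eq] at hv
  by_cases hr : y1 ≤ v.2 ∧ v.2 ≤ y2 ∧ r v.2 < v.1
  · rw [Top1_tele (fun z => if z.2 ≤ j then 1 else 0) ?_ w hw, CharTwo.add_self_eq_zero]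
    intro x hx y hy hxy
    refine Top1_par3 ?_
    have h1 := hrow x hx
    have h2 := hrow y hy
    generalize l v.2 = L at *
    generalize r v.2 = R at *
    cases t <;> simp only [InF, LeftOf, Bool.false_eq_true, Bool.true_eq_false, false_and, true_and,
      or_false, false_or, if_false, if_true] at hf ⊢ <;>
    rcases hxy with hxy | hxy | hxy | hxy | hxy | hxy <;> omega
  · rw [Top1_tele (fun _ => 0) ?_ w hw, add_zero]
    intro x hx y hy hxy
    rw [if_neg, add_zero]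
    have h1 := hrow x hx
    have h2 := hrow y hy
    generalize l v.2 = L at *
    generalize r v.2 = R at *
    cases t <;> simp only [InF, LeftOf, Bool.false_eq_true, Bool.true_eq_false, false_and, true_and,
      or_false, false_or, if_false, if_true] at hf ⊢ <;>
    rcases hxy with hxy | hxy | hxy | hxy | hxy | hxy <;> omega

theorem sc_rect (x1 x2 y1 y2 : ℤ) : SC (rect x1 x2 y1 y2) := by
  have e : rect x1 x2 y1 y2 =
      {v | y1 ≤ v.2 ∧ v.2 ≤ y2 ∧ (fun _ : ℤ => x1) v.2 ≤ v.1 ∧ v.1 ≤ (fun _ : ℤ => x2) v.2} := by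
    ext v
    simp only [rect, Set.mem_ofPred_eq]
    omega
  rw [e]
  exact sc_strip y1 y2 (fun _ => x1) (fun _ => x2)

end Pool.Agent.Work.MP_ccd212_pr
end

-- merged part: Pool.Agent.Work.MP_ccd212_pr.Top2
section
/-! Crossing lemmas in a rectangle and the boundary order. -/

namespace Pool.Agent.Work.MP_ccd212_pr

variable {x1 x2 y1 y2 : ℤ}

open Classical in
/-- Indicator of a proposition. -/
noncomputable def Top2_I (A : Prop) : ZMod 2 := if A then 1 else 0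

theorem Top2_add {A B C D : Prop} :
    Top2_I A + Top2_I B = Top2_I C + Top2_I D ↔ ((A ↔ B) ↔ (C ↔ D)) := by
  unfold Top2_I
  by_cases hA : A <;> by_cases hB : B <;> by_cases hC : C <;> by_cases hD : D <;>
    simp only [hA, hB, hC, hD, if_true, if_false] <;> decide

theorem Top2_add' {A C D : Prop} (h : A ↔ ¬ (C ↔ D)) : Top2_I A = Top2_I C + Top2_I D := by
  unfold Top2_I
  by_cases hC : C <;> by_cases hD : D <;> simp [h, hC, hD]
  rfl

theorem Top2_tel (F : Site → Site → ZMod 2) (g : Site → ZMod 2) {a c : Site} (w : G.Walk a c)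
    (h : ∀ p ∈ w.support, ∀ q ∈ w.support, Adj p q → F p q = g p + g q) :
    (w.darts.map fun d => F d.fst d.snd).sum = g a + g c := by
  induction w with
  | nil => exact (CharTwo.add_self_eq_zero _).symm
  | @cons u v t huv w ih =>
    rw [SimpleGraph.Walk.darts_cons, List.map_cons, List.sum_cons,
      ih fun p hp q hq => h p (by simp [hp]) q (by simp [hq]), h u (by simp) v (by simp) huv,
      add_assoc, ← add_assoc (g v), CharTwo.add_self_eq_zero, zero_add]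

/-- The edge `p q` crosses the ray that leaves `v` to the left, slightly above its row. -/
def Top2_X (v p q : Site) : Prop :=
  (p.2 = v.2 ∧ q.2 = v.2 + 1 ∧ p.1 < v.1) ∨ (q.2 = v.2 ∧ p.2 = v.2 + 1 ∧ q.1 < v.1)

/-- `u` is on the left of the upper end of the edge `v v'`. -/
def Top2_U (v v' u : Site) : Prop :=
  (v'.2 = v.2 + 1 ∧ u.2 = v'.2 ∧ u.1 < v'.1) ∨ (v.2 = v'.2 + 1 ∧ u.2 = v.2 ∧ u.1 < v.1)

theorem Top2_ne {p q : Site} (h : p ≠ q) : p.1 ≠ q.1 ∨ p.2 ≠ q.2 := by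
  by_contra h1
  push Not at h1
  exact h (Prod.ext h1.1 h1.2)

/-- Oriented adjacency. -/
def Top2_up (p q : Site) : Prop :=
  (q.1 = p.1 + 1 ∧ q.2 = p.2) ∨ (q.1 = p.1 ∧ q.2 = p.2 + 1) ∨ (q.1 = p.1 - 1 ∧ q.2 = p.2 + 1)

theorem Top2_adj {p q : Site} (h : Adj p q) : Top2_up p q ∨ Top2_up q p := by
  unfold Adj at h
  unfold Top2_up
  (clear * - h; lia)

theorem Top2_local' {v v' p q : Site} (h : Top2_up v v') (h' : Top2_up p q) (h1 : p ≠ v)
    (h2 : p ≠ v') (h3 : q ≠ v) (h4 : q ≠ v') :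
    (Top2_X v p q ↔ Top2_X v' p q) ↔ (Top2_U v v' p ↔ Top2_U v v' q) := by
  have e1 : ∀ u, Top2_X u p q ↔ (p.2 = u.2 ∧ q.2 = u.2 + 1 ∧ p.1 < u.1) := fun u => by
    unfold Top2_up at h'
    exact or_iff_left (by omega)
  have e2 : ∀ u, Top2_U v v' u ↔ (v'.2 = v.2 + 1 ∧ u.2 = v'.2 ∧ u.1 < v'.1) := fun u => by
    unfold Top2_up at h
    exact or_iff_left (by omega)
  replace h1 := Top2_ne h1
  replace h2 := Top2_ne h2
  replace h3 := Top2_ne h3
  replace h4 := Top2_ne h4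
  rw [e1, e1, e2, e2]
  rcases h with h | h | h <;> rcases h' with h' | h' | h' <;> omega

theorem Top2_local {v v' p q : Site} (h : Adj v v') (h' : Adj p q) (h1 : p ≠ v) (h2 : p ≠ v')
    (h3 : q ≠ v) (h4 : q ≠ v') :
    (Top2_X v p q ↔ Top2_X v' p q) ↔ (Top2_U v v' p ↔ Top2_U v v' q) := by
  have e1 : ∀ u, Top2_X u p q ↔ Top2_X u q p := fun _ => or_comm
  have e2 : ∀ u, Top2_U v v' u ↔ Top2_U v' v u := fun _ => or_comm
  rcases Top2_adj h with h | h <;> rcases Top2_adj h' with h' | h'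
  · exact Top2_local' h h' h1 h2 h3 h4
  · rw [e1, e1, Top2_local' h h' h3 h4 h1 h2]
    exact Iff.comm
  · rw [e2, e2, ← Top2_local' h h' h2 h1 h4 h3]
    exact Iff.comm
  · rw [e1, e1, e2, e2, Iff.comm (a := Top2_U v' v p), ← Top2_local' h h' h4 h3 h2 h1]
    exact Iff.comm

theorem Top2_prop {A B C D E F G H : Prop}
    (h : (¬ (A ↔ B) ↔ ¬ (C ↔ D)) ↔ (¬ (E ↔ F) ↔ ¬ (G ↔ H))) :
    ((E ↔ G) ↔ (F ↔ H)) ↔ ((A ↔ C) ↔ (B ↔ D)) := by
  grind

theorem Top2_key {S S' : Set Site} {a b c d : Site} (h1 : Conn S a c) (h2 : Conn S' b d)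
    (κ ν : Site → Site → Prop)
    (hκ : ∀ u, u = a ∨ u = c → ∀ v ∈ S', ∀ v' ∈ S', Adj v v' → v ≠ u → v' ≠ u →
      (Top2_U v v' u ↔ ¬ (κ u v ↔ κ u v')))
    (hν : ∀ v, v = b ∨ v = d → ∀ p ∈ S, ∀ q ∈ S, Adj p q → p ≠ v → q ≠ v →
      (Top2_X v p q ↔ ¬ (ν v p ↔ ν v q)))
    (hf : ¬ (((ν b a ↔ κ a b) ↔ (ν b c ↔ κ c b)) ↔ ((ν d a ↔ κ a d) ↔ (ν d c ↔ κ c d)))) :
    ∃ v, Conn S a v ∧ Conn S' b v := by
  by_contra hn
  obtain ⟨w, hw⟩ := h1.cluster
  have h3 : ∀ v, Conn S' b v → ∀ p ∈ w.support, p ≠ v := by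
    rintro v hv _ hp rfl
    exact hn ⟨_, hw _ hp, hv⟩
  obtain ⟨N, hN⟩ : ∃ N : Site → ZMod 2,
      ∀ v, N v = (w.darts.map fun e => Top2_I (Top2_X v e.fst e.snd)).sum := ⟨_, fun _ => rfl⟩
  have h4 : ∀ v, v = b ∨ v = d → Conn S' b v → N v = Top2_I (ν v a) + Top2_I (ν v c) :=
    fun v hv hv' => (hN v).trans (Top2_tel (fun p q => Top2_I (Top2_X v p q))
      (fun u => Top2_I (ν v u)) w fun p hp q hq h => Top2_add' (hν v hv p (hw p hp).right_mem q
        (hw q hq).right_mem h (h3 v hv' p hp) (h3 v hv' q hq)))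
  have h5 : N d + (Top2_I (κ a d) + Top2_I (κ c d)) = N b + (Top2_I (κ a b) + Top2_I (κ c b)) := by
    refine h2.ind (P := fun v => N v + (Top2_I (κ a v) + Top2_I (κ c v)) =
      N b + (Top2_I (κ a b) + Top2_I (κ c b))) rfl fun v v' hv hv' h ih => ?_
    have h6 := hv.tail h hv'
    have h7 : N v + N v' = Top2_I (Top2_U v v' a) + Top2_I (Top2_U v v' c) := by
      rw [hN, hN, ← List.sum_map_add]
      exact Top2_tel (fun p q => Top2_I (Top2_X v p q) + Top2_I (Top2_X v' p q))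
        (fun u => Top2_I (Top2_U v v' u)) w fun p hp q hq h' => Top2_add.2
          (Top2_local h h' (h3 v hv p hp) (h3 v' h6 p hp) (h3 v hv q hq) (h3 v' h6 q hq))
    rw [Top2_add' (hκ a (Or.inl rfl) v hv.right_mem v' hv' h (h3 v hv a w.start_mem_support).symm
        (h3 v' h6 a w.start_mem_support).symm),
      Top2_add' (hκ c (Or.inr rfl) v hv.right_mem v' hv' h (h3 v hv c w.end_mem_support).symm
        (h3 v' h6 c w.end_mem_support).symm)] at h7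
    rw [← ih]
    revert h7
    generalize N v = r1, N v' = r2, Top2_I (κ a v) = r3, Top2_I (κ a v') = r4,
      Top2_I (κ c v) = r5, Top2_I (κ c v') = r6
    revert r1 r2 r3 r4 r5 r6
    decide
  rw [h4 b (Or.inl rfl) (Conn.refl h2.left_mem), h4 d (Or.inr rfl) h2,
    ← Top2_add' (C := ν d a) Iff.rfl, ← Top2_add' (C := κ a d) Iff.rfl,
    ← Top2_add' (C := ν b a) Iff.rfl, ← Top2_add' (C := κ a b) Iff.rfl, Top2_add] at h5
  exact hf (Top2_prop h5)

theorem Top2_idx (hx : x1 < x2) (hy : y1 < y2) {v : Site} (h : OnBd x1 x2 y1 y2 v) :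
    (v.1 = x2 ∧ y1 ≤ v.2 ∧ v.2 < y2 ∧ idx x1 x2 y1 y2 v = v.2 - y1) ∨
    (v.2 = y2 ∧ x1 < v.1 ∧ v.1 ≤ x2 ∧ idx x1 x2 y1 y2 v = (y2 - y1) + (x2 - v.1)) ∨
    (v.1 = x1 ∧ y1 < v.2 ∧ v.2 ≤ y2 ∧
      idx x1 x2 y1 y2 v = (y2 - y1) + (x2 - x1) + (y2 - v.2)) ∨
    (v.2 = y1 ∧ x1 ≤ v.1 ∧ v.1 < x2 ∧
      idx x1 x2 y1 y2 v = 2 * (y2 - y1) + (x2 - x1) + (v.1 - x1)) := by
  obtain ⟨⟨h1, h2, h3, h4⟩, h5⟩ := h
  unfold idx
  split_ifs <;> omega

theorem Top2_cmp (hx : x1 < x2) (hy : y1 < y2) {u v : Site} (hu : OnBd x1 x2 y1 y2 u)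
    (hv : OnBd x1 x2 y1 y2 v) (h : idx x1 x2 y1 y2 u ≠ idx x1 x2 y1 y2 v) :
    (((v.1 = x2 ∧ u.2 ≤ v.2) ∨ (v.2 = y1 ∧ u.2 = y1 ∧ u.1 < v.1)) ↔
      ((u.1 = x1 ∧ u.2 ≤ v.2) ∨ (u.2 = y2 ∧ v.2 = y2 ∧ u.1 < v.1) ∨ (u.2 = y1 ∧ u.1 < x2))) ↔
      (idx x1 x2 y1 y2 u < idx x1 x2 y1 y2 v ↔ v.1 ≠ x2) := by
  rcases Top2_idx hx hy hu with h1 | h1 | h1 | h1 <;>
    rcases Top2_idx hx hy hv with h2 | h2 | h2 | h2 <;> omega

/-- Two connections inside a rectangle between boundary pairs that separate each other meet. -/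
theorem meet_of_alt (hx : x1 < x2) (hy : y1 < y2) {S S' : Set Site} {a b c d : Site}
    (ha : OnBd x1 x2 y1 y2 a) (hb : OnBd x1 x2 y1 y2 b) (hc : OnBd x1 x2 y1 y2 c)
    (hd : OnBd x1 x2 y1 y2 d)
    (h : Alt (idx x1 x2 y1 y2 a) (idx x1 x2 y1 y2 b) (idx x1 x2 y1 y2 c) (idx x1 x2 y1 y2 d))
    (hS : S ⊆ rect x1 x2 y1 y2) (hS' : S' ⊆ rect x1 x2 y1 y2)
    (h1 : Conn S a c) (h2 : Conn S' b d) : ∃ v, Conn S a v ∧ Conn S' b v := by
  refine Top2_key h1 h2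
    (fun u v => (u.1 = x1 ∧ u.2 ≤ v.2) ∨ (u.2 = y2 ∧ v.2 = y2 ∧ u.1 < v.1) ∨ (u.2 = y1 ∧ u.1 < x2))
    (fun v u => (v.1 = x2 ∧ u.2 ≤ v.2) ∨ (v.2 = y1 ∧ u.2 = y1 ∧ u.1 < v.1))
    (fun u hu v hv v' hv' h3 h4 h5 => ?_) (fun v hv p hp q hq h3 h4 h5 => ?_) ?_
  · have h6 : OnBd x1 x2 y1 y2 u := by rcases hu with rfl | rfl <;> assumption
    obtain ⟨⟨a1, a2, a3, a4⟩, a5⟩ := h6
    obtain ⟨b1, b2, b3, b4⟩ := hS' hv
    obtain ⟨c1, c2, c3, c4⟩ := hS' hv'
    replace h4 := Top2_ne h4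
    replace h5 := Top2_ne h5
    unfold Top2_U
    rcases h3 with h3 | h3 | h3 | h3 | h3 | h3 <;> rcases a5 with a5 | a5 | a5 | a5 <;> lia
  · have h6 : OnBd x1 x2 y1 y2 v := by rcases hv with rfl | rfl <;> assumption
    obtain ⟨⟨a1, a2, a3, a4⟩, a5⟩ := h6
    obtain ⟨b1, b2, b3, b4⟩ := hS hp
    obtain ⟨c1, c2, c3, c4⟩ := hS hq
    replace h4 := Top2_ne h4
    replace h5 := Top2_ne h5
    unfold Top2_X
    rcases h3 with h3 | h3 | h3 | h3 | h3 | h3 <;> rcases a5 with a5 | a5 | a5 | a5 <;> lia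
  · unfold Alt CCW at h
    rw [Top2_cmp hx hy ha hb (by omega), Top2_cmp hx hy hc hb (by omega),
      Top2_cmp hx hy ha hd (by omega), Top2_cmp hx hy hc hd (by omega)]
    (clear * - h; omega)

/-- A left-right and a bottom-top connection of a rectangle meet. -/
theorem LR_TB_meet {S S' : Set Site} {a b c d : Site} (hS : S ⊆ rect x1 x2 y1 y2)
    (hS' : S' ⊆ rect x1 x2 y1 y2) (h1 : Conn S a b) (ha : a.1 = x1) (hb : b.1 = x2)
    (h2 : Conn S' c d) (hc : c.2 = y1) (hd : d.2 = y2) : ∃ v, Conn S a v ∧ Conn S' c v := by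
  obtain ⟨a1, a2, a3, a4⟩ := hS h1.left_mem
  obtain ⟨b1, b2, b3, b4⟩ := hS h1.right_mem
  obtain ⟨c1, c2, c3, c4⟩ := hS' h2.left_mem
  obtain ⟨d1, d2, d3, d4⟩ := hS' h2.right_mem
  have hx : x1 - 1 < x2 + 1 := by omega
  have hy : y1 - 1 < y2 + 1 := by omega
  have e : ∀ v : Site, (v.1 = x1 - 1 ∨ v.1 = x2 + 1) ∧ y1 ≤ v.2 ∧ v.2 ≤ y2 ∨
      (v.2 = y1 - 1 ∨ v.2 = y2 + 1) ∧ x1 ≤ v.1 ∧ v.1 ≤ x2 →
      OnBd (x1 - 1) (x2 + 1) (y1 - 1) (y2 + 1) v := fun v hv => by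
    unfold OnBd
    rw [mem_rect]
    omega
  have e1 := e (x1 - 1, a.2) (Or.inl ⟨Or.inl rfl, a3, a4⟩)
  have e2 := e (c.1, y1 - 1) (Or.inr ⟨Or.inl rfl, c1, c2⟩)
  have e3 := e (x2 + 1, b.2) (Or.inl ⟨Or.inr rfl, b3, b4⟩)
  have e4 := e (d.1, y2 + 1) (Or.inr ⟨Or.inr rfl, d1, d2⟩)
  have hr : rect x1 x2 y1 y2 ⊆ rect (x1 - 1) (x2 + 1) (y1 - 1) (y2 + 1) := fun v hv => by
    rw [mem_rect] at hv ⊢
    omega
  obtain ⟨v, h3, h4⟩ := meet_of_alt hx hy e1 e2 e3 e4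
    (S := {v | Conn S a v} ∪ {(x1 - 1, a.2), (x2 + 1, b.2)})
    (S' := {v | Conn S' c v} ∪ {(c.1, y1 - 1), (d.1, y2 + 1)}) (by
      have k1 := Top2_idx hx hy e1
      have k2 := Top2_idx hx hy e2
      have k3 := Top2_idx hx hy e3
      have k4 := Top2_idx hx hy e4
      simp only at k1 k2 k3 k4
      exact Or.inl (Or.inr (Or.inr (Or.inl ⟨by omega, by omega, by omega⟩))))
    (by
      rintro v (hv | rfl | rfl)
      exacts [hr (hS hv.right_mem), e1.1, e3.1])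
    (by
      rintro v (hv | rfl | rfl)
      exacts [hr (hS' hv.right_mem), e2.1, e4.1])
    (((h1.cluster.mono Set.subset_union_left).head (by simp only [Adj, true_and, and_true]; omega)
      (by simp)).tail (by simp only [Adj, true_and, and_true]; omega) (by simp))
    (((h2.cluster.mono Set.subset_union_left).head (by simp only [Adj, true_and, and_true]; omega)
      (by simp)).tail (by simp only [Adj, true_and, and_true]; omega) (by simp))
  rcases h3.right_mem with h5 | h5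
  · rcases h4.right_mem with h6 | h6
    · exact ⟨v, h5, h6⟩
    · obtain ⟨-, -, k1, k2⟩ := hS h5.right_mem
      rcases h6 with rfl | rfl <;> simp only at k1 k2 <;> omega
  · have h6 : x1 ≤ v.1 ∧ v.1 ≤ x2 := by
      rcases h4.right_mem with h6 | rfl | rfl
      exacts [⟨(hS' h6.right_mem).1, (hS' h6.right_mem).2.1⟩, ⟨c1, c2⟩, ⟨d1, d2⟩]
    rcases h5 with rfl | rfl <;> simp only at h6 <;> omega

theorem LR.inter_TB {S S' : Set Site} (h : LR S x1 x2 y1 y2) (h' : TB S' x1 x2 y1 y2) :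
    ∃ v, v ∈ S ∧ v ∈ S' ∧ v ∈ rect x1 x2 y1 y2 := by
  obtain ⟨a, b, ha, hb, h1⟩ := h
  obtain ⟨c, d, hc, hd, h2⟩ := h'
  obtain ⟨v, h3, h4⟩ := LR_TB_meet Set.inter_subset_right Set.inter_subset_right h1 ha hb h2 hc hd
  exact ⟨v, h3.right_mem.1, h4.right_mem.1, h3.right_mem.2⟩

/-- Four points in order on a row, joined alternately by finite connections above the row. -/
theorem meet_of_row {S S' : Set Site} {y : ℤ} {a b c d : Site} (hS : ∀ v ∈ S, y ≤ v.2)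
    (hS' : ∀ v ∈ S', y ≤ v.2) (ha : a.2 = y) (hb : b.2 = y) (hc : c.2 = y) (hd : d.2 = y)
    (hab : a.1 < b.1) (hbc : b.1 < c.1) (hcd : c.1 < d.1) (h1 : Conn S a c) (h2 : Conn S' b d) :
    ∃ v, Conn S a v ∧ Conn S' b v := by
  refine Top2_key h1 h2 (fun _ _ => False) (fun v u => u.2 = y ∧ u.1 < v.1)
    (fun u hu v hv v' hv' _ _ _ => ?_) (fun v hv p hp q hq h3 h4 h5 => ?_) ?_
  · have h6 : u.2 = y := by rcases hu with rfl | rfl <;> assumption
    have h7 := hS' v hv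
    have h8 := hS' v' hv'
    simp only [iff_self, not_true, iff_false]
    unfold Top2_U
    omega
  · have h6 : v.2 = y := by rcases hv with rfl | rfl <;> assumption
    have h7 := hS p hp
    have h8 := hS q hq
    replace h4 := Top2_ne h4
    replace h5 := Top2_ne h5
    unfold Top2_X
    rcases h3 with h3 | h3 | h3 | h3 | h3 | h3 <;> (clear * - h3 h4 h5 h6 h7 h8 hb hc hd; omega)
  · simp only [iff_false]
    omega

theorem idx_inj (hx : x1 < x2) (hy : y1 < y2) {a b : Site} (ha : OnBd x1 x2 y1 y2 a)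
    (hb : OnBd x1 x2 y1 y2 b) (h : idx x1 x2 y1 y2 a = idx x1 x2 y1 y2 b) : a = b := by
  rcases Top2_idx hx hy ha with h1 | h1 | h1 | h1 <;>
    rcases Top2_idx hx hy hb with h2 | h2 | h2 | h2 <;> ext <;> omega

theorem Top2_pred (hx : x1 < x2) (hy : y1 < y2) {b : Site} (hb : OnBd x1 x2 y1 y2 b)
    (h : 0 < idx x1 x2 y1 y2 b) :
    ∃ v, OnBd x1 x2 y1 y2 v ∧ idx x1 x2 y1 y2 v + 1 = idx x1 x2 y1 y2 b ∧ Adj v b := by
  have key : ∀ v : Site, OnBd x1 x2 y1 y2 v →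
      (b.1 = x2 ∧ v = (b.1, b.2 - 1) ∨ b.2 = y2 ∧ v = (b.1 + 1, b.2) ∨
        b.1 = x1 ∧ v = (b.1, b.2 + 1) ∨ b.2 = y1 ∧ v = (b.1 - 1, b.2)) →
      ∃ v, OnBd x1 x2 y1 y2 v ∧ idx x1 x2 y1 y2 v + 1 = idx x1 x2 y1 y2 b ∧ Adj v b := by
    intro v hv h1
    have h2 := Top2_idx hx hy hv
    have h3 := Top2_idx hx hy hb
    refine ⟨v, hv, ?_, ?_⟩
    · rcases h1 with ⟨h1, rfl⟩ | ⟨h1, rfl⟩ | ⟨h1, rfl⟩ | ⟨h1, rfl⟩ <;> simp only at h2 <;> omega
    · unfold Adj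
      rcases h1 with ⟨-, rfl⟩ | ⟨-, rfl⟩ | ⟨-, rfl⟩ | ⟨-, rfl⟩ <;> simp
  have h3 := Top2_idx hx hy hb
  by_cases h1 : b.1 = x2
  · exact key _ (by unfold OnBd; simp only [mem_rect]; omega) (Or.inl ⟨h1, rfl⟩)
  by_cases h2 : b.2 = y2
  · exact key _ (by unfold OnBd; simp only [mem_rect]; omega) (Or.inr (Or.inl ⟨h2, rfl⟩))
  by_cases h4 : b.1 = x1
  · exact key _ (by unfold OnBd; simp only [mem_rect]; omega)
      (Or.inr (Or.inr (Or.inl ⟨h4, rfl⟩)))
  · exact key _ (by unfold OnBd; simp only [mem_rect]; omega)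
      (Or.inr (Or.inr (Or.inr ⟨by omega, rfl⟩)))

theorem Top2_conn (hx : x1 < x2) (hy : y1 < y2) {T : Set Site} {a : Site}
    (ha : OnBd x1 x2 y1 y2 a) (n : ℕ) : ∀ b, OnBd x1 x2 y1 y2 b →
      idx x1 x2 y1 y2 b = idx x1 x2 y1 y2 a + n →
      (∀ v, OnBd x1 x2 y1 y2 v → idx x1 x2 y1 y2 a ≤ idx x1 x2 y1 y2 v →
        idx x1 x2 y1 y2 v ≤ idx x1 x2 y1 y2 b → v ∈ T) → Conn T a b := by
  induction n with
  | zero =>
    intro b hb h hT
    obtain rfl := idx_inj hx hy hb ha (by simpa using h)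
    exact Conn.refl (hT b hb le_rfl le_rfl)
  | succ n ih =>
    intro b hb h hT
    have h0 := Top2_idx hx hy ha
    obtain ⟨v, h1, h2, h3⟩ := Top2_pred hx hy hb (by omega)
    exact (ih v h1 (by omega) fun u hu h4 h5 => hT u hu h4 (by omega)).tail h3
      (hT b hb (by omega) le_rfl)

theorem Top2_conn' (hx : x1 < x2) (hy : y1 < y2) {T : Set Site} {a b : Site}
    (ha : OnBd x1 x2 y1 y2 a) (hb : OnBd x1 x2 y1 y2 b)
    (h : idx x1 x2 y1 y2 a ≤ idx x1 x2 y1 y2 b)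
    (hT : ∀ v, OnBd x1 x2 y1 y2 v → idx x1 x2 y1 y2 a ≤ idx x1 x2 y1 y2 v →
      idx x1 x2 y1 y2 v ≤ idx x1 x2 y1 y2 b → v ∈ T) : Conn T a b :=
  Top2_conn hx hy ha (idx x1 x2 y1 y2 b - idx x1 x2 y1 y2 a).toNat b hb (by omega) hT

/-- Boundary arcs are connected. -/
theorem isConn_arc (hx : x1 < x2) (hy : y1 < y2) (i j : ℤ) :
    IsConn {v | OnBd x1 x2 y1 y2 v ∧ i ≤ idx x1 x2 y1 y2 v ∧ idx x1 x2 y1 y2 v ≤ j} := by
  rintro a ⟨ha, h1, h2⟩ b ⟨hb, h3, h4⟩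
  rcases le_total (idx x1 x2 y1 y2 a) (idx x1 x2 y1 y2 b) with h | h
  · exact Top2_conn' hx hy ha hb h fun v hv h5 h6 => ⟨hv, h1.trans h5, h6.trans h4⟩
  · exact .symm (Top2_conn' hx hy hb ha h fun v hv h5 h6 => ⟨hv, h3.trans h5, h6.trans h2⟩)

theorem isConn_coarc (hx : x1 < x2) (hy : y1 < y2) (i j : ℤ) (hi : 0 ≤ i)
    (hj : j < 2 * (x2 - x1) + 2 * (y2 - y1)) :
    IsConn {v | OnBd x1 x2 y1 y2 v ∧ (idx x1 x2 y1 y2 v ≤ i ∨ j ≤ idx x1 x2 y1 y2 v)} := by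
  have h0 : OnBd x1 x2 y1 y2 (x2, y1) := ⟨⟨hx.le, le_rfl, le_rfl, hy.le⟩, Or.inr (Or.inl rfl)⟩
  have h1 : OnBd x1 x2 y1 y2 (x2 - 1, y1) := by
    simp only [OnBd, mem_rect, or_true, true_or, and_true]
    omega
  have k0 := Top2_idx hx hy h0
  have k1 := Top2_idx hx hy h1
  simp only at k0 k1
  have key : ∀ a ∈ {v | OnBd x1 x2 y1 y2 v ∧ (idx x1 x2 y1 y2 v ≤ i ∨ j ≤ idx x1 x2 y1 y2 v)},
      Conn {v | OnBd x1 x2 y1 y2 v ∧ (idx x1 x2 y1 y2 v ≤ i ∨ j ≤ idx x1 x2 y1 y2 v)}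
        a (x2, y1) := by
    rintro a ⟨ha, h | h⟩
    · have k := Top2_idx hx hy ha
      exact .symm (Top2_conn' hx hy h0 ha (by omega) fun v hv _ h2 => ⟨hv, Or.inl (h2.trans h)⟩)
    · have k := Top2_idx hx hy ha
      exact .tail (Top2_conn' hx hy ha h1 (by omega) fun v hv h2 _ => ⟨hv, Or.inr (h.trans h2)⟩)
        (Or.inl (by simp)) ⟨h0, Or.inl (by omega)⟩
  exact fun a ha b hb => (key a ha).trans (key b hb).symm

theorem idx_range (hx : x1 < x2) (hy : y1 < y2) {a : Site} (ha : OnBd x1 x2 y1 y2 a) :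
    0 ≤ idx x1 x2 y1 y2 a ∧ idx x1 x2 y1 y2 a < 2 * (x2 - x1) + 2 * (y2 - y1) := by
  have := Top2_idx hx hy ha
  omega

theorem onBd_ball {n : ℕ} {v : Site} : OnBd (-n) n (-n) n v ↔ dst 0 v = n := by
  simp only [OnBd, mem_rect, dst, Prod.fst_zero, Prod.snd_zero, sub_zero]
  omega

theorem Dom_ball (r n : ℕ) : Dom (-n) n (-n) n r = ann 0 r n := by
  ext v
  simp only [Dom, Set.mem_inter_iff, mem_rect, Set.mem_ofPred_eq, mem_ann, dst, Prod.fst_zero,
    Prod.snd_zero, sub_zero]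
  omega

end Pool.Agent.Work.MP_ccd212_pr
end

-- merged part: Pool.Agent.Work.MP_ccd212_pr.Top4
section
/-! Following an edge cut through faces. -/

namespace Pool.Agent.Work.MP_ccd212_pr

open Classical in
private theorem face_even {U : Set Site} (f : Face) (K : Finset (Site × Site))
    (hc : ∀ e ∈ K, Cut U e)
    (hcl : ∀ e ∈ K, InF f e.1 → InF f e.2 → ∀ e', Cut U e' → InF f e'.1 → InF f e'.2 → e' ∈ K) :
    Even (K.filter fun e => InF f e.1 ∧ InF f e.2).card := by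
  by_cases hne : (K.filter fun e => InF f e.1 ∧ InF f e.2) = ∅
  · rw [hne]; simp
  obtain ⟨e0, he0⟩ := Finset.nonempty_iff_ne_empty.2 hne
  rw [Finset.mem_filter] at he0
  obtain ⟨a, b, c, hab, hac, hbc, h3⟩ := exists_three f
  let A : Finset Site := {a, b, c}
  have hA : ∀ v, v ∈ A ↔ InF f v := fun v => by rw [h3]; simp [A]
  have hA3 : A.card = 3 := Finset.card_eq_three.2 ⟨a, b, c, hab, hac, hbc, rfl⟩
  have heq : (K.filter fun e => InF f e.1 ∧ InF f e.2) =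
      (A.filter fun v => v ∈ U) ×ˢ (A.filter fun v => ¬ v ∈ U) := by
    ext e
    simp only [Finset.mem_filter, Finset.mem_product, hA]
    constructor
    · rintro ⟨h1, h2, h3⟩
      exact ⟨⟨h2, (hc e h1).2.1⟩, h3, (hc e h1).2.2⟩
    · rintro ⟨⟨h1, h2⟩, h3, h4⟩
      have hne : e.1 ≠ e.2 := fun h => h4 (h ▸ h2)
      exact ⟨hcl e0 he0.1 he0.2.1 he0.2.2 e ⟨h1.adj h3 hne, h2, h4⟩ h1 h3, h1, h3⟩
  rw [heq, Finset.card_product]
  have hs := Finset.card_filter_add_card_filter_not (s := A) (fun v => v ∈ U)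
  rw [hA3] at hs
  rw [Nat.even_mul, Nat.even_iff, Nat.even_iff]
  omega

open Classical in
private theorem edge_par {F : Set Face} (Ff : Finset Face) (hF : ∀ f, f ∈ Ff ↔ f ∈ F)
    {e : Site × Site} (he : Adj e.1 e.2) :
    (((Ff.filter fun f => InF f e.1 ∧ InF f e.2).card : ℕ) : ZMod 2) =
      if Exit F e then 1 else 0 := by
  obtain ⟨f, g, hs⟩ := he.exists_shares
  have hfg : f ≠ g := hs.1
  have hmem : ∀ h : Face, (InF h e.1 ∧ InF h e.2) ↔ (h = f ∨ h = g) := fun h =>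
    ⟨fun hh => hs.eq_or hh.1 hh.2, fun hh => by
      rcases hh with rfl | rfl
      · exact ⟨hs.2.2.1, hs.2.2.2.1⟩
      · exact ⟨hs.2.2.2.2.1, hs.2.2.2.2.2⟩⟩
  have hex : Exit F e ↔ ¬ (f ∈ F ↔ g ∈ F) := by
    constructor
    · rintro ⟨f', g', hs', h1, h2⟩ hiff
      have a1 := (hmem f').1 ⟨hs'.2.2.1, hs'.2.2.2.1⟩
      have a2 := (hmem g').1 ⟨hs'.2.2.2.2.1, hs'.2.2.2.2.2⟩
      rcases a1 with rfl | rfl <;> rcases a2 with rfl | rfl <;> tauto
    · intro h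
      by_cases hf : f ∈ F
      · exact ⟨f, g, hs, hf, by tauto⟩
      · exact ⟨g, f, hs.symm, by tauto, hf⟩
  by_cases hf : f ∈ F <;> by_cases hg : g ∈ F
  · have : (Ff.filter fun h => InF h e.1 ∧ InF h e.2) = {f, g} := by
      ext h
      simp only [Finset.mem_filter, hmem, hF, Finset.mem_insert, Finset.mem_singleton]
      constructor
      · exact fun x => x.2
      · rintro (rfl | rfl) <;> simp [hf, hg]
    rw [this, Finset.card_pair hfg, if_neg (by rw [hex]; tauto)]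
    rfl
  · have : (Ff.filter fun h => InF h e.1 ∧ InF h e.2) = {f} := by
      ext h
      simp only [Finset.mem_filter, hmem, hF, Finset.mem_singleton]
      constructor
      · rintro ⟨h1, rfl | rfl⟩
        · rfl
        · exact absurd h1 hg
      · rintro rfl; simp [hf]
    rw [this, if_pos (by rw [hex]; tauto)]
    simp
  · have : (Ff.filter fun h => InF h e.1 ∧ InF h e.2) = {g} := by
      ext h
      simp only [Finset.mem_filter, hmem, hF, Finset.mem_singleton]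
      constructor
      · rintro ⟨h1, rfl | rfl⟩
        · exact absurd h1 hf
        · rfl
      · rintro rfl; simp [hg]
    rw [this, if_pos (by rw [hex]; tauto)]
    simp
  · have : (Ff.filter fun h => InF h e.1 ∧ InF h e.2) = ∅ := by
      ext h
      simp only [Finset.mem_filter, hmem, hF, Finset.notMem_empty, iff_false]
      rintro ⟨h1, rfl | rfl⟩
      · exact hf h1
      · exact hg h1
    rw [this, if_neg (by rw [hex]; tauto)]
    simp

private theorem face_finite (f : Face) : {v | InF f v}.Finite := by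
  obtain ⟨a, b, c, -, -, -, h3⟩ := exists_three f
  refine (Set.toFinite ({a, b, c} : Set Site)).subset fun v hv => ?_
  simpa using (h3 v).1 hv

/-- Handshake along a cut: from an odd family of exit edges one reaches another exit edge. -/
theorem cut_follow {U : Set Site} {F : Set Face} (hF : F.Finite) (E1 : Finset (Site × Site))
    (h1 : ∀ e ∈ E1, Cut U e ∧ Exit F e) (hodd : Odd E1.card) :
    ∃ e ∈ E1, ∃ e', e' ∉ E1 ∧ Cut U e' ∧ Exit F e' ∧ Relation.ReflTransGen (CStep U F) e e' := by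
  classical
  by_contra hcon
  let KS : Set (Site × Site) := {e' | ∃ e ∈ E1, Relation.ReflTransGen (CStep U F) e e'}
  have hK : ∀ e' ∈ KS, Cut U e' ∧ ∃ f ∈ F, InF f e'.1 ∧ InF f e'.2 := by
    rintro e' ⟨e, he, hr⟩
    rcases hr.cases_tail with rfl | ⟨c, -, hs⟩
    · obtain ⟨hc, f, g, hs, hf, -⟩ := h1 _ he
      exact ⟨hc, f, hf, hs.2.2.1, hs.2.2.2.1⟩
    · obtain ⟨-, hc, f, hf, -, -, h3, h4⟩ := hs
      exact ⟨hc, f, hf, h3, h4⟩
  have hV : (⋃ f ∈ F, {v | InF f v}).Finite := hF.biUnion fun f _ => face_finite f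
  have hfin : KS.Finite := by
    refine (hV.prod hV).subset fun e he => ?_
    obtain ⟨-, f, hf, h3, h4⟩ := hK e he
    exact ⟨Set.mem_biUnion hf h3, Set.mem_biUnion hf h4⟩
  let K := hfin.toFinset
  let Ff := hF.toFinset
  have hKm : ∀ e, e ∈ K ↔ e ∈ KS := fun e => hfin.mem_toFinset
  have hFm : ∀ f, f ∈ Ff ↔ f ∈ F := fun f => hF.mem_toFinset
  have hsum : ∑ e ∈ K, (Ff.filter fun f => InF f e.1 ∧ InF f e.2).card =
      ∑ f ∈ Ff, (K.filter fun e => InF f e.1 ∧ InF f e.2).card := by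
    simp only [Finset.card_filter]
    exact Finset.sum_comm
  have hR : Even (∑ f ∈ Ff, (K.filter fun e => InF f e.1 ∧ InF f e.2).card) := by
    refine Finset.even_sum _ fun f hf => ?_
    refine face_even (U := U) f K (fun e he => (hK e ((hKm e).1 he)).1) ?_
    intro e he a1 a2 e' hc b1 b2
    obtain ⟨e0, he0, hr⟩ := (hKm e).1 he
    exact (hKm e').2 ⟨e0, he0, hr.tail ⟨(hK e ((hKm e).1 he)).1, hc, f, (hFm f).1 hf, a1, a2, b1, b2⟩⟩
  rw [← hsum, ← ZMod.natCast_eq_zero_iff_even, Nat.cast_sum] at hR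
  rw [Finset.sum_congr rfl fun e he => edge_par Ff hFm (hK e ((hKm e).1 he)).1.1] at hR
  have hE : K.filter (fun e => Exit F e) = E1 := by
    ext e
    rw [Finset.mem_filter, hKm]
    constructor
    · rintro ⟨hk, hx⟩
      by_contra hn
      obtain ⟨e0, he0, hr⟩ := hk
      exact hcon ⟨e0, he0, e, hn, (hK e ⟨e0, he0, hr⟩).1, hx, hr⟩
    · exact fun he => ⟨⟨e, he, .refl⟩, (h1 e he).2⟩
  rw [Finset.sum_boole, hE, ZMod.natCast_eq_zero_iff_even] at hR
  exact (Nat.not_even_iff_odd.2 hodd) hR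

/-- End points chosen along a chain of cut edges form a connection. -/
theorem conn_of_chain {U : Set Site} {F : Set Face} (sel : Site × Site → Site)
    (hsel : ∀ e, sel e = e.1 ∨ sel e = e.2) {T : Set Site}
    (hT : ∀ e, Cut U e → (∃ f ∈ F, InF f e.1 ∧ InF f e.2) → sel e ∈ T) {e e' : Site × Site}
    (he : Cut U e) (hf : ∃ f ∈ F, InF f e.1 ∧ InF f e.2)
    (h : Relation.ReflTransGen (CStep U F) e e') : Conn T (sel e) (sel e') := by
  induction h with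
  | refl => exact Conn.refl (hT e he hf)
  | @tail b c _ hs ih =>
    obtain ⟨-, hc, f, hfF, a1, a2, b1, b2⟩ := hs
    have hb : InF f (sel b) := by rcases hsel b with h | h <;> rw [h] <;> assumption
    have hc' : InF f (sel c) := by rcases hsel c with h | h <;> rw [h] <;> assumption
    by_cases hbc : sel b = sel c
    · rw [← hbc]; exact ih
    · exact ih.tail (hb.adj hc' hbc) (hT c hc ⟨f, hfF, b1, b2⟩)

private theorem mult_cons {u v t : Site} (h : G.Adj u v) (w : G.Walk v t) (a b : Site) :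
    mult (.cons h w) a b = (if s(u, v) = s(a, b) then 1 else 0) + mult w a b := by
  unfold mult
  rw [SimpleGraph.Walk.edges_cons, List.count_cons]
  by_cases hh : s(u, v) = s(a, b)
  · rw [if_pos hh, if_pos (by simpa using hh)]; push_cast; ring
  · rw [if_neg hh, if_neg (by simpa using hh)]; push_cast; ring

open Classical in
private theorem sum_mult {U : Set Site} (S : Finset Site) {a b : Site} (w : G.Walk a b)
    (hS : ∀ v ∈ w.support, v ∈ S) :
    ∑ e ∈ (S ×ˢ S).filter (fun e => Cut U e), mult w e.1 e.2 =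
      (if a ∈ U then 1 else 0) + (if b ∈ U then 1 else 0) := by
  induction w with
  | nil =>
    rw [CharTwo.add_self_eq_zero]
    exact Finset.sum_eq_zero fun e _ => by simp [mult]
  | @cons u v t h w ih =>
    have hu : u ∈ S := hS u (by simp)
    have hv : v ∈ S := hS v (by simp)
    simp only [mult_cons, Finset.sum_add_distrib]
    rw [ih fun x hx => hS x (by simp [hx])]
    have key : ∑ e ∈ (S ×ˢ S).filter (fun e => Cut U e),
        (if s(u, v) = s(e.1, e.2) then (1 : ZMod 2) else 0) =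
        (if u ∈ U then 1 else 0) + (if v ∈ U then 1 else 0) := by
      have h' : Adj u v := h
      by_cases h1 : u ∈ U <;> by_cases h2 : v ∈ U
      · rw [if_pos h1, if_pos h2, CharTwo.add_self_eq_zero]
        refine Finset.sum_eq_zero fun e he => if_neg fun hh => ?_
        have hc := (Finset.mem_filter.1 he).2
        rcases Sym2.eq_iff.1 hh with ⟨-, h4⟩ | ⟨h4, -⟩
        · exact hc.2.2 (h4 ▸ h2)
        · exact hc.2.2 (h4 ▸ h1)
      · rw [if_pos h1, if_neg h2, add_zero, Finset.sum_eq_single (u, v)]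
        · simp
        · intro e he hne
          refine if_neg fun hh => ?_
          have hc := (Finset.mem_filter.1 he).2
          rcases Sym2.eq_iff.1 hh with ⟨h3, h4⟩ | ⟨h4, -⟩
          · exact hne (Prod.ext h3.symm h4.symm)
          · exact hc.2.2 (h4 ▸ h1)
        · intro hn
          exact absurd (Finset.mem_filter.2 ⟨Finset.mem_product.2 ⟨hu, hv⟩, h', h1, h2⟩) hn
      · rw [if_neg h1, if_pos h2, zero_add, Finset.sum_eq_single (v, u)]
        · simp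
        · intro e he hne
          refine if_neg fun hh => ?_
          have hc := (Finset.mem_filter.1 he).2
          rcases Sym2.eq_iff.1 hh with ⟨-, h4⟩ | ⟨h3, h4⟩
          · exact hc.2.2 (h4 ▸ h2)
          · exact hne (Prod.ext h4.symm h3.symm)
        · intro hn
          exact absurd (Finset.mem_filter.2 ⟨Finset.mem_product.2 ⟨hv, hu⟩, h'.symm, h2, h1⟩) hn
      · rw [if_neg h1, if_neg h2, add_zero]
        refine Finset.sum_eq_zero fun e he => if_neg fun hh => ?_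
        have hc := (Finset.mem_filter.1 he).2
        rcases Sym2.eq_iff.1 hh with ⟨h4, -⟩ | ⟨-, h4⟩
        · exact h1 (h4 ▸ hc.2.1)
        · exact h2 (h4 ▸ hc.2.1)
    rw [key, add_assoc, ← add_assoc (if v ∈ U then (1 : ZMod 2) else 0), CharTwo.add_self_eq_zero,
      zero_add]

/-- The cut edges used an odd number of times by a walk from `U` to its complement are odd in
number. -/
theorem odd_cut_of_walk {U : Set Site} {a b : Site} (w : G.Walk a b) (ha : a ∈ U) (hb : b ∉ U) :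
    ∃ E1 : Finset (Site × Site), Odd E1.card ∧ ∀ e, e ∈ E1 ↔ Cut U e ∧ mult w e.1 e.2 = 1 := by
  classical
  let S := w.support.toFinset
  have hS : ∀ v, v ∈ S ↔ v ∈ w.support := fun v => List.mem_toFinset
  refine ⟨((S ×ˢ S).filter (fun e => Cut U e)).filter fun e => mult w e.1 e.2 = 1, ?_, ?_⟩
  · have h := sum_mult (U := U) S w fun v hv => (hS v).2 hv
    rw [if_pos ha, if_neg hb, add_zero] at h
    rw [← ZMod.natCast_eq_one_iff_odd, ← Finset.sum_boole]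
    refine Eq.trans (Finset.sum_congr rfl fun e _ => ?_) h
    generalize mult w e.1 e.2 = z
    revert z
    decide
  · intro e
    simp only [Finset.mem_filter, Finset.mem_product, hS]
    constructor
    · exact fun h => ⟨h.1.2, h.2⟩
    · rintro ⟨h1, h2⟩
      refine ⟨⟨⟨?_, ?_⟩, h1⟩, h2⟩
      · by_contra hn
        rw [mult_eq_zero w hn] at h2
        exact zero_ne_one h2
      · by_contra hn
        have h3 : mult w e.1 e.2 = mult w e.2 e.1 := by unfold mult; rw [Sym2.eq_swap]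
        rw [h3, mult_eq_zero w hn] at h2
        exact zero_ne_one h2

/-- The boundary point with a given position. -/
private def pt (x1 x2 y1 y2 k : ℤ) : Site :=
  if k < y2 - y1 then (x2, y1 + k)
  else if k < (y2 - y1) + (x2 - x1) then (x2 - (k - (y2 - y1)), y2)
  else if k < 2 * (y2 - y1) + (x2 - x1) then (x1, y2 - (k - (y2 - y1) - (x2 - x1)))
  else (x1 + (k - 2 * (y2 - y1) - (x2 - x1)), y1)

section
variable {x1 x2 y1 y2 : ℤ}

private theorem pt_onBd (hx : x1 < x2) (hy : y1 < y2) {k : ℤ} (h0 : 0 ≤ k)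
    (h1 : k < 2 * (x2 - x1) + 2 * (y2 - y1)) : OnBd x1 x2 y1 y2 (pt x1 x2 y1 y2 k) := by
  unfold pt OnBd
  split_ifs <;> simp only [mem_rect] <;> refine ⟨by omega, by simp⟩

private theorem idx_pt (hx : x1 < x2) (hy : y1 < y2) {k : ℤ} (h0 : 0 ≤ k)
    (h1 : k < 2 * (x2 - x1) + 2 * (y2 - y1)) : idx x1 x2 y1 y2 (pt x1 x2 y1 y2 k) = k := by
  unfold pt
  split_ifs <;> unfold idx <;> dsimp only <;> split_ifs <;> omega

private theorem adj_pt (hx : x1 < x2) (hy : y1 < y2) {k : ℤ} (h0 : 0 ≤ k)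
    (h1 : k + 1 < 2 * (x2 - x1) + 2 * (y2 - y1)) :
    Adj (pt x1 x2 y1 y2 k) (pt x1 x2 y1 y2 (k + 1)) := by
  unfold pt
  split_ifs <;> unfold Adj <;> dsimp only <;> omega

private theorem adj_wrap (hx : x1 < x2) (hy : y1 < y2) :
    Adj (pt x1 x2 y1 y2 0) (pt x1 x2 y1 y2 (2 * (x2 - x1) + 2 * (y2 - y1) - 1)) := by
  unfold pt
  split_ifs <;> unfold Adj <;> dsimp only <;> omega

private theorem pt_idx (hx : x1 < x2) (hy : y1 < y2) {v : Site} (hv : OnBd x1 x2 y1 y2 v) :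
    pt x1 x2 y1 y2 (idx x1 x2 y1 y2 v) = v := by
  have hr := idx_range hx hy hv
  exact idx_inj hx hy (pt_onBd hx hy hr.1 hr.2) hv (idx_pt hx hy hr.1 hr.2)

open Classical in
private theorem par (p : ℤ → Prop) (i : ℤ) (n : ℕ) :
    Even ((Finset.Ico i (i + n)).filter fun k => ¬ (p k ↔ p (k + 1))).card ↔ (p i ↔ p (i + n)) := by
  induction n with
  | zero => simp
  | succ n ih =>
    have h1 : Finset.Ico i (i + ((n + 1 : ℕ) : ℤ)) = insert (i + n) (Finset.Ico i (i + n)) := by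
      ext k
      simp only [Finset.mem_Ico, Finset.mem_insert]
      push_cast
      omega
    have h2 : i + ((n + 1 : ℕ) : ℤ) = i + n + 1 := by push_cast; ring
    rw [h1, h2, Finset.filter_insert]
    split_ifs with h
    · rw [ih]
      tauto
    · rw [Finset.card_insert_of_notMem (by simp), Nat.even_add_one, ih]
      tauto

private theorem arc_aux (hx : x1 < x2) (hy : y1 < y2) (U : Set Site) {i j : ℤ} (hi : 0 ≤ i)
    (hij : i ≤ j) (hj : j < 2 * (x2 - x1) + 2 * (y2 - y1)) :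
    ∃ E : Finset (Site × Site),
      (Even E.card ↔ (pt x1 x2 y1 y2 i ∈ U ↔ pt x1 x2 y1 y2 j ∈ U)) ∧ ∀ e, e ∈ E ↔ Cut U e ∧
      OnBd x1 x2 y1 y2 e.1 ∧ OnBd x1 x2 y1 y2 e.2 ∧
      |idx x1 x2 y1 y2 e.1 - idx x1 x2 y1 y2 e.2| = 1 ∧
      i ≤ idx x1 x2 y1 y2 e.1 ∧ idx x1 x2 y1 y2 e.1 ≤ j ∧
      i ≤ idx x1 x2 y1 y2 e.2 ∧ idx x1 x2 y1 y2 e.2 ≤ j := by
  classical
  obtain ⟨n, rfl⟩ : ∃ n : ℕ, j = i + n := ⟨(j - i).toNat, by omega⟩
  let g : ℤ → Site × Site := fun k =>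
    if pt x1 x2 y1 y2 k ∈ U then (pt x1 x2 y1 y2 k, pt x1 x2 y1 y2 (k + 1))
    else (pt x1 x2 y1 y2 (k + 1), pt x1 x2 y1 y2 k)
  let A := (Finset.Ico i (i + n)).filter fun k =>
    ¬ (pt x1 x2 y1 y2 k ∈ U ↔ pt x1 x2 y1 y2 (k + 1) ∈ U)
  have hA : ∀ k, k ∈ A ↔ (i ≤ k ∧ k < i + n) ∧
      ¬ (pt x1 x2 y1 y2 k ∈ U ↔ pt x1 x2 y1 y2 (k + 1) ∈ U) := fun k => by
    simp only [A, Finset.mem_filter, Finset.mem_Ico]
  have hsum : ∀ k ∈ A, idx x1 x2 y1 y2 (g k).1 + idx x1 x2 y1 y2 (g k).2 = 2 * k + 1 := by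
    intro k hk
    obtain ⟨⟨a1, a2⟩, -⟩ := (hA k).1 hk
    have b1 := idx_pt hx hy (k := k) (by omega) (by omega)
    have b2 := idx_pt hx hy (k := k + 1) (by omega) (by omega)
    simp only [g]
    split_ifs <;> simp only [b1, b2] <;> ring
  refine ⟨A.image g, ?_, fun e => ?_⟩
  · rw [Finset.card_image_of_injOn]
    · exact par (fun k => pt x1 x2 y1 y2 k ∈ U) i n
    · intro k hk l hl hkl
      have a1 := hsum k hk
      have a2 := hsum l hl
      rw [hkl] at a1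
      omega
  · rw [Finset.mem_image]
    constructor
    · rintro ⟨k, hk, rfl⟩
      obtain ⟨⟨a1, a2⟩, a3⟩ := (hA k).1 hk
      have b1 := idx_pt hx hy (k := k) (by omega) (by omega)
      have b2 := idx_pt hx hy (k := k + 1) (by omega) (by omega)
      have c1 := pt_onBd hx hy (k := k) (by omega) (by omega)
      have c2 := pt_onBd hx hy (k := k + 1) (by omega) (by omega)
      have d := adj_pt hx hy (k := k) (by omega) (by omega)
      simp only [g]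
      split_ifs with h
      · refine ⟨⟨d, h, by tauto⟩, c1, c2, ?_, ?_⟩
        · simp only [b1, b2]; simp
        · simp only [b1, b2]; omega
      · refine ⟨⟨d.symm, by tauto, h⟩, c2, c1, ?_, ?_⟩
        · simp only [b1, b2]; simp
        · simp only [b1, b2]; omega
    · rintro ⟨hc, o1, o2, habs, a1, a2, a3, a4⟩
      have p1 := pt_idx hx hy o1
      have p2 := pt_idx hx hy o2
      rcases (abs_eq (by norm_num)).1 habs with h | h
      · have h' : idx x1 x2 y1 y2 e.2 + 1 = idx x1 x2 y1 y2 e.1 := by omega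
        refine ⟨idx x1 x2 y1 y2 e.2, (hA _).2 ⟨by omega, ?_⟩, ?_⟩
        · rw [h', p1, p2]
          have := hc.2.1
          have := hc.2.2
          tauto
        · simp only [g]
          rw [h', p1, p2, if_neg hc.2.2]
      · have h' : idx x1 x2 y1 y2 e.1 + 1 = idx x1 x2 y1 y2 e.2 := by omega
        refine ⟨idx x1 x2 y1 y2 e.1, (hA _).2 ⟨by omega, ?_⟩, ?_⟩
        · rw [h', p1, p2]
          have := hc.2.1
          have := hc.2.2
          tauto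
        · simp only [g]
          rw [h', p1, p2, if_pos hc.2.1]

end

/-- The cut edges of a boundary arc from `U` to its complement are odd in number. -/
theorem odd_cut_of_arc {x1 x2 y1 y2 : ℤ} (hx : x1 < x2) (hy : y1 < y2) {U : Set Site} {a c : Site}
    (ha : OnBd x1 x2 y1 y2 a) (hc : OnBd x1 x2 y1 y2 c)
    (hac : idx x1 x2 y1 y2 a < idx x1 x2 y1 y2 c) (hU : ¬ (a ∈ U ↔ c ∈ U)) :
    ∃ E1 : Finset (Site × Site), Odd E1.card ∧ ∀ e, e ∈ E1 ↔ Cut U e ∧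
      OnBd x1 x2 y1 y2 e.1 ∧ OnBd x1 x2 y1 y2 e.2 ∧
      |idx x1 x2 y1 y2 e.1 - idx x1 x2 y1 y2 e.2| = 1 ∧
      idx x1 x2 y1 y2 a ≤ idx x1 x2 y1 y2 e.1 ∧ idx x1 x2 y1 y2 e.1 ≤ idx x1 x2 y1 y2 c ∧
      idx x1 x2 y1 y2 a ≤ idx x1 x2 y1 y2 e.2 ∧ idx x1 x2 y1 y2 e.2 ≤ idx x1 x2 y1 y2 c := by
  obtain ⟨E, h1, h2⟩ := arc_aux hx hy U (idx_range hx hy ha).1 hac.le (idx_range hx hy hc).2
  rw [pt_idx hx hy ha, pt_idx hx hy hc] at h1
  exact ⟨E, Nat.not_even_iff_odd.1 fun h => hU (h1.1 h), h2⟩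

/-- The cut edges of the whole boundary cycle are even in number. -/
theorem even_cut_of_bd {x1 x2 y1 y2 : ℤ} (hx : x1 < x2) (hy : y1 < y2) (U : Set Site) :
    ∃ E0 : Finset (Site × Site), Even E0.card ∧ ∀ e, e ∈ E0 ↔ Cut U e ∧
      OnBd x1 x2 y1 y2 e.1 ∧ OnBd x1 x2 y1 y2 e.2 ∧
      (|idx x1 x2 y1 y2 e.1 - idx x1 x2 y1 y2 e.2| = 1 ∨
        |idx x1 x2 y1 y2 e.1 - idx x1 x2 y1 y2 e.2| = 2 * (x2 - x1) + 2 * (y2 - y1) - 1) := by
  classical
  obtain ⟨E, h1, h2⟩ := arc_aux hx hy U (i := 0) (j := 2 * (x2 - x1) + 2 * (y2 - y1) - 1) le_rfl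
    (by omega) (by omega)
  have d := adj_wrap hx hy
  have b1 := idx_pt hx hy (k := 0) le_rfl (by omega)
  have b2 := idx_pt hx hy (k := 2 * (x2 - x1) + 2 * (y2 - y1) - 1) (by omega) (by omega)
  have c1 := pt_onBd hx hy (k := 0) le_rfl (by omega)
  have c2 := pt_onBd hx hy (k := 2 * (x2 - x1) + 2 * (y2 - y1) - 1) (by omega) (by omega)
  generalize pt x1 x2 y1 y2 0 = p at *
  generalize pt x1 x2 y1 y2 (2 * (x2 - x1) + 2 * (y2 - y1) - 1) = q at *
  have hE : ∀ e, e ∈ E ↔ Cut U e ∧ OnBd x1 x2 y1 y2 e.1 ∧ OnBd x1 x2 y1 y2 e.2 ∧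
      |idx x1 x2 y1 y2 e.1 - idx x1 x2 y1 y2 e.2| = 1 := by
    intro e
    rw [h2]
    constructor
    · exact fun h => ⟨h.1, h.2.1, h.2.2.1, h.2.2.2.1⟩
    · rintro ⟨a1, a2, a3, a4⟩
      have r1 := idx_range hx hy a2
      have r2 := idx_range hx hy a3
      exact ⟨a1, a2, a3, a4, by omega⟩
  have hW : ∀ e : Site × Site, OnBd x1 x2 y1 y2 e.1 → OnBd x1 x2 y1 y2 e.2 →
      |idx x1 x2 y1 y2 e.1 - idx x1 x2 y1 y2 e.2| = 2 * (x2 - x1) + 2 * (y2 - y1) - 1 →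
      e = (p, q) ∨ e = (q, p) := by
    intro e a2 a3 a4
    have r1 := idx_range hx hy a2
    have r2 := idx_range hx hy a3
    rcases (abs_eq (by omega)).1 a4 with h | h
    · have e1 : e.1 = q := idx_inj hx hy a2 c2 (by omega)
      have e2 : e.2 = p := idx_inj hx hy a3 c1 (by omega)
      exact Or.inr (Prod.ext e1 e2)
    · have e1 : e.1 = p := idx_inj hx hy a2 c1 (by omega)
      have e2 : e.2 = q := idx_inj hx hy a3 c2 (by omega)
      exact Or.inl (Prod.ext e1 e2)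
  have w1 : |idx x1 x2 y1 y2 p - idx x1 x2 y1 y2 q| = 2 * (x2 - x1) + 2 * (y2 - y1) - 1 := by
    rw [b1, b2, zero_sub, abs_neg, abs_of_nonneg (by omega)]
  have w2 : |idx x1 x2 y1 y2 q - idx x1 x2 y1 y2 p| = 2 * (x2 - x1) + 2 * (y2 - y1) - 1 := by
    rw [abs_sub_comm, w1]
  by_cases hpq : p ∈ U ↔ q ∈ U
  · refine ⟨E, h1.2 hpq, fun e => ?_⟩
    rw [hE]
    constructor
    · exact fun h => ⟨h.1, h.2.1, h.2.2.1, Or.inl h.2.2.2⟩
    · rintro ⟨a1, a2, a3, a4 | a4⟩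
      · exact ⟨a1, a2, a3, a4⟩
      · exfalso
        rcases hW e a2 a3 a4 with rfl | rfl
        · exact a1.2.2 (hpq.1 a1.2.1)
        · exact a1.2.2 (hpq.2 a1.2.1)
  · have hodd : ¬ Even E.card := fun h => hpq (h1.1 h)
    by_cases hp : p ∈ U
    · have hq : q ∉ U := by tauto
      have hn : (p, q) ∉ E := fun h => by
        have := ((hE _).1 h).2.2.2
        simp only [w1] at this
        omega
      refine ⟨insert (p, q) E, by rw [Finset.card_insert_of_notMem hn, Nat.even_add_one]; exact hodd,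
        fun e => ?_⟩
      rw [Finset.mem_insert, hE]
      constructor
      · rintro (rfl | h)
        · exact ⟨⟨d, hp, hq⟩, c1, c2, Or.inr w1⟩
        · exact ⟨h.1, h.2.1, h.2.2.1, Or.inl h.2.2.2⟩
      · rintro ⟨a1, a2, a3, a4 | a4⟩
        · exact Or.inr ⟨a1, a2, a3, a4⟩
        · rcases hW e a2 a3 a4 with rfl | rfl
          · exact Or.inl rfl
          · exact absurd a1.2.1 hq
    · have hq : q ∈ U := by tauto
      have hn : (q, p) ∉ E := fun h => by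
        have := ((hE _).1 h).2.2.2
        simp only [w2] at this
        omega
      refine ⟨insert (q, p) E, by rw [Finset.card_insert_of_notMem hn, Nat.even_add_one]; exact hodd,
        fun e => ?_⟩
      rw [Finset.mem_insert, hE]
      constructor
      · rintro (rfl | h)
        · exact ⟨⟨d.symm, hq, hp⟩, c2, c1, Or.inr w2⟩
        · exact ⟨h.1, h.2.1, h.2.2.1, Or.inl h.2.2.2⟩
      · rintro ⟨a1, a2, a3, a4 | a4⟩
        · exact Or.inr ⟨a1, a2, a3, a4⟩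
        · rcases hW e a2 a3 a4 with rfl | rfl
          · exact absurd a1.2.1 hp
          · exact Or.inl rfl

end Pool.Agent.Work.MP_ccd212_pr
end

-- merged part: Pool.Agent.Work.MP_ccd212_pr.Top3
section
/-! Connectedness of visible boundaries, the Hex lemma and duality in rings. -/

namespace Pool.Agent.Work.MP_ccd212_pr

theorem Top3_mult_swap {u v : Site} (w : G.Walk u v) (a b : Site) : mult w a b = mult w b a := by
  unfold mult
  rw [Sym2.eq_swap]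

theorem Top3_mult_cons {u v t : Site} (h : G.Adj u v) (w : G.Walk v t) (a b : Site) :
    mult (.cons h w) a b = mult w a b + if s(u, v) = s(a, b) then 1 else 0 := by
  unfold mult
  rw [SimpleGraph.Walk.edges_cons, List.count_cons]
  by_cases e : s(u, v) = s(a, b) <;> simp [e]

theorem Top3_bound (l : List Site) : ∃ n : ℕ, ∀ v ∈ l, dst 0 v ≤ n := by
  induction l with
  | nil => exact ⟨0, by simp⟩
  | cons a l ih =>
    obtain ⟨n, hn⟩ := ih
    refine ⟨max n (dst 0 a), fun v hv => ?_⟩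
    rcases List.mem_cons.1 hv with rfl | hv
    · exact le_max_right _ _
    · exact (hn v hv).trans (le_max_left _ _)

theorem Top3_finite {u : Site} (w : G.Walk u u) : {f : Face | wind w f = 1}.Finite := by
  obtain ⟨n, hn⟩ := Top3_bound w.support
  have h1 : SC (ball 0 n) := by
    rw [ball_eq_rect]
    exact sc_rect _ _ _ _
  refine ((ball_finite 0 (n + 1)).prod (Set.finite_univ (α := Bool))).subset fun f hf => ?_
  refine ⟨?_, trivial⟩
  by_contra hc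
  have h2 := h1 u w hn f ⟨(f.1.1 + 1, f.1.2), Or.inl ⟨rfl, rfl⟩, fun hm => hc ?_⟩
  · have h3 : wind w f = 1 := hf
    rw [h2] at h3
    exact zero_ne_one h3
  · simp only [mem_ball, dst, Prod.fst_zero, Prod.snd_zero] at hm ⊢
    omega

theorem Top3_exit {u : Site} (w : G.Walk u u) {a b : Site} (h : Adj a b) :
    Exit {f : Face | wind w f = 1} (a, b) ↔ mult w a b = 1 := by
  have key : ∀ x y : ZMod 2, (x + y = 1 ↔ (x = 1 ∧ y ≠ 1) ∨ (y = 1 ∧ x ≠ 1)) := by decide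
  constructor
  · rintro ⟨f, g, hs, hf, hg⟩
    rw [← wind_shares w hs]
    exact (key _ _).2 (Or.inl ⟨hf, hg⟩)
  · intro hm
    obtain ⟨f, g, hs⟩ := h.exists_shares
    rw [← wind_shares w hs] at hm
    rcases (key _ _).1 hm with h1 | h1
    · exact ⟨f, g, hs, h1.1, h1.2⟩
    · exact ⟨g, f, hs.symm, h1.1, h1.2⟩

/-- In a simply connected domain cut into two connected parts, the sites of one part that are
adjacent to the other form a connected set. -/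
theorem isConn_frontier {D V : Set Site} (hD : SC D) (hV : V ⊆ D) (h1 : IsConn V)
    (h2 : IsConn (D \ V)) : IsConn {g | g ∈ D \ V ∧ ∃ u ∈ V, Adj g u} := by
  rintro g ⟨hg, u, hu, hgu⟩ g' ⟨hg', u', hu', hgu'⟩
  by_cases hne : g = g'
  · subst hne
    exact Conn.refl ⟨hg, u, hu, hgu⟩
  obtain ⟨p, hp⟩ := h1 u hu u' hu'
  obtain ⟨q, hq⟩ := h2 g' hg' g hg
  set w : G.Walk g g := .cons (show G.Adj g u from hgu)
    (p.append (.cons (show G.Adj u' g' from hgu'.symm) q)) with hw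
  have hwD : ∀ v ∈ w.support, v ∈ D := by
    intro v hv
    rw [hw, SimpleGraph.Walk.support_cons, List.mem_cons,
      SimpleGraph.Walk.mem_support_append_iff, SimpleGraph.Walk.support_cons, List.mem_cons] at hv
    rcases hv with rfl | hv | rfl | hv
    exacts [hg.1, hV (hp v hv), hV hu', (hq v hv).1]
  have hm : ∀ a b, a ∈ V → b ∉ V → mult w a b =
      (if s(u', g') = s(a, b) then 1 else 0) + if s(g, u) = s(a, b) then 1 else 0 := by
    intro a b ha hb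
    rw [hw, Top3_mult_cons, mult_append, Top3_mult_cons, Top3_mult_swap p,
      mult_eq_zero p fun h => hb (hp b h), mult_eq_zero q fun h => (hq a h).2 ha, zero_add, zero_add]
  have hex : Exit {f : Face | wind w f = 1} (u, g) := by
    rw [Top3_exit w hgu.symm, hm u g hu hg.2, if_neg, if_pos Sym2.eq_swap, zero_add]
    intro e
    rcases Sym2.eq_iff.1 e with e | e
    · exact hne e.2.symm
    · exact hg.2 (e.1 ▸ hu')
  have hcut : Cut V (u, g) := ⟨hgu.symm, hu, hg.2⟩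
  obtain ⟨e, he, ⟨a, b⟩, he', hc', hx', hch⟩ := cut_follow (U := V) (Top3_finite w) {(u, g)}
    (fun e he => by rw [Finset.mem_singleton.1 he]; exact ⟨hcut, hex⟩) (by simp)
  rw [Finset.mem_singleton] at he he'
  subst he
  have hb : b = g' := by
    rw [Top3_exit w hc'.1, hm a b hc'.2.1 hc'.2.2, if_neg (c := s(g, u) = s(a, b)), add_zero] at hx'
    · by_contra hbg
      rw [if_neg] at hx'
      · exact zero_ne_one hx'
      · intro e
        rcases Sym2.eq_iff.1 e with e | e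
        · exact hbg e.2.symm
        · exact hg'.2 (e.2 ▸ hc'.2.1)
    · intro e
      rcases Sym2.eq_iff.1 e with e | e
      · exact hg.2 (e.1 ▸ hc'.2.1)
      · exact he' (Prod.ext e.2.symm e.1.symm)
  subst hb
  obtain ⟨f, f', hs, hf, -⟩ := hex
  refine conn_of_chain Prod.snd (fun _ => Or.inr rfl) ?_ hcut ⟨f, hf, hs.2.2.1, hs.2.2.2.1⟩ hch
  rintro e he ⟨f, hf, -, hf2⟩
  refine ⟨⟨?_, he.2.2⟩, e.1, he.2.1, he.1.symm⟩
  by_contra hc
  have h3 : wind w f = 1 := hf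
  rw [hD g w hwD f ⟨_, hf2, hc⟩] at h3
  exact zero_ne_one h3

/-- The part of `D \ Sg` that is seen from `Tp`. -/
def Vis (D Sg Tp : Set Site) : Set Site := {v | ∃ t ∈ Tp, Conn (D \ Sg) t v}

/-- The sites of `Sg` that are seen from `Tp`. -/
def Front (D Sg Tp : Set Site) : Set Site := {g | g ∈ Sg ∧ ∃ u ∈ Vis D Sg Tp, Adj g u}

theorem Top3_vis_sub {D Sg Tp : Set Site} : Vis D Sg Tp ⊆ D \ Sg :=
  fun _ ⟨_, _, h⟩ => h.right_mem

theorem Top3_vis_of {D Sg Tp : Set Site} (hT : Tp ⊆ D \ Sg) : Tp ⊆ Vis D Sg Tp :=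
  fun t ht => ⟨t, ht, Conn.refl (hT ht)⟩

theorem Top3_vis_conn {D Sg Tp : Set Site} {a b : Site} (ha : a ∈ Vis D Sg Tp)
    (h : Conn (D \ Sg) a b) : b ∈ Vis D Sg Tp :=
  let ⟨t, ht, h'⟩ := ha
  ⟨t, ht, h'.trans h⟩

theorem isConn_front {D Sg Tp : Set Site} (hD : SC D) (cD : IsConn D) (hS : Sg ⊆ D)
    (cS : IsConn Sg) (nS : Sg.Nonempty) (hT : Tp ⊆ D \ Sg) (cT : IsConn Tp) :
    IsConn (Front D Sg Tp) := by
  have hV : Vis D Sg Tp ⊆ D := fun v hv => (Top3_vis_sub hv).1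
  have h1 : IsConn (Vis D Sg Tp) := by
    rintro a ⟨t, ht, ha⟩ b ⟨t', ht', hb⟩
    have h3 : Conn (D \ Sg) t b := ((cT t ht t' ht').mono hT).trans hb
    have k : ∀ v, Conn (D \ Sg) t v → Conn (Vis D Sg Tp) t v := fun v hv =>
      (hv.inter_of (T := Vis D Sg Tp) fun x hx => ⟨t, ht, hx⟩).mono Set.inter_subset_right
    exact (k a ha).symm.trans (k b h3)
  have hSV : Sg ⊆ D \ Vis D Sg Tp := fun v hv => ⟨hS hv, fun h => (Top3_vis_sub h).2 hv⟩
  obtain ⟨s, hs⟩ := nS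
  have h2 : IsConn (D \ Vis D Sg Tp) := by
    have k : ∀ a ∈ D \ Vis D Sg Tp, Conn (D \ Vis D Sg Tp) a s := by
      intro a ha
      by_cases haS : a ∈ Sg
      · exact (cS a haS s hs).mono hSV
      · obtain ⟨u, t, -, ht, hut, hc, -⟩ := (cD a ha.1 s (hS hs)).first_hit haS hs
        have h3 : Conn (D \ Vis D Sg Tp) a u :=
          (hc.inter_of (T := (Vis D Sg Tp)ᶜ) fun x hx hv => ha.2 (Top3_vis_conn hv hx.symm)).mono
            fun x hx => ⟨hx.1.1, hx.2⟩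
        exact (h3.tail hut (hSV ht)).trans ((cS t ht s hs).mono hSV)
    exact fun a ha b hb => (k a ha).trans (k b hb).symm
  have e : Front D Sg Tp = {g | g ∈ D \ Vis D Sg Tp ∧ ∃ u ∈ Vis D Sg Tp, Adj g u} := by
    ext g
    constructor
    · rintro ⟨hg, h⟩
      exact ⟨hSV hg, h⟩
    · rintro ⟨hg, u, hu, hgu⟩
      refine ⟨?_, u, hu, hgu⟩
      by_contra hn
      exact hg.2 (Top3_vis_conn hu (Conn.of_adj hgu.symm (Top3_vis_sub hu) ⟨hg.1, hn⟩))
  rw [e]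
  exact isConn_frontier hD hV h1 h2

/-- A connection inside `D` from the visible part to `Sg` first meets `Sg` on the front. -/
theorem front_hit {D Sg Tp S : Set Site} (hS : S ⊆ D) {a b : Site} (h : Conn S a b)
    (ha : a ∈ Vis D Sg Tp) (hb : b ∈ Sg) :
    ∃ g ∈ Front D Sg Tp, Conn (S \ Sg ∪ {g}) a g ∧ Conn S g b := by
  obtain ⟨u, t, -, ht, hut, hc, hc'⟩ := h.first_hit (Top3_vis_sub ha).2 hb
  exact ⟨t, ⟨ht, u, Top3_vis_conn ha (hc.mono fun x hx => ⟨hS hx.1, hx.2⟩), hut.symm⟩,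
    (hc.mono Set.subset_union_left).tail hut (Or.inr rfl), hc'⟩

/-- A cluster together with its neighbours in `R`. -/
def Top3_Sg (C R : Set Site) (b : Site) : Set Site :=
  {v | Conn C b v ∨ (v ∈ R ∧ ∃ u, Conn C b u ∧ Adj v u)}

theorem Top3_Sg_conn (C R : Set Site) (b : Site) : IsConn (Top3_Sg C R b) := by
  have k0 : ∀ v, Conn C b v → Conn (Top3_Sg C R b) b v := fun v hv =>
    hv.cluster.mono fun x hx => Or.inl hx
  have k : ∀ v ∈ Top3_Sg C R b, Conn (Top3_Sg C R b) b v := by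
    intro v hv
    rcases id hv with h | ⟨-, u, hu, hvu⟩
    · exact k0 v h
    · exact (k0 u hu).tail hvu.symm hv
  exact fun a ha c hc => (k a ha).symm.trans (k c hc)

theorem Top3_Sg_sub {C R : Set Site} {b : Site} : Top3_Sg C R b ⊆ C ∪ R :=
  fun _ hv => hv.elim (fun h => Or.inl h.right_mem) fun h => Or.inr h.1

/-- A site of the front is a neighbour of the cluster outside `C`, unless the cluster has a
neighbour in `D` outside `R`. -/
theorem Top3_front {C R D Tp : Set Site} {b g : Site} (hg : g ∈ Front D (Top3_Sg C R b) Tp) :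
    (g ∈ R ∧ g ∉ C) ∨ (Conn C b g ∧ ∃ u ∈ D, u ∉ R ∧ ¬ Conn C b u ∧ Adj g u) := by
  obtain ⟨hg, u, hu, hgu⟩ := hg
  have hu' := Top3_vis_sub hu
  by_cases h : Conn C b g
  · exact Or.inr ⟨h, u, hu'.1, fun hR => hu'.2 (Or.inr ⟨hR, g, h, hgu.symm⟩),
      fun hc => hu'.2 (Or.inl hc), hgu⟩
  · obtain ⟨hR, x, hx, hgx⟩ := hg.resolve_left h
    exact Or.inl ⟨hR, fun hC => h (hx.tail hgx.symm hC)⟩

/-- Hex lemma. -/
theorem hex (S : Set Site) {x1 x2 y1 y2 : ℤ} (hx : x1 ≤ x2) (hy : y1 ≤ y2) :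
    LR S x1 x2 y1 y2 ∨ TB Sᶜ x1 x2 y1 y2 := by
  refine or_iff_not_imp_right.2 fun hn => ?_
  set B := rect x1 x2 (y1 - 1) (y1 - 1) with hB
  set R := rect x1 x2 y1 y2 with hR
  set C := B ∪ Sᶜ ∩ R with hC
  set D := rect x1 x2 (y1 - 1) (y2 + 1) with hD
  set Tp := rect x1 x2 (y2 + 1) (y2 + 1) with hTp
  set b : Site := (x1, y1 - 1) with hb
  have hbB : b ∈ B := by simp [hB, hb, hx]
  have hBc : ∀ v ∈ B, Conn C b v := fun v hv =>
    (isConn_rect _ _ _ _ b hbB v hv).mono Set.subset_union_left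
  have hsub : ∀ v ∈ Top3_Sg C R b, v ∈ B ∨ v ∈ R := fun v hv => by
    rcases Top3_Sg_sub hv with (h | h) | h
    exacts [Or.inl h, Or.inr h.2, Or.inr h]
  have hS : Top3_Sg C R b ⊆ D := fun v hv => by
    have := hsub v hv
    simp only [hB, hR, hD, mem_rect] at this ⊢
    omega
  have hT : Tp ⊆ D \ Top3_Sg C R b := fun v hv => by
    refine ⟨?_, fun h => ?_⟩
    · simp only [hTp, hD, mem_rect] at hv ⊢
      omega
    · have := hsub v h
      simp only [hTp, hB, hR, mem_rect] at hv this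
      omega
  have hK := isConn_front (sc_rect _ _ _ _) (isConn_rect _ _ _ _) hS (Top3_Sg_conn C R b)
    ⟨b, Or.inl (hBc b hbB)⟩ hT (isConn_rect _ _ _ _)
  have hKS : Front D (Top3_Sg C R b) Tp ⊆ S ∩ R := by
    intro g hg
    rcases Top3_front hg with h | ⟨h, u, hu, huR, huc, hgu⟩
    · exact ⟨by_contra fun hs => h.2 (Or.inr ⟨hs, h.1⟩), h.1⟩
    · exfalso
      have huB : u ∉ B := fun h => huc (hBc u h)
      have hu2 : u.2 = y2 + 1 := by
        simp only [hB, hR, hD, mem_rect] at hu huR huB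
        omega
      have hg2 : y2 ≤ g.2 := by
        unfold Adj at hgu
        omega
      have hgB : g ∉ B := by
        simp only [hB, mem_rect]
        omega
      obtain ⟨t, a, ht, ha, hta, -, hc⟩ := h.last_exit hbB hgB
      have hc' : Conn (Sᶜ ∩ R) a g := hc.mono fun x hx => hx.1.resolve_left hx.2
      have h1 := hc'.left_mem.2
      have h2 := hc'.right_mem.2
      refine hn ⟨a, g, ?_, ?_, hc'⟩
      · simp only [hB, hR, mem_rect] at ht h1
        unfold Adj at hta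
        omega
      · simp only [hR, mem_rect] at h2
        omega
  have hit : ∀ x, x1 ≤ x → x ≤ x2 → ∃ g ∈ Front D (Top3_Sg C R b) Tp, g.1 = x := by
    intro x h1 h2
    have h3 : Conn (rect x x (y1 - 1) (y2 + 1)) (x, y2 + 1) (x, y1 - 1) :=
      isConn_rect _ _ _ _ _ (by simp; omega) _ (by simp; omega)
    obtain ⟨g, hg, -, hc⟩ := front_hit (D := D) (Sg := Top3_Sg C R b) (Tp := Tp)
      (fun v hv => by simp only [hD, mem_rect] at hv ⊢; omega) h3
      (Top3_vis_of hT (by simp [hTp, h1, h2])) (Or.inl (hBc _ (by simp [hB, h1, h2])))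
    have := hc.left_mem
    simp only [mem_rect] at this
    exact ⟨g, hg, by omega⟩
  obtain ⟨g, hg, e⟩ := hit x1 le_rfl hx
  obtain ⟨g', hg', e'⟩ := hit x2 hx le_rfl
  exact ⟨g, g', e, e', (hK g hg g' hg').mono hKS⟩

theorem Top3_ring_conn (c : Site) (n : ℕ) : IsConn (ann c (n + 1) (n + 1)) := by
  have hx : c.1 - (n + 1) < c.1 + (n + 1) := by omega
  have hy : c.2 - (n + 1) < c.2 + (n + 1) := by omega
  have h := isConn_arc hx hy 0 (2 * (c.1 + (n + 1) - (c.1 - (n + 1))) +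
    2 * (c.2 + (n + 1) - (c.2 - (n + 1))))
  have k : ∀ v, OnBd (c.1 - (n + 1)) (c.1 + (n + 1)) (c.2 - (n + 1)) (c.2 + (n + 1)) v ↔
      v ∈ ann c (n + 1) (n + 1) := by
    intro v
    simp only [OnBd, mem_rect, mem_ann, dst]
    omega
  convert h using 1
  ext v
  constructor
  · intro hv
    have h1 := (k v).2 hv
    exact ⟨h1, (idx_range hx hy h1).1, (idx_range hx hy h1).2.le⟩
  · exact fun hv => (k v).1 hv.1

theorem Top3_out {c b : Site} {R : ℕ} (h : dst c b = R) : ∃ t, Adj b t ∧ dst c t = R + 1 := by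
  have h1 : b.1 = c.1 + R ∨ b.1 = c.1 - R ∨ b.2 = c.2 + R ∨ b.2 = c.2 - R := by
    unfold dst at h
    omega
  rcases h1 with h1 | h1 | h1 | h1
  · exact ⟨(b.1 + 1, b.2), by simp [Adj], by simp only [dst] at h ⊢; omega⟩
  · exact ⟨(b.1 - 1, b.2), by simp [Adj], by simp only [dst] at h ⊢; omega⟩
  · exact ⟨(b.1, b.2 + 1), by simp [Adj], by simp only [dst] at h ⊢; omega⟩
  · exact ⟨(b.1, b.2 - 1), by simp [Adj], by simp only [dst] at h ⊢; omega⟩

/-- If `S` does not cross the ring, a connected set in the complement of `S` blocks the ring. -/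
theorem ring_dual {S : Set Site} {c : Site} {r R : ℕ} (hr : 1 ≤ r) (hR : r ≤ R)
    (h : ¬ Arm S c r R) : ∃ K, K ⊆ Sᶜ ∩ ann c r R ∧ IsConn K ∧ ¬ Arm Kᶜ c r R := by
  set B := ball c (r - 1) with hB
  set C := B ∪ S ∩ ann c r R with hC
  set D := ball c (R + 1) with hD
  set Tp := ann c (R + 1) (R + 1) with hTp
  have cball : ∀ n, IsConn (ball c n) := fun n => by
    rw [ball_eq_rect]
    exact isConn_rect _ _ _ _
  have hcB : c ∈ B := by simp [hB, dst_self]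
  have hBc : ∀ v ∈ B, Conn C c v := fun v hv => (cball _ c hcB v hv).mono Set.subset_union_left
  have hCR : ∀ v ∈ C, dst c v ≤ R := by
    rintro v (hv | hv)
    · simp only [hB, mem_ball] at hv
      omega
    · exact hv.2.2
  have hsub : ∀ v ∈ Top3_Sg C (ball c R) c, dst c v ≤ R := fun v hv =>
    (Top3_Sg_sub hv).elim (hCR v) id
  have hS : Top3_Sg C (ball c R) c ⊆ D := fun v hv => Nat.le_succ_of_le (hsub v hv)
  have hT : Tp ⊆ D \ Top3_Sg C (ball c R) c := fun v hv =>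
    ⟨hv.2, fun h => absurd (hsub v h) (not_le.2 hv.1)⟩
  have hSC : SC D := by
    rw [hD, ball_eq_rect]
    exact sc_rect _ _ _ _
  refine ⟨Front D (Top3_Sg C (ball c R) c) Tp, fun g hg => ?_,
    isConn_front hSC (cball _) hS (Top3_Sg_conn _ _ _) ⟨c, Or.inl (hBc c hcB)⟩ hT
      (Top3_ring_conn c R), ?_⟩
  · rcases Top3_front hg with h1 | ⟨h1, u, -, huR, -, hgu⟩
    · have h2 : g ∈ ann c r R := by
        have h3 : g ∉ B := fun h => h1.2 (Or.inl h)
        have h4 := h1.1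
        simp only [hB, mem_ball, mem_ann] at h3 h4 ⊢
        omega
      exact ⟨fun hs => h1.2 (Or.inr ⟨hs, h2⟩), h2⟩
    · exfalso
      have h2 := hgu.dst_le c
      have h3 := hCR g h1.right_mem
      simp only [mem_ball] at huR
      have hgB : g ∉ B := by
        simp only [hB, mem_ball]
        omega
      obtain ⟨t, a, ht, ha, hta, -, hc⟩ := h1.last_exit hcB hgB
      have h4 := hta.dst_le c
      simp only [hB, mem_ball] at ht ha
      exact h ⟨a, g, ⟨by omega, t, hta.symm, by omega⟩, by omega,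
        hc.mono fun x hx => hx.1.resolve_left hx.2⟩
  · rintro ⟨a, b, ⟨ha, u, hau, hu⟩, hb, hc⟩
    obtain ⟨t, hbt, ht⟩ := Top3_out hb
    have htT : t ∈ Tp := ⟨ht.ge, ht.le⟩
    have h1 := ((hc.mono (Set.subset_union_left (t := {t}))).tail hbt (Or.inr rfl)).symm
    have haS : a ∈ Top3_Sg C (ball c R) c :=
      Or.inr ⟨hc.left_mem.2.2, u, hBc u (by simp only [hB, mem_ball]; omega), hau⟩
    obtain ⟨g, hg, -, hc'⟩ := front_hit (D := D) (Tp := Tp) (by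
      rintro v (hv | hv)
      · exact Nat.le_succ_of_le hv.2.2
      · rw [Set.mem_singleton_iff.1 hv]
        exact ht.le) h1 (Top3_vis_of hT htT) haS
    rcases hc'.left_mem with h2 | h2
    · exact h2.1 hg
    · rw [Set.mem_singleton_iff.1 h2] at hg
      exact (hT htT).2 hg.1

/-- A crossing of a ring crosses one of its four side rectangles in the short direction. -/
theorem Arm.short {S : Set Site} {c : Site} {r R : ℕ} (hr : r ≤ R) (h : Arm S c r R) :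
    TB S (c.1 - R) (c.1 + R) (c.2 + r) (c.2 + R) ∨ TB S (c.1 - R) (c.1 + R) (c.2 - R) (c.2 - r) ∨
    LR S (c.1 + r) (c.1 + R) (c.2 - R) (c.2 + R) ∨ LR S (c.1 - R) (c.1 - r) (c.2 - R) (c.2 + R) := by
  obtain ⟨a, b, ⟨ha, -⟩, hb, hc⟩ := h
  have h1 : b.2 = c.2 + R ∨ b.2 = c.2 - R ∨ b.1 = c.1 + R ∨ b.1 = c.1 - R := by
    unfold dst at hb
    omega
  have h2 : c.1 - r ≤ a.1 ∧ a.1 ≤ c.1 + r ∧ c.2 - r ≤ a.2 ∧ a.2 ≤ c.2 + r := by
    unfold dst at ha
    omega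
  have h3 : ∀ v ∈ S ∩ ann c r R, (c.1 - R ≤ v.1 ∧ v.1 ≤ c.1 + R) ∧ c.2 - R ≤ v.2 ∧ v.2 ≤ c.2 + R := by
    rintro v ⟨-, -, hv⟩
    unfold dst at hv
    omega
  have h4 : ∀ Z : Set Site, S ∩ ann c r R ∩ Z ⊆ S ∩ Z := fun Z v hv => ⟨hv.1.1, hv.2⟩
  rcases h1 with h1 | h1 | h1 | h1
  · obtain ⟨a', b', e1, e2, h5, -⟩ := hc.sub_TB (y1 := c.2 + r) (y2 := c.2 + R) (by omega)
      (by omega) (by omega) fun v hv _ _ => (h3 v hv).1
    exact Or.inl ⟨a', b', e1, e2, h5.mono (h4 _)⟩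
  · obtain ⟨a', b', e1, e2, h5, -⟩ := hc.symm.sub_TB (y1 := c.2 - R) (y2 := c.2 - r) (by omega)
      (by omega) (by omega) fun v hv _ _ => (h3 v hv).1
    exact Or.inr (Or.inl ⟨a', b', e1, e2, h5.mono (h4 _)⟩)
  · obtain ⟨a', b', e1, e2, h5, -⟩ := hc.sub_LR (x1 := c.1 + r) (x2 := c.1 + R) (by omega)
      (by omega) (by omega) fun v hv _ _ => (h3 v hv).2
    exact Or.inr (Or.inr (Or.inl ⟨a', b', e1, e2, h5.mono (h4 _)⟩))
  · obtain ⟨a', b', e1, e2, h5, -⟩ := hc.symm.sub_LR (x1 := c.1 - R) (x2 := c.1 - r) (by omega)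
      (by omega) (by omega) fun v hv _ _ => (h3 v hv).2
    exact Or.inr (Or.inr (Or.inr ⟨a', b', e1, e2, h5.mono (h4 _)⟩))

/-- Four long crossings block the ring. -/
theorem not_arm_of_long {S : Set Site} {c : Site} {r R : ℕ} (hr : r ≤ R)
    (h1 : LR S (c.1 - R) (c.1 + R) (c.2 + r) (c.2 + R))
    (h2 : LR S (c.1 - R) (c.1 + R) (c.2 - R) (c.2 - r))
    (h3 : TB S (c.1 + r) (c.1 + R) (c.2 - R) (c.2 + R))
    (h4 : TB S (c.1 - R) (c.1 - r) (c.2 - R) (c.2 + R)) : ¬ Arm Sᶜ c r R := by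
  intro h
  rcases h.short hr with h | h | h | h
  · obtain ⟨v, hv, hv', -⟩ := h1.inter_TB h
    exact hv' hv
  · obtain ⟨v, hv, hv', -⟩ := h2.inter_TB h
    exact hv' hv
  · obtain ⟨v, hv, hv', -⟩ := h.inter_TB h3
    exact hv hv'
  · obtain ⟨v, hv, hv', -⟩ := h.inter_TB h4
    exact hv hv'

/-- Gluing of two left-right crossings through a bottom-top crossing of their overlap. -/
theorem LR.glue {S : Set Site} {x1 x2 x3 x4 y1 y2 : ℤ} (h12 : x1 ≤ x2) (h23 : x2 ≤ x3)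
    (h34 : x3 ≤ x4) (h : LR S x1 x3 y1 y2) (h' : LR S x2 x4 y1 y2) (h'' : TB S x2 x3 y1 y2) :
    LR S x1 x4 y1 y2 := by
  obtain ⟨a, b, ha, hb, hab⟩ := h
  obtain ⟨a', b', ha', hb', hab'⟩ := h'
  obtain ⟨c, d, hc, hd, hcd⟩ := h''
  obtain ⟨a1, b1, e1, e2, k1, k2⟩ := hab.sub_LR (x1 := x2) (x2 := x3) (y1 := y1) (y2 := y2) h23
    (by omega) (by omega) fun v hv _ _ => hv.2.2.2
  obtain ⟨a2, b2, e3, e4, k3, k4⟩ := hab'.sub_LR (x1 := x2) (x2 := x3) (y1 := y1) (y2 := y2) h23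
    (by omega) (by omega) fun v hv _ _ => hv.2.2.2
  obtain ⟨v, k5, k6⟩ := LR_TB_meet Set.inter_subset_right Set.inter_subset_right k1 e1 e2 hcd hc hd
  obtain ⟨v', k7, k8⟩ := LR_TB_meet Set.inter_subset_right Set.inter_subset_right k3 e3 e4 hcd hc hd
  have m : ∀ {p q : ℤ}, x1 ≤ p → q ≤ x4 → S ∩ rect p q y1 y2 ⊆ S ∩ rect x1 x4 y1 y2 :=
    fun hp hq v hv => ⟨hv.1, hp.trans hv.2.1, hv.2.2.1.trans hq, hv.2.2.2⟩
  refine ⟨a, b', ha, hb', ?_⟩
  exact (((k2.trans (k5.mono Set.inter_subset_left)).mono (m le_rfl h34)).trans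
    ((k6.symm.trans k8).mono (m h12 h34))).trans
    ((((k4.trans (k7.mono Set.inter_subset_left)).symm).trans hab').mono (m h12 le_rfl))

theorem LR.mono_rect {S : Set Site} {x1 x2 y1 y2 x1' x2' y1' y2' : ℤ} (h : LR S x1 x2 y1 y2)
    (h1 : x1 ≤ x1') (h2 : x1' ≤ x2') (h3 : x2' ≤ x2) (h4 : y1' ≤ y1) (h5 : y2 ≤ y2') :
    LR S x1' x2' y1' y2' := by
  obtain ⟨a, b, ha, hb, hab⟩ := h
  obtain ⟨a', b', e1, e2, k, -⟩ := hab.sub_LR (x1 := x1') (x2 := x2') (y1 := y1') (y2 := y2') h2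
    (by omega) (by omega) fun v hv _ _ => ⟨h4.trans hv.2.2.2.1, hv.2.2.2.2.trans h5⟩
  exact ⟨a', b', e1, e2, k.mono fun v hv => ⟨hv.1.1, hv.2⟩⟩

theorem TB.mono_rect {S : Set Site} {x1 x2 y1 y2 x1' x2' y1' y2' : ℤ} (h : TB S x1 x2 y1 y2)
    (h1 : y1 ≤ y1') (h2 : y1' ≤ y2') (h3 : y2' ≤ y2) (h4 : x1' ≤ x1) (h5 : x2 ≤ x2') :
    TB S x1' x2' y1' y2' := by
  obtain ⟨a, b, ha, hb, hab⟩ := h
  obtain ⟨a', b', e1, e2, k, -⟩ := hab.sub_TB (x1 := x1') (x2 := x2') (y1 := y1') (y2 := y2') h2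
    (by omega) (by omega) fun v hv _ _ => ⟨h4.trans hv.2.1, hv.2.2.1.trans h5⟩
  exact ⟨a', b', e1, e2, k.mono fun v hv => ⟨hv.1.1, hv.2⟩⟩

end Pool.Agent.Work.MP_ccd212_pr
end
end

-- merged part: Pool.Agent.Work.MP_ccd212_pr.Top5
section
/-! Two distinct crossing clusters versus four alternating arms. -/

namespace Pool.Agent.Work.MP_ccd212_pr

variable {x1 x2 y1 y2 : ℤ} {r : ℕ} {S : Set Site}

/-- Two inner boundary points are joined through the removed box. -/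
theorem conn_inner {c a b : Site} (hr : 1 ≤ r) (ha : InnerB c r a) (hb : InnerB c r b) :
    Conn (ball c (r - 1) ∪ {a, b}) a b := by
  obtain ⟨_, u, h1, h2⟩ := ha
  obtain ⟨_, v, h3, h4⟩ := hb
  have hu : u ∈ ball c (r - 1) := by rw [mem_ball]; omega
  have hv : v ∈ ball c (r - 1) := by rw [mem_ball]; omega
  have h5 : Conn (ball c (r - 1)) u v := by
    rw [ball_eq_rect] at hu hv ⊢
    exact isConn_rect _ _ _ _ u hu v hv
  exact (Conn.head h1 (by simp) (h5.mono Set.subset_union_left)).tail h3.symm (by simp)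

theorem Top5_lt (hr : 1 ≤ r) (hB : Big x1 x2 y1 y2 r) : x1 < x2 ∧ y1 < y2 := by
  unfold Big at hB; omega

theorem Top5_big {n : ℕ} (hB : Big x1 x2 y1 y2 n) (hr : r ≤ n) : Big x1 x2 y1 y2 r := by
  unfold Big at *; omega

theorem Top5_ball {n : ℕ} (hB : Big x1 x2 y1 y2 n) {v : Site} (hv : dst 0 v ≤ n) :
    v ∈ rect x1 x2 y1 y2 := by
  unfold Big at hB
  simp only [dst, Prod.fst_zero, Prod.snd_zero, mem_rect] at *
  omega

theorem Top5_bd {n : ℕ} (hB : Big x1 x2 y1 y2 n) {v : Site} (hv : OnBd x1 x2 y1 y2 v) :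
    n ≤ dst 0 v := by
  have h := hv.2
  unfold Big at hB
  simp only [dst, Prod.fst_zero, Prod.snd_zero]
  omega

theorem Top5_rot {a b c d : ℤ} (h : Alt a b c d) : Alt b c d a := by
  rcases h with (h | h | h | h) | h | h | h | h
  exacts [.inl (.inr (.inr (.inr h))), .inl (.inl h), .inl (.inr (.inl h)),
    .inl (.inr (.inr (.inl h))), .inr (.inr (.inl h)), .inr (.inr (.inr (.inl h))),
    .inr (.inr (.inr (.inr h))), .inr (.inl h)]

theorem Top5_alt {a b c d : ℤ} : Alt a b c d ↔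
    (min a c < b ∧ b < max a c ∧ (d < min a c ∨ max a c < d)) ∨
      (min a c < d ∧ d < max a c ∧ (b < min a c ∨ max a c < b)) := by
  unfold Alt CCW
  rcases le_total a c with h | h
  · rw [min_eq_left h, max_eq_right h]
    constructor
    · rintro ((h | h | h | h) | h | h | h | h) <;> omega
    · rintro (⟨h1, h2, h3 | h3⟩ | ⟨h1, h2, h3 | h3⟩) <;> simp [*]
  · rw [min_eq_right h, max_eq_left h]
    constructor
    · rintro ((h | h | h | h) | h | h | h | h) <;> omega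
    · rintro (⟨h1, h2, h3 | h3⟩ | ⟨h1, h2, h3 | h3⟩) <;> simp [*]

theorem Top5_alt_of {a b c d : ℤ} (h1 : a < b) (h2 : b < c) (h3 : d < a ∨ c < d) : Alt a b c d :=
  h3.elim (fun h => .inl (.inr (.inr (.inr ⟨h, h1, h2⟩)))) fun h => .inl (.inl ⟨h1, h2, h⟩)

theorem Top5_mv {i i' j k l : ℤ} (h : Alt i j k l) (n1 : i' ≠ j) (n2 : i' ≠ l)
    (n4 : ¬ Alt i j i' l) : Alt i' j k l := by
  have h1 := Top5_alt.1 (Top5_rot h)
  have h2 := mt (fun h => Top5_rot (Top5_rot (Top5_rot (Top5_alt.2 h)))) n4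
  refine Top5_rot (Top5_rot (Top5_rot (Top5_alt.2 ?_)))
  have n1' : i' ≠ min j l := by omega
  have n2' : i' ≠ max j l := by omega
  have n3 : min j l ≤ max j l := min_le_max
  generalize min j l = m at *
  generalize max j l = M at *
  clear h n4 n1 n2
  rcases h1 with h1 | h1 <;> omega

theorem Top5_key {i j k l : ℤ} (m1 : i ≠ j) (m2 : i ≠ l) (m3 : k ≠ j) (m4 : k ≠ l) (m : ¬ Alt i j k l) :
      (max i k < min j l ∨ max j l < min i k) ∨ (min i k < min j l ∧ max j l < max i k) ∨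
        (min j l < min i k ∧ max i k < max j l) := by
    rw [Top5_alt] at m
    have n1 : j ≠ min i k ∧ j ≠ max i k ∧ l ≠ min i k ∧ l ≠ max i k := by (clear * - m m1 m2 m3 m4; lia)
    have n2 : min i k ≤ max i k := min_le_max
    generalize min i k = a at *
    generalize max i k = b at *
    clear m1 m2 m3 m4
    obtain ⟨a1, a2, a3, a4⟩ := n1
    rcases le_total j l with h | h
    · rw [min_eq_left h, max_eq_right h]
      rcases lt_or_gt_of_ne a1 with a1 | a1 <;> rcases lt_or_gt_of_ne a4 with a4 | a4 <;> omega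
    · rw [min_eq_right h, max_eq_left h]
      rcases lt_or_gt_of_ne a3 with a3 | a3 <;> rcases lt_or_gt_of_ne a2 with a2 | a2 <;> omega

theorem Top5_flip {a b c d : ℤ} (h : Alt a b c d) : Alt a d c b := Or.symm h

/-- A connection cannot separate two arms that avoid it. -/
theorem Top5_sep (hr : 1 ≤ r) (hB : Big x1 x2 y1 y2 r) {A B : Set Site} (hAB : ∀ v ∈ A, v ∉ B)
    {a b c d eb ed : Site} (ha : OnBd x1 x2 y1 y2 a) (hb : OnBd x1 x2 y1 y2 b)
    (hc : OnBd x1 x2 y1 y2 c) (hd : OnBd x1 x2 y1 y2 d)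
    (h : Alt (idx x1 x2 y1 y2 a) (idx x1 x2 y1 y2 b) (idx x1 x2 y1 y2 c) (idx x1 x2 y1 y2 d))
    (h1 : InnerB 0 r eb) (h3 : InnerB 0 r ed) (c1 : Conn (B ∩ Dom x1 x2 y1 y2 r) eb b)
    (c3 : Conn (B ∩ Dom x1 x2 y1 y2 r) ed d) : ¬ Conn (A ∩ Dom x1 x2 y1 y2 r) a c := by
  intro c0
  obtain ⟨hx, hy⟩ := Top5_lt hr hB
  have h4 : Conn (B ∩ Dom x1 x2 y1 y2 r ∪ ball 0 (r - 1)) eb ed := by
    refine (conn_inner hr h1 h3).mono ?_
    rintro v (hv | rfl | rfl)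
    exacts [Or.inr hv, Or.inl c1.left_mem, Or.inl c3.left_mem]
  obtain ⟨v, h5, h6⟩ := meet_of_alt hx hy ha hb hc hd h (fun v hv => hv.2.1)
    (S' := B ∩ Dom x1 x2 y1 y2 r ∪ ball 0 (r - 1))
    (fun v hv => hv.elim (fun h => h.2.1) fun h => Top5_ball hB (by rw [mem_ball] at h; omega)) c0
    (((c1.symm.mono Set.subset_union_left).trans h4).trans (c3.mono Set.subset_union_left))
  rcases h6.right_mem with h7 | h7
  · exact hAB v h5.right_mem.1 h7.1
  · have h8 : r ≤ dst 0 v := h5.right_mem.2.2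
    rw [mem_ball] at h7
    omega

/-- With four alternating arms, the two arms of one colour are not joined in the complement of the
two others. -/
theorem not_conn_of_alt (hr : 1 ≤ r) (hB : Big x1 x2 y1 y2 r) {z : Fin 4 → Site}
    (hz : AltT x1 x2 y1 y2 z) {e1 e3 : Site} (h1 : InnerB 0 r e1) (h3 : InnerB 0 r e3)
    (c1 : Conn (Sᶜ ∩ Dom x1 x2 y1 y2 r) e1 (z 1)) (c3 : Conn (Sᶜ ∩ Dom x1 x2 y1 y2 r) e3 (z 3)) :
    ¬ Conn (S ∩ Dom x1 x2 y1 y2 r) (z 0) (z 2) :=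
  Top5_sep hr hB (B := Sᶜ) (fun _ hv hv' => hv' hv) (hz.1 0) (hz.1 1) (hz.1 2) (hz.1 3) hz.2 h1 h3 c1 c3

theorem two_of_arms4 {n : ℕ} (hr : 1 ≤ r) (hn : r ≤ n)
    (h : Arms4 S (-n) n (-n) n r (AltT (-n) n (-n) n)) : Two S 0 r n := by
  obtain ⟨e, z, h1, h2, h3⟩ := h
  have hB : Big (-n) n (-n) n r := by unfold Big; omega
  have h4 := not_conn_of_alt hr hB h2 (h1 1) (h1 3) (h3 1) (h3 3)
  have c0 := h3 0
  have c2 := h3 2
  rw [Dom_ball] at h4 c0 c2
  exact ⟨e 0, z 0, e 2, z 2, h1 0, h1 2, onBd_ball.1 (h2.1 0), onBd_ball.1 (h2.1 2), c0, c2,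
    fun h => h4 ((c0.symm.trans h).trans c2)⟩

/-- The faces inside the domain. -/
def Top5F (x1 x2 y1 y2 : ℤ) (r : ℕ) : Set Face := {f | ∀ v, InF f v → v ∈ Dom x1 x2 y1 y2 r}

/-- Edges of the boundary cycle. -/
def Top5E (x1 x2 y1 y2 : ℤ) (e : Site × Site) : Prop :=
  OnBd x1 x2 y1 y2 e.1 ∧ OnBd x1 x2 y1 y2 e.2 ∧
    (|idx x1 x2 y1 y2 e.1 - idx x1 x2 y1 y2 e.2| = 1 ∨
      |idx x1 x2 y1 y2 e.1 - idx x1 x2 y1 y2 e.2| = 2 * (x2 - x1) + 2 * (y2 - y1) - 1)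

theorem Top5F_finite (x1 x2 y1 y2 : ℤ) (r : ℕ) : (Top5F x1 x2 y1 y2 r).Finite := by
  refine ((rect_finite (x1 - 1) x2 y1 y2).prod (Set.finite_univ (α := Bool))).subset ?_
  intro f hf
  have h := (hf (f.1.1 + 1, f.1.2) (Or.inl ⟨rfl, rfl⟩)).1
  simp only [mem_rect] at h
  refine ⟨?_, trivial⟩
  simp only [mem_rect]
  omega

theorem Top5_idx {v : Site} (h : OnBd x1 x2 y1 y2 v) (hx : x1 < x2) (hy : y1 < y2) :
    (v.1 = x2 ∧ v.2 < y2 ∧ idx x1 x2 y1 y2 v = v.2 - y1) ∨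
    (v.2 = y2 ∧ x1 < v.1 ∧ idx x1 x2 y1 y2 v = (y2 - y1) + (x2 - v.1)) ∨
    (v.1 = x1 ∧ y1 < v.2 ∧ idx x1 x2 y1 y2 v = (y2 - y1) + (x2 - x1) + (y2 - v.2)) ∨
    (v.2 = y1 ∧ v.1 < x2 ∧ idx x1 x2 y1 y2 v = 2 * (y2 - y1) + (x2 - x1) + (v.1 - x1)) := by
  obtain ⟨h1, h2⟩ := h
  simp only [mem_rect] at h1
  by_cases a1 : v.1 = x2 ∧ v.2 < y2
  · exact Or.inl ⟨a1.1, a1.2, if_pos a1⟩
  by_cases a2 : v.2 = y2 ∧ x1 < v.1
  · exact Or.inr (Or.inl ⟨a2.1, a2.2, by rw [idx, if_neg a1, if_pos a2]⟩)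
  by_cases a3 : v.1 = x1 ∧ y1 < v.2
  · exact Or.inr (Or.inr (Or.inl ⟨a3.1, a3.2, by rw [idx, if_neg a1, if_neg a2, if_pos a3]⟩))
  · exact Or.inr (Or.inr (Or.inr ⟨by omega, by omega, by rw [idx, if_neg a1, if_neg a2, if_neg a3]⟩))

theorem Top5_side (hx : x1 + 1 < x2) (hy : y1 + 1 < y2) {a b : Site}
    (h : Top5E x1 x2 y1 y2 (a, b)) : (a.1 = x1 ∧ b.1 = x1) ∨ (a.1 = x2 ∧ b.1 = x2) ∨
      (a.2 = y1 ∧ b.2 = y1) ∨ (a.2 = y2 ∧ b.2 = y2) := by
  obtain ⟨ha, hb, h⟩ := h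
  have h1 := Top5_idx ha (by omega) (by omega)
  have h2 := Top5_idx hb (by omega) (by omega)
  have h3 := ha.1
  have h4 := hb.1
  simp only [mem_rect] at h3 h4
  rw [abs_eq (by norm_num), abs_eq (by omega)] at h
  dsimp only at h h1 h2
  generalize idx x1 x2 y1 y2 a = i at h h1
  generalize idx x1 x2 y1 y2 b = j at h h2
  clear ha hb
  rcases h1 with h1 | h1 | h1 | h1 <;> rcases h2 with h2 | h2 | h2 | h2 <;> (clear * - h h1 h2 h3 h4 hx hy; omega)

theorem Top5_of_side (hx : x1 < x2) (hy : y1 < y2) {a b : Site} (hab : Adj a b)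
    (ha : a ∈ rect x1 x2 y1 y2) (hb : b ∈ rect x1 x2 y1 y2)
    (h : (a.1 = x1 ∧ b.1 = x1) ∨ (a.1 = x2 ∧ b.1 = x2) ∨
      (a.2 = y1 ∧ b.2 = y1) ∨ (a.2 = y2 ∧ b.2 = y2)) : Top5E x1 x2 y1 y2 (a, b) := by
  have ha' : OnBd x1 x2 y1 y2 a := ⟨ha, by omega⟩
  have hb' : OnBd x1 x2 y1 y2 b := ⟨hb, by omega⟩
  refine ⟨ha', hb', ?_⟩
  have h1 := Top5_idx ha' hx hy
  have h2 := Top5_idx hb' hx hy
  simp only [mem_rect] at ha hb
  rw [abs_eq (by norm_num), abs_eq (by omega)]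
  dsimp only
  generalize idx x1 x2 y1 y2 a = i at h1 ⊢
  generalize idx x1 x2 y1 y2 b = j at h2 ⊢
  have h5 : (a.1 = b.1 → a.2 = b.2 + 1 ∨ b.2 = a.2 + 1) ∧
      (a.2 = b.2 → a.1 = b.1 + 1 ∨ b.1 = a.1 + 1) := by
    unfold Adj at hab; omega
  clear ha' hb' hab
  rcases h with h | h | h | h
  · have h6 := h5.1 (by omega)
    clear h5
    rcases h1 with h1 | h1 | h1 | h1 <;> rcases h2 with h2 | h2 | h2 | h2 <;> (clear * - h h1 h2 h6 ha hb hx hy; omega)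
  · have h6 := h5.1 (by omega)
    clear h5
    rcases h1 with h1 | h1 | h1 | h1 <;> rcases h2 with h2 | h2 | h2 | h2 <;> omega
  · have h6 := h5.2 (by omega)
    clear h5
    rcases h1 with h1 | h1 | h1 | h1 <;> rcases h2 with h2 | h2 | h2 | h2 <;> omega
  · have h6 := h5.2 (by omega)
    clear h5
    rcases h1 with h1 | h1 | h1 | h1 <;> rcases h2 with h2 | h2 | h2 | h2 <;> omega

theorem Top5_memF {x y : ℤ} {t : Bool} (h1 : x1 ≤ x) (h2 : x + 1 ≤ x2) (h3 : y1 ≤ y)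
    (h4 : y + 1 ≤ y2) (h : x + 1 ≤ -r ∨ r ≤ x ∨ y + 1 ≤ -r ∨ r ≤ y) :
    ((x, y), t) ∈ Top5F x1 x2 y1 y2 r := by
  intro v hv
  have h5 : x ≤ v.1 ∧ v.1 ≤ x + 1 ∧ y ≤ v.2 ∧ v.2 ≤ y + 1 := by
    rcases hv with h | h | ⟨_, h⟩ | ⟨_, h⟩ <;> dsimp only at h <;> omega
  refine ⟨by simp only [mem_rect]; omega, ?_⟩
  change r ≤ dst 0 v
  simp only [dst, Prod.fst_zero, Prod.snd_zero]
  omega

theorem Top5_inF0 {x y : ℤ} {v : Site} : InF ((x, y), false) v ↔
    (v.1 = x + 1 ∧ v.2 = y) ∨ (v.1 = x ∧ v.2 = y + 1) ∨ (v.1 = x ∧ v.2 = y) := by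
  simp [InF]

theorem Top5_inF1 {x y : ℤ} {v : Site} : InF ((x, y), true) v ↔
    (v.1 = x + 1 ∧ v.2 = y) ∨ (v.1 = x ∧ v.2 = y + 1) ∨ (v.1 = x + 1 ∧ v.2 = y + 1) := by
  simp [InF]

theorem Top5_shV {a b : Site} (hab : Adj a b) (h : a.1 = b.1) :
    Shares ((a.1, min a.2 b.2), false) ((a.1 - 1, min a.2 b.2), true) a b := by
  have h5 : a.2 = b.2 + 1 ∨ b.2 = a.2 + 1 := by unfold Adj at hab; omega
  exact ⟨by simp, hab.ne, Top5_inF0.2 (by omega), Top5_inF0.2 (by omega), Top5_inF1.2 (by omega),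
    Top5_inF1.2 (by omega)⟩

theorem Top5_shH {a b : Site} (hab : Adj a b) (h : a.2 = b.2) :
    Shares ((min a.1 b.1, a.2), false) ((min a.1 b.1, a.2 - 1), true) a b := by
  have h5 : a.1 = b.1 + 1 ∨ b.1 = a.1 + 1 := by unfold Adj at hab; omega
  exact ⟨by simp, hab.ne, Top5_inF0.2 (by omega), Top5_inF0.2 (by omega), Top5_inF1.2 (by omega),
    Top5_inF1.2 (by omega)⟩

theorem Top5_exit (hB : Big x1 x2 y1 y2 (r + 1)) {a b : Site} (hab : Adj a b)
    (h : Top5E x1 x2 y1 y2 (a, b)) : Exit (Top5F x1 x2 y1 y2 r) (a, b) := by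
  unfold Big at hB
  have h1 := Top5_side (by omega) (by omega) h
  have ha := h.1.1
  have hb := h.2.1.1
  simp only [mem_rect] at ha hb
  have h5 : (a.1 = b.1 → a.2 = b.2 + 1 ∨ b.2 = a.2 + 1) ∧
      (a.2 = b.2 → a.1 = b.1 + 1 ∨ b.1 = a.1 + 1) := by
    unfold Adj at hab; omega
  have hV := Top5_shV hab
  have hH := Top5_shH hab
  change ∃ f g, Shares f g a b ∧ _
  rcases h1 with h1 | h1 | h1 | h1
  · refine ⟨_, _, hV (by omega), Top5_memF (by omega) (by omega) (by omega) (by omega)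
      (by omega), fun hg => ?_⟩
    have := (hg (a.1 - 1, min a.2 b.2 + 1) (Or.inr (Or.inl ⟨rfl, rfl⟩))).1
    simp only [mem_rect] at this
    omega
  · refine ⟨_, _, (hV (by omega)).symm, Top5_memF (by omega) (by omega) (by omega)
      (by omega) (by omega), fun hg => ?_⟩
    have := (hg (a.1 + 1, min a.2 b.2) (Or.inl ⟨rfl, rfl⟩)).1
    simp only [mem_rect] at this
    omega
  · refine ⟨_, _, hH (by omega), Top5_memF (by omega) (by omega) (by omega) (by omega)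
      (by omega), fun hg => ?_⟩
    have := (hg (min a.1 b.1 + 1, a.2 - 1) (Or.inl ⟨rfl, rfl⟩)).1
    simp only [mem_rect] at this
    omega
  · refine ⟨_, _, (hH (by omega)).symm, Top5_memF (by omega) (by omega) (by omega)
      (by omega) (by omega), fun hg => ?_⟩
    have := (hg (min a.1 b.1, a.2 + 1) (Or.inr (Or.inl ⟨rfl, rfl⟩))).1
    simp only [mem_rect] at this
    omega

theorem Top5_of_exit (hx : x1 < x2) (hy : y1 < y2) {e : Site × Site}
    (h : Exit (Top5F x1 x2 y1 y2 r) e) : Top5E x1 x2 y1 y2 e ∨ InnerB 0 r e.2 := by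
  obtain ⟨a, b⟩ := e
  obtain ⟨f, g, ⟨_, hab, h1, h2, h3, h4⟩, hf, hg⟩ := h
  dsimp only at hab h1 h2 h3 h4 ⊢
  have ha := hf a h1
  have hb := hf b h2
  obtain ⟨w, hw, hw'⟩ : ∃ w, InF g w ∧ w ∉ Dom x1 x2 y1 y2 r := by
    by_contra hc
    exact hg fun v hv => by_contra fun h => hc ⟨v, hv, h⟩
  have a1 : Adj a w := h3.adj hw fun h => hw' (h ▸ ha)
  have a2 : Adj b w := h4.adj hw fun h => hw' (h ▸ hb)
  have a3 : Adj a b := h1.adj h2 hab
  by_cases hr : w ∈ rect x1 x2 y1 y2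
  · have h5 : ¬ r ≤ dst 0 w := fun h => hw' ⟨hr, h⟩
    have h6 : r ≤ dst 0 b := hb.2
    have h7 := a2.symm.dst_le 0
    exact Or.inr ⟨by omega, w, a2, by omega⟩
  · refine Or.inl (Top5_of_side hx hy a3 ha.1 hb.1 ?_)
    have h5 := ha.1
    have h6 := hb.1
    simp only [mem_rect] at h5 h6 hr
    have h7 : a.1 ≤ w.1 + 1 ∧ w.1 ≤ a.1 + 1 ∧ a.2 ≤ w.2 + 1 ∧ w.2 ≤ a.2 + 1 := by
      unfold Adj at a1; omega
    have h8 : b.1 ≤ w.1 + 1 ∧ w.1 ≤ b.1 + 1 ∧ b.2 ≤ w.2 + 1 ∧ w.2 ≤ b.2 + 1 := by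
      unfold Adj at a2; omega
    omega

/-- Following the boundary of the cluster of `z` from an odd family of boundary edges. -/
theorem Top5_follow (hr : 1 ≤ r) (hB : Big x1 x2 y1 y2 (r + 1)) (z : Site)
    (E : Finset (Site × Site)) (hodd : Odd E.card)
    (hE : ∀ e ∈ E, Cut {v | Conn (S ∩ Dom x1 x2 y1 y2 r) z v} e ∧ Top5E x1 x2 y1 y2 e) :
    ∃ e ∈ E, ∃ e', e' ∉ E ∧ Cut {v | Conn (S ∩ Dom x1 x2 y1 y2 r) z v} e' ∧
      (Top5E x1 x2 y1 y2 e' ∨ InnerB 0 r e'.2) ∧ Conn (Sᶜ ∩ Dom x1 x2 y1 y2 r) e.2 e'.2 := by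
  obtain ⟨hx, hy⟩ := Top5_lt hr (Top5_big hB (Nat.le_succ r))
  obtain ⟨e, he, e', h1, h2, h3, h4⟩ := cut_follow (Top5F_finite x1 x2 y1 y2 r) E
    (fun e he => ⟨(hE e he).1, Top5_exit hB (hE e he).1.1 (hE e he).2⟩) hodd
  refine ⟨e, he, e', h1, h2, Top5_of_exit hx hy h3, ?_⟩
  obtain ⟨f, g, h5, h6, _⟩ := Top5_exit hB (hE e he).1.1 (hE e he).2
  refine conn_of_chain Prod.snd (fun _ => Or.inr rfl) ?_ (hE e he).1
    ⟨f, h6, h5.2.2.1, h5.2.2.2.1⟩ h4
  rintro d ⟨d1, d2, d3⟩ ⟨f, hf, _, d4⟩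
  exact ⟨fun hs => d3 (Conn.tail d2 d1 ⟨hs, hf _ d4⟩), hf _ d4⟩

theorem Top5_closed (hr : 1 ≤ r) (hB : Big x1 x2 y1 y2 (r + 1)) {e0 e2 z0 z2 : Site}
    (h0 : InnerB 0 r e0) (h2 : InnerB 0 r e2) (b0 : OnBd x1 x2 y1 y2 z0)
    (b2 : OnBd x1 x2 y1 y2 z2) (c0 : Conn (S ∩ Dom x1 x2 y1 y2 r) e0 z0)
    (c2 : Conn (S ∩ Dom x1 x2 y1 y2 r) e2 z2) (hn : ¬ Conn (S ∩ Dom x1 x2 y1 y2 r) z0 z2)
    (hlt : idx x1 x2 y1 y2 z0 < idx x1 x2 y1 y2 z2) :
    ∃ e1 e3 z1 z3, InnerB 0 r e1 ∧ InnerB 0 r e3 ∧ Conn (Sᶜ ∩ Dom x1 x2 y1 y2 r) e1 z1 ∧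
      Conn (Sᶜ ∩ Dom x1 x2 y1 y2 r) e3 z3 ∧ OnBd x1 x2 y1 y2 z1 ∧ OnBd x1 x2 y1 y2 z3 ∧
      Alt (idx x1 x2 y1 y2 z0) (idx x1 x2 y1 y2 z1) (idx x1 x2 y1 y2 z2)
        (idx x1 x2 y1 y2 z3) := by
  classical
  have hB' := Top5_big hB (Nat.le_succ r)
  obtain ⟨hx, hy⟩ := Top5_lt hr hB'
  obtain ⟨E1, o1, m1⟩ := odd_cut_of_arc hx hy (U := {v | Conn (S ∩ Dom x1 x2 y1 y2 r) z0 v}) b0 b2
    hlt fun h => hn (h.1 (Conn.refl c0.right_mem))
  obtain ⟨E0, o0, m0⟩ := even_cut_of_bd hx hy {v | Conn (S ∩ Dom x1 x2 y1 y2 r) z0 v}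
  have hsub : E1 ⊆ E0 := fun e he => by
    obtain ⟨a1, a2, a3, a4, _⟩ := (m1 e).1 he
    exact (m0 e).2 ⟨a1, a2, a3, Or.inl a4⟩
  have o2 : Odd (E0 \ E1).card := by
    rw [Finset.card_sdiff_of_subset hsub]
    exact Nat.Even.sub_odd (Finset.card_le_card hsub) o0 o1
  have hne : ∀ v, OnBd x1 x2 y1 y2 v → v ∉ S → idx x1 x2 y1 y2 v ≠ idx x1 x2 y1 y2 z0 ∧
      idx x1 x2 y1 y2 v ≠ idx x1 x2 y1 y2 z2 := fun v hv hs =>
    ⟨fun h => hs (idx_inj hx hy hv b0 h ▸ c0.right_mem.1),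
      fun h => hs (idx_inj hx hy hv b2 h ▸ c2.right_mem.1)⟩
  have hin : ∀ e ∈ E1, e.2 ∉ S → idx x1 x2 y1 y2 z0 < idx x1 x2 y1 y2 e.2 ∧
      idx x1 x2 y1 y2 e.2 < idx x1 x2 y1 y2 z2 := fun e he hs => by
    obtain ⟨_, _, a3, _, _, _, a7, a8⟩ := (m1 e).1 he
    have := hne _ a3 hs
    omega
  have hout : ∀ e ∈ E0, e ∉ E1 → e.2 ∉ S → idx x1 x2 y1 y2 e.2 < idx x1 x2 y1 y2 z0 ∨
      idx x1 x2 y1 y2 z2 < idx x1 x2 y1 y2 e.2 := fun e he he' hs => by
    obtain ⟨a1, a2, a3, a4⟩ := (m0 e).1 he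
    have a5 := hne _ a3 hs
    have r0 := idx_range hx hy b0
    have r2 := idx_range hx hy b2
    have r3 := idx_range hx hy a2
    by_contra hc
    rcases a4 with a4 | a4
    · refine he' ((m1 e).2 ⟨a1, a2, a3, a4, ?_⟩)
      rw [abs_eq (by norm_num)] at a4
      omega
    · rw [abs_eq (by omega)] at a4
      omega
  have hsep : ∀ e ∈ E1, ∀ e' ∈ E0, e' ∉ E1 → ¬ Conn (Sᶜ ∩ Dom x1 x2 y1 y2 r) e.2 e'.2 := by
    intro e he e' he' he'' hc
    have a1 := hin e he hc.left_mem.1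
    have a2 := hout e' he' he'' hc.right_mem.1
    exact Top5_sep hr hB' (fun _ hv => hv) ((m1 e).1 he).2.2.1 b2 ((m0 e').1 he').2.2.1 b0
      (Top5_rot (Top5_alt_of a1.1 a1.2 a2)) h2 h0 c2 c0 hc
  obtain ⟨e, he, e', a1, a2, a3, a4⟩ := Top5_follow hr hB z0 E1 o1 fun e he => (m0 e).1 (hsub he)
  obtain ⟨d, hd, d', d1, d2, d3, d4⟩ := Top5_follow hr hB z0 (E0 \ E1) o2 fun e he =>
    (m0 e).1 (Finset.mem_sdiff.1 he).1
  obtain ⟨hd0, hd1⟩ := Finset.mem_sdiff.1 hd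
  rcases a3 with a3 | a3
  · exact absurd a4 (hsep e he e' ((m0 e').2 ⟨a2, a3⟩) a1)
  rcases d3 with d3 | d3
  · refine absurd d4.symm (hsep d' (by_contra fun h => d1 ?_) d hd0 hd1)
    exact Finset.mem_sdiff.2 ⟨(m0 d').2 ⟨d2, d3⟩, h⟩
  refine ⟨e'.2, d'.2, e.2, d.2, a3, d3, a4.symm, d4.symm, ((m1 e).1 he).2.2.1,
    ((m0 d).1 hd0).2.2.1, ?_⟩
  have k1 := hin e he a4.left_mem.1
  exact Top5_alt_of k1.1 k1.2 (hout d hd0 hd1 d4.left_mem.1)

theorem Top5_altT {a b c d : Site} (ha : OnBd x1 x2 y1 y2 a) (hb : OnBd x1 x2 y1 y2 b)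
    (hc : OnBd x1 x2 y1 y2 c) (hd : OnBd x1 x2 y1 y2 d)
    (h : Alt (idx x1 x2 y1 y2 a) (idx x1 x2 y1 y2 b) (idx x1 x2 y1 y2 c) (idx x1 x2 y1 y2 d)) :
    AltT x1 x2 y1 y2 ![a, b, c, d] :=
  ⟨fun i => by fin_cases i; exacts [ha, hb, hc, hd], h⟩

/-- Two arms that are not joined are separated by two arms of the other colour. -/
theorem closed_arms (hr : 1 ≤ r) (hB : Big x1 x2 y1 y2 (r + 1)) {e0 e2 z0 z2 : Site}
    (h0 : InnerB 0 r e0) (h2 : InnerB 0 r e2) (b0 : OnBd x1 x2 y1 y2 z0)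
    (b2 : OnBd x1 x2 y1 y2 z2) (c0 : Conn (S ∩ Dom x1 x2 y1 y2 r) e0 z0)
    (c2 : Conn (S ∩ Dom x1 x2 y1 y2 r) e2 z2) (hn : ¬ Conn (S ∩ Dom x1 x2 y1 y2 r) z0 z2) :
    ∃ e1 e3 z1 z3, InnerB 0 r e1 ∧ InnerB 0 r e3 ∧ Conn (Sᶜ ∩ Dom x1 x2 y1 y2 r) e1 z1 ∧
      Conn (Sᶜ ∩ Dom x1 x2 y1 y2 r) e3 z3 ∧ AltT x1 x2 y1 y2 ![z0, z1, z2, z3] := by
  obtain ⟨hx, hy⟩ := Top5_lt hr (Top5_big hB (Nat.le_succ r))
  rcases lt_trichotomy (idx x1 x2 y1 y2 z0) (idx x1 x2 y1 y2 z2) with h | h | h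
  · obtain ⟨e1, e3, z1, z3, a1, a2, a3, a4, a5, a6, a7⟩ := Top5_closed hr hB h0 h2 b0 b2 c0 c2 hn h
    exact ⟨e1, e3, z1, z3, a1, a2, a3, a4, Top5_altT b0 a5 b2 a6 a7⟩
  · exact absurd (idx_inj hx hy b0 b2 h ▸ Conn.refl c0.right_mem) hn
  · obtain ⟨e1, e3, z1, z3, a1, a2, a3, a4, a5, a6, a7⟩ :=
      Top5_closed hr hB h2 h0 b2 b0 c2 c0 (fun h => hn h.symm) h
    exact ⟨e1, e3, z1, z3, a1, a2, a3, a4,
      Top5_altT b0 a5 b2 a6 (Top5_flip (Top5_rot (Top5_rot a7)))⟩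

theorem arms4_of_two {n : ℕ} (hr : 1 ≤ r) (hn : r + 1 ≤ n) (h : Two S 0 r n) :
    Arms4 S (-n) n (-n) n r (AltT (-n) n (-n) n) := by
  obtain ⟨a, b, a', b', h1, h2, h3, h4, h5, h6, h7⟩ := h
  have hB : Big (-n) n (-n) n (r + 1) := by unfold Big; omega
  rw [← Dom_ball] at h5 h6 h7
  obtain ⟨e1, e3, z1, z3, a1, a2, a3, a4, a5⟩ := closed_arms hr hB h1 h2 (onBd_ball.2 h3)
    (onBd_ball.2 h4) h5 h6 fun h => h7 ((h5.trans h).trans h6.symm)
  refine ⟨![a, e1, a', e3], _, fun i => ?_, a5, fun i => ?_⟩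
  · fin_cases i; exacts [h1, a1, h2, a2]
  · fin_cases i; exacts [h5, a3, h6, a4]

theorem Top5_move (hr : 1 ≤ r) (hB : Big x1 x2 y1 y2 r) {A B : Set Site} (hAB : ∀ v ∈ A, v ∉ B)
    {a a' b d eb ed : Site} {k : ℤ} (ha : OnBd x1 x2 y1 y2 a) (ha' : OnBd x1 x2 y1 y2 a')
    (hb : OnBd x1 x2 y1 y2 b) (hd : OnBd x1 x2 y1 y2 d)
    (h : Alt (idx x1 x2 y1 y2 a) (idx x1 x2 y1 y2 b) k (idx x1 x2 y1 y2 d))
    (h1 : InnerB 0 r eb) (h3 : InnerB 0 r ed) (c1 : Conn (B ∩ Dom x1 x2 y1 y2 r) eb b)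
    (c3 : Conn (B ∩ Dom x1 x2 y1 y2 r) ed d) (c0 : Conn (A ∩ Dom x1 x2 y1 y2 r) a a') :
    Alt (idx x1 x2 y1 y2 a') (idx x1 x2 y1 y2 b) k (idx x1 x2 y1 y2 d) := by
  obtain ⟨hx, hy⟩ := Top5_lt hr hB
  have n1 : idx x1 x2 y1 y2 a' ≠ idx x1 x2 y1 y2 b := fun e =>
    hAB a' c0.right_mem.1 (idx_inj hx hy ha' hb e ▸ c1.right_mem.1)
  have n2 : idx x1 x2 y1 y2 a' ≠ idx x1 x2 y1 y2 d := fun e =>
    hAB a' c0.right_mem.1 (idx_inj hx hy ha' hd e ▸ c3.right_mem.1)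
  exact Top5_mv h n1 n2 fun e => Top5_sep hr hB hAB ha hb ha' hd e h1 h3 c1 c3 c0

/-- Moving the outer end points inside their clusters keeps the alternation. -/
theorem altT_move (hr : 1 ≤ r) (hB : Big x1 x2 y1 y2 r) {e z z' : Fin 4 → Site}
    (he : ∀ i, InnerB 0 r (e i)) (hz : AltT x1 x2 y1 y2 z)
    (hc : ∀ i, Conn (cs S i ∩ Dom x1 x2 y1 y2 r) (e i) (z i))
    (hz' : ∀ i, OnBd x1 x2 y1 y2 (z' i))
    (hc' : ∀ i, Conn (cs S i ∩ Dom x1 x2 y1 y2 r) (z i) (z' i)) : AltT x1 x2 y1 y2 z' := by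
  have d0 : ∀ v ∈ S, v ∉ Sᶜ := fun _ h h' => h' h
  have d1 : ∀ v ∈ Sᶜ, v ∉ S := fun _ h => h
  have s0 := Top5_move hr hB d0 (hz.1 0) (hz' 0) (hz.1 1) (hz.1 3) hz.2 (he 1) (he 3) (hc 1) (hc 3)
    (hc' 0)
  have s2 := Top5_move hr hB d0 (hz.1 2) (hz' 2) (hz.1 3) (hz.1 1) (Top5_rot (Top5_rot s0))
    (he 3) (he 1) (hc 3) (hc 1) (hc' 2)
  have s3 := Top5_move hr hB d1 (hz.1 3) (hz' 3) (hz' 0) (hz' 2) (Top5_rot s2) (he 0) (he 2)
    ((hc 0).trans (hc' 0)) ((hc 2).trans (hc' 2)) (hc' 3)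
  have s1 := Top5_move hr hB d1 (hz.1 1) (hz' 1) (hz' 2) (hz' 0) (Top5_rot (Top5_rot s3))
    (he 2) (he 0) ((hc 2).trans (hc' 2)) ((hc 0).trans (hc' 0)) (hc' 1)
  exact ⟨hz', Top5_rot (Top5_rot (Top5_rot s1))⟩

/-- Two pairs of boundary points that do not separate each other are joined by disjoint arcs. -/
theorem Top5_arcs (hx : x1 < x2) (hy : y1 < y2) {a b c d : Site} (ha : OnBd x1 x2 y1 y2 a)
    (hb : OnBd x1 x2 y1 y2 b) (hc : OnBd x1 x2 y1 y2 c) (hd : OnBd x1 x2 y1 y2 d)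
    (n1 : idx x1 x2 y1 y2 a ≠ idx x1 x2 y1 y2 b) (n2 : idx x1 x2 y1 y2 a ≠ idx x1 x2 y1 y2 d)
    (n3 : idx x1 x2 y1 y2 c ≠ idx x1 x2 y1 y2 b) (n4 : idx x1 x2 y1 y2 c ≠ idx x1 x2 y1 y2 d)
    (h : ¬ Alt (idx x1 x2 y1 y2 a) (idx x1 x2 y1 y2 b) (idx x1 x2 y1 y2 c) (idx x1 x2 y1 y2 d)) :
    ∃ K K' : Set Site, (∀ v ∈ K, OnBd x1 x2 y1 y2 v) ∧ (∀ v ∈ K', OnBd x1 x2 y1 y2 v) ∧
      (∀ v ∈ K, v ∉ K') ∧ Conn K a c ∧ Conn K' b d := by
  have arc : ∀ {u v : Site}, OnBd x1 x2 y1 y2 u → OnBd x1 x2 y1 y2 v →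
      Conn {t | OnBd x1 x2 y1 y2 t ∧ min (idx x1 x2 y1 y2 u) (idx x1 x2 y1 y2 v) ≤
        idx x1 x2 y1 y2 t ∧ idx x1 x2 y1 y2 t ≤ max (idx x1 x2 y1 y2 u) (idx x1 x2 y1 y2 v)} u v :=
    fun hu hv => isConn_arc hx hy _ _ _ ⟨hu, min_le_left _ _, le_max_left _ _⟩ _
      ⟨hv, min_le_right _ _, le_max_right _ _⟩
  have coarc : ∀ {u v : Site}, OnBd x1 x2 y1 y2 u → OnBd x1 x2 y1 y2 v →
      Conn {t | OnBd x1 x2 y1 y2 t ∧ (idx x1 x2 y1 y2 t ≤
        min (idx x1 x2 y1 y2 u) (idx x1 x2 y1 y2 v) ∨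
          max (idx x1 x2 y1 y2 u) (idx x1 x2 y1 y2 v) ≤ idx x1 x2 y1 y2 t)} u v :=
    fun hu hv => isConn_coarc hx hy _ _
      (le_min (idx_range hx hy hu).1 (idx_range hx hy hv).1)
      (max_lt (idx_range hx hy hu).2 (idx_range hx hy hv).2) _ ⟨hu, by omega⟩ _ ⟨hv, by omega⟩
  rcases Top5_key n1 n2 n3 n4 h with k | k | k
  · refine ⟨_, _, fun v hv => hv.1, fun v hv => hv.1, ?_, arc ha hc, arc hb hd⟩
    rintro v ⟨_, h1⟩ ⟨_, h2⟩
    omega
  · refine ⟨_, _, fun v hv => hv.1, fun v hv => hv.1, ?_, coarc ha hc, arc hb hd⟩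
    rintro v ⟨_, h1⟩ ⟨_, h2⟩
    omega
  · refine ⟨_, _, fun v hv => hv.1, fun v hv => hv.1, ?_, arc ha hc, coarc hb hd⟩
    rintro v ⟨_, h1⟩ ⟨_, h2⟩
    omega

/-- Projection of a ring point away from the corners to the next smaller ring. -/
theorem Top5_proj {n : ℕ} (hn : 1 ≤ n) {p : Site} (h1 : dst 0 p = n + 1)
    (h2 : p.1.natAbs + 2 ≤ n + 1 ∨ p.2.natAbs + 2 ≤ n + 1) :
    ∃ q : Site, dst 0 q = n ∧ Adj p q ∧
      ((ridx n q < 2 * n ∧ ridx (n + 1) p = ridx n q + 1) ∨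
        (2 * n < ridx n q ∧ ridx n q < 4 * n ∧ ridx (n + 1) p = ridx n q + 3) ∨
        (4 * n < ridx n q ∧ ridx n q < 6 * n ∧ ridx (n + 1) p = ridx n q + 5) ∨
        (6 * n < ridx n q ∧ ridx (n + 1) p = ridx n q + 7)) := by
  obtain ⟨x, y⟩ := p
  simp only [dst, Prod.fst_zero, Prod.snd_zero, sub_zero] at h1 h2
  have h3 : (x = n + 1 ∧ -n < y ∧ y < n) ∨ (y = n + 1 ∧ -n < x ∧ x < n) ∨
      (x = -n - 1 ∧ -n < y ∧ y < n) ∨ (y = -n - 1 ∧ -n < x ∧ x < n) := by (clear * - h1 h2 hn; lia)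
  clear h1 h2
  rcases h3 with h | h | h | h
  · refine ⟨(n, y), ?_, ?_, Or.inl ?_⟩
    · simp only [dst, Prod.fst_zero, Prod.snd_zero]; omega
    · unfold Adj; dsimp only; omega
    · unfold ridx idx; dsimp only; split_ifs <;> omega
  · refine ⟨(x, n), ?_, ?_, Or.inr (Or.inl ?_)⟩
    · simp only [dst, Prod.fst_zero, Prod.snd_zero]; omega
    · unfold Adj; dsimp only; omega
    · unfold ridx idx; dsimp only; split_ifs <;> omega
  · refine ⟨(-n, y), ?_, ?_, Or.inr (Or.inr (Or.inl ?_))⟩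
    · simp only [dst, Prod.fst_zero, Prod.snd_zero]; omega
    · unfold Adj; dsimp only; omega
    · unfold ridx idx; dsimp only; split_ifs <;> omega
  · refine ⟨(x, -n), ?_, ?_, Or.inr (Or.inr (Or.inr ?_))⟩
    · simp only [dst, Prod.fst_zero, Prod.snd_zero]; omega
    · unfold Adj; dsimp only; omega
    · unfold ridx idx; dsimp only; split_ifs <;> omega

/-- Alternation on the outer boundary gives alternation on the inner ring, away from corners. -/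
theorem alt_inner (hr : 3 ≤ r) (hB : Big x1 x2 y1 y2 r) {p z : Fin 4 → Site}
    (hp : ∀ i, dst 0 (p i) = r ∧ ((p i).1.natAbs + 2 ≤ r ∨ (p i).2.natAbs + 2 ≤ r))
    (hz : AltT x1 x2 y1 y2 z) (hc : ∀ i, Conn (cs S i ∩ Dom x1 x2 y1 y2 r) (p i) (z i)) :
    Alt (ridx r (p 0)) (ridx r (p 1)) (ridx r (p 2)) (ridx r (p 3)) := by
  obtain ⟨hx, hy⟩ := Top5_lt (by omega) hB
  obtain ⟨n, rfl⟩ : ∃ n, r = n + 1 := ⟨r - 1, by omega⟩
  choose q q1 q2 q3 using fun i => Top5_proj (n := n) (by omega) (hp i).1 (hp i).2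
  have hlt : ∀ i j, ridx n (q i) < ridx n (q j) ↔ ridx (n + 1) (p i) < ridx (n + 1) (p j) := by
    intro i j
    have a := q3 i
    have b := q3 j
    omega
  have hne : ∀ i j, p i ∈ S → p j ∉ S → ridx n (q i) ≠ ridx n (q j) := by
    intro i j hi hj e
    have a := hlt i j
    have b := hlt j i
    have c : ridx (n + 1) (p i) = ridx (n + 1) (p j) := by omega
    exact hj (idx_inj (by omega) (by omega) (onBd_ball.2 (hp i).1) (onBd_ball.2 (hp j).1) c ▸ hi)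
  have c0 : Conn (S ∩ Dom x1 x2 y1 y2 (n + 1)) (p 0) (z 0) := hc 0
  have c1 : Conn (Sᶜ ∩ Dom x1 x2 y1 y2 (n + 1)) (p 1) (z 1) := hc 1
  have c2 : Conn (S ∩ Dom x1 x2 y1 y2 (n + 1)) (p 2) (z 2) := hc 2
  have c3 : Conn (Sᶜ ∩ Dom x1 x2 y1 y2 (n + 1)) (p 3) (z 3) := hc 3
  by_contra hcon
  obtain ⟨K, K', k1, k2, k3, k4, k5⟩ := Top5_arcs (x1 := -n) (x2 := n) (y1 := -n) (y2 := n)
    (by omega) (by omega) (onBd_ball.2 (q1 0)) (onBd_ball.2 (q1 1)) (onBd_ball.2 (q1 2))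
    (onBd_ball.2 (q1 3)) (hne 0 1 c0.left_mem.1 c1.left_mem.1)
    (hne 0 3 c0.left_mem.1 c3.left_mem.1) (hne 2 1 c2.left_mem.1 c1.left_mem.1)
    (hne 2 3 c2.left_mem.1 c3.left_mem.1) (fun h => hcon (by
      have h' : Alt (ridx n (q 0)) (ridx n (q 1)) (ridx n (q 2)) (ridx n (q 3)) := h
      simp only [Alt, CCW, hlt] at h' ⊢
      exact h'))
  have join : ∀ {A L : Set Site} {i j : Fin 4}, Conn A (p i) (z i) → Conn A (p j) (z j) →
      Conn L (q i) (q j) → Conn (A ∪ L) (z i) (z j) := fun {A L i j} a b c =>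
    (((a.symm.mono Set.subset_union_left).tail (q2 i) (Or.inr c.left_mem)).trans
      (c.mono Set.subset_union_right)).trans
        (Conn.head (q2 j).symm (Or.inr c.right_mem) (b.mono Set.subset_union_left))
  have sub : ∀ {A L : Set Site}, (∀ v ∈ L, OnBd (-n) n (-n) n v) →
      A ∩ Dom x1 x2 y1 y2 (n + 1) ∪ L ⊆ rect x1 x2 y1 y2 := fun hL v hv =>
    hv.elim (fun h => h.2.1) fun h => Top5_ball hB (by have := onBd_ball.1 (hL v h); omega)
  obtain ⟨v, h5, h6⟩ := meet_of_alt hx hy (hz.1 0) (hz.1 1) (hz.1 2) (hz.1 3) hz.2 (sub k1) (sub k2)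
    (join c0 c2 k4) (join c1 c3 k5)
  rcases h5.right_mem with h7 | h7 <;> rcases h6.right_mem with h8 | h8
  · exact h8.1 h7.1
  · have a : n + 1 ≤ dst 0 v := h7.2.2
    have b := onBd_ball.1 (k2 v h8)
    omega
  · have a : n + 1 ≤ dst 0 v := h8.2.2
    have b := onBd_ball.1 (k1 v h7)
    omega
  · exact k3 v h7 h8

theorem Arms4.mono_inner {T : (Fin 4 → Site) → Prop} {r' : ℕ} (h : Arms4 S x1 x2 y1 y2 r T)
    (hT : ∀ z, T z → AltT x1 x2 y1 y2 z) (hr : r ≤ r') (hB : Big x1 x2 y1 y2 r') :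
    Arms4 S x1 x2 y1 y2 r' T := by
  obtain ⟨e, z, h1, h2, h3⟩ := h
  rcases hr.eq_or_lt with rfl | hr
  · exact ⟨e, z, h1, h2, h3⟩
  have key : ∀ i, ∃ u, InnerB 0 r' u ∧ Conn (cs S i ∩ Dom x1 x2 y1 y2 r') u (z i) := fun i => by
    have a1 := (h1 i).1
    have a2 := Top5_bd hB ((hT z h2).1 i)
    obtain ⟨t, u, b1, b2, b3, _, b5⟩ := (h3 i).last_exit (T := {v | dst 0 v < r'})
      (show dst 0 (e i) < r' by omega) (show ¬ dst 0 (z i) < r' by omega)
    have b1 : dst 0 t < r' := b1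
    have b2 : ¬ dst 0 u < r' := b2
    have b4 := b3.dst_le 0
    exact ⟨u, ⟨by omega, t, b3.symm, b1⟩, b5.mono fun v hv =>
      ⟨hv.1.1, hv.1.2.1, not_lt.1 (show ¬ dst 0 v < r' from hv.2)⟩⟩
  choose u u1 u2 using key
  exact ⟨u, z, u1, h2, u2⟩

/-- Four arms to the boundary of a rectangle give two distinct clusters in every box inside. -/
theorem Arms4.two {T : (Fin 4 → Site) → Prop} {n : ℕ} (h : Arms4 S x1 x2 y1 y2 r T)
    (hT : ∀ z, T z → AltT x1 x2 y1 y2 z) (hr : 1 ≤ r) (hn : r ≤ n) (hB : Big x1 x2 y1 y2 n) :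
    Two S 0 r n := by
  obtain ⟨e, z, h1, h2, h3⟩ := h
  have hz := hT z h2
  have h4 := not_conn_of_alt hr (Top5_big hB hn) hz (h1 1) (h1 3) (h3 1) (h3 3)
  have c0 : Conn (S ∩ Dom x1 x2 y1 y2 r) (e 0) (z 0) := h3 0
  have c2 : Conn (S ∩ Dom x1 x2 y1 y2 r) (e 2) (z 2) := h3 2
  obtain ⟨a, b, a1, a2, a3, a4, _⟩ := c0.sub_ann hn (Or.inr (h1 0)) (Top5_bd hB (hz.1 0))
  obtain ⟨a', b', b1, b2, b3, b4, _⟩ := c2.sub_ann hn (Or.inr (h1 2)) (Top5_bd hB (hz.1 2))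
  have s1 : S ∩ Dom x1 x2 y1 y2 r ∩ ann 0 r n ⊆ S ∩ ann 0 r n := fun v hv => ⟨hv.1.1, hv.2⟩
  have s2 : S ∩ ann 0 r n ⊆ S ∩ Dom x1 x2 y1 y2 r := fun v hv =>
    ⟨hv.1, Top5_ball hB hv.2.2, hv.2.1⟩
  exact ⟨a, b, a', b', a1, b1, a2, b2, a3.mono s1, b3.mono s1, fun h =>
    h4 ((((c0.symm.trans a4).trans (h.mono s2)).trans b4.symm).trans c2)⟩

theorem sup_arms4 (x1 x2 y1 y2 : ℤ) (r : ℕ) (T : (Fin 4 → Site) → Prop) :
    Sup (fun S => Arms4 S x1 x2 y1 y2 r T) (Dom x1 x2 y1 y2 r) := by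
  rintro S S' hS ⟨e, z, h1, h2, h3⟩
  refine ⟨e, z, h1, h2, fun i => (h3 i).congr_sup fun v hv => ?_⟩
  unfold cs
  split_ifs <;> simp [hS v hv]

end Pool.Agent.Work.MP_ccd212_pr
end
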