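import Pool.Agent.Work.MP_ccd212_pr.Basic
import Pool.Agent.Work.MP_ccd212_pr.Top5

-- merged part: Pool.Agent.Work.MP_ccd212_pr.Rsw2
section
-- merged part: Pool.Agent.Work.MP_ccd212_pr.Pr0
section
/-! Basic calculus of the product probability `pr`. -/

namespace Pool.Agent.Work.MP_ccd212_pr

open MeasureTheory

set_option linter.style.haveILetI false

variable {α : Type} [Fintype α] (μ : PW α)

theorem pr_nonneg (E : Set (Site → α)) : 0 ≤ pr μ E := ENNReal.toReal_nonneg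

theorem PW.meas_apply (A : Set α) : μ.meas A = ENNReal.ofReal (μ.mass A) := by
  letI : MeasurableSpace α := ⊤
  unfold PW.meas PW.mass
  rw [Measure.finsetSum_apply, ENNReal.ofReal_sum_of_nonneg
    (fun a _ => Set.indicator_nonneg (fun b _ => μ.nonneg b) a)]
  refine Finset.sum_congr rfl fun a _ => ?_
  rw [Measure.smul_apply, Measure.dirac_apply' _ (by trivial)]
  by_cases h : a ∈ A <;> simp [h]

theorem PW.mass_univ : μ.mass Set.univ = 1 := by
  simp [PW.mass, μ.sum_one]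

theorem PW.mass_singleton (a : α) : μ.mass {a} = μ.w a := by
  classical
  simp [PW.mass, Set.indicator_apply]

instance PW.isProb_meas : @IsProbabilityMeasure α ⊤ μ.meas := by
  letI : MeasurableSpace α := ⊤
  exact ⟨by rw [μ.meas_apply, μ.mass_univ, ENNReal.ofReal_one]⟩

instance PW.isProb_prod :
    @IsProbabilityMeasure (Site → α) (@MeasurableSpace.pi Site (fun _ => α) fun _ => ⊤)
      μ.prod := by
  letI : MeasurableSpace α := ⊤
  unfold PW.prod
  infer_instance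

omit [Fintype α] in
theorem Dep.eq_preimage {E : Set (Site → α)} {S : Finset Site} (hE : Dep E S) :
    E = S.restrict ⁻¹' (S.restrict '' E) := by
  ext ω
  refine ⟨fun h => ⟨ω, h, rfl⟩, ?_⟩
  rintro ⟨ω', h, he⟩
  exact hE ω' ω (fun v hv => congrFun he ⟨v, hv⟩) h

theorem Loc.measurableSet {E : Set (Site → α)} (hE : Loc E) :
    @MeasurableSet (Site → α) (@MeasurableSpace.pi Site (fun _ => α) fun _ => ⊤) E := by
  letI : MeasurableSpace α := ⊤
  haveI : DiscreteMeasurableSpace α := ⟨fun _ => trivial⟩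
  obtain ⟨S, hS, hE⟩ := hE
  have hE' : Dep E (hS.toFinset : Set Site) := by simpa using hE
  rw [hE'.eq_preimage]
  exact Finset.measurable_restrict _ (Set.toFinite _).measurableSet

theorem pr_eq_real (E : Set (Site → α)) :
    pr μ E = @Measure.real _ (@MeasurableSpace.pi Site (fun _ => α) fun _ => ⊤) μ.prod E := rfl

theorem pr_univ : pr μ Set.univ = 1 := by
  letI : MeasurableSpace α := ⊤
  rw [pr_eq_real, probReal_univ]

theorem pr_empty : pr μ ∅ = 0 := by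
  letI : MeasurableSpace α := ⊤
  rw [pr_eq_real, measureReal_empty]

theorem pr_mono {E F : Set (Site → α)} (h : E ⊆ F) : pr μ E ≤ pr μ F := by
  letI : MeasurableSpace α := ⊤
  exact measureReal_mono (μ := μ.prod) h

theorem pr_le_one (E : Set (Site → α)) : pr μ E ≤ 1 := by
  exact (pr_mono μ (Set.subset_univ E)).trans_eq (pr_univ μ)

theorem pr_union_le (E F : Set (Site → α)) : pr μ (E ∪ F) ≤ pr μ E + pr μ F := by
  letI : MeasurableSpace α := ⊤
  exact measureReal_union_le (μ := μ.prod) E F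

theorem pr_biUnion_le {ι : Type} (s : Finset ι) (E : ι → Set (Site → α)) :
    pr μ (⋃ i ∈ s, E i) ≤ ∑ i ∈ s, pr μ (E i) := by
  letI : MeasurableSpace α := ⊤
  exact measureReal_biUnion_finset_le (μ := μ.prod) s E

/-- Union bound in the form used most often. -/
theorem pr_le_sum {ι : Type} (s : Finset ι) (E : ι → Set (Site → α)) {A : Set (Site → α)}
    (h : ∀ ω ∈ A, ∃ i ∈ s, ω ∈ E i) : pr μ A ≤ ∑ i ∈ s, pr μ (E i) := by
  refine (pr_mono μ fun ω hω => ?_).trans (pr_biUnion_le μ s E)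
  obtain ⟨i, hi, h⟩ := h ω hω
  exact Set.mem_biUnion hi h

theorem pr_inter_add_diff (E : Set (Site → α)) {F : Set (Site → α)} (hF : Loc F) :
    pr μ (E ∩ F) + pr μ (E \ F) = pr μ E := by
  letI : MeasurableSpace α := ⊤
  exact measureReal_inter_add_sdiff (μ := μ.prod) hF.measurableSet

theorem pr_compl {E : Set (Site → α)} (hE : Loc E) : pr μ Eᶜ = 1 - pr μ E := by
  letI : MeasurableSpace α := ⊤
  have := pr_inter_add_diff μ Set.univ hE
  rw [Set.univ_inter, pr_univ, ← Set.compl_eq_univ_sdiff] at this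
  linarith only [this]

/-- Finite-sum form of the probability of a local event. -/
theorem pr_eq_sum [DecidableEq α] {E : Set (Site → α)} (S : Finset Site) (hE : Dep E S)
    (ω0 : Site → α) :
    pr μ E = ∑ η : S → α, (∏ i, μ.w (η i)) *
      Set.indicator E (fun _ => (1 : ℝ)) (Function.updateFinset ω0 S η) := by
  letI : MeasurableSpace α := ⊤
  haveI : DiscreteMeasurableSpace α := ⟨fun _ => trivial⟩
  classical
  have h1 : μ.prod E = Measure.pi (fun _ : S => μ.meas) (S.restrict '' E) := by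
    conv_lhs => rw [hE.eq_preimage]
    unfold PW.prod
    rw [← Measure.map_apply (Finset.measurable_restrict S) (Set.toFinite _).measurableSet,
      Measure.infinitePi_map_restrict]
  have h2 : ∀ η : S → α, η ∈ S.restrict '' E ↔ Function.updateFinset ω0 S η ∈ E := by
    intro η
    constructor
    · rintro ⟨ω, h, rfl⟩
      exact hE ω _ (fun v hv => by
        have hv' : v ∈ S := hv
        simp [Function.updateFinset, hv']) h
    · intro h
      exact ⟨_, h, by ext v; simp [Function.updateFinset]⟩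
  have h3 : (S.restrict '' E : Set (S → α)) =
      ↑(Finset.univ.filter fun η : S → α => Function.updateFinset ω0 S η ∈ E) := by
    ext η
    simp only [h2, Finset.coe_filter, Finset.mem_univ, true_and, Set.mem_ofPred_eq]
  unfold pr
  rw [h1, h3, ← sum_measure_singleton, ENNReal.toReal_sum (fun _ _ => measure_ne_top _ _),
    Finset.sum_filter]
  refine Finset.sum_congr rfl fun η _ => ?_
  by_cases h : Function.updateFinset ω0 S η ∈ E
  · rw [if_pos h, Set.indicator_of_mem h, mul_one, ← Set.univ_pi_singleton, Measure.pi_pi,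
      ENNReal.toReal_prod]
    refine Finset.prod_congr rfl fun i _ => ?_
    rw [μ.meas_apply, μ.mass_singleton, ENNReal.toReal_ofReal (μ.nonneg _)]
  · rw [if_neg h, Set.indicator_of_notMem h, mul_zero]

theorem pr_site (v : Site) (A : Set α) : pr μ {ω | ω v ∈ A} = μ.mass A := by
  letI : MeasurableSpace α := ⊤
  have h := Measure.infinitePi_map_eval (fun _ : Site => μ.meas) v
  have h2 : μ.prod {ω | ω v ∈ A} = μ.meas A := by
    rw [← h, Measure.map_apply (measurable_pi_apply v) (by trivial)]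
    rfl
  unfold pr
  rw [h2, μ.meas_apply, ENNReal.toReal_ofReal]
  exact Finset.sum_nonneg fun a _ => Set.indicator_nonneg (fun b _ => μ.nonneg b) a

theorem pr_inter_indep {E F : Set (Site → α)} {S T : Set Site} (hS : S.Finite) (hT : T.Finite)
    (hE : Dep E S) (hF : Dep F T) (hd : Disjoint S T) : pr μ (E ∩ F) = pr μ E * pr μ F := by
  letI : MeasurableSpace α := ⊤
  haveI : DiscreteMeasurableSpace α := ⟨fun _ => trivial⟩
  have hE' : Dep E (hS.toFinset : Set Site) := by simpa using hE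
  have hF' : Dep F (hT.toFinset : Set Site) := by simpa using hF
  have hd' : Disjoint hS.toFinset hT.toFinset := by
    rw [← Finset.disjoint_coe]
    simpa using hd
  have hI := (ProbabilityTheory.iIndepFun_infinitePi (P := fun _ : Site => μ.meas)
    (X := fun _ (a : α) => a) (fun _ => measurable_id)).indepFun_finset _ _ hd'
    (fun v => measurable_pi_apply v)
  have h := hI.measure_inter_preimage_eq_mul (hS.toFinset.restrict '' E)
    (hT.toFinset.restrict '' F) (Set.toFinite _).measurableSet (Set.toFinite _).measurableSet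
  unfold pr
  rw [← ENNReal.toReal_mul]
  congr 1
  conv_lhs => rw [hE'.eq_preimage, hF'.eq_preimage]
  conv_rhs => rw [hE'.eq_preimage, hF'.eq_preimage]
  exact h

theorem pr_biInter_indep {ι : Type} (s : Finset ι) (E : ι → Set (Site → α)) (S : ι → Set Site)
    (hS : ∀ i ∈ s, (S i).Finite) (hE : ∀ i ∈ s, Dep (E i) (S i))
    (hd : ∀ i ∈ s, ∀ j ∈ s, i ≠ j → Disjoint (S i) (S j)) :
    pr μ (⋂ i ∈ s, E i) = ∏ i ∈ s, pr μ (E i) := by
  classical
  induction s using Finset.induction_on with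
  | empty => simp [pr_univ]
  | insert a s ha ih =>
    rw [Finset.set_biInter_insert, Finset.prod_insert ha,
      ← ih (fun i hi => hS i (Finset.mem_insert_of_mem hi))
        (fun i hi => hE i (Finset.mem_insert_of_mem hi))
        (fun i hi j hj => hd i (Finset.mem_insert_of_mem hi) j (Finset.mem_insert_of_mem hj))]
    refine pr_inter_indep μ (T := ⋃ i ∈ s, S i) (hS a (Finset.mem_insert_self _ _))
      (s.finite_toSet.biUnion fun i hi => hS i (Finset.mem_insert_of_mem hi))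
      (hE a (Finset.mem_insert_self _ _)) ?_ ?_
    · intro ω ω' h hω
      simp only [Set.mem_iInter] at hω ⊢
      intro i hi
      exact hE i (Finset.mem_insert_of_mem hi) ω ω'
        (fun v hv => h v (Set.mem_biUnion hi hv)) (hω i hi)
    · simp only [Set.disjoint_iUnion_right]
      intro i hi
      exact hd a (Finset.mem_insert_self _ _) i (Finset.mem_insert_of_mem hi)
        (fun h => ha (h ▸ hi))

/-- Invariance under a relabelling of the sites. -/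
theorem pr_equiv (e : Site ≃ Site) (E : Set (Site → α)) :
    pr μ {ω | (fun v => ω (e v)) ∈ E} = pr μ E := by
  letI : MeasurableSpace α := ⊤
  have h := Measure.infinitePi_map_piCongrLeft (fun _ : Site => μ.meas) e.symm
  have h2 := (MeasurableEquiv.piCongrLeft (fun _ : Site => α) e.symm).map_apply
    (μ := Measure.infinitePi fun _ : Site => μ.meas) E
  rw [h] at h2
  unfold pr PW.prod
  rw [h2]
  congr 2
  ext ω
  have : (MeasurableEquiv.piCongrLeft (fun _ : Site => α) e.symm) ω = fun v => ω (e v) := by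
    ext v
    simp [MeasurableEquiv.coe_piCongrLeft, Equiv.piCongrLeft_apply]
  rw [Set.mem_preimage, this, Set.mem_ofPred_eq]

/-- Image under a map of the labels. -/
theorem pr_map {β : Type} [Fintype β] (ν : PW β) (g : α → β)
    (hg : ∀ b, ν.w b = μ.mass {a | g a = b}) {E : Set (Site → β)} (hE : Loc E) :
    pr μ {ω | (fun v => g (ω v)) ∈ E} = pr ν E := by
  letI : MeasurableSpace α := ⊤
  letI : MeasurableSpace β := ⊤
  have hgm : Measurable g := measurable_from_top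
  have hgm' : Measurable fun (x : Site → α) (i : Site) => g (x i) :=
    measurable_pi_lambda _ fun v => hgm.comp (measurable_pi_apply v)
  have hm : μ.meas.map g = ν.meas := by
    ext B hB
    rw [Measure.map_apply hgm hB, μ.meas_apply, ν.meas_apply]
    congr 1
    classical
    unfold PW.mass
    simp only [Set.indicator_apply, hg, PW.mass, Set.mem_ofPred_eq, Set.mem_preimage]
    rw [← Finset.sum_fiberwise (g := g)]
    refine Finset.sum_congr rfl fun b _ => ?_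
    rw [Finset.sum_filter]
    by_cases hb : b ∈ B
    · rw [if_pos hb]
      refine Finset.sum_congr rfl fun a _ => ?_
      by_cases ha : g a = b
      · simp [ha, hb]
      · simp [ha]
    · rw [if_neg hb]
      refine Finset.sum_eq_zero fun a _ => ?_
      by_cases ha : g a = b
      · simp [ha, hb]
      · simp [ha]
  have h := Measure.infinitePi_map_pi (fun _ : Site => μ.meas) (f := fun _ => g)
    (fun _ => hgm)
  simp only [hm] at h
  unfold pr PW.prod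
  rw [← h, Measure.map_apply hgm' hE.measurableSet]
  rfl

theorem PW.mass_nonneg (A : Set α) : 0 ≤ μ.mass A := by
  exact Finset.sum_nonneg fun a _ => Set.indicator_nonneg (fun b _ => μ.nonneg b) a

theorem PW.mass_mono {A B : Set α} (h : A ⊆ B) : μ.mass A ≤ μ.mass B := by
  exact Finset.sum_le_sum fun a _ =>
    Set.indicator_le_indicator_of_subset h (fun b => μ.nonneg b) a

theorem PW.mass_compl (A : Set α) : μ.mass Aᶜ = 1 - μ.mass A := by
  rw [← μ.sum_one, eq_sub_iff_add_eq]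
  unfold PW.mass
  rw [← Finset.sum_add_distrib]
  refine Finset.sum_congr rfl fun a _ => ?_
  by_cases h : a ∈ A <;> simp [h]

theorem ber_true {p : ℝ} (h0 : 0 ≤ p) (h1 : p ≤ 1) : (ber p).w true = p := by
  simp [ber, h0, h1]

theorem ber_false {p : ℝ} (h0 : 0 ≤ p) (h1 : p ≤ 1) : (ber p).w false = 1 - p := by
  simp [ber, h0, h1]

theorem unif_mass_Ico (m a b : ℕ) (hb : b ≤ m + 1) :
    (unif m).mass {x | a ≤ (x : ℕ) ∧ (x : ℕ) < b} = ((b - a : ℕ) : ℝ) / (m + 1) := by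
  classical
  unfold PW.mass unif
  simp only [Set.indicator_apply, Set.mem_ofPred_eq]
  rw [← Finset.sum_filter, Finset.sum_const, nsmul_eq_mul]
  have : (Finset.univ.filter fun x : Fin (m + 1) => a ≤ (x : ℕ) ∧ (x : ℕ) < b).card = b - a := by
    rw [← Nat.card_Ico a b]
    refine Finset.card_bij (fun x _ => (x : ℕ)) ?_ ?_ ?_
    · intro x hx
      simpa using hx
    · intro x _ y _ h
      exact Fin.ext h
    · intro y hy
      rw [Finset.mem_Ico] at hy
      exact ⟨⟨y, by omega⟩, by simpa using hy, rfl⟩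
  rw [this]
  ring

/-- The set of sites whose label lies in `A` is a Bernoulli configuration. -/
theorem pr_pred (A : Set α) {Φ : Set Site → Prop} {Z : Set Site} (hZ : Z.Finite) (hΦ : Sup Φ Z) :
    pr μ {ω | Φ {v | ω v ∈ A}} = pr (ber (μ.mass A)) (ev true Φ) := by
  classical
  have h0 := μ.mass_nonneg A
  have h1 : μ.mass A ≤ 1 := (μ.mass_mono (Set.subset_univ A)).trans_eq μ.mass_univ
  rw [← pr_map μ (ber (μ.mass A)) (fun a => decide (a ∈ A)) ?_ (hΦ.loc hZ true)]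
  · congr 1
    ext ω
    simp [ev, Col]
  · intro b
    cases b
    · rw [ber_false h0 h1, ← μ.mass_compl]
      congr 1
      ext a
      simp
    · rw [ber_true h0 h1]
      congr 1
      ext a
      simp

/-- Colour flip. -/
theorem pr_ev_flip {p : ℝ} (h0 : 0 ≤ p) (h1 : p ≤ 1) (b : Bool) {Φ : Set Site → Prop}
    {Z : Set Site} (hZ : Z.Finite) (hΦ : Sup Φ Z) :
    pr (ber p) (ev b Φ) = pr (ber (1 - p)) (ev (!b) Φ) := by
  rw [← pr_map (ber p) (ber (1 - p)) (fun a => !a) ?_ (hΦ.loc hZ (!b))]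
  · congr 1
    ext ω
    simp [ev, Col]
  · intro c
    have : {a : Bool | (!a) = c} = {!c} := by
      ext a
      cases a <;> cases c <;> simp
    rw [this, PW.mass_singleton]
    cases c
    · rw [ber_false (by linarith) (by linarith), Bool.not_false, ber_true h0 h1]
      ring
    · rw [ber_true (by linarith) (by linarith), Bool.not_true, ber_false h0 h1]

/-- Invariance of colour events under lattice symmetries. -/
theorem pr_ev_aut (ν : PW Bool) (g : Aut) (b : Bool) (Φ : Set Site → Prop) :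
    pr ν (ev b fun S => Φ (g.e ⁻¹' S)) = pr ν (ev b Φ) := by
  rw [← pr_equiv ν g.e (ev b Φ)]
  rfl

/-- All the sites of a finite set have a given colour. -/
theorem pr_all_col {p : ℝ} (h0 : 1 / 4 ≤ p) (h1 : p ≤ 3 / 4) (b : Bool) (S : Finset Site) :
    (1 / 4 : ℝ) ^ S.card ≤ pr (ber p) {ω | ∀ v ∈ S, ω v = b} := by
  have h := pr_biInter_indep (ber p) S (fun v => {ω | ω v ∈ ({b} : Set Bool)})
    (fun v => {v}) (fun _ _ => Set.finite_singleton _)
    (fun v _ ω ω' hv hω => by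
      have := hv v rfl
      simp only [Set.mem_ofPred_eq] at hω ⊢
      rwa [← this])
    (fun i _ j _ hij => Set.disjoint_singleton.2 hij)
  have h2 : {ω : Site → Bool | ∀ v ∈ S, ω v = b} =
      ⋂ v ∈ S, {ω | ω v ∈ ({b} : Set Bool)} := by
    ext ω
    simp
  rw [h2, h, ← Finset.prod_const]
  refine Finset.prod_le_prod (fun _ _ => by norm_num) fun v _ => ?_
  rw [pr_site, PW.mass_singleton]
  cases b
  · rw [ber_false (by linarith only [h0]) (by linarith)]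
    linarith only [h1]
  · rw [ber_true (by linarith only [h0]) (by linarith only [h1])]
    exact h0

end Pool.Agent.Work.MP_ccd212_pr
end

-- merged part: Pool.Agent.Work.MP_ccd212_pr.Pr1
section
/-! Harris inequality, with a sign attached to each site (the generalised FKG inequality). -/

namespace Pool.Agent.Work.MP_ccd212_pr

section Fin

variable {ι : Type} [Fintype ι] [DecidableEq ι]

/-- Expectation of a function of finitely many independent bits. -/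
noncomputable def h1Ex (w : Bool → ℝ) (f : (ι → Bool) → ℝ) : ℝ := ∑ η : ι → Bool, (∏ i, w (η i)) * f η

/-- Average over one coordinate. -/
def h1Av (w : Bool → ℝ) (i : ι) (f : (ι → Bool) → ℝ) (η : ι → Bool) : ℝ :=
  w false * f (Function.update η i false) + w true * f (Function.update η i true)

theorem h1Ex_const {w : Bool → ℝ} (hw : w false + w true = 1) (c : ℝ) :
    h1Ex w (fun _ : ι → Bool => c) = c := by
  unfold h1Ex
  rw [← Finset.sum_mul]
  have h := Finset.prod_univ_sum (fun _ : ι => (Finset.univ : Finset Bool)) (fun _ b => w b)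
  rw [Fintype.piFinset_univ] at h
  rw [← h]
  have h2 : ∑ b : Bool, w b = 1 := by rw [Fintype.sum_bool]; linarith
  simp only [h2, Finset.prod_const_one, one_mul]

theorem h1Ex_mono {w : Bool → ℝ} (h0 : ∀ b, 0 ≤ w b) {f g : (ι → Bool) → ℝ} (h : ∀ η, f η ≤ g η) :
    h1Ex w f ≤ h1Ex w g :=
  Finset.sum_le_sum fun η _ => mul_le_mul_of_nonneg_left (h η) (Finset.prod_nonneg fun _ _ => h0 _)

/-- Flip of one coordinate. -/
def h1Flip (i : ι) : (ι → Bool) ≃ (ι → Bool) where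
  toFun η := Function.update η i (!η i)
  invFun η := Function.update η i (!η i)
  left_inv η := by simp
  right_inv η := by simp

theorem h1Ex_av {w : Bool → ℝ} (hw : w false + w true = 1) (i : ι) (f : (ι → Bool) → ℝ) :
    h1Ex w (h1Av w i f) = h1Ex w f := by
  have key : ∀ g : (ι → Bool) → ℝ, 2 * h1Ex w g =
      ∑ η : ι → Bool, (∏ j ∈ Finset.univ.erase i, w (η j)) * h1Av w i g η := by
    intro g
    have e1 : h1Ex w g = ∑ η : ι → Bool, (∏ j, w (h1Flip i η j)) * g (h1Flip i η) :=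
      ((h1Flip i).sum_comp fun η => (∏ j, w (η j)) * g η).symm
    rw [two_mul]
    nth_rewrite 2 [e1]
    unfold h1Ex
    rw [← Finset.sum_add_distrib]
    refine Finset.sum_congr rfl fun η _ => ?_
    rw [← Finset.mul_prod_erase Finset.univ (fun j => w (η j)) (Finset.mem_univ i),
      ← Finset.mul_prod_erase Finset.univ (fun j => w (h1Flip i η j)) (Finset.mem_univ i)]
    have e2 : ∏ j ∈ Finset.univ.erase i, w (h1Flip i η j) = ∏ j ∈ Finset.univ.erase i, w (η j) := by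
      refine Finset.prod_congr rfl fun j hj => ?_
      have hne : j ≠ i := Finset.ne_of_mem_erase hj
      change w (Function.update η i (!η i) j) = _
      rw [Function.update_of_ne hne]
    rw [e2]
    have e3 : h1Flip i η i = !η i := by
      change Function.update η i (!η i) i = _
      rw [Function.update_self]
    have e4 : h1Flip i η = Function.update η i (!η i) := rfl
    rw [e3, e4]
    unfold h1Av
    cases hb : η i
    · have e5 : Function.update η i false = η := by rw [← hb]; exact Function.update_eq_self i η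
      rw [e5]; simp only [Bool.not_false]; ring
    · have e5 : Function.update η i true = η := by rw [← hb]; exact Function.update_eq_self i η
      rw [e5]; simp only [Bool.not_true]; ring
  have h1 := key (h1Av w i f)
  have h2 := key f
  have h3 : ∀ η, h1Av w i (h1Av w i f) η = h1Av w i f η := by
    intro η
    unfold h1Av
    simp only [Function.update_idem]
    linear_combination (w false * f (Function.update η i false) +
      w true * f (Function.update η i true)) * hw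
  simp only [h3] at h1
  linarith only [h2, h1]

theorem h1_cheb {w : Bool → ℝ} (h0 : ∀ b, 0 ≤ w b) (hw : w false + w true = 1) (s : ι → Bool)
    (T : Finset ι) : ∀ f g : (ι → Bool) → ℝ,
      (∀ i ∈ T, ∀ η, f (Function.update η i (!s i)) ≤ f (Function.update η i (s i))) →
      (∀ i ∈ T, ∀ η, g (Function.update η i (!s i)) ≤ g (Function.update η i (s i))) →
      (∀ η η' : ι → Bool, (∀ i ∈ T, η i = η' i) → g η = g η') →
      h1Ex w f * h1Ex w g ≤ h1Ex w fun η => f η * g η := by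
  induction T using Finset.induction_on with
  | empty =>
    intro f g _ _ hg
    have e : g = fun _ => g fun _ => false := funext fun η => hg _ _ (by simp)
    rw [e, h1Ex_const hw]
    unfold h1Ex
    rw [Finset.sum_mul]
    exact le_of_eq (Finset.sum_congr rfl fun η _ => by ring)
  | insert i T hi ih =>
    intro f g hf hg hd
    have mon : ∀ k : (ι → Bool) → ℝ,
        (∀ j ∈ insert i T, ∀ η, k (Function.update η j (!s j)) ≤ k (Function.update η j (s j))) →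
        ∀ j ∈ T, ∀ η, h1Av w i k (Function.update η j (!s j)) ≤
          h1Av w i k (Function.update η j (s j)) := by
      intro k hk j hj η
      have hne : j ≠ i := fun e => hi (e ▸ hj)
      unfold h1Av
      simp only [Function.update_comm hne]
      exact add_le_add (mul_le_mul_of_nonneg_left (hk j (Finset.mem_insert_of_mem hj) _) (h0 _))
        (mul_le_mul_of_nonneg_left (hk j (Finset.mem_insert_of_mem hj) _) (h0 _))
    have h1 := ih (h1Av w i f) (h1Av w i g) (mon f hf) (mon g hg) (by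
      intro η η' h
      have e : ∀ b, g (Function.update η i b) = g (Function.update η' i b) := by
        intro b
        refine hd _ _ fun j hj => ?_
        by_cases hji : j = i
        · subst hji; simp
        · rw [Function.update_of_ne hji, Function.update_of_ne hji]
          exact h j ((Finset.mem_insert.1 hj).resolve_left hji)
      unfold h1Av
      rw [e, e])
    rw [h1Ex_av hw, h1Ex_av hw] at h1
    refine h1.trans ?_
    rw [← h1Ex_av hw i fun η => f η * g η]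
    refine h1Ex_mono h0 fun η => ?_
    have a1 := hf i (Finset.mem_insert_self i T) η
    have a2 := hg i (Finset.mem_insert_self i T) η
    have a3 : 0 ≤ (f (Function.update η i true) - f (Function.update η i false)) *
        (g (Function.update η i true) - g (Function.update η i false)) := by
      cases hs : s i
      · rw [hs] at a1 a2
        exact mul_nonneg_of_nonpos_of_nonpos (sub_nonpos.2 a1) (sub_nonpos.2 a2)
      · rw [hs] at a1 a2
        exact mul_nonneg (sub_nonneg.2 a1) (sub_nonneg.2 a2)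
    have a4 := mul_nonneg (mul_nonneg (h0 false) (h0 true)) a3
    unfold h1Av
    have e : w false = 1 - w true := by linarith only [hw]
    rw [e] at a4 ⊢
    linarith only [a4, a4]

end Fin

theorem h1_ind_le {A : Set (Site → Bool)} {x y : Site → Bool} (h : x ∈ A → y ∈ A) :
    Set.indicator A (fun _ => (1 : ℝ)) x ≤ Set.indicator A (fun _ => (1 : ℝ)) y := by
  by_cases hx : x ∈ A
  · rw [Set.indicator_of_mem hx, Set.indicator_of_mem (h hx)]
  · rw [Set.indicator_of_notMem hx]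
    exact Set.indicator_nonneg (fun _ _ => zero_le_one) _

theorem h1_ber_clamp (p : ℝ) : ber (max 0 (min p 1)) = ber p := by
  have e : max 0 (min (max 0 (min p 1)) 1) = max 0 (min p 1) := by
    rw [min_eq_left (max_le zero_le_one (min_le_right _ _)), max_eq_right (le_max_left _ _)]
  unfold ber
  simp only [e]

/-- `E` is increasing in the sites of `Zp` and decreasing in the sites of `Zm`. -/
def SMono (E : Set (Site → Bool)) (Zp Zm : Set Site) : Prop :=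
  ∀ ω ω' : Site → Bool, (∀ v ∈ Zp, ω v = true → ω' v = true) →
    (∀ v ∈ Zm, ω v = false → ω' v = false) → (∀ v, v ∉ Zp → v ∉ Zm → ω v = ω' v) → ω ∈ E → ω' ∈ E

theorem harris_signed (ν : PW Bool) {E F : Set (Site → Bool)} {Zp Zm : Set Site}
    (hd : Disjoint Zp Zm) (hE : Loc E) (hF : Loc F) (mE : SMono E Zp Zm) (mF : SMono F Zp Zm)
    (dF : Dep F (Zp ∪ Zm)) : pr ν E * pr ν F ≤ pr ν (E ∩ F) := by
  classical
  obtain ⟨S1, hS1, dE⟩ := hE
  obtain ⟨S2, hS2, dF2⟩ := hF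
  obtain ⟨S, hS⟩ : ∃ S : Finset Site, (S : Set Site) = S1 ∪ S2 :=
    ⟨(hS1.union hS2).toFinset, by simp⟩
  have d1 : Dep E S := fun ω ω' h => dE ω ω' fun v hv => h v (by rw [hS]; exact Or.inl hv)
  have d2 : Dep F S := fun ω ω' h => dF2 ω ω' fun v hv => h v (by rw [hS]; exact Or.inr hv)
  have d3 : Dep (E ∩ F) S := fun ω ω' h hm => ⟨d1 ω ω' h hm.1, d2 ω ω' h hm.2⟩
  obtain ⟨ω0, -⟩ : ∃ ω0 : Site → Bool, True := ⟨fun _ => false, trivial⟩
  rw [pr_eq_sum ν S d1 ω0, pr_eq_sum ν S d2 ω0, pr_eq_sum ν S d3 ω0]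
  have hw : ν.w false + ν.w true = 1 := by
    have := ν.sum_one
    rw [Fintype.sum_bool] at this
    linarith only [this]
  have mon : ∀ {A : Set (Site → Bool)}, SMono A Zp Zm →
      ∀ i ∈ Finset.univ.filter (fun i : S => (i : Site) ∈ Zp ∪ Zm), ∀ η : S → Bool,
        Set.indicator A (fun _ => (1 : ℝ))
            (Function.updateFinset ω0 S (Function.update η i (!decide ((i : Site) ∈ Zp)))) ≤
          Set.indicator A (fun _ => (1 : ℝ))
            (Function.updateFinset ω0 S (Function.update η i (decide ((i : Site) ∈ Zp)))) := by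
    intro A hA i hi η
    have hi' : (i : Site) ∈ Zp ∪ Zm := (Finset.mem_filter.1 hi).2
    have ne : ∀ (v : Site) (b b' : Bool), v ≠ i →
        Function.updateFinset ω0 S (Function.update η i b) v =
          Function.updateFinset ω0 S (Function.update η i b') v := by
      intro v b b' hv
      unfold Function.updateFinset
      by_cases hvS : v ∈ S
      · have hne : (⟨v, hvS⟩ : S) ≠ i := fun e => hv (congrArg Subtype.val e)
        simp only [dif_pos hvS, Function.update_of_ne hne]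
      · simp only [dif_neg hvS]
    have eq : ∀ b : Bool, Function.updateFinset ω0 S (Function.update η i b) i = b := by
      intro b
      unfold Function.updateFinset
      simp only [dif_pos i.2, Subtype.coe_eta, Function.update_self]
    refine h1_ind_le (hA _ _ ?_ ?_ ?_)
    · intro v hv h
      by_cases e : v = i
      · subst e; rw [eq]; exact decide_eq_true hv
      · rw [← h]; exact ne v _ _ e
    · intro v hv h
      by_cases e : v = i
      · subst e; rw [eq]; exact decide_eq_false fun hp => Set.disjoint_left.1 hd hp hv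
      · rw [← h]; exact ne v _ _ e
    · intro v h1 h2
      exact ne v _ _ fun e => by subst e; exact hi'.elim h1 h2
  have h := h1_cheb ν.nonneg hw (fun i : S => decide ((i : Site) ∈ Zp))
    (Finset.univ.filter fun i : S => (i : Site) ∈ Zp ∪ Zm)
    (fun η => Set.indicator E (fun _ => (1 : ℝ)) (Function.updateFinset ω0 S η))
    (fun η => Set.indicator F (fun _ => (1 : ℝ)) (Function.updateFinset ω0 S η))
    (mon mE) (mon mF) (by
      intro η η' hη
      have e : ∀ v ∈ Zp ∪ Zm,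
          Function.updateFinset ω0 S η v = Function.updateFinset ω0 S η' v := by
        intro v hv
        unfold Function.updateFinset
        by_cases hvS : v ∈ S
        · simp only [dif_pos hvS]
          exact hη ⟨v, hvS⟩ (Finset.mem_filter.2 ⟨Finset.mem_univ _, hv⟩)
        · simp only [dif_neg hvS]
      exact le_antisymm (h1_ind_le (dF _ _ e))
        (h1_ind_le (dF _ _ fun v hv => (e v hv).symm)))
  refine h.trans (le_of_eq ?_)
  unfold h1Ex
  refine Finset.sum_congr rfl fun η _ => ?_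
  congr 1
  by_cases h1 : Function.updateFinset ω0 S η ∈ E <;>
    by_cases h2 : Function.updateFinset ω0 S η ∈ F <;> simp [Set.indicator, h1, h2]

/-- Harris inequality for two increasing properties of the set of sites of colour `b`. -/
theorem harris_ev (ν : PW Bool) (b : Bool) {Φ Ψ : Set Site → Prop} {Z : Set Site} (hZ : Z.Finite)
    (sΦ : Sup Φ Z) (sΨ : Sup Ψ Z) (iΦ : Inc Φ) (iΨ : Inc Ψ) :
    pr ν (ev b Φ) * pr ν (ev b Ψ) ≤ pr ν (ev b fun S => Φ S ∧ Ψ S) := by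
  have dep : ∀ {Θ : Set Site → Prop}, Sup Θ Z → Dep (ev b Θ) Z := by
    intro Θ hΘ ω ω' h hm
    refine hΘ _ _ (fun v hv => ?_) hm
    change ω v = b ↔ ω' v = b
    rw [h v hv]
  have e : (ev b fun S => Φ S ∧ Ψ S) = ev b Φ ∩ ev b Ψ := rfl
  rw [e]
  cases b
  · have mon : ∀ {Θ : Set Site → Prop}, Inc Θ → SMono (ev false Θ) ∅ Set.univ :=
      fun hΘ ω ω' _ h2 _ hm => hΘ _ _ (fun v hv => h2 v trivial hv) hm
    exact harris_signed ν (Set.empty_disjoint _) ⟨Z, hZ, dep sΦ⟩ ⟨Z, hZ, dep sΨ⟩ (mon iΦ) (mon iΨ)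
      fun ω ω' h => dep sΨ ω ω' fun v _ => h v (Or.inr trivial)
  · have mon : ∀ {Θ : Set Site → Prop}, Inc Θ → SMono (ev true Θ) Set.univ ∅ :=
      fun hΘ ω ω' h1 _ _ hm => hΘ _ _ (fun v hv => h1 v trivial hv) hm
    exact harris_signed ν (Set.disjoint_empty _) ⟨Z, hZ, dep sΦ⟩ ⟨Z, hZ, dep sΨ⟩ (mon iΦ) (mon iΨ)
      fun ω ω' h => dep sΨ ω ω' fun v _ => h v (Or.inl trivial)

theorem harris_ev_forall (ν : PW Bool) (b : Bool) {ι : Type} (s : Finset ι)
    {Φ : ι → Set Site → Prop} {Z : Set Site} (hZ : Z.Finite) (sΦ : ∀ i ∈ s, Sup (Φ i) Z)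
    (iΦ : ∀ i ∈ s, Inc (Φ i)) :
    ∏ i ∈ s, pr ν (ev b (Φ i)) ≤ pr ν (ev b fun S => ∀ i ∈ s, Φ i S) := by
  classical
  induction s using Finset.induction_on with
  | empty =>
    have e : (ev b fun S => ∀ i ∈ (∅ : Finset ι), Φ i S) = Set.univ :=
      Set.eq_univ_of_forall fun ω i hi => absurd hi (Finset.notMem_empty i)
    rw [e, pr_univ, Finset.prod_empty]
  | insert j s hj ih =>
    rw [Finset.prod_insert hj]
    have h1 := ih (fun i hi => sΦ i (Finset.mem_insert_of_mem hi))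
      fun i hi => iΦ i (Finset.mem_insert_of_mem hi)
    have h2 := harris_ev ν b (Φ := Φ j) (Ψ := fun S => ∀ i ∈ s, Φ i S) hZ
      (sΦ j (Finset.mem_insert_self j s))
      (fun S S' h hS i hi => sΦ i (Finset.mem_insert_of_mem hi) S S' h (hS i hi))
      (iΦ j (Finset.mem_insert_self j s))
      (fun S S' h hS i hi => iΦ i (Finset.mem_insert_of_mem hi) S S' h (hS i hi))
    refine (mul_le_mul_of_nonneg_left h1 (pr_nonneg _ _)).trans (h2.trans (pr_mono _ ?_))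
    intro ω hω i hi
    rcases Finset.mem_insert.1 hi with rfl | hi
    · exact hω.1
    · exact hω.2 i hi

/-- Uniform version: `k` increasing events of probability at least `c`. -/
theorem harris_ev_pow (ν : PW Bool) (b : Bool) {ι : Type} (s : Finset ι)
    {Φ : ι → Set Site → Prop} {Z : Set Site} (hZ : Z.Finite) (sΦ : ∀ i ∈ s, Sup (Φ i) Z)
    (iΦ : ∀ i ∈ s, Inc (Φ i)) {c : ℝ} (hc : 0 ≤ c) (h : ∀ i ∈ s, c ≤ pr ν (ev b (Φ i))) :
    c ^ s.card ≤ pr ν (ev b fun S => ∀ i ∈ s, Φ i S) := by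
  refine le_trans ?_ (harris_ev_forall ν b s hZ sΦ iΦ)
  rw [← Finset.prod_const]
  exact Finset.prod_le_prod (fun _ _ => hc) h

/-- Monotonicity in the parameter. -/
theorem pr_ber_mono {p q : ℝ} (hpq : p ≤ q) {Φ : Set Site → Prop} {Z : Set Site} (hZ : Z.Finite)
    (sΦ : Sup Φ Z) (iΦ : Inc Φ) : pr (ber p) (ev true Φ) ≤ pr (ber q) (ev true Φ) := by
  have hp0 : 0 ≤ max 0 (min p 1) := le_max_left _ _
  have hq1 : max 0 (min q 1) ≤ 1 := max_le zero_le_one (min_le_right _ _)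
  have hle : max 0 (min p 1) ≤ max 0 (min q 1) := max_le_max le_rfl (min_le_min hpq le_rfl)
  obtain ⟨μ, hμ⟩ : ∃ μ : PW (Fin 3), μ.w =
      ![max 0 (min p 1), max 0 (min q 1) - max 0 (min p 1), 1 - max 0 (min q 1)] := by
    refine ⟨⟨_, fun a => ?_, ?_⟩, rfl⟩
    · fin_cases a
      · exact hp0
      · exact sub_nonneg.2 hle
      · exact sub_nonneg.2 hq1
    · rw [Fin.sum_univ_three]
      change max 0 (min p 1) + (max 0 (min q 1) - max 0 (min p 1)) + (1 - max 0 (min q 1)) = 1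
      ring
  have m1 : μ.mass {a | a = 0} = max 0 (min p 1) := by
    unfold PW.mass
    rw [Fin.sum_univ_three, hμ]
    simp [Set.indicator]
  have m2 : μ.mass {a | a ≠ 2} = max 0 (min q 1) := by
    unfold PW.mass
    rw [Fin.sum_univ_three, hμ]
    simp [Set.indicator]
  rw [← h1_ber_clamp p, ← h1_ber_clamp q, ← m1, ← m2, ← pr_pred μ _ hZ sΦ, ← pr_pred μ _ hZ sΦ]
  refine pr_mono _ fun ω hω => iΦ _ _ (fun v hv => ?_) hω
  have hv' : ω v = 0 := hv
  change ω v ≠ 2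
  rw [hv']
  decide

theorem pr_ber_anti {p q : ℝ} (hpq : p ≤ q) {Φ : Set Site → Prop} {Z : Set Site} (hZ : Z.Finite)
    (sΦ : Sup Φ Z) (iΦ : Inc Φ) : pr (ber q) (ev false Φ) ≤ pr (ber p) (ev false Φ) := by
  have h0 : ∀ x : ℝ, 0 ≤ max 0 (min x 1) := fun x => le_max_left _ _
  have h1 : ∀ x : ℝ, max 0 (min x 1) ≤ 1 := fun x => max_le zero_le_one (min_le_right _ _)
  have hle : max 0 (min p 1) ≤ max 0 (min q 1) := max_le_max le_rfl (min_le_min hpq le_rfl)
  rw [← h1_ber_clamp p, ← h1_ber_clamp q, pr_ev_flip (h0 p) (h1 p) false hZ sΦ,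
    pr_ev_flip (h0 q) (h1 q) false hZ sΦ]
  exact pr_ber_mono (by linarith) hZ sΦ iΦ

end Pool.Agent.Work.MP_ccd212_pr
end

-- merged part: Pool.Agent.Work.MP_ccd212_pr.ADefs
section
/-! Ports, separated arms, node grids. -/

namespace Pool.Agent.Work.MP_ccd212_pr

/-- Port box below the row `y0`. -/
def pb (y0 x : ℤ) (η : ℕ) : Set Site := rect (x + η) (x + 2 * η) (y0 - 2 * η) (y0 - 1)

/-- Far row of a port box. -/
def pfar (y0 x : ℤ) (η : ℕ) : Set Site := pb y0 x η ∩ {v | v.2 = y0 - 2 * η}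

/-- The side rectangle above the row `y0`. -/
def qr (y0 : ℤ) (n m : ℕ) : Set Site := rect (-n) n y0 (y0 + m)

/-- Every crossing cluster of the side rectangle that stays away from its ends lands at a point
`z` with a fenced port, and no crossing of the other colour lands next to the port. -/
def SepQ (S : Set Site) (y0 : ℤ) (n m μ T : ℕ) : Prop :=
  ∀ u w : Site, u.2 = y0 + m → w.2 = y0 → Conn (S ∩ qr y0 n m) u w →
    (∀ v, Conn (S ∩ qr y0 n m) u v → v.1.natAbs + m < n) →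
    ∃ (z s : Site) (j : ℤ) (k : ℕ), k < T ∧ z.2 = y0 ∧ Conn (S ∩ qr y0 n m) u z ∧
      j * μ ≤ z.1 ∧ z.1 < j * μ + μ ∧ s ∈ pfar y0 (j * μ) (16 ^ k * μ) ∧
      Conn (S ∩ (qr y0 n m ∪ pb y0 (j * μ) (16 ^ k * μ))) z s ∧
      ∀ z' u' : Site, z'.2 = y0 → z.1 < z'.1 → z'.1 ≤ j * μ + 4 * (16 ^ k * μ : ℕ) →
        u'.2 = y0 + m → ¬ Conn (Sᶜ ∩ qr y0 n m) u' z'

/-- Landing row in canonical position: bottom side from inside (`true`), top side from outside
(`false`). -/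
def row (o : Bool) (n : ℕ) : ℤ := if o then -n else n

/-- Symmetry from the canonical position to the side `a` (right, top, left, bottom). -/
def sd (o : Bool) (a : Fin 4) : Site → Site := if o then syf a else syf (a + 2)

/-- Separation on the four sides for both colours, and shields at the four corners. -/
def SepAll (S : Set Site) (o : Bool) (n m μ T : ℕ) : Prop :=
  (∀ a : Fin 4, SepQ (sd o a ⁻¹' S) (row o n) n m μ T ∧ SepQ (sd o a ⁻¹' Sᶜ) (row o n) n m μ T) ∧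
  ∀ c : Site, c.1.natAbs = n → c.2.natAbs = n →
    ¬ Arm S c (m + 1) (n / 4) ∧ ¬ Arm Sᶜ c (m + 1) (n / 4)

/-- Position of a port: side, abscissa, size. -/
abbrev PType := Fin 4 → Fin 4 × ℤ × ℕ

/-- The port of arm `i`. -/
def port (o : Bool) (n : ℕ) (q : PType) (i : Fin 4) : Set Site :=
  sd o (q i).1 ⁻¹' pb (row o n) (q i).2.1 (q i).2.2

/-- The far row of the port of arm `i`. -/
def far (o : Bool) (n : ℕ) (q : PType) (i : Fin 4) : Set Site :=
  sd o (q i).1 ⁻¹' pfar (row o n) (q i).2.1 (q i).2.2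

/-- Four arms from end points satisfying `E`, inside `D` and their own port, to the far rows. -/
def ArmsP (S D : Set Site) (E : (Fin 4 → Site) → Prop) (P F : Fin 4 → Set Site) : Prop :=
  ∃ e s : Fin 4 → Site, E e ∧ ∀ i, e i ∈ D ∧ s i ∈ F i ∧ Conn (cs S i ∩ (D ∪ P i)) (e i) (s i)

/-- Standard ports: in the middle of the four sides. -/
def qstd (n : ℕ) : PType := fun i => (i, -3 * ((n / 8 : ℕ) : ℤ), 2 * (n / 8))

/-- Arms from the inner boundary of a ring to ports outside its outer boundary. -/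
def ArmsOut (S : Set Site) (r n : ℕ) (q : PType) : Prop :=
  ArmsP S (ann 0 r n) (fun e => ∀ i, InnerB 0 r (e i)) (port true n q) (far true n q)

/-- Arms from end points satisfying `T` to ports inside the removed box. -/
def ArmsIn (S : Set Site) (x1 x2 y1 y2 : ℤ) (n : ℕ) (T : (Fin 4 → Site) → Prop) (q : PType) :
    Prop :=
  ArmsP S (Dom x1 x2 y1 y2 n) T (port false n q) (far false n q)

/-- Boundary position of the left corner of the port of arm `i`. -/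
def pkey (o : Bool) (n : ℕ) (q : PType) (i : Fin 4) : ℤ :=
  ridx n (sd o (q i).1 ((q i).2.1 + (q i).2.2, row o n))

/-- Admissible positions of ports. -/
def ValidQ (o : Bool) (n m μ : ℕ) (q : PType) : Prop :=
  (∀ i, μ ≤ (q i).2.2 ∧ 16 * (q i).2.2 ≤ m ∧ (q i).2.1.natAbs + m ≤ n + μ) ∧
  (∀ i j, i.val % 2 ≠ j.val % 2 → (q i).1 = (q j).1 →
    (q i).2.1 + 2 * (q i).2.2 < (q j).2.1 + (q j).2.2 ∨
    (q j).2.1 + 2 * (q j).2.2 < (q i).2.1 + (q i).2.2) ∧
  CCW (pkey o n q 0) (pkey o n q 1) (pkey o n q 2) (pkey o n q 3)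

/-- The finite family of positions. -/
noncomputable def qTypes (n μ T : ℕ) : Finset PType :=
  Fintype.piFinset fun _ => (Finset.univ : Finset (Fin 4)) ×ˢ
    (((Finset.Icc (-(n / μ : ℕ) - 1 : ℤ) ((n / μ : ℕ) + 1)).image fun j => j * (μ : ℤ)) ×ˢ
      ((Finset.range T).image fun k => 16 ^ k * μ))

/-- Colour of arm `i`. -/
def cb (i : Fin 4) : Bool := decide (i.val % 2 = 0)

/-- The ports `P` can be prolonged inside `Om` to the ports `P'`, at a cost `c` for each arm. -/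
def Link (p c : ℝ) (Om Mid : Set Site) (P F P' F' : Fin 4 → Set Site) : Prop :=
  ∃ (Z : Fin 4 → Set Site) (Φ : Fin 4 → Set Site → Prop),
    (∀ i, (Z i).Finite ∧ P i ⊆ Z i ∧ Z i ⊆ Om ∧ Z i ⊆ Mid ∪ P' i ∧ Sup (Φ i) (Z i) ∧ Inc (Φ i) ∧
      c ≤ pr (ber p) (ev (cb i) (Φ i))) ∧
    (∀ i j, i.val % 2 ≠ j.val % 2 → Disjoint (Z i) (Z j)) ∧
    ∀ i (X : Set Site) (e s : Site), e ∉ Om → s ∈ F i → Φ i X → Conn (X ∩ (Omᶜ ∪ P i)) e s →
      ∃ t ∈ Z i, ∃ s' ∈ F' i, Conn (X ∩ Z i) t s' ∧ Conn (X ∩ P i) t s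

/-- The region beyond the ring `n`: outside (`true`) or inside (`false`). -/
def beyond (o : Bool) (n : ℕ) : Set Site := {v | if o then n < dst 0 v else dst 0 v < n}

/-- The region between the rings `n` and `n'`. -/
def mid (o : Bool) (n n' : ℕ) : Set Site :=
  {v | if o then n < dst 0 v ∧ dst 0 v ≤ n' else n' ≤ dst 0 v ∧ dst 0 v < n}

/-- The square of half-side `μ` centred at `4 μ u`. -/
def node (μ : ℕ) (u : Site) : Set Site :=
  rect (4 * μ * u.1 - μ) (4 * μ * u.1 + μ) (4 * μ * u.2 - μ) (4 * μ * u.2 + μ)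

/-- The horizontal bar from the node `u` to its right neighbour. -/
def hbar (μ : ℕ) (u : Site) : Set Site :=
  rect (4 * μ * u.1 - μ) (4 * μ * u.1 + 5 * μ) (4 * μ * u.2 - μ) (4 * μ * u.2 + μ)

/-- The vertical bar from the node `u` to its upper neighbour. -/
def vbar (μ : ℕ) (u : Site) : Set Site :=
  rect (4 * μ * u.1 - μ) (4 * μ * u.1 + μ) (4 * μ * u.2 - μ) (4 * μ * u.2 + 5 * μ)

/-- The region occupied by a set of nodes. -/
def reg (μ : ℕ) (Z : Set Site) : Set Site :=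
  {v | ∃ u ∈ Z, v ∈ node μ u ∨ ((u.1 + 1, u.2) ∈ Z ∧ v ∈ hbar μ u) ∨
    ((u.1, u.2 + 1) ∈ Z ∧ v ∈ vbar μ u)}

/-- All nodes and bars are crossed. -/
def Full (μ : ℕ) (Z : Set Site) (X : Set Site) : Prop :=
  ∀ u ∈ Z,
    LR X (4 * μ * u.1 - μ) (4 * μ * u.1 + μ) (4 * μ * u.2 - μ) (4 * μ * u.2 + μ) ∧
    TB X (4 * μ * u.1 - μ) (4 * μ * u.1 + μ) (4 * μ * u.2 - μ) (4 * μ * u.2 + μ) ∧
    ((u.1 + 1, u.2) ∈ Z →
      LR X (4 * μ * u.1 - μ) (4 * μ * u.1 + 5 * μ) (4 * μ * u.2 - μ) (4 * μ * u.2 + μ)) ∧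
    ((u.1, u.2 + 1) ∈ Z →
      TB X (4 * μ * u.1 - μ) (4 * μ * u.1 + μ) (4 * μ * u.2 - μ) (4 * μ * u.2 + 5 * μ))

/-- Adjacency in the square grid. -/
def GAdj (u v : Site) : Prop :=
  (v.1 = u.1 + 1 ∧ v.2 = u.2) ∨ (v.1 = u.1 - 1 ∧ v.2 = u.2) ∨
  (v.1 = u.1 ∧ v.2 = u.2 + 1) ∨ (v.1 = u.1 ∧ v.2 = u.2 - 1)

/-- Connection in the square grid inside `Z`. -/
def GConn (Z : Set Site) (u v : Site) : Prop :=
  u ∈ Z ∧ Relation.ReflTransGen (fun a b => GAdj a b ∧ b ∈ Z) u v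

/-- `a` starts a crossing of the node `u`, in one of the two directions. -/
def NodeCross (μ : ℕ) (u : Site) (X : Set Site) (a : Site) : Prop :=
  ∃ b : Site, Conn (X ∩ node μ u) a b ∧
    ((a.1 = 4 * μ * u.1 - μ ∧ b.1 = 4 * μ * u.1 + μ) ∨
      (a.2 = 4 * μ * u.2 - μ ∧ b.2 = 4 * μ * u.2 + μ))

end Pool.Agent.Work.MP_ccd212_pr
end

-- merged part: Pool.Agent.Work.MP_ccd212_pr.Sep1
section
/-! Exploration of a side rectangle from its left column, with alternating colours. -/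

namespace Pool.Agent.Work.MP_ccd212_pr

/-- Add to `Sg` the clusters of `X` in `D` that meet it, and their neighbours in `D`. -/
def stepS (D X Sg : Set Site) : Set Site :=
  Sg ∪ {v | v ∈ D ∧ ∃ a ∈ Sg, ∃ b, Conn (X ∩ D) a b ∧ (v = b ∨ Adj b v)}

/-- The colour explored at step `j + 1`. -/
def ecol (S : Set Site) (j : ℕ) : Set Site := if j % 2 = 0 then Sᶜ else S

/-- The explored set after `j` steps. -/
def expl (S : Set Site) (y0 : ℤ) (n m : ℕ) : ℕ → Set Site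
  | 0 => qr y0 n m ∩ {v | v.1 = -n}
  | j + 1 => stepS (qr y0 n m) (ecol S j) (expl S y0 n m j)

/-- The right column of the side rectangle. -/
def rcol (y0 : ℤ) (n m : ℕ) : Set Site := qr y0 n m ∩ {v | v.1 = n}

variable {S S' : Set Site} {y0 : ℤ} {n m : ℕ}

theorem Sep1_mem {D X Sg : Set Site} {a b : Site} (ha : a ∈ Sg) (h : Conn (X ∩ D) a b) :
    b ∈ stepS D X Sg := Or.inr ⟨h.right_mem.2, a, ha, b, h, Or.inl rfl⟩

theorem Sep1_adj {D X Sg : Set Site} {a b v : Site} (ha : a ∈ Sg) (h : Conn (X ∩ D) a b)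
    (hv : Adj b v) (hD : v ∈ D) : v ∈ stepS D X Sg := Or.inr ⟨hD, a, ha, b, h, Or.inr hv⟩

theorem Sep1_congr {D X X' Sg : Set Site} (h : ∀ v ∈ stepS D X Sg, v ∈ X ↔ v ∈ X') :
    stepS D X' Sg = stepS D X Sg := by
  have key : ∀ a ∈ Sg, ∀ b, Conn (X' ∩ D) a b ↔ Conn (X ∩ D) a b := fun a ha b =>
    ⟨fun hc => hc.ind (P := fun v => Conn (X ∩ D) a v)
      (Conn.refl ⟨(h a (Or.inl ha)).2 hc.left_mem.1, hc.left_mem.2⟩) fun _ y _ hy hxy hp =>
        hp.tail hxy ⟨(h y (Sep1_adj ha hp hxy hy.2)).2 hy.1, hy.2⟩,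
    fun hc => hc.cluster.mono fun v hv =>
      ⟨(h v (Sep1_mem ha hv)).1 (Conn.right_mem hv).1, (Conn.right_mem hv).2⟩⟩
  ext v
  exact or_congr Iff.rfl (and_congr Iff.rfl (exists_congr fun a => and_congr_right fun ha =>
    exists_congr fun b => and_congr_left fun _ => key a ha b))

theorem Sep1_ecol (S : Set Site) (j : ℕ) : ecol S (j + 1) = (ecol S j)ᶜ := by
  unfold ecol
  split_ifs <;> first | omega | simp

theorem Sep1_even (S : Set Site) (i : ℕ) : ecol S (2 * i) = Sᶜ := if_pos (by omega)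

theorem Sep1_odd (S : Set Site) (i : ℕ) : ecol S (2 * i + 1) = S := if_neg (by omega)

theorem expl_subset (j : ℕ) : expl S y0 n m j ⊆ qr y0 n m := by
  induction j with
  | zero => exact Set.inter_subset_left
  | succ j ih => exact Set.union_subset ih fun v hv => hv.1

theorem expl_mono {i j : ℕ} (h : i ≤ j) : expl S y0 n m i ⊆ expl S y0 n m j := by
  exact monotone_nat_of_le_succ (f := expl S y0 n m) (fun _ => Set.subset_union_left) h

theorem Sep1_left (k : ℕ) : ((-n : ℤ), y0) ∈ expl S y0 n m k := by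
  refine expl_mono (Nat.zero_le k) ⟨?_, rfl⟩
  simp only [qr, mem_rect]
  omega

theorem expl_isConn (j : ℕ) : IsConn (expl S y0 n m j) := by
  induction j with
  | zero =>
    have : expl S y0 n m 0 = rect (-n) (-n) y0 (y0 + m) := by
      ext v
      simp only [expl, qr, Set.mem_inter_iff, mem_rect, Set.mem_ofPred_eq]
      omega
    rw [this]
    exact isConn_rect _ _ _ _
  | succ j ih =>
    have key : ∀ v ∈ expl S y0 n m (j + 1), ∃ a ∈ expl S y0 n m j,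
        Conn (expl S y0 n m (j + 1)) a v := by
      rintro v hv
      rcases id hv with h | ⟨_, a, ha, b, hab, h⟩
      · exact ⟨v, h, Conn.refl hv⟩
      · have h1 : Conn (expl S y0 n m (j + 1)) a b := hab.cluster.mono fun x hx => Sep1_mem ha hx
        rcases h with rfl | h
        · exact ⟨a, ha, h1⟩
        · exact ⟨a, ha, h1.tail h hv⟩
    intro v hv v' hv'
    obtain ⟨a, ha, h⟩ := key v hv
    obtain ⟨a', ha', h'⟩ := key v' hv'
    exact (h.symm.trans ((ih a ha a' ha').mono Set.subset_union_left)).trans h'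

/-- The explored set is a stopping set. -/
theorem expl_stop (j : ℕ) (h : ∀ v ∈ expl S y0 n m j, v ∈ S ↔ v ∈ S') :
    expl S' y0 n m j = expl S y0 n m j := by
  induction j with
  | zero => rfl
  | succ j ih =>
    have e := ih fun v hv => h v (Or.inl hv)
    change stepS _ _ _ = stepS _ _ _
    rw [e]
    refine Sep1_congr fun v hv => ?_
    have := h v hv
    unfold ecol
    split_ifs
    · exact not_congr this
    · exact this

/-- Explored sites with an unexplored neighbour have the colour of the next step. -/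
theorem expl_front_col {j : ℕ} {g u : Site} (hg : g ∈ expl S y0 n m (j + 1))
    (hu : u ∈ qr y0 n m) (hu' : u ∉ expl S y0 n m (j + 1)) (h : Adj g u) :
    g ∈ ecol S (j + 1) := by
  rw [Sep1_ecol]
  intro hX
  have hgQ := expl_subset _ hg
  rcases hg with hg | ⟨_, a, ha, b, hab, hb⟩
  · exact hu' (Sep1_adj hg (Conn.refl ⟨hX, hgQ⟩) h hu)
  · rcases hb with rfl | hb
    · exact hu' (Sep1_adj ha hab h hu)
    · exact hu' (Sep1_adj ha (hab.tail hb ⟨hX, hgQ⟩) h hu)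

/-- A left-right crossing in the unexplored part ends the exploration. -/
theorem expl_progress {j : ℕ} {X : Set Site} (hX : LR X (-n) n y0 (y0 + m))
    (hag : ∀ v, v ∉ expl S y0 n m (j + 1) → v ∈ X → v ∈ ecol S (j + 1)) :
    (expl S y0 n m (j + 2) ∩ rcol y0 n m).Nonempty := by
  obtain ⟨a, b, ha, hb, hab⟩ := hX
  refine ⟨b, ?_, hab.right_mem.2, hb⟩
  by_cases hb' : b ∈ expl S y0 n m (j + 1)
  · exact Or.inl hb'
  have ha' : a ∈ expl S y0 n m (j + 1) := expl_mono (Nat.zero_le _) ⟨hab.left_mem.2, ha⟩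
  obtain ⟨t, u, ht, hu, htu, -, hub⟩ := hab.last_exit ha' hb'
  exact Sep1_mem ht (Conn.head htu
    ⟨expl_front_col ht hub.left_mem.1.2 hu htu, expl_subset _ ht⟩
    (hub.mono fun v hv => ⟨hag v hv.2 hv.1.1, hv.1.2⟩))

/-- Every crossing cluster away from the ends contains the front of some step. -/
theorem expl_cluster {u w : Site} (hu : u.2 = y0 + m) (hw : w.2 = y0)
    (hc : Conn (S ∩ qr y0 n m) u w) (hfar : ∀ v, Conn (S ∩ qr y0 n m) u v → v.1.natAbs < n)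
    {J : ℕ} (hJ : (expl S y0 n m (2 * J + 1) ∩ rcol y0 n m).Nonempty) :
    ∃ i < J, expl S y0 n m (2 * i + 1) ∩ rcol y0 n m = ∅ ∧
      ∀ g ∈ Front (qr y0 n m) (expl S y0 n m (2 * i + 1)) (rcol y0 n m),
        Conn (S ∩ qr y0 n m) u g := by
  classical
  obtain ⟨C, hC⟩ : ∃ C : Set Site, C = {v | Conn (S ∩ qr y0 n m) u v} := ⟨_, rfl⟩
  have mC : ∀ v, v ∈ C ↔ Conn (S ∩ qr y0 n m) u v := fun v => by rw [hC]; rfl
  have CQ : C ⊆ S ∩ qr y0 n m := fun v hv => ((mC v).1 hv).right_mem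
  have cC : ∀ v ∈ C, Conn C u v := fun v hv => hC ▸ ((mC v).1 hv).cluster
  have l0 : ∀ k, ((-n : ℤ), y0) ∈ expl S y0 n m k := fun k => Sep1_left k
  have meet : ∀ (Y : Set Site) (b : Site), Y ⊆ qr y0 n m → Conn Y (-n, y0) b → b.1 = n →
      (Y ∩ C).Nonempty := fun Y b hY h hb => by
    obtain ⟨v, h1, h2⟩ := LR_TB_meet hY (fun v hv => (CQ hv).2) h rfl hb
      (cC w ((mC w).2 hc)).symm hw hu
    exact ⟨v, h1.right_mem, h2.right_mem⟩
  have hex : ∃ i, (expl S y0 n m (2 * i + 1) ∩ C).Nonempty := by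
    obtain ⟨b, hb, hb'⟩ := hJ
    exact ⟨J, meet _ b (expl_subset _) (expl_isConn _ _ (l0 _) _ hb) hb'.2⟩
  have hJ' : (expl S y0 n m (2 * J + 1) ∩ C).Nonempty := by
    obtain ⟨b, hb, hb'⟩ := hJ
    exact meet _ b (expl_subset _) (expl_isConn _ _ (l0 _) _ hb) hb'.2
  have hi := Nat.find_spec hex
  have hle := Nat.find_min' hex hJ'
  have hmin := fun k => Nat.find_min hex (m := k)
  generalize Nat.find hex = i at hi hle hmin
  have hB : ∀ v ∈ expl S y0 n m (2 * i), v ∉ C := by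
    intro v hv hvC
    rcases i with _ | i
    · have h1 : v.1 = -n := hv.2
      have := hfar v ((mC v).1 hvC)
      omega
    · refine hmin i (Nat.lt_succ_self i) ?_
      rcases (show v ∈ stepS (qr y0 n m) (ecol S (2 * i + 1)) (expl S y0 n m (2 * i + 1)) from hv)
        with h | ⟨_, a, ha, b, hab, h⟩
      · exact ⟨v, h, hvC⟩
      · rw [Sep1_odd] at hab
        refine ⟨a, ha, (mC a).2 (((mC v).1 hvC).trans (Conn.symm ?_))⟩
        rcases h with rfl | h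
        · exact hab
        · exact hab.tail h (CQ hvC)
  have hCc : ∀ v ∈ expl S y0 n m (2 * i + 1), v ∉ C → Conn (qr y0 n m \ C) (-n, y0) v := by
    have k : ∀ a ∈ expl S y0 n m (2 * i), Conn (qr y0 n m \ C) (-n, y0) a := fun a ha =>
      (expl_isConn _ _ (l0 _) _ ha).mono fun x hx => ⟨expl_subset _ hx, hB x hx⟩
    rintro v (h | ⟨hvQ, a, ha, b, hab, h⟩) hvC
    · exact k v h
    · rw [Sep1_even] at hab
      have h1 := (k a ha).trans (hab.mono fun x hx => ⟨hx.2, fun hxC => hx.1 (CQ hxC).1⟩)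
      rcases h with rfl | h
      · exact h1
      · exact h1.tail h ⟨hvQ, hvC⟩
  have hD : ∀ b : Site, b.1 = n → ¬ Conn (qr y0 n m \ C) (-n, y0) b := fun b hb h => by
    obtain ⟨v, h1, h2⟩ := meet _ b Set.sdiff_subset h hb
    exact h1.2 h2
  have hT : rcol y0 n m ⊆ qr y0 n m \ expl S y0 n m (2 * i + 1) := fun v hv =>
    ⟨hv.1, fun h => hD v hv.2 (hCc v h fun hvC => by
      have h1 : v.1 = n := hv.2
      have := hfar v ((mC v).1 hvC)
      omega)⟩
  have hE : expl S y0 n m (2 * i + 1) ∩ rcol y0 n m = ∅ :=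
    Set.eq_empty_of_forall_notMem fun v hv => (hT hv.2).2 hv.1
  refine ⟨i, lt_of_le_of_ne hle ?_, hE, ?_⟩
  · rintro rfl
    exact hJ.ne_empty hE
  have cT : IsConn (rcol y0 n m) := by
    have : rcol y0 n m = rect n n y0 (y0 + m) := by
      ext v
      simp only [rcol, qr, Set.mem_inter_iff, mem_rect, Set.mem_ofPred_eq]
      omega
    rw [this]
    exact isConn_rect _ _ _ _
  have cF := isConn_front (sc_rect _ _ _ _) (isConn_rect _ _ _ _) (expl_subset (2 * i + 1))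
    (expl_isConn (S := S) _) ⟨_, l0 _⟩ hT cT
  have FS : Front (qr y0 n m) (expl S y0 n m (2 * i + 1)) (rcol y0 n m) ⊆ S ∩ qr y0 n m := by
    rintro g ⟨hg, v, ⟨t, -, hv⟩, hgv⟩
    have := expl_front_col hg hv.right_mem.1 hv.right_mem.2 hgv
    rw [Sep1_odd] at this
    exact ⟨this, expl_subset _ hg⟩
  suffices h : ∃ g ∈ Front (qr y0 n m) (expl S y0 n m (2 * i + 1)) (rcol y0 n m), g ∈ C by
    obtain ⟨g0, h0, h1⟩ := h
    exact fun g hg => ((mC g0).1 h1).trans ((cF g0 h0 g hg).mono FS)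
  by_contra hno
  have hV : ∀ c ∈ Vis (qr y0 n m) (expl S y0 n m (2 * i + 1)) (rcol y0 n m), c ∉ C := by
    intro c hcV hcC
    obtain ⟨c', h1, h2⟩ := hi
    obtain ⟨g, hg, -, hg'⟩ := front_hit (fun v hv => (CQ hv).2)
      ((cC c hcC).symm.trans (cC c' h2)) hcV h1
    exact hno ⟨g, hg, hg'.left_mem⟩
  have r0 : ((n : ℤ), y0) ∈ rcol y0 n m := by
    refine ⟨?_, rfl⟩
    simp only [qr, mem_rect]
    omega
  obtain ⟨g, hg, -⟩ := front_hit subset_rfl
    (isConn_rect _ _ _ _ _ r0.1 _ (expl_subset (S := S) (2 * i + 1) (l0 _)))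
    ⟨_, r0, Conn.refl (hT r0)⟩ (l0 (2 * i + 1))
  obtain ⟨hgE, v, ⟨t, ht, htv⟩, hgv⟩ := id hg
  refine hD t ht.2 ((hCc g hgE fun h => hno ⟨g, hg, h⟩).trans (Conn.head hgv
    ⟨expl_subset _ hgE, fun h => hno ⟨g, hg, h⟩⟩ (Conn.symm ?_)))
  exact htv.cluster.mono fun x hx => ⟨(Conn.right_mem hx).1, hV x ⟨t, ht, hx⟩⟩

/-- The rightmost site of `Sg` on the landing row. -/
def IsTip (Sg : Set Site) (y0 : ℤ) (z : Site) : Prop :=
  z ∈ Sg ∧ z.2 = y0 ∧ ∀ v ∈ Sg, v.2 = y0 → v.1 ≤ z.1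

theorem exists_tip (j : ℕ) : ∃ z, IsTip (expl S y0 n m j) y0 z := by
  obtain ⟨z, hz, h⟩ := Set.exists_max_image (expl S y0 n m j ∩ {v | v.2 = y0}) (fun v => v.1)
    ((rect_finite _ _ _ _).subset (Set.inter_subset_left.trans (expl_subset j)))
    ⟨_, Sep1_left j, rfl⟩
  exact ⟨z, hz.1, hz.2, fun v hv hv' => h v ⟨hv, hv'⟩⟩

theorem IsTip.mem_front {Sg : Set Site} (hS : Sg ⊆ qr y0 n m) (hT : Sg ∩ rcol y0 n m = ∅) {z : Site}
    (hz : IsTip Sg y0 z) : z ∈ Front (qr y0 n m) Sg (rcol y0 n m) ∧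
      ∀ v ∈ qr y0 n m, v.2 = y0 → z.1 < v.1 → v ∈ Vis (qr y0 n m) Sg (rcol y0 n m) := by
  have hzQ := hS hz.1
  have hn : z.1 ≠ n := fun h => Set.eq_empty_iff_forall_notMem.1 hT z ⟨hz.1, hzQ, h⟩
  have h2 := hz.2.1
  simp only [qr, mem_rect] at hzQ
  have key : ∀ v ∈ qr y0 n m, v.2 = y0 → z.1 < v.1 → v ∈ Vis (qr y0 n m) Sg (rcol y0 n m) := by
    rintro ⟨x, y⟩ hv (rfl : y = y0) (hx : z.1 < x)
    simp only [qr, mem_rect] at hv
    refine ⟨(n, y), ⟨?_, rfl⟩, Conn.symm (conn_hor hv.2.1 fun t h1 h3 => ⟨?_, fun h => ?_⟩)⟩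
    · simp only [qr, mem_rect]
      omega
    · simp only [qr, mem_rect]
      omega
    · have := hz.2.2 _ h rfl
      simp only at this
      omega
  refine ⟨⟨hz.1, (z.1 + 1, y0), key _ ?_ rfl (by simp), by simp [Adj, h2]⟩, key⟩
  simp only [qr, mem_rect]
  omega

end Pool.Agent.Work.MP_ccd212_pr
end

-- merged part: Pool.Agent.Work.MP_ccd212_pr.Sep2
section
/-! Fences and protections at the tip of the explored set. -/

namespace Pool.Agent.Work.MP_ccd212_pr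

/-- Six crossings around the point `(x, y0)` at scale `η`. -/
def Circ (X : Set Site) (y0 x : ℤ) (η : ℕ) : Prop :=
  TB X (x + η) (x + 2 * η) (y0 - 2 * η) (y0 + 2 * η) ∧
  LR X (x - 2 * η) (x + 2 * η) (y0 + η) (y0 + 2 * η) ∧
  TB X (x - 2 * η) (x - η) y0 (y0 + 2 * η) ∧
  TB X (x + 4 * η) (x + 8 * η) y0 (y0 + 8 * η) ∧
  LR X (x - 8 * η) (x + 8 * η) (y0 + 4 * η) (y0 + 8 * η) ∧
  TB X (x - 8 * η) (x - 4 * η) y0 (y0 + 8 * η)

/-- The conclusion of `SepQ` at the point `z`. -/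
def Fenced (S : Set Site) (y0 : ℤ) (n m : ℕ) (z : Site) (x : ℤ) (η : ℕ) : Prop :=
  (∃ s ∈ pfar y0 x η, Conn (S ∩ (qr y0 n m ∪ pb y0 x η)) z s) ∧
  ∀ z' u' : Site, z'.2 = y0 → z.1 < z'.1 → z'.1 ≤ x + 4 * η → u'.2 = y0 + m →
    ¬ Conn (Sᶜ ∩ qr y0 n m) u' z'

/-- The front joins the tip to the top row. -/
theorem Sep2_front {Sg : Set Site} {y0 : ℤ} {n m : ℕ} {z : Site}
    (hS : Sg ⊆ qr y0 n m) (cS : IsConn Sg) (hl : qr y0 n m ∩ {v | v.1 = -n} ⊆ Sg)
    (hT : Sg ∩ rcol y0 n m = ∅) (hz : IsTip Sg y0 z) :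
    IsConn (Front (qr y0 n m) Sg (rcol y0 n m)) ∧
      ∃ t ∈ Front (qr y0 n m) Sg (rcol y0 n m), t.2 = y0 + m := by
  have hr : rcol y0 n m ⊆ qr y0 n m \ Sg := fun v hv =>
    ⟨hv.1, fun h => by
      have : v ∈ Sg ∩ rcol y0 n m := ⟨h, hv⟩
      rw [hT] at this
      exact this⟩
  have hrc : rcol y0 n m = rect n n y0 (y0 + m) := by
    ext v
    simp only [rcol, qr, Set.mem_inter_iff, mem_rect, Set.mem_ofPred_eq]
    omega
  refine ⟨isConn_front (sc_rect _ _ _ _) (isConn_rect _ _ _ _) hS cS ⟨z, hz.1⟩ hr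
    (hrc ▸ isConn_rect _ _ _ _), ?_⟩
  have ha : ((n : ℤ), y0 + m) ∈ rcol y0 n m := by
    rw [hrc, mem_rect]
    dsimp only
    omega
  have hc : Conn (rect (-n) n (y0 + m) (y0 + m)) ((n : ℤ), y0 + m) (-(n : ℤ), y0 + m) := by
    refine isConn_rect _ _ _ _ _ ?_ _ ?_ <;> rw [mem_rect] <;> dsimp only <;> omega
  have hb : (-(n : ℤ), y0 + m) ∈ Sg := by
    refine hl ⟨?_, rfl⟩
    rw [qr, mem_rect]
    dsimp only
    omega
  have hsub : rect (-n) n (y0 + m) (y0 + m) ⊆ qr y0 n m := by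
    intro v hv
    rw [qr]
    rw [mem_rect] at hv ⊢
    omega
  obtain ⟨g, hg, -, h2⟩ := front_hit (Tp := rcol y0 n m) hsub hc ⟨_, ha, Conn.refl (hr ha)⟩ hb
  refine ⟨g, hg, ?_⟩
  have := h2.left_mem
  rw [mem_rect] at this
  omega

/-- Three crossings around `(x, y0)` meet every arm above the row `y0`. -/
theorem Sep2_meet {F X : Set Site} {y0 x yb : ℤ} {r R : ℕ} (hr : 1 ≤ r) (hR : r ≤ R)
    (hyb : yb ≤ y0) (hF : ∀ v ∈ F, y0 ≤ v.2) (hA : Arm F (x, y0) r R)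
    (h1 : TB X (x + r) (x + R) yb (y0 + R)) (h2 : LR X (x - R) (x + R) (y0 + r) (y0 + R))
    (h3 : TB X (x - R) (x - r) y0 (y0 + R)) :
    ∃ s f : Site, s.2 = yb ∧ x + r ≤ s.1 ∧ s.1 ≤ x + R ∧ f ∈ F ∧
      Conn (X ∩ (rect (x + r) (x + R) yb (y0 + R) ∪ rect (x - R) (x + R) (y0 + r) (y0 + R) ∪
        rect (x - R) (x - r) y0 (y0 + R))) s f := by
  obtain ⟨c1, d1, hc1, hd1, k1⟩ := h1
  obtain ⟨a2, b2, ha2, hb2, k2⟩ := h2
  obtain ⟨c3, d3, hc3, hd3, k3⟩ := h3
  set U := X ∩ (rect (x + r) (x + R) yb (y0 + R) ∪ rect (x - R) (x + R) (y0 + r) (y0 + R) ∪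
        rect (x - R) (x - r) y0 (y0 + R)) with hU
  have s1 : X ∩ rect (x + r) (x + R) yb (y0 + R) ⊆ U := fun v hv => ⟨hv.1, Or.inl (Or.inl hv.2)⟩
  have s2 : X ∩ rect (x - R) (x + R) (y0 + r) (y0 + R) ⊆ U :=
    fun v hv => ⟨hv.1, Or.inl (Or.inr hv.2)⟩
  have s3 : X ∩ rect (x - R) (x - r) y0 (y0 + R) ⊆ U := fun v hv => ⟨hv.1, Or.inr hv.2⟩
  have j12 : Conn U c1 a2 := by
    obtain ⟨c, d, hc, hd, k, k'⟩ := k1.sub_TB (x1 := x - R) (x2 := x + R) (y1 := y0 + r)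
      (y2 := y0 + R) (by omega) (by omega) (by omega) (fun v hv _ _ => by
        have := hv.2
        rw [mem_rect] at this
        omega)
    obtain ⟨v, hv1, hv2⟩ := LR_TB_meet Set.inter_subset_right Set.inter_subset_right k2 ha2 hb2
      k hc hd
    exact ((k'.mono s1).trans ((hv2.mono Set.inter_subset_left).mono s1)).trans (hv1.mono s2).symm
  have j32 : Conn U c3 a2 := by
    obtain ⟨c, d, hc, hd, k, k'⟩ := k3.sub_TB (x1 := x - R) (x2 := x + R) (y1 := y0 + r)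
      (y2 := y0 + R) (by omega) (by omega) (by omega) (fun v hv _ _ => by
        have := hv.2
        rw [mem_rect] at this
        omega)
    obtain ⟨v, hv1, hv2⟩ := LR_TB_meet Set.inter_subset_right Set.inter_subset_right k2 ha2 hb2
      k hc hd
    exact ((k'.mono s3).trans ((hv2.mono Set.inter_subset_left).mono s3)).trans (hv1.mono s2).symm
  have hc1' := k1.left_mem.2
  rw [mem_rect] at hc1'
  suffices h : ∃ f ∈ F, Conn U c1 f by
    obtain ⟨f, hf, h⟩ := h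
    exact ⟨c1, f, hc1, hc1'.1, hc1'.2.1, hf, h⟩
  rcases hA.short hR with h | h | h | h
  · obtain ⟨c, d, hc, hd, k⟩ := h
    obtain ⟨v, hv1, hv2⟩ := LR_TB_meet Set.inter_subset_right Set.inter_subset_right k2 ha2 hb2
      k hc hd
    exact ⟨v, hv2.right_mem.1, j12.trans (hv1.mono s2)⟩
  · obtain ⟨c, d, hc, hd, k⟩ := h
    have := hF d k.right_mem.1
    dsimp only at hd
    omega
  · obtain ⟨a, b, ha, hb, k⟩ := h
    dsimp only at ha hb k
    obtain ⟨v, hv1, hv2⟩ := LR_TB_meet (x1 := x + r) (x2 := x + R) (y1 := yb) (y2 := y0 + R)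
      (fun v hv => by
        have h1 := hF v hv.1
        have h2 := hv.2
        rw [mem_rect] at h2 ⊢
        omega) Set.inter_subset_right k ha hb k1 hc1 hd1
    exact ⟨v, hv1.right_mem.1, hv2.mono s1⟩
  · obtain ⟨a, b, ha, hb, k⟩ := h
    dsimp only at ha hb k
    obtain ⟨v, hv1, hv2⟩ := LR_TB_meet (x1 := x - R) (x2 := x - r) (y1 := y0) (y2 := y0 + R)
      (fun v hv => by
        have h1 := hF v hv.1
        have h2 := hv.2
        rw [mem_rect] at h2 ⊢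
        omega) Set.inter_subset_right k ha hb k3 hc3 hd3
    exact ⟨v, hv1.right_mem.1, (j12.trans j32.symm).trans (hv2.mono s3)⟩

/-- One fence: the tip is joined to the bottom end of the right crossing. -/
theorem Sep2_fence {S X Sg : Set Site} {y0 x yb : ℤ} {n m r R : ℕ} {z : Site}
    (hS : Sg ⊆ qr y0 n m) (cS : IsConn Sg) (hl : qr y0 n m ∩ {v | v.1 = -n} ⊆ Sg)
    (hT : Sg ∩ rcol y0 n m = ∅) (hcol : Front (qr y0 n m) Sg (rcol y0 n m) ⊆ S)
    (hz : IsTip Sg y0 z) (hx : x ≤ z.1) (hx' : z.1 < x + r) (hR : r ≤ R) (hm : 2 * R ≤ m)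
    (hfar : z.1.natAbs + m < n) (hyb : yb ≤ y0)
    (h1 : TB X (x + r) (x + R) yb (y0 + R)) (h2 : LR X (x - R) (x + R) (y0 + r) (y0 + R))
    (h3 : TB X (x - R) (x - r) y0 (y0 + R)) (hag : ∀ v, v ∉ Sg → v ∈ X → v ∈ S) :
    ∃ s : Site, s.2 = yb ∧ x + r ≤ s.1 ∧ s.1 ≤ x + R ∧
      Conn (S ∩ (qr y0 n m ∪ rect (x + r) (x + R) yb (y0 - 1))) z s := by
  obtain ⟨cF, t, ht, ht2⟩ := Sep2_front hS cS hl hT hz
  obtain ⟨hzF, hvis⟩ := hz.mem_front hS hT
  have hz2 := hz.2.1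
  have hr : 1 ≤ r := by omega
  have hFQ : ∀ v ∈ Front (qr y0 n m) Sg (rcol y0 n m), v ∈ qr y0 n m := fun v hv => hS hv.1
  have hA : Arm (Front (qr y0 n m) Sg (rcol y0 n m)) (x, y0) r R :=
    (cF z hzF t ht).arm hR (Or.inl (by unfold dst; dsimp only; omega))
      (by unfold dst; dsimp only; omega)
  obtain ⟨s, f, hs1, hs2, hs3, hf, k⟩ := Sep2_meet hr hR hyb (fun v hv => (hFQ v hv).2.2.1) hA
    h1 h2 h3
  set U := X ∩ (rect (x + r) (x + R) yb (y0 + R) ∪ rect (x - R) (x + R) (y0 + r) (y0 + R) ∪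
        rect (x - R) (x - r) y0 (y0 + R)) with hU
  have hUc : ∀ v ∈ U, (x + r ≤ v.1 ∧ v.1 ≤ x + R ∧ yb ≤ v.2 ∧ v.2 ≤ y0 + R) ∨
      (x - R ≤ v.1 ∧ v.1 ≤ x + R ∧ y0 + r ≤ v.2 ∧ v.2 ≤ y0 + R) ∨
      (x - R ≤ v.1 ∧ v.1 ≤ x - r ∧ y0 ≤ v.2 ∧ v.2 ≤ y0 + R) := by
    rintro v ⟨-, (h | h) | h⟩
    exacts [Or.inl h, Or.inr (Or.inl h), Or.inr (Or.inr h)]
  have hUQ : ∀ v ∈ U, y0 ≤ v.2 → v ∈ qr y0 n m := by
    intro v hv h
    have := hUc v hv
    rw [qr, mem_rect]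
    omega
  have hsS : s ∉ Sg := by
    intro h
    have h4 : y0 ≤ s.2 := (hS h).2.2.1
    have := hz.2.2 s h (by omega)
    omega
  obtain ⟨u, g, hu, hg, hug, ku, kg⟩ := k.first_hit hsS hf.1
  have hP : u.2 < y0 ∨ u ∈ Vis (qr y0 n m) Sg (rcol y0 n m) := by
    refine ku.ind (P := fun v => v.2 < y0 ∨ v ∈ Vis (qr y0 n m) Sg (rcol y0 n m)) ?_ ?_
    · by_cases h : s.2 < y0
      · exact Or.inl h
      · exact Or.inr (hvis s (hUQ s k.left_mem (by omega)) (by omega) (by omega))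
    · intro a b ha hb hab hp
      by_cases h : b.2 < y0
      · exact Or.inl h
      · have hbQ := hUQ b hb.1 (by omega)
        right
        rcases hp with hp | ⟨w, hw, kw⟩
        · have e1 := hUc a ha.right_mem.1
          have e2 := hUc b hb.1
          have e3 : b.2 ≤ a.2 + 1 ∧ a.1 - 1 ≤ b.1 := by unfold Adj at hab; omega
          exact hvis b hbQ (by omega) (by omega)
        · exact ⟨w, hw, kw.tail hab ⟨hbQ, hb.2⟩⟩
  have hgF : g ∈ Front (qr y0 n m) Sg (rcol y0 n m) := by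
    rcases hP with hp | hp
    · exfalso
      have e1 := hUc u ku.right_mem.1
      have e2 := hUc g kg.left_mem
      have e3 : g.2 ≤ u.2 + 1 ∧ u.1 - 1 ≤ g.1 := by unfold Adj at hug; omega
      have e4 : y0 ≤ g.2 := (hS hg).2.2.1
      have e5 := hz.2.2 g hg (by omega)
      omega
    · exact ⟨hg, u, hp, hug.symm⟩
  have hsub : U \ Sg ⊆ S ∩ (qr y0 n m ∪ rect (x + r) (x + R) yb (y0 - 1)) := by
    intro v hv
    refine ⟨hag v hv.2 hv.1.1, ?_⟩
    by_cases h : y0 ≤ v.2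
    · exact Or.inl (hUQ v hv.1 h)
    · have := hUc v hv.1
      right
      rw [mem_rect]
      omega
  refine ⟨s, hs1, hs2, hs3, ?_⟩
  have kz : Conn (S ∩ (qr y0 n m ∪ rect (x + r) (x + R) yb (y0 - 1))) z g :=
    (cF z hzF g hgF).mono fun v hv => ⟨hcol hv, Or.inl (hFQ v hv)⟩
  exact kz.trans (Conn.head hug.symm kz.right_mem (ku.mono hsub).symm)

theorem fenced_of_circ {S X Sg : Set Site} {y0 x : ℤ} {n m η : ℕ} {z : Site}
    (hS : Sg ⊆ qr y0 n m) (cS : IsConn Sg) (hl : qr y0 n m ∩ {v | v.1 = -n} ⊆ Sg)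
    (hT : Sg ∩ rcol y0 n m = ∅) (hcol : Front (qr y0 n m) Sg (rcol y0 n m) ⊆ S)
    (hz : IsTip Sg y0 z) (hx : x ≤ z.1) (hx' : z.1 < x + η) (hm : 16 * η ≤ m)
    (hfar : z.1.natAbs + m < n) (hX : Circ X y0 x η) (hag : ∀ v, v ∉ Sg → v ∈ X → v ∈ S) :
    Fenced S y0 n m z x η := by
  obtain ⟨c1, c2, c3, c4, c5, c6⟩ := hX
  have hz2 := hz.2.1
  constructor
  · obtain ⟨s, hs1, hs2, hs3, k⟩ := Sep2_fence (X := X) (r := η) (R := 2 * η) (yb := y0 - 2 * η)
      hS cS hl hT hcol hz hx hx' (by omega) (by omega) hfar (by omega) (by exact_mod_cast c1)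
      (by exact_mod_cast c2) (by exact_mod_cast c3) hag
    push_cast at hs3 k
    refine ⟨s, ⟨?_, hs1⟩, k⟩
    rw [pb, mem_rect]
    omega
  · obtain ⟨s, hs1, hs2, hs3, k⟩ := Sep2_fence (X := X) (r := 4 * η) (R := 8 * η) (yb := y0)
      hS cS hl hT hcol hz hx (by omega) (by omega) (by omega) hfar le_rfl (by exact_mod_cast c4)
      (by exact_mod_cast c5) (by exact_mod_cast c6) hag
    have k' : Conn (S ∩ qr y0 n m) z s := by
      refine k.mono fun v hv => ⟨hv.1, hv.2.elim id fun h => ?_⟩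
      rw [mem_rect] at h
      omega
    intro z' u' h1 h2 h3 h4 kc
    by_cases he : z'.1 = s.1
    · have : z' = s := Prod.ext he (by omega)
      exact kc.right_mem.1 (this ▸ k'.right_mem.1)
    have hu := kc.left_mem.2
    rw [qr, mem_rect] at hu
    have hb : ∀ v : Site, v.2 = y0 → -(n : ℤ) < v.1 → v.1 < n →
        OnBd (-n) n y0 (y0 + m) v ∧ idx (-n) n y0 (y0 + m) v = 2 * m + 2 * n + (v.1 + n) := by
      intro v e1 e2 e3
      refine ⟨⟨by rw [mem_rect]; omega, by omega⟩, ?_⟩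
      unfold idx
      rw [if_neg (by omega), if_neg (by omega), if_neg (by omega)]
      omega
    have hu' : idx (-n) n y0 (y0 + m) u' ≤ m + 2 * n := by
      unfold idx
      split_ifs <;> omega
    obtain ⟨b1, i1⟩ := hb z hz2 (by omega) (by omega)
    obtain ⟨b2, i2⟩ := hb z' h1 (by omega) (by omega)
    obtain ⟨b3, i3⟩ := hb s hs1 (by omega) (by omega)
    obtain ⟨v, hv1, hv2⟩ := meet_of_alt (by omega) (by omega) b1 b2 b3
      (d := u') ⟨by rw [mem_rect]; omega, by omega⟩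
      (Or.inl (Or.inr (Or.inr (Or.inr (by omega))))) Set.inter_subset_right Set.inter_subset_right
      k' kc.symm
    exact hv2.right_mem.1 hv1.right_mem.1

theorem sup_circ (y0 x : ℤ) (η : ℕ) :
    Sup (fun X => Circ X y0 x η) (ann (x, y0) η (8 * η)) := by
  have key : ∀ x1 x2 y1 y2 : ℤ, x - 8 * η ≤ x1 → x2 ≤ x + 8 * η → y0 - 8 * η ≤ y1 →
      y2 ≤ y0 + 8 * η → (x + η ≤ x1 ∨ x2 ≤ x - η ∨ y0 + η ≤ y1) →
      rect x1 x2 y1 y2 ⊆ ann (x, y0) η (8 * η) := by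
    intro x1 x2 y1 y2 h1 h2 h3 h4 h5 v hv
    rw [mem_rect] at hv
    rw [mem_ann]
    unfold dst
    dsimp only
    omega
  refine Sup.and ((sup_TB _ _ _ _).mono ?_) (Sup.and ((sup_LR _ _ _ _).mono ?_)
    (Sup.and ((sup_TB _ _ _ _).mono ?_) (Sup.and ((sup_TB _ _ _ _).mono ?_)
      (Sup.and ((sup_LR _ _ _ _).mono ?_) ((sup_TB _ _ _ _).mono ?_))))) <;>
    exact key _ _ _ _ (by omega) (by omega) (by omega) (by omega) (by omega)

theorem sup_fenced (y0 : ℤ) (n m : ℕ) (z : Site) (x : ℤ) (η : ℕ) :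
    Sup (fun S => Fenced S y0 n m z x η) (qr y0 n m ∪ pb y0 x η) := by
  rintro S S' hS ⟨⟨s, hs, k⟩, h2⟩
  refine ⟨⟨s, hs, k.congr_sup hS⟩, fun z' u' e1 e2 e3 e4 kc => h2 z' u' e1 e2 e3 e4 ?_⟩
  exact kc.mono fun v hv => ⟨fun h => hv.1 ((hS v (Or.inl hv.2)).1 h), hv.2⟩

end Pool.Agent.Work.MP_ccd212_pr
end

-- merged part: Pool.Agent.Work.MP_ccd212_pr.Pr2
section
/-! Stopping sets, double counting, Markov-type bounds. -/

namespace Pool.Agent.Work.MP_ccd212_pr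

open Classical

variable {α : Type} [Fintype α] (μ : PW α)

/-- The labelling equal to `ω` on `S` and to `ω'` elsewhere. -/
noncomputable def hyb {β : Type} (S : Set Site) (ω ω' : Site → β) : Site → β :=
  fun v => if v ∈ S then ω v else ω' v

/-- A random subset of the finite set `Λ` that is determined by the labels on itself. -/
def Stop {β : Type} (Sg : (Site → β) → Set Site) (Λ : Set Site) : Prop :=
  Λ.Finite ∧ (∀ ω, Sg ω ⊆ Λ) ∧ ∀ ω ω', (∀ v ∈ Sg ω, ω v = ω' v) → Sg ω' = Sg ω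

private theorem common_supp {β ι : Type} (s : Finset ι) (E : ι → Set (Site → β))
    (hE : ∀ i ∈ s, Loc (E i)) : ∃ S : Finset Site, ∀ i ∈ s, Dep (E i) S := by
  choose! S hS using hE
  have hfin : (⋃ i ∈ s, S i).Finite := s.finite_toSet.biUnion fun i hi => (hS i hi).1
  refine ⟨hfin.toFinset, fun i hi => (hS i hi).2.mono ?_⟩
  intro v hv
  simp only [Set.Finite.coe_toFinset, Set.mem_iUnion]
  exact ⟨i, hi, hv⟩

private theorem PW.ne (μ : PW α) : Nonempty α := by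
  by_contra h
  rw [not_nonempty_iff] at h
  have := μ.sum_one
  simp at this

private theorem sum_pr_eq {ι : Type} (s : Finset ι) (w : ι → ℝ) (E : ι → Set (Site → α))
    (S : Finset Site) (hE : ∀ i ∈ s, Dep (E i) S) (ω0 : Site → α) :
    ∑ i ∈ s, w i * pr μ (E i) = ∑ η : S → α, (∏ i, μ.w (η i)) *
      ∑ i ∈ s, if Function.updateFinset ω0 S η ∈ E i then w i else 0 := by
  rw [Finset.sum_congr rfl fun i hi => by rw [pr_eq_sum μ S (hE i hi) ω0, Finset.mul_sum]]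
  rw [Finset.sum_comm]
  refine Finset.sum_congr rfl fun η _ => ?_
  rw [Finset.mul_sum]
  refine Finset.sum_congr rfl fun i _ => ?_
  by_cases h : Function.updateFinset ω0 S η ∈ E i
  · simp [h, mul_comm]
  · simp [h]

private theorem count_dep {β ι : Type} (s : Finset ι) (w : ι → ℝ) (E : ι → Set (Site → β))
    (S : Set Site) (hE : ∀ i ∈ s, Dep (E i) S) {ω ω' : Site → β} (h : ∀ v ∈ S, ω v = ω' v) :
    (∑ i ∈ s, if ω ∈ E i then w i else 0) = ∑ i ∈ s, if ω' ∈ E i then w i else 0 := by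
  refine Finset.sum_congr rfl fun i hi => ?_
  have : ω ∈ E i ↔ ω' ∈ E i :=
    ⟨hE i hi ω ω' h, hE i hi ω' ω fun v hv => (h v hv).symm⟩
  simp [this]

private theorem count_ge {ι : Type} (s : Finset ι) (w : ι → ℝ) (E : ι → Set (Site → α))
    (hE : ∀ i ∈ s, Loc (E i)) (hw : ∀ i ∈ s, 0 ≤ w i) {A : Set (Site → α)} {a : ℝ}
    (h : ∀ ω ∈ A, a ≤ ∑ i ∈ s, if ω ∈ E i then w i else 0) :
    a * pr μ A ≤ ∑ i ∈ s, w i * pr μ (E i) := by
  rcases le_total a 0 with ha | ha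
  · exact (mul_nonpos_of_nonpos_of_nonneg ha (pr_nonneg μ A)).trans
      (Finset.sum_nonneg fun i hi => mul_nonneg (hw i hi) (pr_nonneg μ _))
  obtain ⟨S, hS⟩ := common_supp s E hE
  obtain ⟨x⟩ := μ.ne
  set A' : Set (Site → α) := {ω | a ≤ ∑ i ∈ s, if ω ∈ E i then w i else 0} with hA'
  have hdep : Dep A' S := by
    intro ω ω' hω h1
    have := count_dep s w E S hS hω
    simp only [hA', Set.mem_ofPred_eq] at h1 ⊢
    rwa [← this]
  refine (mul_le_mul_of_nonneg_left (pr_mono μ (F := A') fun ω hω => h ω hω) ha).trans ?_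
  rw [sum_pr_eq μ s w E S hS fun _ => x, pr_eq_sum μ S hdep fun _ => x, Finset.mul_sum]
  refine Finset.sum_le_sum fun η _ => ?_
  have hp : 0 ≤ ∏ i, μ.w (η i) := Finset.prod_nonneg fun i _ => μ.nonneg _
  rw [mul_left_comm]
  refine mul_le_mul_of_nonneg_left ?_ hp
  by_cases hm : Function.updateFinset (fun _ => x) S η ∈ A'
  · rw [Set.indicator_of_mem hm, mul_one]
    exact hm
  · rw [Set.indicator_of_notMem hm, mul_zero]
    refine Finset.sum_nonneg fun i hi => ?_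
    split_ifs
    · exact hw i hi
    · exact le_rfl

private theorem count_le {ι : Type} (s : Finset ι) (w : ι → ℝ) (E : ι → Set (Site → α))
    (hE : ∀ i ∈ s, Loc (E i)) {A : Set (Site → α)} {a : ℝ} (ha : 0 ≤ a)
    (hA : ∀ i ∈ s, E i ⊆ A) (h : ∀ ω, (∑ i ∈ s, if ω ∈ E i then w i else 0) ≤ a) :
    ∑ i ∈ s, w i * pr μ (E i) ≤ a * pr μ A := by
  obtain ⟨S, hS⟩ := common_supp s E hE
  obtain ⟨x⟩ := μ.ne
  set A' : Set (Site → α) := {ω | ∃ i ∈ s, ω ∈ E i} with hA'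
  have hdep : Dep A' S := by
    rintro ω ω' hω ⟨i, hi, h1⟩
    exact ⟨i, hi, hS i hi ω ω' hω h1⟩
  have hsub : A' ⊆ A := by
    rintro ω ⟨i, hi, h1⟩
    exact hA i hi h1
  refine le_trans ?_ (mul_le_mul_of_nonneg_left (pr_mono μ hsub) ha)
  rw [sum_pr_eq μ s w E S hS fun _ => x, pr_eq_sum μ S hdep fun _ => x, Finset.mul_sum]
  refine Finset.sum_le_sum fun η _ => ?_
  have hp : 0 ≤ ∏ i, μ.w (η i) := Finset.prod_nonneg fun i _ => μ.nonneg _
  rw [mul_left_comm]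
  refine mul_le_mul_of_nonneg_left ?_ hp
  by_cases hm : Function.updateFinset (fun _ => x) S η ∈ A'
  · rw [Set.indicator_of_mem hm, mul_one]
    exact h _
  · rw [Set.indicator_of_notMem hm, mul_zero]
    refine le_of_eq (Finset.sum_eq_zero fun i hi => ?_)
    rw [if_neg]
    exact fun h1 => hm ⟨i, hi, h1⟩

private theorem pr_partition {ι : Type} (s : Finset ι) (E : ι → Set (Site → α))
    (hE : ∀ i ∈ s, Loc (E i)) (hd : ∀ i ∈ s, ∀ j ∈ s, ∀ ω, ω ∈ E i → ω ∈ E j → i = j)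
    {A : Set (Site → α)} (hA : ∀ i ∈ s, E i ⊆ A) (hc : ∀ ω ∈ A, ∃ i ∈ s, ω ∈ E i) :
    pr μ A = ∑ i ∈ s, pr μ (E i) := by
  refine le_antisymm (pr_le_sum μ s E hc) ?_
  have := count_le μ s (fun _ => 1) E hE (A := A) (a := 1) zero_le_one hA (by
    intro ω
    rw [Finset.sum_boole]
    have : (s.filter fun i => ω ∈ E i).card ≤ 1 := by
      rw [Finset.card_le_one]
      intro i hi j hj
      rw [Finset.mem_filter] at hi hj
      exact hd i hi.1 j hj.1 ω hi.2 hj.2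
    exact_mod_cast this)
  simpa using this

private theorem stop_decomp {Sg : (Site → α) → Set Site} {Λ : Set Site} (hS : Stop Sg Λ)
    {A E : Set (Site → α)} (hA : ∀ ω ω', (∀ v ∈ Sg ω, ω v = ω' v) → ω ∈ A → ω' ∈ A)
    (hE : Loc E) :
    ∃ T : Finset (Set (Site → α)),
      (∀ C ∈ T, ∃ ω ∈ A, pr μ (C ∩ E) = pr μ C * pr μ {ω' | hyb (Sg ω) ω ω' ∈ E}) ∧
      pr μ (A ∩ E) = ∑ C ∈ T, pr μ (C ∩ E) ∧ pr μ A = ∑ C ∈ T, pr μ C := by
  obtain ⟨hfin, hsub, hstop⟩ := hS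
  obtain ⟨x⟩ := μ.ne
  let atom : (Site → α) → Set (Site → α) := fun ω => {ω' | ∀ v ∈ Sg ω, ω v = ω' v}
  have atom_eq : ∀ ω ω', ω' ∈ atom ω → atom ω' = atom ω := by
    intro ω ω' h
    have h1 : Sg ω' = Sg ω := hstop ω ω' h
    ext z
    simp only [atom, Set.mem_ofPred_eq, h1]
    exact ⟨fun hz v hv => (h v hv).trans (hz v hv), fun hz v hv => (h v hv).symm.trans (hz v hv)⟩
  have atom_dep : ∀ ω, Dep (atom ω) (Sg ω) := fun ω z z' hz h1 v hv => (h1 v hv).trans (hz v hv)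
  have atom_loc : ∀ ω, Loc (atom ω) := fun ω => ⟨Sg ω, hfin.subset (hsub ω), atom_dep ω⟩
  let L : Finset Site := hfin.toFinset
  let up : (L → α) → Site → α := fun η => Function.updateFinset (fun _ => x) L η
  let T : Finset (Set (Site → α)) :=
    (Finset.univ.filter fun η : L → α => up η ∈ A).image fun η => atom (up η)
  have hT : ∀ C ∈ T, ∃ ω ∈ A, C = atom ω := by
    intro C hC
    obtain ⟨η, hη, rfl⟩ := Finset.mem_image.1 hC
    exact ⟨up η, (Finset.mem_filter.1 hη).2, rfl⟩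
  have hcov : ∀ ω ∈ A, ∃ C ∈ T, ω ∈ C := by
    intro ω hω
    have h1 : ∀ v ∈ Λ, ω v = up (fun i => ω i) v := by
      intro v hv
      have : v ∈ L := hfin.mem_toFinset.2 hv
      simp [up, Function.updateFinset, this]
    refine ⟨atom (up fun i => ω i), Finset.mem_image.2 ⟨fun i => ω i, Finset.mem_filter.2
      ⟨Finset.mem_univ _, hA ω _ (fun v hv => h1 v (hsub ω hv)) hω⟩, rfl⟩, ?_⟩
    exact fun v hv => (h1 v (hsub _ hv)).symm
  have hdis : ∀ C ∈ T, ∀ D ∈ T, ∀ ω, ω ∈ C → ω ∈ D → C = D := by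
    intro C hC D hD ω h1 h2
    obtain ⟨a, -, rfl⟩ := hT C hC
    obtain ⟨b, -, rfl⟩ := hT D hD
    rw [← atom_eq a ω h1, atom_eq b ω h2]
  have hloc : ∀ C ∈ T, Loc C := by
    intro C hC
    obtain ⟨a, -, rfl⟩ := hT C hC
    exact atom_loc a
  have hin : ∀ C ∈ T, C ⊆ A := by
    intro C hC
    obtain ⟨a, ha, rfl⟩ := hT C hC
    exact fun z hz => hA a z hz ha
  refine ⟨T, ?_, ?_, ?_⟩
  · intro C hC
    obtain ⟨a, ha, rfl⟩ := hT C hC
    refine ⟨a, ha, ?_⟩
    obtain ⟨U, hU, hEU⟩ := hE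
    have h1 : atom a ∩ E = atom a ∩ {ω' | hyb (Sg a) a ω' ∈ E} := by
      ext z
      have h2 : z ∈ atom a → hyb (Sg a) a z = z := by
        intro hz
        funext v
        by_cases hv : v ∈ Sg a
        · simp only [hyb, if_pos hv]
          exact hz v hv
        · simp only [hyb, if_neg hv]
      simp only [Set.mem_inter_iff, Set.mem_ofPred_eq]
      exact ⟨fun h => ⟨h.1, by rw [h2 h.1]; exact h.2⟩, fun h => ⟨h.1, by rw [← h2 h.1]; exact h.2⟩⟩
    rw [h1]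
    refine pr_inter_indep μ (hfin.subset (hsub a)) (hU.subset (Set.sdiff_subset (t := Sg a)))
      (atom_dep a) ?_ Set.disjoint_sdiff_right
    intro z z' hz h3
    refine hEU _ _ ?_ h3
    intro v hv
    by_cases hv' : v ∈ Sg a
    · simp only [hyb, if_pos hv']
    · simp only [hyb, if_neg hv']
      exact hz v ⟨hv, hv'⟩
  · refine pr_partition μ T (fun C => C ∩ E) (fun C hC => (hloc C hC).inter hE)
      (fun C hC D hD ω h1 h2 => hdis C hC D hD ω h1.1 h2.1)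
      (fun C hC => Set.inter_subset_inter_left E (hin C hC)) ?_
    intro ω hω
    obtain ⟨C, hC, h1⟩ := hcov ω hω.1
    exact ⟨C, hC, h1, hω.2⟩
  · exact pr_partition μ T (fun C => C) hloc hdis hin hcov

private theorem unif_mass_sub (m : ℕ) {A : Set (Fin (m + 1))} (hA : A.Subsingleton) :
    (unif m).mass A ≤ 1 / (m + 1) := by
  rcases hA.eq_empty_or_singleton with rfl | ⟨x, rfl⟩
  · simp only [PW.mass, Set.indicator_empty, Finset.sum_const_zero]
    positivity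
  · unfold PW.mass
    rw [Finset.sum_eq_single x]
    · simp [unif]
    · intro b _ hb
      exact Set.indicator_of_notMem (by simpa using hb) _
    · intro h
      exact absurd (Finset.mem_univ x) h

/-- Spatial Markov property, upper bound. `A` is determined by the labels on the stopping set. -/
theorem pr_stop_le {Sg : (Site → α) → Set Site} {Λ : Set Site} (hS : Stop Sg Λ)
    {A E : Set (Site → α)} (hA : ∀ ω ω', (∀ v ∈ Sg ω, ω v = ω' v) → ω ∈ A → ω' ∈ A) (hE : Loc E)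
    {c : ℝ} (h : ∀ ω ∈ A, pr μ {ω' | hyb (Sg ω) ω ω' ∈ E} ≤ c) :
    pr μ (A ∩ E) ≤ c * pr μ A := by
  obtain ⟨T, h1, h2, h3⟩ := stop_decomp μ hS hA hE
  rw [h2, h3, Finset.mul_sum]
  refine Finset.sum_le_sum fun C hC => ?_
  obtain ⟨ω, hω, h4⟩ := h1 C hC
  rw [h4, mul_comm c]
  exact mul_le_mul_of_nonneg_left (h ω hω) (pr_nonneg μ C)

/-- Spatial Markov property, lower bound. -/
theorem pr_stop_ge {Sg : (Site → α) → Set Site} {Λ : Set Site} (hS : Stop Sg Λ)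
    {A E : Set (Site → α)} (hA : ∀ ω ω', (∀ v ∈ Sg ω, ω v = ω' v) → ω ∈ A → ω' ∈ A) (hE : Loc E)
    {c : ℝ} (h : ∀ ω ∈ A, c ≤ pr μ {ω' | hyb (Sg ω) ω ω' ∈ E}) :
    c * pr μ A ≤ pr μ (A ∩ E) := by
  obtain ⟨T, h1, h2, h3⟩ := stop_decomp μ hS hA hE
  rw [h2, h3, Finset.mul_sum]
  refine Finset.sum_le_sum fun C hC => ?_
  obtain ⟨ω, hω, h4⟩ := h1 C hC
  rw [h4, mul_comm c]
  exact mul_le_mul_of_nonneg_left (h ω hω) (pr_nonneg μ C)

/-- Double counting, lower bound. -/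
theorem pr_count_ge {ι : Type} (s : Finset ι) (w : ι → ℝ) (E : ι → Set (Site → α))
    (hE : ∀ i ∈ s, Loc (E i)) (hw : ∀ i ∈ s, 0 ≤ w i) {A : Set (Site → α)} {a : ℝ}
    (h : ∀ ω ∈ A, a ≤ ∑ i ∈ s, if ω ∈ E i then w i else 0) :
    a * pr μ A ≤ ∑ i ∈ s, w i * pr μ (E i) := by
  exact count_ge μ s w E hE hw h

/-- Double counting, upper bound. -/
theorem pr_count_le {ι : Type} (s : Finset ι) (w : ι → ℝ) (E : ι → Set (Site → α))
    (hE : ∀ i ∈ s, Loc (E i)) (hw : ∀ i ∈ s, 0 ≤ w i) {A : Set (Site → α)} {a : ℝ} (ha : 0 ≤ a)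
    (hA : ∀ i ∈ s, E i ⊆ A) (h : ∀ ω, (∑ i ∈ s, if ω ∈ E i then w i else 0) ≤ a) :
    ∑ i ∈ s, w i * pr μ (E i) ≤ a * pr μ A := by
  have _ := hw
  exact count_le μ s w E hE ha hA h

/-- Markov inequality for the number of events that occur. -/
theorem pr_markov {ι : Type} (s : Finset ι) (E : ι → Set (Site → α)) (hE : ∀ i ∈ s, Loc (E i))
    (k : ℕ) : (k + 1 : ℝ) * pr μ {ω | k < (s.filter fun i => ω ∈ E i).card} ≤
      ∑ i ∈ s, pr μ (E i) := by
  have := count_ge μ s (fun _ => 1) E hE (fun _ _ => zero_le_one)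
    (A := {ω | k < (s.filter fun i => ω ∈ E i).card}) (a := k + 1) (by
      intro ω hω
      rw [Finset.sum_boole]
      exact_mod_cast hω)
  simpa using this

/-- At least half of a family of independent unlikely events occur. -/
theorem pr_many_bad {ι : Type} (s : Finset ι) (E : ι → Set (Site → α)) (S : ι → Set Site)
    (hS : ∀ i ∈ s, (S i).Finite) (hE : ∀ i ∈ s, Dep (E i) (S i))
    (hd : ∀ i ∈ s, ∀ j ∈ s, i ≠ j → Disjoint (S i) (S j)) {δ : ℝ} (h0 : 0 ≤ δ) (h1 : δ ≤ 1)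
    (h : ∀ i ∈ s, pr μ (E i) ≤ δ ^ 2) :
    pr μ {ω | s.card ≤ 2 * (s.filter fun i => ω ∈ E i).card} ≤ (2 * δ) ^ s.card := by
  set k := (s.card + 1) / 2 with hk
  have hb := pr_le_sum μ (s.powersetCard k) (fun T => ⋂ i ∈ T, E i)
    (A := {ω | s.card ≤ 2 * (s.filter fun i => ω ∈ E i).card}) (by
      intro ω hω
      have h2 : k ≤ (s.filter fun i => ω ∈ E i).card := by
        simp only [Set.mem_ofPred_eq] at hω
        omega
      obtain ⟨T, hT, hc⟩ := Finset.exists_subset_card_eq h2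
      refine ⟨T, Finset.mem_powersetCard.2 ⟨hT.trans (Finset.filter_subset _ _), hc⟩, ?_⟩
      simp only [Set.mem_iInter]
      exact fun i hi => (Finset.mem_filter.1 (hT hi)).2)
  refine hb.trans ?_
  have hterm : ∀ T ∈ s.powersetCard k, pr μ (⋂ i ∈ T, E i) ≤ δ ^ s.card := by
    intro T hT
    obtain ⟨hTs, hc⟩ := Finset.mem_powersetCard.1 hT
    rw [pr_biInter_indep μ T E S (fun i hi => hS i (hTs hi)) (fun i hi => hE i (hTs hi))
      (fun i hi j hj => hd i (hTs hi) j (hTs hj))]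
    calc ∏ i ∈ T, pr μ (E i) ≤ ∏ _i ∈ T, δ ^ 2 :=
          Finset.prod_le_prod (fun i _ => pr_nonneg μ _) fun i hi => h i (hTs hi)
      _ = δ ^ (2 * k) := by rw [Finset.prod_const, hc, pow_mul]
      _ ≤ δ ^ s.card := pow_le_pow_of_le_one h0 h1 (by omega)
  refine (Finset.sum_le_card_nsmul _ _ _ hterm).trans ?_
  rw [Finset.card_powersetCard, nsmul_eq_mul, mul_pow]
  refine mul_le_mul_of_nonneg_right ?_ (pow_nonneg h0 _)
  exact_mod_cast Nat.choose_le_two_pow s.card k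

/-- Under uniform labels, a map of the labels on a finite set that is injective on `E` does not
decrease the probability. -/
theorem pr_unif_inj (m : ℕ) (S : Finset Site) (f : Fin (m + 1) → Fin (m + 1))
    {E F : Set (Site → Fin (m + 1))} (hE : Loc E) (hF : Loc F) (D : Set (Fin (m + 1)))
    (hD : ∀ ω ∈ E, ∀ v ∈ S, ω v ∈ D) (hf : Set.InjOn f D)
    (h : ∀ ω ∈ E, (fun v => if v ∈ S then f (ω v) else ω v) ∈ F) :
    pr (unif m) E ≤ pr (unif m) F := by
  obtain ⟨SE, hSE, hdE⟩ := hE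
  obtain ⟨SF, hSF, hdF⟩ := hF
  let U : Finset Site := S ∪ hSE.toFinset ∪ hSF.toFinset
  have hSU : S ⊆ U := fun v hv => by simp [U, hv]
  have hEU : Dep E U := hdE.mono fun v hv => by simp [U, hv]
  have hFU : Dep F U := hdF.mono fun v hv => by simp [U, hv]
  let up : (U → Fin (m + 1)) → Site → Fin (m + 1) := fun η =>
    Function.updateFinset (fun _ => 0) U η
  have key : ∀ G : Set (Site → Fin (m + 1)), Dep G U → pr (unif m) G =
      (1 / (m + 1 : ℝ)) ^ U.card * ((Finset.univ.filter fun η => up η ∈ G).card : ℝ) := by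
    intro G hG
    rw [pr_eq_sum (unif m) U hG fun _ => 0, ← Finset.sum_boole, Finset.mul_sum]
    refine Finset.sum_congr rfl fun η _ => ?_
    have : (∏ i, (unif m).w (η i)) = (1 / (m + 1 : ℝ)) ^ U.card := by simp [unif]
    rw [this]
    by_cases hη : up η ∈ G
    · rw [if_pos hη, Set.indicator_of_mem hη]
    · rw [if_neg hη, Set.indicator_of_notMem hη]
  rw [key E hEU, key F hFU]
  refine mul_le_mul_of_nonneg_left ?_ (by positivity)
  have hup : ∀ (η : U → Fin (m + 1)) (i : U), up η i = η i := by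
    intro η i
    simp [up, Function.updateFinset, i.2]
  have hcard : (Finset.univ.filter fun η => up η ∈ E).card ≤
      (Finset.univ.filter fun η => up η ∈ F).card := by
    refine Finset.card_le_card_of_injOn
      (fun η => fun i : U => if (i : Site) ∈ S then f (η i) else η i) ?_ ?_
    · intro η hη
      have hη' : up η ∈ E := (Finset.mem_filter.1 (Finset.mem_coe.1 hη)).2
      refine Finset.mem_coe.2 (Finset.mem_filter.2 ⟨Finset.mem_univ _, ?_⟩)
      refine hFU _ _ ?_ (h _ hη')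
      intro v hv
      have h1 := hup η ⟨v, hv⟩
      have h2 := hup (fun i : U => if (i : Site) ∈ S then f (η i) else η i) ⟨v, hv⟩
      simp only at h1 h2
      rw [h2, h1]
    · intro η hη η' hη' heq
      have e1 : up η ∈ E := (Finset.mem_filter.1 (Finset.mem_coe.1 hη)).2
      have e2 : up η' ∈ E := (Finset.mem_filter.1 (Finset.mem_coe.1 hη')).2
      funext i
      have h1 := congrFun heq i
      by_cases hi : (i : Site) ∈ S
      · simp only [if_pos hi] at h1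
        refine hf ?_ ?_ h1
        · rw [← hup η i]
          exact hD _ e1 _ hi
        · rw [← hup η' i]
          exact hD _ e2 _ hi
      · simpa only [if_neg hi] using h1
  exact_mod_cast hcard

/-- Two given sites have labels with a given difference. -/
theorem pr_unif_diff (m : ℕ) {u v : Site} (huv : u ≠ v) (k : ℕ) :
    pr (unif m) {ω | (ω u : ℕ) = ω v + k} ≤ 1 / (m + 1) := by
  have hb := pr_le_sum (unif m) Finset.univ
    (fun j : Fin (m + 1) => {ω | ω v ∈ ({j} : Set (Fin (m + 1)))} ∩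
      {ω | ω u ∈ {a : Fin (m + 1) | (a : ℕ) = j + k}})
    (A := {ω | (ω u : ℕ) = ω v + k}) (fun ω hω => ⟨ω v, Finset.mem_univ _, rfl, hω⟩)
  refine hb.trans ?_
  have hterm : ∀ j ∈ (Finset.univ : Finset (Fin (m + 1))),
      pr (unif m) ({ω | ω v ∈ ({j} : Set (Fin (m + 1)))} ∩
        {ω | ω u ∈ {a : Fin (m + 1) | (a : ℕ) = j + k}}) ≤ 1 / (m + 1) * (1 / (m + 1)) := by
    intro j _
    rw [pr_inter_indep (unif m) (S := {v}) (T := {u}) (Set.finite_singleton v)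
      (Set.finite_singleton u) ?_ ?_ (Set.disjoint_singleton.2 huv.symm), pr_site, pr_site]
    · refine mul_le_mul (unif_mass_sub m Set.subsingleton_singleton) (unif_mass_sub m ?_)
        (PW.mass_nonneg _ _) (by positivity)
      intro a ha b hb'
      exact Fin.ext (ha.trans hb'.symm)
    · intro ω ω' h1 h2
      simp only [Set.mem_ofPred_eq] at h2 ⊢
      rw [← h1 v rfl]
      exact h2
    · intro ω ω' h1 h2
      simp only [Set.mem_ofPred_eq] at h2 ⊢
      rw [← h1 u rfl]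
      exact h2
  refine (Finset.sum_le_card_nsmul _ _ _ hterm).trans (le_of_eq ?_)
  rw [Finset.card_univ, Fintype.card_fin, nsmul_eq_mul]
  push_cast
  field_simp

end Pool.Agent.Work.MP_ccd212_pr
end

-- merged part: Pool.Agent.Work.MP_ccd212_pr.Rsw2
section
/-! Smirnov's doubling argument, in Euclidean rectangles `0 ≤ 2x + y ≤ w`, `y1 ≤ y ≤ y2`. -/

namespace Pool.Agent.Work.MP_ccd212_pr

/-- A Euclidean rectangle with two sides on lattice rows. -/
def erect (w y1 y2 : ℤ) : Set Site := {v | y1 ≤ v.2 ∧ v.2 ≤ y2 ∧ 0 ≤ 2 * v.1 + v.2 ∧ 2 * v.1 + v.2 ≤ w}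

/-- Crossing of a Euclidean rectangle between its two rows. -/
def ETB (S : Set Site) (w y1 y2 : ℤ) : Prop :=
  ∃ a b : Site, a.2 = y1 ∧ b.2 = y2 ∧ Conn (S ∩ erect w y1 y2) a b

/-- Connection from the top row to the bottom row or to the lower part of the left side. -/
def EHook (S : Set Site) (w m : ℤ) : Prop :=
  ∃ a b : Site, a.2 = m ∧ (b.2 = -m ∨ (b.2 ≤ 0 ∧ 2 * b.1 + b.2 ≤ 1)) ∧ Conn (S ∩ erect w (-m) m) a b

/-- A Euclidean rectangle with arbitrary abscissae. -/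
def rsw2St (a b y1 y2 : ℤ) : Set Site :=
  {v | y1 ≤ v.2 ∧ v.2 ≤ y2 ∧ a ≤ 2 * v.1 + v.2 ∧ 2 * v.1 + v.2 ≤ b}

theorem rsw2_mem {a b y1 y2 : ℤ} {v : Site} : v ∈ rsw2St a b y1 y2 ↔
    y1 ≤ v.2 ∧ v.2 ≤ y2 ∧ a ≤ 2 * v.1 + v.2 ∧ 2 * v.1 + v.2 ≤ b := Iff.rfl

theorem rsw2_mem_erect {w y1 y2 : ℤ} {v : Site} : v ∈ erect w y1 y2 ↔
    y1 ≤ v.2 ∧ v.2 ≤ y2 ∧ 0 ≤ 2 * v.1 + v.2 ∧ 2 * v.1 + v.2 ≤ w := Iff.rfl

theorem rsw2_finite (w y1 y2 : ℤ) : (erect w y1 y2).Finite :=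
  (rect_finite (-|y2|) (|w| + |y1|) y1 y2).subset fun v hv => by
    rw [rsw2_mem_erect] at hv
    have := le_abs_self y2
    have := abs_nonneg y2
    have := le_abs_self w
    have := abs_nonneg w
    have := neg_abs_le y1
    have := abs_nonneg y1
    rw [mem_rect]
    omega

theorem rsw2_sc (a b y1 y2 : ℤ) : SC (rsw2St a b y1 y2) := by
  have h : rsw2St a b y1 y2 = {v | y1 ≤ v.2 ∧ v.2 ≤ y2 ∧ (fun y => (a + 1 - y) / 2) v.2 ≤ v.1 ∧
      v.1 ≤ (fun y => (b - y) / 2) v.2} := by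
    ext v
    simp only [rsw2_mem, Set.mem_ofPred_eq]
    omega
  rw [h]
  exact sc_strip y1 y2 (fun y => (a + 1 - y) / 2) fun y => (b - y) / 2

theorem rsw2_conn {a b y1 y2 : ℤ} (hab : a < b) {v : Site} (hv : v ∈ rsw2St a b y1 y2) :
    Conn (rsw2St a b y1 y2) ((a + 1 - y1) / 2, y1) v := by
  obtain ⟨x, y⟩ := v
  obtain ⟨h1, h2, h3, h4⟩ := hv
  simp only at h1 h2 h3 h4
  have key : ∀ t, y1 ≤ t → t ≤ y2 →
      Conn (rsw2St a b y1 y2) ((a + 1 - y1) / 2, y1) ((a + 1 - t) / 2, t) := by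
    intro t ht
    induction t, ht using Int.leInduction with
    | base => exact fun h => Conn.refl (by simp only [rsw2_mem]; omega)
    | succ n hn ih =>
      exact fun h => (ih (by omega)).tail (by unfold Adj; dsimp only; omega)
        (by simp only [rsw2_mem]; omega)
  exact (key y h1 h2).trans (conn_hor (by omega) fun t _ _ => by simp only [rsw2_mem]; omega)

theorem rsw2_isConn {a b : ℤ} (hab : a < b) (y1 y2 : ℤ) : IsConn (rsw2St a b y1 y2) :=
  fun _ hu _ hv => (rsw2_conn hab hu).symm.trans (rsw2_conn hab hv)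

/-- The reflection in the row `0`. -/
def rsw2Rho : Aut where
  e := ⟨fun v => (v.1 + v.2, -v.2), fun v => (v.1 + v.2, -v.2), fun v => by simp, fun v => by simp⟩
  adj x y := by
    simp only [Equiv.coe_fn_mk, Adj]; (clear * -; lia)

theorem rsw2Rho_apply (v : Site) : rsw2Rho.e v = (v.1 + v.2, -v.2) := rfl

theorem rsw2Rho_rho (v : Site) : rsw2Rho.e (rsw2Rho.e v) = v := rsw2Rho.e.left_inv v

/-- The data of an explored crossing of the upper part. -/
structure Rsw2Data (w m : ℤ) (V Γ : Set Site) (x : ℤ) : Prop where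
  sub : V ⊆ rsw2St (-2) w 1 m
  row : ∀ v : Site, v.2 = 1 → -2 ≤ 2 * v.1 + v.2 → (v ∈ V ↔ v.1 < x)
  mem : (x, 1) ∈ Γ
  pos : 0 ≤ x
  le : 2 * x + 1 ≤ w
  fr : ∀ u ∈ V, ∀ f, Adj u f → f ∈ rsw2St (-2) (w + 2) 1 m → f ∉ V → f ∈ Γ

/-- The free sites. -/
def rsw2U (V : Set Site) (x : ℤ) : Set Site :=
  {v | 0 ≤ 2 * v.1 + v.2 ∧ (v ∈ V ∨ rsw2Rho.e v ∈ V ∨ (v.2 = 0 ∧ v.1 ≤ x))}

/-- A connection through free sites from the explored crossing to the lower left boundary. -/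
def rsw2Hk (m : ℤ) (V Γ : Set Site) (x : ℤ) (S : Set Site) : Prop :=
  ∃ u p : Site, (∃ g ∈ Γ, Adj u g) ∧ (p.2 = -m ∨ (p.2 ≤ 0 ∧ 2 * p.1 + p.2 ≤ 1)) ∧
    Conn (S ∩ rsw2U V x) u p

section
variable {w m x : ℤ} {V Γ : Set Site}

theorem rsw2U_rho {v : Site} (h : v ∈ rsw2U V x) : rsw2Rho.e v ∈ rsw2U V x := by
  obtain ⟨h0, h⟩ := h
  refine ⟨by simp only [rsw2Rho_apply]; omega, ?_⟩
  rcases h with h | h | h
  · exact Or.inr (Or.inl (by rwa [rsw2Rho_rho]))
  · exact Or.inl h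
  · exact Or.inr (Or.inr (by simp only [rsw2Rho_apply]; omega))

theorem Rsw2Data.sub_erect (h : Rsw2Data w m V Γ x) (hm : 1 ≤ m) : rsw2U V x ⊆ erect w (-m) m := by
  rintro v ⟨h0, hv | hv | hv⟩
  · have := h.sub hv
    rw [rsw2_mem] at this
    rw [rsw2_mem_erect]
    omega
  · have := h.sub hv
    simp only [rsw2_mem, rsw2Rho_apply] at this
    rw [rsw2_mem_erect]
    omega
  · have := h.le
    rw [rsw2_mem_erect]
    omega

theorem Rsw2Data.adj (h : Rsw2Data w m V Γ x) {u f : Site} (hu : u ∈ rsw2U V x) (huf : Adj u f)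
    (h1 : 0 ≤ f.2) (h2 : f.2 ≤ m) (h3 : 0 ≤ 2 * f.1 + f.2) (hf : f ∉ rsw2U V x) :
    ∃ g ∈ Γ, Adj u g := by
  have f1 : f ∉ V := fun hh => hf ⟨h3, Or.inl hh⟩
  have f2 : ¬ (f.2 = 0 ∧ f.1 ≤ x) := fun hh => hf ⟨h3, Or.inr (Or.inr hh)⟩
  obtain ⟨h0, hv | hv | hv⟩ := hu
  · have hs := h.sub hv
    rw [rsw2_mem] at hs
    by_cases hf0 : f.2 = 0
    · have := (h.row u (by unfold Adj at huf; omega) (by omega)).1 hv
      unfold Adj at huf
      omega
    · exact ⟨f, h.fr u hv f huf (by unfold Adj at huf; rw [rsw2_mem]; omega) f1, huf⟩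
  · have hs := h.sub hv
    simp only [rsw2_mem, rsw2Rho_apply] at hs
    have := (h.row _ (by unfold Adj at huf; simp only [rsw2Rho_apply]; omega)
      (by simp only [rsw2Rho_apply]; omega)).1 hv
    simp only [rsw2Rho_apply] at this
    unfold Adj at huf
    omega
  · refine ⟨(x, 1), h.mem, ?_⟩
    by_cases hf0 : f.2 = 0
    · unfold Adj at huf ⊢
      omega
    · have := mt (h.row f (by unfold Adj at huf; omega) (by omega)).2 f1
      unfold Adj at huf ⊢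
      (clear * - f2 h1 hf0 huf hv this; lia)

/-- A connection from `A` to `B` inside `A ∪ B ∪ T` crosses `T`. -/
theorem rsw2_cross {A B T P : Set Site} {a b : Site} (h : Conn P a b) (hP : P ⊆ A ∪ B ∪ T)
    (ha : a ∈ A) (hb : b ∈ B) (hd : ∀ s ∈ A, s ∉ B) (hn : ∀ s ∈ A, ∀ t ∈ B, ¬ Adj s t) :
    ∃ s p u t, s ∈ A ∧ t ∈ B ∧ Adj s p ∧ Adj u t ∧ Conn T p u := by
  obtain ⟨u, t, -, h2, h3, h4, -⟩ := h.first_hit (hd a ha) hb
  obtain ⟨s, p, h5, -, h6, -, h7⟩ := h4.last_exit ha fun hu => hn u hu t h2 h3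
  refine ⟨s, p, u, t, h5, h2, h6, h3, h7.mono ?_⟩
  rintro v ⟨⟨hv1, hv2⟩, hv3⟩
  rcases hP hv1 with (hv | hv) | hv
  exacts [absurd hv hv3, absurd hv hv2, hv]

theorem Rsw2Data.hex_or (h : Rsw2Data w m V Γ x) (hm : 1 ≤ m) (S : Set Site) :
    rsw2Hk m V Γ x S ∨ rsw2Hk m V Γ x (rsw2Rho.e ⁻¹' Sᶜ) := by
  have hx := h.pos
  have hw := h.le
  have hU := fun v (hv : v ∈ rsw2U V x) => rsw2_mem_erect.1 (h.sub_erect hm hv)
  have h00 : ∀ v : Site, v.1 = 0 → v.2 = 0 → v ∈ rsw2U V x := fun v h1 h2 =>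
    ⟨by omega, Or.inr (Or.inr ⟨h2, by omega⟩)⟩
  let Lb : Set Site := {v | (v.2 ≤ 0 ∧ 2 * v.1 + v.2 < 0) ∨ (v.2 < -m ∧ 2 * v.1 + v.2 ≤ w + 1)}
  let Rb : Set Site := {v | (0 ≤ v.2 ∧ v.2 ≤ m ∧ 0 ≤ 2 * v.1 + v.2) ∧ v ∉ rsw2U V x}
  let Tw : Set Site := {v | m < v.2 ∨ (1 ≤ v.2 ∧ 2 * v.1 + v.2 < 0)}
  let Bw : Set Site := {v | ((-m ≤ v.2 ∧ v.2 < 0 ∧ 0 ≤ 2 * v.1 + v.2) ∧ v ∉ rsw2U V x) ∨
    (v.2 < -m ∧ w + 1 < 2 * v.1 + v.2)}
  rcases hex (Lb ∪ Rb ∪ S ∩ rsw2U V x) (x1 := -m - 2) (x2 := w + m + 2) (y1 := -m - 1)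
    (y2 := m + 1) (by omega) (by omega) with ⟨a, b, ha, hb, hc⟩ | ⟨a, b, ha, hb, hc⟩
  · left
    have ha' : a ∈ Lb := by
      obtain ⟨h1, h2⟩ := hc.left_mem
      rw [mem_rect] at h2
      rcases h1 with (h1 | h1) | h1
      · exact h1
      · have := h1.1; omega
      · have := hU a h1.2; omega
    have hb' : b ∈ Rb := by
      obtain ⟨h1, h2⟩ := hc.right_mem
      rw [mem_rect] at h2
      rcases h1 with (h1 | h1) | h1
      · simp only [Lb, Set.mem_ofPred_eq] at h1; omega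
      · exact h1
      · have := hU b h1.2; omega
    obtain ⟨s, p, u, t, h1, h2, h3, h4, h5⟩ := rsw2_cross hc Set.inter_subset_left ha' hb'
      (fun s hs hs' => by have := hs'.1; simp only [Lb, Set.mem_ofPred_eq] at hs; omega)
      fun s hs t ht hst => by
        have := ht.1
        simp only [Lb, Set.mem_ofPred_eq] at hs
        unfold Adj at hst
        exact ht.2 (h00 t (by omega) (by omega))
    refine ⟨u, p, h.adj h5.right_mem.2 h4 h2.1.1 h2.1.2.1 h2.1.2.2 h2.2, ?_, h5.symm⟩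
    have := hU p h5.left_mem.2
    simp only [Lb, Set.mem_ofPred_eq] at h1
    unfold Adj at h3
    omega
  · right
    have hP : (Lb ∪ Rb ∪ S ∩ rsw2U V x)ᶜ ∩ rect (-m - 2) (w + m + 2) (-m - 1) (m + 1) ⊆
        Bw ∪ Tw ∪ Sᶜ ∩ rsw2U V x := by
      rintro v ⟨hv, -⟩
      by_cases hvU : v ∈ rsw2U V x
      · exact Or.inr ⟨fun hS => hv (Or.inr ⟨hS, hvU⟩), hvU⟩
      · have h1 : v ∉ Lb := fun hh => hv (Or.inl (Or.inl hh))
        have h2 : ¬ (0 ≤ v.2 ∧ v.2 ≤ m ∧ 0 ≤ 2 * v.1 + v.2) := fun hh =>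
          hv (Or.inl (Or.inr ⟨hh, hvU⟩))
        simp only [Lb, Set.mem_ofPred_eq] at h1
        by_cases h3 : -m ≤ v.2 ∧ v.2 < 0 ∧ 0 ≤ 2 * v.1 + v.2
        · exact Or.inl (Or.inl (Or.inl ⟨h3, hvU⟩))
        · by_cases h4 : v.2 < -m ∧ w + 1 < 2 * v.1 + v.2
          · exact Or.inl (Or.inl (Or.inr h4))
          · exact Or.inl (Or.inr (show _ ∨ _ by omega))
    have hB : ∀ s ∈ Bw, s.2 < 0 := by
      rintro s (hs | hs)
      · exact hs.1.2.1
      · omega
    have hT : ∀ s ∈ Tw, 1 ≤ s.2 := by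
      rintro s (hs | hs) <;> omega
    have ha' : a ∈ Bw := by
      rcases hP hc.left_mem with (h1 | h1) | h1
      · exact h1
      · have := hT a h1; omega
      · have := hU a h1.2; omega
    obtain ⟨s, u, p, t, h1, h2, h3, h4, h5⟩ := rsw2_cross hc hP ha' (Or.inl (by omega))
      (fun s hs hs' => by have := hB s hs; have := hT s hs'; omega)
      fun s hs t ht hst => by
        have := hB s hs
        have := hT t ht
        unfold Adj at hst
        omega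
    have hu := hU u h5.left_mem.2
    have hp := hU p h5.right_mem.2
    refine ⟨rsw2Rho.e u, rsw2Rho.e p, ?_, ?_, ?_⟩
    · rcases h1 with h1 | h1
      · have := h1.1
        refine h.adj (rsw2U_rho h5.left_mem.2) ((rsw2Rho.adj _ _).2 h3.symm) ?_ ?_ ?_ fun hh =>
          h1.2 (by simpa only [rsw2Rho_rho] using rsw2U_rho hh)
        all_goals simp only [rsw2Rho_apply]; omega
      · unfold Adj at h3
        omega
    · simp only [Tw, Set.mem_ofPred_eq] at h2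
      simp only [rsw2Rho_apply]
      unfold Adj at h4
      omega
    · refine Conn.map rsw2Rho (h5.mono fun v hv => ⟨?_, rsw2U_rho hv.2⟩)
      simpa only [Set.mem_preimage, rsw2Rho_rho] using hv.1

theorem Rsw2Data.half (h : Rsw2Data w m V Γ x) (hm : 1 ≤ m) :
    1 / 2 ≤ pr (ber (1 / 2)) (ev true (rsw2Hk m V Γ x)) := by
  have hs : Sup (fun S => rsw2Hk m V Γ x (rsw2Rho.e ⁻¹' S)) (rsw2U V x) := by
    rintro S S' hS ⟨u, p, h1, h2, h3⟩
    exact ⟨u, p, h1, h2, h3.congr_sup fun v hv => hS _ (rsw2U_rho hv)⟩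
  have h1 := pr_ev_flip (p := 1 / 2) (by norm_num) (by norm_num) true
    ((rsw2_finite w (-m) m).subset (h.sub_erect hm)) hs
  rw [pr_ev_aut, show (1 - 1 / 2 : ℝ) = 1 / 2 by norm_num] at h1
  have h2 := pr_union_le (ber (1 / 2)) (ev true (rsw2Hk m V Γ x))
    (ev (!true) fun S => rsw2Hk m V Γ x (rsw2Rho.e ⁻¹' S))
  have h3 : ev true (rsw2Hk m V Γ x) ∪
      (ev (!true) fun S => rsw2Hk m V Γ x (rsw2Rho.e ⁻¹' S)) = Set.univ :=
    Set.eq_univ_of_forall fun ω => by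
      rw [Set.mem_union, mem_ev, mem_ev, Col_not]
      exact h.hex_or hm _
  rw [h3, pr_univ, ← h1] at h2
  linarith only [h2]

end

/-- The right virtual column together with the closed clusters attached to it. -/
def rsw2K (w m : ℤ) (S : Set Site) : Set Site :=
  {v | Conn (rsw2St (w + 1) (w + 2) 1 m ∪ Sᶜ ∩ erect w 1 m) ((w + 1 + 1 - 1) / 2, 1) v}

/-- The explored set. -/
def rsw2S (w m : ℤ) (S : Set Site) : Set Site :=
  rsw2K w m S ∪ {v | v ∈ erect w 1 m ∧ ∃ u ∈ rsw2K w m S, Adj u v}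

section
variable {w m : ℤ} {S : Set Site}

theorem rsw2K_of_col {v : Site} (h : v ∈ rsw2St (w + 1) (w + 2) 1 m) : v ∈ rsw2K w m S :=
  (rsw2_conn (by omega) h).mono Set.subset_union_left

theorem rsw2S_sub (hw : 2 ≤ w) : rsw2S w m S ⊆ rsw2St 0 (w + 2) 1 m := by
  rintro v (hv | hv)
  · rcases Conn.right_mem hv with h | h
    · rw [rsw2_mem] at h ⊢; omega
    · have := rsw2_mem_erect.1 h.2
      rw [rsw2_mem]; omega
  · have := rsw2_mem_erect.1 hv.1
    rw [rsw2_mem]; omega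

theorem rsw2S_conn {v : Site} (h : v ∈ rsw2S w m S) :
    Conn (rsw2S w m S) ((w + 1 + 1 - 1) / 2, 1) v := by
  rcases h with h | ⟨h1, u, hu, h2⟩
  · exact (Conn.cluster h).mono Set.subset_union_left
  · exact ((Conn.cluster hu).mono Set.subset_union_left).tail h2 (Or.inr ⟨h1, u, hu, h2⟩)

theorem rsw2K_congr {S' : Set Site}
    (h : ∀ v ∈ rsw2S w m S ∩ erect w 1 m, (v ∈ S ↔ v ∈ S')) : rsw2K w m S' = rsw2K w m S := by
  ext v
  constructor
  · intro hv
    refine Conn.ind (P := fun v => v ∈ rsw2K w m S) hv ?_ ?_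
    · rcases Conn.left_mem hv with h1 | h1
      · exact rsw2K_of_col h1
      · have := rsw2_mem_erect.1 h1.2
        simp only at this
        omega
    · rintro a b - (hb | hb) hab ha
      · exact rsw2K_of_col hb
      · exact Conn.tail ha hab (Or.inr ⟨fun hS =>
          hb.1 ((h b ⟨Or.inr ⟨hb.2, a, ha, hab⟩, hb.2⟩).1 hS), hb.2⟩)
  · intro hv
    refine (Conn.inter_of (T := rsw2K w m S) hv fun _ hu => hu).mono ?_
    rintro u ⟨hu | hu, hK⟩
    · exact Or.inl hu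
    · exact Or.inr ⟨fun hS => hu.1 ((h u ⟨Or.inl hK, hu.2⟩).2 hS), hu.2⟩

theorem rsw2_no_touch (hw : 2 ≤ w) (h : ETB S w 1 m) {u l : Site} (hu : u ∈ rsw2K w m S)
    (hl : l ∈ rsw2St (-2) (-1) 1 m) : ¬ Adj l u := by
  intro hlu
  obtain ⟨a, b, ha, hb, hc⟩ := h
  obtain ⟨lx, ly⟩ := l
  simp only [rsw2_mem] at hl
  have hout : ∀ v : Site, v ∈ rect (-m - 2) (w + 2) 1 m →
      (2 * v.1 + v.2 < 0 ∨ w < 2 * v.1 + v.2) →
      v ∈ rect (-m - 2) (w + 2) 1 m \ (S ∩ erect w 1 m) := fun v h1 h2 =>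
    ⟨h1, fun h3 => by have := rsw2_mem_erect.1 h3.2; omega⟩
  have c1 : Conn (rect (-m - 2) (w + 2) 1 m \ (S ∩ erect w 1 m)) (-m - 2, ly) (lx, ly) :=
    conn_hor (by omega) fun t _ _ => hout _ (by simp only [mem_rect]; omega) (by simp only; omega)
  have c2 : Conn (rect (-m - 2) (w + 2) 1 m \ (S ∩ erect w 1 m)) ((w + 1 + 1 - 1) / 2, 1) u := by
    refine Conn.mono ?_ hu
    rintro v (hv | hv)
    · rw [rsw2_mem] at hv
      exact hout v (by rw [mem_rect]; omega) (by omega)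
    · have := rsw2_mem_erect.1 hv.2
      exact ⟨by rw [mem_rect]; omega, fun h3 => hv.1 h3.1⟩
  have c3 : Conn (rect (-m - 2) (w + 2) 1 m \ (S ∩ erect w 1 m)) ((w + 1 + 1 - 1) / 2, 1)
      (w + 2, 1) :=
    conn_hor (by omega) fun t _ _ => hout _ (by simp only [mem_rect]; omega) (by simp only; omega)
  obtain ⟨v, h1, h2⟩ := LR_TB_meet (x1 := -m - 2) (x2 := w + 2) (y1 := 1) (y2 := m)
    Set.sdiff_subset (fun v hv => by have := rsw2_mem_erect.1 hv.2; rw [mem_rect]; omega)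
    ((c1.tail hlu c2.right_mem).trans (c2.symm.trans c3)) rfl rfl hc ha hb
  exact h1.right_mem.2 h2.right_mem

/-- The visible part. -/
abbrev rsw2V (w m : ℤ) (S : Set Site) : Set Site :=
  Vis (rsw2St (-2) (w + 2) 1 m) (rsw2S w m S) (rsw2St (-2) (-1) 1 m)

/-- The explored crossing. -/
abbrev rsw2G (w m : ℤ) (S : Set Site) : Set Site :=
  Front (rsw2St (-2) (w + 2) 1 m) (rsw2S w m S) (rsw2St (-2) (-1) 1 m)

theorem rsw2_left (hw : 2 ≤ w) :
    rsw2St (-2) (-1) 1 m ⊆ rsw2St (-2) (w + 2) 1 m \ rsw2S w m S := fun v hv =>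
  ⟨by rw [rsw2_mem] at hv ⊢; omega, fun h => by
    have := rsw2_mem.1 (rsw2S_sub hw h)
    rw [rsw2_mem] at hv
    omega⟩

theorem rsw2G_conn (hw : 2 ≤ w) (hm : 1 ≤ m) : IsConn (rsw2G w m S) :=
  isConn_front (rsw2_sc _ _ _ _) (rsw2_isConn (by omega) _ _)
    (fun v hv => by have := rsw2_mem.1 (rsw2S_sub hw hv); rw [rsw2_mem]; omega)
    (fun _ hu _ hv => (rsw2S_conn hu).symm.trans (rsw2S_conn hv))
    ⟨((w + 1 + 1 - 1) / 2, 1), Or.inl (rsw2K_of_col (by simp only [rsw2_mem]; omega))⟩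
    (rsw2_left hw) (rsw2_isConn (by omega) _ _)

theorem rsw2G_sub (hw : 2 ≤ w) (h : ETB S w 1 m) :
    rsw2G w m S ⊆ S ∩ (rsw2S w m S ∩ erect w 1 m) := by
  rintro g ⟨hg, u, ⟨t, -, hu⟩, hgu⟩
  have hK : g ∉ rsw2K w m S := fun hK => by
    obtain ⟨h1, h2⟩ := hu.right_mem
    rw [rsw2_mem] at h1
    by_cases h3 : 2 * u.1 + u.2 < 0
    · exact rsw2_no_touch hw h hK (by rw [rsw2_mem]; omega) hgu.symm
    · by_cases h4 : w < 2 * u.1 + u.2
      · exact h2 (Or.inl (rsw2K_of_col (by rw [rsw2_mem]; omega)))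
      · exact h2 (Or.inr ⟨by rw [rsw2_mem_erect]; omega, g, hK, hgu⟩)
  obtain ⟨h1, k, hk, h2⟩ := hg.resolve_left hK
  refine ⟨?_, hg, h1⟩
  by_contra hS
  exact hK (Conn.tail hk h2 (Or.inr ⟨hS, h1⟩))

theorem rsw2G_row (hw : 2 ≤ w) {y : ℤ} (h1 : 1 ≤ y) (h2 : y ≤ m) : ∃ x, (x, y) ∈ rsw2G w m S ∧
    ∀ v : Site, v.2 = y → -2 ≤ 2 * v.1 + v.2 → v.1 < x → v ∈ rsw2V w m S := by
  obtain ⟨x, hx, hmin⟩ := Int.exists_least_of_bdd (P := fun x => (x, y) ∈ rsw2S w m S)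
    ⟨-m, fun t ht => by have := rsw2_mem.1 (rsw2S_sub hw ht); simp only at this; omega⟩
    ⟨(w + 1 + 1 - y) / 2, Or.inl (rsw2K_of_col (by simp only [rsw2_mem]; omega))⟩
  have hx' := rsw2_mem.1 (rsw2S_sub hw hx)
  simp only at hx'
  have key : ∀ v : Site, v.2 = y → -2 ≤ 2 * v.1 + v.2 → v.1 < x → v ∈ rsw2V w m S := by
    rintro ⟨a, b⟩ rfl h3 h4
    simp only at h1 h2 h3 h4 hx' hmin
    refine ⟨((-2 + 1 - b) / 2, b), by simp only [rsw2_mem]; omega,
      conn_hor (by omega) fun t _ _ => ⟨by simp only [rsw2_mem]; omega, fun ht => ?_⟩⟩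
    have := hmin t ht
    omega
  exact ⟨x, ⟨hx, (x - 1, y), key _ rfl (by simp only; omega) (by simp only; omega),
    by simp [Adj]⟩, key⟩

theorem rsw2_data (hw : 2 ≤ w) (hm : 1 ≤ m) (h : ETB S w 1 m) :
    ∃ x, Rsw2Data w m (rsw2V w m S) (rsw2G w m S) x := by
  obtain ⟨x, hx, key⟩ := rsw2G_row (S := S) hw le_rfl hm
  have hx' := rsw2_mem_erect.1 (rsw2G_sub hw h hx).2.2
  simp only at hx'
  have hsub : rsw2V w m S ⊆ rsw2St (-2) w 1 m := by
    rintro v ⟨t, -, hv⟩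
    obtain ⟨h1, h2⟩ := hv.right_mem
    rw [rsw2_mem] at h1 ⊢
    by_contra hc
    exact h2 (Or.inl (rsw2K_of_col (by rw [rsw2_mem]; omega)))
  refine ⟨x, hsub, fun v h1 h2 => ⟨fun hv => ?_, key v h1 h2⟩, hx, by omega, by omega, ?_⟩
  · by_contra hc
    have hv' := rsw2_mem.1 (hsub hv)
    obtain ⟨t, ht, hv⟩ := hv
    have hne : v.1 ≠ x := fun he => hv.right_mem.2 (by
      rw [show v = (x, 1) from Prod.ext he h1]; exact hx.1)
    obtain ⟨s, h3, h4⟩ := meet_of_row (y := 1) (fun v hv => hv.1.1)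
      (fun v hv => (rsw2S_sub hw hv).1) rfl rfl h1 rfl (by simp only; omega) (by simp only; omega)
      (by simp only; omega) (((rsw2_conn (by omega) ht).mono (rsw2_left hw)).trans hv)
      (rsw2S_conn hx.1).symm
    exact h3.right_mem.2 h4.right_mem
  · rintro u ⟨t, ht, hu⟩ f huf hf hfV
    refine ⟨?_, u, ⟨t, ht, hu⟩, huf.symm⟩
    by_contra hS
    exact hfV ⟨t, ht, hu.tail huf ⟨hf, hS⟩⟩

end

/-- The reflection argument. -/
theorem hook_ge {w m : ℤ} (hw : 2 ≤ w) (hm : 1 ≤ m) :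
    pr (ber (1 / 2)) (ev true fun S => ETB S w 1 m) / 2 ≤
      pr (ber (1 / 2)) (ev true fun S => EHook S w m) := by
  let Sg : (Site → Bool) → Set Site := fun ω => rsw2S w m (Col ω true) ∩ erect w 1 m
  have hS : Stop Sg (erect w 1 m) := by
    refine ⟨rsw2_finite _ _ _, fun ω => Set.inter_subset_right, fun ω ω' h => ?_⟩
    simp only [Sg, rsw2S]
    rw [rsw2K_congr (S := Col ω true) (S' := Col ω' true) fun v hv => by simp [h v hv]]
  have hE : Loc (ev true fun S => EHook S w m) := by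
    refine Sup.loc (Z := erect w (-m) m) ?_ (rsw2_finite _ _ _) true
    rintro S S' hS ⟨a, b, h1, h2, h3⟩
    exact ⟨a, b, h1, h2, h3.congr_sup hS⟩
  have key := pr_stop_ge (ber (1 / 2)) hS (A := ev true fun S => ETB S w 1 m) ?_ hE
    (c := 1 / 2) ?_
  · have := pr_mono (ber (1 / 2)) (Set.inter_subset_right (s := ev true fun S => ETB S w 1 m)
      (t := ev true fun S => EHook S w m))
    linarith only [key, this]
  · intro ω ω' h hω
    obtain ⟨x, hx, -⟩ := rsw2G_row (S := Col ω true) hw le_rfl hm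
    obtain ⟨x', hx', -⟩ := rsw2G_row (S := Col ω true) hw hm le_rfl
    refine ⟨(x, 1), (x', m), rfl, rfl, (rsw2G_conn hw hm _ hx _ hx').mono fun v hv => ?_⟩
    obtain ⟨h1, h2⟩ := rsw2G_sub hw hω hv
    exact ⟨(h v h2).symm.trans h1, h2.2⟩
  · intro ω hω
    obtain ⟨x, hx⟩ := rsw2_data hw hm hω
    obtain ⟨x', hx', -⟩ := rsw2G_row (S := Col ω true) hw hm le_rfl
    refine (hx.half hm).trans (pr_mono _ ?_)
    rintro ω' ⟨u, p, ⟨g, hg, hug⟩, hp, hc⟩
    have c1 : Conn (Col (hyb (Sg ω) ω ω') true ∩ erect w (-m) m) (x', m) g := by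
      refine (rsw2G_conn hw hm _ hx' _ hg).mono fun v hv => ?_
      obtain ⟨h1, h2⟩ := rsw2G_sub hw hω hv
      have h3 := rsw2_mem_erect.1 h2.2
      exact ⟨(if_pos h2).trans h1, by rw [rsw2_mem_erect]; omega⟩
    have c2 : Conn (Col (hyb (Sg ω) ω ω') true ∩ erect w (-m) m) u p := by
      refine hc.mono fun v hv => ⟨(if_neg fun h2 => ?_).trans hv.1, hx.sub_erect hm hv.2⟩
      have h3 := rsw2_mem_erect.1 h2.2
      rcases hv.2.2 with ⟨t, -, h4⟩ | h4 | h4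
      · exact h4.right_mem.2 h2.1
      · have := hx.sub h4
        simp only [rsw2_mem, rsw2Rho_apply] at this
        omega
      · omega
    exact ⟨(x', m), p, rfl, hp, (c1.tail hug.symm c2.left_mem).trans c2⟩

end Pool.Agent.Work.MP_ccd212_pr
end
end

-- merged part: Pool.Agent.Work.MP_ccd212_pr.Piv
section
-- merged part: Pool.Agent.Work.MP_ccd212_pr.Pr3
section
/-! Russo's formula, in integrated form. -/

namespace Pool.Agent.Work.MP_ccd212_pr

/-- `v` is pivotal for `Φ` in the set `S`. -/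
def Pivot (Φ : Set Site → Prop) (v : Site) (S : Set Site) : Prop :=
  Φ (S ∪ {v}) ∧ ¬ Φ (S \ {v})

private theorem flip_sum {ι : Type} [Fintype ι] [DecidableEq ι] (v : ι) (A B : (ι → Bool) → ℝ)
    (h : ∀ η : ι → Bool, A (Function.update η v true) + A (Function.update η v false) =
      B (Function.update η v true) + B (Function.update η v false)) : ∑ η, A η = ∑ η, B η := by
  have hi : Function.Involutive fun η : ι → Bool => Function.update η v (!η v) := fun η => by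
    simp
  have e : ∀ C : (ι → Bool) → ℝ, ∑ η : ι → Bool,
      (C (Function.update η v true) + C (Function.update η v false)) = 2 * ∑ η, C η := fun C => by
    rw [two_mul]
    nth_rewrite 2 [← Equiv.sum_comp hi.toPerm C]
    rw [← Finset.sum_add_distrib]
    refine Finset.sum_congr rfl fun η _ => ?_
    rw [Function.Involutive.coe_toPerm]
    cases hv : η v
    · rw [add_comm]
      simp only [Bool.not_false]
      rw [← hv, Function.update_eq_self]
    · simp only [Bool.not_true]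
      rw [← hv, Function.update_eq_self]
  have := Finset.sum_congr (rfl : (Finset.univ : Finset (ι → Bool)) = _) fun η _ => h η
  rw [e, e] at this
  linarith

private theorem russo_deriv {ι : Type} [Fintype ι] [DecidableEq ι] (g : (ι → Bool) → ℝ) (p : ℝ) :
    HasDerivAt (fun q : ℝ => ∑ η : ι → Bool, (∏ i, if η i then q else 1 - q) * g η)
      (∑ v, ∑ η : ι → Bool, (∏ i, if η i then p else 1 - p) *
        (g (Function.update η v true) - g (Function.update η v false))) p := by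
  have d : ∀ b : Bool, HasDerivAt (fun q : ℝ => if b then q else 1 - q) (if b then 1 else -1) p :=
    fun b => by
      cases b
      · simpa using (hasDerivAt_id' p).const_sub 1
      · simpa using hasDerivAt_id' p
  refine (HasDerivAt.fun_sum fun (η : ι → Bool) _ =>
    (HasDerivAt.fun_finsetProd (u := Finset.univ) fun i _ => d (η i)).mul_const (g η)).congr_deriv ?_
  simp only [Finset.sum_mul]
  rw [Finset.sum_comm]
  refine Finset.sum_congr rfl fun v _ => flip_sum v _ _ fun η => ?_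
  have e : ∀ b : Bool, (∏ j ∈ Finset.univ.erase v,
      if Function.update η v b j then p else 1 - p) =
      ∏ j ∈ Finset.univ.erase v, if η j then p else 1 - p := fun b =>
    Finset.prod_congr rfl fun j hj => by rw [Function.update_of_ne (Finset.ne_of_mem_erase hj)]
  simp only [← Finset.mul_prod_erase _ _ (Finset.mem_univ v), e, Function.update_self,
    Function.update_idem, smul_eq_mul, if_true, Bool.false_eq_true, if_false]
  ring

theorem russo_le {Φ : Set Site → Prop} {Z : Set Site} (hZ : Z.Finite) (sΦ : Sup Φ Z) (iΦ : Inc Φ)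
    (F : Finset Site) {p1 p2 a : ℝ} (h0 : 0 ≤ p1) (h12 : p1 ≤ p2) (h1 : p2 ≤ 1)
    (h : ∀ p, p1 ≤ p → p ≤ p2 → a ≤ ∑ v ∈ F, pr (ber p) (ev true (Pivot Φ v))) :
    a * (p2 - p1) ≤ 1 := by
  classical
  set S : Finset Site := hZ.toFinset ∪ F with hS
  have hZS : Z ⊆ S := fun v hv => by simp [hS, hv]
  set ω0 : Site → Bool := fun _ => false
  set g : (S → Bool) → ℝ := fun η =>
    Set.indicator (ev true Φ) (fun _ => (1 : ℝ)) (Function.updateFinset ω0 S η) with hg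
  have hw : ∀ p, 0 ≤ p → p ≤ 1 → ∀ b, (ber p).w b = if b then p else 1 - p := fun p a b c => by
    cases c
    · simpa using ber_false a b
    · simpa using ber_true a b
  have hf : ∀ p, 0 ≤ p → p ≤ 1 → pr (ber p) (ev true Φ) =
      ∑ η : S → Bool, (∏ i, if η i then p else 1 - p) * g η := fun p a b => by
    rw [pr_eq_sum _ S ((sΦ.mono hZS).dep true) ω0]
    simp only [hw p a b, hg]
  have hpiv : ∀ p, 0 ≤ p → p ≤ 1 → ∀ v : S, pr (ber p) (ev true (Pivot Φ v)) =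
      ∑ η : S → Bool, (∏ i, if η i then p else 1 - p) *
        (g (Function.update η v true) - g (Function.update η v false)) := fun p a b v => by
    have s1 : Sup (Pivot Φ v) S := fun A B hAB hA =>
      ⟨sΦ _ _ (fun u hu => by simp [hAB u (hZS hu)]) hA.1,
        fun hB => hA.2 (sΦ _ _ (fun u hu => by simp [hAB u (hZS hu)]) hB)⟩
    rw [pr_eq_sum _ S (s1.dep true) ω0]
    simp only [hw p a b]
    refine Finset.sum_congr rfl fun η _ => ?_
    congr 1
    have c1 : Col (Function.updateFinset ω0 S (Function.update η v true)) true =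
        Col (Function.updateFinset ω0 S η) true ∪ {(v : Site)} := by
      ext u
      by_cases hu : u ∈ S
      · by_cases huv : u = v
        · subst huv
          simp [Function.updateFinset]
        · have : (⟨u, hu⟩ : S) ≠ v := fun e => huv (congrArg Subtype.val e)
          simp [Function.updateFinset, hu, huv, Function.update_of_ne this]
      · have huv : u ≠ v := fun e => hu (e ▸ v.2)
        simp [Function.updateFinset, hu, huv]
    have c2 : Col (Function.updateFinset ω0 S (Function.update η v false)) true =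
        Col (Function.updateFinset ω0 S η) true \ {(v : Site)} := by
      ext u
      by_cases hu : u ∈ S
      · by_cases huv : u = v
        · subst huv
          simp [Function.updateFinset]
        · have : (⟨u, hu⟩ : S) ≠ v := fun e => huv (congrArg Subtype.val e)
          simp [Function.updateFinset, hu, huv, Function.update_of_ne this]
      · have huv : u ≠ v := fun e => hu (e ▸ v.2)
        simp [Function.updateFinset, hu, huv]
    simp only [hg, Set.indicator_apply, mem_ev, c1, c2, Pivot]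
    have hi := iΦ (Col (Function.updateFinset ω0 S η) true \ {(v : Site)})
      (Col (Function.updateFinset ω0 S η) true ∪ {(v : Site)})
      (Set.sdiff_subset.trans Set.subset_union_left)
    by_cases x : Φ (Col (Function.updateFinset ω0 S η) true \ {(v : Site)})
    · simp only [x, hi x, not_true, and_false, if_true, if_false, sub_self]
    · simp only [x, not_false_iff, and_true, if_false, sub_zero]
  have key := (convex_Icc p1 p2).mul_sub_le_image_sub_of_le_deriv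
    (f := fun q : ℝ => ∑ η : S → Bool, (∏ i, if η i then q else 1 - q) * g η)
    (fun q _ => (russo_deriv g q).continuousAt.continuousWithinAt)
    (fun q _ => (russo_deriv g q).differentiableAt.differentiableWithinAt) (C := a)
    (fun q hq => by
      obtain ⟨q1, q2⟩ := interior_subset hq
      rw [(russo_deriv g q).deriv,
        ← Finset.sum_congr rfl fun v _ => hpiv q (h0.trans q1) (q2.trans h1) v,
        Finset.sum_coe_sort S fun v => pr (ber q) (ev true (Pivot Φ v))]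
      exact (h q q1 q2).trans (Finset.sum_le_sum_of_subset_of_nonneg Finset.subset_union_right
        fun v _ _ => pr_nonneg _ _))
    p1 (Set.left_mem_Icc.2 h12) p2 (Set.right_mem_Icc.2 h12) h12
  rw [← hf p1 h0 (h12.trans h1), ← hf p2 (h0.trans h12) h1] at key
  linarith [pr_le_one (ber p2) (ev true Φ), pr_nonneg (ber p1) (ev true Φ)]

end Pool.Agent.Work.MP_ccd212_pr
end

-- merged part: Pool.Agent.Work.MP_ccd212_pr.Top6
section
/-! Pivotal sites and boxes have four arms. -/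

namespace Pool.Agent.Work.MP_ccd212_pr

variable {x1 x2 y1 y2 : ℤ}

/-- A connection between two points outside a box avoids the box or gives two arms from it. -/
private theorem split_box {Y : Set Site} {c a b : Site} {r : ℕ} (h : Conn Y a b)
    (ha : r ≤ dst c a) (hb : r ≤ dst c b) :
    Conn (Y ∩ {v | r ≤ dst c v}) a b ∨ ∃ e e', InnerB c r e ∧ InnerB c r e' ∧
      Conn (Y ∩ {v | r ≤ dst c v}) e a ∧ Conn (Y ∩ {v | r ≤ dst c v}) e' b := by
  have key : ∀ x t, r ≤ dst c x → dst c t < r → Conn Y x t →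
      ∃ e, InnerB c r e ∧ Conn (Y ∩ {v | r ≤ dst c v}) e x := by
    intro x t hx ht hc
    obtain ⟨u, t', h1, h2, h3, h4, -⟩ := hc.first_hit (T := {v | dst c v < r})
      (show ¬ dst c x < r by omega) ht
    have h1' : ¬ dst c u < r := h1
    have h2' : dst c t' < r := h2
    have h5 := h3.symm.dst_le c
    refine ⟨u, ⟨by omega, t', h3, h2'⟩, h4.symm.mono fun v hv => ⟨hv.1, ?_⟩⟩
    exact not_lt.1 (show ¬ dst c v < r from hv.2)
  by_cases hex : ∃ t, dst c t < r ∧ Conn Y a t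
  · obtain ⟨t, ht, hc⟩ := hex
    obtain ⟨e, h1, h2⟩ := key a t ha ht hc
    obtain ⟨e', h3, h4⟩ := key b t hb ht (h.symm.trans hc)
    exact Or.inr ⟨e, e', h1, h3, h2, h4⟩
  · exact Or.inl (h.inter_of fun v hv => not_lt.1 fun hlt => hex ⟨v, hlt, hv⟩)

private theorem alt_sides (hx : x1 < x2) (hy : y1 < y2) {a b c d : Site}
    (ha : a ∈ rect x1 x2 y1 y2) (hb : b ∈ rect x1 x2 y1 y2) (hc : c ∈ rect x1 x2 y1 y2)
    (hd : d ∈ rect x1 x2 y1 y2) (ha1 : a.1 = x1) (hb1 : b.1 = x2) (hc2 : c.2 = y1)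
    (hd2 : d.2 = y2) (hac : a ≠ c) (had : a ≠ d) (hbc : b ≠ c) (hbd : b ≠ d) :
    Alt (idx x1 x2 y1 y2 a) (idx x1 x2 y1 y2 c) (idx x1 x2 y1 y2 b) (idx x1 x2 y1 y2 d) := by
  simp only [mem_rect] at ha hb hc hd
  have ia : idx x1 x2 y1 y2 a = (y2 - y1) + (x2 - x1) + (y2 - a.2) := by
    unfold idx; split_ifs <;> omega
  have ib : idx x1 x2 y1 y2 b = b.2 - y1 := by
    unfold idx; split_ifs <;> omega
  have id' : idx x1 x2 y1 y2 d = (y2 - y1) + (x2 - d.1) := by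
    unfold idx; split_ifs <;> omega
  have ic : (c.1 = x2 ∧ idx x1 x2 y1 y2 c = 0) ∨
      (c.1 < x2 ∧ idx x1 x2 y1 y2 c = 2 * (y2 - y1) + (x2 - x1) + (c.1 - x1)) := by
    unfold idx; split_ifs <;> lia
  have e1 : a.1 ≠ c.1 ∨ a.2 ≠ c.2 := by
    by_contra hh; push Not at hh; exact hac (Prod.ext hh.1 hh.2)
  have e2 : a.1 ≠ d.1 ∨ a.2 ≠ d.2 := by
    by_contra hh; push Not at hh; exact had (Prod.ext hh.1 hh.2)
  have e3 : b.1 ≠ c.1 ∨ b.2 ≠ c.2 := by
    by_contra hh; push Not at hh; exact hbc (Prod.ext hh.1 hh.2)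
  have e4 : b.1 ≠ d.1 ∨ b.2 ≠ d.2 := by
    by_contra hh; push Not at hh; exact hbd (Prod.ext hh.1 hh.2)
  have f1 : idx x1 x2 y1 y2 b < idx x1 x2 y1 y2 d := by omega
  have f2 : idx x1 x2 y1 y2 d < idx x1 x2 y1 y2 a := by omega
  refine Or.inl ?_
  rcases ic with ⟨h1, h2⟩ | ⟨h1, h2⟩
  · exact Or.inr (Or.inl ⟨by omega, f1, f2⟩)
  · exact Or.inr (Or.inr (Or.inl ⟨f1, f2, by (clear * - e1 e2 e3 e4 h1 h2 ha ha1 hb hb1 hc hc2 hd hd2 ia ib id'; lia)⟩))

private theorem InnerB.adj_one {c e : Site} (h : InnerB c 1 e) : Adj e c := by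
  obtain ⟨-, u, h1, h2⟩ := h
  have : c = u := dst_eq_zero (by omega)
  rw [this]; exact h1

/-- A box whose content decides the left-right crossing has four arms to the four sides. -/
theorem arms4_of_piv {r : ℕ} (hr : 1 ≤ r) (hB : Big x1 x2 y1 y2 (r + 1)) {S S' : Set Site}
    (hag : ∀ v, r ≤ dst 0 v → (v ∈ S ↔ v ∈ S')) (h : LR S' x1 x2 y1 y2)
    (h' : ¬ LR S x1 x2 y1 y2) : Arms4 S x1 x2 y1 y2 r (PivT x1 x2 y1 y2) := by
  obtain ⟨b1, b2, b3, b4⟩ := hB
  push_cast at b1 b2 b3 b4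
  have hx : x1 < x2 := by omega
  have hy : y1 < y2 := by omega
  have hLR := h
  obtain ⟨a, b, ha, hb, hab⟩ := h
  obtain ⟨c, d, hc, hd, hcd⟩ := (hex S hx.le hy.le).resolve_left h'
  have da : r ≤ dst 0 a := by simp only [dst, Prod.fst_zero, Prod.snd_zero]; omega
  have db : r ≤ dst 0 b := by simp only [dst, Prod.fst_zero, Prod.snd_zero]; omega
  have dc : r ≤ dst 0 c := by simp only [dst, Prod.fst_zero, Prod.snd_zero]; omega
  have dd : r ≤ dst 0 d := by simp only [dst, Prod.fst_zero, Prod.snd_zero]; omega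
  have s1 : S' ∩ rect x1 x2 y1 y2 ∩ {v | r ≤ dst 0 v} ⊆ S ∩ Dom x1 x2 y1 y2 r :=
    fun v hv => ⟨(hag v hv.2).2 hv.1.1, hv.1.2, hv.2⟩
  have s2 : Sᶜ ∩ rect x1 x2 y1 y2 ∩ {v | r ≤ dst 0 v} ⊆ Sᶜ ∩ Dom x1 x2 y1 y2 r :=
    fun v hv => ⟨hv.1.1, hv.1.2, hv.2⟩
  rcases split_box hab da db with h1 | ⟨e0, e2, i0, i2, c0, c2⟩
  · exact absurd ⟨a, b, ha, hb, (h1.mono s1).mono fun v hv => ⟨hv.1, hv.2.1⟩⟩ h'
  rcases split_box hcd dc dd with h1 | ⟨e1, e3, i1, i3, c1, c3⟩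
  · have hTB : TB S'ᶜ x1 x2 y1 y2 :=
      ⟨c, d, hc, hd, h1.mono fun v hv => ⟨fun hs => hv.1.1 ((hag v hv.2).2 hs), hv.1.2⟩⟩
    obtain ⟨v, v1, v2, -⟩ := hLR.inter_TB hTB
    exact absurd v1 v2
  have c0' := c0.mono s1
  have c2' := c2.mono s1
  have c1' := c1.mono s2
  have c3' := c3.mono s2
  have ma := c0'.right_mem
  have mb := c2'.right_mem
  have mc := c1'.right_mem
  have md := c3'.right_mem
  have _ := hr
  refine ⟨![e0, e1, e2, e3], ![a, c, b, d], ?_, ⟨⟨?_, ?_⟩, ha, hb, Or.inl ⟨hc, hd⟩⟩, ?_⟩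
  · intro i
    fin_cases i
    exacts [i0, i1, i2, i3]
  · intro i
    fin_cases i
    exacts [⟨ma.2.1, Or.inl ha⟩, ⟨mc.2.1, Or.inr (Or.inr (Or.inl hc))⟩,
      ⟨mb.2.1, Or.inr (Or.inl hb)⟩, ⟨md.2.1, Or.inr (Or.inr (Or.inr hd))⟩]
  · exact alt_sides (a := a) (b := b) (c := c) (d := d) hx hy ma.2.1 mb.2.1 mc.2.1 md.2.1 ha hb hc hd
      (fun e => mc.1 (e ▸ ma.1)) (fun e => md.1 (e ▸ ma.1)) (fun e => mc.1 (e ▸ mb.1))
      (fun e => md.1 (e ▸ mb.1))
  · intro i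
    fin_cases i
    exacts [c0', c1', c2', c3']

/-- A site with four arms to the four sides is pivotal. -/
theorem pivot_of_arms4 (hB : Big x1 x2 y1 y2 1) {S : Set Site}
    (h : Arms4 S x1 x2 y1 y2 1 (PivT x1 x2 y1 y2)) :
    Pivot (fun S => LR S x1 x2 y1 y2) 0 S := by
  obtain ⟨b1, b2, b3, b4⟩ := hB
  push_cast at b1 b2 b3 b4
  obtain ⟨e, z, hi, ⟨-, hz0, hz2, hz⟩, hc⟩ := h
  have h0 : (0 : Site) ∈ rect x1 x2 y1 y2 := by
    simp only [mem_rect, Prod.fst_zero, Prod.snd_zero]; omega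
  have join : ∀ (X : Set Site) (i j : Fin 4), Conn (X ∩ Dom x1 x2 y1 y2 1) (e i) (z i) →
      Conn (X ∩ Dom x1 x2 y1 y2 1) (e j) (z j) →
      Conn ((X ∪ {0}) ∩ rect x1 x2 y1 y2) (z i) (z j) := by
    intro X i j h1 h2
    have s : X ∩ Dom x1 x2 y1 y2 1 ⊆ (X ∪ {0}) ∩ rect x1 x2 y1 y2 :=
      fun v hv => ⟨Or.inl hv.1, hv.2.1⟩
    exact ((h1.mono s).symm.tail (hi i).adj_one ⟨Or.inr rfl, h0⟩).trans
      (Conn.head (hi j).adj_one.symm ⟨Or.inr rfl, h0⟩ (h2.mono s))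
  refine ⟨⟨z 0, z 2, hz0, hz2, join S 0 2 (hc 0) (hc 2)⟩, fun hLR => ?_⟩
  have hTB : TB (Sᶜ ∪ {0}) x1 x2 y1 y2 := by
    rcases hz with ⟨h1, h3⟩ | ⟨h1, h3⟩
    · exact ⟨z 1, z 3, h1, h3, join Sᶜ 1 3 (hc 1) (hc 3)⟩
    · exact ⟨z 3, z 1, h3, h1, join Sᶜ 3 1 (hc 3) (hc 1)⟩
  obtain ⟨v, v1, v2, -⟩ := LR.inter_TB hLR hTB
  rcases v2 with v2 | v2
  · exact v2 v1.1
  · exact v1.2 v2

/-- A site through which every connection from `A` to `B` passes has two distinct arms. -/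
theorem two_of_cut {S D A B : Set Site} {u : Site} {k : ℕ} (hk : 1 ≤ k) (hD : ball u k ⊆ D)
    (hA : ∀ a ∈ A, k ≤ dst u a) (hB : ∀ b ∈ B, k ≤ dst u b)
    (h : ∃ a ∈ A, ∃ b ∈ B, Conn (S ∩ D) a b)
    (h' : ¬ ∃ a ∈ A, ∃ b ∈ B, Conn ((S \ {u}) ∩ D) a b) : Two S u 1 k := by
  obtain ⟨a, ha, b, hb, hab⟩ := h
  have s1 : S ∩ D ∩ {v | 1 ≤ dst u v} ⊆ (S \ {u}) ∩ D := by
    rintro v ⟨⟨v1, v2⟩, v3⟩
    refine ⟨⟨v1, ?_⟩, v2⟩
    rintro rfl
    have : 1 ≤ dst v v := v3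
    rw [dst_self] at this
    omega
  rcases split_box (c := u) (r := 1) hab (hk.trans (hA a ha)) (hk.trans (hB b hb)) with
    h1 | ⟨e, e', i1, i2, c1, c2⟩
  · exact absurd ⟨a, ha, b, hb, h1.mono s1⟩ h'
  obtain ⟨p, q, p1, p2, p3, p4, -⟩ := c1.sub_ann hk (Or.inr i1) (hA a ha)
  obtain ⟨p', q', p1', p2', p3', p4', -⟩ := c2.sub_ann hk (Or.inr i2) (hB b hb)
  have s2 : S ∩ D ∩ {v | 1 ≤ dst u v} ∩ ann u 1 k ⊆ S ∩ ann u 1 k := fun v hv => ⟨hv.1.1.1, hv.2⟩
  have s3 : S ∩ ann u 1 k ⊆ S ∩ D ∩ {v | 1 ≤ dst u v} :=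
    fun v hv => ⟨⟨hv.1, hD hv.2.2⟩, hv.2.1⟩
  refine ⟨p, q, p', q', p1, p1', p2, p2', p3.mono s2, p3'.mono s2, fun hc => h' ?_⟩
  exact ⟨a, ha, b, hb,
    ((((c1.symm.trans p4).trans (hc.mono s3)).trans p4'.symm).trans c2).mono s1⟩

/-- A site that is pivotal for two distinct crossings has two distinct arms. -/
theorem two_of_piv_two {S S' : Set Site} {c u : Site} {r R k : ℕ} (hk : 1 ≤ k)
    (h1 : r + k ≤ dst c u) (h2 : dst c u + k ≤ R) (hag : ∀ v, v ≠ u → (v ∈ S ↔ v ∈ S'))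
    (h : Two S c r R) (h' : ¬ Two S' c r R) : Two S u 1 k := by
  have hD : ball u k ⊆ ann c r R := by
    intro v hv
    have t1 := dst_triangle c u v
    have t2 := dst_triangle c v u
    have t3 := dst_comm u v
    simp only [mem_ball, mem_ann] at hv ⊢
    omega
  have hin : ∀ x, InnerB c r x → k ≤ dst u x := by
    intro x hx
    have t2 := dst_triangle c x u
    have t3 := dst_comm u x
    have := hx.1
    omega
  have hout : ∀ x, dst c x = R → k ≤ dst u x := by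
    intro x hx
    have t2 := dst_triangle c u x
    omega
  by_cases hu : u ∈ S
  · have hu' : u ∉ S' := by
      intro hu'
      refine h' (sup_Two c r R S S' (fun v _ => ?_) h)
      by_cases hv : v = u
      · rw [hv]; exact ⟨fun _ => hu', fun _ => hu⟩
      · exact hag v hv
    have s1 : S' ∩ ann c r R ⊆ S ∩ ann c r R := fun v hv =>
      ⟨(hag v fun e => hu' (e ▸ hv.1)).2 hv.1, hv.2⟩
    have s2 : (S \ {u}) ∩ ann c r R ⊆ S' ∩ ann c r R := fun v hv =>
      ⟨(hag v hv.1.2).1 hv.1.1, hv.2⟩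
    have key : ∀ a b a' b', InnerB c r a → InnerB c r a' → dst c b = R → dst c b' = R →
        Conn (S ∩ ann c r R) a b → Conn (S ∩ ann c r R) a' b' → ¬ Conn (S ∩ ann c r R) a a' →
        ¬ Conn (S ∩ ann c r R) a' u → Two S u 1 k := by
      intro a b a' b' ia ia' hb hb' c1 c2 hn hnu
      refine two_of_cut (D := ann c r R) (A := {x | InnerB c r x ∧ Conn (S ∩ ann c r R) a x})
        (B := {y | dst c y = R}) hk hD (fun x hx => hin x hx.1) (fun y hy => hout y hy)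
        ⟨a, ⟨ia, Conn.refl c1.left_mem⟩, b, hb, c1⟩ ?_
      rintro ⟨x, ⟨ix, cx⟩, y, hy, cxy⟩
      have c3 : Conn (S' ∩ ann c r R) a' b' := by
        refine (c2.inter_of (T := {u}ᶜ) fun v hv e => hnu ?_).mono fun v hv =>
          s2 ⟨⟨hv.1.1, hv.2⟩, hv.1.2⟩
        rw [← Set.mem_singleton_iff.1 e]
        exact hv
      exact h' ⟨x, y, a', b', ix, ia', hy, hb', cxy.mono s2, c3,
        fun hc => hn (cx.trans (hc.mono s1))⟩
    obtain ⟨a, b, a', b', ia, ia', hb, hb', c1, c2, hn⟩ := h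
    by_cases hc : Conn (S ∩ ann c r R) a' u
    · exact key a' b' a b ia' ia hb' hb c2 c1 (fun e => hn e.symm)
        fun e => hn (e.trans hc.symm)
    · exact key a b a' b' ia ia' hb hb' c1 c2 hn hc
  · obtain ⟨a, b, a', b', ia, ia', hb, hb', c1, c2, hn⟩ := h
    have s1 : S ∩ ann c r R ⊆ S' ∩ ann c r R := fun v hv =>
      ⟨(hag v fun e => hu (e ▸ hv.1)).1 hv.1, hv.2⟩
    have s2 : (S' \ {u}) ∩ ann c r R ⊆ S ∩ ann c r R := fun v hv =>
      ⟨(hag v hv.1.2).2 hv.1.1, hv.2⟩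
    have c3 : Conn (S' ∩ ann c r R) a a' := by
      by_contra hc
      exact h' ⟨a, b, a', b', ia, ia', hb, hb', c1.mono s1, c2.mono s1, hc⟩
    have h3 : Two S' u 1 k := by
      refine two_of_cut (D := ann c r R) (A := {a}) (B := {a'}) hk hD ?_ ?_
        ⟨a, rfl, a', rfl, c3⟩ ?_
      · rintro x rfl; exact hin x ia
      · rintro x rfl; exact hin x ia'
      · rintro ⟨x, rfl, y, rfl, hc⟩
        exact hn (hc.mono s2)
    refine sup_Two u 1 k S' S (fun v hv => (hag v ?_).symm) h3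
    rintro rfl
    have := hv.1
    rw [dst_self] at this
    omega

/-- Changing a finite set site by site, one finds a site at which the property is lost. -/
theorem exists_switch {Φ : Set Site → Prop} {X X' : Set Site} {F : Set Site} (hF : F.Finite)
    (hag : ∀ v, v ∉ F → (v ∈ X ↔ v ∈ X')) (h : Φ X) (h' : ¬ Φ X') :
    ∃ u ∈ F, ¬ (u ∈ X ↔ u ∈ X') ∧ ∃ Y Y' : Set Site, X ∩ X' ⊆ Y ∧ Y ⊆ X ∪ X' ∧
      X ∩ X' ⊆ Y' ∧ Y' ⊆ X ∪ X' ∧ (∀ v, v ≠ u → (v ∈ Y ↔ v ∈ Y')) ∧ (u ∈ Y ↔ u ∈ X) ∧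
      (u ∈ Y' ↔ u ∈ X') ∧ Φ Y ∧ ¬ Φ Y' := by
  induction F, hF using Set.Finite.induction_on generalizing X with
  | empty =>
    have : X = X' := Set.ext fun v => hag v (Set.notMem_empty v)
    exact absurd (this ▸ h) h'
  | @insert u F _ _ ih =>
    let X1 : Set Site := {v | (v = u ∧ v ∈ X') ∨ (v ≠ u ∧ v ∈ X)}
    have m1 : u ∈ X1 ↔ u ∈ X' := by simp [X1]
    have m2 : ∀ v, v ≠ u → (v ∈ X1 ↔ v ∈ X) := fun v hv => by simp [X1, hv]
    have s1 : X ∩ X' ⊆ X1 := by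
      intro v hv
      by_cases e : v = u
      · exact Or.inl ⟨e, hv.2⟩
      · exact Or.inr ⟨e, hv.1⟩
    have s2 : X1 ⊆ X ∪ X' := by
      rintro v (hv | hv)
      exacts [Or.inr hv.2, Or.inl hv.2]
    by_cases hΦ : Φ X1
    · obtain ⟨w, hw, hne, Y, Y', a1, a2, a3, a4, a5, a6, a7, a8, a9⟩ := ih (X := X1) (by
        intro v hv
        by_cases e : v = u
        · rw [e]; exact m1
        · rw [m2 v e]
          refine hag v ?_
          rintro (e' | e')
          exacts [e e', hv e']) hΦ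
      have hwu : w ≠ u := by
        rintro rfl
        exact hne m1
      have t1 : X ∩ X' ⊆ X1 ∩ X' := fun v hv => ⟨s1 hv, hv.2⟩
      have t2 : X1 ∪ X' ⊆ X ∪ X' := Set.union_subset s2 Set.subset_union_right
      exact ⟨w, Or.inr hw, by rwa [← m2 w hwu], Y, Y', t1.trans a1, a2.trans t2, t1.trans a3,
        a4.trans t2, a5, a6.trans (m2 w hwu), a7, a8, a9⟩
    · refine ⟨u, Or.inl rfl, fun e => hΦ ?_, X, X1, Set.inter_subset_left,
        Set.subset_union_left, s1, s2, fun v hv => (m2 v hv).symm, Iff.rfl, m1, h, hΦ⟩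
      have : X1 = X := by
        ext v
        by_cases e' : v = u
        · rw [e', m1, e]
        · exact m2 v e'
      rw [this]; exact h

end Pool.Agent.Work.MP_ccd212_pr
end

-- merged part: Pool.Agent.Work.MP_ccd212_pr.Rsw1
section
/-! Consequences of the box-crossing hypothesis. -/

namespace Pool.Agent.Work.MP_ccd212_pr

theorem pr_LR_shift (ν : PW Bool) (b : Bool) (x1 x2 y1 y2 : ℤ) :
    pr ν (ev b fun S => LR S x1 x2 y1 y2) = pr ν (ev b fun S => LR S 0 (x2 - x1) 0 (y2 - y1)) := by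
  rw [← pr_ev_aut ν (sh (x1, y1)) b fun S => LR S 0 (x2 - x1) 0 (y2 - y1)]
  congr 2
  funext S
  rw [← LR_sh]
  simp

theorem pr_TB_eq (ν : PW Bool) (b : Bool) (x1 x2 y1 y2 : ℤ) :
    pr ν (ev b fun S => TB S x1 x2 y1 y2) = pr ν (ev b fun S => LR S 0 (y2 - y1) 0 (x2 - x1)) := by
  rw [← pr_LR_shift, ← pr_ev_aut ν sw b fun S => LR S y1 y2 x1 x2]
  congr 2
  funext S
  rw [TB_iff_LR_sw]

theorem pr_Arm_shift (ν : PW Bool) (b : Bool) (c : Site) (r R : ℕ) :
    pr ν (ev b fun S => Arm S c r R) = pr ν (ev b fun S => Arm S 0 r R) := by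
  rw [← pr_ev_aut ν (sh c) b fun S => Arm S 0 r R]
  congr 2
  funext S
  rw [arm_map (sh c) (dst_sh c)]

theorem pr_Two_shift (ν : PW Bool) (b : Bool) (c : Site) (r R : ℕ) :
    pr ν (ev b fun S => Two S c r R) = pr ν (ev b fun S => Two S 0 r R) := by
  rw [← pr_ev_aut ν (sh c) b fun S => Two S 0 r R]
  congr 2
  funext S
  rw [two_map (sh c) (dst_sh c)]

theorem RSW.mono {p c c' : ℝ} {N N' : ℕ} (h : RSW p c N) (hc : c' ≤ c) (hN : N' ≤ N) :
    RSW p c' N' := by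
  exact ⟨h.1, h.2.1, fun n h1 h2 b => hc.trans (h.2.2 n h1 (h2.trans hN) b)⟩

theorem RSW.le_one {p c : ℝ} {N : ℕ} (h : RSW p c N) (hN : 1 ≤ N) : c ≤ 1 := by
  exact (h.2.2 1 le_rfl hN true).trans (pr_le_one _ _)

/-- Increasing and local. -/
def Rsw1IL (Φ : Set Site → Prop) : Prop := Inc Φ ∧ ∃ Z : Set Site, Z.Finite ∧ Sup Φ Z

theorem rsw1_IL_LR (x1 x2 y1 y2 : ℤ) : Rsw1IL fun S => LR S x1 x2 y1 y2 :=
  ⟨inc_LR _ _ _ _, _, rect_finite _ _ _ _, sup_LR _ _ _ _⟩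

theorem rsw1_IL_TB (x1 x2 y1 y2 : ℤ) : Rsw1IL fun S => TB S x1 x2 y1 y2 :=
  ⟨inc_TB _ _ _ _, _, rect_finite _ _ _ _, sup_TB _ _ _ _⟩

theorem Rsw1IL.and {Φ Ψ : Set Site → Prop} (h : Rsw1IL Φ) (h' : Rsw1IL Ψ) :
    Rsw1IL fun S => Φ S ∧ Ψ S := by
  obtain ⟨i1, Z1, f1, s1⟩ := h
  obtain ⟨i2, Z2, f2, s2⟩ := h'
  exact ⟨i1.and i2, Z1 ∪ Z2, f1.union f2,
    (s1.mono Set.subset_union_left).and (s2.mono Set.subset_union_right)⟩

theorem rsw1_harris (ν : PW Bool) (b : Bool) {Φ Ψ : Set Site → Prop} (h : Rsw1IL Φ)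
    (h' : Rsw1IL Ψ) {x y : ℝ} (hy : 0 ≤ y) (h1 : x ≤ pr ν (ev b Φ)) (h2 : y ≤ pr ν (ev b Ψ)) :
    x * y ≤ pr ν (ev b fun S => Φ S ∧ Ψ S) := by
  obtain ⟨i1, Z1, f1, s1⟩ := h
  obtain ⟨i2, Z2, f2, s2⟩ := h'
  exact (mul_le_mul h1 h2 hy (pr_nonneg _ _)).trans (harris_ev ν b (f1.union f2)
    (s1.mono Set.subset_union_left) (s2.mono Set.subset_union_right) i1 i2)

theorem rsw1_long (ν : PW Bool) (b : Bool) {c : ℝ} (hc : 0 ≤ c) {n : ℕ}
    (h : c ≤ pr ν (ev b fun S => LR S 0 (2 * n) 0 n)) (j : ℕ) :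
    c ^ (2 * j + 1) ≤ pr ν (ev b fun S => LR S 0 ((j + 2) * n) 0 n) := by
  have hn : (0 : ℤ) ≤ n := Int.natCast_nonneg n
  induction j with
  | zero => simpa using h
  | succ j ih =>
    have hj : (0 : ℤ) ≤ (j : ℤ) * n := mul_nonneg (Int.natCast_nonneg j) hn
    have a2 : c ≤ pr ν (ev b fun S => LR S ((j + 1) * n) ((j + 3) * n) 0 n) := by
      rw [pr_LR_shift, show ((j : ℤ) + 3) * n - (j + 1) * n = 2 * n by ring, sub_zero]
      exact h
    have a3 : c ≤ pr ν (ev b fun S => TB S ((j + 1) * n) ((j + 2) * n) 0 n) := by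
      rw [pr_TB_eq, show ((j : ℤ) + 2) * n - (j + 1) * n = n by ring, sub_zero]
      exact h.trans (pr_mono _ fun ω hω =>
        LR.mono_rect hω le_rfl hn (by linarith) le_rfl le_rfl)
    have a4 := rsw1_harris ν b ((rsw1_IL_LR _ _ _ _).and (rsw1_IL_LR _ _ _ _)) (rsw1_IL_TB _ _ _ _)
      hc (rsw1_harris ν b (rsw1_IL_LR _ _ _ _) (rsw1_IL_LR _ _ _ _) hc ih a2) a3
    rw [show 2 * (j + 1) + 1 = 2 * j + 1 + 1 + 1 by ring, pow_succ, pow_succ]
    refine a4.trans (pr_mono _ fun ω hω => ?_)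
    have := LR.glue (by linarith) (by linarith) (by linarith) hω.1.1 hω.1.2 hω.2
    show LR _ 0 ((((j + 1 : ℕ) : ℤ) + 2) * n) 0 n
    rw [show (((j + 1 : ℕ) : ℤ) + 2) * n = (j + 3) * n by push_cast; ring]
    exact this

theorem rsw1_lr (ν : PW Bool) (b : Bool) {c : ℝ} (hc : 0 ≤ c) {n : ℕ}
    (h : c ≤ pr ν (ev b fun S => LR S 0 (2 * n) 0 n)) {x1 x2 y1 y2 : ℤ} {k : ℕ} (hk : 1 ≤ k)
    (hx : x1 ≤ x2) (ha : x2 - x1 ≤ k * n) (hb : (n : ℤ) ≤ y2 - y1) :
    c ^ (2 * k) ≤ pr ν (ev b fun S => LR S x1 x2 y1 y2) := by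
  have hn : (0 : ℤ) ≤ n := Int.natCast_nonneg n
  obtain ⟨j, rfl⟩ : ∃ j, k = j + 1 := ⟨k - 1, by omega⟩
  have h1 : c ≤ 1 := h.trans (pr_le_one _ _)
  rw [pr_LR_shift]
  refine (pow_le_pow_of_le_one hc h1 (show 2 * j + 1 ≤ 2 * (j + 1) by omega)).trans
    ((rsw1_long ν b hc h j).trans (pr_mono _ fun ω hω => ?_))
  push_cast at ha
  exact LR.mono_rect hω le_rfl (by linarith) (by linarith) le_rfl hb

theorem rsw1_tb (ν : PW Bool) (b : Bool) {c : ℝ} (hc : 0 ≤ c) {n : ℕ}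
    (h : c ≤ pr ν (ev b fun S => LR S 0 (2 * n) 0 n)) {x1 x2 y1 y2 : ℤ} {k : ℕ} (hk : 1 ≤ k)
    (hy : y1 ≤ y2) (ha : y2 - y1 ≤ k * n) (hb : (n : ℤ) ≤ x2 - x1) :
    c ^ (2 * k) ≤ pr ν (ev b fun S => TB S x1 x2 y1 y2) := by
  rw [pr_TB_eq, ← pr_LR_shift]
  exact rsw1_lr ν b hc h hk hy ha hb

theorem rsw1_ring (ν : PW Bool) (b : Bool) {c : ℝ} (hc : 0 ≤ c) {n : ℕ}
    (h : c ≤ pr ν (ev (!b) fun S => LR S 0 (2 * n) 0 n)) (x : Site) :
    pr ν (ev b fun S => Arm S x n (2 * n)) ≤ 1 - c ^ 32 := by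
  have hn : (0 : ℤ) ≤ n := Int.natCast_nonneg n
  have h8 : 0 ≤ c ^ (2 * 4) := pow_nonneg hc _
  have a1 : c ^ (2 * 4) ≤ pr ν (ev (!b) fun S => LR S (x.1 - (2 * n : ℕ)) (x.1 + (2 * n : ℕ))
      (x.2 + n) (x.2 + (2 * n : ℕ))) :=
    rsw1_lr ν _ hc h (by norm_num) (by omega) (by omega) (by omega)
  have a2 : c ^ (2 * 4) ≤ pr ν (ev (!b) fun S => LR S (x.1 - (2 * n : ℕ)) (x.1 + (2 * n : ℕ))
      (x.2 - (2 * n : ℕ)) (x.2 - n)) :=
    rsw1_lr ν _ hc h (by norm_num) (by omega) (by omega) (by omega)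
  have a3 : c ^ (2 * 4) ≤ pr ν (ev (!b) fun S => TB S (x.1 + n) (x.1 + (2 * n : ℕ))
      (x.2 - (2 * n : ℕ)) (x.2 + (2 * n : ℕ))) :=
    rsw1_tb ν _ hc h (by norm_num) (by omega) (by omega) (by omega)
  have a4 : c ^ (2 * 4) ≤ pr ν (ev (!b) fun S => TB S (x.1 - (2 * n : ℕ)) (x.1 - n)
      (x.2 - (2 * n : ℕ)) (x.2 + (2 * n : ℕ))) :=
    rsw1_tb ν _ hc h (by norm_num) (by omega) (by omega) (by omega)
  have a5 := rsw1_harris ν (!b) ((rsw1_IL_LR _ _ _ _).and (rsw1_IL_LR _ _ _ _))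
    ((rsw1_IL_TB _ _ _ _).and (rsw1_IL_TB _ _ _ _)) (mul_nonneg h8 h8)
    (rsw1_harris ν (!b) (rsw1_IL_LR _ _ _ _) (rsw1_IL_LR _ _ _ _) h8 a1 a2)
    (rsw1_harris ν (!b) (rsw1_IL_TB _ _ _ _) (rsw1_IL_TB _ _ _ _) h8 a3 a4)
  have e := pr_compl ν ((sup_Arm x n (2 * n)).loc (ann_finite _ _ _) b)
  have a6 : c ^ (2 * 4) * c ^ (2 * 4) * (c ^ (2 * 4) * c ^ (2 * 4)) ≤
      pr ν (ev b fun S => Arm S x n (2 * n))ᶜ := by
    refine a5.trans (pr_mono _ fun ω hω => ?_)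
    have := not_arm_of_long (c := x) (r := n) (R := 2 * n) (by omega) hω.1.1 hω.1.2 hω.2.1 hω.2.2
    rw [Col_not, compl_compl] at this
    exact this
  have : c ^ (2 * 4) * c ^ (2 * 4) * (c ^ (2 * 4) * c ^ (2 * 4)) = c ^ 32 := by ring
  linarith only [e, a6, this]

theorem rsw1_not_LR (ν : PW Bool) (b : Bool) (x1 x2 y1 y2 : ℤ) :
    pr ν (ev b fun S => ¬ LR S x1 x2 y1 y2) = 1 - pr ν (ev b fun S => LR S x1 x2 y1 y2) :=
  pr_compl ν ((sup_LR x1 x2 y1 y2).loc (rect_finite _ _ _ _) b)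

theorem rsw1_not_TB (ν : PW Bool) (b : Bool) (x1 x2 y1 y2 : ℤ) :
    pr ν (ev b fun S => ¬ TB S x1 x2 y1 y2) = 1 - pr ν (ev b fun S => TB S x1 x2 y1 y2) :=
  pr_compl ν ((sup_TB x1 x2 y1 y2).loc (rect_finite _ _ _ _) b)

theorem rsw1_not_long (ν : PW Bool) (b : Bool) {s : ℕ} {δ : ℝ}
    (h : pr ν (ev b fun S => ¬ LR S 0 (4 * s) 0 (3 * s)) ≤ δ) (j : ℕ) :
    pr ν (ev b fun S => ¬ LR S 0 ((j + 4) * s) 0 (3 * s)) ≤ (2 * j + 1) * δ := by
  have hn : (0 : ℤ) ≤ s := Int.natCast_nonneg s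
  induction j with
  | zero => simpa using h
  | succ j ih =>
    have hj : (0 : ℤ) ≤ (j : ℤ) * s := mul_nonneg (Int.natCast_nonneg j) hn
    have a2 : pr ν (ev b fun S => ¬ LR S ((j + 1) * s) ((j + 5) * s) 0 (3 * s)) ≤ δ := by
      rw [rsw1_not_LR, pr_LR_shift, show ((j : ℤ) + 5) * s - (j + 1) * s = 4 * s by ring, sub_zero,
        ← rsw1_not_LR]
      exact h
    have a3 : pr ν (ev b fun S => ¬ TB S ((j + 1) * s) ((j + 4) * s) 0 (3 * s)) ≤ δ := by
      rw [rsw1_not_TB, pr_TB_eq, show ((j : ℤ) + 4) * s - (j + 1) * s = 3 * s by ring, sub_zero,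
        ← rsw1_not_LR]
      exact le_trans (pr_mono _ fun ω hω hh =>
        hω (LR.mono_rect hh le_rfl (by linarith) (by linarith) le_rfl le_rfl)) h
    have a4 : pr ν (ev b fun S => ¬ LR S 0 ((((j + 1 : ℕ) : ℤ) + 4) * s) 0 (3 * s)) ≤
        pr ν (((ev b fun S => ¬ LR S 0 ((j + 4) * s) 0 (3 * s)) ∪
          (ev b fun S => ¬ LR S ((j + 1) * s) ((j + 5) * s) 0 (3 * s))) ∪
          (ev b fun S => ¬ TB S ((j + 1) * s) ((j + 4) * s) 0 (3 * s))) := by
      refine pr_mono _ fun ω hω => ?_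
      by_contra hn'
      simp only [Set.mem_union, mem_ev, not_or, not_not] at hn'
      have := LR.glue (by linarith) (by linarith) (by linarith) hn'.1.1 hn'.1.2 hn'.2
      rw [show (((j + 1 : ℕ) : ℤ) + 4) * s = (j + 5) * s by push_cast; ring] at hω
      exact hω this
    have a5 := (pr_union_le ν _ _).trans (add_le_add ((pr_union_le ν _ _).trans
      (add_le_add ih a2)) a3)
    refine a4.trans (a5.trans (le_of_eq ?_))
    push_cast
    ring

/-- Crossings of rectangles of bounded aspect ratio. -/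
theorem RSW.lr {p c : ℝ} {N : ℕ} (h : RSW p c N) (hc : 0 ≤ c) (b : Bool) {x1 x2 y1 y2 : ℤ}
    {k n : ℕ} (hk : 1 ≤ k) (hn : 1 ≤ n) (hN : n ≤ N) (hx : x1 ≤ x2) (ha : x2 - x1 ≤ k * n)
    (hb : (n : ℤ) ≤ y2 - y1) : c ^ (2 * k) ≤ pr (ber p) (ev b fun S => LR S x1 x2 y1 y2) := by
  exact rsw1_lr _ b hc (h.2.2 n hn hN b) hk hx ha hb

theorem RSW.tb {p c : ℝ} {N : ℕ} (h : RSW p c N) (hc : 0 ≤ c) (b : Bool) {x1 x2 y1 y2 : ℤ}
    {k n : ℕ} (hk : 1 ≤ k) (hn : 1 ≤ n) (hN : n ≤ N) (hy : y1 ≤ y2) (ha : y2 - y1 ≤ k * n)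
    (hb : (n : ℤ) ≤ x2 - x1) : c ^ (2 * k) ≤ pr (ber p) (ev b fun S => TB S x1 x2 y1 y2) := by
  exact rsw1_tb _ b hc (h.2.2 n hn hN b) hk hy ha hb

/-- One-arm bound from the box-crossing hypothesis for the opposite colour only. -/
theorem arm_le_pow (ν : PW Bool) (b : Bool) {c : ℝ} (hc : 0 ≤ c) {N : ℕ}
    (h : ∀ n : ℕ, 1 ≤ n → n ≤ N → c ≤ pr ν (ev (!b) fun S => LR S 0 (2 * n) 0 n)) (x : Site)
    {r R j : ℕ} (hr : 1 ≤ r) (hR : 4 ^ j * r ≤ R) (hN : 4 ^ j * r ≤ N) :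
    pr ν (ev b fun S => Arm S x r R) ≤ (1 - c ^ 32) ^ j := by
  have hp : ∀ i k : ℕ, i < k → 4 * (4 ^ i * r) ≤ 4 ^ k * r := fun i k hik => by
    rw [← mul_assoc, ← pow_succ']
    exact Nat.mul_le_mul_right _ (Nat.pow_le_pow_right (by norm_num) hik)
  have hp1 : ∀ i : ℕ, r ≤ 4 ^ i * r := fun i => Nat.le_mul_of_pos_left _ (by positivity)
  have a1 : pr ν (ev b fun S => Arm S x r R) ≤
      pr ν (⋂ i ∈ Finset.range j, ev b fun S => Arm S x (4 ^ i * r) (2 * (4 ^ i * r))) := by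
    refine pr_mono _ fun ω hω => ?_
    simp only [Set.mem_iInter, Finset.mem_range]
    intro i hi
    have := hp i j hi
    exact Arm.mono_ring hω (hp1 i) (by omega) (by omega)
  rw [pr_biInter_indep ν _ _ (fun i => ann x (4 ^ i * r) (2 * (4 ^ i * r)))
    (fun i _ => ann_finite _ _ _) (fun i _ => (sup_Arm _ _ _).dep b)] at a1
  · refine a1.trans ?_
    rw [← Finset.card_range j, ← Finset.prod_const, Finset.card_range]
    refine Finset.prod_le_prod (fun i _ => pr_nonneg _ _) fun i hi => ?_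
    have := hp i j (Finset.mem_range.1 hi)
    have h1 := hp1 i
    exact rsw1_ring ν b hc (h _ (by omega) (by omega)) x
  · intro i _ k _ hik
    rw [Set.disjoint_left]
    intro v h1 h2
    rw [mem_ann] at h1 h2
    have h3 := hp1 i
    have h4 := hp1 k
    rcases lt_or_gt_of_ne hik with h5 | h5
    · have := hp i k h5
      omega
    · have := hp k i h5
      omega

/-- Long crossings are likely when `4 × 3` crossings are likely. -/
theorem not_LR_le (ν : PW Bool) (b : Bool) {s : ℕ} (hs : 1 ≤ s) {δ : ℝ}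
    (h : pr ν (ev b fun S => ¬ LR S 0 (4 * s) 0 (3 * s)) ≤ δ) {x1 x2 y1 y2 : ℤ} {k : ℕ}
    (hx : x1 ≤ x2) (ha : x2 - x1 ≤ k * s) (hb : (3 * s : ℤ) ≤ y2 - y1) :
    pr ν (ev b fun S => ¬ LR S x1 x2 y1 y2) ≤ (2 * k + 1) * δ := by
  have hn : (0 : ℤ) ≤ s := Int.natCast_nonneg s
  rw [rsw1_not_LR, pr_LR_shift, ← rsw1_not_LR]
  exact le_trans (pr_mono _ fun ω hω hh =>
    hω (LR.mono_rect hh le_rfl (by linarith only [hx]) (by linarith) le_rfl hb)) (rsw1_not_long ν b h k)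

theorem alpha_nonneg (p : ℝ) (r R : ℕ) : 0 ≤ alpha p r R := pr_nonneg _ _

theorem alpha_le_one (p : ℝ) (r R : ℕ) : alpha p r R ≤ 1 := pr_le_one _ _

theorem alpha_mono (p : ℝ) {r R r' R' : ℕ} (h1 : r ≤ r') (h2 : r' ≤ R') (h3 : R' ≤ R) :
    alpha p r R ≤ alpha p r' R' :=
  pr_mono _ fun _ h => Two.mono_ring h h1 h2 h3

end Pool.Agent.Work.MP_ccd212_pr
end

-- merged part: Pool.Agent.Work.MP_ccd212_pr.Sep3
section
/-! Separation holds with high probability. -/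

namespace Pool.Agent.Work.MP_ccd212_pr

private theorem qr_finite (y0 : ℤ) (n m : ℕ) : (qr y0 n m).Finite := rect_finite _ _ _ _

private theorem stop_expl (b : Bool) (y0 : ℤ) (n m j : ℕ) :
    Stop (fun ω : Site → Bool => expl (Col ω b) y0 n m j) (qr y0 n m) :=
  ⟨qr_finite y0 n m, fun _ => expl_subset j, fun ω ω' h =>
    expl_stop j fun v hv => by simp only [mem_Col, h v hv]⟩

private theorem expl_congr {S S' : Set Site} {y0 : ℤ} {n m : ℕ} (j : ℕ)
    (h : ∀ v ∈ qr y0 n m, v ∈ S ↔ v ∈ S') : expl S' y0 n m j = expl S y0 n m j :=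
  expl_stop j fun v hv => h v (expl_subset j hv)

private theorem sup_expl_empty (y0 : ℤ) (n m j : ℕ) :
    Sup (fun S => expl S y0 n m j ∩ rcol y0 n m = ∅) (qr y0 n m) := by
  intro S S' hS h
  show expl S' y0 n m j ∩ rcol y0 n m = ∅
  rw [expl_congr j hS]
  exact h

private theorem expl_hyb (b : Bool) (y0 : ℤ) (n m j : ℕ) (ω ω' : Site → Bool) :
    expl (Col (hyb (expl (Col ω b) y0 n m j) ω ω') b) y0 n m j = expl (Col ω b) y0 n m j :=
  expl_stop j fun v hv => by simp only [mem_Col, hyb, if_pos hv]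

private theorem empty_stop (b : Bool) (y0 : ℤ) (n m j : ℕ) (ω ω' : Site → Bool)
    (h : ∀ v ∈ expl (Col ω b) y0 n m j, ω v = ω' v)
    (hω : ω ∈ ev b fun S => expl S y0 n m j ∩ rcol y0 n m = ∅) :
    ω' ∈ ev b fun S => expl S y0 n m j ∩ rcol y0 n m = ∅ := by
  have h1 : expl (Col ω' b) y0 n m j = expl (Col ω b) y0 n m j := (stop_expl b y0 n m j).2.2 ω ω' h
  simp only [mem_ev] at hω ⊢
  rw [h1, hω]

theorem pr_expl_long {p c : ℝ} {N : ℕ} (h : RSW p c N) (hc : 0 ≤ c) (b : Bool) (y0 : ℤ)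
    {n m A : ℕ} (hA : 1 ≤ A) (hm : 1 ≤ m) (hN : m ≤ N) (hn : 2 * n ≤ A * m) (j : ℕ) :
    pr (ber p) (ev b fun S => expl S y0 n m (j + 1) ∩ rcol y0 n m = ∅) ≤ (1 - c ^ (2 * A)) ^ j := by
  have hc1 : c ≤ 1 := h.le_one (hm.trans hN)
  have hq : 0 ≤ 1 - c ^ (2 * A) := sub_nonneg.2 (pow_le_one₀ hc hc1)
  induction j with
  | zero => rw [pow_zero]; exact pr_le_one _ _
  | succ j ih =>
    have key := pr_stop_le (ber p) (stop_expl b y0 n m (j + 1))
      (A := ev b fun S => expl S y0 n m (j + 1) ∩ rcol y0 n m = ∅)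
      (E := ev b fun S => expl S y0 n m (j + 1 + 1) ∩ rcol y0 n m = ∅)
      (empty_stop b y0 n m (j + 1))
      ((sup_expl_empty y0 n m (j + 1 + 1)).loc (qr_finite y0 n m) b) (c := 1 - c ^ (2 * A)) ?_
    · refine le_trans (pr_mono _ ?_) (key.trans ?_)
      · intro ω hω
        refine ⟨?_, hω⟩
        simp only [mem_ev] at hω ⊢
        exact Set.subset_eq_empty
          (Set.inter_subset_inter_left _ (expl_mono (Nat.le_succ (j + 1)))) hω
      · rw [pow_succ']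
        exact mul_le_mul_of_nonneg_left ih hq
    · intro ω _
      obtain ⟨b', hb'⟩ : ∃ b' : Bool, ∀ ω'' : Site → Bool,
          ecol (Col ω'' b) (j + 1) = Col ω'' b' := by
        by_cases hj : (j + 1) % 2 = 0
        · exact ⟨!b, fun ω'' => by rw [ecol, if_pos hj, Col_not]⟩
        · exact ⟨b, fun ω'' => by rw [ecol, if_neg hj]⟩
      have hlr := h.lr hc b' (x1 := -n) (x2 := n) (y1 := y0) (y2 := y0 + m) hA hm hN (by omega)
        (by have : ((2 * n : ℕ) : ℤ) ≤ ((A * m : ℕ) : ℤ) := Int.ofNat_le.2 hn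
            push_cast at this; omega) (by omega)
      have hloc := (sup_LR (-n) n y0 (y0 + m)).loc (rect_finite _ _ _ _) b'
      refine le_trans (pr_mono _ (F := (ev b' fun S => LR S (-n) n y0 (y0 + m))ᶜ) ?_) ?_
      · intro ω' hω' hX
        simp only [Set.mem_ofPred_eq, mem_ev] at hω' hX
        have := expl_progress (S := Col (hyb (expl (Col ω b) y0 n m (j + 1)) ω ω') b) (j := j) hX
          (fun v hv hvX => by
            rw [expl_hyb] at hv
            rw [hb']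
            simp only [mem_Col, hyb, if_neg hv] at hvX ⊢
            exact hvX)
        exact this.ne_empty hω'
      · rw [pr_compl _ hloc]
        linarith only [hlr]

private theorem pr_circ_ge {p c : ℝ} {N : ℕ} (h : RSW p c N) (hc : 0 ≤ c) (b : Bool) (y0 x : ℤ)
    {η : ℕ} (hη : 1 ≤ η) (hN : 4 * η ≤ N) :
    c ^ 48 ≤ pr (ber p) (ev b fun X => Circ X y0 x η) := by
  let Φ : Fin 6 → Set Site → Prop := ![
    fun X => TB X (x + η) (x + 2 * η) (y0 - 2 * η) (y0 + 2 * η),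
    fun X => LR X (x - 2 * η) (x + 2 * η) (y0 + η) (y0 + 2 * η),
    fun X => TB X (x - 2 * η) (x - η) y0 (y0 + 2 * η),
    fun X => TB X (x + 4 * η) (x + 8 * η) y0 (y0 + 8 * η),
    fun X => LR X (x - 8 * η) (x + 8 * η) (y0 + 4 * η) (y0 + 8 * η),
    fun X => TB X (x - 8 * η) (x - 4 * η) y0 (y0 + 8 * η)]
  have key := harris_ev_pow (ber p) b (Finset.univ : Finset (Fin 6)) (Φ := Φ)
    (Z := rect (x - 8 * η) (x + 8 * η) (y0 - 8 * η) (y0 + 8 * η)) (rect_finite _ _ _ _)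
    ?_ ?_ (c := c ^ 8) (pow_nonneg hc 8) ?_
  · rw [Finset.card_univ, Fintype.card_fin, ← pow_mul] at key
    refine key.trans (pr_mono _ fun ω hω => ?_)
    simp only [mem_ev, Finset.mem_univ, true_imp_iff] at hω ⊢
    exact ⟨hω 0, hω 1, hω 2, hω 3, hω 4, hω 5⟩
  · intro i _
    fin_cases i
    · exact (sup_TB _ _ _ _).mono fun v hv => by simp only [mem_rect] at *; omega
    · exact (sup_LR _ _ _ _).mono fun v hv => by simp only [mem_rect] at *; omega
    · exact (sup_TB _ _ _ _).mono fun v hv => by simp only [mem_rect] at *; omega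
    · exact (sup_TB _ _ _ _).mono fun v hv => by simp only [mem_rect] at *; omega
    · exact (sup_LR _ _ _ _).mono fun v hv => by simp only [mem_rect] at *; omega
    · exact (sup_TB _ _ _ _).mono fun v hv => by simp only [mem_rect] at *; omega
  · intro i _
    fin_cases i
    · exact inc_TB _ _ _ _
    · exact inc_LR _ _ _ _
    · exact inc_TB _ _ _ _
    · exact inc_TB _ _ _ _
    · exact inc_LR _ _ _ _
    · exact inc_TB _ _ _ _
  · intro i _
    fin_cases i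
    · exact h.tb hc b (k := 4) (n := η) (by omega) hη (by omega) (by omega) (by omega) (by omega)
    · exact h.lr hc b (k := 4) (n := η) (by omega) hη (by omega) (by omega) (by omega) (by omega)
    · exact h.tb hc b (k := 4) (n := η) (by omega) hη (by omega) (by omega) (by omega) (by omega)
    · exact h.tb hc b (k := 4) (n := 4 * η) (by omega) (by omega) hN (by omega) (by omega)
        (by omega)
    · exact h.lr hc b (k := 4) (n := 4 * η) (by omega) (by omega) hN (by omega) (by omega)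
        (by omega)
    · exact h.tb hc b (k := 4) (n := 4 * η) (by omega) (by omega) hN (by omega) (by omega)
        (by omega)

private theorem scale_le {k T : ℕ} (μ : ℕ) (h : k < T) : 16 * (16 ^ k * μ) ≤ 16 ^ T * μ := by
  rw [← mul_assoc, ← pow_succ']
  exact Nat.mul_le_mul_right _ (Nat.pow_le_pow_right (by omega) h)

private theorem le_scale (k μ : ℕ) : μ ≤ 16 ^ k * μ :=
  Nat.le_mul_of_pos_left _ (by positivity)

theorem pr_no_circ {p c : ℝ} {N : ℕ} (h : RSW p c N) (hc : 0 ≤ c) (b : Bool) (y0 x : ℤ)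
    {μ T : ℕ} (hμ : 1 ≤ μ) (hN : 16 ^ T * μ ≤ N) :
    pr (ber p) (ev b fun X => ∀ k < T, ¬ Circ X y0 x (16 ^ k * μ)) ≤ (1 - c ^ 48) ^ T := by
  have he : (ev b fun X => ∀ k < T, ¬ Circ X y0 x (16 ^ k * μ)) =
      ⋂ k ∈ Finset.range T, (ev b fun X => Circ X y0 x (16 ^ k * μ))ᶜ := by
    ext ω
    simp only [mem_ev, Set.mem_iInter, Finset.mem_range, Set.mem_compl_iff]
  rw [he, pr_biInter_indep (ber p) (Finset.range T) _
    (fun k => ann (x, y0) (16 ^ k * μ) (8 * (16 ^ k * μ))) (fun k _ => ann_finite _ _ _)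
    (fun k _ => ((sup_circ y0 x _).dep b).compl)]
  · refine le_trans (Finset.prod_le_prod (g := fun _ => 1 - c ^ 48) (fun k _ => pr_nonneg _ _)
      fun k hk => ?_) (by rw [Finset.prod_const, Finset.card_range])
    rw [pr_compl _ ((sup_circ y0 x _).loc (ann_finite _ _ _) b)]
    have h1 := scale_le μ (Finset.mem_range.1 hk)
    have h2 := le_scale k μ
    have := pr_circ_ge h hc b y0 x (η := 16 ^ k * μ) (by omega) (by omega)
    linarith only [this]
  · intro i _ j _ hij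
    rw [Set.disjoint_left]
    intro v hv hv'
    simp only [mem_ann] at hv hv'
    have h2 := le_scale i μ
    have h3 := le_scale j μ
    rcases lt_or_gt_of_ne hij with hl | hl
    · have := scale_le μ hl; omega
    · have := scale_le μ hl; omega

private theorem port_subset {y0 x : ℤ} {n m μ η : ℕ} {z : Site} (h1 : x ≤ z.1) (h2 : z.1 < x + μ)
    (h3 : μ ≤ η) (h4 : 16 * η ≤ m) (h5 : z.1.natAbs + m < n) :
    qr y0 n m ∪ pb y0 x η ⊆ rect (-n) n (y0 - (m / 8 : ℕ)) (y0 + m) := by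
  rintro v (hv | hv)
  · simp only [qr, mem_rect] at hv ⊢; omega
  · simp only [pb, mem_rect] at hv ⊢; omega

private theorem qr_subset (y0 : ℤ) (n m : ℕ) :
    qr y0 n m ⊆ rect (-n) n (y0 - (m / 8 : ℕ)) (y0 + m) := by
  intro v hv
  simp only [qr, mem_rect] at hv ⊢; omega

theorem sup_sepQ (y0 : ℤ) {n m μ T : ℕ} (hm : 16 ^ T * μ ≤ m) :
    Sup (fun S => SepQ S y0 n m μ T) (rect (-n) n (y0 - (m / 8 : ℕ)) (y0 + m)) := by
  intro S S' hS h u w hu hw hc hfar
  have hq : ∀ v ∈ qr y0 n m, v ∈ S ↔ v ∈ S' := fun v hv => hS v (qr_subset y0 n m hv)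
  have hq' : ∀ v ∈ qr y0 n m, v ∈ S' ↔ v ∈ S := fun v hv => (hq v hv).symm
  obtain ⟨z, s, j, k, hk, hz, h1, h2, h3, h4, h5, h6⟩ :=
    h u w hu hw (hc.congr_sup hq') fun v hv => hfar v (hv.congr_sup hq)
  have h1' := h1.congr_sup hq
  have hsub := port_subset (y0 := y0) h2 h3 (le_scale k μ) ((scale_le μ hk).trans hm) (hfar z h1')
  refine ⟨z, s, j, k, hk, hz, h1', h2, h3, h4, h5.congr_sup fun v hv => hS v (hsub hv),
    fun z' u' a1 a2 a3 a4 a5 => h6 z' u' a1 a2 a3 a4 (a5.congr_sup fun v hv => ?_)⟩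
  simp only [Set.mem_compl_iff, hq v hv]

/-- The tip of the explored set is far from the ends and has no fence. -/
private def BadTip (y0 : ℤ) (n m μ T i : ℕ) (S : Set Site) : Prop :=
  ∃ z, IsTip (expl S y0 n m (2 * i + 1)) y0 z ∧ z.1.natAbs + m < n ∧
    ∀ k < T, ¬ Fenced S y0 n m z (z.1 / μ * μ) (16 ^ k * μ)

private theorem floor_le {μ : ℕ} (hμ : 1 ≤ μ) (a : ℤ) : a / μ * μ ≤ a ∧ a < a / μ * μ + μ := by
  have h0 : (0 : ℤ) < μ := by omega
  have h1 := Int.ediv_mul_add_emod a μ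
  have h2 := Int.emod_nonneg a h0.ne'
  have h3 := Int.emod_lt_of_pos a h0
  omega

private theorem sup_badTip (y0 : ℤ) {n m μ T : ℕ} (hμ : 1 ≤ μ) (hm : 16 ^ T * μ ≤ m) (i : ℕ) :
    Sup (BadTip y0 n m μ T i) (rect (-n) n (y0 - (m / 8 : ℕ)) (y0 + m)) := by
  rintro S S' hS ⟨z, h1, h2, h3⟩
  refine ⟨z, ?_, h2, fun k hk hF => h3 k hk ?_⟩
  · rw [expl_congr _ fun v hv => hS v (qr_subset y0 n m hv)]; exact h1
  · have hsub := port_subset (y0 := y0) (floor_le hμ z.1).1 (floor_le hμ z.1).2 (le_scale k μ)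
      ((scale_le μ hk).trans hm) h2
    exact sup_fenced y0 n m z _ _ S' S (fun v hv => (hS v (hsub hv)).symm) hF

private theorem pr_badTip {p c : ℝ} {N : ℕ} (h : RSW p c N) (hc : 0 ≤ c) (b : Bool) (y0 : ℤ)
    {n m μ T : ℕ} (hμ : 1 ≤ μ) (hm : 16 ^ T * μ ≤ m) (hN : m ≤ N) (i : ℕ) :
    pr (ber p) ((ev b fun S => expl S y0 n m (2 * i + 1) ∩ rcol y0 n m = ∅) ∩
      ev b (BadTip y0 n m μ T i)) ≤ (1 - c ^ 48) ^ T := by
  have hc1 : c ≤ 1 := h.le_one (le_trans (hμ.trans (le_scale T μ)) (hm.trans hN))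
  have hq : 0 ≤ (1 - c ^ 48) ^ T := pow_nonneg (sub_nonneg.2 (pow_le_one₀ hc hc1)) T
  have key := pr_stop_le (ber p) (stop_expl b y0 n m (2 * i + 1))
    (A := ev b fun S => expl S y0 n m (2 * i + 1) ∩ rcol y0 n m = ∅)
    (E := ev b (BadTip y0 n m μ T i)) (empty_stop b y0 n m (2 * i + 1))
    ((sup_badTip y0 hμ hm i).loc (rect_finite _ _ _ _) b) (c := (1 - c ^ 48) ^ T) ?_
  · exact key.trans (mul_le_of_le_one_right hq (pr_le_one _ _))
  · intro ω hω
    obtain ⟨z0, hz0⟩ := exists_tip (S := Col ω b) (y0 := y0) (n := n) (m := m) (2 * i + 1)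
    refine le_trans (pr_mono _ ?_) (pr_no_circ h hc b y0 (z0.1 / μ * μ) hμ (hm.trans hN))
    rintro ω' ⟨z, h1, h2, h3⟩ k hk hC
    have hE := expl_hyb b y0 n m (2 * i + 1) ω ω'
    have hzz : z.1 = z0.1 := by
      rw [hE] at h1
      exact le_antisymm (hz0.2.2 z h1.1 h1.2.1) (h1.2.2 z0 hz0.1 hz0.2.1)
    rw [← hzz] at hC
    have hf := floor_le hμ z.1
    have hs := le_scale k μ
    refine h3 k hk (fenced_of_circ (expl_subset _) (expl_isConn _)
      (expl_mono (i := 0) (Nat.zero_le _)) (by rw [hE]; exact hω) ?_ h1 hf.1 (by omega)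
      ((scale_le μ hk).trans hm) h2 hC ?_)
    · rintro g ⟨hg, u, ⟨t, _, hu⟩, hgu⟩
      have := expl_front_col (j := 2 * i) hg hu.right_mem.1 hu.right_mem.2 hgu
      rwa [ecol, if_neg (by omega)] at this
    · intro v hv hvX
      rw [hE] at hv
      simp only [mem_Col, hyb, if_neg hv] at hvX ⊢
      exact hvX

private theorem not_sepQ_cover {S : Set Site} {y0 : ℤ} {n m μ T : ℕ} (hμ : 1 ≤ μ) (J : ℕ)
    (h : ¬ SepQ S y0 n m μ T) (hJ : (expl S y0 n m (2 * J + 1) ∩ rcol y0 n m).Nonempty) :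
    ∃ i < J, expl S y0 n m (2 * i + 1) ∩ rcol y0 n m = ∅ ∧ BadTip y0 n m μ T i S := by
  by_contra hcon
  apply h
  intro u w hu hw hc hfar
  obtain ⟨i, hi, h1, h2⟩ := expl_cluster hu hw hc (fun v hv => by have := hfar v hv; omega) hJ
  obtain ⟨z, hz⟩ := exists_tip (S := S) (y0 := y0) (n := n) (m := m) (2 * i + 1)
  have huz := h2 z (hz.mem_front (expl_subset _) h1).1
  by_contra hno
  refine hcon ⟨i, hi, h1, z, hz, hfar z huz, fun k hk hF => hno ?_⟩
  obtain ⟨⟨s, hs, hzs⟩, h3⟩ := hF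
  exact ⟨z, s, z.1 / μ, k, hk, hz.2.1, huz, (floor_le hμ z.1).1, (floor_le hμ z.1).2, hs, hzs, h3⟩

theorem sepQ_prob {c ε : ℝ} (hc : 0 < c) (hε : 0 < ε) (A : ℕ) :
    ∃ T : ℕ, 1 ≤ T ∧ ∀ (p : ℝ) (N : ℕ), RSW p c N → ∀ (b : Bool) (y0 : ℤ) (n m μ : ℕ), 1 ≤ μ →
      16 ^ T * μ ≤ m → m ≤ N → 2 * n ≤ A * m →
      pr (ber p) (ev b fun S => ¬ SepQ S y0 n m μ T) ≤ ε := by
  obtain ⟨J, hJ⟩ := exists_pow_lt_of_lt_one (half_pos hε)
    (show 1 - c ^ (2 * (A + 1)) < 1 from sub_lt_self _ (pow_pos hc _))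
  obtain ⟨T, hT⟩ := exists_pow_lt_of_lt_one (show 0 < ε / 2 / (J + 1) by positivity)
    (show 1 - c ^ 48 < 1 from sub_lt_self _ (pow_pos hc _))
  refine ⟨T + 1, by omega, fun p N h b y0 n m μ hμ hm hN hn => ?_⟩
  have hm1 : 1 ≤ m := (hμ.trans (le_scale _ μ)).trans hm
  have hc1 : c ≤ 1 := h.le_one (hm1.trans hN)
  have hq1 : 0 ≤ 1 - c ^ (2 * (A + 1)) := sub_nonneg.2 (pow_le_one₀ hc.le hc1)
  have hq2 : 0 ≤ 1 - c ^ 48 := sub_nonneg.2 (pow_le_one₀ hc.le hc1)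
  have h1 := pr_expl_long h hc.le b y0 (n := n) (A := A + 1) (by omega) hm1 hN
    (hn.trans (Nat.mul_le_mul_right _ (Nat.le_succ A))) (2 * J)
  have h1' : (1 - c ^ (2 * (A + 1))) ^ (2 * J) ≤ (1 - c ^ (2 * (A + 1))) ^ J :=
    pow_le_pow_of_le_one hq1 (sub_le_self _ (pow_nonneg hc.le _)) (by omega)
  have h2' : (1 - c ^ 48) ^ (T + 1) ≤ (1 - c ^ 48) ^ T :=
    pow_le_pow_of_le_one hq2 (sub_le_self _ (pow_nonneg hc.le _)) (by omega)
  have h2 : pr (ber p) (⋃ i ∈ Finset.range J,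
      ((ev b fun S => expl S y0 n m (2 * i + 1) ∩ rcol y0 n m = ∅) ∩
        ev b (BadTip y0 n m μ (T + 1) i))) ≤ ε / 2 := by
    refine (pr_biUnion_le _ _ _).trans ((Finset.sum_le_card_nsmul _ _ (ε / 2 / (J + 1))
      fun i _ => (pr_badTip h hc.le b y0 hμ hm hN i).trans (h2'.trans hT.le)).trans ?_)
    rw [Finset.card_range, nsmul_eq_mul, mul_div_assoc', div_le_iff₀ (by positivity)]
    (clear * - hε; linarith only [hε])
  refine le_trans (pr_mono _ ?_) ((pr_union_le _ _ _).trans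
    ((add_le_add (h1.trans (h1'.trans hJ.le)) h2).trans_eq (add_halves ε)))
  intro ω hω
  by_cases hE : expl (Col ω b) y0 n m (2 * J + 1) ∩ rcol y0 n m = ∅
  · exact Or.inl hE
  · obtain ⟨i, hi, a1, a2⟩ := not_sepQ_cover hμ J hω (Set.nonempty_iff_ne_empty.2 hE)
    exact Or.inr (Set.mem_biUnion (Finset.mem_coe.2 (Finset.mem_range.2 hi)) ⟨a1, a2⟩)

end Pool.Agent.Work.MP_ccd212_pr
end

-- merged part: Pool.Agent.Work.MP_ccd212_pr.Sep4
section
/-! Separation on all sides. -/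

namespace Pool.Agent.Work.MP_ccd212_pr

private theorem sd_eq (o : Bool) (a : Fin 4) : ∃ i : Fin 4, sd o a = syf i := by
  cases o
  · exact ⟨a + 2, by simp [sd]⟩
  · exact ⟨a, by simp [sd]⟩

private theorem sup_pre {Φ : Set Site → Prop} {Z Z' : Set Site} (h : Sup Φ Z) (g : Site → Site)
    (hg : ∀ v ∈ Z, g v ∈ Z') : Sup (fun S => Φ (g ⁻¹' S)) Z' :=
  fun S S' hS hp => h (g ⁻¹' S) (g ⁻¹' S') (fun v hv => hS (g v) (hg v hv)) hp

private theorem side_mem (o : Bool) {n m : ℕ} (hm : 1 ≤ m) (hn : 8 * m ≤ n) (a : Fin 4) (v : Site)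
    (hv : v ∈ rect (-n) n (row o n - (m / 8 : ℕ)) (row o n + m)) :
    sd o a v ∈ ann 0 (n / 2 + 1) (2 * n) := by
  obtain ⟨i, hi⟩ := sd_eq o a
  rw [hi, mem_ann, dst_zero_syf]
  rw [mem_rect] at hv
  cases o
  · have hr : row false n = n := by simp [row]
    rw [hr] at hv
    simp only [dst, Prod.fst_zero, Prod.snd_zero]
    (clear * - hm hn hr hv; omega)
  · have hr : row true n = -n := by simp [row]
    rw [hr] at hv
    simp only [dst, Prod.fst_zero, Prod.snd_zero]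
    (clear * - hm hn hr hv; omega)

private theorem corner_sub {n m : ℕ} (hm : 1 ≤ m) (hn : 8 * m ≤ n) {c : Site}
    (h1 : c.1.natAbs = n) (h2 : c.2.natAbs = n) :
    ann c (m + 1) (n / 4) ⊆ ann 0 (n / 2 + 1) (2 * n) := by
  intro v hv
  have h0 : dst 0 c = n := by
    simp only [dst, Prod.fst_zero, Prod.snd_zero]
    omega
  have t1 := dst_triangle 0 c v
  have t2 := dst_triangle 0 v c
  rw [dst_comm v c] at t2
  rw [mem_ann] at hv ⊢
  omega

theorem sup_sepAll (o : Bool) {n m μ T : ℕ} (hμ : 1 ≤ μ) (hm : 16 ^ T * μ ≤ m) (hn : 8 * m ≤ n) :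
    Sup (fun S => SepAll S o n m μ T) (ann 0 (n / 2 + 1) (2 * n)) := by
  have hm1 : 1 ≤ m := (hμ.trans (Nat.le_mul_of_pos_left _ (by positivity))).trans hm
  intro S S' hS h
  refine ⟨fun a => ?_, fun c h1 h2 => ?_⟩
  · have key := sup_pre (sup_sepQ (row o n) (n := n) hm) (sd o a) (side_mem o hm1 hn a)
    exact ⟨key S S' hS (h.1 a).1, key.compl S S' hS (h.1 a).2⟩
  · have key := ((sup_Arm c (m + 1) (n / 4)).mono (corner_sub hm1 hn h1 h2)).not
    exact ⟨key S S' hS (h.2 c h1 h2).1, key.compl S S' hS (h.2 c h1 h2).2⟩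

/-- The four corners of the centred box. -/
private def corner (n : ℕ) (s : Bool × Bool) : Site :=
  (if s.1 then (n : ℤ) else -n, if s.2 then (n : ℤ) else -n)

private theorem exists_corner {n : ℕ} {c : Site} (h1 : c.1.natAbs = n) (h2 : c.2.natAbs = n) :
    ∃ s, c = corner n s := by
  obtain ⟨x, y⟩ := c
  simp only at h1 h2
  have hx : x = n ∨ x = -n := by omega
  have hy : y = n ∨ y = -n := by omega
  rcases hx with rfl | rfl <;> rcases hy with rfl | rfl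
  · exact ⟨(true, true), by simp [corner]⟩
  · exact ⟨(true, false), by simp [corner]⟩
  · exact ⟨(false, true), by simp [corner]⟩
  · exact ⟨(false, false), by simp [corner]⟩

private theorem col_false (ω : Site → Bool) : Col ω false = (Col ω true)ᶜ := Col_not ω true

private theorem union_bound (ν : PW Bool) (o : Bool) (n m μ T : ℕ) {δ : ℝ}
    (h1 : ∀ b : Bool, pr ν (ev b fun S => ¬ SepQ S (row o n) n m μ T) ≤ δ)
    (h2 : ∀ (b : Bool) (c : Site), pr ν (ev b fun S => Arm S c (m + 1) (n / 4)) ≤ δ) :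
    pr ν (ev true fun S => ¬ SepAll S o n m μ T) ≤ 16 * δ := by
  have a1 : pr ν (⋃ i ∈ (Finset.univ : Finset (Fin 4 × Bool)),
      ev i.2 fun S => ¬ SepQ (sd o i.1 ⁻¹' S) (row o n) n m μ T) ≤ 8 * δ := by
    refine (pr_biUnion_le _ _ _).trans ((Finset.sum_le_card_nsmul _ _ δ fun i _ => ?_).trans ?_)
    · obtain ⟨k, hk⟩ := sd_eq o i.1
      rw [hk]
      exact (pr_ev_aut ν (sy k) i.2 fun S => ¬ SepQ S (row o n) n m μ T).trans_le (h1 i.2)
    · simp
  have a2 : pr ν (⋃ i ∈ (Finset.univ : Finset ((Bool × Bool) × Bool)),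
      ev i.2 fun S => Arm S (corner n i.1) (m + 1) (n / 4)) ≤ 8 * δ := by
    refine (pr_biUnion_le _ _ _).trans
      ((Finset.sum_le_card_nsmul _ _ δ fun i _ => h2 i.2 _).trans ?_)
    simp
  refine le_trans (pr_mono _ ?_) ((pr_union_le _ _ _).trans
    ((add_le_add a1 a2).trans_eq (by ring)))
  intro ω hω
  rw [mem_ev] at hω
  by_contra hcon
  rw [Set.mem_union, not_or] at hcon
  obtain ⟨b1, b2⟩ := hcon
  simp only [Set.mem_iUnion, Finset.mem_univ, exists_true_left, not_exists, mem_ev,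
    not_not] at b1 b2
  refine hω ⟨fun a => ⟨b1 (a, true), ?_⟩, fun c c1 c2 => ?_⟩
  · have := b1 (a, false)
    rwa [col_false] at this
  · obtain ⟨s, rfl⟩ := exists_corner c1 c2
    refine ⟨b2 (s, true), ?_⟩
    have := b2 (s, false)
    rwa [col_false] at this

private theorem div_bounds {n L : ℕ} (hL : 0 < L) (h : L ≤ n) :
    1 ≤ n / L ∧ L * (n / L) ≤ n ∧ n ≤ 2 * (L * (n / L)) := by
  have h1 : 1 ≤ n / L := (Nat.one_le_div_iff hL).2 h
  have h2 := Nat.div_add_mod n L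
  have h3 := Nat.mod_lt n hL
  have h4 : L ≤ L * (n / L) := Nat.le_mul_of_pos_right _ h1
  omega

/-- Parameters for which separation is likely at every large scale. -/
theorem sepAll_prob {c ε : ℝ} (hc : 0 < c) (hε : 0 < ε) :
    ∃ T A n0 : ℕ, 1 ≤ T ∧ ∀ n, n0 ≤ n → ∃ m μ0 : ℕ, 1 ≤ μ0 ∧ 16 ^ T * (8 * μ0) ≤ m ∧ 8 * m ≤ n ∧
      n ≤ A * μ0 ∧ ∀ (p : ℝ) (N : ℕ), RSW p c N → n ≤ N → ∀ o : Bool,
        pr (ber p) (ev true fun S => ¬ SepAll S o n m (8 * μ0) T) ≤ ε := by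
  have hδ : 0 < ε / 16 := by positivity
  obtain ⟨j, hj⟩ := exists_pow_lt_of_lt_one hδ
    (show 1 - c ^ 32 < 1 from sub_lt_self _ (pow_pos hc _))
  obtain ⟨Q, hQ⟩ : ∃ Q : ℕ, Q = 4 ^ j := ⟨_, rfl⟩
  have hQ0 : 0 < Q := by rw [hQ]; positivity
  obtain ⟨T, hT1, hT⟩ := sepQ_prob hc hδ (4 * (8 * Q))
  obtain ⟨W, hW⟩ : ∃ W : ℕ, W = 16 ^ T := ⟨_, rfl⟩
  have hW0 : 0 < W := by rw [hW]; positivity
  refine ⟨T, 4 * (8 * Q) * (W * 8), 8 * Q * (W * 8), hT1, fun n hn => ?_⟩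
  have hL : 0 < 8 * Q := by omega
  have hLn : 8 * Q ≤ n := le_trans (Nat.le_mul_of_pos_right _ (by omega)) hn
  obtain ⟨m1, m2, m3⟩ := div_bounds hL hLn
  have hWm : W * 8 ≤ n / (8 * Q) := (Nat.le_div_iff_mul_le hL).2 (by rwa [mul_comm])
  obtain ⟨m, hm⟩ : ∃ m, m = n / (8 * Q) := ⟨_, rfl⟩
  rw [← hm] at m1 m2 m3 hWm
  obtain ⟨u1, u2, u3⟩ := div_bounds (show 0 < W * 8 by omega) hWm
  obtain ⟨μ0, hμ0⟩ : ∃ μ0, μ0 = m / (W * 8) := ⟨_, rfl⟩
  rw [← hμ0] at u1 u2 u3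
  have hQm : m ≤ Q * m := Nat.le_mul_of_pos_left _ hQ0
  have hQm' : Q ≤ Q * m := Nat.le_mul_of_pos_right _ m1
  have e1 : 8 * Q * m = 8 * (Q * m) := by ring
  have v1 : 16 ^ T * (8 * μ0) ≤ m := by rw [← hW, ← mul_assoc]; exact u2
  have v2 : 8 * m ≤ n := by omega
  refine ⟨m, μ0, u1, v1, v2, ?_, fun p N h hN o => ?_⟩
  · calc n ≤ 2 * (8 * Q * m) := m3
      _ ≤ 2 * (8 * Q * (2 * (W * 8 * μ0))) := by gcongr
      _ = 4 * (8 * Q) * (W * 8) * μ0 := by ring
  · have e2 : 4 ^ j * (m + 1) = Q * m + Q := by rw [← hQ]; ring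
    refine (union_bound (ber p) o n m (8 * μ0) T (δ := ε / 16) (fun b => ?_)
      fun b x => ?_).trans_eq (by ring)
    · refine hT p N h b _ n m (8 * μ0) (by omega) v1 (by omega) ?_
      have e3 : 4 * (8 * Q) * m = 4 * (8 * Q * m) := by ring
      omega
    · exact (arm_le_pow (ber p) b hc.le (fun k k1 k2 => h.2.2 k k1 k2 (!b)) x (j := j)
        (by omega) (by omega) (by omega)).trans hj.le

theorem card_qTypes (n μ T : ℕ) : (qTypes n μ T).card ≤ (4 * (2 * (n / μ) + 3) * T) ^ 4 := by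
  unfold qTypes
  rw [Fintype.card_piFinset, Finset.prod_const, Finset.card_univ, Fintype.card_fin]
  refine Nat.pow_le_pow_left ?_ 4
  rw [Finset.card_product, Finset.card_product, Finset.card_univ, Fintype.card_fin, mul_assoc]
  refine Nat.mul_le_mul_left 4 (Nat.mul_le_mul (Finset.card_image_le.trans ?_)
    (Finset.card_image_le.trans (Finset.card_range T).le))
  rw [Int.card_Icc]
  generalize n / μ = k
  omega

end Pool.Agent.Work.MP_ccd212_pr
end

-- merged part: Pool.Agent.Work.MP_ccd212_pr.Rsw3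
section
/-! The Russo-Seymour-Welsh estimate at `p = 1/2`. -/

namespace Pool.Agent.Work.MP_ccd212_pr

/-- A connection inside `Z` between end points related by `P`. -/
def rsw3C (P : Site → Site → Prop) (Z S : Set Site) : Prop := ∃ a b, P a b ∧ Conn (S ∩ Z) a b

theorem rsw3_IL (P : Site → Site → Prop) {Z : Set Site} (hZ : Z.Finite) : Rsw1IL (rsw3C P Z) := by
  refine ⟨?_, Z, hZ, ?_⟩
  · rintro S S' hS ⟨a, b, h1, h2⟩
    exact ⟨a, b, h1, h2.mono (Set.inter_subset_inter_left _ hS)⟩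
  · rintro S S' hS ⟨a, b, h1, h2⟩
    exact ⟨a, b, h1, h2.congr_sup hS⟩

theorem rsw3_idx_top {x1 x2 y1 y2 : ℤ} {v : Site} (h1 : v.2 = y2) (h2 : x1 < v.1) :
    idx x1 x2 y1 y2 v = (y2 - y1) + (x2 - v.1) := by
  unfold idx
  rw [if_neg (by omega), if_pos ⟨h1, h2⟩]

theorem rsw3_idx_left {x1 x2 y1 y2 y : ℤ} (hx : x1 < x2) (h : y1 ≤ y) :
    idx x1 x2 y1 y2 (x1, y) = (y2 - y1) + (x2 - x1) + (y2 - y) := by
  unfold idx
  dsimp only
  rw [if_neg (by omega), if_neg (by omega)]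
  split_ifs <;> omega

theorem rsw3_idx_bot {x1 x2 y1 y2 : ℤ} {v : Site} (hy : y1 < y2) (h1 : v.2 = y1) (h2 : v.1 < x2) :
    idx x1 x2 y1 y2 v = 2 * (y2 - y1) + (x2 - x1) + (v.1 - x1) := by
  unfold idx
  rw [if_neg (by omega), if_neg (by omega), if_neg (by omega)]

/-- Prolongation of a connection along the row of its end point. -/
theorem rsw3_ext {T : Set Site} {a b : Site} {x : ℤ} (h : Conn T a b) (hx : x ≤ b.1) :
    Conn ({v | Conn T a v} ∪ {v | v.2 = b.2 ∧ x ≤ v.1 ∧ v.1 < b.1}) a (x, b.2) := by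
  refine (h.cluster.mono Set.subset_union_left).trans (Conn.symm (conn_hor hx fun t h1 h2 => ?_))
  rcases h2.lt_or_eq with h3 | rfl
  · exact Or.inr ⟨rfl, h1, h3⟩
  · exact Or.inl h

theorem rsw3_meet {S : Set Site} {w m : ℤ} (hm : 1 ≤ m) {a b a' b' : Site} (ha : a.2 = m)
    (hb : b.2 ≤ 0) (hb2 : 2 * b.1 + b.2 ≤ 1) (ha' : a'.2 = -m) (hb' : 0 ≤ b'.2)
    (hb2' : 2 * b'.1 + b'.2 ≤ 1) (h : Conn (S ∩ erect w (-m) m) a b)
    (h' : Conn (S ∩ erect w (-m) m) a' b') : ETB S w (-m) m := by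
  have e1 := rsw2_mem_erect.1 h.left_mem.2
  have e2 := rsw2_mem_erect.1 h.right_mem.2
  have e3 := rsw2_mem_erect.1 h'.left_mem.2
  have e4 := rsw2_mem_erect.1 h'.right_mem.2
  by_cases hbb : b.2 = b'.2
  · have : b = b' := Prod.ext (by omega) hbb
    subst this
    exact ⟨a', a, ha', ha, h'.trans h.symm⟩
  have hsub : ∀ c d : Site, d ∈ erect w (-m) m →
      {v | Conn (S ∩ erect w (-m) m) c v} ∪ {v | v.2 = d.2 ∧ -m - 1 ≤ v.1 ∧ v.1 < d.1} ⊆
        rect (-m - 1) (w + m + 1) (-m) m := by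
    rintro c d hd v (hv | hv)
    · have := rsw2_mem_erect.1 (Conn.right_mem hv).2
      rw [mem_rect]; omega
    · have := rsw2_mem_erect.1 hd
      simp only [Set.mem_ofPred_eq] at hv
      rw [mem_rect]; omega
  obtain ⟨v, h1, h2⟩ := meet_of_alt (x1 := -m - 1) (x2 := w + m + 1) (y1 := -m) (y2 := m)
    (a := a) (b := (-m - 1, b'.2)) (c := (-m - 1, b.2)) (d := a') (by omega) (by omega)
    ⟨by rw [mem_rect]; omega, by omega⟩ ⟨by simp only [mem_rect]; omega, Or.inl rfl⟩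
    ⟨by simp only [mem_rect]; omega, Or.inl rfl⟩ ⟨by rw [mem_rect]; omega, by omega⟩
    (by
      rw [rsw3_idx_top ha (by omega), rsw3_idx_left (by omega) (by omega),
        rsw3_idx_left (by omega) (by omega), rsw3_idx_bot (by omega) ha' (by omega)]
      exact Or.inl (Or.inl (by omega)))
    (hsub a b h.right_mem.2) (hsub a' b' h'.right_mem.2) (rsw3_ext h (by omega))
    (rsw3_ext h' (by omega)).symm
  rcases h1.right_mem with k1 | k1 <;> rcases h2.right_mem with k2 | k2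
  · exact ⟨a', a, ha', ha, Conn.trans k2 (Conn.symm k1)⟩
  · have := rsw2_mem_erect.1 (Conn.right_mem k1).2
    simp only [Set.mem_ofPred_eq] at k2
    omega
  · have := rsw2_mem_erect.1 (Conn.right_mem k2).2
    simp only [Set.mem_ofPred_eq] at k1
    omega
  · simp only [Set.mem_ofPred_eq] at k1 k2
    omega

theorem etb_double {w m : ℤ} (hw : 2 ≤ w) (hm : 1 ≤ m) :
    pr (ber (1 / 2)) (ev true fun S => ETB S w 0 m) ^ 2 / 16 ≤
      pr (ber (1 / 2)) (ev true fun S => ETB S w (-m) m) := by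
  set ν := ber (1 / 2)
  set h := pr ν (ev true fun S => ETB S w 0 m)
  let L := rsw3C (fun a b => a.2 = m ∧ b.2 ≤ 0 ∧ 2 * b.1 + b.2 ≤ 1) (erect w (-m) m)
  let L' := rsw3C (fun a b => a.2 = -m ∧ 0 ≤ b.2 ∧ 2 * b.1 + b.2 ≤ 1) (erect w (-m) m)
  have h0 : 0 ≤ h := pr_nonneg _ _
  have h1 : h ≤ 1 := pr_le_one _ _
  have h2 : h ≤ pr ν (ev true fun S => ETB S w 1 m) := by
    refine pr_mono _ ?_
    rintro ω ⟨a, b, ha, hb, hc⟩
    obtain ⟨a', b', k1, k2, k3, -⟩ := hc.sub_cross (fun v => v.2)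
      (fun x y hxy => by unfold Adj at hxy; omega) (i := 1) (j := m) hm (by omega) (by omega)
    refine ⟨a', b', k1, k2, k3.mono fun v hv => ⟨hv.1.1, ?_⟩⟩
    have k4 := rsw2_mem_erect.1 hv.1.2
    have k5 : 1 ≤ v.2 ∧ v.2 ≤ m := hv.2
    rw [rsw2_mem_erect]; omega
  have h3 := hook_ge hw hm
  have h4 : pr ν (ev true fun S => EHook S w m) ≤
      pr ν (ev true fun S => ETB S w (-m) m) + pr ν (ev true L) := by
    refine le_trans (pr_mono _ ?_) (pr_union_le _ _ _)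
    rintro ω ⟨a, b, ha, hb | hb, hc⟩
    · exact Or.inl ⟨b, a, hb, ha, hc.symm⟩
    · exact Or.inr ⟨a, b, ⟨ha, hb⟩, hc⟩
  have h5 : pr ν (ev true L) ≤ pr ν (ev true L') := by
    rw [← pr_ev_aut ν rsw2Rho true L]
    refine pr_mono _ ?_
    rintro ω ⟨a, b, ⟨k1, k2, k3⟩, hc⟩
    refine ⟨rsw2Rho.e a, rsw2Rho.e b, by simp only [rsw2Rho_apply]; omega,
      Conn.map rsw2Rho (hc.mono fun v hv => ⟨hv.1, ?_⟩)⟩
    have k4 := rsw2_mem_erect.1 hv.2
    simp only [rsw2_mem_erect, rsw2Rho_apply]; omega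
  by_cases hc : h / 4 ≤ pr ν (ev true L)
  · have h6 := rsw1_harris ν true (rsw3_IL _ (rsw2_finite w (-m) m))
      (rsw3_IL _ (rsw2_finite w (-m) m)) (by linarith only [h0]) hc (hc.trans h5)
    rw [show h ^ 2 / 16 = h / 4 * (h / 4) by ring]
    refine h6.trans (pr_mono _ ?_)
    rintro ω ⟨⟨a, b, ⟨k1, k2, k3⟩, k4⟩, a', b', ⟨k5, k6, k7⟩, k8⟩
    exact rsw3_meet hm k1 k2 k3 k5 k6 k7 k4 k8
  · (clear * - h0 h1 h2 h3 h4 hc; linarith only [h0, h2, h3, h4, hc, h1, mul_nonneg_of_nonpos_of_nonpos (Mathlib.Tactic.Linarith.sub_nonpos_of_le h0) (Mathlib.Tactic.Linarith.sub_nonpos_of_le h1)])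

theorem rsw3_step {w m : ℤ} (hw : 2 ≤ w) (hm : 1 ≤ m) {c : ℝ} (hc : 0 ≤ c)
    (h : c ≤ pr (ber (1 / 2)) (ev true fun S => ETB S w 0 m)) :
    c ^ 2 / 16 ≤ pr (ber (1 / 2)) (ev true fun S => ETB S (w + 1) 0 (2 * m)) := by
  refine le_trans (by gcongr) ((etb_double hw hm).trans ?_)
  rw [← pr_ev_aut _ (sh (-(m / 2), m)) true fun S => ETB S w (-m) m]
  refine pr_mono _ ?_
  rintro ω ⟨a, b, ha, hb, hc⟩
  refine ⟨(sh (-(m / 2), m)).e a, (sh (-(m / 2), m)).e b, by simp only [sh_apply, Prod.snd_add]; omega,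
    by simp only [sh_apply, Prod.snd_add]; omega, Conn.map _ (hc.mono fun v hv => ⟨hv.1, ?_⟩)⟩
  have k4 := rsw2_mem_erect.1 hv.2
  simp only [rsw2_mem_erect, sh_apply, Prod.fst_add, Prod.snd_add]; omega

theorem rsw3_flip (b : Bool) (x1 x2 y1 y2 : ℤ) :
    pr (ber (1 / 2)) (ev b fun S => LR S x1 x2 y1 y2) =
      pr (ber (1 / 2)) (ev true fun S => LR S x1 x2 y1 y2) := by
  cases b
  · have := pr_ev_flip (p := 1 / 2) (by norm_num) (by norm_num) false (rect_finite x1 x2 y1 y2)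
      (sup_LR x1 x2 y1 y2)
    rwa [show (1 - 1 / 2 : ℝ) = 1 / 2 by norm_num] at this
  · rfl

theorem rsw3_square {n : ℤ} (hn : 0 ≤ n) :
    1 / 2 ≤ pr (ber (1 / 2)) (ev true fun S => TB S 0 n 0 n) := by
  have h2 := pr_union_le (ber (1 / 2)) (ev false fun S => LR S 0 n 0 n)
    (ev (!false) fun S => TB S 0 n 0 n)
  have h3 : (ev false fun S => LR S 0 n 0 n) ∪ (ev (!false) fun S => TB S 0 n 0 n) = Set.univ :=
    Set.eq_univ_of_forall fun ω => by
      rw [Set.mem_union, mem_ev, mem_ev, Col_not]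
      exact hex _ hn hn
  rw [h3, pr_univ, rsw3_flip, Bool.not_false, pr_TB_eq, sub_zero] at h2
  rw [pr_TB_eq, sub_zero]
  linarith only [h2]

theorem rsw3_base {n : ℤ} (hn : 3 ≤ n) : (((1 / 2 : ℝ) ^ 2 / 16) ^ 2 / 16) ^ 2 / 16 ≤
    pr (ber (1 / 2)) (ev true fun S => LR S 0 (8 * n) 0 (6 * n)) := by
  have h0 : 1 / 2 ≤ pr (ber (1 / 2)) (ev true fun S => ETB S (3 * n) 0 n) := by
    refine (rsw3_square (n := n) (by omega)).trans (pr_mono _ ?_)
    rintro ω ⟨a, b, ha, hb, hc⟩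
    refine ⟨a, b, ha, hb, hc.mono fun v hv => ⟨hv.1, ?_⟩⟩
    have := mem_rect.1 hv.2
    rw [rsw2_mem_erect]; omega
  have h3 := rsw3_step (by omega) (by omega) (by positivity)
    (rsw3_step (by omega) (by omega) (by positivity) (rsw3_step (by omega) (by omega)
      (by norm_num) h0))
  have h4 := pr_TB_eq (ber (1 / 2)) true (-4 * n) (2 * n) 0 (8 * n)
  rw [sub_zero, show 2 * n - -4 * n = 6 * n by ring] at h4
  rw [← h4]
  refine h3.trans (pr_mono _ ?_)
  rintro ω ⟨a, b, ha, hb, hc⟩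
  refine ⟨a, b, ha, by omega, hc.mono fun v hv => ⟨hv.1, ?_⟩⟩
  have := rsw2_mem_erect.1 hv.2
  rw [mem_rect]; omega

theorem rsw3_long (ν : PW Bool) (b : Bool) {c : ℝ} (hc : 0 ≤ c) {n : ℤ} (hn : 0 ≤ n)
    (h : c ≤ pr ν (ev b fun S => LR S 0 (8 * n) 0 (6 * n))) (j : ℕ) :
    c ^ (2 * j + 1) ≤ pr ν (ev b fun S => LR S 0 ((2 * j + 8) * n) 0 (6 * n)) := by
  induction j with
  | zero => simpa using h
  | succ j ih =>
    have hj : (0 : ℤ) ≤ (j : ℤ) * n := mul_nonneg (Int.natCast_nonneg j) hn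
    have a2 : c ≤ pr ν (ev b fun S => LR S ((2 * j + 2) * n) ((2 * j + 10) * n) 0 (6 * n)) := by
      rw [pr_LR_shift, show (2 * (j : ℤ) + 10) * n - (2 * j + 2) * n = 8 * n by ring, sub_zero]
      exact h
    have a3 : c ≤ pr ν (ev b fun S => TB S ((2 * j + 2) * n) ((2 * j + 8) * n) 0 (6 * n)) := by
      rw [pr_TB_eq, show (2 * (j : ℤ) + 8) * n - (2 * j + 2) * n = 6 * n by ring, sub_zero]
      exact h.trans (pr_mono _ fun ω hω =>
        LR.mono_rect hω le_rfl (by linarith) (by linarith) le_rfl le_rfl)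
    have a4 := rsw1_harris ν b ((rsw1_IL_LR _ _ _ _).and (rsw1_IL_LR _ _ _ _)) (rsw1_IL_TB _ _ _ _)
      hc (rsw1_harris ν b (rsw1_IL_LR _ _ _ _) (rsw1_IL_LR _ _ _ _) hc ih a2) a3
    rw [show 2 * (j + 1) + 1 = 2 * j + 1 + 1 + 1 by ring, pow_succ, pow_succ]
    refine a4.trans (pr_mono _ fun ω hω => ?_)
    have := LR.glue (by linarith) (by linarith) (by linarith) hω.1.1 hω.1.2 hω.2
    show LR _ 0 ((2 * ((j + 1 : ℕ) : ℤ) + 8) * n) 0 (6 * n)
    rw [show (2 * ((j + 1 : ℕ) : ℤ) + 8) * n = (2 * j + 10) * n by push_cast; ring]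
    exact this

theorem rsw_half : ∃ c : ℝ, 0 < c ∧ ∀ N, RSW (1 / 2) c N := by
  obtain ⟨c, hc, h⟩ : ∃ c : ℝ, 0 < c ∧ ∀ n : ℤ, 3 ≤ n →
      c ≤ pr (ber (1 / 2)) (ev true fun S => LR S 0 (8 * n) 0 (6 * n)) :=
    ⟨_, by positivity, fun n hn => rsw3_base hn⟩
  refine ⟨min (c ^ (2 * 4 + 1)) ((1 / 4) ^ 35), lt_min (by positivity) (by positivity),
    fun N => ⟨by norm_num, by norm_num, fun n _ _ b => ?_⟩⟩
  by_cases hn : 18 ≤ n
  · rw [rsw3_flip]
    refine (min_le_left _ _).trans ((rsw3_long _ true hc.le (n := n / 6) (by omega)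
      (h _ (by omega)) 4).trans (pr_mono _ fun ω hω => ?_))
    exact LR.mono_rect hω le_rfl (by omega) (by push_cast; omega) le_rfl (by omega)
  · have h1 := pr_all_col (p := 1 / 2) (by norm_num) (by norm_num) b (rectF 0 (2 * n) 0 0)
    have h2 : (rectF 0 (2 * n) 0 0).card ≤ 35 := by
      rw [card_rectF, show ((0 : ℤ) + 1 - 0).toNat = 1 from rfl, mul_one]; omega
    refine (min_le_right _ _).trans ((pow_le_pow_of_le_one (by norm_num) (by norm_num) h2).trans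
      (h1.trans (pr_mono _ fun ω hω => ?_)))
    exact ⟨(0, 0), (2 * n, 0), rfl, rfl, conn_hor (by omega) fun x k1 k2 =>
      ⟨hω _ (by simp only [mem_rectF]; omega), by simp only [mem_rect]; omega⟩⟩

end Pool.Agent.Work.MP_ccd212_pr
end

-- merged part: Pool.Agent.Work.MP_ccd212_pr.Pr4
section
/-! The OSSS inequality for block variables, with a conditioned frame. -/

namespace Pool.Agent.Work.MP_ccd212_pr

variable {α : Type} [Fintype α] (μ : PW α)

/-- The two labellings agree outside the blocks indexed by `J`. -/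
def AgOff {β ι : Type} (B : ι → Set Site) (J : Finset ι) (ω ω' : Site → β) : Prop :=
  ∀ v, (∀ i ∈ J, v ∉ B i) → ω v = ω' v

/-- The block `B` is pivotal for `f`. -/
def BPiv {β : Type} (f : Set (Site → β)) (B : Set Site) : Set (Site → β) :=
  {ω | ∃ ω', (∀ v, v ∉ B → ω v = ω' v) ∧ ¬ (ω ∈ f ↔ ω' ∈ f)}

/-! ### Finite averages -/

/-- Expectation over independent labels on the finite set `Λ`. -/
noncomputable def Pr4Ex (Λ : Finset Site) (Ψ : (Λ → α) → ℝ) : ℝ :=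
  ∑ η : Λ → α, (∏ i, μ.w (η i)) * Ψ η

open Classical in
/-- The labels of `ζ` on `S`, those of `η` elsewhere. -/
noncomputable def Pr4mix {β : Type} {Λ : Finset Site} (S : Set Site) (ζ η : Λ → β) : Λ → β :=
  fun v => if v.1 ∈ S then ζ v else η v

open Classical in
/-- The labelling `ω` with the labels of `η` on `Λ ∩ S`. -/
noncomputable def Pr4rs {β : Type} {Λ : Finset Site} (S : Set Site) (η : Λ → β) (ω : Site → β) :
    Site → β :=
  fun v => if h : v ∈ Λ ∧ v ∈ S then η ⟨v, h.1⟩ else ω v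

section Ex

variable {Λ : Finset Site}

theorem Pr4_w_nonneg (η : Λ → α) : 0 ≤ ∏ i, μ.w (η i) :=
  Finset.prod_nonneg fun _ _ => μ.nonneg _

theorem Pr4_w_sum : ∑ η : Λ → α, ∏ i, μ.w (η i) = 1 := by
  classical
  have h := Finset.prod_univ_sum (fun _ : Λ => (Finset.univ : Finset α)) fun _ a => μ.w a
  rw [Fintype.piFinset_univ] at h
  rw [← h]
  simp [μ.sum_one]

theorem Pr4Ex_const (c : ℝ) : Pr4Ex μ Λ (fun _ => c) = c := by
  rw [Pr4Ex, ← Finset.sum_mul, Pr4_w_sum, one_mul]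

theorem Pr4Ex_mono {Ψ Φ : (Λ → α) → ℝ} (h : ∀ η, Ψ η ≤ Φ η) : Pr4Ex μ Λ Ψ ≤ Pr4Ex μ Λ Φ :=
  Finset.sum_le_sum fun η _ => mul_le_mul_of_nonneg_left (h η) (Pr4_w_nonneg μ η)

theorem Pr4Ex_congr {Ψ Φ : (Λ → α) → ℝ} (h : ∀ η, Ψ η = Φ η) : Pr4Ex μ Λ Ψ = Pr4Ex μ Λ Φ := by
  rw [show Ψ = Φ from funext h]

theorem Pr4Ex_nonneg {Ψ : (Λ → α) → ℝ} (h : ∀ η, 0 ≤ Ψ η) : 0 ≤ Pr4Ex μ Λ Ψ := by
  rw [← Pr4Ex_const μ (Λ := Λ) 0]
  exact Pr4Ex_mono μ h

theorem Pr4Ex_add (Ψ Φ : (Λ → α) → ℝ) :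
    Pr4Ex μ Λ (fun η => Ψ η + Φ η) = Pr4Ex μ Λ Ψ + Pr4Ex μ Λ Φ := by
  simp only [Pr4Ex, mul_add, Finset.sum_add_distrib]

theorem Pr4Ex_sub (Ψ Φ : (Λ → α) → ℝ) :
    Pr4Ex μ Λ (fun η => Ψ η - Φ η) = Pr4Ex μ Λ Ψ - Pr4Ex μ Λ Φ := by
  simp only [Pr4Ex, mul_sub, Finset.sum_sub_distrib]

theorem Pr4Ex_mul_const (Ψ : (Λ → α) → ℝ) (c : ℝ) :
    Pr4Ex μ Λ (fun η => Ψ η * c) = Pr4Ex μ Λ Ψ * c := by
  simp only [Pr4Ex, Finset.sum_mul, mul_assoc]

theorem Pr4Ex_const_mul (Ψ : (Λ → α) → ℝ) (c : ℝ) :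
    Pr4Ex μ Λ (fun η => c * Ψ η) = c * Pr4Ex μ Λ Ψ := by
  simp only [Pr4Ex, Finset.mul_sum, mul_left_comm]

theorem Pr4Ex_sum {κ : Type} (s : Finset κ) (Ψ : κ → (Λ → α) → ℝ) :
    Pr4Ex μ Λ (fun η => ∑ k ∈ s, Ψ k η) = ∑ k ∈ s, Pr4Ex μ Λ (Ψ k) := by
  simp only [Pr4Ex, Finset.mul_sum]
  exact Finset.sum_comm

theorem Pr4Ex_mul_mul (Ψ Φ : (Λ → α) → ℝ) :
    Pr4Ex μ Λ (fun a => Pr4Ex μ Λ fun b => Ψ a * Φ b) = Pr4Ex μ Λ Ψ * Pr4Ex μ Λ Φ := by
  rw [← Pr4Ex_mul_const]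
  exact Pr4Ex_congr μ fun a => Pr4Ex_const_mul μ Φ (Ψ a)

theorem Pr4mix_mix {β : Type} (S : Set Site) (ζ η : Λ → β) :
    Pr4mix S (Pr4mix S η ζ) (Pr4mix S ζ η) = η := by
  funext v
  by_cases h : v.1 ∈ S <;> simp [Pr4mix, h]

/-- Exchange of the labels on `S` between two labellings. -/
noncomputable def Pr4swap {β : Type} (Λ : Finset Site) (S : Set Site) :
    (Λ → β) × (Λ → β) ≃ (Λ → β) × (Λ → β) where
  toFun p := (Pr4mix S p.2 p.1, Pr4mix S p.1 p.2)
  invFun p := (Pr4mix S p.2 p.1, Pr4mix S p.1 p.2)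
  left_inv p := by simp only [Pr4mix_mix]
  right_inv p := by simp only [Pr4mix_mix]

theorem Pr4_w_mix (S : Set Site) (ζ η : Λ → α) :
    (∏ i, μ.w (Pr4mix S ζ η i)) * ∏ i, μ.w (Pr4mix S η ζ i) =
      (∏ i, μ.w (η i)) * ∏ i, μ.w (ζ i) := by
  rw [← Finset.prod_mul_distrib, ← Finset.prod_mul_distrib]
  refine Finset.prod_congr rfl fun v _ => ?_
  by_cases h : v.1 ∈ S <;> simp [Pr4mix, h, mul_comm]

/-- Resampling the labels on `S` does not change the law. -/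
theorem Pr4Ex_split (S : Set Site) (Ψ : (Λ → α) → ℝ) :
    Pr4Ex μ Λ Ψ = Pr4Ex μ Λ fun η => Pr4Ex μ Λ fun ζ => Ψ (Pr4mix S ζ η) := by
  have h1 : Pr4Ex μ Λ Ψ = ∑ p : (Λ → α) × (Λ → α),
      ((∏ i, μ.w (p.1 i)) * ∏ i, μ.w (p.2 i)) * Ψ p.1 := by
    rw [Fintype.sum_prod_type, Pr4Ex]
    refine Finset.sum_congr rfl fun η _ => ?_
    simp only
    rw [← Finset.sum_mul, ← Finset.mul_sum, Pr4_w_sum, mul_one]
  have h2 : (Pr4Ex μ Λ fun η => Pr4Ex μ Λ fun ζ => Ψ (Pr4mix S ζ η)) =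
      ∑ p : (Λ → α) × (Λ → α),
        ((∏ i, μ.w (p.1 i)) * ∏ i, μ.w (p.2 i)) * Ψ (Pr4mix S p.2 p.1) := by
    rw [Fintype.sum_prod_type, Pr4Ex]
    refine Finset.sum_congr rfl fun η _ => ?_
    simp only [Pr4Ex, Finset.mul_sum, mul_assoc]
  rw [h1, h2, ← (Pr4swap Λ S).sum_comp]
  refine Finset.sum_congr rfl fun p _ => ?_
  change ((∏ i, μ.w (Pr4mix S p.2 p.1 i)) * ∏ i, μ.w (Pr4mix S p.1 p.2 i)) *
    Ψ (Pr4mix S p.2 p.1) = _
  rw [Pr4_w_mix]

theorem Pr4rs_union {β : Type} (S T : Set Site) (ζ η : Λ → β) (ω : Site → β) :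
    Pr4rs (S ∪ T) (Pr4mix S ζ η) ω = Pr4rs S ζ (Pr4rs T η ω) := by
  funext v
  by_cases h1 : v ∈ Λ <;> by_cases h2 : v ∈ S <;> by_cases h3 : v ∈ T <;>
    simp [Pr4rs, Pr4mix, h1, h2, h3]

theorem Pr4rs_of_not_mem {β : Type} {S : Set Site} (η : Λ → β) (ω : Site → β) {v : Site}
    (h : v ∉ S) : Pr4rs S η ω v = ω v := by
  simp [Pr4rs, h]

theorem Pr4rs_congr {β : Type} (S : Set Site) (η : Λ → β) {ω ω' : Site → β} {v : Site}
    (h : ω v = ω' v) : Pr4rs S η ω v = Pr4rs S η ω' v := by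
  by_cases h1 : v ∈ Λ ∧ v ∈ S <;> simp [Pr4rs, h1, h]

theorem Pr4rs_of_mem {β : Type} {S T : Set Site} (η : Λ → β) (ω ω' : Site → β) {v : Site}
    (h : v ∈ Λ) (hS : v ∈ S) (hT : v ∈ T) : Pr4rs S η ω v = Pr4rs T η ω' v := by
  simp [Pr4rs, h, hS, hT]

theorem Pr4rs_univ {β : Type} (η : Λ → β) (ω : Site → β) :
    Pr4rs Set.univ η ω = Function.updateFinset ω Λ η := by
  funext v
  by_cases h : v ∈ Λ <;> simp [Pr4rs, Function.updateFinset, h]

end Ex

/-- Average of `F` over the labels in `Λ ∩ S`, the other labels being those of `ω`. -/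
noncomputable def Pr4av (Λ : Finset Site) (S : Set Site) (F : (Site → α) → ℝ) (ω : Site → α) : ℝ :=
  Pr4Ex μ Λ fun η => F (Pr4rs S η ω)

/-- Joint average, with two base labellings. -/
noncomputable def Pr4av2 (Λ : Finset Site) (S : Set Site) (F G : (Site → α) → ℝ)
    (ω ω' : Site → α) : ℝ :=
  Pr4Ex μ Λ fun η => F (Pr4rs S η ω) * G (Pr4rs S η ω')

/-- Indicator function. -/
noncomputable def Pr4ind {β : Type} (E : Set (Site → β)) : (Site → β) → ℝ :=
  Set.indicator E fun _ => (1 : ℝ)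

theorem Pr4ind_of_mem {β : Type} {E : Set (Site → β)} {ω : Site → β} (h : ω ∈ E) :
    Pr4ind E ω = 1 := Set.indicator_of_mem h _

theorem Pr4ind_of_not_mem {β : Type} {E : Set (Site → β)} {ω : Site → β} (h : ω ∉ E) :
    Pr4ind E ω = 0 := Set.indicator_of_notMem h _

theorem Pr4ind_nonneg {β : Type} (E : Set (Site → β)) (ω : Site → β) : 0 ≤ Pr4ind E ω := by
  by_cases h : ω ∈ E
  · rw [Pr4ind_of_mem h]; exact zero_le_one
  · rw [Pr4ind_of_not_mem h]

theorem Pr4ind_congr {β : Type} {E : Set (Site → β)} {ω ω' : Site → β} (h : ω ∈ E ↔ ω' ∈ E) :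
    Pr4ind E ω = Pr4ind E ω' := by
  by_cases h1 : ω ∈ E
  · rw [Pr4ind_of_mem h1, Pr4ind_of_mem (h.1 h1)]
  · rw [Pr4ind_of_not_mem h1, Pr4ind_of_not_mem fun h2 => h1 (h.2 h2)]

theorem Pr4ind_dep {β : Type} {E : Set (Site → β)} {S : Set Site} (hE : Dep E S)
    {ω ω' : Site → β} (h : ∀ v ∈ S, ω v = ω' v) : Pr4ind E ω = Pr4ind E ω' :=
  Pr4ind_congr ⟨hE ω ω' h, hE ω' ω fun v hv => (h v hv).symm⟩

theorem Pr4av_union (Λ : Finset Site) (S T : Set Site) (F : (Site → α) → ℝ) (ω : Site → α) :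
    Pr4av μ Λ (S ∪ T) F ω = Pr4Ex μ Λ fun a => Pr4av μ Λ S F (Pr4rs T a ω) := by
  rw [Pr4av, Pr4Ex_split μ S]
  simp only [Pr4rs_union, Pr4av]

theorem Pr4av2_union (Λ : Finset Site) (S T : Set Site) (F G : (Site → α) → ℝ)
    (ω ω' : Site → α) : Pr4av2 μ Λ (S ∪ T) F G ω ω' =
      Pr4Ex μ Λ fun a => Pr4av2 μ Λ S F G (Pr4rs T a ω) (Pr4rs T a ω') := by
  rw [Pr4av2, Pr4Ex_split μ S]
  simp only [Pr4rs_union, Pr4av2]

theorem Pr4av_ind_nonneg (Λ : Finset Site) (S : Set Site) (E : Set (Site → α)) (ω : Site → α) :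
    0 ≤ Pr4av μ Λ S (Pr4ind E) ω :=
  Pr4Ex_nonneg μ fun _ => Pr4ind_nonneg E _

/-- The probability of an event of the labels in `T ⊆ Λ ∩ S` is an average. -/
theorem Pr4av_eq_pr {Λ : Finset Site} {S T : Set Site} {E : Set (Site → α)} (hE : Dep E T)
    (hΛ : T ⊆ Λ) (hS : T ⊆ S) (ω : Site → α) : Pr4av μ Λ S (Pr4ind E) ω = pr μ E := by
  classical
  rw [pr_eq_sum μ Λ (fun x y h => hE x y fun v hv => h v (hΛ hv)) ω]
  refine Finset.sum_congr rfl fun η _ => ?_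
  rw [← Pr4rs_univ]
  congr 1
  exact Pr4ind_dep hE fun v hv => Pr4rs_of_mem η ω ω (hΛ hv) (hS hv) (Set.mem_univ v)

/-! ### The covariance inequality -/

theorem Pr4_agOff {β ι : Type} {Λ : Finset Site} (B : ι → Set Site) (J : Finset ι) (η : Λ → β)
    (ω : Site → β) : AgOff B J ω (Pr4rs (⋃ j ∈ J, B j) η ω) := fun v hv =>
  (Pr4rs_of_not_mem η ω (by simpa using hv)).symm

theorem Pr4_cov {ι : Type} [DecidableEq ι] (Λ : Finset Site) (I : Finset ι) (B : ι → Set Site)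
    (f : Set (Site → α)) (R : ι → Set (Site → α))
    (hDT : ∀ J ⊆ I, ∀ ω, (∀ ω', AgOff B J ω ω' → (ω ∈ f ↔ ω' ∈ f)) ∨
      ∃ i ∈ J, ∀ ω', AgOff B J ω ω' → ω' ∈ R i) (J : Finset ι) :
    J ⊆ I → ∀ ω ω' : Site → α,
      Pr4av2 μ Λ (⋃ j ∈ J, B j) (Pr4ind f) (Pr4ind f) ω ω' ≤
        Pr4av μ Λ (⋃ j ∈ J, B j) (Pr4ind f) ω * Pr4av μ Λ (⋃ j ∈ J, B j) (Pr4ind f) ω' +
        ∑ j ∈ J, Pr4av μ Λ (⋃ j ∈ J, B j) (Pr4ind (R j)) ω *
          Pr4av μ Λ (⋃ j ∈ J, B j) (Pr4ind (BPiv f (B j))) ω' := by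
  induction J using Finset.strongInduction with
  | H J ih =>
    intro hJ ω ω'
    rcases hDT J hJ ω with hc | ⟨i, hi, hR⟩
    · have h1 : ∀ η : Λ → α, Pr4ind f (Pr4rs (⋃ j ∈ J, B j) η ω) = Pr4ind f ω := fun η =>
        (Pr4ind_congr (hc _ (Pr4_agOff B J η ω))).symm
      have h2 : Pr4av2 μ Λ (⋃ j ∈ J, B j) (Pr4ind f) (Pr4ind f) ω ω' =
          Pr4av μ Λ (⋃ j ∈ J, B j) (Pr4ind f) ω * Pr4av μ Λ (⋃ j ∈ J, B j) (Pr4ind f) ω' := by
        simp only [Pr4av2, Pr4av, h1]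
        rw [Pr4Ex_const, Pr4Ex_const_mul]
      rw [h2]
      exact le_add_of_nonneg_right (Finset.sum_nonneg fun j _ =>
        mul_nonneg (Pr4av_ind_nonneg μ _ _ _ _) (Pr4av_ind_nonneg μ _ _ _ _))
    · have h1 : Pr4av μ Λ (⋃ j ∈ J, B j) (Pr4ind (R i)) ω = 1 := by
        rw [← Pr4Ex_const μ (Λ := Λ) 1]
        exact Pr4Ex_congr μ fun η => Pr4ind_of_mem (hR _ (Pr4_agOff B J η ω))
      have hU : (⋃ j ∈ J, B j) = (⋃ j ∈ J.erase i, B j) ∪ B i := by
        conv_lhs => rw [← Finset.insert_erase hi, Finset.set_biUnion_insert]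
        exact Set.union_comm _ _
      rw [← Finset.add_sum_erase J _ hi, h1, one_mul, hU]
      set S : Set Site := ⋃ j ∈ J.erase i, B j with hS
      have IH := ih (J.erase i) (Finset.erase_ssubset hi) ((Finset.erase_subset i J).trans hJ)
      rw [← hS] at IH
      have hstep : ∀ a b : Λ → α,
          Pr4av2 μ Λ S (Pr4ind f) (Pr4ind f) (Pr4rs (B i) a ω) (Pr4rs (B i) a ω') ≤
            Pr4av2 μ Λ S (Pr4ind f) (Pr4ind f) (Pr4rs (B i) a ω) (Pr4rs (B i) b ω') +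
            Pr4av μ Λ S (Pr4ind (BPiv f (B i))) (Pr4rs (B i) a ω') := by
        intro a b
        rw [Pr4av2, Pr4av2, Pr4av, ← Pr4Ex_add]
        refine Pr4Ex_mono μ fun η => ?_
        by_cases hp : Pr4rs S η (Pr4rs (B i) a ω') ∈ BPiv f (B i)
        · rw [Pr4ind_of_mem hp]
          have h0 := mul_nonneg (Pr4ind_nonneg f (Pr4rs S η (Pr4rs (B i) a ω)))
            (Pr4ind_nonneg f (Pr4rs S η (Pr4rs (B i) b ω')))
          by_cases h3 : Pr4rs S η (Pr4rs (B i) a ω) ∈ f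
          · by_cases h4 : Pr4rs S η (Pr4rs (B i) a ω') ∈ f
            · rw [Pr4ind_of_mem h4, mul_one]
              nth_rewrite 1 [Pr4ind_of_mem h3]
              linarith
            · rw [Pr4ind_of_not_mem h4, mul_zero]
              linarith
          · rw [Pr4ind_of_not_mem h3, zero_mul, zero_mul]
            linarith
        · rw [Pr4ind_of_not_mem hp, add_zero]
          have h3 : Pr4rs S η (Pr4rs (B i) a ω') ∈ f ↔ Pr4rs S η (Pr4rs (B i) b ω') ∈ f := by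
            by_contra hcon
            refine hp ⟨_, fun v hv => Pr4rs_congr S η ?_, hcon⟩
            rw [Pr4rs_of_not_mem a ω' hv, Pr4rs_of_not_mem b ω' hv]
          rw [Pr4ind_congr h3]
      have hall : ∀ a b : Λ → α,
          Pr4av2 μ Λ S (Pr4ind f) (Pr4ind f) (Pr4rs (B i) a ω) (Pr4rs (B i) a ω') ≤
            Pr4av μ Λ S (Pr4ind f) (Pr4rs (B i) a ω) * Pr4av μ Λ S (Pr4ind f) (Pr4rs (B i) b ω') +
            (Pr4av μ Λ S (Pr4ind (BPiv f (B i))) (Pr4rs (B i) a ω') +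
            ∑ j ∈ J.erase i, Pr4av μ Λ S (Pr4ind (R j)) (Pr4rs (B i) a ω) *
              Pr4av μ Λ S (Pr4ind (BPiv f (B j))) (Pr4rs (B i) b ω')) := by
        intro a b
        have h3 := hstep a b
        have h4 := IH (Pr4rs (B i) a ω) (Pr4rs (B i) b ω')
        linarith
      have hfin := Pr4Ex_mono μ (Λ := Λ) fun a => Pr4Ex_mono μ (Λ := Λ) fun b => hall a b
      simp only [Pr4Ex_add, Pr4Ex_sum, Pr4Ex_const, Pr4Ex_mul_mul] at hfin
      simp only [Pr4av_union, Pr4av2_union]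
      exact hfin

/-- The event that a block is pivotal is local. -/
theorem Pr4_dep_bpiv {β : Type} {f : Set (Site → β)} {S : Set Site} (hf : Dep f S)
    (B : Set Site) : Dep (BPiv f B) S := by
  rintro x y hxy ⟨x', h1, h2⟩
  refine ⟨hyb B x' y, fun v hv => by simp [hyb, hv], fun h3 => h2 ?_⟩
  have h4 : ∀ v ∈ S, x' v = hyb B x' y v := fun v hv => by
    by_cases h : v ∈ B
    · simp [hyb, h]
    · simp only [hyb, h, if_false]
      rw [← h1 v h, hxy v hv]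
  constructor
  · intro h
    exact hf _ _ (fun v hv => (h4 v hv).symm) (h3.1 (hf _ _ hxy h))
  · intro h
    exact hf _ _ (fun v hv => (hxy v hv).symm) (h3.2 (hf _ _ h4 h))

/-- The conditional probability given the frame only depends on `L`. -/
theorem Pr4av_dep {Λ : Finset Site} {U L : Set Site} {A : Set (Site → α)} (dA : Dep A (L ∪ U))
    (hU : U ⊆ Λ) {x y : Site → α} (h : ∀ v ∈ L, x v = y v) :
    Pr4av μ Λ U (Pr4ind A) x = Pr4av μ Λ U (Pr4ind A) y :=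
  Pr4Ex_congr μ fun η => Pr4ind_dep dA fun v hv => by
    rcases hv with hv | hv
    · exact Pr4rs_congr U η (h v hv)
    · exact Pr4rs_of_mem η x y (hU hv) hv hv

/-- Independence of the two conditional probabilities. -/
theorem Pr4_frame {Λ : Finset Site} {U L L' : Set Site} {A A' : Set (Site → α)}
    (dA : Dep A (L ∪ U)) (dA' : Dep A' (L' ∪ U)) (hU : U ⊆ Λ) (hL : L ⊆ Λ) (hL' : L' ⊆ Λ)
    (hLL : Disjoint L L') (ω : Site → α) :
    Pr4av μ Λ Set.univ (fun x => Pr4av μ Λ U (Pr4ind A) x * Pr4av μ Λ U (Pr4ind A') x) ω =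
      pr μ A * pr μ A' := by
  have h1 : ∀ x, Pr4av μ Λ L
      (fun x => Pr4av μ Λ U (Pr4ind A) x * Pr4av μ Λ U (Pr4ind A') x) x =
        pr μ A * Pr4av μ Λ U (Pr4ind A') x := by
    intro x
    rw [← Pr4av_eq_pr μ dA (Set.union_subset hL hU) (Set.union_comm L U).subset x, Pr4av_union,
      ← Pr4Ex_mul_const]
    refine Pr4Ex_congr μ fun η => ?_
    beta_reduce
    rw [Pr4av_dep μ dA' hU (x := Pr4rs L η x) (y := x) fun v hv =>
      Pr4rs_of_not_mem η x fun h => Set.disjoint_left.1 hLL h hv]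
  rw [← Set.union_univ L, Pr4av_union]
  simp only [h1]
  rw [Pr4Ex_const_mul, ← Pr4av_union, Set.union_univ,
    Pr4av_eq_pr μ dA' (Set.union_subset hL' hU) (Set.subset_univ _)]

/-- `f` is computed by an exploration of the blocks in which block `i` is looked at only on `R i`,
an event of the blocks of probability at most `δ i`; `A ⊆ f` and
`A' ⊆ fᶜ` use disjoint parts of the complement of the blocks. -/
theorem osss {ι : Type} [DecidableEq ι] (I : Finset ι) (B : ι → Set Site)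
    (hB : ∀ i ∈ I, (B i).Finite) (hd : ∀ i ∈ I, ∀ j ∈ I, i ≠ j → Disjoint (B i) (B j))
    {f : Set (Site → α)} (hf : Loc f) (R : ι → Set (Site → α)) (δ : ι → ℝ)
    (hDT : ∀ J ⊆ I, ∀ ω, (∀ ω', AgOff B J ω ω' → (ω ∈ f ↔ ω' ∈ f)) ∨
      ∃ i ∈ J, ∀ ω', AgOff B J ω ω' → ω' ∈ R i)
    (hR : ∀ i ∈ I, Dep (R i) (⋃ j ∈ I, B j))
    (hδ : ∀ i ∈ I, pr μ (R i) ≤ δ i) {A A' : Set (Site → α)} {L L' : Set Site}
    (hL : L.Finite) (hL' : L'.Finite) (hLL : Disjoint L L') (hA : A ⊆ f) (hA' : A' ⊆ fᶜ)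
    (dA : Dep A (L ∪ ⋃ j ∈ I, B j)) (dA' : Dep A' (L' ∪ ⋃ j ∈ I, B j)) :
    pr μ A * pr μ A' ≤ ∑ i ∈ I, δ i * pr μ (BPiv f (B i)) := by
  have _ := hd
  obtain ⟨S, hS, hfS⟩ := hf
  have hUf : (⋃ j ∈ I, B j).Finite := Set.Finite.biUnion I.finite_toSet hB
  have hcov := Pr4_cov μ (((hS.union hUf).union hL).union hL').toFinset I B f R hDT I
    (Finset.Subset.refl I)
  set U : Set Site := ⋃ j ∈ I, B j with hUdef
  set Λ : Finset Site := (((hS.union hUf).union hL).union hL').toFinset with hΛ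
  have hΛS : S ⊆ Λ := fun v hv => by simp [hΛ, hv]
  have hΛU : U ⊆ Λ := fun v hv => by
    rw [hΛ, Set.Finite.coe_toFinset]
    exact Or.inl (Or.inl (Or.inr hv))
  have hΛL : L ⊆ Λ := fun v hv => by simp [hΛ, hv]
  have hΛL' : L' ⊆ Λ := fun v hv => by simp [hΛ, hv]
  have hne : Nonempty α := by
    by_contra h
    have h1 := μ.sum_one
    rw [not_nonempty_iff] at h
    simp at h1
  obtain ⟨a0⟩ := hne
  have hx : ∀ x : Site → α, Pr4av μ Λ U (Pr4ind A) x * Pr4av μ Λ U (Pr4ind A') x ≤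
      ∑ i ∈ I, δ i * Pr4av μ Λ U (Pr4ind (BPiv f (B i))) x := by
    intro x
    have h1 := hcov x x
    have h2 : Pr4av2 μ Λ U (Pr4ind f) (Pr4ind f) x x = Pr4av μ Λ U (Pr4ind f) x := by
      refine Pr4Ex_congr μ fun η => ?_
      by_cases h : Pr4rs U η x ∈ f
      · rw [Pr4ind_of_mem h, one_mul]
      · rw [Pr4ind_of_not_mem h, mul_zero]
    have h3 : Pr4av μ Λ U (Pr4ind A) x ≤ Pr4av μ Λ U (Pr4ind f) x := by
      refine Pr4Ex_mono μ fun η => ?_
      by_cases h : Pr4rs U η x ∈ A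
      · rw [Pr4ind_of_mem h, Pr4ind_of_mem (hA h)]
      · rw [Pr4ind_of_not_mem h]
        exact Pr4ind_nonneg _ _
    have h4 : Pr4av μ Λ U (Pr4ind A') x ≤ 1 - Pr4av μ Λ U (Pr4ind f) x := by
      rw [← Pr4Ex_const μ (Λ := Λ) 1, Pr4av, Pr4av, ← Pr4Ex_sub]
      refine Pr4Ex_mono μ fun η => ?_
      by_cases h : Pr4rs U η x ∈ f
      · rw [Pr4ind_of_mem h, Pr4ind_of_not_mem fun h' => hA' h' h, sub_self]
      · rw [Pr4ind_of_not_mem h, sub_zero]
        by_cases h' : Pr4rs U η x ∈ A'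
        · rw [Pr4ind_of_mem h']
        · rw [Pr4ind_of_not_mem h']
          exact zero_le_one
    have h5 : ∑ j ∈ I, Pr4av μ Λ U (Pr4ind (R j)) x * Pr4av μ Λ U (Pr4ind (BPiv f (B j))) x ≤
        ∑ i ∈ I, δ i * Pr4av μ Λ U (Pr4ind (BPiv f (B i))) x := by
      refine Finset.sum_le_sum fun j hj => ?_
      rw [Pr4av_eq_pr μ (hR j hj) hΛU (Set.Subset.refl U)]
      exact mul_le_mul_of_nonneg_right (hδ j hj) (Pr4av_ind_nonneg μ _ _ _ _)
    have h6 := mul_le_mul h3 h4 (Pr4av_ind_nonneg μ _ _ _ _) (Pr4av_ind_nonneg μ _ _ _ _)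
    rw [h2] at h1
    linarith only [h1, h5, h6]
  rw [← Pr4_frame μ dA dA' hΛU hΛL hΛL' hLL fun _ => a0]
  refine (Pr4Ex_mono μ fun η => hx _).trans (le_of_eq ?_)
  rw [Pr4Ex_sum]
  refine Finset.sum_congr rfl fun i _ => ?_
  rw [Pr4Ex_const_mul, ← Pr4av_union, Set.union_univ,
    Pr4av_eq_pr μ (Pr4_dep_bpiv hfS (B i)) hΛS (Set.subset_univ _)]

end Pool.Agent.Work.MP_ccd212_pr
end

-- merged part: Pool.Agent.Work.MP_ccd212_pr.Piv
section
/-! Many boxes are pivotal: the OSSS inequality with a moving frame. -/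

namespace Pool.Agent.Work.MP_ccd212_pr

/-- Four arms from the box of radius `u - 1` at `v` to the sides of `[0,6s] × [0,3s]`. -/
def PivBox (s : ℕ) (v : Site) (u : ℕ) (S : Set Site) : Prop :=
  Arms4 ((sh v).e ⁻¹' S) (-v.1) (6 * s - v.1) (-v.2) (3 * s - v.2) u
    (PivT (-v.1) (6 * s - v.1) (-v.2) (3 * s - v.2))

/-- The central part of `[0,6s] × [0,3s]`. -/
noncomputable def core (s : ℕ) : Finset Site := rectF (s / 2 : ℕ) (6 * s - (s / 2 : ℕ)) s (2 * s)

/-- The cell of side `u` with index `i`, for the grid anchored at `a`. -/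
def cell (a : Site) (u : ℕ) (i : Site) : Set Site :=
  rect (a.1 + i.1 * u) (a.1 + i.1 * u + u - 1) (a.2 + i.2 * u) (a.2 + i.2 * u + u - 1)

theorem Piv_LR_iff {x1 x2 y1 y2 : ℤ} (hx : x1 ≤ x2) (hy : y1 ≤ y2) (ω : Site → Bool) :
    (ω ∈ ev true fun S => LR S x1 x2 y1 y2) ↔ ¬ TB (Col ω false) x1 x2 y1 y2 := by
  have e : Col ω false = (Col ω true)ᶜ := Col_not ω true
  rw [mem_ev, e]
  refine ⟨fun h h' => ?_, fun h => (hex _ hx hy).resolve_right h⟩
  obtain ⟨v, h1, h2, _⟩ := h.inter_TB h'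
  exact h2 h1

/-- The exploration in an abstract setting: `R` is the explored region, `B` the unrevealed part. -/
theorem Piv_abs {R B D : Set Site} {ω ω₁ ω₂ : Site → Bool} (hB : B ⊆ R)
    (h₁ : ∀ v, v ∉ B → ω v = ω₁ v) (h₂ : ∀ v, v ∉ B → ω v = ω₂ v)
    (hn : ∀ b t, b ∈ B → Adj t b →
      ¬ (t ∉ R ∨ ∃ t0 t1 : Site, Adj t0 t1 ∧ t0 ∉ R ∧ Conn ((Col ω false ∩ R) \ B) t1 t))
    {p q : Site} (hp : p ∉ R) (h : Conn (Col ω₁ false ∩ D) p q) : Conn (Col ω₂ false ∩ D) p q := by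
  have key : ∀ v, v ∉ B → v ∈ Col ω₁ false ∩ D → v ∈ Col ω₂ false ∩ D := fun v hv hv' =>
    ⟨by rw [mem_Col, ← h₂ v hv, h₁ v hv]; exact hv'.1, hv'.2⟩
  refine (h.ind (P := fun t => (t ∉ R ∨ ∃ t0 t1 : Site, Adj t0 t1 ∧ t0 ∉ R ∧
    Conn ((Col ω false ∩ R) \ B) t1 t) ∧ Conn (Col ω₂ false ∩ D) p t)
    ⟨Or.inl hp, Conn.refl (key p (fun hb => hp (hB hb)) h.left_mem)⟩ ?_).2
  rintro x y _ hy hxy ⟨hx, hc⟩
  have hyB : y ∉ B := fun hb => hn y x hb hxy hx
  refine ⟨?_, hc.tail hxy (key y hyB hy)⟩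
  by_cases hyR : y ∈ R
  · have hy' : y ∈ (Col ω false ∩ R) \ B :=
      ⟨⟨by rw [mem_Col, h₁ y hyB]; exact hy.1, hyR⟩, hyB⟩
    rcases hx with hx | ⟨t0, t1, h3, h4, h5⟩
    · exact Or.inr ⟨x, y, hxy, hx, Conn.refl hy'⟩
    · exact Or.inr ⟨t0, t1, h3, h4, h5.tail hxy hy'⟩
  · exact Or.inl hyR

theorem Piv_cell_sub {i1 i2 j1 j2 : ℤ} {a i : Site} {u : ℕ} (hi : i ∈ rectF i1 i2 j1 j2) :
    cell a u i ⊆
      rect (a.1 + i1 * u) (a.1 + i2 * u + u - 1) (a.2 + j1 * u) (a.2 + j2 * u + u - 1) := by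
  rintro v ⟨h1, h2, h3, h4⟩
  obtain ⟨k1, k2, k3, k4⟩ := mem_rectF.1 hi
  have hu : (0 : ℤ) ≤ u := Int.natCast_nonneg u
  have e1 := mul_le_mul_of_nonneg_right k1 hu
  have e2 := mul_le_mul_of_nonneg_right k2 hu
  have e3 := mul_le_mul_of_nonneg_right k3 hu
  have e4 := mul_le_mul_of_nonneg_right k4 hu
  exact ⟨by linarith, by linarith, by linarith, by linarith⟩

theorem Piv_big {s n : ℕ} (hn : n ≤ s / 2) {v : Site} (hv : v ∈ core s) :
    Big (-v.1) (6 * s - v.1) (-v.2) (3 * s - v.2) n := by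
  obtain ⟨k1, k2, k3, k4⟩ := mem_rectF.1 hv
  exact ⟨by omega, by omega, by omega, by omega⟩

/-- The exploration of the closed clusters of the frame. The blocks are the cells with index in
the rectangle `[i1,i2] × [j1,j2]`, their union lies strictly inside `[x1,x2] × [y1,y2]`. -/
theorem piv_DT {x1 x2 y1 y2 i1 i2 j1 j2 : ℤ} {a : Site} {u : ℕ} (hu : 1 ≤ u)
    (hy : y1 < a.2 + j1 * u) (J : Finset Site) (hJ : J ⊆ rectF i1 i2 j1 j2) (hx : x1 ≤ x2)
    (hy' : y1 ≤ y2) (ω : Site → Bool) :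
    (∀ ω', AgOff (cell a u) J ω ω' →
      (ω ∈ ev true (fun S => LR S x1 x2 y1 y2) ↔ ω' ∈ ev true fun S => LR S x1 x2 y1 y2)) ∨
    ∃ i ∈ J, ∀ ω', AgOff (cell a u) J ω ω' →
      ∃ b t : Site, b ∈ cell a u i ∧ Adj t b ∧
        (t ∉ rect (a.1 + i1 * u) (a.1 + i2 * u + u - 1) (a.2 + j1 * u) (a.2 + j2 * u + u - 1) ∨
          ∃ t0 t1 : Site, Adj t0 t1 ∧
            t0 ∉ rect (a.1 + i1 * u) (a.1 + i2 * u + u - 1) (a.2 + j1 * u) (a.2 + j2 * u + u - 1) ∧
            Conn (Col ω' false ∩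
              rect (a.1 + i1 * u) (a.1 + i2 * u + u - 1) (a.2 + j1 * u) (a.2 + j2 * u + u - 1))
              t1 t) := by
  generalize hR : rect (a.1 + i1 * u) (a.1 + i2 * u + u - 1) (a.2 + j1 * u)
    (a.2 + j2 * u + u - 1) = R
  obtain ⟨B, hB⟩ : ∃ B : Set Site, ∀ v, v ∈ B ↔ ∃ i ∈ J, v ∈ cell a u i :=
    ⟨{v | ∃ i ∈ J, v ∈ cell a u i}, fun _ => Iff.rfl⟩
  have hBR : B ⊆ R := fun v hv => by
    obtain ⟨i, hi, hv⟩ := (hB v).1 hv
    exact hR ▸ Piv_cell_sub (hJ hi) hv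
  have hag : ∀ ω', AgOff (cell a u) J ω ω' → ∀ v, v ∉ B → ω v = ω' v := fun ω' h v hv =>
    h v fun i hi hc => hv ((hB v).2 ⟨i, hi, hc⟩)
  by_cases hn : ∀ b t, b ∈ B → Adj t b →
      ¬ (t ∉ R ∨ ∃ t0 t1 : Site, Adj t0 t1 ∧ t0 ∉ R ∧ Conn ((Col ω false ∩ R) \ B) t1 t)
  · left
    intro ω' h
    have hp : ∀ p : Site, p.2 = y1 → p ∉ R := fun p hp hc => by
      rw [← hR] at hc
      have := hc.2.2.1
      omega
    rw [Piv_LR_iff hx hy', Piv_LR_iff hx hy', not_iff_not]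
    constructor
    · rintro ⟨p, q, h1, h2, h3⟩
      exact ⟨p, q, h1, h2, Piv_abs hBR (fun _ _ => rfl) (hag ω' h) hn (hp p h1) h3⟩
    · rintro ⟨p, q, h1, h2, h3⟩
      exact ⟨p, q, h1, h2, Piv_abs hBR (hag ω' h) (fun _ _ => rfl) hn (hp p h1) h3⟩
  · right
    push Not at hn
    obtain ⟨b, t, hb, htb, h⟩ := hn
    obtain ⟨i, hi, hb⟩ := (hB b).1 hb
    refine ⟨i, hi, fun ω' h' => ⟨b, t, hb, htb, h.imp id ?_⟩⟩
    rintro ⟨t0, t1, h3, h4, h5⟩
    refine ⟨t0, t1, h3, h4, h5.mono fun v hv => ⟨?_, hv.1.2⟩⟩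
    rw [mem_Col, ← hag ω' h' v hv.2]
    exact hv.1.1

theorem pivBox_of_bpiv {s u : ℕ} (hu : 1 ≤ u) (hs : 2 * (u + 1) ≤ s) {a i v : Site}
    (hv : v ∈ cell a u i) (hv' : v ∈ core s) :
    BPiv (ev true fun S => LR S 0 (6 * s) 0 (3 * s)) (cell a u i) ⊆ ev true (PivBox s v u) := by
  rintro ω ⟨ω', hag, hn⟩
  have hB := Piv_big (n := u + 1) (by omega) hv'
  have hL : ∀ S : Set Site, LR S 0 (6 * s) 0 (3 * s) ↔
      LR ((sh v).e ⁻¹' S) (-v.1) (6 * s - v.1) (-v.2) (3 * s - v.2) := fun S => by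
    rw [← LR_sh, neg_add_cancel, neg_add_cancel, sub_add_cancel, sub_add_cancel]
  have hag' : ∀ w, u ≤ dst 0 w →
      (w ∈ (sh v).e ⁻¹' Col ω true ↔ w ∈ (sh v).e ⁻¹' Col ω' true) := fun w hw => by
    rw [Set.mem_preimage, Set.mem_preimage, mem_Col, mem_Col, hag]
    rintro ⟨h1, h2, h3, h4⟩
    obtain ⟨k1, k2, k3, k4⟩ := hv
    simp only [sh_apply, Prod.fst_add, Prod.snd_add] at h1 h2 h3 h4
    simp only [dst, Prod.fst_zero, Prod.snd_zero] at hw
    omega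
  rw [mem_ev, mem_ev, hL, hL] at hn
  by_cases h : LR ((sh v).e ⁻¹' Col ω true) (-v.1) (6 * s - v.1) (-v.2) (3 * s - v.2)
  · exact sup_arms4 _ _ _ _ _ _ _ _ (fun w hw => (hag' w hw.2).symm)
      (arms4_of_piv hu hB (fun w hw => (hag' w hw).symm) h fun h' => hn (iff_of_true h h'))
  · exact arms4_of_piv hu hB hag' (by_contra fun h' => hn (iff_of_false h h')) h

theorem PivBox.two {s u : ℕ} {v : Site} {S : Set Site} (hu : 1 ≤ u) (hs : u ≤ s / 2)
    (hv : v ∈ core s) (h : PivBox s v u S) : Two S v u (s / 2) := by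
  exact (two_map (sh v) (dst_sh v)).2 (Arms4.two h (fun _ hz => hz.1) hu hs (Piv_big le_rfl hv))

end Pool.Agent.Work.MP_ccd212_pr
end
end

-- merged part: Pool.Agent.Work.MP_ccd212_pr.Piv2
section
/-! Lower bound on the expected number of pivotal boxes. -/

namespace Pool.Agent.Work.MP_ccd212_pr

open Finset

/-- The union of the cells with index in a rectangle. -/
def piv2U (a : Site) (u : ℕ) (i1 i2 j1 j2 : ℤ) : Set Site :=
  rect (a.1 + i1 * u) (a.1 + i2 * u + u - 1) (a.2 + j1 * u) (a.2 + j2 * u + u - 1)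

/-- The event on which the cell `i` is looked at. -/
def piv2R (a : Site) (u : ℕ) (U : Set Site) (i : Site) : Set (Site → Bool) :=
  {ω | ∃ b t : Site, b ∈ cell a u i ∧ Adj t b ∧
    (t ∉ U ∨ ∃ t0 t1 : Site, Adj t0 t1 ∧ t0 ∉ U ∧ Conn (Col ω false ∩ U) t1 t)}

theorem piv2_div {u : ℕ} (hu : 1 ≤ u) {i1 i2 x : ℤ} (h1 : i1 * u ≤ x) (h2 : x ≤ i2 * u + u - 1) :
    i1 ≤ x / u ∧ x / u ≤ i2 ∧ x / u * u ≤ x ∧ x ≤ x / u * u + u - 1 := by
  have hu' : (0 : ℤ) < u := by exact_mod_cast hu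
  refine ⟨(Int.le_ediv_iff_mul_le hu').2 h1, Int.lt_add_one_iff.1
    ((Int.ediv_lt_iff_lt_mul hu').2 (by linarith)), Int.ediv_mul_le _ hu'.ne', ?_⟩
  have := Int.lt_ediv_add_one_mul_self x hu'
  linarith

theorem piv2_cover {a : Site} {u : ℕ} (hu : 1 ≤ u) {i1 i2 j1 j2 : ℤ} {v : Site}
    (h : v ∈ piv2U a u i1 i2 j1 j2) : v ∈ ⋃ i ∈ rectF i1 i2 j1 j2, cell a u i := by
  obtain ⟨h1, h2, h3, h4⟩ := h
  obtain ⟨a1, a2, a3, a4⟩ := piv2_div hu (i1 := i1) (i2 := i2) (x := v.1 - a.1)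
    (by linarith only [h1]) (by linarith)
  obtain ⟨b1, b2, b3, b4⟩ := piv2_div hu (i1 := j1) (i2 := j2) (x := v.2 - a.2)
    (by linarith only [h3]) (by linarith)
  refine Set.mem_iUnion₂.2 ⟨((v.1 - a.1) / u, (v.2 - a.2) / u), mem_rectF.2 ⟨a1, a2, b1, b2⟩, ?_⟩
  exact ⟨by linarith only [a3], by linarith only [a4], by linarith only [b3], by linarith only [b4]⟩

theorem piv2_eq {u : ℕ} {i k x : ℤ} (h1 : i * u ≤ x) (h2 : x ≤ i * u + u - 1) (h3 : k * u ≤ x)
    (h4 : x ≤ k * u + u - 1) : i = k := by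
  have hu : (0 : ℤ) ≤ u := Nat.cast_nonneg u
  by_contra h
  rcases lt_or_gt_of_ne h with h | h
  · linarith only [h2, h3, h, hu, mul_le_mul_of_nonneg_right (Int.add_one_le_iff.2 h) hu]
  · linarith only [h1, h4, h, hu, mul_le_mul_of_nonneg_right (Int.add_one_le_iff.2 h) hu]

theorem piv2_disj (a : Site) (u : ℕ) {i k : Site} (h : i ≠ k) :
    Disjoint (cell a u i) (cell a u k) := by
  refine Set.disjoint_left.2 fun v ⟨h1, h2, h3, h4⟩ ⟨k1, k2, k3, k4⟩ => h (Prod.ext ?_ ?_)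
  · exact piv2_eq (u := u) (x := v.1 - a.1) (by linarith only [h1]) (by linarith) (by linarith) (by linarith)
  · exact piv2_eq (u := u) (x := v.2 - a.2) (by linarith) (by linarith) (by linarith) (by linarith)

theorem piv2_dep (a : Site) (u : ℕ) (U : Set Site) (i : Site) : Dep (piv2R a u U i) U := by
  rintro ω ω' h ⟨b, t, h1, h2, h3⟩
  refine ⟨b, t, h1, h2, h3.imp_right fun ⟨t0, t1, h4, h5, h6⟩ => ⟨t0, t1, h4, h5, ?_⟩⟩
  exact h6.congr_sup fun v hv => by rw [mem_Col, mem_Col, h v hv]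

theorem piv2_arm {a i : Site} {u e R : ℕ} (hu : 1 ≤ u) (hR : u + 1 ≤ R) (he : R ≤ e * u)
    {i1 i2 j1 j2 : ℤ} (h1 : i1 + e ≤ i.1) (h2 : i.1 + e ≤ i2) (h3 : j1 + e ≤ i.2)
    (h4 : i.2 + e ≤ j2) :
    piv2R a u (piv2U a u i1 i2 j1 j2) i ⊆
      ev false fun S => Arm S (a.1 + i.1 * u, a.2 + i.2 * u) (u + 1) R := by
  have hu0 : (0 : ℤ) ≤ u := Nat.cast_nonneg u
  have m1 := mul_le_mul_of_nonneg_right h1 hu0
  have m2 := mul_le_mul_of_nonneg_right h2 hu0
  have m3 := mul_le_mul_of_nonneg_right h3 hu0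
  have m4 := mul_le_mul_of_nonneg_right h4 hu0
  have he' : (R : ℤ) ≤ e * u := by exact_mod_cast he
  rw [add_mul] at m1 m2 m3 m4
  have far : ∀ t, t ∉ piv2U a u i1 i2 j1 j2 → R + 1 ≤ dst (a.1 + i.1 * u, a.2 + i.2 * u) t := by
    intro t ht
    simp only [piv2U, mem_rect, dst] at ht ⊢
    generalize i1 * u = x1 at *
    generalize i2 * u = x2 at *
    generalize j1 * u = y1 at *
    generalize j2 * u = y2 at *
    generalize i.1 * u = x at *
    generalize i.2 * u = y at *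
    generalize (e : ℤ) * u = z at *
    (clear * - hR he' ht hu m1 m2 m3 m4; omega)
  rintro ω ⟨b, t, hb, htb, h⟩
  have hb' : dst (a.1 + i.1 * u, a.2 + i.2 * u) b + 1 ≤ u := by
    obtain ⟨b1, b2, b3, b4⟩ := hb
    simp only [dst]
    generalize i.1 * u = x at *
    generalize i.2 * u = y at *
    omega
  have ht := htb.symm.dst_le (a.1 + i.1 * u, a.2 + i.2 * u)
  rcases h with h | ⟨t0, t1, h5, h6, h7⟩
  · have := far t h
    omega
  · have h8 := far t0 h6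
    have h9 := h5.symm.dst_le (a.1 + i.1 * u, a.2 + i.2 * u)
    exact ((h7.symm.mono Set.inter_subset_left).arm hR (Or.inl (by omega)) (by omega))

/-- Distance of a cell index to the boundary of the grid. -/
def piv2m (Nx Ny : ℤ) (i : Site) : ℤ := min (min i.1 (Nx - 1 - i.1)) (min i.2 (Ny - 1 - i.2))

theorem piv2_frame {p c : ℝ} (hc : 0 ≤ c) (hc1 : c ≤ 1)
    (h : ∀ n : ℕ, 1 ≤ n → c ≤ pr (ber p) (ev true fun S => LR S 0 (2 * n) 0 n))
    {s u j θ : ℕ} (hu : 1 ≤ u) (hs : 100 * u ≤ s) (hθ : 50 * (θ * (2 * 4 ^ j) * u) ≤ s) :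
    c ^ 38 * pr (ber p) (ev false fun S => TB S s (5 * s) 0 (3 * s)) ≤
      ∑ i ∈ rectF 0 ((5 * s / u : ℕ) - 1) 0 ((s / u : ℕ) - 1),
        ((1 - c ^ 32) ^ j +
          if (θ : ℤ) = piv2m (5 * s / u : ℕ) (s / u : ℕ) i / (2 * 4 ^ j : ℕ) then 1 else 0) *
        pr (ber p) (BPiv (ev true fun S => LR S 0 (6 * s) 0 (3 * s))
          (cell ((s / 2 : ℕ), s) u i)) := by
  have hq : 0 ≤ (1 - c ^ 32) ^ j := pow_nonneg (sub_nonneg.2 (pow_le_one₀ hc hc1)) j
  obtain ⟨d, hd⟩ : ∃ d : ℕ, d = 2 * 4 ^ j := ⟨_, rfl⟩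
  have hd0 : (0 : ℤ) < d := by rw [hd]; positivity
  rw [← hd] at hθ ⊢
  obtain ⟨Nx, hNx⟩ : ∃ Nx : ℕ, Nx = 5 * s / u := ⟨_, rfl⟩
  obtain ⟨Ny, hNy⟩ : ∃ Ny : ℕ, Ny = s / u := ⟨_, rfl⟩
  have x1 : 5 * s < Nx * u + u := by rw [hNx]; exact Nat.lt_div_mul_add hu
  have y1 : s < Ny * u + u := by rw [hNy]; exact Nat.lt_div_mul_add hu
  rw [← hNx, ← hNy]
  have x1' : 5 * (s : ℤ) < Nx * u + u := by exact_mod_cast x1
  have y1' : (s : ℤ) < Ny * u + u := by exact_mod_cast y1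
  have hθ' : 50 * ((θ : ℤ) * d * u) ≤ s := by exact_mod_cast hθ
  have hθ0 : 0 ≤ (θ : ℤ) * d := by positivity
  have hθ1 : 0 ≤ (θ : ℤ) * d * u := by positivity
  have hA : c ^ (2 * 19) ≤ pr (ber p) (ev true fun S =>
      LR S 0 (6 * s) (s + (s / 3 : ℕ)) (s + 2 * (s / 3 : ℕ))) :=
    rsw1_lr _ true hc (h (s / 3) (by omega)) (by norm_num) (by omega) (by omega) (by omega)
  have key := osss (ber p) (rectF (θ * d) (Nx - 1 - θ * d) (θ * d) (Ny - 1 - θ * d))
    (cell ((s / 2 : ℕ), s) u) (fun i _ => rect_finite _ _ _ _)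
    (fun i _ k _ hik => piv2_disj _ u hik)
    ((sup_LR 0 (6 * s) 0 (3 * s)).loc (rect_finite _ _ _ _) true)
    (piv2R ((s / 2 : ℕ), s) u (piv2U ((s / 2 : ℕ), s) u (θ * d) (Nx - 1 - θ * d) (θ * d)
      (Ny - 1 - θ * d)))
    (fun i => (1 - c ^ 32) ^ j + if (θ : ℤ) = piv2m Nx Ny i / d then 1 else 0)
    (fun J hJ ω => piv_DT hu (by dsimp only; omega) J hJ (by omega) (by omega) ω)
    (fun i _ => (piv2_dep _ _ _ i).mono fun v hv => piv2_cover hu hv) (fun i hi => ?_)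
    (A := ev true fun S => LR S 0 (6 * s) (s + (s / 3 : ℕ)) (s + 2 * (s / 3 : ℕ)))
    (A' := ev false fun S => TB S s (5 * s) 0 (3 * s))
    (L := rect 0 (6 * s) (s + (s / 3 : ℕ)) (s + 2 * (s / 3 : ℕ)) \
      piv2U ((s / 2 : ℕ), s) u (θ * d) (Nx - 1 - θ * d) (θ * d) (Ny - 1 - θ * d))
    (L' := rect s (5 * s) 0 (3 * s) \
      piv2U ((s / 2 : ℕ), s) u (θ * d) (Nx - 1 - θ * d) (θ * d) (Ny - 1 - θ * d))
    ((rect_finite _ _ _ _).subset Set.sdiff_subset) ((rect_finite _ _ _ _).subset Set.sdiff_subset)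
    ?_ (fun ω hω => LR.mono_rect hω le_rfl (by omega) le_rfl (by omega) (by omega)) ?_
    (((sup_LR _ _ _ _).dep true).mono fun v hv => ?_)
    (((sup_TB _ _ _ _).dep false).mono fun v hv => ?_)
  · refine (mul_le_mul_of_nonneg_right hA (pr_nonneg _ _)).trans (key.trans
      (sum_le_sum_of_subset_of_nonneg (fun i hi => ?_) fun i _ _ =>
        mul_nonneg (add_nonneg hq (by split_ifs <;> norm_num)) (pr_nonneg _ _)))
    rw [mem_rectF] at hi ⊢
    omega
  · by_cases h1 : (θ : ℤ) = piv2m Nx Ny i / d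
    · rw [if_pos h1]
      exact (pr_le_one _ _).trans (le_add_of_nonneg_left hq)
    rw [if_neg h1, add_zero]
    rw [mem_rectF] at hi
    have h2 : (θ : ℤ) ≤ piv2m Nx Ny i / d :=
      (Int.le_ediv_iff_mul_le hd0).2 (by unfold piv2m; omega)
    have h3 := (Int.le_ediv_iff_mul_le hd0).1 (Int.add_one_le_iff.2 (lt_of_le_of_ne h2 h1))
    rw [add_mul, one_mul] at h3
    unfold piv2m at h3
    have h4 : 1 ≤ 4 ^ j := Nat.one_le_pow _ _ (by norm_num)
    refine (pr_mono _ (piv2_arm (e := d) (R := 4 ^ j * (u + 1)) hu (by (clear * - h4; nlinarith only [h4]))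
      (by rw [hd]; (clear * - hd hu; nlinarith only [hd, hu])) (by omega) (by omega) (by omega) (by omega))).trans ?_
    exact arm_le_pow (ber p) false hc (N := 4 ^ j * (u + 1)) (fun n hn _ => h n hn) _
      (by omega) le_rfl le_rfl
  · refine Set.disjoint_left.2 fun v ⟨⟨_, _, h3, h4⟩, h5⟩ ⟨⟨h1, h2, _, _⟩, _⟩ => h5 ?_
    simp only [piv2U, mem_rect, sub_mul, one_mul]
    generalize (θ : ℤ) * d * u = z at *
    generalize (Nx : ℤ) * u = x at *
    generalize (Ny : ℤ) * u = y at *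
    omega
  · intro ω hω hω'
    obtain ⟨v, h1, h2, -⟩ := (LR.mono_rect (x1' := s) (x2' := 5 * s) (y1' := 0) (y2' := 3 * s) hω'
      (by omega) (by omega) (by omega) le_rfl le_rfl).inter_TB hω
    rw [mem_Col] at h1 h2
    rw [h1] at h2
    exact Bool.noConfusion h2
  · by_cases h1 : v ∈ piv2U ((s / 2 : ℕ), s) u (θ * d) (Nx - 1 - θ * d) (θ * d) (Ny - 1 - θ * d)
    · exact Or.inr (piv2_cover hu h1)
    · exact Or.inl ⟨hv, h1⟩
  · by_cases h1 : v ∈ piv2U ((s / 2 : ℕ), s) u (θ * d) (Nx - 1 - θ * d) (θ * d) (Ny - 1 - θ * d)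
    · exact Or.inr (piv2_cover hu h1)
    · exact Or.inl ⟨hv, h1⟩

theorem piv2_cells (p : ℝ) {s u : ℕ} (hu : 1 ≤ u) (hs : 100 * u ≤ s) :
    (u : ℝ) ^ 2 * ∑ i ∈ rectF 0 ((5 * s / u : ℕ) - 1) 0 ((s / u : ℕ) - 1),
        pr (ber p) (BPiv (ev true fun S => LR S 0 (6 * s) 0 (3 * s)) (cell ((s / 2 : ℕ), s) u i)) ≤
      ∑ v ∈ core s, pr (ber p) (ev true (PivBox s v u)) := by
  classical
  obtain ⟨Nx, hNx⟩ : ∃ Nx : ℕ, Nx = 5 * s / u := ⟨_, rfl⟩
  obtain ⟨Ny, hNy⟩ : ∃ Ny : ℕ, Ny = s / u := ⟨_, rfl⟩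
  have x1 : Nx * u ≤ 5 * s := by rw [hNx]; exact Nat.div_mul_le_self _ _
  have y1 : Ny * u ≤ s := by rw [hNy]; exact Nat.div_mul_le_self _ _
  rw [← hNx, ← hNy]
  have x1' : (Nx : ℤ) * u ≤ 5 * s := by exact_mod_cast x1
  have y1' : (Ny : ℤ) * u ≤ s := by exact_mod_cast y1
  have hu0 : (0 : ℤ) ≤ u := Nat.cast_nonneg u
  let C : Site → Finset Site := fun i => rectF ((s / 2 : ℕ) + i.1 * u)
    ((s / 2 : ℕ) + i.1 * u + u - 1) (s + i.2 * u) (s + i.2 * u + u - 1)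
  have hC : ∀ i v, v ∈ C i ↔ v ∈ cell ((s / 2 : ℕ), s) u i := fun i v => mem_rectF
  have hsub : ∀ i ∈ rectF 0 ((Nx : ℤ) - 1) 0 ((Ny : ℤ) - 1), ∀ v ∈ C i, v ∈ core s := by
    intro i hi v hv
    obtain ⟨h1, h2, h3, h4⟩ := mem_rectF.1 hi
    have m1 := mul_nonneg h1 hu0
    have m2 := mul_le_mul_of_nonneg_right h2 hu0
    have m3 := mul_nonneg h3 hu0
    have m4 := mul_le_mul_of_nonneg_right h4 hu0
    rw [sub_mul, one_mul] at m2 m4
    obtain ⟨v1, v2, v3, v4⟩ := mem_rectF.1 hv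
    rw [core, mem_rectF]
    generalize i.1 * u = z at *
    generalize i.2 * u = w at *
    generalize (Nx : ℤ) * u = x at *
    generalize (Ny : ℤ) * u = y at *
    omega
  refine le_trans ?_ (sum_le_sum_of_subset_of_nonneg
    (s := (rectF 0 ((Nx : ℤ) - 1) 0 ((Ny : ℤ) - 1)).biUnion C)
    (fun v hv => by
      obtain ⟨i, hi, hv⟩ := mem_biUnion.1 hv
      exact hsub i hi v hv) fun _ _ _ => pr_nonneg _ _)
  rw [sum_biUnion fun i _ k _ hik => disjoint_left.2 fun v h1 h2 =>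
    Set.disjoint_left.1 (piv2_disj _ u hik) ((hC i v).1 h1) ((hC k v).1 h2), mul_sum]
  refine sum_le_sum fun i hi => ?_
  have h1 : (C i).card = u ^ 2 := by
    rw [card_rectF, show ((s / 2 : ℕ) : ℤ) + i.1 * u + u - 1 + 1 - ((s / 2 : ℕ) + i.1 * u) = u by
      ring, show (s : ℤ) + i.2 * u + u - 1 + 1 - (s + i.2 * u) = u by ring, Int.toNat_natCast, sq]
  have h2 := card_nsmul_le_sum (C i) (fun v => pr (ber p) (ev true (PivBox s v u))) _
    fun v hv => pr_mono _ (pivBox_of_bpiv hu (by omega) ((hC i v).1 hv) (hsub i hi v hv))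
  rwa [h1, nsmul_eq_mul, Nat.cast_pow] at h2

theorem piv_sum : ∃ c lam : ℝ, 0 < c ∧ 1 < lam ∧ ∀ p : ℝ, 1 / 2 ≤ p → p ≤ 3 / 4 →
    ∀ s u j : ℕ, 1 ≤ u → 100 * 64 ^ j * u ≤ s →
      c * pr (ber p) (ev false fun S => TB S s (5 * s) 0 (3 * s)) * lam ^ j * (u : ℝ) ^ 2 ≤
        ∑ v ∈ core s, pr (ber p) (ev true (PivBox s v u)) := by
  obtain ⟨c, hc, hR⟩ := rsw_half
  have hc1 : c ≤ 1 := (hR 1).le_one le_rfl
  have hq0 : 0 < max (1 - c ^ 32) (1 / 4) := lt_max_of_lt_right (by norm_num)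
  have hq1 : max (1 - c ^ 32) (1 / 4) < 1 :=
    max_lt (by have := pow_pos hc 32; linarith) (by norm_num)
  refine ⟨c ^ 38 / 2, (max (1 - c ^ 32) (1 / 4))⁻¹, by positivity, (one_lt_inv₀ hq0).2 hq1,
    fun p hp _ s u j hu hs => ?_⟩
  have h : ∀ n : ℕ, 1 ≤ n → c ≤ pr (ber p) (ev true fun S => LR S 0 (2 * n) 0 n) := fun n hn =>
    ((hR n).2.2 n hn le_rfl true).trans
      (pr_ber_mono hp (rect_finite _ _ _ _) (sup_LR _ _ _ _) (inc_LR _ _ _ _))
  have h4 : 1 ≤ 4 ^ j := Nat.one_le_pow _ _ (by norm_num)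
  have h64 : 64 ^ j = 4 ^ j * (4 ^ j * 4 ^ j) := by rw [← mul_pow, ← mul_pow]; norm_num
  have h16 : 4 ^ j * 4 ^ j ≤ 64 ^ j := by rw [h64]; exact Nat.le_mul_of_pos_left _ h4
  have hs' : 100 * u ≤ s := le_trans (Nat.mul_le_mul_right _ (Nat.le_mul_of_pos_right _
    (Nat.one_le_pow _ _ (by norm_num)))) hs
  have h1 := sum_le_sum (s := range (4 ^ j)) fun θ hθ =>
    piv2_frame hc.le hc1 h (j := j) (θ := θ) hu hs' (by
      have h2 : θ * 4 ^ j ≤ 64 ^ j :=
        (Nat.mul_le_mul_right _ (mem_range.1 hθ).le).trans h16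
      have h3 := Nat.mul_le_mul_right u h2
      (clear * - h3 hs; linarith only [hs, h3]))
  have h2 := piv2_cells p hu hs'
  rw [sum_comm, sum_const, card_range, nsmul_eq_mul] at h1
  have h3 : ∀ m : ℤ, ∑ θ ∈ range (4 ^ j),
      ((1 - c ^ 32) ^ j + if ((θ : ℕ) : ℤ) = m then (1 : ℝ) else 0) ≤
      ((4 ^ j : ℕ) : ℝ) * (2 * max (1 - c ^ 32) (1 / 4) ^ j) := fun m => by
    have h5 : ∑ θ ∈ range (4 ^ j), (if ((θ : ℕ) : ℤ) = m then (1 : ℝ) else 0) ≤ 1 := by
      rw [sum_boole]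
      exact_mod_cast card_le_one.2 fun x hx y hy => by
        have := (mem_filter.1 hx).2.trans (mem_filter.1 hy).2.symm
        exact_mod_cast this
    have h6 : (1 - c ^ 32) ^ j ≤ max (1 - c ^ 32) (1 / 4) ^ j :=
      pow_le_pow_left₀ (sub_nonneg.2 (pow_le_one₀ hc.le hc1)) (le_max_left _ _) j
    have h7 : (1 / 4 : ℝ) ^ j ≤ max (1 - c ^ 32) (1 / 4) ^ j :=
      pow_le_pow_left₀ (by norm_num) (le_max_right _ _) j
    have h8 : (4 : ℝ) ^ j * (1 / 4) ^ j = 1 := by rw [← mul_pow]; norm_num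
    have h9 : (0 : ℝ) < 4 ^ j := by positivity
    rw [sum_add_distrib, sum_const, card_range, nsmul_eq_mul]
    push_cast
    linarith only [h5, h8, h6, h9, h7, mul_le_mul_of_nonneg_left h6 h9.le, mul_le_mul_of_nonneg_left h7 h9.le]
  have h5 := h1.trans (sum_le_sum fun i _ => (sum_mul _ _ _).ge.trans
    (mul_le_mul_of_nonneg_right (h3 _) (pr_nonneg _ _)))
  rw [← mul_sum, mul_assoc] at h5
  have h6 := le_of_mul_le_mul_left h5 (by positivity)
  refine le_trans ?_ h2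
  have h7 := pow_pos hq0 j
  rw [inv_pow, mul_comm ((u : ℝ) ^ 2)]
  refine mul_le_mul_of_nonneg_right ?_ (by positivity)
  rw [mul_inv_le_iff₀ h7]
  linarith only [h6]

end Pool.Agent.Work.MP_ccd212_pr
end
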