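import Pool.Agent.Work.MP_ccd212_pr.StDefs
import Pool.Agent.Work.MP_ccd212_pr.Top5
import Pool.Agent.Work.MP_ccd212_pr.Basic
import Pool.Agent.Work.MP_ccd212_pr.Piv2

-- merged part: Pool.Agent.Work.MP_ccd212_pr.Raise
section
-- merged part: Pool.Agent.Work.MP_ccd212_pr.SDefs
section
/-! Arms, branch points and label moves for spanning trees of a box. -/

namespace Pool.Agent.Work.MP_ccd212_pr

/-- `a` and `b` are joined by a walk of `H` with all vertices in `S`. -/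
def HC {V : Type} (H : SimpleGraph V) (S : Set V) (a b : V) : Prop :=
  ∃ w : H.Walk a b, ∀ v ∈ w.support, v ∈ S

/-- `T` is a spanning tree of the lattice restricted to `Λ`. -/
structure Span (T : SimpleGraph Site) (Λ : Set Site) : Prop where
  le : T ≤ G
  mem : ∀ a b, T.Adj a b → a ∈ Λ ∧ b ∈ Λ
  acyclic : T.IsAcyclic
  conn : ∀ a ∈ Λ, ∀ b ∈ Λ, HC T Λ a b

/-- `d` disjoint connections of `T` from distance at most `r` to distance at least `R`. -/
def DArms (d : ℕ) (T : SimpleGraph Site) (x : Site) (r R : ℕ) : Prop :=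
  ∃ P : Fin d → Set Site, (∀ i j, i ≠ j → Disjoint (P i) (P j)) ∧
    ∀ i, ∃ a b, dst x a ≤ r ∧ R ≤ dst x b ∧ HC T (P i) a b

/-- `a i`, `b i` are the ends of crossings of the ring lying in distinct components of `T` in the
ring. -/
def Comps {d : ℕ} (T : SimpleGraph Site) (x : Site) (r R : ℕ) (a b : Fin d → Site) : Prop :=
  (∀ i, dst x (a i) = r ∧ dst x (b i) = R ∧ HC T (ann x r R) (a i) (b i)) ∧
    ∀ i j, i ≠ j → ¬ HC T (ann x r R) (a i) (a j)

/-- `d` distinct components of `T` in the ring cross it. -/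
def DComp (d : ℕ) (T : SimpleGraph Site) (x : Site) (r R : ℕ) : Prop :=
  ∃ a b : Fin d → Site, Comps T x r R a b

/-- Moreover all of them but one stay distinct in the full box. -/
def DCompIn (d : ℕ) (T : SimpleGraph Site) (x : Site) (r R : ℕ) : Prop :=
  ∃ a b : Fin d → Site, Comps T x r R a b ∧
    ∃ j0, ∀ i j, i ≠ j → i ≠ j0 → j ≠ j0 → ¬ HC T (ball x R) (a i) (a j)

/-- `c` is a branch point with three branches reaching distance `ρ`. -/
def Tri (T : SimpleGraph Site) (c : Site) (ρ : ℕ) : Prop :=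
  ∃ y z : Fin 3 → Site, Function.Injective y ∧
    ∀ i, T.Adj c (y i) ∧ ρ ≤ dst c (z i) ∧ HC T {c}ᶜ (y i) (z i)

/-- `Tri` with the sets that carry the three branches. -/
def TriP (T : SimpleGraph Site) (c : Site) (ρ : ℕ) (P : Fin 3 → Set Site) : Prop :=
  ∃ y z : Fin 3 → Site, Function.Injective y ∧
    ∀ i, T.Adj c (y i) ∧ ρ ≤ dst c (z i) ∧ c ∉ P i ∧ HC T (P i) (y i) (z i)

/-- Four pairwise edge-disjoint simple paths from distance at most `r` to distance at least `R`. -/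
def EArms (T : SimpleGraph Site) (x : Site) (r R : ℕ) : Prop :=
  ∃ (a b : Fin 4 → Site) (w : ∀ i, T.Walk (a i) (b i)),
    (∀ i, (w i).IsPath ∧ dst x (a i) ≤ r ∧ R ≤ dst x (b i)) ∧
    ∀ i j, i ≠ j → (w i).edges.Disjoint (w j).edges

/-- The three vertices of the face are not joined by `T` within distance `ρ`. -/
def Face3 (T : SimpleGraph Site) (F : Face) (ρ : ℕ) : Prop :=
  ∀ u u', InF F u → InF F u' → u ≠ u' → ¬ HC T (ball F.1 ρ) u u'

/-- Faces are adjacent when they share an edge that is not in `T`. -/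
def dualG (T : SimpleGraph Site) : SimpleGraph Face where
  Adj f g := ∃ a b, Shares f g a b ∧ ¬ T.Adj a b
  symm := ⟨fun _ _ ⟨a, b, h, h'⟩ => ⟨a, b, ⟨h.1.symm, h.2.1, h.2.2.2.2.1, h.2.2.2.2.2,
    h.2.2.1, h.2.2.2.1⟩, h'⟩⟩
  loopless := ⟨fun _ ⟨_, _, h, _⟩ => h.1 rfl⟩

/-- Move a label up or down by `2 H`. -/
def shf {m : ℕ} (up : Bool) (H : ℕ) (x : Fin m) : Fin m :=
  if up then (if h : x.val + 2 * H < m then ⟨x.val + 2 * H, h⟩ else x)
  else ⟨x.val - 2 * H, lt_of_le_of_lt (Nat.sub_le _ _) x.isLt⟩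

/-- Move the labels of the sites of `S`. -/
def mv {m : ℕ} (up : Bool) (H : ℕ) (S : Finset Site) (ω : Site → Fin m) : Site → Fin m :=
  fun v => if v ∈ S then shf up H (ω v) else ω v

/-- Labels in `Λ` are distinct and do not differ by `2 H`. -/
def Gen {m : ℕ} (ω : Site → Fin m) (Λ : Set Site) (H : ℕ) : Prop :=
  ∀ u ∈ Λ, ∀ v ∈ Λ, u ≠ v → (ω u : ℕ) ≠ ω v ∧ (ω u : ℕ) ≠ ω v + 2 * H

/-- The spanning tree of the centred box of radius `N`. -/
def tr {m : ℕ} (N : ℕ) (ω : Site → Fin m) : SimpleGraph Site := mstG (ball 0 N) ω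

/-- A minimal set of window sites of the thin ring whose closing kills the open crossings of the
fat ring. -/
structure IsS0 {m : ℕ} (ω : Site → Fin m) (M H : ℕ) (g : Site) (s : ℕ) (S : Finset Site) :
    Prop where
  sub : (S : Set Site) ⊆ XS ω M H 1 g s
  kill : ¬ Arm (lev ω (M + H) \ S) g (4 * s) (7 * s)
  min : ∀ v ∈ S, Arm (lev ω (M + H) \ (S \ {v})) g (4 * s) (7 * s)

/-- A minimal set of window sites of the thin ring whose opening kills the closed crossings of the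
fat ring. -/
structure IsS1 {m : ℕ} (ω : Site → Fin m) (M H : ℕ) (g : Site) (s : ℕ) (S : Finset Site) :
    Prop where
  sub : (S : Set Site) ⊆ XS ω M H 1 g s
  kill : ¬ Arm (lev ω (M - H) ∪ S)ᶜ g (4 * s) (7 * s)
  min : ∀ v ∈ S, Arm (lev ω (M - H) ∪ (S \ {v}))ᶜ g (4 * s) (7 * s)

/-- The setting of a surgery at a good scale: labels in `Fin (2M)`, generic in the box of radius
`N`, which contains the zone. -/
structure Zone {M : ℕ} (ω : Site → Fin (2 * M - 1 + 1)) (N H k0 : ℕ) (g : Site) (s : ℕ) :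
    Prop where
  hH : 1 ≤ H
  hM : 10 * H ≤ M
  hs : 2 ≤ s
  gen : Gen ω (ball 0 N) H
  good : Good ω M H k0 g s
  sub : ball g (9 * s + 1) ⊆ ball 0 N

/-- The setting of a full triple of blocks around `c`, with radii `r3 < r2 < r1 < r0`: `d`
crossing components, no further arm in the side blocks, the zone at `g` in the middle block. -/
structure Triple {d : ℕ} (T : SimpleGraph Site) (N : ℕ) (c : Site) (r3 r2 r1 r0 : ℕ)
    (a b : Fin d → Site) (g : Site) (s : ℕ) : Prop where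
  h3 : 2 ≤ r3
  h32 : r3 + 3 ≤ r2
  h10 : r1 + 3 ≤ r0
  hin : dst c g + r2 < s
  hout : dst c g + 9 * s < r1
  sub : ball c (r0 + 2) ⊆ ball 0 N
  comps : Comps T c r3 r0 a b
  no_in : ¬ DArms (d + 1) T c (r3 + 1) (r2 - 1)
  no_out : ¬ DArms (d + 1) T c (r1 + 1) (r0 - 1)

/-- Rounding to the grid of mesh `q`. -/
def rnd (q : ℕ) (x : Site) : Site := (x.1 / q * q, x.2 / q * q)

/-- Scale number `j` of a block with inner radius `r`. -/
def scl (r j : ℕ) : ℕ := 4 * (32 ^ j * r)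

/-- Centre for the scale number `j`. -/
def ctr (r j : ℕ) (x : Site) : Site := rnd (32 ^ j * r) x

open Classical in
/-- The bad event of a block of radii `r < R` with `J` scales and windows `Hs j`. -/
def BadB {M : ℕ} (d N k0 ρ r R J : ℕ) (Hs : ℕ → ℕ) : Set (Site → Fin (2 * M - 1 + 1)) :=
  {ω | (∃ j < J, ¬ Gen ω (ball 0 N) (Hs j)) ∨ ∃ x ∈ ball 0 ρ,
    DArms (d + 1) (tr N ω) x (r + 1) (R - 1) ∨
    J ≤ 2 * ((Finset.range J).filter fun j => ¬ Good ω M (Hs j) k0 (ctr r j x) (scl r j)).card}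

/-- The statement `H(d)` for a family of events `A T x r R`. -/
def Hyp (A : SimpleGraph Site → Site → ℕ → ℕ → Prop) : Prop :=
  ∀ (c : ℕ) (ε : ℝ), 0 < ε → ∃ L n0 : ℕ, 1 ≤ L ∧ ∀ a, n0 ≤ a → ∀ ρ, ρ ≤ c * a → ∀ N, ρ + 2 * a ≤ N →
    ∃ M0, ∀ M, M0 ≤ M → pr (unif (2 * M - 1)) {ω | ∃ x ∈ ball 0 ρ, A (tr N ω) x (a / L) a} ≤ ε

/-- Radii of successive blocks. -/
def rad (a : ℕ) (Js : ℕ → ℕ) : ℕ → ℕ
  | 0 => a
  | j + 1 => rad a Js j / (2 * 32 ^ Js j)

/-- A macroscopic centre: a branch point or a face with three far branches of the dual tree. -/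
def Mac (T : SimpleGraph Site) (F : Face) (ρ : ℕ) : Prop := Tri T F.1 ρ ∨ Face3 T F ρ

/-- A branch point with a run of `K` full triples, each branch using one colour in each. -/
def RunT {m : ℕ} (d N ρ ρm a : ℕ) (Js : ℕ → ℕ) (K : ℕ) : Set (Site → Fin m) :=
  {ω | ∃ c ∈ ball 0 ρ, ∃ P, TriP (tr N ω) c ρm P ∧ ∀ i < K,
    DComp d (tr N ω) c (rad a Js (4 * i + 3)) (rad a Js (4 * i)) ∧
    ∀ j, ∀ v ∈ P j ∩ ann c (rad a Js (4 * i + 2)) (rad a Js (4 * i + 1)),
      ∀ v' ∈ P j ∩ ann c (rad a Js (4 * i + 2)) (rad a Js (4 * i + 1)),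
        HC (tr N ω) (ann c (rad a Js (4 * i + 3)) (rad a Js (4 * i))) v v'}

/-- A three-coloured face with a run of `K` full triples of inner rank at most one. -/
def RunD {m : ℕ} (d N ρ ρm a : ℕ) (Js : ℕ → ℕ) (K : ℕ) : Set (Site → Fin m) :=
  {ω | ∃ F : Face, F.1 ∈ ball 0 ρ ∧ Face3 (tr N ω) F ρm ∧ ∀ i < K,
    DCompIn d (tr N ω) F.1 (rad a Js (4 * i + 3)) (rad a Js (4 * i))}

/-- Too many arms in one of the first `B` blocks. -/
def RunA {m : ℕ} (d N ρ a : ℕ) (Js : ℕ → ℕ) (B : ℕ) : Set (Site → Fin m) :=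
  {ω | ∃ x ∈ ball 0 ρ, ∃ j < B, DArms (d + 1) (tr N ω) x (rad a Js (j + 1) + 1) (rad a Js j - 1)}

/-- The conclusion of THEOREM G with `δ = 2⁻²⁴`. -/
def GoodK (k0 : ℕ) : Prop :=
  ∃ s0 : ℕ, 2 ≤ s0 ∧ ∀ s, s0 ≤ s → ∃ M0 : ℕ, 1 ≤ M0 ∧ ∀ M, M0 ≤ M → ∃ H : ℕ, 1 ≤ H ∧ 10 * H ≤ M ∧
    ∀ g : Site, pr (unif (2 * M - 1)) {ω | ¬ Good ω M H k0 g s} ≤ (1 / 4096) ^ 2

end Pool.Agent.Work.MP_ccd212_pr
end

-- merged part: Pool.Agent.Work.MP_ccd212_pr.HC
section
/-! Elementary facts on connections inside a graph. -/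

namespace Pool.Agent.Work.MP_ccd212_pr

namespace HC

variable {V : Type} {H : SimpleGraph V} {S T : Set V} {a b c : V}

theorem refl (h : a ∈ S) : HC H S a a := ⟨.nil, by simpa using h⟩

theorem left_mem (h : HC H S a b) : a ∈ S := by
  obtain ⟨w, hw⟩ := h; exact hw _ w.start_mem_support

theorem right_mem (h : HC H S a b) : b ∈ S := by
  obtain ⟨w, hw⟩ := h; exact hw _ w.end_mem_support

theorem symm (h : HC H S a b) : HC H S b a := by
  obtain ⟨w, hw⟩ := h; exact ⟨w.reverse, by simpa using hw⟩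

theorem trans (h : HC H S a b) (h' : HC H S b c) : HC H S a c := by
  obtain ⟨w, hw⟩ := h
  obtain ⟨w', hw'⟩ := h'
  refine ⟨w.append w', fun v hv => ?_⟩
  rcases (SimpleGraph.Walk.mem_support_append_iff _ _).1 hv with h | h
  exacts [hw v h, hw' v h]

theorem mono (hST : S ⊆ T) (h : HC H S a b) : HC H T a b := by
  obtain ⟨w, hw⟩ := h; exact ⟨w, fun v hv => hST (hw v hv)⟩

theorem of_adj (h : H.Adj a b) (ha : a ∈ S) (hb : b ∈ S) : HC H S a b :=
  ⟨.cons (h) .nil, by simp [ha, hb]⟩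

theorem tail (h : HC H S a b) (hbc : H.Adj b c) (hc : c ∈ S) : HC H S a c :=
  h.trans (of_adj hbc h.right_mem hc)

theorem head (hab : H.Adj a b) (ha : a ∈ S) (h : HC H S b c) : HC H S a c :=
  (of_adj hab ha h.left_mem).trans h

/-- Induction along a connection. -/
theorem ind {P : V → Prop} (h : HC H S a b) (h0 : P a)
    (hs : ∀ x y, HC H S a x → y ∈ S → H.Adj x y → P x → P y) : P b := by
  obtain ⟨w, hw⟩ := h
  have key : ∀ {x y : V} (w : H.Walk x y), (∀ v ∈ w.support, v ∈ S) → HC H S a x → P x → P y := by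
    intro x y w
    induction w with
    | nil => intro _ _ h; exact h
    | @cons u v z huv w ih =>
      intro hw hc hp
      have hv : v ∈ S := hw v (by simp)
      exact ih (fun t ht => hw t (by simp [ht])) (hc.tail huv hv) (hs u v hc hv huv hp)
  exact key w hw (refl (hw _ w.start_mem_support)) h0

/-- A connection stays in the cluster of its starting point. -/
theorem inter_of (h : HC H S a b) (hT : ∀ v, HC H S a v → v ∈ T) : HC H (S ∩ T) a b :=
  h.ind (refl ⟨h.left_mem, hT a (refl h.left_mem)⟩) fun _ y hx hy hxy hp =>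
    hp.tail hxy ⟨hy, hT y (hx.tail hxy hy)⟩

theorem cluster (h : HC H S a b) : HC H {v | HC H S a v} a b :=
  (h.inter_of (T := {v | HC H S a v}) fun _ hv => hv).mono Set.inter_subset_right

/-- First entrance into `T`. -/
theorem first_hit (h : HC H S a b) (ha : a ∉ T) (hb : b ∈ T) :
    ∃ u t, u ∉ T ∧ t ∈ T ∧ H.Adj u t ∧ HC H (S \ T) a u ∧ HC H S t b := by
  obtain ⟨w, hw⟩ := h
  induction w with
  | nil => exact absurd hb ha
  | @cons u v z huv w ih =>
    have hu : u ∈ S := hw u (by simp)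
    have hw' : ∀ t ∈ w.support, t ∈ S := fun t ht => hw t (by simp [ht])
    by_cases hv : v ∈ T
    · exact ⟨u, v, ha, hv, huv, refl ⟨hu, ha⟩, w, hw'⟩
    · obtain ⟨p, t, h1, h2, h3, h4, h5⟩ := ih hv hb hw'
      exact ⟨p, t, h1, h2, h3, head huv ⟨hu, ha⟩ h4, h5⟩

/-- Last exit from `T`. -/
theorem last_exit (h : HC H S a b) (ha : a ∈ T) (hb : b ∉ T) :
    ∃ t u, t ∈ T ∧ u ∉ T ∧ H.Adj t u ∧ HC H S a t ∧ HC H (S \ T) u b := by
  obtain ⟨u, t, h1, h2, h3, h4, h5⟩ := h.symm.first_hit hb ha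
  exact ⟨t, u, h2, h1, h3.symm, h5.symm, h4.symm⟩

/-- First visit of `T`, the starting point being allowed. -/
theorem first_hit' (h : HC H S a b) (hb : b ∈ T) :
    ∃ t, t ∈ T ∧ HC H (S \ T ∪ {t}) a t ∧ HC H S t b := by
  by_cases ha : a ∈ T
  · exact ⟨a, ha, refl (by simp), h⟩
  · obtain ⟨u, t, _, h2, h3, h4, h5⟩ := h.first_hit ha hb
    exact ⟨t, h2, (h4.mono Set.subset_union_left).tail h3 (by simp), h5⟩

/-- A connection crosses every slab of a function that moves by at most one along edges. -/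
theorem sub_cross (f : V → ℤ) (hf : ∀ x y, H.Adj x y → f y ≤ f x + 1) {i j : ℤ}
    (h : HC H S a b) (hij : i ≤ j) (ha : f a ≤ i) (hb : j ≤ f b) :
    ∃ a' b', f a' = i ∧ f b' = j ∧ HC H (S ∩ {v | i ≤ f v ∧ f v ≤ j}) a' b' ∧ HC H S a a' ∧
      HC H S b' b ∧ (a' = a ∨ ∃ u, u ∈ S ∧ H.Adj a' u ∧ f u < i) := by
  obtain ⟨b', hb1, hb2, hb3⟩ := h.first_hit' (T := {v | j ≤ f v}) hb
  have hb1 : j ≤ f b' := hb1
  have hbj : f b' = j := by
    by_cases hab : a = b'
    · subst hab; omega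
    · obtain ⟨u, t, h1, h2, h3, h4, _⟩ := hb2.first_hit (T := {b'}) hab rfl
      have ht : t = b' := h2
      subst ht
      have hu := h4.right_mem
      have hu' : ¬ j ≤ f u := by
        rcases hu.1 with hu1 | hu1
        · exact hu1.2
        · exact absurd hu1 hu.2
      have := hf u t h3
      omega
  have hsub : S \ {v | j ≤ f v} ∪ {b'} ⊆ S ∩ {v | f v ≤ j} := by
    rintro v (hv | hv)
    · exact ⟨hv.1, le_of_lt (not_le.1 (show ¬ j ≤ f v from hv.2))⟩
    · rw [Set.mem_singleton_iff.1 hv]; exact ⟨hb3.left_mem, hbj.le⟩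
  have h2 := hb2.mono hsub
  by_cases hex : ∃ u, HC H (S ∩ {v | f v ≤ j}) a u ∧ HC H (S ∩ {v | f v ≤ j}) u b' ∧ f u < i
  · obtain ⟨u, hu1, hu2, hu3⟩ := hex
    obtain ⟨t, a', h1, h3, h4, h5, h6⟩ := hu2.last_exit (T := {v | f v < i}) hu3
      (show ¬ f b' < i by omega)
    have h1 : f t < i := h1
    have h3 : ¬ f a' < i := h3
    have := hf t a' h4
    refine ⟨a', b', by omega, hbj, h6.mono ?_, ?_, hb3, Or.inr ⟨t, h5.right_mem.1, h4.symm, h1⟩⟩
    · rintro v ⟨⟨hv1, hv2⟩, hv3⟩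
      exact ⟨hv1, not_lt.1 hv3, hv2⟩
    · exact ((hu1.trans h5).mono Set.inter_subset_left).tail h4 h6.left_mem.1.1
  · have hall : ∀ v, HC H (S ∩ {v | f v ≤ j}) a v → i ≤ f v := fun v hv => by
      by_contra hc
      exact hex ⟨v, hv, hv.symm.trans h2, not_le.1 hc⟩
    have hai : i ≤ f a := hall a (refl h2.left_mem)
    refine ⟨a, b', by omega, hbj, (h2.inter_of (T := {v | i ≤ f v}) hall).mono ?_,
      refl h.left_mem, hb3, Or.inl rfl⟩
    rintro v ⟨⟨hv1, hv2⟩, hv3⟩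
    exact ⟨hv1, hv3, hv2⟩

theorem congr_sup {Z S' : Set V} (hS : ∀ v ∈ Z, v ∈ S ↔ v ∈ S') (h : HC H (S ∩ Z) a b) :
    HC H (S' ∩ Z) a b :=
  h.mono fun v hv => ⟨(hS v hv.2).1 hv.1, hv.2⟩

theorem mono_graph {H' : SimpleGraph V} (hH : H ≤ H') (h : HC H S a b) : HC H' S a b :=
  h.ind (refl h.left_mem) fun _ _ _ hy hxy hp => hp.tail (hH hxy) hy

/-- Transfer to another graph that contains the edges met by the connection. -/
theorem transfer {H' : SimpleGraph V} (h : HC H S a b)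
    (hH : ∀ x y, HC H S a x → y ∈ S → H.Adj x y → H'.Adj x y) : HC H' S a b :=
  h.ind (refl h.left_mem) fun x y hx hy hxy hp => hp.tail (hH x y hx hy hxy) hy

theorem exists_path (h : HC H S a b) : ∃ w : H.Walk a b, w.IsPath ∧ ∀ v ∈ w.support, v ∈ S := by
  classical
  obtain ⟨w, hw⟩ := h
  exact ⟨w.bypass, w.bypass_isPath, fun v hv => hw v (w.support_bypass_subset_support hv)⟩

theorem of_walk (w : H.Walk a b) : HC H {v | v ∈ w.support} a b := ⟨w, fun _ h => h⟩

theorem of_mem_support (w : H.Walk a b) (hc : c ∈ w.support) :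
    HC H {v | v ∈ w.support} a c := by
  classical
  exact ⟨w.takeUntil c hc, fun v hv => w.support_takeUntil_subset_support hc hv⟩

/-- In a forest, the simple path between two points lies in every set in which they are joined. -/
theorem path_subset (hA : H.IsAcyclic) (h : HC H S a b) {p : H.Walk a b} (hp : p.IsPath) :
    ∀ v ∈ p.support, v ∈ S := by
  obtain ⟨w, hw, hw'⟩ := h.exists_path
  have : (⟨p, hp⟩ : H.Path a b) = ⟨w, hw⟩ := (hA.subsingleton_path _ _).elim _ _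
  have : p = w := congrArg Subtype.val this
  rw [this]; exact hw'

/-- In a forest, two points joined in `S` and in `T` are joined in `S ∩ T`. -/
theorem inter (hA : H.IsAcyclic) (h : HC H S a b) (h' : HC H T a b) : HC H (S ∩ T) a b := by
  obtain ⟨w, hw, hw'⟩ := h.exists_path
  exact ⟨w, fun v hv => ⟨hw' v hv, h'.path_subset hA hw v hv⟩⟩

end HC

theorem conn_iff_hc {S : Set Site} {a b : Site} : Conn S a b ↔ HC G S a b := Iff.rfl

theorem HC.conn {T : SimpleGraph Site} (hT : T ≤ G) {S : Set Site} {a b : Site} (h : HC T S a b) :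
    Conn S a b := h.mono_graph hT

/-- A connection of a subgraph of the lattice crosses every ring between its ends. -/
theorem HC.sub_ann {T : SimpleGraph Site} (hT : T ≤ G) {S : Set Site} {a b c : Site} {r R : ℕ}
    (h : HC T S a b) (hr : r ≤ R) (ha : dst c a ≤ r) (hb : R ≤ dst c b) :
    ∃ a' b', dst c a' = r ∧ dst c b' = R ∧ HC T (S ∩ ann c r R) a' b' ∧ HC T S a a' ∧
      HC T S b' b ∧ (dst c a < r → InnerB c r a') := by
  obtain ⟨a', b', h1, h2, h3, h4, h5, h6⟩ :=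
    h.sub_cross (fun v => (dst c v : ℤ))
      (fun x y hxy => by have := Adj.dst_le (hT hxy) c; omega)
      (i := r) (j := R) (by omega) (by omega) (by omega)
  refine ⟨a', b', by omega, by omega, h3.mono fun v hv => ⟨hv.1, ?_⟩, h4, h5, fun hlt => ?_⟩
  · have := hv.2
    simp only [Set.mem_ofPred_eq] at this
    simp only [mem_ann]; omega
  · rcases h6 with rfl | ⟨u, _, hu1, hu2⟩
    · omega
    · exact ⟨by omega, u, hT hu1, by omega⟩

theorem DArms.mono_ring {d : ℕ} {T : SimpleGraph Site} {x : Site} {r R r' R' : ℕ}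
    (h : DArms d T x r R) (h1 : r ≤ r') (h2 : R' ≤ R) : DArms d T x r' R' := by
  obtain ⟨P, hP, h⟩ := h
  exact ⟨P, hP, fun i => let ⟨a, b, ha, hb, hc⟩ := h i; ⟨a, b, by omega, by omega, hc⟩⟩

theorem DArms.shift {d : ℕ} {T : SimpleGraph Site} {x y : Site} {r R r' R' : ℕ}
    (h : DArms d T x r R) (h1 : r + dst x y ≤ r') (h2 : R' + dst x y ≤ R) : DArms d T y r' R' := by
  obtain ⟨P, hP, h⟩ := h
  refine ⟨P, hP, fun i => ?_⟩
  obtain ⟨a, b, ha, hb, hc⟩ := h i
  have h3 := dst_triangle y x a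
  have h4 := dst_triangle x y b
  have h5 := dst_comm x y
  exact ⟨a, b, by omega, by omega, hc⟩

theorem DArms.mono_graph {d : ℕ} {T T' : SimpleGraph Site} {x : Site} {r R : ℕ}
    (h : DArms d T x r R) (hT : T ≤ T') : DArms d T' x r R := by
  obtain ⟨P, hP, h⟩ := h
  exact ⟨P, hP, fun i => let ⟨a, b, ha, hb, hc⟩ := h i; ⟨a, b, ha, hb, hc.mono_graph hT⟩⟩

theorem DComp.darms {d : ℕ} {T : SimpleGraph Site} {x : Site} {r R : ℕ} (h : DComp d T x r R) :
    DArms d T x r R := by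
  obtain ⟨a, b, h1, h2⟩ := h
  refine ⟨fun i => {v | HC T (ann x r R) (a i) v}, fun i j hij => ?_, fun i => ?_⟩
  · rw [Set.disjoint_left]
    exact fun v hv hv' => h2 i j hij (HC.trans hv (HC.symm hv'))
  · exact ⟨a i, b i, (h1 i).1.le, (h1 i).2.1.ge, (h1 i).2.2.cluster⟩

theorem DCompIn.dcomp {d : ℕ} {T : SimpleGraph Site} {x : Site} {r R : ℕ} (h : DCompIn d T x r R) :
    DComp d T x r R := let ⟨a, b, h1, _⟩ := h; ⟨a, b, h1⟩

end Pool.Agent.Work.MP_ccd212_pr
end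

-- merged part: Pool.Agent.Work.MP_ccd212_pr.Mst
section
/-! The minimal spanning tree of a finite connected set of sites. -/

namespace Pool.Agent.Work.MP_ccd212_pr

variable {β : Type} [LinearOrder β] {Λ : Set Site} {V V' : Site → β}

theorem mst_le : mstG Λ V ≤ G := fun _ _ h => h.1

theorem mstx_key_comm (V : Site → β) (x y : Site) : key V x y = key V y x := by
  simp [key, max_comm, min_comm]

theorem mstx_key_mono {p q x y : Site} (h1 : max (V p) (V q) ≤ max (V' x) (V' y))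
    (h2 : min (V p) (V q) ≤ min (V' x) (V' y)) : key V p q ≤ key V' x y :=
  Prod.Lex.toLex_mono (Prod.mk_le_mk.2 ⟨h1, h2⟩)

theorem mstx_max_le_of_key_le {p q x y : Site} (h : key V p q ≤ key V x y) :
    max (V p) (V q) ≤ max (V x) (V y) := (Prod.Lex.toLex_le_toLex'.1 h).1

theorem mstx_key_lt_of_max_lt {p q x y : Site} (h : max (V p) (V q) < max (V x) (V y)) :
    key V p q < key V x y := Prod.Lex.toLex_lt_toLex.2 (Or.inl h)

theorem mstx_key_congr {p q x y : Site} (h : s(p, q) = s(x, y)) : key V p q = key V x y := by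
  rcases Sym2.eq_iff.1 h with ⟨rfl, rfl⟩ | ⟨rfl, rfl⟩
  exacts [rfl, mstx_key_comm _ _ _]

theorem mstx_key_inj (hinj : Set.InjOn V Λ) {p q x y : Site} (hp : p ∈ Λ) (hq : q ∈ Λ) (hx : x ∈ Λ)
    (hy : y ∈ Λ) (h : key V p q = key V x y) : s(p, q) = s(x, y) := by
  have h' := toLex.injective h
  rw [Prod.mk.injEq] at h'
  obtain ⟨h1, h2⟩ := h'
  rw [Sym2.eq_iff]
  rcases le_total (V p) (V q) with a | a <;> rcases le_total (V x) (V y) with b | b <;>
    simp only [a, b, max_eq_left, max_eq_right, min_eq_left, min_eq_right] at h1 h2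
  · exact Or.inl ⟨hinj hp hx h2, hinj hq hy h1⟩
  · exact Or.inr ⟨hinj hp hy h2, hinj hq hx h1⟩
  · exact Or.inr ⟨hinj hp hy h1, hinj hq hx h2⟩
  · exact Or.inl ⟨hinj hp hx h1, hinj hq hy h2⟩

/-- The lattice edges with label in `K`. -/
def mstxG (V : Site → β) (K : Set (β ×ₗ β)) : SimpleGraph Site where
  Adj x y := Adj x y ∧ key V x y ∈ K
  symm := ⟨fun x y h => ⟨h.1.symm, mstx_key_comm V x y ▸ h.2⟩⟩
  loopless := ⟨fun _ h => h.1.ne rfl⟩

theorem mstx_hc_keyG_iff {K : Set (β ×ₗ β)} {x y : Site} : HC (mstxG V K) Λ x y ↔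
    ∃ w : G.Walk x y, (∀ v ∈ w.support, v ∈ Λ) ∧ ∀ d ∈ w.darts, key V d.fst d.snd ∈ K := by
  constructor
  · rintro ⟨w, hw⟩
    induction w with
    | nil => exact ⟨.nil, hw, by simp⟩
    | @cons u v z huv w ih =>
      obtain ⟨w', h1, h2⟩ := ih fun t ht => hw t (by simp [ht])
      refine ⟨.cons (show G.Adj u v from huv.1) w', fun t ht => ?_, fun d hd => ?_⟩
      · rcases List.mem_cons.1 ht with rfl | ht
        exacts [hw _ (by simp), h1 t ht]
      · rcases List.mem_cons.1 hd with rfl | hd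
        exacts [huv.2, h2 d hd]
  · rintro ⟨w, h1, h2⟩
    induction w with
    | nil => exact HC.refl (h1 _ (by simp))
    | @cons u v z huv w ih =>
      exact HC.head (H := mstxG V K) ⟨huv, h2 ⟨(u, v), huv⟩ (by simp)⟩ (h1 _ (by simp))
        (ih (fun t ht => h1 t (by simp [ht])) fun d hd => h2 d (by simp [hd]))

theorem mstx_adj {x y : Site} : (mstG Λ V).Adj x y ↔
    Adj x y ∧ x ∈ Λ ∧ y ∈ Λ ∧ ¬ HC (mstxG V (Set.Iio (key V x y))) Λ x y := by
  rw [mstx_hc_keyG_iff]; rfl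

/-- The ends of a lattice edge are joined by tree edges that are not higher. -/
theorem mstx_core (hΛ : Λ.Finite) {x y : Site} (hxy : Adj x y) (hx : x ∈ Λ) (hy : y ∈ Λ) :
    HC (mstG Λ V ⊓ mstxG V (Set.Iic (key V x y))) Λ x y := by
  have hK : ((fun p : Site × Site => key V p.1 p.2) '' Λ ×ˢ Λ).Finite := (hΛ.prod hΛ).image _
  have H := Set.WellFoundedOn.induction (r := (· < ·)) hK.isWF
    (Set.mem_image_of_mem _ (Set.mk_mem_prod hx hy))
    (P := fun k => ∀ x y, Adj x y → x ∈ Λ → y ∈ Λ → key V x y = k →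
      HC (mstG Λ V ⊓ mstxG V (Set.Iic k)) Λ x y) ?_
  · exact H x y hxy hx hy rfl
  rintro k - ih x y hxy hx hy rfl
  by_cases h : (mstG Λ V).Adj x y
  · exact HC.of_adj ⟨h, hxy, Set.mem_Iic.2 le_rfl⟩ hx hy
  have h' : HC (mstxG V (Set.Iio (key V x y))) Λ x y := by
    by_contra h'
    exact h (mstx_adj.2 ⟨hxy, hx, hy, h'⟩)
  refine h'.ind (P := fun z => HC (mstG Λ V ⊓ mstxG V (Set.Iic (key V x y))) Λ x z) (HC.refl hx)
    fun p q hp hq hpq hP => hP.trans ?_
  refine (ih (key V p q) ⟨(p, q), ⟨hp.right_mem, hq⟩, rfl⟩ hpq.2 p q hpq.1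
    hp.right_mem hq rfl).transfer fun a b _ _ hab => ⟨hab.1, hab.2.1, ?_⟩
  exact le_trans (Set.mem_Iic.1 hab.2.2) (le_of_lt (Set.mem_Iio.1 hpq.2))

theorem mst_acyclic (hinj : Set.InjOn V Λ) : (mstG Λ V).IsAcyclic := by
  intro u c hc
  obtain ⟨d, hd, hmax⟩ := Set.exists_max_image {d | d ∈ c.darts}
    (fun d => key V d.fst d.snd) (List.finite_toSet _) (by
      obtain ⟨d, hd⟩ := c.darts.exists_mem_of_ne_nil (by simp [hc.not_nil])
      exact ⟨d, hd⟩)
  have hsub : ∀ e ∈ c.edges, e ∈ (mstG Λ V ⊓ mstxG V (Set.Iic (key V d.fst d.snd))).edgeSet := by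
    intro e he
    obtain ⟨d', hd', rfl⟩ := List.mem_map.1 he
    exact ⟨d'.adj, d'.adj.1, hmax d' hd'⟩
  have hmem : s(d.fst, d.snd) ∈ (c.transfer _ hsub).edges := by
    rw [SimpleGraph.Walk.edges_transfer]
    exact List.mem_map.2 ⟨d, hd, rfl⟩
  obtain ⟨-, ⟨w⟩⟩ := SimpleGraph.adj_and_reachable_delete_edges_iff_exists_cycle.2
    ⟨u, _, hc.transfer hsub, hmem⟩
  obtain ⟨-, h1, h2, h3⟩ := mstx_adj.1 d.adj
  refine h3 ((HC.of_walk w).ind (P := fun z => HC (mstxG V (Set.Iio (key V d.fst d.snd))) Λ d.fst z)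
    (HC.refl h1) fun p q _ _ hpq hP => ?_)
  obtain ⟨⟨k1, k2, k3⟩, k4⟩ := SimpleGraph.deleteEdges_adj.1 hpq
  exact hP.tail ⟨k2, lt_of_le_of_ne k3 fun h => k4 (mstx_key_inj hinj k1.2.1 k1.2.2.1 h1 h2 h)⟩
    k1.2.2.1

/-- The tree is connected inside every cluster of low sites. -/
theorem mst_minimax (hΛ : Λ.Finite) {D : Set β} (hD : IsLowerSet D) {a b : Site}
    (h : Conn (Λ ∩ V ⁻¹' D) a b) : HC (mstG Λ V) (Λ ∩ V ⁻¹' D) a b := by
  refine h.ind (P := fun z => HC (mstG Λ V) (Λ ∩ V ⁻¹' D) a z) (HC.refl h.left_mem)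
    fun x y hx hy hxy hP => hP.trans ?_
  have hx' := hx.right_mem
  have hm : max (V x) (V y) ∈ D := by
    rcases le_total (V x) (V y) with k | k
    · rw [max_eq_right k]; exact hy.2
    · rw [max_eq_left k]; exact hx'.2
  refine ((mstx_core (V := V) hΛ hxy hx'.1 hy.1).inter_of fun v hv => ?_).mono_graph inf_le_left
  exact hv.ind (P := fun z => z ∈ V ⁻¹' D) hx'.2 fun p q _ _ hpq _ =>
    hD ((le_max_right _ _).trans (mstx_max_le_of_key_le hpq.2.2)) hm

theorem mst_span (hΛ : Λ.Finite) (cΛ : IsConn Λ) (hinj : Set.InjOn V Λ) : Span (mstG Λ V) Λ := by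
  refine ⟨mst_le, fun a b h => ⟨h.2.1, h.2.2.1⟩, mst_acyclic hinj, fun a ha b hb => ?_⟩
  have := mst_minimax (V := V) hΛ isLowerSet_univ (a := a) (b := b) (by simpa using cΛ a ha b hb)
  simpa using this

/-- Two tree neighbours of `x` are not joined by sites lower than `x`. -/
theorem mst_no_low {x p q : Site} (hp : (mstG Λ V).Adj x p) (hq : (mstG Λ V).Adj x q) (hne : p ≠ q)
    (hinj : Set.InjOn V Λ) : ¬ Conn (Λ ∩ {v | V v < V x}) p q := by
  wlog hlt : V p < V q generalizing p q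
  · intro h
    exact this hq hp hne.symm
      (lt_of_le_of_ne (not_lt.1 hlt) fun e => hne (hinj hp.2.2.1 hq.2.2.1 e.symm)) h.symm
  intro h
  have h1 : V q < V x := h.right_mem.2
  have h2 : V p < V x := h.left_mem.2
  refine (mstx_adj.1 hq).2.2.2 (h.ind (P := fun z => HC (mstxG V (Set.Iio (key V x q))) Λ x z)
    (HC.of_adj ⟨hp.1, ?_⟩ hp.2.1 hp.2.2.1) fun a b ha hb hab hP => hP.tail ⟨hab, ?_⟩ hb.1)
  · refine Prod.Lex.toLex_lt_toLex.2 (Or.inr ⟨?_, ?_⟩)
    · simp only [max_eq_left h1.le, max_eq_left h2.le]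
    · simpa only [min_eq_right h1.le, min_eq_right h2.le] using hlt
  · exact mstx_key_lt_of_max_lt ((max_lt ha.right_mem.2 hb.2).trans_le (le_max_left _ _))

/-- A tree edge is the lowest edge of its fundamental cut. -/
theorem mst_cut (hΛ : Λ.Finite) {a b x y : Site} (hxy : Adj x y) (hx : x ∈ Λ) (hy : y ∈ Λ)
    (h1 : HC ((mstG Λ V).deleteEdges {s(a, b)}) Set.univ a x)
    (h2 : ¬ HC ((mstG Λ V).deleteEdges {s(a, b)}) Set.univ a y) :
    key V a b ≤ key V x y := by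
  by_contra hlt
  refine h2 (h1.trans (((mstx_core (V := V) hΛ hxy hx hy).mono (Set.subset_univ _)).transfer
    fun p q _ _ hpq => SimpleGraph.deleteEdges_adj.2 ⟨hpq.1, fun e => hlt ?_⟩))
  exact mstx_key_congr (V := V) (Set.mem_singleton_iff.1 e) ▸ hpq.2.2

/-- Raising labels keeps the tree edges whose ends are not changed. -/
theorem mst_raise (hle : ∀ v ∈ Λ, V v ≤ V' v) {a b : Site} (ha : V a = V' a) (hb : V b = V' b)
    (h : (mstG Λ V).Adj a b) : (mstG Λ V').Adj a b := by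
  obtain ⟨h1, h2, h3, h4⟩ := mstx_adj.1 h
  have e : key V a b = key V' a b := by simp only [key, ha, hb]
  refine mstx_adj.2 ⟨h1, h2, h3, fun h5 => h4 (h5.transfer fun x y hx hy hxy => ⟨hxy.1, ?_⟩)⟩
  have k1 := hle x hx.right_mem
  have k2 := hle y hy
  exact e ▸ lt_of_le_of_lt (mstx_key_mono (max_le_max k1 k2) (min_le_min k1 k2)) hxy.2

/-- The edge to the lowest neighbour is a tree edge. -/
theorem mst_lowest {v y : Site} (hv : v ∈ Λ) (hy : y ∈ Λ) (h : Adj v y) (hlt : V y ≤ V v)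
    (hmin : ∀ u ∈ Λ, Adj v u → V y ≤ V u) : (mstG Λ V).Adj v y := by
  refine mstx_adj.2 ⟨h, hv, hy, fun h5 => h.ne (h5.ind (P := fun z => v = z) rfl ?_)⟩
  rintro x u - hu hxu rfl
  refine absurd (Set.mem_Iio.1 hxu.2) (not_lt.2 (mstx_key_mono ?_ ?_))
  · rw [max_eq_left hlt]; exact le_max_left _ _
  · exact min_le_min le_rfl (hmin u hu hxu.1)

theorem mst_mono_dom {Λ' : Set Site} (hΛ : Λ ⊆ Λ') {a b : Site} (h : (mstG Λ' V).Adj a b)
    (ha : a ∈ Λ) (hb : b ∈ Λ) : (mstG Λ V).Adj a b := by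
  obtain ⟨h1, -, -, h4⟩ := mstx_adj.1 h
  exact mstx_adj.2 ⟨h1, ha, hb, fun h5 => h4 (h5.mono hΛ)⟩

theorem mst_congr {β' : Type} [LinearOrder β'] {W : Site → β'}
    (h : ∀ u ∈ Λ, ∀ v ∈ Λ, V u < V v ↔ W u < W v) : mstG Λ V = mstG Λ W := by
  have hle : ∀ u ∈ Λ, ∀ v ∈ Λ, V u ≤ V v ↔ W u ≤ W v := fun u hu v hv => by
    rw [← not_lt, h v hv u hu, not_lt]
  have heq : ∀ u ∈ Λ, ∀ v ∈ Λ, V u = V v ↔ W u = W v := fun u hu v hv => by
    rw [le_antisymm_iff, le_antisymm_iff, hle u hu v hv, hle v hv u hu]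
  have hk : ∀ x ∈ Λ, ∀ y ∈ Λ, ∃ s ∈ Λ, ∃ t ∈ Λ,
      key V x y = toLex (V s, V t) ∧ key W x y = toLex (W s, W t) := by
    intro x hx y hy
    rcases le_total (V x) (V y) with k | k
    · have k' := (hle x hx y hy).1 k
      exact ⟨y, hy, x, hx, by simp [key, k], by simp [key, k']⟩
    · have k' := (hle y hy x hx).1 k
      exact ⟨x, hx, y, hy, by simp [key, k], by simp [key, k']⟩
  have hlt : ∀ p ∈ Λ, ∀ q ∈ Λ, ∀ x ∈ Λ, ∀ y ∈ Λ,
      key V p q < key V x y ↔ key W p q < key W x y := by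
    intro p hp q hq x hx y hy
    obtain ⟨s, hs, t, ht, e1, e2⟩ := hk p hp q hq
    obtain ⟨s', hs', t', ht', e3, e4⟩ := hk x hx y hy
    rw [e1, e2, e3, e4, Prod.Lex.toLex_lt_toLex, Prod.Lex.toLex_lt_toLex]
    simp only [h s hs s' hs', heq s hs s' hs', h t ht t' ht']
  ext x y
  rw [mstx_adj, mstx_adj]
  refine and_congr_right fun _ => and_congr_right fun hx => and_congr_right fun hy =>
    not_congr ⟨fun k => k.transfer fun p q hp hq hpq => ⟨hpq.1, ?_⟩,
      fun k => k.transfer fun p q hp hq hpq => ⟨hpq.1, ?_⟩⟩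
  · exact (hlt p hp.right_mem q hq x hx y hy).1 hpq.2
  · exact (hlt p hp.right_mem q hq x hx y hy).2 hpq.2

theorem mstx_span_finite {T : SimpleGraph Site} (hΛ : Λ.Finite) (h : Span T Λ) : T.edgeSet.Finite := by
  refine ((hΛ.prod hΛ).image fun p => s(p.1, p.2)).subset ?_
  rintro ⟨a, b⟩ hab
  exact ⟨(a, b), h.mem a b hab, rfl⟩

theorem mstx_span_card {T : SimpleGraph Site} (hΛ : Λ.Finite) (h : Span T Λ) :
    T.edgeSet.ncard = Nat.card Λ - 1 := by
  have := hΛ.to_subtype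
  have e : T.edgeSet = Sym2.map Subtype.val '' (T.induce Λ).edgeSet := by
    ext ⟨a, b⟩
    constructor
    · intro hab
      exact ⟨s(⟨a, (h.mem a b hab).1⟩, ⟨b, (h.mem a b hab).2⟩), hab, rfl⟩
    · rintro ⟨⟨p, q⟩, hpq, e⟩
      exact e ▸ (show T.Adj p q from hpq)
  rw [e, Set.ncard_image_of_injective _ (Sym2.map.injective Subtype.val_injective)]
  rcases Λ.eq_empty_or_nonempty with rfl | hne
  · simp [Set.eq_empty_of_isEmpty]
  have := hne.to_subtype
  have ht : (T.induce Λ).IsTree := by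
    refine ⟨⟨fun a b => ?_⟩, h.acyclic.induce Λ⟩
    exact (h.conn a a.2 b b.2).ind (P := fun z => ∀ hz : z ∈ Λ, (T.induce Λ).Reachable a ⟨z, hz⟩)
      (fun _ => .refl _) (fun x y hx _ hxy hP hy => (hP hx.right_mem).trans
        (SimpleGraph.Adj.reachable (show (T.induce Λ).Adj ⟨x, _⟩ ⟨y, hy⟩ from hxy))) b.2
  have k := (SimpleGraph.isTree_iff_connected_and_card.1 ht).2
  rw [← Nat.card_coe_set_eq]
  omega

/-- Two spanning trees that agree away from `S` in one direction differ by few edges. -/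
theorem span_diff {T T' : SimpleGraph Site} (hΛ : Λ.Finite) (h : Span T Λ) (h' : Span T' Λ)
    (S : Finset Site) (hS : ∀ a b, T.Adj a b → a ∉ S → b ∉ S → T'.Adj a b) :
    ∃ E E' : Finset (Sym2 Site), E.card ≤ 6 * S.card ∧ E'.card ≤ 6 * S.card ∧
      (∀ a b, T.Adj a b → ¬ T'.Adj a b → s(a, b) ∈ E) ∧
      (∀ a b, T'.Adj a b → ¬ T.Adj a b → s(a, b) ∈ E') := by
  classical
  set E : Finset (Sym2 Site) := (S ×ˢ ({(1, 0), (-1, 0), (0, 1), (0, -1), (1, -1), (-1, 1)} :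
    Finset Site)).image fun p => s(p.1, p.1 + p.2) with hE
  have hcard : E.card ≤ 6 * S.card := by
    refine Finset.card_image_le.trans ?_
    rw [Finset.card_product, mul_comm]
    exact Nat.mul_le_mul_right _ (by decide)
  have hin : ∀ a b, Adj a b → a ∈ S → s(a, b) ∈ E := by
    intro a b hab ha
    refine Finset.mem_image.2 ⟨(a, b - a), Finset.mem_product.2 ⟨ha, ?_⟩, by simp⟩
    simp only [Finset.mem_insert, Finset.mem_singleton, Prod.ext_iff, Prod.fst_sub, Prod.snd_sub]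
    unfold Adj at hab
    (clear * - hab; lia)
  have hmem : ∀ a b, T.Adj a b → ¬ T'.Adj a b → s(a, b) ∈ E := by
    intro a b h1 h2
    by_cases ha : a ∈ S
    · exact hin a b (h.le h1) ha
    by_cases hb : b ∈ S
    · rw [Sym2.eq_swap]; exact hin b a (h.le h1.symm) hb
    exact absurd (hS a b h1 ha hb) h2
  have f1 := mstx_span_finite hΛ h
  have f2 := mstx_span_finite hΛ h'
  have hd : (T'.edgeSet \ T.edgeSet).Finite := f2.subset Set.sdiff_subset
  refine ⟨E, hd.toFinset, hcard, ?_, hmem, fun a b h1 h2 => hd.mem_toFinset.2 ⟨h1, h2⟩⟩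
  have e : (T'.edgeSet \ T.edgeSet).ncard = (T.edgeSet \ T'.edgeSet).ncard := by
    have k1 := Set.ncard_inter_add_ncard_sdiff_eq_ncard T.edgeSet T'.edgeSet f1
    have k2 := Set.ncard_inter_add_ncard_sdiff_eq_ncard T'.edgeSet T.edgeSet f2
    have k3 := mstx_span_card hΛ h
    have k4 := mstx_span_card hΛ h'
    rw [Set.inter_comm] at k2
    omega
  rw [← Set.ncard_eq_toFinset_card _ hd, e]
  refine le_trans ?_ hcard
  rw [← Set.ncard_coe_finset]
  refine Set.ncard_le_ncard ?_ E.finite_toSet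
  rintro ⟨a, b⟩ hab
  exact hmem a b hab.1 hab.2

theorem tr_congr {m N : ℕ} {ω ω' : Site → Fin m} (h : ∀ v ∈ ball 0 N, ω v = ω' v) :
    tr N ω = tr N ω' :=
  mst_congr fun u hu v hv => by rw [h u hu, h v hv]

theorem tr_span {m N : ℕ} {ω : Site → Fin m} (h : Set.InjOn ω (ball 0 N)) :
    Span (tr N ω) (ball 0 N) :=
  mst_span (ball_finite 0 N) (ball_eq_rect 0 N ▸ isConn_rect _ _ _ _) h

/-- Events of the tree are local. -/
theorem loc_tr {m : ℕ} (N : ℕ) (Φ : SimpleGraph Site → Prop) :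
    Loc {ω : Site → Fin m | Φ (tr N ω)} :=
  ⟨ball 0 N, ball_finite 0 N, fun ω ω' h hω => by
    rw [Set.mem_ofPred_eq, ← tr_congr h]; exact hω⟩

theorem tr_minimax {m N k : ℕ} {ω : Site → Fin m} {a b : Site}
    (h : Conn (ball 0 N ∩ lev ω k) a b) : HC (tr N ω) (ball 0 N ∩ lev ω k) a b :=
  mst_minimax (D := {j : Fin m | (j : ℕ) < k}) (ball_finite 0 N)
    (fun _ _ hab ha => lt_of_le_of_lt (Fin.le_def.1 hab) ha) h

end Pool.Agent.Work.MP_ccd212_pr
end

-- merged part: Pool.Agent.Work.MP_ccd212_pr.Zone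
section
/-! Minimal blocking sets and label moves at a good scale. -/

namespace Pool.Agent.Work.MP_ccd212_pr

variable {M N H k0 s : ℕ} {ω : Site → Fin (2 * M - 1 + 1)} {g : Site}

theorem Zone.inj (h : Zone ω N H k0 g s) : Set.InjOn ω (ball 0 N) := by
  intro u hu v hv e
  by_contra hne
  exact (h.gen u hu v hv hne).1 (congrArg Fin.val e)

theorem Zone.span (h : Zone ω N H k0 g s) : Span (tr N ω) (ball 0 N) := tr_span h.inj

theorem zone_min {Lo Hi : Set Site} (hLH : Lo ⊆ Hi) (hs : 1 ≤ s)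
    (hno : ¬ Arm Lo g (5 * s) (6 * s)) :
    ∃ S : Finset Site, (∀ v ∈ S, v ∈ ann g (5 * s) (6 * s) ∧ v ∈ Hi ∧ v ∉ Lo ∧
      SandTwo Lo Hi v 1 s) ∧ ¬ Arm (Hi \ S) g (4 * s) (7 * s) ∧
      ∀ v ∈ S, Arm (Hi \ (S \ {v})) g (4 * s) (7 * s) := by
  classical
  have hW : (ann g (5 * s) (6 * s) ∩ (Hi \ Lo)).Finite :=
    (ann_finite _ _ _).subset Set.inter_subset_left
  have hkill : ¬ Arm (Hi \ hW.toFinset) g (4 * s) (7 * s) := by
    intro h
    refine hno (sup_Arm g _ _ _ _ (fun v hv => ?_)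
      (h.mono_ring (r' := 5 * s) (R' := 6 * s) (by omega) (by omega) (by omega)))
    rw [hW.coe_toFinset]
    constructor
    · rintro ⟨h1, h2⟩
      by_contra h3
      exact h2 ⟨hv, h1, h3⟩
    · exact fun h1 => ⟨hLH h1, fun h2 => h2.2.2 h1⟩
  obtain ⟨S, hS, hmin⟩ := Finset.exists_min_image
    (hW.toFinset.powerset.filter fun S : Finset Site => ¬ Arm (Hi \ S) g (4 * s) (7 * s))
    Finset.card ⟨hW.toFinset, Finset.mem_filter.2 ⟨Finset.mem_powerset_self _, hkill⟩⟩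
  obtain ⟨hS1, hS2⟩ := Finset.mem_filter.1 hS
  rw [Finset.mem_powerset] at hS1
  have hmem : ∀ v ∈ S, v ∈ ann g (5 * s) (6 * s) ∩ (Hi \ Lo) := fun v hv =>
    hW.mem_toFinset.1 (hS1 hv)
  have harm : ∀ v ∈ S, Arm (Hi \ (S \ {v})) g (4 * s) (7 * s) := by
    intro v hv
    by_contra hc
    rw [← Finset.coe_erase] at hc
    have := hmin (S.erase v) (Finset.mem_filter.2
      ⟨Finset.mem_powerset.2 ((Finset.erase_subset v S).trans hS1), hc⟩)
    exact absurd (Finset.card_erase_lt_of_mem hv) (not_lt.2 this)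
  refine ⟨S, fun v hv => ⟨(hmem v hv).1, (hmem v hv).2.1, (hmem v hv).2.2, Hi \ (S \ {v}),
    fun u hu => ⟨hLH hu, fun h => (hmem u h.1).2.2 hu⟩, Set.sdiff_subset, ?_⟩, hS2, harm⟩
  obtain ⟨h1, h2⟩ := (hmem v hv).1
  obtain ⟨a, b, ha, hb, hab⟩ := harm v hv
  refine two_of_cut (D := ann g (4 * s) (7 * s)) (A := {a | InnerB g (4 * s) a})
    (B := {b | dst g b = 7 * s}) hs (fun u hu => ?_) (fun u hu => ?_) (fun u hu => ?_)
    ⟨a, ha, b, hb, hab⟩ ?_
  · have t1 := dst_triangle g v u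
    have t2 := dst_triangle g u v
    have t3 := dst_comm v u
    simp only [mem_ball, mem_ann] at hu ⊢
    omega
  · have t1 := dst_triangle g u v
    have t2 := dst_comm v u
    have t3 : dst g u = 4 * s := hu.1
    omega
  · have t1 := dst_triangle g v u
    have t3 : dst g u = 7 * s := hu
    omega
  · rintro ⟨a', ha', b', hb', h⟩
    refine hS2 ⟨a', b', ha', hb', h.mono ?_⟩
    rintro u ⟨⟨⟨u1, u2⟩, u3⟩, u4⟩
    exact ⟨⟨u1, fun u5 => u2 ⟨u5, u3⟩⟩, u4⟩

theorem zone_lev_mono {m : ℕ} (ω : Site → Fin m) {k l : ℕ} (h : k ≤ l) : lev ω k ⊆ lev ω l :=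
  fun _ hv => lt_of_lt_of_le hv h

theorem Zone.exists_S0 (h : Zone ω N H k0 g s) : ∃ S, IsS0 ω M H g s S := by
  obtain ⟨S, h1, h2, h3⟩ := zone_min (zone_lev_mono ω (by omega : M - H ≤ M + H))
    (le_trans one_le_two h.hs) h.good.lo_mid
  refine ⟨S, fun v hv => ?_, h2, h3⟩
  obtain ⟨a1, a2, a3, a4⟩ := h1 v hv
  simp only [XS, win, one_mul, Set.mem_ofPred_eq]
  exact ⟨a1, ⟨not_lt.1 a3, a2⟩, Or.inl a4⟩

theorem Zone.exists_S1 (h : Zone ω N H k0 g s) : ∃ S, IsS1 ω M H g s S := by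
  obtain ⟨S, h1, h2, h3⟩ := zone_min
    (Set.compl_subset_compl.2 (zone_lev_mono ω (by omega : M - H ≤ M + H)))
    (le_trans one_le_two h.hs) h.good.hi_mid
  refine ⟨S, fun v hv => ?_, ?_, fun v hv => ?_⟩
  · obtain ⟨a1, a2, a3, a4⟩ := h1 v hv
    simp only [XS, win, one_mul, Set.mem_ofPred_eq]
    exact ⟨a1, ⟨not_lt.1 a2, not_not.1 a3⟩, Or.inr a4⟩
  · rw [Set.compl_union]
    exact h2
  · rw [Set.compl_union]
    exact h3 v hv

theorem zone_XS_sub {m : ℕ} {ω ω' : Site → Fin m} {j j' d : ℕ}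
    (h : ∀ v, (ω' v : ℕ) ≤ ω v + d ∧ (ω v : ℕ) ≤ ω' v + d) (hj : j * H + d ≤ j' * H) :
    XS ω M H j g s ⊆ XS ω' M H j' g s := by
  have l1 : lev ω' (M - j' * H) ⊆ lev ω (M - j * H) := fun v hv => by
    have := h v
    simp only [lev, Set.mem_ofPred_eq] at hv ⊢
    omega
  have l2 : lev ω (M + j * H) ⊆ lev ω' (M + j' * H) := fun v hv => by
    have := h v
    simp only [lev, Set.mem_ofPred_eq] at hv ⊢
    omega
  rintro v ⟨h1, ⟨h2, h3⟩, h4⟩
  have := h v
  refine ⟨h1, ⟨by omega, by omega⟩, h4.imp (fun a => a.mono l1 l2) fun a =>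
    a.mono (Set.compl_subset_compl.2 l2) (Set.compl_subset_compl.2 l1)⟩

theorem XS_mono {j j' : ℕ} (hj : j ≤ j') : XS ω M H j g s ⊆ XS ω M H j' g s :=
  zone_XS_sub (d := 0) (fun _ => ⟨le_rfl, le_rfl⟩) (Nat.mul_le_mul_right H hj)

theorem XS_finite (j : ℕ) : (XS ω M H j g s).Finite :=
  (ann_finite g (5 * s) (6 * s)).subset fun _ hv => hv.1

theorem Zone.mv_up (h : Zone ω N H k0 g s) {S : Finset Site} (hS : (S : Set Site) ⊆ XS ω M H 1 g s)
    {v : Site} (hv : v ∈ S) : (mv true H S ω v : ℕ) = ω v + 2 * H := by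
  obtain ⟨-, ⟨-, h2⟩, -⟩ := hS hv
  have h3 := h.hH
  have h4 := h.hM
  have h5 : (ω v : ℕ) + 2 * H < 2 * M - 1 + 1 := by omega
  simp only [mv, if_pos hv, shf, if_true, dif_pos h5]

theorem Zone.mv_down (h : Zone ω N H k0 g s) {S : Finset Site}
    (hS : (S : Set Site) ⊆ XS ω M H 1 g s) {v : Site} (hv : v ∈ S) :
    (mv false H S ω v : ℕ) + 2 * H = ω v := by
  obtain ⟨-, ⟨h2, -⟩, -⟩ := hS hv
  have h4 := h.hM
  simp only [mv, if_pos hv, shf, Bool.false_eq_true, if_false]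
  omega

theorem mv_of_not_mem {up : Bool} {S : Finset Site} {v : Site} (hv : v ∉ S) :
    mv up H S ω v = ω v := by
  simp [mv, hv]

theorem zone_val {up : Bool} {S : Finset Site} {v : Site} (hv : v ∉ S) :
    (mv up H S ω v : ℕ) = ω v := congrArg Fin.val (mv_of_not_mem hv)

theorem Zone.mv_props (h : Zone ω N H k0 g s) (up : Bool) {S : Finset Site}
    (hS : (S : Set Site) ⊆ XS ω M H 1 g s) :
    S.card ≤ k0 ∧ Set.InjOn (mv up H S ω) (ball 0 N) ∧
      (S : Set Site) ⊆ XS (mv up H S ω) M H 3 g s ∧ (XS (mv up H S ω) M H 3 g s).ncard ≤ k0 := by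
  have hd : ∀ v, (mv up H S ω v : ℕ) ≤ ω v + 2 * H ∧ (ω v : ℕ) ≤ mv up H S ω v + 2 * H := by
    intro v
    by_cases hv : v ∈ S
    · cases up
      · have := h.mv_down hS hv
        omega
      · have := h.mv_up hS hv
        omega
    · have := zone_val (up := up) (H := H) (ω := ω) hv
      omega
  refine ⟨?_, fun u hu v hv e => ?_, hS.trans (zone_XS_sub hd (by omega)), ?_⟩
  · rw [← Set.ncard_coe_finset]
    exact (Set.ncard_le_ncard (hS.trans (XS_mono (by omega))) (XS_finite 5)).trans h.good.card_le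
  · by_contra hne
    obtain ⟨a1, a2⟩ := h.gen u hu v hv hne
    obtain ⟨-, a3⟩ := h.gen v hv u hu (Ne.symm hne)
    have e' := congrArg Fin.val e
    by_cases hu' : u ∈ S <;> by_cases hv' : v ∈ S
    · cases up
      · have := h.mv_down hS hu'
        have := h.mv_down hS hv'
        omega
      · have := h.mv_up hS hu'
        have := h.mv_up hS hv'
        omega
    · rw [zone_val hv'] at e'
      cases up
      · have := h.mv_down hS hu'
        omega
      · have := h.mv_up hS hu'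
        omega
    · rw [zone_val hu'] at e'
      cases up
      · have := h.mv_down hS hv'
        omega
      · have := h.mv_up hS hv'
        omega
    · rw [zone_val hu', zone_val hv'] at e'
      exact a1 e'
  · exact (Set.ncard_le_ncard (zone_XS_sub (fun v => (hd v).symm) (by omega))
      (XS_finite 5)).trans h.good.card_le

theorem Zone.lev_up (h : Zone ω N H k0 g s) {S : Finset Site}
    (hS : (S : Set Site) ⊆ XS ω M H 1 g s) :
    lev (mv true H S ω) (M + H) = lev ω (M + H) \ S := by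
  ext v
  simp only [lev, Set.mem_sdiff, Set.mem_ofPred_eq, Finset.mem_coe]
  by_cases hv : v ∈ S
  · obtain ⟨-, ⟨h2, -⟩, -⟩ := hS hv
    have h3 := h.mv_up hS hv
    have h4 := h.hM
    exact ⟨fun a => by omega, fun a => absurd hv a.2⟩
  · rw [zone_val hv]
    exact ⟨fun a => ⟨a, hv⟩, fun a => a.1⟩

theorem Zone.lev_down (h : Zone ω N H k0 g s) {S : Finset Site}
    (hS : (S : Set Site) ⊆ XS ω M H 1 g s) :
    lev (mv false H S ω) (M - H) = lev ω (M - H) ∪ S ∧
      lev (mv false H S ω) (M + H) = lev ω (M + H) := by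
  constructor <;> ext v
  · simp only [lev, Set.mem_union, Set.mem_ofPred_eq, Finset.mem_coe]
    by_cases hv : v ∈ S
    · obtain ⟨-, ⟨-, h2⟩, -⟩ := hS hv
      have h3 := h.mv_down hS hv
      exact ⟨fun _ => Or.inr hv, fun _ => by omega⟩
    · rw [zone_val hv]
      exact ⟨Or.inl, fun a => a.resolve_right hv⟩
  · simp only [lev, Set.mem_ofPred_eq]
    by_cases hv : v ∈ S
    · obtain ⟨-, ⟨-, h2⟩, -⟩ := hS hv
      have h3 := h.mv_down hS hv
      omega
    · rw [zone_val hv]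

theorem Zone.adj_up (h : Zone ω N H k0 g s) {S : Finset Site}
    (hS : (S : Set Site) ⊆ XS ω M H 1 g s) {a b : Site} (hab : (tr N ω).Adj a b) (ha : a ∉ S)
    (hb : b ∉ S) : (tr N (mv true H S ω)).Adj a b := by
  refine mst_raise (fun v _ => ?_) (mv_of_not_mem ha).symm (mv_of_not_mem hb).symm hab
  by_cases hv : v ∈ S
  · have := h.mv_up hS hv
    exact Fin.le_def.2 (by omega)
  · exact (mv_of_not_mem hv).ge

theorem Zone.adj_down (h : Zone ω N H k0 g s) {S : Finset Site}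
    (hS : (S : Set Site) ⊆ XS ω M H 1 g s) {a b : Site} (hab : (tr N (mv false H S ω)).Adj a b)
    (ha : a ∉ S) (hb : b ∉ S) : (tr N ω).Adj a b := by
  refine mst_raise (fun v _ => ?_) (mv_of_not_mem ha) (mv_of_not_mem hb) hab
  by_cases hv : v ∈ S
  · have := h.mv_down hS hv
    exact Fin.le_def.2 (by omega)
  · exact (mv_of_not_mem hv).le

/-- The trees before and after a move differ by few edges. -/
theorem Zone.diff (h : Zone ω N H k0 g s) (up : Bool) {S : Finset Site}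
    (hS : (S : Set Site) ⊆ XS ω M H 1 g s) :
    ∃ E E' : Finset (Sym2 Site), E.card ≤ 12 * k0 ∧ E'.card ≤ 6 * k0 ∧
      (∀ a b, ¬ ((tr N ω).Adj a b ↔ (tr N (mv up H S ω)).Adj a b) → s(a, b) ∈ E) ∧
      ∀ a b, (tr N (mv up H S ω)).Adj a b → ¬ (tr N ω).Adj a b → s(a, b) ∈ E' := by
  classical
  obtain ⟨hk, hinj, -, -⟩ := h.mv_props up hS
  obtain ⟨E, E', c1, c2, h1, h2⟩ : ∃ E E' : Finset (Sym2 Site), E.card ≤ 6 * S.card ∧
      E'.card ≤ 6 * S.card ∧
      (∀ a b, (tr N ω).Adj a b → ¬ (tr N (mv up H S ω)).Adj a b → s(a, b) ∈ E) ∧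
      ∀ a b, (tr N (mv up H S ω)).Adj a b → ¬ (tr N ω).Adj a b → s(a, b) ∈ E' := by
    cases up
    · obtain ⟨E, E', c1, c2, h1, h2⟩ := span_diff (ball_finite 0 N) (tr_span hinj) h.span S
        fun a b hab ha hb => h.adj_down hS hab ha hb
      exact ⟨E', E, c2, c1, h2, h1⟩
    · exact span_diff (ball_finite 0 N) h.span (tr_span hinj) S
        fun a b hab ha hb => h.adj_up hS hab ha hb
  refine ⟨E ∪ E', E', ?_, by omega, fun a b hab => ?_, h2⟩
  · have := Finset.card_union_le E E'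
    omega
  · by_cases h3 : (tr N ω).Adj a b
    · exact Finset.mem_union_left _ (h1 a b h3 fun h4 => hab (iff_of_true h3 h4))
    · refine Finset.mem_union_right _ (h2 a b ?_ h3)
      by_contra h4
      exact hab (iff_of_false h3 h4)

end Pool.Agent.Work.MP_ccd212_pr
end

-- merged part: Pool.Agent.Work.MP_ccd212_pr.Forest1
section
/-! Counting lemmas in forests. -/

namespace Pool.Agent.Work.MP_ccd212_pr

variable {V : Type} {H : SimpleGraph V}

private theorem f1_bridge (hA : H.IsAcyclic) {x y : V} (h : H.Adj x y) :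
    ¬ (H.deleteEdges {s(x, y)}).Reachable x y :=
  SimpleGraph.isBridge_iff.1 (SimpleGraph.isAcyclic_iff_forall_adj_isBridge.1 hA h)

private theorem f1_count (hA : H.IsAcyclic) {ι κ : Type} (p : ι → Bool → V)
    (hadj : ∀ i, H.Adj (p i false) (p i true))
    (hinj : ∀ i j, s(p i false, p i true) = s(p j false, p j true) → i = j) (s : Finset ι) :
    ∀ (K : Finset κ) (c : ι → Bool → κ), K.Nonempty → (∀ i ∈ s, ∀ a, c i a ∈ K) →
      (∀ i ∈ s, ∀ j ∈ s, ∀ a b, c i a = c j b →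
        (H.deleteEdges ((fun i => s(p i false, p i true)) '' s)).Reachable (p i a) (p j b)) →
      s.card + 1 ≤ K.card := by
  classical
  induction s using Finset.induction_on with
  | empty => intro K c hK _ _; simpa using hK
  | insert i0 s hi0 ih =>
    intro K c _ hc hr
    have hm := Finset.mem_insert_self i0 s
    have hne : c i0 false ≠ c i0 true := fun e => f1_bridge hA (hadj i0)
      ((hr i0 hm i0 hm _ _ e).mono (SimpleGraph.deleteEdges_anti
        (Set.singleton_subset_iff.2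
          (Set.mem_image_of_mem (fun i => s(p i false, p i true)) (Finset.mem_coe.2 hm)))))
    have hle : H.deleteEdges ((fun i => s(p i false, p i true)) '' (insert i0 s : Finset ι)) ≤
        H.deleteEdges ((fun i => s(p i false, p i true)) '' s) :=
      SimpleGraph.deleteEdges_anti (Set.image_mono (Finset.coe_subset.2 (Finset.subset_insert _ _)))
    have h0 : (H.deleteEdges ((fun i => s(p i false, p i true)) '' s)).Reachable
        (p i0 false) (p i0 true) := by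
      refine SimpleGraph.Adj.reachable (SimpleGraph.deleteEdges_adj.2 ⟨hadj i0, ?_⟩)
      rintro ⟨j, hj, e⟩
      exact hi0 (hinj j i0 e ▸ Finset.mem_coe.1 hj)
    have key := ih (K.erase (c i0 true))
      (fun i a => if c i a = c i0 true then c i0 false else c i a)
      ⟨c i0 false, Finset.mem_erase.2 ⟨hne, hc i0 hm _⟩⟩ (fun i hi a => by
        split_ifs with h
        · exact Finset.mem_erase.2 ⟨hne, hc i0 hm _⟩
        · exact Finset.mem_erase.2 ⟨h, hc i (Finset.mem_insert_of_mem hi) a⟩)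
      (fun i hi j hj a b e => by
        have hi' := Finset.mem_insert_of_mem (b := i0) hi
        have hj' := Finset.mem_insert_of_mem (b := i0) hj
        split_ifs at e with h1 h2 h2
        · exact (hr i hi' j hj' a b (h1.trans h2.symm)).mono hle
        · exact ((hr i hi' i0 hm a _ h1).mono hle).trans
            (h0.symm.trans ((hr i0 hm j hj' _ b e).mono hle))
        · exact ((hr i hi' i0 hm a _ e).mono hle).trans
            (h0.trans ((hr i0 hm j hj' _ b h2.symm).mono hle))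
        · exact (hr i hi' j hj' a b e).mono hle)
    rw [Finset.card_erase_of_mem (hc i0 hm _)] at key
    rw [Finset.card_insert_of_notMem hi0]
    omega

/-- Removing `k ≥ 1` edges of a forest puts their ends in at least `k + 1` components. -/
theorem forest_count (hA : H.IsAcyclic) {k : ℕ} (hk : 1 ≤ k) (u w : Fin k → V)
    (hadj : ∀ i, H.Adj (u i) (w i)) (hinj : ∀ i j, s(u i, w i) = s(u j, w j) → i = j)
    {κ : Type} (K : Finset κ) (cu cw : Fin k → κ) (hu : ∀ i, cu i ∈ K) (hw : ∀ i, cw i ∈ K)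
    (huu : ∀ i j, cu i = cu j →
      HC (H.deleteEdges (Set.range fun i => s(u i, w i))) Set.univ (u i) (u j))
    (huw : ∀ i j, cu i = cw j →
      HC (H.deleteEdges (Set.range fun i => s(u i, w i))) Set.univ (u i) (w j))
    (hww : ∀ i j, cw i = cw j →
      HC (H.deleteEdges (Set.range fun i => s(u i, w i))) Set.univ (w i) (w j)) :
    k + 1 ≤ K.card := by
  have key := f1_count hA (fun i a => cond a (w i) (u i)) hadj hinj Finset.univ K
    (fun i a => cond a (cw i) (cu i)) ⟨_, hu ⟨0, hk⟩⟩ (fun i _ a => by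
      cases a
      · exact hu i
      · exact hw i) (fun i _ j _ a b e => by
      rw [Finset.coe_univ, Set.image_univ]
      cases a <;> cases b
      · exact (huu i j e).elim fun q _ => ⟨q⟩
      · exact (huw i j e).elim fun q _ => ⟨q⟩
      · exact (huw j i e.symm).symm.elim fun q _ => ⟨q⟩
      · exact (hww i j e).elim fun q _ => ⟨q⟩)
  rwa [Finset.card_univ, Fintype.card_fin] at key

private theorem f1_split {a b v : V} {p : H.Walk a b} (hp : p.IsPath) (hv : v ∈ p.support) :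
    ∃ P Q : Set V, P ∩ Q = {v} ∧ P ∪ Q = {x | x ∈ p.support} ∧ HC H P v a ∧ HC H Q v b ∧
      (∀ x ∈ P, HC H P v x) ∧ ∀ x ∈ Q, HC H Q v x := by
  obtain ⟨q, r, rfl⟩ := SimpleGraph.Walk.mem_support_iff_exists_append.1 hv
  refine ⟨{x | x ∈ q.support}, {x | x ∈ r.support}, ?_, ?_, (HC.of_walk q).symm, HC.of_walk r,
    fun x hx => (HC.of_walk q).symm.trans (HC.of_mem_support q hx),
    fun x hx => HC.of_mem_support r hx⟩
  · ext x
    constructor
    · rintro ⟨h1, h2⟩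
      by_contra h
      exact hp.ne_of_mem_support_of_append h h1 h2 rfl
    · rintro rfl
      exact ⟨q.end_mem_support, r.start_mem_support⟩
  · ext x
    exact (SimpleGraph.Walk.mem_support_append_iff _ _).symm

/-- Three disjoint branches attached to a connected set have a median in that set. -/
theorem tripod {K : Set V} (hK : ∀ a ∈ K, ∀ b ∈ K, HC H K a b) {O : Fin 3 → Set V}
    (hO : ∀ i j, i ≠ j → Disjoint (O i) (O j)) (hOK : ∀ i, Disjoint (O i) K) {k y z : Fin 3 → V}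
    (hk : ∀ i, k i ∈ K) (hadj : ∀ i, H.Adj (k i) (y i)) (hc : ∀ i, HC H (O i) (y i) (z i)) :
    ∃ m ∈ K, ∃ (P : Fin 3 → Set V) (y' : Fin 3 → V), (∀ i j, i ≠ j → Disjoint (P i) (P j)) ∧
      ∀ i, m ∉ P i ∧ P i ⊆ K ∪ O i ∧ H.Adj m (y' i) ∧ HC H (P i) (y' i) (z i) := by
  obtain ⟨p, hp, hpK⟩ := (hK _ (hk 0) _ (hk 1)).exists_path
  obtain ⟨m, hm, h2, -⟩ := (hK _ (hk 2) _ (hk 0)).first_hit' (T := {x | x ∈ p.support})
    p.start_mem_support
  obtain ⟨A0, A1, hI, hU, h0, h1, -, -⟩ := f1_split hp hm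
  have hmK : m ∈ K := hpK m hm
  have s0 : A0 ⊆ {x | x ∈ p.support} := hU ▸ Set.subset_union_left
  have s1 : A1 ⊆ {x | x ∈ p.support} := hU ▸ Set.subset_union_right
  obtain ⟨A, hAK, hAm, hA⟩ : ∃ A : Fin 3 → Set V, (∀ i, A i ⊆ K) ∧ (∀ i, HC H (A i) m (k i)) ∧
      ∀ i j, i < j → ∀ x ∈ A i, x ∈ A j → x = m := by
    refine ⟨![A0, A1, K \ {x | x ∈ p.support} ∪ {m}], fun i => ?_, fun i => ?_, fun i j hij => ?_⟩
    · fin_cases i
      · exact fun x hx => hpK x (s0 hx)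
      · exact fun x hx => hpK x (s1 hx)
      · exact Set.union_subset Set.sdiff_subset (Set.singleton_subset_iff.2 hmK)
    · fin_cases i
      · exact h0
      · exact h1
      · exact h2.symm
    · fin_cases i <;> fin_cases j <;> try exact absurd hij (by decide)
      · exact fun x hx hx' => (Set.ext_iff.1 hI x).1 ⟨hx, hx'⟩
      · exact fun x hx hx' => hx'.resolve_left fun h => h.2 (s0 hx)
      · exact fun x hx hx' => hx'.resolve_left fun h => h.2 (s1 hx)
  have hA' : ∀ i j, i ≠ j → ∀ x ∈ A i, x ∈ A j → x = m := fun i j hij x hx hx' =>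
    (lt_or_gt_of_ne hij).elim (fun h => hA i j h x hx hx') fun h => hA j i h x hx' hx
  have key : ∀ i, ∃ y', H.Adj m y' ∧ HC H ((A i ∪ O i) \ {m}) y' (z i) := by
    intro i
    have h3 : HC H (A i ∪ O i) m (z i) :=
      (((hAm i).mono Set.subset_union_left).tail (hadj i) (Or.inr (hc i).left_mem)).trans
        ((hc i).mono Set.subset_union_right)
    obtain ⟨t, y', ht, -, h4, -, h5⟩ := h3.last_exit (T := {m}) rfl fun h =>
      Set.disjoint_left.1 (hOK i) (hc i).right_mem ((show z i = m from h) ▸ hmK)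
    exact ⟨y', (show t = m from ht) ▸ h4, h5⟩
  choose y' hy1 hy2 using key
  refine ⟨m, hmK, fun i => (A i ∪ O i) \ {m}, y', fun i j hij => ?_, fun i =>
    ⟨fun h => h.2 rfl, fun x hx => hx.1.imp_left (hAK i ·), hy1 i, hy2 i⟩⟩
  rw [Set.disjoint_left]
  rintro x ⟨h3 | h3, h4⟩ ⟨h5 | h5, -⟩
  · exact h4 (hA' i j hij x h3 h5)
  · exact Set.disjoint_left.1 (hOK j) h5 (hAK i h3)
  · exact Set.disjoint_left.1 (hOK i) h3 (hAK j h5)
  · exact Set.disjoint_left.1 (hO i j hij) h3 h5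

private theorem f1_sub {a b x y : V} (p : H.Walk a b) (hx : x ∈ p.support) (hy : y ∈ p.support) :
    ∃ r : H.Walk x y, r.IsPath ∧ r.edges ⊆ p.edges := by
  classical
  refine ⟨((p.takeUntil x hx).reverse.append (p.takeUntil y hy)).bypass,
    SimpleGraph.Walk.bypass_isPath _, fun e he => ?_⟩
  have := SimpleGraph.Walk.edges_bypass_subset_edges _ he
  rw [SimpleGraph.Walk.edges_append, SimpleGraph.Walk.edges_reverse, List.mem_append,
    List.mem_reverse] at this
  exact this.elim (fun h => p.edges_takeUntil_subset_edges hx h)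
    fun h => p.edges_takeUntil_subset_edges hy h

/-- Edge-disjoint simple paths of a forest share at most one vertex. -/
theorem share_le_one (hA : H.IsAcyclic) {a b c d : V} {p : H.Walk a b} {q : H.Walk c d}
    (hp : p.IsPath) (hq : q.IsPath) (h : p.edges.Disjoint q.edges) {x y : V} (hx : x ∈ p.support)
    (hx' : x ∈ q.support) (hy : y ∈ p.support) (hy' : y ∈ q.support) : x = y := by
  have _ := hp
  have _ := hq
  obtain ⟨r, hr, hr'⟩ := f1_sub p hx hy
  obtain ⟨t, ht, ht'⟩ := f1_sub q hx' hy'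
  have e : r = t := congrArg Subtype.val
    ((hA.subsingleton_path x y).elim (⟨r, hr⟩ : H.Path x y) ⟨t, ht⟩)
  subst e
  cases r with
  | nil => rfl
  | cons hab r => exact (h (hr' List.mem_cons_self) (ht' List.mem_cons_self)).elim

private theorem f1_parity [DecidableEq V] {x y : V} (hb : ¬ (H.deleteEdges {s(x, y)}).Reachable x y)
    {a b : V} (w : H.Walk a b) : Even (w.edges.count s(x, y)) ↔
      ((H.deleteEdges {s(x, y)}).Reachable x a ↔ (H.deleteEdges {s(x, y)}).Reachable x b) := by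
  induction w with
  | nil => simp
  | @cons a c b hac w ih =>
    rw [SimpleGraph.Walk.edges_cons]
    by_cases h : s(a, c) = s(x, y)
    · rw [h, List.count_cons_self, Nat.even_add_one, ih]
      have hx : (H.deleteEdges {s(x, y)}).Reachable x x := .refl x
      rcases Sym2.eq_iff.1 h with ⟨rfl, rfl⟩ | ⟨rfl, rfl⟩ <;> tauto
    · rw [List.count_cons_of_ne h, ih]
      have h1 : (H.deleteEdges {s(x, y)}).Reachable a c :=
        SimpleGraph.Adj.reachable (SimpleGraph.deleteEdges_adj.2 ⟨hac, h⟩)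
      have h2 : (H.deleteEdges {s(x, y)}).Reachable x a ↔ (H.deleteEdges {s(x, y)}).Reachable x c :=
        ⟨fun h => h.trans h1, fun h => h.trans h1.symm⟩
      rw [h2]

/-- A closed walk of a forest uses every edge an even number of times. -/
theorem even_count [DecidableEq V] (hA : H.IsAcyclic) {a : V} (w : H.Walk a a) (e : Sym2 V) :
    Even (w.edges.count e) := by
  induction e using Sym2.ind with
  | _ x y =>
    by_cases h : H.Adj x y
    · exact (f1_parity (f1_bridge hA h) w).2 Iff.rfl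
    · rw [List.count_eq_zero_of_not_mem fun he => h (w.adj_of_mem_edges he)]
      exact Even.zero

/-- The two parts of a simple path on either side of a vertex. -/
theorem split_path {a b v : V} {p : H.Walk a b} (hp : p.IsPath) (hv : v ∈ p.support) :
    ∃ P Q : Set V, P ∩ Q = {v} ∧ P ∪ Q = {x | x ∈ p.support} ∧ HC H P v a ∧ HC H Q v b ∧
      (∀ x ∈ P, HC H P v x) ∧ ∀ x ∈ Q, HC H Q v x := by
  exact f1_split hp hv

private theorem f1_exit {In : Set V} {a b : V} (w : H.Walk a b) : w.IsPath → a ∈ In → b ∉ In →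
    ∃ u t, u ∈ In ∧ t ∉ In ∧ H.Adj u t ∧ HC H ({v | v ∈ w.support} ∩ In) a u ∧
      HC H ({v | v ∈ w.support} \ {u}) t b := by
  induction w with
  | nil => exact fun _ h h' => absurd h h'
  | @cons a c b hac w ih =>
    intro hp ha hb
    rw [SimpleGraph.Walk.cons_isPath_iff] at hp
    have hs : {v | v ∈ w.support} ⊆ {v | v ∈ (SimpleGraph.Walk.cons hac w).support} :=
      fun v hv => List.mem_cons_of_mem _ hv
    by_cases hc : c ∈ In
    · obtain ⟨u, t, h1, h2, h3, h4, h5⟩ := ih hp.1 hc hb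
      exact ⟨u, t, h1, h2, h3, HC.head hac ⟨List.mem_cons_self, ha⟩
        (h4.mono (Set.inter_subset_inter_left _ hs)), h5.mono (Set.sdiff_subset_sdiff_left hs)⟩
    · exact ⟨a, c, ha, hc, hac, HC.refl ⟨List.mem_cons_self, ha⟩, (HC.of_walk w).mono
        fun v hv => ⟨hs hv, fun e => hp.2 ((show v = a from e) ▸ hv)⟩⟩

private theorem f1_del {ι : Type} {u t : ι → V} {S : Set V} {x y : V} (h : HC H S x y)
    (hS : ∀ j, u j ∈ S → t j ∉ S) :
    HC (H.deleteEdges (Set.range fun i => s(u i, t i))) Set.univ x y := by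
  refine (h.transfer fun a b ha hb hab => SimpleGraph.deleteEdges_adj.2 ⟨hab, ?_⟩).mono
    (Set.subset_univ _)
  rintro ⟨j, e⟩
  rcases Sym2.eq_iff.1 e with ⟨e1, e2⟩ | ⟨e1, e2⟩
  · exact hS j (e1 ▸ ha.right_mem) (e2 ▸ hb)
  · exact hS j (e1 ▸ hb) (e2 ▸ ha.right_mem)

private theorem f1_cls {S : Set V} {x y : V} (hy : y ∈ S) :
    {v | HC H S x v} = {v | HC H S y v} ↔ HC H S x y :=
  ⟨fun e => (Set.ext_iff.1 e y).2 (HC.refl hy),
    fun h => Set.ext fun _ => ⟨fun h' => h.symm.trans h', fun h' => h.trans h'⟩⟩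

private theorem f1_inj {d : ℕ} (hd : 1 ≤ d) {κ : Type} [DecidableEq κ] (f : Fin d → κ)
    (h : d ≤ (Finset.univ.image f).card + 1) :
    ∃ j0, ∀ i j, i ≠ j → i ≠ j0 → j ≠ j0 → f i ≠ f j := by
  by_cases hf : ∀ i j, i ≠ j → f i ≠ f j
  · exact ⟨⟨0, hd⟩, fun i j hij _ _ => hf i j hij⟩
  · push Not at hf
    obtain ⟨i0, j0, h0, e0⟩ := hf
    have e : Finset.univ.image f = (Finset.univ.erase j0).image f := by
      refine Finset.Subset.antisymm (fun x hx => ?_)
        (Finset.image_subset_image (Finset.erase_subset _ _))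
      obtain ⟨i, -, rfl⟩ := Finset.mem_image.1 hx
      by_cases hi : i = j0
      · exact Finset.mem_image.2 ⟨i0, by simp [h0], hi ▸ e0⟩
      · exact Finset.mem_image.2 ⟨i, by simp [hi], rfl⟩
    have h1 : ((Finset.univ.erase j0).image f).card = (Finset.univ.erase j0).card := by
      refine le_antisymm Finset.card_image_le ?_
      rw [← e, Finset.card_erase_of_mem (Finset.mem_univ _), Finset.card_univ, Fintype.card_fin]
      omega
    exact ⟨j0, fun i j hij hi hj e' => hij (Finset.card_image_iff.1 h1 (by simp [hi])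
      (by simp [hj]) e')⟩

/-- Arms joined in at most two classes outside are joined in at most one pair inside. -/
theorem in_out (hA : H.IsAcyclic) {d : ℕ} (hd : 1 ≤ d) {In Out : Set V} (hIO : Disjoint In Out)
    {P : Fin d → Set V} (hP : ∀ i j, i ≠ j → Disjoint (P i) (P j)) {a b : Fin d → V}
    (ha : ∀ i, a i ∈ In) (hb : ∀ i, b i ∈ Out) (hc : ∀ i, HC H (P i) (a i) (b i))
    (h3 : ∀ i j l, i ≠ j → i ≠ l → j ≠ l →
      HC H Out (b i) (b j) ∨ HC H Out (b i) (b l) ∨ HC H Out (b j) (b l)) :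
    ∃ j0, ∀ i j, i ≠ j → i ≠ j0 → j ≠ j0 → ¬ HC H In (a i) (a j) := by
  classical
  have hbI : ∀ i, b i ∉ In := fun i h => Set.disjoint_left.1 hIO h (hb i)
  have key : ∀ i, ∃ u t, u ∈ In ∧ t ∉ In ∧ H.Adj u t ∧ HC H (P i ∩ In) (a i) u ∧
      HC H (P i \ {u}) t (b i) := by
    intro i
    obtain ⟨w, hw, hw'⟩ := (hc i).exists_path
    obtain ⟨u, t, h1, h2, h3, h4, h5⟩ := f1_exit w hw (ha i) (hbI i)
    exact ⟨u, t, h1, h2, h3, h4.mono (Set.inter_subset_inter_left _ hw'),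
      h5.mono (Set.sdiff_subset_sdiff_left hw')⟩
  choose u t h1 h2 h4 h5 h6 using key
  have huP : ∀ i, u i ∈ P i := fun i => (h5 i).right_mem.1
  have hidx : ∀ i j, u j ∈ P i → j = i := fun i j h => by
    by_contra hne
    exact Set.disjoint_left.1 (hP j i hne) (huP j) h
  have d1 : ∀ i, HC (H.deleteEdges (Set.range fun i => s(u i, t i))) Set.univ (a i) (u i) :=
    fun i => f1_del (h5 i) fun j _ h => h2 j h.2
  have d2 : ∀ i, HC (H.deleteEdges (Set.range fun i => s(u i, t i))) Set.univ (t i) (b i) :=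
    fun i => f1_del (h6 i) fun j h _ => h.2 (congrArg u (hidx i j h.1))
  have hcount := forest_count hA hd u t h4 (fun i j e => by
      rcases Sym2.eq_iff.1 e with ⟨e1, _⟩ | ⟨e1, _⟩
      · exact hidx j i (e1 ▸ huP j)
      · exact absurd (e1 ▸ h1 i) (h2 j))
    ((Finset.univ.image fun i => {v | HC H In (a i) v}).disjSum
      (Finset.univ.image fun i => {v | HC H Out (b i) v}))
    (fun i => Sum.inl {v | HC H In (a i) v}) (fun i => Sum.inr {v | HC H Out (b i) v})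
    (fun i => Finset.inl_mem_disjSum.2 (Finset.mem_image_of_mem _ (Finset.mem_univ i)))
    (fun i => Finset.inr_mem_disjSum.2 (Finset.mem_image_of_mem _ (Finset.mem_univ i)))
    (fun i j e => (d1 i).symm.trans
      ((f1_del ((f1_cls (ha j)).1 (Sum.inl.inj e)) fun l _ => h2 l).trans (d1 j)))
    (fun i j e => absurd e Sum.inl_ne_inr)
    (fun i j e => (d2 i).trans ((f1_del ((f1_cls (hb j)).1 (Sum.inr.inj e))
      fun l h _ => Set.disjoint_left.1 hIO (h1 l) h).trans (d2 j).symm))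
  have h7 : (Finset.univ.image fun i => {v | HC H Out (b i) v}).card ≤ 2 := by
    by_contra hcon
    obtain ⟨x, y, z, hx, hy, hz, n1, n2, n3⟩ := Finset.two_lt_card_iff.1 (not_le.1 hcon)
    obtain ⟨i, -, rfl⟩ := Finset.mem_image.1 hx
    obtain ⟨j, -, rfl⟩ := Finset.mem_image.1 hy
    obtain ⟨l, -, rfl⟩ := Finset.mem_image.1 hz
    rcases h3 i j l (fun e => n1 (by rw [e])) (fun e => n2 (by rw [e])) (fun e => n3 (by rw [e]))
      with h | h | h
    · exact n1 ((f1_cls (hb j)).2 h)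
    · exact n2 ((f1_cls (hb l)).2 h)
    · exact n3 ((f1_cls (hb l)).2 h)
  rw [Finset.card_disjSum] at hcount
  obtain ⟨j0, hj0⟩ := f1_inj hd (fun i => {v | HC H In (a i) v}) (by omega)
  exact ⟨j0, fun i j hij hi hj h => hj0 i j hij hi hj ((f1_cls (ha j)).2 h)⟩

end Pool.Agent.Work.MP_ccd212_pr
end

-- merged part: Pool.Agent.Work.MP_ccd212_pr.Zone2
section
/-! Tree crossings of the zone are open at the upper level. -/

namespace Pool.Agent.Work.MP_ccd212_pr

variable {M N H k0 s : ℕ} {ω : Site → Fin (2 * M - 1 + 1)} {g : Site}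

/-- Connected open blockers of the inner and of the outer ring. -/
def Blk (Hi : Set Site) (g : Site) (s : ℕ) (O1 O2 : Set Site) : Prop :=
  O1 ⊆ Hi ∩ ann g s (2 * s) ∧ O2 ⊆ Hi ∩ ann g (8 * s) (9 * s) ∧ IsConn O1 ∧ IsConn O2 ∧
    ¬ Arm O1ᶜ g s (2 * s) ∧ ¬ Arm O2ᶜ g (8 * s) (9 * s)

/-- A connection across a ring meets every blocker of the ring. -/
theorem z2_hit {S O : Set Site} {a b c : Site} {r R : ℕ} (h : Conn S a b) (hr : r ≤ R)
    (ha : dst c a < r ∨ InnerB c r a) (hb : R ≤ dst c b) (hO : ¬ Arm Oᶜ c r R) :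
    ∃ y ∈ O, Conn S a y := by
  by_contra hn
  have h1 : Conn (S ∩ Oᶜ) a b := h.inter_of fun v hv hv' => hn ⟨v, hv', hv⟩
  exact hO ((h1.arm hr ha hb).mono Set.inter_subset_right)

/-- The piece of a simple path between two points on either side of `v`. -/
theorem z2_mid {V : Type} {T : SimpleGraph V} {a v b y1 y2 : V} {t : T.Walk a v} {d : T.Walk v b}
    (hp : (t.append d).IsPath) (h1 : y1 ∈ t.support) (h2 : y2 ∈ d.support) :
    ∃ q : T.Walk y1 y2, q.IsPath ∧ v ∈ q.support := by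
  obtain ⟨t1, t2, rfl⟩ := SimpleGraph.Walk.mem_support_iff_exists_append.1 h1
  obtain ⟨d1, d2, rfl⟩ := SimpleGraph.Walk.mem_support_iff_exists_append.1 h2
  rw [SimpleGraph.Walk.append_assoc, ← SimpleGraph.Walk.append_assoc t1] at hp
  exact ⟨t2.append d1, hp.of_append_left.of_append_right,
    (SimpleGraph.Walk.mem_support_append_iff _ _).2 (Or.inl t2.end_mem_support)⟩

theorem Zone.exists_blk (h : Zone ω N H k0 g s) : ∃ O1 O2, Blk (lev ω (M + H)) g s O1 O2 ∧
    ∃ y1 ∈ O1, ∃ y2 ∈ O2, Conn (ball 0 N ∩ lev ω (M + H)) y1 y2 := by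
  have hs := h.hs
  obtain ⟨O1, a1, a2, a3⟩ := ring_dual (by omega) (by omega) h.good.hi_in
  obtain ⟨O2, b1, b2, b3⟩ := ring_dual (by omega) (by omega) h.good.hi_out
  rw [compl_compl] at a1 b1
  obtain ⟨a, b, ha, hb, hc⟩ := h.good.radial
  obtain ⟨y1, h1, c1⟩ := z2_hit hc (by omega) (Or.inr ha) (by omega) a3
  obtain ⟨y2, h2, c2⟩ := z2_hit hc (by omega) (ha.le_or (by omega)) hb.ge b3
  refine ⟨O1, O2, ⟨a1, b1, a2, b2, a3, b3⟩, y1, h1, y2, h2, (c1.symm.trans c2).mono fun v hv => ?_⟩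
  exact ⟨h.sub (Nat.le_succ_of_le hv.2.2), hv.1⟩

/-- Between two joined open blockers every tree crossing is open. -/
theorem hi_between {m k : ℕ} {ω' : Site → Fin m} (hinj : Set.InjOn ω' (ball 0 N)) (hs : 1 ≤ s)
    (hsub : ball g (9 * s) ⊆ ball 0 N) {O1 O2 : Set Site} (hB : Blk (lev ω' k) g s O1 O2)
    (hj : ∃ y1 ∈ O1, ∃ y2 ∈ O2, Conn (ball 0 N ∩ lev ω' k) y1 y2) {a b : Site}
    {p : (tr N ω').Walk a b} (hp : p.IsPath) (ha : dst g a < s) (hb : 9 * s ≤ dst g b) :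
    (∃ y1 ∈ O1, ∃ y2 ∈ O2, HC (tr N ω') ({v | v ∈ p.support} ∩ lev ω' k) y1 y2) ∧
      (∀ v ∈ p.support, v ∈ ann g (2 * s) (8 * s - 1) → v ∈ lev ω' k) ∧
      Arm ({v | v ∈ p.support} ∩ lev ω' k) g (4 * s) (7 * s) := by
  obtain ⟨a1, b1, a2, b2, a3, b3⟩ := hB
  obtain ⟨x1, hx1, x2, hx2, hx⟩ := hj
  have sp := tr_span hinj
  have j : ∀ y1 ∈ O1, ∀ y2 ∈ O2, HC (tr N ω') (ball 0 N ∩ lev ω' k) y1 y2 := by
    intro y1 h1 y2 h2
    refine tr_minimax (Conn.trans ((a2 _ h1 _ hx1).mono fun v hv => ⟨hsub ?_, (a1 hv).1⟩)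
      (hx.trans ((b2 _ hx2 _ h2).mono fun v hv => ⟨hsub (b1 hv).2.2, (b1 hv).1⟩)))
    have := (a1 hv).2.2
    rw [mem_ball]
    omega
  have hc : Conn {v | v ∈ p.support} a b := (HC.of_walk p).conn sp.le
  obtain ⟨y1, h1, c1⟩ := z2_hit hc (by omega) (Or.inl ha) (by omega) a3
  obtain ⟨y2, h2, c2⟩ := z2_hit hc (by omega) (Or.inl (by omega)) hb b3
  have c : HC (tr N ω') ({v | v ∈ p.support} ∩ lev ω' k) y1 y2 :=
    (HC.inter sp.acyclic ((HC.of_mem_support p c1.right_mem).symm.trans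
      (HC.of_mem_support p c2.right_mem)) (j y1 h1 y2 h2)).mono fun v hv => ⟨hv.1, hv.2.2⟩
  refine ⟨⟨y1, h1, y2, h2, c⟩, fun v hv hv' => ?_, ?_⟩
  · obtain ⟨t, d, rfl⟩ := SimpleGraph.Walk.mem_support_iff_exists_append.1 hv
    have e1 := hv'.1
    have e2 := hv'.2
    obtain ⟨z1, g1, d1⟩ := z2_hit ((HC.of_walk t).conn sp.le) (by omega) (Or.inl ha) e1 a3
    obtain ⟨z2, g2, d2⟩ := z2_hit ((HC.of_walk d).conn sp.le) (by omega) (Or.inl (by omega)) hb b3
    obtain ⟨q, hq, hv⟩ := z2_mid hp d1.right_mem d2.right_mem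
    exact ((j z1 g1 z2 g2).path_subset sp.acyclic hq v hv).2
  · have e1 := (a1 h1).2.2
    have e2 := (b1 h2).2.1
    exact (c.conn sp.le).arm (by omega) (Or.inl (by omega)) (by omega)

theorem Zone.base (h : Zone ω N H k0 g s) : ¬ DArms (k0 + 1) (tr N ω) g (s - 1) (9 * s) := by
  rintro ⟨P, hP, hA⟩
  have hs := h.hs
  obtain ⟨O1, O2, hB, hj⟩ := h.exists_blk
  obtain ⟨S, hS⟩ := h.exists_S0
  have key : ∀ i, ∃ v ∈ S, v ∈ P i := fun i => by
    obtain ⟨a, b, ha, hb, hc⟩ := hA i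
    obtain ⟨p, hp, hp'⟩ := hc.exists_path
    have h3 := (hi_between h.inj (by omega) (fun v hv => h.sub (Nat.le_succ_of_le hv)) hB hj hp
      (by omega) hb).2.2
    by_contra hn
    exact hS.kill (h3.mono fun v hv => ⟨hv.2, fun hv' => hn ⟨v, hv', hp' v hv.1⟩⟩)
  choose f hf hf' using key
  have h1 := Finset.card_le_card_of_injOn (s := Finset.univ) (t := S) f (fun i _ => hf i)
    fun i _ j _ hij => by
      by_contra hne
      exact Set.disjoint_left.1 (hP i j hne) (hf' i) (hij ▸ hf' j)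
  have h2 := (h.mv_props true hS.sub).1
  rw [Finset.card_univ, Fintype.card_fin] at h1
  omega

/-- Clusters of a set that does not cross the two guard rings stay in the zone. -/
theorem confined {X : Set Site} (hs : 1 ≤ s) (h1 : ¬ Arm X g s (2 * s))
    (h2 : ¬ Arm X g (8 * s) (9 * s)) {a b : Site} (ha : a ∈ ann g (2 * s) (8 * s - 1))
    (h : Conn X a b) : Conn (X ∩ ann g s (9 * s - 1)) a b := by
  have e1 := ha.1
  have e2 := ha.2
  refine h.inter_of fun v hv => ⟨not_lt.1 fun hl => ?_, not_lt.1 fun hl => ?_⟩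
  · exact h1 (hv.symm.arm (by omega) (Or.inl hl) e1)
  · exact h2 (hv.arm (by omega) (Or.inl (by omega)) (by omega))

end Pool.Agent.Work.MP_ccd212_pr
end

-- merged part: Pool.Agent.Work.MP_ccd212_pr.Forest2
section
/-! Arms of a forest drawn in the lattice. -/

namespace Pool.Agent.Work.MP_ccd212_pr

variable {T T' : SimpleGraph Site}

private theorem ring_eq {ι : Type} {x v : Site} {lo hi : ι → ℕ} {i j : ι}
    (h2 : i ≠ j → hi i < lo j ∨ hi j < lo i) (h : v ∈ ann x (lo i) (hi i))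
    (h' : v ∈ ann x (lo j) (hi j)) : i = j := by
  by_contra hij
  have := h2 hij
  rw [mem_ann] at h h'
  omega

private theorem cluster_conn {V : Type} {H : SimpleGraph V} {S : Set V} {a u v : V}
    (hu : HC H S a u) (hv : HC H S a v) : HC H {x | HC H S a x} u v :=
  hu.cluster.symm.trans hv.cluster

/-- Among `d` disjoint rings crossed by `d` disjoint arms there is one in which the arms lie in
distinct components. -/
theorem dcomp_of_darms (hT : T ≤ G) (hA : T.IsAcyclic) {d : ℕ} (hd : 1 ≤ d) {x : Site} {r R : ℕ}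
    (h : DArms d T x r R) (lo hi : Fin d → ℕ) (h1 : ∀ j, r ≤ lo j ∧ lo j ≤ hi j ∧ hi j ≤ R)
    (h2 : ∀ i j, i ≠ j → hi i < lo j ∨ hi j < lo i) : ∃ j, DComp d T x (lo j) (hi j) := by
  obtain ⟨P, hP, hab⟩ := h
  choose a b ha hb hc using hab
  set Q : Fin d → Set Site := fun i => {v | HC T (P i) (a i) v} with hQ
  have hQd : ∀ i j v, v ∈ Q i → v ∈ Q j → i = j := fun i j v hi hj => by
    by_contra hij
    exact Set.disjoint_left.1 (hP i j hij) (HC.right_mem hi) (HC.right_mem hj)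
  have sub : ∀ j i, ∃ a' b', dst x a' = lo j ∧ dst x b' = hi j ∧
      HC T (Q i ∩ ann x (lo j) (hi j)) a' b' := fun j i => by
    obtain ⟨a', b', e1, e2, e3, -⟩ := HC.sub_ann hT (hc i).cluster (c := x) (h1 j).2.1
      ((ha i).trans (h1 j).1) ((h1 j).2.2.trans (hb i))
    exact ⟨a', b', e1, e2, e3⟩
  choose a' b' e1 e2 e3 using sub
  by_contra hcon
  have bad : ∀ j, ∃ i i' t u, t ∈ Q i ∧ u ∉ Q i ∧ T.Adj t u ∧ t ∈ ann x (lo j) (hi j) ∧
      HC T (ann x (lo j) (hi j) \ Q i) u (a' j i') := fun j => by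
    by_contra hno
    refine hcon ⟨j, a' j, b' j, fun i => ⟨e1 j i, e2 j i, (e3 j i).mono Set.inter_subset_right⟩,
      fun i i' hii hj => hno ?_⟩
    obtain ⟨t, u, ht, hu, hadj, c1, c2⟩ := hj.last_exit (T := Q i) (e3 j i).left_mem.1
      fun hm => hii (hQd _ _ _ hm (e3 j i').left_mem.1)
    exact ⟨i, i', t, u, ht, hu, hadj, c1.right_mem, c2⟩
  choose cu cw t u ht hu hadj htr hur using bad
  have inQ : ∀ i v v', v ∈ Q i → v' ∈ Q i →
      HC (T.deleteEdges (Set.range fun j => s(t j, u j))) Set.univ v v' := fun i v v' hv hv' => by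
    refine ((cluster_conn hv hv').transfer fun p q hp hq hpq => ?_).mono (Set.subset_univ _)
    rw [SimpleGraph.deleteEdges_adj]
    refine ⟨hpq, ?_⟩
    rintro ⟨k, hk⟩
    have hp' : p ∈ Q i := hp.right_mem
    have hq' : q ∈ Q i := hq
    rcases Sym2.eq_iff.1 hk with ⟨rfl, rfl⟩ | ⟨rfl, rfl⟩
    · exact hu k (hQd _ _ _ hp' (ht k) ▸ hq')
    · exact hu k (hQd _ _ _ hq' (ht k) ▸ hp')
  have join : ∀ j, HC (T.deleteEdges (Set.range fun j => s(t j, u j))) Set.univ (u j)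
      (a' j (cw j)) := fun j => by
    refine ((hur j).transfer fun p q hp hq hpq => ?_).mono (Set.subset_univ _)
    rw [SimpleGraph.deleteEdges_adj]
    refine ⟨hpq, ?_⟩
    rintro ⟨k, hk⟩
    have key : t k ∈ ann x (lo j) (hi j) \ Q (cu j) := by
      rcases Sym2.eq_iff.1 hk with ⟨h, -⟩ | ⟨h, -⟩ <;> rw [h]
      exacts [hp.right_mem, hq]
    obtain rfl : k = j := ring_eq (h2 k j) (htr k) key.1
    exact key.2 (ht k)
  have hw : ∀ j, a' j (cw j) ∈ Q (cw j) := fun j => (e3 j (cw j)).left_mem.1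
  have := forest_count hA hd t u hadj (fun i j hij => by
      rcases Sym2.eq_iff.1 hij with ⟨h, -⟩ | ⟨h, -⟩
      · exact ring_eq (h2 i j) (htr i) (h ▸ htr j)
      · exact ring_eq (h2 i j) (htr i) (h ▸ (hur j).left_mem.1))
    Finset.univ cu cw (fun _ => Finset.mem_univ _) (fun _ => Finset.mem_univ _)
    (fun i j hij => inQ (cu j) _ _ (hij ▸ ht i) (ht j))
    (fun i j hij => (inQ (cw j) _ _ (hij ▸ ht i) (hw j)).trans (join j).symm)
    (fun i j hij => ((join i).trans (inQ (cw j) _ _ (hij ▸ hw i) (hw j))).trans (join j).symm)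
  simp at this

theorem darms_of_earms (hT : T ≤ G) (hA : T.IsAcyclic) {x : Site} {r R : ℕ} (h : EArms T x r R)
    (lo hi : Fin 7 → ℕ) (h1 : ∀ j, r ≤ lo j ∧ lo j ≤ hi j ∧ hi j ≤ R)
    (h2 : ∀ i j, i ≠ j → hi i < lo j ∨ hi j < lo i) : ∃ j, DArms 4 T x (lo j) (hi j) := by
  obtain ⟨a, b, w, hw, hd⟩ := h
  by_contra hcon
  have bad : ∀ j, ∃ p : Fin 4 × Fin 4, p.1 < p.2 ∧ ∃ v, v ∈ ann x (lo j) (hi j) ∧
      v ∈ (w p.1).support ∧ v ∈ (w p.2).support := fun j => by
    by_contra hno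
    refine hcon ⟨j, fun i => {v | v ∈ (w i).support} ∩ ann x (lo j) (hi j), fun i i' hii => ?_,
      fun i => ?_⟩
    · rw [Set.disjoint_left]
      intro v hv hv'
      rcases lt_or_gt_of_ne hii with hlt | hlt
      · exact hno ⟨(i, i'), hlt, v, hv.2, hv.1, hv'.1⟩
      · exact hno ⟨(i', i), hlt, v, hv.2, hv'.1, hv.1⟩
    · obtain ⟨a', b', e1, e2, e3, -⟩ := HC.sub_ann hT (HC.of_walk (w i)) (c := x) (h1 j).2.1
        ((hw i).2.1.trans (h1 j).1) ((h1 j).2.2.trans (hw i).2.2)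
      exact ⟨a', b', e1.le, e2.ge, e3⟩
  choose p hp v hv hv1 hv2 using bad
  have hcard : (Finset.univ.filter fun q : Fin 4 × Fin 4 => q.1 < q.2).card <
      (Finset.univ : Finset (Fin 7)).card := by decide
  obtain ⟨j, -, k, -, hjk, hpe⟩ := Finset.exists_ne_map_eq_of_card_lt_of_maps_to hcard (f := p)
    fun j _ => by simpa using hp j
  have hv1' : v k ∈ (w (p j).1).support := hpe ▸ hv1 k
  have hv2' : v k ∈ (w (p j).2).support := hpe ▸ hv2 k
  have := share_le_one hA (hw _).1 (hw _).1 (hd _ _ (hp j).ne) (hv1 j) (hv2 j) hv1' hv2'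
  exact hjk (ring_eq (h2 j k) (hv j) (this ▸ hv k))

theorem darms_add {k : ℕ} {x : Site} {r R : ℕ} (E : Finset (Sym2 Site))
    (hE : ∀ a b, T'.Adj a b → ¬ T.Adj a b → s(a, b) ∈ E) (h : DArms (k + E.card) T' x r R) :
    DArms k T x r R := by
  classical
  obtain ⟨P, hP, hab⟩ := h
  choose a b ha hb hc using hab
  have bad : ∀ i, ¬ HC T (P i) (a i) (b i) → ∃ e ∈ E, ∃ v ∈ e, ∀ u ∈ e, u ∈ P i := fun i hi => by
    by_contra hno
    refine hi ((hc i).transfer fun p q hp hq hpq => ?_)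
    by_contra hn
    refine hno ⟨_, hE p q hpq hn, p, Sym2.mem_mk_left _ _, fun u hu => ?_⟩
    rcases Sym2.mem_iff.1 hu with rfl | rfl
    exacts [hp.right_mem, hq]
  have h1 : (Finset.univ.filter fun i => ¬ HC T (P i) (a i) (b i)).card ≤ E.card := by
    refine Finset.card_le_card_of_forall_subsingleton (fun i e => ∃ v ∈ e, ∀ u ∈ e, u ∈ P i)
      (fun i hi => bad i (Finset.mem_filter.1 hi).2) ?_
    rintro e - i ⟨-, v, hv, hi⟩ j ⟨-, -, -, hj⟩
    by_contra hij
    exact Set.disjoint_left.1 (hP i j hij) (hi v hv) (hj v hv)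
  have h2 := Finset.card_filter_add_card_filter_not (s := Finset.univ)
    fun i => HC T (P i) (a i) (b i)
  rw [Finset.card_univ, Fintype.card_fin] at h2
  obtain ⟨f, hf⟩ := Function.Embedding.exists_of_card_le_finset (α := Fin k)
    (s := Finset.univ.filter fun i => HC T (P i) (a i) (b i)) (by rw [Fintype.card_fin]; omega)
  refine ⟨fun i => P (f i), fun i j hij => hP _ _ fun e => hij (f.injective e), fun i =>
    ⟨a (f i), b (f i), ha _, hb _, ?_⟩⟩
  simpa using hf ⟨i, rfl⟩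

theorem hc_congr {S : Set Site} (h : ∀ a ∈ S, ∀ b ∈ S, T.Adj a b ↔ T'.Adj a b) {a b : Site} :
    HC T S a b ↔ HC T' S a b := by
  exact ⟨fun hc => hc.transfer fun p q hp hq hpq => (h p hp.right_mem q hq).1 hpq,
    fun hc => hc.transfer fun p q hp hq hpq => (h p hp.right_mem q hq).2 hpq⟩

open Classical in
/-- Few edges meet few disjoint rings. -/
theorem few_touched {ι : Type} (I : Finset ι) (x : Site) (lo hi : ι → ℕ)
    (h2 : ∀ i ∈ I, ∀ j ∈ I, i ≠ j → hi i < lo j ∨ hi j < lo i) (E : Finset (Sym2 Site))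
    (hE : ∀ a b, ¬ (T.Adj a b ↔ T'.Adj a b) → s(a, b) ∈ E) :
    (I.filter fun i => ¬ ∀ a ∈ ann x (lo i) (hi i), ∀ b ∈ ann x (lo i) (hi i),
      T.Adj a b ↔ T'.Adj a b).card ≤ E.card := by
  refine Finset.card_le_card_of_forall_subsingleton
    (fun i e => ∃ v ∈ e, ∀ u ∈ e, u ∈ ann x (lo i) (hi i)) (fun i hi => ?_) ?_
  · have := (Finset.mem_filter.1 hi).2
    simp only [not_forall] at this
    obtain ⟨a, ha, b, hb, hab⟩ := this
    refine ⟨_, hE a b hab, a, Sym2.mem_mk_left _ _, fun u hu => ?_⟩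
    rcases Sym2.mem_iff.1 hu with rfl | rfl
    exacts [ha, hb]
  · rintro e - i ⟨hiI, v, hv, hi⟩ j ⟨hjI, -, -, hj⟩
    exact ring_eq (h2 i (Finset.mem_filter.1 hiI).1 j (Finset.mem_filter.1 hjI).1) (hi v hv)
      (hj v hv)

/-- Crossing components seen from a nearby centre, in a smaller ring. -/
theorem Comps.restrict (hT : T ≤ G) {d : ℕ} {x c : Site} {r R r' R' : ℕ} {a b : Fin d → Site}
    (h : Comps T x r R a b) (h0 : 1 ≤ r') (h1 : dst x c + r ≤ r') (h2 : r' ≤ R') (h3 : R' + dst x c ≤ R) :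
    ∃ a' b' : Fin d → Site, Comps T c r' R' a' b' ∧ ∀ i, HC T (ann x r R) (a i) (a' i) ∧
      HC T (ann x r R \ ball c (r' - 1)) (a' i) (b i) := by
  have key : ∀ i, ∃ a' b', dst c a' = r' ∧ dst c b' = R' ∧ HC T (ann c r' R') a' b' ∧
      HC T (ann x r R) (a i) a' ∧ HC T (ann x r R \ ball c (r' - 1)) a' (b i) := fun i => by
    obtain ⟨e1, e2, e3⟩ := h.1 i
    have t1 := dst_triangle c x (a i)
    have t2 := dst_triangle x c (b i)
    rw [dst_comm c x] at t1
    have s1 : ∃ a1, dst c a1 ≤ r' ∧ HC T (ann x r R) (a i) a1 ∧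
        HC T (ann x r R \ ball c (r' - 1)) a1 (b i) := by
      by_cases hb : b i ∈ ball c r'
      · refine ⟨b i, hb, e3, HC.refl ⟨e3.right_mem, ?_⟩⟩
        rw [mem_ball]
        omega
      · obtain ⟨t, u, ht, hu, hadj, c1, c2⟩ := e3.last_exit (T := ball c r')
          (by rw [mem_ball]; omega) hb
        have t3 := Adj.dst_le (hT hadj) c
        rw [mem_ball] at ht hu
        refine ⟨t, ht, c1, HC.head hadj ⟨c1.right_mem, by rw [mem_ball]; omega⟩
          (c2.mono fun v hv => ⟨hv.1, fun hv' => hv.2 ?_⟩)⟩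
        rw [mem_ball] at hv' ⊢
        omega
    obtain ⟨a1, f1, f2, f3⟩ := s1
    obtain ⟨a', b', g1, g2, g3, g4, g5, -⟩ := HC.sub_ann hT f3 (c := c) h2 f1 (by omega)
    exact ⟨a', b', g1, g2, g3.mono Set.inter_subset_right, f2.trans (g4.mono Set.diff_subset),
      (g3.mono Set.inter_subset_left).trans g5⟩
  choose a' b' k1 k2 k3 k4 k5 using key
  refine ⟨a', b', ⟨fun i => ⟨k1 i, k2 i, k3 i⟩, fun i j hij hc => h.2 i j hij ?_⟩,
    fun i => ⟨k4 i, k5 i⟩⟩
  refine ((k4 i).trans (hc.mono fun v hv => ?_)).trans (k4 j).symm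
  have t1 := dst_triangle c x v
  have t2 := dst_triangle x c v
  rw [dst_comm c x] at t1
  rw [mem_ann] at hv ⊢
  omega

section BK

variable {V : Type} {H : SimpleGraph V}

/-- Three points of `L` reachable from `c` and separated by `c`. -/
private def Tr3 (H : SimpleGraph V) (L : Finset V) (c : V) : Prop :=
  ∃ l : Fin 3 → V, (∀ i, l i ∈ L ∧ HC H Set.univ c (l i)) ∧
    ∀ i j, i ≠ j → ¬ HC H {c}ᶜ (l i) (l j)

private theorem pick {p q : Fin 3 → Prop} (hp : ∀ i j, i ≠ j → p i → ¬ p j)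
    (hq : ∀ i j, i ≠ j → q i → ¬ q j) : ∃ i, ¬ p i ∧ ¬ q i := by
  by_contra h
  have h0 := fun i => not_and_or.1 (fun k => h ⟨i, k⟩)
  have := hp 0 1 (by decide)
  have := hp 0 2 (by decide)
  have := hp 1 2 (by decide)
  have := hq 0 1 (by decide)
  have := hq 0 2 (by decide)
  have := hq 1 2 (by decide)
  have := h0 0
  have := h0 1
  have := h0 2
  grind

/-- A point that reaches `c` reaches `c` off `c'` or `c'` off `c`. -/
private theorem hit {m c c' : V} (hne : c ≠ c') (h : HC H Set.univ m c) :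
    HC H {c'}ᶜ m c ∨ HC H {c}ᶜ m c' := by
  obtain ⟨t, ht, h1, -⟩ := h.first_hit' (T := {c, c'}) (Set.mem_insert _ _)
  rcases ht with rfl | rfl
  · refine Or.inl (h1.mono ?_)
    rintro v (hv | rfl)
    · exact fun e => hv.2 (Or.inr e)
    · exact hne
  · refine Or.inr (h1.mono ?_)
    rintro v (hv | rfl)
    · exact fun e => hv.2 (Or.inl e)
    · exact hne.symm

private theorem avoid {m m' c c' : V} (h : HC H {c'}ᶜ m m') (hn : ¬ HC H {c'}ᶜ m c) :
    HC H {c}ᶜ m m' :=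
  (h.inter_of (T := {c}ᶜ) fun _ hv e => hn (e ▸ hv)).mono Set.inter_subset_right

private theorem bk (n : ℕ) : ∀ Q L : Finset V, Q.card = n → (∀ c ∈ Q, c ∉ L) →
    (∀ c ∈ Q, Tr3 H L c) → Q.card ≤ L.card := by
  classical
  induction n with
  | zero => intro Q L h _ _; omega
  | succ n ih =>
    intro Q L hn hd hT
    obtain ⟨c0, hc0⟩ : Q.Nonempty := Finset.card_pos.1 (by omega)
    obtain ⟨l0, hl0, -⟩ := hT c0 hc0
    obtain ⟨⟨c, l⟩, hcl, hmin⟩ := Finset.exists_min_image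
      ((Q ×ˢ L).filter fun z => HC H Set.univ z.1 z.2)
      (fun z => (L.filter fun v => HC H {z.1}ᶜ z.2 v).card)
      ⟨(c0, l0 0), by simp [hc0, hl0 0]⟩
    simp only [Finset.mem_filter, Finset.mem_product] at hcl hmin
    obtain ⟨⟨hc, hl⟩, hcl⟩ := hcl
    have hlc : l ∈ ({c}ᶜ : Set V) := fun e => hd c hc (e ▸ hl)
    have noQ : ∀ c' ∈ Q, c' ≠ c → ¬ HC H {c}ᶜ l c' := fun c' hc' hne hj => by
      obtain ⟨m, hm, hs⟩ := hT c' hc'
      have one : ∀ i j, i ≠ j → HC H {c'}ᶜ (m i) c → ¬ HC H {c'}ᶜ (m j) c :=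
        fun i j hij h1 h2 => hs i j hij (h1.trans h2.symm)
      obtain ⟨i, hi, -⟩ := pick one one
      obtain ⟨j, hj', hji⟩ := pick one (q := fun j => j = i) fun a b hab h1 h2 =>
        hab (h1.trans h2.symm)
      have back : ∀ k, ¬ HC H {c'}ᶜ (m k) c → HC H {c}ᶜ l (m k) := fun k hk =>
        hj.trans ((hit hne (hm k).2.symm).resolve_right hk).symm
      refine absurd (hmin (c', m i) ⟨⟨hc', (hm i).1⟩, (hm i).2⟩) (not_le.2 ?_)
      refine Finset.card_lt_card ⟨fun v hv => ?_, fun hsub => ?_⟩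
      · rw [Finset.mem_filter] at hv ⊢
        exact ⟨hv.1, (back i hi).trans (avoid hv.2 hi)⟩
      · have := hsub (Finset.mem_filter.2 ⟨(hm j).1, back j hj'⟩)
        exact hs i j (Ne.symm hji) (Finset.mem_filter.1 this).2
    have := ih (Q.erase c) (L.filter fun v => ¬ HC H {c}ᶜ l v)
      (by rw [Finset.card_erase_of_mem hc]; omega)
      (fun c' hc' h => hd c' (Finset.mem_of_mem_erase hc') (Finset.mem_filter.1 h).1)
      fun c' hc' => by
        obtain ⟨hne, hc'⟩ := Finset.mem_erase.1 hc'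
        obtain ⟨m, hm, hs⟩ := hT c' hc'
        have toc : ∀ k, HC H {c}ᶜ l (m k) → HC H {c'}ᶜ (m k) c := fun k hk =>
          (hit hne (hm k).2.symm).resolve_left fun h => noQ c' hc' hne (hk.trans h)
        by_cases hB : ∃ i, HC H {c}ᶜ l (m i)
        · obtain ⟨i, hi⟩ := hB
          obtain ⟨w, hw, ht⟩ := hT c hc
          obtain ⟨k, hk1, hk2⟩ := pick (p := fun k => HC H {c}ᶜ l (w k))
            (q := fun k => HC H {c}ᶜ (w k) c')
            (fun a b hab h1 h2 => ht a b hab (h1.symm.trans h2))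
            fun a b hab h1 h2 => ht a b hab (h1.trans h2.symm)
          have hwm : HC H {c'}ᶜ (w k) (m i) :=
            ((hit hne.symm (hw k).2.symm).resolve_right hk2).trans (toc i hi).symm
          refine ⟨Function.update m i (w k), fun j => ?_, fun a b hab => ?_⟩
          · by_cases hji : j = i
            · subst hji
              rw [Function.update_self]
              exact ⟨Finset.mem_filter.2 ⟨(hw k).1, hk1⟩,
                (hm j).2.trans (hwm.symm.mono (Set.subset_univ _))⟩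
            · rw [Function.update_of_ne hji]
              exact ⟨Finset.mem_filter.2 ⟨(hm j).1, fun h =>
                hs j i hji ((toc j h).trans (toc i hi).symm)⟩, (hm j).2⟩
          · by_cases ha : a = i
            · subst ha
              rw [Function.update_self, Function.update_of_ne hab.symm]
              exact fun h => hs a b hab (hwm.symm.trans h)
            · rw [Function.update_of_ne ha]
              by_cases hb : b = i
              · subst hb
                rw [Function.update_self]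
                exact fun h => hs a b hab (h.trans hwm)
              · rw [Function.update_of_ne hb]
                exact hs a b hab
        · exact ⟨m, fun i => ⟨Finset.mem_filter.2 ⟨(hm i).1, fun h => hB ⟨i, h⟩⟩, (hm i).2⟩, hs⟩
    have h2 : (L.filter fun v => ¬ HC H {c}ᶜ l v).card < L.card :=
      Finset.card_lt_card ⟨Finset.filter_subset _ _, fun hsub =>
        (Finset.mem_filter.1 (hsub hl)).2 (HC.refl hlc)⟩
    rw [Finset.card_erase_of_mem hc] at this
    omega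

/-- Two neighbours of a vertex of a forest are not joined off that vertex. -/
private theorem nb_sep (hA : H.IsAcyclic) {c u v : V} (hu : H.Adj c u) (hv : H.Adj c v)
    (hne : u ≠ v) : ¬ HC H {c}ᶜ u v := fun h => by
  have hp : (SimpleGraph.Walk.cons hu.symm (SimpleGraph.Walk.cons hv .nil)).IsPath := by
    simp [hu.ne', hv.ne, hne]
  exact h.path_subset hA hp c (by simp) rfl

end BK

theorem tri_count (hT : T ≤ G) (hA : T.IsAcyclic) {e b R ρ : ℕ} {y : Site}
    (hb : b + 1 ≤ R) (h : ¬ DArms (e + 1) T y (b + 1) R) (hρ : R + b ≤ ρ) :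
    {c | c ∈ ball y b ∧ Tri T c ρ}.ncard ≤ e := by
  classical
  haveI : Nonempty Site := ⟨y⟩
  set O : Set Site := (ball y b)ᶜ with hO
  set rep : Site → Site := fun u => Classical.epsilon fun v => HC T O u v with hrep
  have r1 : ∀ u ∈ O, HC T O u (rep u) := fun u hu =>
    Classical.epsilon_spec (p := fun v => HC T O u v) ⟨u, HC.refl hu⟩
  have r2 : ∀ u v, HC T O u v → rep u = rep v := fun u v huv => by
    have : (fun w => HC T O u w) = fun w => HC T O v w :=
      funext fun w => propext ⟨fun h => huv.symm.trans h, fun h => huv.trans h⟩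
    simp only [hrep, this]
  set A : Finset Site := (ballF y (b + 1)).filter fun u => ∃ z, R ≤ dst y z ∧ HC T O u z with hA'
  have hL : (A.image rep).card ≤ e := by
    by_contra hlt
    obtain ⟨f, hf⟩ := Function.Embedding.exists_of_card_le_finset (α := Fin (e + 1))
      (s := A.image rep) (by rw [Fintype.card_fin]; omega)
    have hf' : ∀ i, ∃ u z, dst y u ≤ b + 1 ∧ R ≤ dst y z ∧ HC T O u z ∧ rep u = f i := fun i => by
      obtain ⟨u, hu, e⟩ := Finset.mem_image.1 (Finset.mem_coe.1 (hf ⟨i, rfl⟩))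
      obtain ⟨h1, z, h2, h3⟩ := Finset.mem_filter.1 hu
      exact ⟨u, z, mem_ballF.1 h1, h2, h3, e⟩
    choose u z k1 k2 k3 k4 using hf'
    refine h ⟨fun i => {v | HC T O (u i) v}, fun i j hij => ?_, fun i =>
      ⟨u i, z i, k1 i, k2 i, (k3 i).cluster⟩⟩
    rw [Set.disjoint_left]
    intro v hv hv'
    exact hij (f.injective (by rw [← k4, ← k4, r2 _ _ (HC.trans hv (HC.symm hv'))]))
  have hfin : {c | c ∈ ball y b ∧ Tri T c ρ}.Finite := (ball_finite y b).subset fun c hc => hc.1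
  rw [Set.ncard_eq_toFinset_card _ hfin]
  refine (bk (H := T) _ _ (A.image rep) rfl (fun c hc hc' => ?_) fun c hc => ?_).trans hL
  · obtain ⟨u, hu, rfl⟩ := Finset.mem_image.1 hc'
    obtain ⟨-, z, -, h3⟩ := Finset.mem_filter.1 hu
    exact (r1 u h3.left_mem).right_mem (hfin.mem_toFinset.1 hc).1
  · obtain ⟨hc, w, z, hinj, hw⟩ := hfin.mem_toFinset.1 hc
    have hOc : O ⊆ {c}ᶜ := fun v hv e => hv (e ▸ hc)
    have far : ∀ i, R ≤ dst y (z i) := fun i => by
      have t1 := dst_triangle c y (z i)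
      have t2 := (hw i).2.1
      rw [dst_comm c y] at t1
      rw [mem_ball] at hc
      omega
    have hz : ∀ i, z i ∈ O := fun i hm => by
      have := far i
      rw [mem_ball] at hm
      omega
    have cz : ∀ i, HC T Set.univ c (z i) := fun i =>
      HC.head (hw i).1 trivial ((hw i).2.2.mono (Set.subset_univ _))
    refine ⟨fun i => rep (z i), fun i => ⟨?_, (cz i).trans ((r1 _ (hz i)).mono
      (Set.subset_univ _))⟩, fun i j hij hc' => nb_sep hA (hw i).1 (hw j).1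
        (fun e => hij (hinj e)) ?_⟩
    · obtain ⟨t, u, ht, hu, hadj, -, c2⟩ := (cz i).last_exit (T := ball y b) hc (hz i)
      have c3 : HC T O u (z i) := c2.mono fun v hv => hv.2
      have t3 := Adj.dst_le (hT hadj) y
      rw [mem_ball] at ht
      exact Finset.mem_image.2 ⟨u, Finset.mem_filter.2 ⟨mem_ballF.2 (by omega), z i, far i, c3⟩,
        r2 _ _ c3⟩
    · exact ((((hw i).2.2.trans ((r1 _ (hz i)).mono hOc)).trans hc').trans
        ((r1 _ (hz j)).mono hOc).symm).trans (hw j).2.2.symm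

theorem TriP.tri {c : Site} {ρ : ℕ} {P : Fin 3 → Set Site} (h : TriP T c ρ P) : Tri T c ρ := by
  obtain ⟨y, z, hinj, hy⟩ := h
  exact ⟨y, z, hinj, fun i => ⟨(hy i).1, (hy i).2.1,
    (hy i).2.2.2.mono fun v hv e => (hy i).2.2.1 (e ▸ hv)⟩⟩

end Pool.Agent.Work.MP_ccd212_pr
end

-- merged part: Pool.Agent.Work.MP_ccd212_pr.Colour
section
/-! Colours of the sites of the middle block of a full triple. -/

namespace Pool.Agent.Work.MP_ccd212_pr

variable {d N r3 r2 r1 r0 s : ℕ} {T : SimpleGraph Site} {c g : Site} {a b : Fin d → Site}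

theorem colour_darms {ι : Type} [Fintype ι] {n r R : ℕ} (hn : Fintype.card ι = n)
    (Q : ι → Set Site) (hQ : ∀ i j, i ≠ j → Disjoint (Q i) (Q j))
    (h : ∀ i, ∃ u w, dst c u ≤ r ∧ R ≤ dst c w ∧ HC T (Q i) u w) : DArms n T c r R := by
  have e := (Fintype.equivFinOfCardEq hn).symm
  exact ⟨fun i => Q (e i), fun i j hij => hQ _ _ (e.injective.ne hij), fun i => h (e i)⟩

theorem colour_few (h : Comps T c r3 r0 a b) {r R : ℕ} (h1 : r3 ≤ r) (h2 : R ≤ r0)
    (J : Finset (Fin d)) {P : Fin (J.card + 1) → Set Site}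
    (hP : ∀ i j, i ≠ j → Disjoint (P i) (P j))
    (hc : ∀ j, ∃ u w, dst c u ≤ r ∧ R ≤ dst c w ∧ HC T (P j ∩ ann c r3 r0) u w ∧
      ∀ i ∉ J, ¬ HC T (ann c r3 r0) (a i) u) : DArms (d + 1) T c r R := by
  refine colour_darms (ι := Fin (J.card + 1) ⊕ {i // i ∉ J}) ?_
    (Sum.elim (fun j => P j ∩ {v | ∀ i ∉ J, ¬ HC T (ann c r3 r0) (a i) v})
      fun i => {v | HC T (ann c r3 r0) (a i.1) v}) ?_ ?_
  · have h3 := Finset.card_le_univ J
    rw [Fintype.card_fin] at h3
    rw [Fintype.card_sum, Fintype.card_fin, Fintype.card_subtype_compl, Fintype.card_fin,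
      Fintype.card_coe]
    omega
  · rintro (i | i) (j | j) hij
    · exact (hP i j fun e => hij (by rw [e])).mono Set.inter_subset_left Set.inter_subset_left
    · exact Set.disjoint_left.2 fun v hv hv' => hv.2 j.1 j.2 hv'
    · exact Set.disjoint_left.2 fun v hv hv' => hv'.2 i.1 i.2 hv
    · exact Set.disjoint_left.2 fun v hv hv' =>
        h.2 i.1 j.1 (fun e => hij (by rw [Subtype.ext e])) (HC.trans hv (HC.symm hv'))
  · rintro (j | i)
    · obtain ⟨u, w, k1, k2, k3, k4⟩ := hc j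
      refine ⟨u, w, k1, k2, (k3.inter_of (T := {v | ∀ i ∉ J, ¬ HC T (ann c r3 r0) (a i) v})
        fun v hv i hi hv' => k4 i hi (hv'.trans (hv.mono Set.inter_subset_right).symm)).mono ?_⟩
      exact fun v hv => ⟨hv.1.1, hv.2⟩
    · obtain ⟨k1, k2, k3⟩ := h.1 i.1
      exact ⟨a i.1, b i.1, by omega, by omega, k3.cluster⟩

theorem colour_few' (h : Comps T c r3 r0 a b) {r R : ℕ} (h1 : r3 ≤ r) (h2 : R ≤ r0)
    (J : Finset (Fin d)) {P : Fin (J.card + 1) → Set Site}
    (hP : ∀ i j, i ≠ j → Disjoint (P i) (P j))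
    (hc : ∀ j, ∃ u w, dst c u ≤ r ∧ R ≤ dst c w ∧ HC T (P j ∩ ann c r3 r0) u w ∧
      ∃ i ∈ J, HC T (ann c r3 r0) (a i) u) : DArms (d + 1) T c r R := by
  refine colour_few h h1 h2 J hP fun j => ?_
  obtain ⟨u, w, k1, k2, k3, i, hi, k4⟩ := hc j
  exact ⟨u, w, k1, k2, k3, fun i' hi' k5 =>
    h.2 i i' (fun e => hi' (e ▸ hi)) (k4.trans k5.symm)⟩

theorem colour_one (h : Comps T c r3 r0 a b) {r R : ℕ} (h1 : r3 ≤ r) (h2 : R ≤ r0) {u w : Site}
    (hu : dst c u ≤ r) (hw : R ≤ dst c w) (hc : HC T (ann c r3 r0) u w)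
    (hn : ∀ i, ¬ HC T (ann c r3 r0) (a i) u) : DArms (d + 1) T c r R := by
  refine colour_few h h1 h2 ∅ (P := fun _ => Set.univ) (fun i j hij => absurd ?_ hij)
    fun _ => ⟨u, w, hu, hw, by rwa [Set.univ_inter], fun i _ => hn i⟩
  have hi := i.isLt
  have hj := j.isLt
  have h0 : (∅ : Finset (Fin d)).card = 0 := Finset.card_empty
  ext
  omega

theorem colour_two (h : Comps T c r3 r0 a b) {r R : ℕ} (h1 : r3 ≤ r) (h2 : R ≤ r0) (k : Fin d)
    {P Q : Set Site} {v : Site} (hPQ : P ∩ Q = {v})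
    (hP : ∃ u w, dst c u ≤ r ∧ R ≤ dst c w ∧ HC T ((P \ {v}) ∩ ann c r3 r0) u w ∧
      HC T (ann c r3 r0) (a k) u)
    (hQ : ∃ u w, dst c u ≤ r ∧ R ≤ dst c w ∧ HC T ((Q \ {v}) ∩ ann c r3 r0) u w ∧
      HC T (ann c r3 r0) (a k) u) : DArms (d + 1) T c r R := by
  have hd : Disjoint (P \ {v}) (Q \ {v}) :=
    Set.disjoint_left.2 fun x hx hx' => hx.2 (hPQ ▸ (⟨hx.1, hx'.1⟩ : x ∈ P ∩ Q))
  refine colour_few' h h1 h2 {k} (P := fun j => if j.val = 0 then P \ {v} else Q \ {v})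
    (fun i j hij => ?_) fun j => ?_
  · have hi := i.isLt
    have hj := j.isLt
    have hij' : i.val ≠ j.val := fun e => hij (Fin.ext e)
    have h0 : ({k} : Finset (Fin d)).card = 1 := Finset.card_singleton k
    split_ifs
    · omega
    · exact hd
    · exact hd.symm
    · omega
  · split_ifs
    · obtain ⟨u, w, k1, k2, k3, k4⟩ := hP
      exact ⟨u, w, k1, k2, k3, k, Finset.mem_singleton_self k, k4⟩
    · obtain ⟨u, w, k1, k2, k3, k4⟩ := hQ
      exact ⟨u, w, k1, k2, k3, k, Finset.mem_singleton_self k, k4⟩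

theorem colour_lt (h : Triple T N c r3 r2 r1 r0 a b g s) : r2 < r1 := by
  have h1 := h.hin
  have h2 := h.hout
  omega

theorem colour_ann_sub : ann c r3 r0 ⊆ ball c r0 := fun _ hv => hv.2

theorem Triple.few_out (hT : T ≤ G) (h : Triple T N c r3 r2 r1 r0 a b g s) (J : Finset (Fin d))
    {P : Fin (J.card + 1) → Set Site} (hP : ∀ i j, i ≠ j → Disjoint (P i) (P j))
    (hc : ∀ j, ∃ u w, dst c u ≤ r1 + 1 ∧ r0 - 1 ≤ dst c w ∧ HC T (P j ∩ ann c r3 r0) u w ∧
      ∃ i ∈ J, HC T (ann c r3 r0) (a i) u) : False := by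
  have h1 := colour_lt h
  have h2 := h.h32
  exact h.no_out (colour_few' h.comps (by omega) (by omega) J hP hc)

theorem Triple.few_in (hT : T ≤ G) (h : Triple T N c r3 r2 r1 r0 a b g s) (J : Finset (Fin d))
    {P : Fin (J.card + 1) → Set Site} (hP : ∀ i j, i ≠ j → Disjoint (P i) (P j))
    (hc : ∀ j, ∃ u w, dst c u ≤ r3 + 1 ∧ r2 - 1 ≤ dst c w ∧ HC T (P j ∩ ann c r3 r0) u w ∧
      ∃ i ∈ J, HC T (ann c r3 r0) (a i) u) : False := by
  have h1 := colour_lt h
  have h2 := h.h10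
  exact h.no_in (colour_few' h.comps (by omega) (by omega) J hP hc)

theorem Triple.colour (hT : Span T (ball 0 N)) (h : Triple T N c r3 r2 r1 r0 a b g s) {v : Site}
    (hv : v ∈ ann c (r2 - 1) (r1 + 1)) : ∃ i, HC T (ann c r3 r0) (a i) v := by
  by_contra hn
  have hn' : ∀ i, ¬ HC T (ann c r3 r0) (a i) v := fun i hi => hn ⟨i, hi⟩
  have h1 := colour_lt h
  have h2 := h.h32
  have h3 := h.h10
  have h4 := h.h3
  rw [mem_ann] at hv
  have hc := hT.conn v (h.sub (show dst c v ≤ r0 + 2 by omega)) c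
    (h.sub (show dst c c ≤ r0 + 2 by rw [dst_self]; omega))
  obtain ⟨u, t, k1, k2, k3, k4, -⟩ := hc.first_hit (T := (ann c r3 r0)ᶜ)
    (fun hh => hh (mem_ann.2 (by omega))) (fun hh => by
      have := (mem_ann.1 hh).1
      rw [dst_self] at this
      omega)
  have k5 : HC T (ann c r3 r0) v u := k4.mono fun x hx => not_not.1 hx.2
  have k6 := Adj.dst_le (hT.le k3) c
  have k7 := Adj.dst_le (hT.le k3.symm) c
  have k8 : ¬ (r3 ≤ dst c t ∧ dst c t ≤ r0) := k2
  by_cases k9 : r3 ≤ dst c t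
  · exact h.no_out (colour_one h.comps (by omega) (by omega) hv.2 (by omega) k5 hn')
  · exact h.no_in (colour_one h.comps (by omega) (by omega) (show dst c u ≤ r3 + 1 by omega) hv.1
      k5.symm fun i hi => hn' i (hi.trans k5.symm))

theorem Triple.zone_sub (h : Triple T N c r3 r2 r1 r0 a b g s) :
    ann g s (9 * s) ⊆ ann c (r2 + 1) (r1 - 1) := by
  intro v hv
  have h1 := h.hin
  have h2 := h.hout
  have h3 := dst_triangle c g v
  have h4 := dst_triangle g c v
  have h5 := dst_comm c g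
  rw [mem_ann] at hv ⊢
  omega

theorem colour_half_out (hT : Span T (ball 0 N)) (h : Triple T N c r3 r2 r1 r0 a b g s)
    {k : Fin d} (hk : ∀ j, j ≠ k → ¬ HC T (ball c r0) (a k) (a j)) {P : Set Site} {v z : Site}
    (hz : ¬ HC T (ball c r0) (a k) z) (hc : HC T P v z) (hv : dst c v ≤ r1)
    (hv' : HC T (ball c r0) (a k) v) :
    ∃ u w, dst c u ≤ r1 + 1 ∧ r0 - 1 ≤ dst c w ∧ HC T ((P \ {v}) ∩ ann c r3 r0) u w ∧
      HC T (ann c r3 r0) (a k) u := by
  have h1 := colour_lt h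
  have h2 := h.h32
  have h3 := h.h10
  obtain ⟨x, t, k1, k2, k3, k4, -⟩ := hc.first_hit (T := {x | HC T (ball c r0) (a k) x}ᶜ)
    (fun hh => hh hv') hz
  have k5 : HC T (ball c r0) (a k) x := not_not.1 k1
  have k6 : ¬ dst c t ≤ r0 := fun hh => k2 (k5.tail k3 hh)
  have k7 := Adj.dst_le (hT.le k3) c
  obtain ⟨t', u, l1, l2, l3, -, l5⟩ := k4.last_exit (T := ball c r1) hv
    (fun hh => by have := mem_ball.1 hh; omega)
  have l6 := Adj.dst_le (hT.le l3) c
  rw [mem_ball] at l1 l2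
  obtain ⟨i, hi⟩ := h.colour hT (v := u) (mem_ann.2 (by omega))
  have l7 : HC T (ball c r0) (a k) u := not_not.1 l5.left_mem.1.2
  have l8 : i = k := by
    by_contra hik
    exact hk i hik (l7.trans (hi.mono colour_ann_sub).symm)
  refine ⟨u, x, by omega, by omega, l5.mono fun y hy => ?_, l8 ▸ hi⟩
  have m1 : HC T (ball c r0) (a k) y := not_not.1 hy.1.2
  have m2 : ¬ dst c y ≤ r1 := hy.2
  refine ⟨⟨hy.1.1, fun e => m2 (by rw [Set.mem_singleton_iff.1 e]; exact hv)⟩, ?_, m1.right_mem⟩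
  omega

theorem colour_half_in (hT : T ≤ G) (h : Triple T N c r3 r2 r1 r0 a b g s) {i : Fin d}
    {P : Set Site} {v z : Site} (hP : P ⊆ ball c r0) (hz : dst c z = r3) (hc : HC T P v z)
    (hv : r2 ≤ dst c v) (hv' : HC T (ann c r3 r0) (a i) v) :
    ∃ u w, dst c u ≤ r3 + 1 ∧ r2 - 1 ≤ dst c w ∧ HC T ((P \ {v}) ∩ ann c r3 r0) u w ∧
      HC T (ann c r3 r0) (a i) u := by
  have h2 := h.h32
  obtain ⟨x, t, k1, k2, k3, k4, -⟩ := hc.first_hit (T := ball c r3)
    (fun hh => by have := mem_ball.1 hh; omega) (mem_ball.2 hz.le)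
  have k5 := Adj.dst_le (hT k3.symm) c
  rw [mem_ball] at k1 k2
  have k6 : P \ ball c r3 ⊆ ann c r3 r0 := fun y hy => by
    have m : ¬ dst c y ≤ r3 := hy.2
    exact ⟨by omega, hP hy.1⟩
  obtain ⟨w, t', -, l2, l3, l4, -⟩ := k4.symm.first_hit (T := {y | r2 ≤ dst c y})
    (show ¬ r2 ≤ dst c x by omega) hv
  have l5 := Adj.dst_le (hT l3) c
  have l6 : r2 ≤ dst c t' := l2
  refine ⟨x, w, by omega, by omega, l4.mono fun y hy => ⟨⟨hy.1.1, fun e => hy.2 ?_⟩, k6 hy.1⟩,
    hv'.trans (k4.mono k6)⟩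
  rw [Set.mem_singleton_iff.1 e]
  exact hv

theorem colour_three (F : Face) : ∃ x y z, ∀ v, InF F v → v = x ∨ v = y ∨ v = z := by
  obtain ⟨⟨i, j⟩, t⟩ := F
  cases t
  · refine ⟨(i + 1, j), (i, j + 1), (i, j), fun v => ?_⟩
    simp [InF, Prod.ext_iff]
  · refine ⟨(i + 1, j), (i, j + 1), (i + 1, j + 1), fun v => ?_⟩
    simp [InF, Prod.ext_iff]

/-- A tree path between points outside the class of a singleton colour avoids that colour. -/
theorem Triple.avoid (hT : Span T (ball 0 N)) (h : Triple T N c r3 r2 r1 r0 a b g s) {k : Fin d}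
    (hk : ∀ j, j ≠ k → ¬ HC T (ball c r0) (a k) (a j)) {u u' : Site}
    (hu : ¬ HC T (ball c r0) (a k) u) (hu' : ¬ HC T (ball c r0) (a k) u') {p : T.Walk u u'}
    (hp : p.IsPath) {v : Site} (hv : v ∈ p.support) (hv' : v ∈ ann c r2 r1) :
    ¬ HC T (ann c r3 r0) (a k) v := by
  intro hc
  have h1 := colour_lt h
  have h2 := h.h32
  obtain ⟨P, Q, k1, -, k3, k4, -, -⟩ := split_path hp hv
  exact h.no_out (colour_two h.comps (by omega) (by omega) k k1
    (colour_half_out hT h hk hu k3 hv'.2 (hc.mono colour_ann_sub))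
    (colour_half_out hT h hk hu' k4 hv'.2 (hc.mono colour_ann_sub)))

/-- The tree path that joins the two colours of the pair stays inside. -/
theorem Triple.beta (hT : Span T (ball 0 N)) (h : Triple T N c r3 r2 r1 r0 a b g s) {i1 i2 : Fin d}
    (hne : i1 ≠ i2) (h12 : HC T (ball c r0) (a i1) (a i2))
    (hj : ∀ j, j ≠ i1 → j ≠ i2 → ¬ HC T (ball c r0) (a j) (a i1)) {y1 y2 : Site}
    (hy1 : dst c y1 = r3) (hy2 : dst c y2 = r3) (c1 : HC T (ann c r3 r0) (a i1) y1)
    (c2 : HC T (ann c r3 r0) (a i2) y2) :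
    HC T (ball c (r2 - 1) ∩ {v | HC T (ball c r0) (a i1) v}) y1 y2 := by
  have h1 := colour_lt h
  have h2 := h.h32
  have h3 := h.h10
  have d1 : HC T (ball c r0) (a i1) y1 := c1.mono colour_ann_sub
  have d2 : HC T (ball c r0) (a i1) y2 := h12.trans (c2.mono colour_ann_sub)
  obtain ⟨p, hp, hs⟩ := ((d1.symm.trans d2).inter_of (T := {v | HC T (ball c r0) (a i1) v})
    fun v hv => d1.trans hv).exists_path
  refine ⟨p, fun x hx => ⟨?_, (hs x hx).2⟩⟩
  by_contra hn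
  rw [mem_ball] at hn
  obtain ⟨v, -, e1, -, -, e2, -, -⟩ := (HC.of_mem_support p hx).sub_ann hT.le (c := c) (r := r2)
    (R := r2) le_rfl (by omega) (by omega)
  have hv : v ∈ p.support := e2.right_mem
  obtain ⟨i, hi⟩ := h.colour hT (v := v) (mem_ann.2 (by omega))
  obtain ⟨P, Q, k1, k2, k3, k4, -, -⟩ := split_path hp hv
  have k5 : P ∪ Q ⊆ ball c r0 := by
    rw [k2]
    exact fun y hy => (hs y hy).1
  exact h.no_in (colour_two h.comps (by omega) (by omega) i k1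
    (colour_half_in hT.le h (Set.subset_union_left.trans k5) hy1 k3 e1.ge hi)
    (colour_half_in hT.le h (Set.subset_union_right.trans k5) hy2 k4 e1.ge hi))

/-- The two cases for a three-coloured face. -/
theorem Triple.cases (hd : 4 ≤ d) {F : Face} {ρ : ℕ} (hρ : r0 ≤ ρ) (hF : Face3 T F ρ) (hc : F.1 = c)
    {j0 : Fin d} (hj : ∀ i j, i ≠ j → i ≠ j0 → j ≠ j0 → ¬ HC T (ball c r0) (a i) (a j)) :
    (∃ k, (∀ j, j ≠ k → ¬ HC T (ball c r0) (a k) (a j)) ∧
      ∀ u, InF F u → ¬ HC T (ball c r0) (a k) u) ∨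
    ∃ i1 i2, i1 ≠ i2 ∧ HC T (ball c r0) (a i1) (a i2) ∧ ∀ j, j ≠ i1 → j ≠ i2 →
      ¬ HC T (ball c r0) (a j) (a i1) ∧ ∃ u, InF F u ∧ HC T (ball c r0) (a j) u := by
  by_cases hA : ∃ i, i ≠ j0 ∧ HC T (ball c r0) (a j0) (a i)
  · obtain ⟨i, hi, hc'⟩ := hA
    have h1 : ∀ j, j ≠ j0 → j ≠ i → ¬ HC T (ball c r0) (a j) (a j0) :=
      fun j k1 k2 k3 => hj j i k2 k1 hi (k3.trans hc')
    by_cases hB : ∀ j, j ≠ j0 → j ≠ i → ∃ u, InF F u ∧ HC T (ball c r0) (a j) u
    · exact Or.inr ⟨j0, i, hi.symm, hc', fun j k1 k2 => ⟨h1 j k1 k2, hB j k1 k2⟩⟩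
    · push Not at hB
      obtain ⟨k, k1, k2, k3⟩ := hB
      refine Or.inl ⟨k, fun j hjk => ?_, k3⟩
      by_cases e : j = j0
      · rw [e]
        exact h1 k k1 k2
      · exact hj k j (Ne.symm hjk) k1 e
  · have h1 : ∀ i j, i ≠ j → ¬ HC T (ball c r0) (a i) (a j) := by
      intro i j hij hc'
      by_cases e : i = j0
      · exact hA ⟨j, e ▸ hij.symm, e ▸ hc'⟩
      · by_cases e' : j = j0
        · exact hA ⟨i, e, e' ▸ hc'.symm⟩
        · exact hj i j hij e e' hc'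
    by_contra hn
    have h2 : ∀ k, ∃ u, InF F u ∧ HC T (ball c r0) (a k) u := fun k => by
      by_contra h3
      exact hn (Or.inl ⟨k, fun j hjk => h1 k j (Ne.symm hjk), fun u hu hc' => h3 ⟨u, hu, hc'⟩⟩)
    choose u hu hu' using h2
    obtain ⟨x, y, z, h3⟩ := colour_three F
    have h4 := Finset.card_le_card_of_injOn (s := Finset.univ) (t := {x, y, z}) u
      (fun k _ => by simpa using h3 _ (hu k)) fun i _ j _ e => by
        by_contra hij
        exact h1 i j hij ((hu' i).trans (e ▸ (hu' j).symm))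
    have h5 : ({x, y, z} : Finset Site).card ≤ 3 := Finset.card_le_three
    rw [Finset.card_univ, Fintype.card_fin] at h4
    omega

end Pool.Agent.Work.MP_ccd212_pr
end

-- merged part: Pool.Agent.Work.MP_ccd212_pr.Lower1
section
/-! Local facts about lowering isolated window sites. -/

namespace Pool.Agent.Work.MP_ccd212_pr

variable {M N H k0 s d r3 r2 r1 r0 ρ : ℕ} {ω : Site → Fin (2 * M - 1 + 1)} {c g : Site}
  {a b : Fin d → Site} {S1 S : Finset Site} {i1 i2 : Fin d}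

/-- The six neighbours of the origin in cyclic order. -/
private def l1nb : Fin 6 → Site := ![(1, 0), (0, 1), (-1, 1), (-1, 0), (0, -1), (1, -1)]

private theorem l1_nb {v u : Site} (h : Adj v u) : ∃ k, u = l1nb k + v := by
  obtain ⟨u1, u2⟩ := u
  rcases h with h | h | h | h | h | h
  · exact ⟨0, Prod.ext (by simp [l1nb] at h ⊢; omega) (by simp [l1nb] at h ⊢; omega)⟩
  · exact ⟨3, Prod.ext (by simp [l1nb] at h ⊢; omega) (by simp [l1nb] at h ⊢; omega)⟩
  · exact ⟨1, Prod.ext (by simp [l1nb] at h ⊢; omega) (by simp [l1nb] at h ⊢; omega)⟩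
  · exact ⟨4, Prod.ext (by simp [l1nb] at h ⊢; omega) (by simp [l1nb] at h ⊢; omega)⟩
  · exact ⟨5, Prod.ext (by simp [l1nb] at h ⊢; omega) (by simp [l1nb] at h ⊢; omega)⟩
  · exact ⟨2, Prod.ext (by simp [l1nb] at h ⊢; omega) (by simp [l1nb] at h ⊢; omega)⟩

/-- Equal or consecutive positions on the hexagon. -/
private def l1R (i j : Fin 6) : Prop := i = j ∨ i = j + 1 ∨ j = i + 1

private instance : DecidableRel l1R := fun _ _ => by unfold l1R; infer_instance

private theorem l1_R : ∀ i j, l1R i j → l1nb i = l1nb j ∨ Adj (l1nb i) (l1nb j) := by decide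

private theorem l1_four : ∀ i j k l : Fin 6,
    l1R i j ∨ l1R i k ∨ l1R i l ∨ l1R j k ∨ l1R j l ∨ l1R k l := by decide

private theorem l1_key {m : ℕ} {V : Site → Fin m} {p q x y : Site} : key V p q < key V x y ↔
    max (V p : ℕ) (V q) < max (V x : ℕ) (V y) ∨
      (max (V p : ℕ) (V q) = max (V x : ℕ) (V y) ∧ min (V p : ℕ) (V q) < min (V x : ℕ) (V y)) := by
  have e1 : ∀ a b : Fin m, ((max a b : Fin m) : ℕ) = max (a : ℕ) b := fun a b =>
    Fin.val_strictMono.monotone.map_max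
  have e2 : ∀ a b : Fin m, ((min a b : Fin m) : ℕ) = min (a : ℕ) b := fun a b =>
    Fin.val_strictMono.monotone.map_min
  unfold key
  rw [Prod.Lex.toLex_lt_toLex]
  simp only [Fin.lt_def, Fin.ext_iff, e1, e2]

private theorem l1_le {m : ℕ} (V : Site → Fin m) (v : Site) : (mv false H S V v : ℕ) ≤ V v := by
  unfold mv
  split_ifs
  · exact Nat.sub_le _ _
  · exact le_rfl

/-- Among four neighbours of a site two are equal or adjacent. -/
theorem hexagon {v : Site} (p : Fin 4 → Site) (h : ∀ i, Adj v (p i)) :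
    ∃ i j, i ≠ j ∧ (p i = p j ∨ Adj (p i) (p j)) := by
  choose k hk using fun i => l1_nb (h i)
  have key : ∀ i j, l1R (k i) (k j) → p i = p j ∨ Adj (p i) (p j) := fun i j r => by
    rw [hk i, hk j]
    rcases l1_R _ _ r with e | e
    · exact Or.inl (by rw [e])
    · exact Or.inr (((sh v).adj _ _).2 e)
  rcases l1_four (k 0) (k 1) (k 2) (k 3) with r | r | r | r | r | r <;>
    exact ⟨_, _, by decide, key _ _ r⟩

theorem Zone.low_or_high (h : Zone ω N H k0 g s) {v u : Site} (hv : v ∈ XS ω M H 1 g s)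
    (hu : u ≠ v) (hd : dst v u ≤ 2) : (ω u : ℕ) < M - 5 * H ∨ M + 5 * H ≤ (ω u : ℕ) := by
  have := h.good.alone v (XS_mono (by omega) hv) u hu hd
  simp only [win, Set.mem_ofPred_eq] at this
  omega

private theorem l1_new (h : Zone ω N H k0 g s) (hS : (S : Set Site) ⊆ XS ω M H 1 g s) {x y : Site}
    (h1 : (tr N (mv false H S ω)).Adj x y) (h2 : ¬ (tr N ω).Adj x y) (hx : x ∈ S) :
    (ω y : ℕ) < M - 5 * H := by
  obtain ⟨hxy, hxN, hyN, h1⟩ := h1
  have hxy' : Adj x y := hxy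
  have hw : M - 1 * H ≤ (ω x : ℕ) ∧ (ω x : ℕ) < M + 1 * H := (hS hx).2.1
  refine (h.low_or_high (hS hx) hxy'.ne.symm (hxy'.dst_eq.le.trans one_le_two)).resolve_right
    fun hy => h2 ⟨hxy, hxN, hyN, fun ⟨w, hw1, hw2⟩ => h1 ⟨w, hw1, fun e he => ?_⟩⟩
  have hyS : y ∉ S := fun k => by
    have : (ω y : ℕ) < M + 1 * H := (hS k).2.1.2
    omega
  have e1 := h.mv_down hS hx
  have e2 : (mv false H S ω y : ℕ) = ω y := by rw [mv_of_not_mem hyS]
  have e3 := l1_le (H := H) (S := S) ω e.fst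
  have e4 := l1_le (H := H) (S := S) ω e.snd
  have hM := h.hM
  have aux : ∀ p q : Site, p ∈ ball 0 N → Adj p q → (ω p : ℕ) = ω y → (ω q : ℕ) < ω x →
      (mv false H S ω p : ℕ) = ω y ∧ (ω q : ℕ) < M - 5 * H := fun p q hp hpq k1 k2 => by
    obtain rfl : p = y := h.inj hp hyN (Fin.ext k1)
    refine ⟨e2, (h.low_or_high (hS hx) (fun k => by rw [k] at k2; omega) ?_).resolve_right
      (by omega)⟩
    have := hpq.dst_le x
    have := hxy'.dst_eq
    omega
  have a1 := aux e.fst e.snd (hw1 _ (w.dart_fst_mem_support_of_mem_darts he)) e.adj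
  have a2 := aux e.snd e.fst (hw1 _ (w.dart_snd_mem_support_of_mem_darts he)) e.adj.symm
  have k := l1_key.1 (hw2 e he)
  rw [l1_key]
  omega

/-- New edges join a moved site to a low neighbour. -/
theorem Zone.new_edge (h : Zone ω N H k0 g s) (hS : (S : Set Site) ⊆ XS ω M H 1 g s) {x y : Site}
    (h1 : (tr N (mv false H S ω)).Adj x y) (h2 : ¬ (tr N ω).Adj x y) :
    (x ∈ S ∧ (ω y : ℕ) < M - 5 * H) ∨ (y ∈ S ∧ (ω x : ℕ) < M - 5 * H) := by
  by_cases hx : x ∈ S
  · exact Or.inl ⟨hx, l1_new h hS h1 h2 hx⟩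
  by_cases hy : y ∈ S
  · exact Or.inr ⟨hy, l1_new h hS h1.symm (fun k => h2 k.symm) hy⟩
  exact (h2 (h.adj_down hS h1 hx hy)).elim

/-- A window site with a low neighbour has a tree edge to a low neighbour. -/
theorem Zone.low_edge (h : Zone ω N H k0 g s) {v y : Site} (hv : v ∈ XS ω M H 1 g s) (hy : Adj v y)
    (hl : (ω y : ℕ) < M - 5 * H) : ∃ y0, (tr N ω).Adj v y0 ∧ (ω y0 : ℕ) < M - 5 * H := by
  obtain ⟨y0, k1, k2⟩ := Set.exists_min_image {u | Adj v u} ω
    ((ball_finite v 1).subset fun u hu => (Adj.dst_eq hu).le) ⟨y, hy⟩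
  have k1' : Adj v y0 := k1
  have k3 : (ω y0 : ℕ) ≤ ω y := k2 y hy
  have hw : M - 1 * H ≤ (ω v : ℕ) := hv.2.1.1
  have hd : dst g v ≤ 6 * s := hv.1.2
  have hd' := k1'.dst_le g
  refine ⟨y0, mst_lowest (h.sub (mem_ball.2 (by omega))) (h.sub (mem_ball.2 (by omega))) k1'
    (Fin.le_def.2 (by omega)) fun u _ hu => k2 u hu, by omega⟩

private theorem l1_join {m k : ℕ} {V : Site → Fin m} (hs : 1 ≤ s)
    (hsub : ball g (9 * s + 1) ⊆ ball 0 N) (h1 : ¬ Arm (lev V k) g s (2 * s))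
    (h2 : ¬ Arm (lev V k) g (8 * s) (9 * s)) {u v : Site} (hu : u ∈ ann g (2 * s) (8 * s - 1))
    (hc : Conn (lev V k) u v) : HC (tr N V) (lev V k ∩ ann g s (9 * s - 1)) u v := by
  have k1 : Conn (ball 0 N ∩ lev V k) u v := (confined hs h1 h2 hu hc).mono fun x hx =>
    ⟨hsub (mem_ball.2 (by have := hx.2.2; omega)), hx.1⟩
  refine ((tr_minimax k1).inter_of (T := ann g s (9 * s - 1)) fun x hx => ?_).mono
    fun x hx => ⟨hx.1.2, hx.2⟩
  exact (confined hs h1 h2 hu ((hx.conn mst_le).mono Set.inter_subset_right)).right_mem.2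

/-- Low clusters of the middle of the zone are joined by the tree inside the zone. -/
theorem Zone.low_join (h : Zone ω N H k0 g s) (hS : (S : Set Site) ⊆ XS ω M H 1 g s) {u v : Site}
    (hu : u ∈ ann g (2 * s) (8 * s - 1)) (hc : Conn (lev (mv false H S ω) (M - H)) u v) :
    HC (tr N (mv false H S ω)) (lev (mv false H S ω) (M - H) ∩ ann g s (9 * s - 1)) u v := by
  have hs := h.hs
  have aux : ∀ r R, R < 5 * s ∨ 6 * s < r → Arm (lev (mv false H S ω) (M - H)) g r R →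
      Arm (lev ω (M - H)) g r R := fun r R hr => sup_Arm g r R _ _ fun x hx => by
    rw [(h.lev_down hS).1]
    refine ⟨fun k => k.resolve_right fun k' => ?_, Or.inl⟩
    have k1 := (hS k').1.1
    have k2 := (hS k').1.2
    have k3 := hx.1
    have k4 := hx.2
    omega
  exact l1_join (by omega) h.sub (fun k => h.good.lo_in (aux _ _ (by omega) k))
    (fun k => h.good.lo_out (aux _ _ (by omega) k)) hu hc

/-- The same before the move. -/
theorem Zone.low_join0 (h : Zone ω N H k0 g s) {u v : Site}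
    (hu : u ∈ ann g (2 * s) (8 * s - 1)) (hc : Conn (lev ω (M - H)) u v) :
    HC (tr N ω) (lev ω (M - H) ∩ ann g s (9 * s - 1)) u v := by
  exact l1_join (by have := h.hs; omega) h.sub h.good.lo_in h.good.lo_out hu hc

/-- `S` is the set of sites of `S1` whose low neighbours all have one of the two colours. -/
def IsLow {M : ℕ} (ω : Site → Fin (2 * M - 1 + 1)) (N H : ℕ) (c : Site) (r3 r0 : ℕ) (a1 a2 : Site)
    (S1 S : Finset Site) : Prop :=
  ∀ v, v ∈ S ↔ v ∈ S1 ∧ ∀ u, Adj v u → (ω u : ℕ) < M - 5 * H →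
    HC (tr N ω) (ann c r3 r0) a1 u ∨ HC (tr N ω) (ann c r3 r0) a2 u

/-- The sites with one of the two colours. -/
def Cst (T : SimpleGraph Site) (c : Site) (r3 r0 : ℕ) (a1 a2 : Site) : Set Site :=
  {v | HC T (ann c r3 r0) a1 v ∨ HC T (ann c r3 r0) a2 v}

theorem IsLow.sub (h1 : IsS1 ω M H g s S1) (hS : IsLow ω N H c r3 r0 (a i1) (a i2) S1 S) :
    (S : Set Site) ⊆ XS ω M H 1 g s := fun v hv => h1.sub ((hS v).1 hv).1

/-- New edges have both ends in the two colours and in the middle block. -/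
theorem new_edge_col (h : Zone ω N H k0 g s) (ht : Triple (tr N ω) N c r3 r2 r1 r0 a b g s)
    (h1 : IsS1 ω M H g s S1) (hS : IsLow ω N H c r3 r0 (a i1) (a i2) S1 S) {x y : Site}
    (hxy : (tr N (mv false H S ω)).Adj x y) (hn : ¬ (tr N ω).Adj x y) :
    x ∈ Cst (tr N ω) c r3 r0 (a i1) (a i2) ∧ y ∈ Cst (tr N ω) c r3 r0 (a i1) (a i2) ∧
      x ∈ ann c (r2 + 1) (r1 - 1) ∧ y ∈ ann c (r2 + 1) (r1 - 1) := by
  have hsub := hS.sub h1
  have aux : ∀ x y : Site, Adj x y → x ∈ S → (ω y : ℕ) < M - 5 * H →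
      x ∈ Cst (tr N ω) c r3 r0 (a i1) (a i2) ∧ y ∈ Cst (tr N ω) c r3 r0 (a i1) (a i2) ∧
      x ∈ ann c (r2 + 1) (r1 - 1) ∧ y ∈ ann c (r2 + 1) (r1 - 1) := fun x y hxy hx hy => by
    have k1 : 5 * s ≤ dst g x := (hsub hx).1.1
    have k2 : dst g x ≤ 6 * s := (hsub hx).1.2
    have k3 := hxy.dst_le g
    have k4 := hxy.symm.dst_le g
    have hs := h.hs
    have hx' := ht.zone_sub (mem_ann.2 ⟨by omega, by omega⟩ : x ∈ ann g s (9 * s))
    have hy' := ht.zone_sub (mem_ann.2 ⟨by omega, by omega⟩ : y ∈ ann g s (9 * s))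
    refine ⟨?_, ((hS x).1 hx).2 y hxy hy, hx', hy'⟩
    obtain ⟨y0, e1, e2⟩ := h.low_edge (hsub hx) hxy hy
    have hx2 : x ∈ ann c r3 r0 := by
      have := hx'.1
      have := hx'.2
      have := ht.h32
      have := ht.h10
      exact ⟨by omega, by omega⟩
    exact (((hS x).1 hx).2 y0 e1.1 e2).imp (fun k => k.tail e1.symm hx2)
      (fun k => k.tail e1.symm hx2)
  rcases h.new_edge hsub hxy hn with k | k
  · exact aux x y hxy.1 k.1 k.2
  · obtain ⟨k1, k2, k3, k4⟩ := aux y x hxy.symm.1 k.1 k.2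
    exact ⟨k2, k1, k4, k3⟩

theorem lower_face (h : Zone ω N H k0 g s) (ht : Triple (tr N ω) N c r3 r2 r1 r0 a b g s)
    (h1 : IsS1 ω M H g s S1) (hS : IsLow ω N H c r3 r0 (a i1) (a i2) S1 S)
    (h12 : HC (tr N ω) (ball c r0) (a i1) (a i2)) {F : Face} (hc : F.1 = c) (hρ : r0 ≤ ρ)
    (hF : Face3 (tr N ω) F ρ) : Face3 (tr N (mv false H S ω)) F ρ := by
  intro u u' hu hu' hne hc'
  refine hF u u' hu hu' hne ?_
  rw [hc] at hc' ⊢
  have aux : ∀ x ∈ Cst (tr N ω) c r3 r0 (a i1) (a i2), HC (tr N ω) (ball c ρ) (a i1) x :=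
    fun x hx => HC.mono (fun v (hv : v ∈ ball c r0) => mem_ball.2 ((mem_ball.1 hv).trans hρ)) (by
      rcases hx with k | k
      · exact k.mono colour_ann_sub
      · exact h12.trans (k.mono colour_ann_sub))
  refine hc'.ind (P := fun x => HC (tr N ω) (ball c ρ) u x) (HC.refl hc'.left_mem)
    fun x y _ hy hxy ih => ?_
  by_cases hn : (tr N ω).Adj x y
  · exact ih.tail hn hy
  · obtain ⟨k1, k2, -⟩ := new_edge_col h ht h1 hS hxy hn
    exact ih.trans ((aux x k1).symm.trans (aux y k2))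

end Pool.Agent.Work.MP_ccd212_pr
end

-- merged part: Pool.Agent.Work.MP_ccd212_pr.TwoT
section
/-! Creating a branch point; joins that stay outside. -/

namespace Pool.Agent.Work.MP_ccd212_pr

variable {M N H k0 s ρ : ℕ} {ω : Site → Fin (2 * M - 1 + 1)} {g : Site} {S : Finset Site}

/-- A connection that leaves a box reaches its boundary from inside. -/
private theorem tt_reach {T : SimpleGraph Site} (hT : T ≤ G) {X : Set Site} {a b c : Site} {R : ℕ}
    (h : HC T X a b) (ha : dst c a ≤ R) (hb : R ≤ dst c b) :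
    ∃ z, dst c z = R ∧ HC T (X ∩ ball c R) a z := by
  by_cases h0 : dst c a = R
  · exact ⟨a, h0, HC.refl ⟨h.left_mem, ha⟩⟩
  · have ha' : a ∉ {v | R ≤ dst c v} := by
      simp only [Set.mem_ofPred_eq]; omega
    obtain ⟨u, t, hu, ht, hut, h1, h2⟩ := h.first_hit (T := {v | R ≤ dst c v}) ha' hb
    simp only [Set.mem_ofPred_eq] at hu ht
    have hd : dst c t ≤ dst c u + 1 := Adj.dst_le (hT hut) c
    refine ⟨t, by omega, (h1.mono ?_).tail hut ⟨h2.left_mem, ?_⟩⟩
    · rintro v ⟨hv, hv'⟩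
      simp only [Set.mem_ofPred_eq] at hv'
      exact ⟨hv, by simp only [ball, Set.mem_ofPred_eq]; omega⟩
    · simp only [ball, Set.mem_ofPred_eq]; omega

/-- After lowering `S1` a cluster of low sites of the zone blocks the fat ring and contains `S1`. -/
theorem Zone.low_blocker (h : Zone ω N H k0 g s) (h1 : IsS1 ω M H g s S) :
    ∃ K : Set Site, K.Nonempty ∧ K ⊆ ann g s (9 * s - 1) ∧ (S : Set Site) ⊆ K ∧
      (∀ a ∈ K, ∀ b ∈ K, HC (tr N (mv false H S ω)) K a b) ∧ ¬ Arm Kᶜ g (4 * s) (7 * s) := by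
  have hs := h.hs
  obtain ⟨K0, hK0, cK0, nK0⟩ := ring_dual (by omega) (by omega) h1.kill
  rw [compl_compl] at hK0
  have hne : K0.Nonempty := by
    by_contra hne
    rw [Set.not_nonempty_iff_eq_empty] at hne
    apply nK0
    rw [hne, Set.compl_empty]
    exact (h.good.radial.mono_ring (by omega) (by omega) (by omega)).mono (Set.subset_univ _)
  have hSK : (S : Set Site) ⊆ K0 := by
    intro v hv
    by_contra hvK
    refine nK0 ((h1.min v hv).mono ?_)
    intro u hu huK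
    apply hu
    rcases (hK0 huK).1 with h2 | h2
    · exact Or.inl h2
    · refine Or.inr ⟨h2, ?_⟩
      rintro rfl
      exact hvK huK
  obtain ⟨u0, hu0⟩ := hne
  have hu0' : u0 ∈ ann g (2 * s) (8 * s - 1) := by
    have := (hK0 hu0).2
    simp only [ann, Set.mem_ofPred_eq] at this ⊢
    omega
  have hsub : K0 ⊆ {v | HC (tr N (mv false H S ω))
      (lev (mv false H S ω) (M - H) ∩ ann g s (9 * s - 1)) u0 v} := by
    intro v hv
    refine h.low_join h1.sub hu0' ?_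
    rw [(h.lev_down h1.sub).1]
    exact (cK0 u0 hu0 v hv).mono fun w hw => (hK0 hw).1
  refine ⟨_, ⟨u0, hsub hu0⟩, fun v hv => (HC.right_mem hv).2, hSK.trans hsub, fun a ha b hb => ?_,
    fun hc => nK0 (hc.mono (Set.compl_subset_compl.2 hsub))⟩
  exact (HC.cluster ha).symm.trans (HC.cluster hb)

theorem lower_all (h : Zone ω N H k0 g s) (h1 : IsS1 ω M H g s S) {b : Fin 3 → Site}
    (hb : ∀ i, b i ∈ ball 0 N ∧ ρ + 9 * s ≤ dst g (b i))
    (hn : ∀ i j, i ≠ j → ¬ HC (tr N ω) {v | s ≤ dst g v} (b i) (b j)) :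
    ∃ c P, dst g c ≤ 9 * s ∧ TriP (tr N (mv false H S ω)) c ρ P ∧
      ∀ j, ∀ v ∈ P j, ∀ v' ∈ P j, 9 * s ≤ dst g v → 9 * s ≤ dst g v' →
        HC (tr N ω) (ann g s (ρ + 9 * s)) v v' := by
  have hs := h.hs
  obtain ⟨K, ⟨q, hq⟩, hKa, hSK, cK, nK⟩ := h.low_blocker h1
  have hKd : ∀ v ∈ K, dst g v + 1 ≤ 9 * s := fun v hv => by
    have := (hKa hv).2
    omega
  have hKb : K ⊆ ball 0 N := fun v hv => h.sub (by
    have := hKd v hv
    simp only [ball, Set.mem_ofPred_eq]; omega)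
  have cb : IsConn (ball (0 : Site) N) := by
    rw [ball_eq_rect]
    exact isConn_rect _ _ _ _
  have sp : Span (tr N (mv false H S ω)) (ball 0 N) :=
    mst_span (ball_finite _ _) cb (h.mv_props false h1.sub).2.1
  set T' := tr N (mv false H S ω) with hT'
  have hbK : ∀ i, b i ∉ K := fun i hi => by
    have := hKd _ hi
    have := (hb i).2
    omega
  have hex : ∀ i, ∃ y k, k ∈ K ∧ T'.Adj k y ∧ HC T' Kᶜ (b i) y := fun i => by
    obtain ⟨u, t, -, ht, hut, h2, -⟩ := (sp.conn _ (hb i).1 _ (hKb hq)).first_hit (hbK i) hq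
    exact ⟨u, t, ht, hut.symm, h2.mono fun v hv => hv.2⟩
  choose y k hk hky hby using hex
  have far : ∀ i v, HC T' Kᶜ (b i) v → 4 * s ≤ dst g v := fun i v hv => by
    by_contra hlt
    refine nK ((hv.symm.conn sp.le).arm (by omega) (Or.inl (by omega)) ?_)
    have := (hb i).2
    omega
  have down : ∀ i (X : Set Site) p p', X ⊆ Kᶜ → HC T' Kᶜ (b i) p → HC T' X p p' →
      HC (tr N ω) (X ∩ {v | s ≤ dst g v}) p p' := by
    intro i X p p' hX hp hpp
    have h2 : HC T' (X ∩ {v | s ≤ dst g v}) p p' := hpp.inter_of fun v hv => by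
      have := far i v (hp.trans (hv.mono hX))
      simp only [Set.mem_ofPred_eq]; omega
    exact h2.transfer fun u v hu hv huv =>
      h.adj_down h1.sub huv (fun hc => hX hu.right_mem.1 (hSK hc)) fun hc => hX hv.1 (hSK hc)
  have hyd : ∀ i, dst g (y i) ≤ ρ + 9 * s := fun i => by
    have := Adj.dst_le (sp.le (hky i)) g
    have := hKd _ (hk i)
    omega
  have hz : ∀ i, ∃ z, dst g z = ρ + 9 * s ∧ HC T' (Kᶜ ∩ ball g (ρ + 9 * s)) (y i) z := fun i =>
    tt_reach sp.le (hby i).symm (hyd i) (hb i).2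
  choose z hzd hyz using hz
  obtain ⟨m, hm, P, y', hP, hP'⟩ := tripod (H := T') cK
    (O := fun i => {v | HC T' (Kᶜ ∩ ball g (ρ + 9 * s)) (y i) v}) (k := k) (y := y) (z := z)
    (fun i j hij => Set.disjoint_left.2 fun v hv hv' => by
      have h2 : HC T' Kᶜ (b i) (b j) :=
        ((hby i).trans (HC.mono Set.inter_subset_left hv)).trans
          ((hby j).trans (HC.mono Set.inter_subset_left hv')).symm
      exact hn i j hij ((down i _ _ _ subset_rfl (HC.refl (hbK i)) h2).mono Set.inter_subset_right))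
    (fun i => Set.disjoint_left.2 fun v hv hv' => (HC.right_mem hv).1 hv') hk hky
    fun i => (hyz i).cluster
  have hmd := hKd m hm
  refine ⟨m, P, by omega, ⟨y', z, fun i j hij => ?_, fun i => ⟨(hP' i).2.2.1, ?_, (hP' i).1,
    (hP' i).2.2.2⟩⟩, fun j v hv v' hv' h9 h9' => ?_⟩
  · by_contra hne
    exact Set.disjoint_left.1 (hP i j hne) (hP' i).2.2.2.left_mem
      (hij ▸ (hP' j).2.2.2.left_mem)
  · have := dst_triangle g m (z i)
    have := hzd i
    omega
  · have key : ∀ w ∈ P j, 9 * s ≤ dst g w → HC (tr N ω) (ann g s (ρ + 9 * s)) (y j) w := by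
      intro w hw hw9
      rcases (hP' j).2.1 hw with h2 | h2
      · have := hKd w h2
        omega
      · exact (down j _ _ _ Set.inter_subset_left (hby j) h2).mono fun u hu => ⟨hu.2, hu.1.2⟩
    exact (key v hv h9).symm.trans (key v' hv' h9')

/-- From a point of the inner part, a connection to the outside contains an arm of the buffer. -/
private theorem tt_arm {T : SimpleGraph Site} (hT : T ≤ G) {r n R : ℕ} {x v b : Site} {X : Set Site}
    (hX : X ⊆ {v | r ≤ dst x v}) (hn : n + 2 ≤ R) (hv : dst x v ≤ n) (hb : dst x b = R)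
    (h : HC T X v b) : ∃ u z, dst x u ≤ n + 1 ∧ R - 1 ≤ dst x z ∧
      HC T ((X \ {v}) ∩ {w | HC T (ann x r R) v w}) u z := by
  obtain ⟨z, hz, h2⟩ := tt_reach hT h (c := x) (R := R) (by omega) hb.ge
  have h3 : HC T ((X ∩ ball x R) ∩ {w | HC T (ann x r R) v w}) v z :=
    h2.inter_of fun w hw => hw.mono fun u hu => ⟨hX hu.1, hu.2⟩
  have hz' : z ∉ ball x n := by
    simp only [ball, Set.mem_ofPred_eq]; omega
  obtain ⟨t, u, ht, -, htu, -, h4⟩ := h3.last_exit (T := ball x n) hv hz'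
  have hd : dst x u ≤ dst x t + 1 := Adj.dst_le (hT htu) x
  have ht' : dst x t ≤ n := ht
  refine ⟨u, z, by omega, by omega, h4.mono ?_⟩
  rintro w ⟨⟨⟨hw1, -⟩, hw2⟩, hw3⟩
  refine ⟨⟨hw1, ?_⟩, hw2⟩
  rintro rfl
  exact hw3 hv

/-- Joins of outer ends that avoid the inner box stay outside the buffer block. -/
theorem buffer_join {T : SimpleGraph Site} (hT : T ≤ G) (hA : T.IsAcyclic) {d r n R : ℕ} {x : Site}
    {a b : Fin d → Site} (hc : Comps T x r R a b) (hr : r ≤ n) (hn : n + 2 ≤ R)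
    (hno : ¬ DArms (d + 1) T x (n + 1) (R - 1)) {i j : Fin d} (hij : i ≠ j)
    (h : HC T {v | r ≤ dst x v} (b i) (b j)) : HC T {v | n < dst x v} (b i) (b j) := by
  classical
  have _ := hA
  have _ := hij
  obtain ⟨p, hp, hpr⟩ := h.exists_path
  by_contra hcon
  have hex : ∃ v ∈ p.support, dst x v ≤ n := by
    by_contra hall
    push Not at hall
    exact hcon ⟨p, hall⟩
  obtain ⟨v, hv, hvn⟩ := hex
  obtain ⟨P, Q, hI, hU, hP, hQ, -, -⟩ := split_path hp hv
  have sP : P ⊆ {v | r ≤ dst x v} := fun w hw =>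
    hpr w (show w ∈ {x | x ∈ p.support} from hU ▸ Or.inl hw)
  have sQ : Q ⊆ {v | r ≤ dst x v} := fun w hw =>
    hpr w (show w ∈ {x | x ∈ p.support} from hU ▸ Or.inr hw)
  obtain ⟨u1, z1, hu1, hz1, a1⟩ := tt_arm hT sP hn hvn (hc.1 i).2.1 hP
  obtain ⟨u2, z2, hu2, hz2, a2⟩ := tt_arm hT sQ hn hvn (hc.1 j).2.1 hQ
  obtain ⟨l0, hl0⟩ : ∃ l0, ∀ l, l ≠ l0 → ¬ HC T (ann x r R) v (a l) := by
    by_cases hl : ∃ l, HC T (ann x r R) v (a l)
    · obtain ⟨l0, hl0⟩ := hl
      exact ⟨l0, fun l hne hl => hc.2 l l0 hne (hl.symm.trans hl0)⟩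
    · exact ⟨i, fun l _ h2 => hl ⟨l, h2⟩⟩
  set C := {w | HC T (ann x r R) v w} with hC
  let B : Fin d → Set Site := fun l =>
    if l = l0 then (Q \ {v}) ∩ C else {w | HC T (ann x r R) (a l) w}
  have hCl : ∀ l, l ≠ l0 → ∀ w ∈ C, w ∉ {w | HC T (ann x r R) (a l) w} := fun l hl w hw hw' =>
    hl0 l hl (HC.trans hw (HC.symm hw'))
  have d0 : ∀ l, Disjoint ((P \ {v}) ∩ C) (B l) := fun l => by
    refine Set.disjoint_left.2 fun w hw hw' => ?_
    by_cases hl : l = l0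
    · simp only [B, hl, if_true] at hw'
      exact hw.1.2 (hI ▸ ⟨hw.1.1, hw'.1.1⟩)
    · simp only [B, hl, if_false] at hw'
      exact hCl l hl w hw.2 hw'
  have d1 : ∀ l l', l ≠ l' → Disjoint (B l) (B l') := fun l l' hne => by
    refine Set.disjoint_left.2 fun w hw hw' => ?_
    by_cases hl : l = l0
    · have hl' : l' ≠ l0 := fun h2 => hne (hl.trans h2.symm)
      simp only [B, hl, hl', if_true, if_false] at hw hw'
      exact hCl l' hl' w hw.2 hw'
    · by_cases hl' : l' = l0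
      · simp only [B, hl, hl', if_true, if_false] at hw hw'
        exact hCl l hl w hw'.2 hw
      · simp only [B, hl, hl', if_false] at hw hw'
        exact hc.2 l l' hne (HC.trans hw (HC.symm hw'))
  refine hno ⟨Fin.cons ((P \ {v}) ∩ C) B, fun l l' => ?_, fun l => ?_⟩
  · refine Fin.cases ?_ (fun l => ?_) l <;> refine Fin.cases ?_ (fun l' => ?_) l' <;> intro hne
    · exact absurd rfl hne
    · simpa only [Fin.cons_zero, Fin.cons_succ] using d0 l'
    · simpa only [Fin.cons_zero, Fin.cons_succ] using (d0 l).symm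
    · simpa only [Fin.cons_succ] using d1 l l' fun h2 => hne (congrArg Fin.succ h2)
  · refine Fin.cases ?_ (fun l => ?_) l
    · exact ⟨u1, z1, hu1, hz1, by simpa only [Fin.cons_zero] using a1⟩
    · by_cases hl : l = l0
      · exact ⟨u2, z2, hu2, hz2, by simpa only [Fin.cons_succ, B, hl, if_true] using a2⟩
      · obtain ⟨e1, e2, e3⟩ := hc.1 l
        exact ⟨a l, b l, by omega, by omega,
          by simpa only [Fin.cons_succ, B, hl, if_false] using e3.cluster⟩

end Pool.Agent.Work.MP_ccd212_pr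
end

-- merged part: Pool.Agent.Work.MP_ccd212_pr.Dual1
section
/-! The dual graph of a spanning tree. -/

namespace Pool.Agent.Work.MP_ccd212_pr

variable {T : SimpleGraph Site} {Λ : Set Site}

private theorem d1_dst {f : Face} {u v : Site} (hu : InF f u) (hv : InF f v) : dst u v ≤ 1 := by
  by_cases h : u = v
  · rw [h, dst_self]
    exact zero_le_one
  · exact (hu.adj hv h).dst_eq.le

private theorem d1_finite (v : Site) : {f : Face | InF f v}.Finite := by
  refine ((ball_finite v 1).prod (Set.finite_univ (α := Bool))).subset fun f hf => ⟨?_, trivial⟩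
  have h : InF f v := hf
  simp only [InF] at h
  simp only [mem_ball, dst]
  omega

private theorem d1_sh {f g : Face} {a b : Site} (h1 : f.2 ≠ g.2) (h2 : Adj a b)
    (h3 : InF f a ∧ InF f b ∧ InF g a ∧ InF g b) : Shares f g a b :=
  ⟨fun e => h1 (congrArg Prod.snd e), h2.ne, h3⟩

private theorem d1_vertex {P : Face → Prop} {v : Site}
    (hs : ∀ h h' y, Shares h h' v y → P h → P h') {f : Face} (hf : InF f v) :
    P f ↔ P (v, false) := by
  have st : ∀ h h' y, Shares h h' v y → (P h ↔ P h') := fun h h' y e =>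
    ⟨hs h h' y e, hs h' h y e.symm⟩
  obtain ⟨i, j⟩ := v
  have e2 : P ((i - 1, j), true) ↔ P ((i, j), false) :=
    st _ _ (i, j + 1) (d1_sh (by simp) (by simp [Adj]) (by simp [InF]))
  have e3 : P ((i - 1, j), false) ↔ P ((i - 1, j), true) :=
    st _ _ (i - 1, j + 1) (d1_sh (by simp) (by simp [Adj]) (by simp [InF]))
  have e4 : P ((i - 1, j - 1), true) ↔ P ((i - 1, j), false) :=
    st _ _ (i - 1, j) (d1_sh (by simp) (by simp [Adj]) (by simp [InF]))
  have e5 : P ((i, j - 1), false) ↔ P ((i - 1, j - 1), true) :=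
    st _ _ (i, j - 1) (d1_sh (by simp) (by simp [Adj]) (by simp [InF]))
  have e6 : P ((i, j - 1), true) ↔ P ((i, j - 1), false) :=
    st _ _ (i + 1, j - 1) (d1_sh (by simp) (by simp [Adj]) (by simp [InF]))
  obtain ⟨⟨k, l⟩, t⟩ := f
  cases t <;> simp only [InF, Bool.false_eq_true, Bool.true_eq_false, false_and, true_and,
      or_false, false_or] at hf
  · rcases hf with hf | hf | hf
    · obtain ⟨rfl, rfl⟩ : k = i - 1 ∧ l = j := by omega
      rw [e3, e2]
    · obtain ⟨rfl, rfl⟩ : k = i ∧ l = j - 1 := by omega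
      rw [e5, e4, e3, e2]
    · obtain ⟨rfl, rfl⟩ : k = i ∧ l = j := by omega
      rfl
  · rcases hf with hf | hf | hf
    · obtain ⟨rfl, rfl⟩ : k = i - 1 ∧ l = j := by omega
      rw [e2]
    · obtain ⟨rfl, rfl⟩ : k = i ∧ l = j - 1 := by omega
      rw [e6, e5, e4, e3, e2]
    · obtain ⟨rfl, rfl⟩ : k = i - 1 ∧ l = j - 1 := by omega
      rw [e4, e3, e2]

/-- Going around the component of `a` from one face of a tree edge `a b` to the other. -/
theorem dual_around (hΛ : Λ.Finite) (hT : Span T Λ) {a b : Site} (hab : T.Adj a b) {f g : Face}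
    (hfg : Shares f g a b) (P : Face → Prop) (h0 : P f)
    (hs : ∀ h h' x y, Shares h h' x y → ¬ T.Adj x y →
      HC (T.deleteEdges {s(a, b)}) Set.univ a x → ¬ HC (T.deleteEdges {s(a, b)}) Set.univ a y →
      P h → P h') : P g := by
  set U : Set Site := {x | HC (T.deleteEdges {s(a, b)}) Set.univ a x} with hU
  have ha : a ∈ U := HC.refl (Set.mem_univ a)
  have hb : b ∉ U := fun ⟨w, _⟩ => SimpleGraph.isBridge_iff.1
    (SimpleGraph.isAcyclic_iff_forall_adj_isBridge.1 hT.acyclic hab) ⟨w⟩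
  have hUf : U.Finite := hΛ.subset fun x hx => HC.ind (P := fun x => x ∈ Λ) hx (hT.mem a b hab).1
    fun p q _ _ h _ => (hT.mem p q (SimpleGraph.deleteEdges_adj.1 h).1).2
  set F : Set Face := {h | (∃ v ∈ U, InF h v) ∧ h ≠ g} with hF
  have hFf : F.Finite := (hUf.biUnion fun v _ => d1_finite v).subset fun h hh => by
    obtain ⟨v, hv, e⟩ := hh.1
    exact Set.mem_biUnion hv e
  have step : ∀ (e : Site × Site) h h', Cut U e → e ≠ (a, b) → Shares h h' e.1 e.2 → P h → P h' := by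
    rintro ⟨x, y⟩ h h' hc hne hsh
    refine hs h h' x y hsh (fun hxy => hc.2.2 (HC.tail hc.2.1
      (SimpleGraph.deleteEdges_adj.2 ⟨hxy, fun e => ?_⟩) (Set.mem_univ _))) hc.2.1 hc.2.2
    rcases Sym2.eq_iff.1 (Set.mem_singleton_iff.1 e) with e | e
    · exact hne (Prod.ext e.1 e.2)
    · exact hb (e.1 ▸ hc.2.1)
  have base : ∀ h ∈ F, InF h a → InF h b → P h := fun h hh h1 h2 => by
    rcases hfg.eq_or h1 h2 with e | e
    · exact e ▸ h0
    · exact (hh.2 e).elim
  obtain ⟨e, he, e', he', hc', ⟨f', g', hsh, hf', hg'⟩, hch⟩ := cut_follow (U := U) hFf {(a, b)}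
    (fun e he => by
      rw [Finset.mem_singleton.1 he]
      exact ⟨⟨hT.le hab, ha, hb⟩, f, g, hfg, ⟨⟨a, ha, hfg.2.2.1⟩, hfg.1⟩, fun h => h.2 rfl⟩)
    (by simp)
  rw [Finset.mem_singleton] at he he'
  subst he
  have inv : ∀ e : Site × Site, Relation.ReflTransGen (CStep U F) (a, b) e →
      ∀ h ∈ F, InF h e.1 → InF h e.2 → P h := fun e he => by
    induction he with
    | refl => exact base
    | @tail e1 e2 _ h2 ih =>
      obtain ⟨-, hc, f0, hf0, p1, p2, p3, p4⟩ := h2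
      intro h hh h3 h4
      by_cases e : e2 = (a, b)
      · subst e
        exact base h hh h3 h4
      · by_cases e0 : f0 = h
        · exact e0 ▸ ih f0 hf0 p1 p2
        · exact step e2 f0 h hc e ⟨e0, hc.1.ne, p3, p4, h3, h4⟩ (ih f0 hf0 p1 p2)
  have hg : g' = g := by
    by_contra hne
    exact hg' ⟨⟨e'.1, hc'.2.1, hsh.2.2.2.2.1⟩, hne⟩
  exact hg ▸ step e' f' g' hc' he' hsh (inv e' hch f' hf' hsh.2.2.1 hsh.2.2.2.1)

/-- A property that passes through the edges meeting a connected set `Z` passes between all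
faces touching `Z`. -/
theorem faces_ind {Z : Set Site} {P : Face → Prop}
    (hs : ∀ h h' x y, Shares h h' x y → x ∈ Z → P h → P h') {u v : Site} (huv : Conn Z u v)
    {f g : Face} (hf : InF f u) (hg : InF g v) (h0 : P f) : P g := by
  have loc : ∀ x ∈ Z, ∀ h, InF h x → (P h ↔ P (x, false)) := fun x hx h hh =>
    d1_vertex (fun k k' y e => hs k k' x y e hx) hh
  refine (loc v huv.right_mem g hg).2 (huv.ind (P := fun x => P (x, false))
    ((loc u huv.left_mem f hf).1 h0) fun x y hx hy hxy hp => ?_)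
  obtain ⟨p, q, e⟩ := hxy.exists_shares
  exact (loc y hy p e.2.2.2.1).1 ((loc x hx.right_mem p e.2.2.1).2 hp)

theorem dual_conn (hΛ : Λ.Finite) (hT : Span T Λ) (f g : Face) : HC (dualG T) Set.univ f g := by
  have hf : InF f (f.1.1 + 1, f.1.2) := Or.inl ⟨rfl, rfl⟩
  have hg : InF g (g.1.1 + 1, g.1.2) := Or.inl ⟨rfl, rfl⟩
  have hc : Conn Set.univ (f.1.1 + 1, f.1.2) (g.1.1 + 1, g.1.2) :=
    (isConn_rect (min (f.1.1 + 1) (g.1.1 + 1)) (max (f.1.1 + 1) (g.1.1 + 1)) (min f.1.2 g.1.2)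
      (max f.1.2 g.1.2) (f.1.1 + 1, f.1.2)
      ⟨min_le_left _ _, le_max_left _ _, min_le_left _ _, le_max_left _ _⟩ (g.1.1 + 1, g.1.2)
      ⟨min_le_right _ _, le_max_right _ _, min_le_right _ _, le_max_right _ _⟩).mono
      (Set.subset_univ _)
  refine faces_ind (P := fun h => HC (dualG T) Set.univ f h) (fun h h' x y e _ hp => ?_) hc hf hg
    (HC.refl (Set.mem_univ f))
  by_cases hxy : T.Adj x y
  · exact dual_around hΛ hT hxy e (fun h => HC (dualG T) Set.univ f h) hp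
      fun k k' p q e' hn _ _ hk => hk.tail ⟨p, q, e', hn⟩ (Set.mem_univ _)
  · exact hp.tail ⟨x, y, e, hxy⟩ (Set.mem_univ _)

/-- The faces touching a full cluster of high sites are joined by dual edges among such faces. -/
theorem dual_high {β : Type} [LinearOrder β] {V : Site → β} (hΛ : Λ.Finite)
    (hT : Span (mstG Λ V) Λ) {D : Set β} (hD : IsUpperSet D) {z0 : Site}
    (hin : ∀ v, Conn (V ⁻¹' D) z0 v → ball v 1 ⊆ Λ) {f g : Face}
    (hf : ∃ v, Conn (V ⁻¹' D) z0 v ∧ InF f v) (hg : ∃ v, Conn (V ⁻¹' D) z0 v ∧ InF g v) :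
    HC (dualG (mstG Λ V)) {h | ∃ v, Conn (V ⁻¹' D) z0 v ∧ InF h v} f g := by
  obtain ⟨u, hu, hfu⟩ := hf
  obtain ⟨v, hv, hgv⟩ := hg
  refine faces_ind (Z := {v | Conn (V ⁻¹' D) z0 v})
    (P := fun h => HC (dualG (mstG Λ V)) {h | ∃ v, Conn (V ⁻¹' D) z0 v ∧ InF h v} f h)
    (fun h h' x y e hx hp => ?_) (hu.cluster.symm.trans hv.cluster) hfu hgv (HC.refl ⟨u, hu, hfu⟩)
  by_cases hxy : (mstG Λ V).Adj x y
  · refine dual_around hΛ hT hxy e
      (fun h => HC (dualG (mstG Λ V)) {h | ∃ v, Conn (V ⁻¹' D) z0 v ∧ InF h v} f h) hp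
      fun k k' p q e' hn h1 h2 hk => hk.tail ⟨p, q, e', hn⟩ ?_
    obtain ⟨t, ht, hkt⟩ := hk.right_mem
    have h3 := mstx_max_le_of_key_le (mst_cut hΛ (e'.2.2.1.adj e'.2.2.2.1 e'.2.1)
      (hin t ht (d1_dst hkt e'.2.2.1)) (hin t ht (d1_dst hkt e'.2.2.2.1)) h1 h2)
    have hxD : V x ∈ D := Conn.right_mem (S := V ⁻¹' D) hx
    have h4 : max (V p) (V q) ∈ D := hD ((le_max_left _ _).trans h3) hxD
    have h5 : ∀ w, InF k w → V w ∈ D → Conn (V ⁻¹' D) z0 w := fun w hw hwD => by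
      by_cases e : t = w
      · exact e ▸ ht
      · exact ht.tail (hkt.adj hw e) hwD
    rcases max_choice (V p) (V q) with e | e
    · exact ⟨p, h5 p e'.2.2.1 (e ▸ h4), e'.2.2.2.2.1⟩
    · exact ⟨q, h5 q e'.2.2.2.1 (e ▸ h4), e'.2.2.2.2.2⟩
  · exact hp.tail ⟨x, y, e, hxy⟩ ⟨x, hx, e.2.2.2.2.1⟩

/-- Three dual branches that go far make a three-coloured face. -/
theorem face3_of_dual_arms (hT : T ≤ G) {m : Face} {ρ : ℕ} (hρ : 1 ≤ ρ) {P : Fin 3 → Set Face}
    {y z : Fin 3 → Face} (hy : Function.Injective y) (hadj : ∀ i, (dualG T).Adj m (y i))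
    (hm : ∀ i, m ∉ P i) (hc : ∀ i, HC (dualG T) (P i) (y i) (z i))
    (hz : ∀ i, ∃ v, InF (z i) v ∧ ρ < dst m.1 v) : Face3 T m ρ := by
  have _ := hρ
  rintro u u' hu hu' hne ⟨w, hw⟩
  have hadj' : G.Adj u' u := hu'.adj hu hne.symm
  set W : G.Walk u' u' := .cons hadj' (w.mapLe hT) with hW
  have hsup : ∀ v ∈ W.support, v ∈ ball m.1 ρ := fun v hv => by
    rw [hW, SimpleGraph.Walk.support_cons, SimpleGraph.Walk.support_mapLe_eq_support] at hv
    rcases List.mem_cons.1 hv with e | e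
    · exact e ▸ hw u' w.end_mem_support
    · exact hw v e
  have hmult : ∀ a b, ¬ T.Adj a b → mult W a b = if s(u', u) = s(a, b) then 1 else 0 :=
    fun a b hab => by
      have h1 : (w.mapLe hT).edges.count s(a, b) = 0 := List.count_eq_zero.2 fun e => by
        rw [SimpleGraph.Walk.edges_mapLe_eq_edges] at e
        exact hab (w.adj_of_mem_edges e)
      rw [hW, Top3_mult_cons, mult, h1, Nat.cast_zero, zero_add]
  have hsc : SC (ball m.1 ρ) := by
    rw [ball_eq_rect]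
    exact sc_rect _ _ _ _
  have hin : ∀ a b : Site, s(u', u) = s(a, b) → InF m a ∧ InF m b := fun a b e => by
    rcases Sym2.eq_iff.1 e with e | e
    · exact ⟨e.1 ▸ hu', e.2 ▸ hu⟩
    · exact ⟨e.2 ▸ hu, e.1 ▸ hu'⟩
  have hy0 : ∀ i, wind W (y i) = 0 := fun i => by
    obtain ⟨v, hv, hd⟩ := hz i
    have h1 : wind W (z i) = 0 := hsc u' W hsup (z i) ⟨v, hv, fun h => absurd h (not_le.2 hd)⟩
    have h2 : wind W (z i) = wind W (y i) :=
      (hc i).ind (P := fun k => wind W k = wind W (y i)) rfl fun k k' hk hk' hkk hp => by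
        obtain ⟨a, b, e, hn⟩ := hkk
        have h3 := wind_shares W e
        rw [hmult a b hn, if_neg fun e' => ?_] at h3
        · have h4 := CharTwo.add_self_eq_zero (R := ZMod 2) (wind W k)
          linear_combination h3 - h4 + hp
        · rcases e.eq_or (hin a b e').1 (hin a b e').2 with e2 | e2
          · exact hm i (e2 ▸ hk.right_mem)
          · exact hm i (e2 ▸ hk')
    rw [← h2, h1]
  choose a b hsh hn using hadj
  have hinj : ∀ i j, s(a i, b i) = s(a j, b j) → i = j := fun i j e => by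
    have h1 : InF (y j) (a i) ∧ InF (y j) (b i) := by
      rcases Sym2.eq_iff.1 e with e | e
      · exact ⟨e.1 ▸ (hsh j).2.2.2.2.1, e.2 ▸ (hsh j).2.2.2.2.2⟩
      · exact ⟨e.1 ▸ (hsh j).2.2.2.2.2, e.2 ▸ (hsh j).2.2.2.2.1⟩
    rcases (hsh i).eq_or h1.1 h1.2 with e2 | e2
    · exact ((hsh j).1 e2.symm).elim
    · exact (hy e2).symm
  have hwm : ∀ i, wind W m = if s(u', u) = s(a i, b i) then 1 else 0 := fun i => by
    rw [← hmult _ _ (hn i), ← wind_shares W (hsh i), hy0, add_zero]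
  obtain ⟨c, hc3⟩ : ∃ c, ∀ v, InF m v → v = u ∨ v = u' ∨ v = c := by
    clear * - m u u' hu hu' hne
    obtain ⟨p, q, r, -, -, -, h⟩ := exists_three m
    rcases (h u).1 hu with e | e | e <;> rcases (h u').1 hu' with e' | e' | e'
    all_goals first
      | exact (hne (e.trans e'.symm)).elim
      | exact ⟨p, fun v hv => by rw [e, e']; have := (h v).1 hv; tauto⟩
      | exact ⟨q, fun v hv => by rw [e, e']; have := (h v).1 hv; tauto⟩
      | exact ⟨r, fun v hv => by rw [e, e']; have := (h v).1 hv; tauto⟩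
  have hcl : ∀ i, s(a i, b i) = s(u', u) ∨ s(a i, b i) = s(u, c) ∨ s(a i, b i) = s(u', c) :=
    fun i => by
      have h0 := (hsh i).2.1
      rcases hc3 _ (hsh i).2.2.1 with e | e | e <;> rcases hc3 _ (hsh i).2.2.2.1 with e' | e' | e'
      all_goals first
        | exact (h0 (e.trans e'.symm)).elim
        | (rw [e, e']; simp)
  have hex : ∃ i, s(u', u) = s(a i, b i) := by
    by_contra hno
    have h1 : ∀ i, s(a i, b i) = s(u, c) ∨ s(a i, b i) = s(u', c) := fun i =>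
      (hcl i).resolve_left fun e => hno ⟨i, e.symm⟩
    have n01 : s(a 0, b 0) ≠ s(a 1, b 1) := fun e => absurd (hinj _ _ e) (by decide)
    have n02 : s(a 0, b 0) ≠ s(a 2, b 2) := fun e => absurd (hinj _ _ e) (by decide)
    have n12 : s(a 1, b 1) ≠ s(a 2, b 2) := fun e => absurd (hinj _ _ e) (by decide)
    rcases h1 0 with e0 | e0 <;> rcases h1 1 with e1 | e1 <;> rcases h1 2 with e2 | e2
    all_goals first
      | exact n01 (e0.trans e1.symm)
      | exact n02 (e0.trans e2.symm)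
      | exact n12 (e1.trans e2.symm)
  obtain ⟨i, hi⟩ := hex
  obtain ⟨j, hj⟩ := exists_ne i
  have h1 := hwm i
  have h2 := hwm j
  rw [if_pos hi] at h1
  rw [if_neg fun e => hj (hinj _ _ (e.symm.trans hi)), h1] at h2
  exact one_ne_zero h2

end Pool.Agent.Work.MP_ccd212_pr
end

-- merged part: Pool.Agent.Work.MP_ccd212_pr.Forest3
section
/-! The number of macroscopic centres. -/

namespace Pool.Agent.Work.MP_ccd212_pr

variable {T : SimpleGraph Site}

private theorem f3_dst {F : Face} {v : Site} (h : InF F v) : dst F.1 v ≤ 1 := by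
  unfold InF at h
  unfold dst
  omega

/-- A site on the boundary of a box belongs to a face that is not inside the box. -/
private theorem f3_out {y z : Site} {R : ℕ} (h : dst y z = R) :
    ∃ g : Face, InF g z ∧ ∃ v, InF g v ∧ v ∉ ball y R := by
  have hc : z.1 = y.1 + R ∨ z.2 = y.2 + R ∨ z.1 = y.1 - R ∨ z.2 = y.2 - R := by
    unfold dst at h; omega
  rcases hc with hc | hc | hc | hc
  · refine ⟨(z, false), by simp [InF], (z.1 + 1, z.2), by simp [InF], ?_⟩
    simp only [ball, dst, Set.mem_ofPred_eq]; omega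
  · refine ⟨(z, false), by simp [InF], (z.1, z.2 + 1), by simp [InF], ?_⟩
    simp only [ball, dst, Set.mem_ofPred_eq]; omega
  · refine ⟨((z.1 - 1, z.2), false), by simp [InF], (z.1 - 1, z.2), by simp [InF], ?_⟩
    simp only [ball, dst, Set.mem_ofPred_eq]; omega
  · refine ⟨((z.1, z.2 - 1), false), by simp [InF], (z.1, z.2 - 1), by simp [InF], ?_⟩
    simp only [ball, dst, Set.mem_ofPred_eq]; omega

private theorem f3_edge {a b : Site} (h : G.Adj a b) (F : Face) :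
    wind (.cons h.symm .nil) F = wind (.cons h .nil) F := by
  rw [← wind_reverse]
  rfl

private theorem f3_zero {F : Face} {y a a' b b' c z : Site} {R : ℕ} (pA : G.Walk a a')
    (pB : G.Walk b b') (h' : G.Adj a' b') (h : G.Adj a b) {C : Set Site}
    (hA : ∀ v ∈ pA.support, v ∈ ball y R ∧ v ∉ C) (hB : ∀ v ∈ pB.support, v ∈ ball y R ∧ v ∉ C)
    (hc : InF F c) (hz : Conn C c z) (hzR : dst y z = R) :
    wind pA F + wind (.cons h' .nil) F + wind pB F + wind (.cons h .nil) F = 0 := by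
  let w : G.Walk a a := pA.append ((SimpleGraph.Walk.cons h' .nil).append
    (pB.reverse.append (.cons h.symm .nil)))
  have hw : ∀ v ∈ w.support, v ∈ ball y R ∧ v ∉ C := by
    intro v hv
    simp only [w, SimpleGraph.Walk.mem_support_append_iff, SimpleGraph.Walk.support_cons,
      SimpleGraph.Walk.support_nil, SimpleGraph.Walk.support_reverse, List.mem_reverse,
      List.mem_cons, List.not_mem_nil, or_false] at hv
    rcases hv with hv | (rfl | rfl) | hv | rfl | rfl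
    · exact hA v hv
    · exact hA _ pA.end_mem_support
    · exact hB _ pB.end_mem_support
    · exact hB v hv
    · exact hB _ pB.start_mem_support
    · exact hA _ pA.start_mem_support
  obtain ⟨g, hg, hg'⟩ := f3_out hzR
  have h1 := wind_eq_of_conn w (fun v hv hv' => (hw v hv').2 hv) hz hc hg
  have h2 : wind w g = 0 := by
    rw [ball_eq_rect] at hg'
    exact sc_rect _ _ _ _ a w (fun v hv => by rw [← ball_eq_rect]; exact (hw v hv).1) g hg'
  rw [h2] at h1
  simp only [w, wind_append, wind_reverse, f3_edge h] at h1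
  rw [← h1]
  ring

private theorem f3_tri {F F' : Face} {a b c : Site} (ha : InF F a) (hb : InF F b) (hc : InF F c)
    (hab : G.Adj a b) (hbc : G.Adj b c) (hca : G.Adj c a) :
    wind (.cons hab .nil) F' + wind (.cons hbc .nil) F' + wind (.cons hca .nil) F' =
      if F' = F then 1 else 0 := by
  rw [← wind_triangle ha hb hc hab hbc hca F', add_assoc, ← wind_append, ← wind_append]
  rfl

/-- Two faces whose vertices lie in the same three distinct crossing components are equal. -/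
private theorem f3_inj (hT : T ≤ G) {y : Site} {R : ℕ} {F F' : Face} {a b c a' b' c' : Site}
    (ha : InF F a) (hb : InF F b) (hc : InF F c) (ha' : InF F' a') (hb' : InF F' b')
    (hc' : InF F' c') (nab : ¬ HC T (ball y R) a b) (nbc : ¬ HC T (ball y R) b c)
    (nca : ¬ HC T (ball y R) c a) (pa : HC T (ball y R) a a') (pb : HC T (ball y R) b b')
    (pc : HC T (ball y R) c c') {za zb zc : Site} (qa : HC T (ball y R) a za)
    (qb : HC T (ball y R) b zb) (qc : HC T (ball y R) c zc) (ra : dst y za = R)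
    (rb : dst y zb = R) (rc : dst y zc = R) : F = F' := by
  by_contra hne
  have hab : G.Adj a b := ha.adj hb fun e => nab (e ▸ HC.refl pa.left_mem)
  have hbc : G.Adj b c := hb.adj hc fun e => nbc (e ▸ HC.refl pb.left_mem)
  have hca : G.Adj c a := hc.adj ha fun e => nca (e ▸ HC.refl pc.left_mem)
  have hab' : G.Adj a' b' := ha'.adj hb' fun e => nab (pa.trans (e ▸ pb.symm))
  have hbc' : G.Adj b' c' := hb'.adj hc' fun e => nbc (pb.trans (e ▸ pc.symm))
  have hca' : G.Adj c' a' := hc'.adj ha' fun e => nca (pc.trans (e ▸ pa.symm))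
  obtain ⟨wa, hwa⟩ := pa.cluster.conn hT
  obtain ⟨wb, hwb⟩ := pb.cluster.conn hT
  obtain ⟨wc, hwc⟩ := pc.cluster.conn hT
  have key : ∀ {u u' t : Site} (w : G.Walk u u'), (∀ v ∈ w.support, v ∈ {v | HC T (ball y R) u v}) →
      ¬ HC T (ball y R) u t → ∀ v ∈ w.support, v ∈ ball y R ∧ v ∉ {v | HC T (ball y R) t v} :=
    fun w hw hn v hv => ⟨HC.right_mem (hw v hv), fun h' => hn (HC.trans (hw v hv) (HC.symm h'))⟩
  have e1 := f3_zero wa wb hab' hab (key wa hwa fun h => nca h.symm) (key wb hwb nbc) hc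
    (qc.cluster.conn hT) rc
  have e2 := f3_zero wb wc hbc' hbc (key wb hwb fun h => nab h.symm) (key wc hwc nca) ha
    (qa.cluster.conn hT) ra
  have e3 := f3_zero wc wa hca' hca (key wc hwc fun h => nbc h.symm) (key wa hwa nab) hb
    (qb.cluster.conn hT) rb
  have t1 := f3_tri (F' := F) ha hb hc hab hbc hca
  have t2 := f3_tri (F' := F) ha' hb' hc' hab' hbc' hca'
  rw [if_pos rfl] at t1
  rw [if_neg hne] at t2
  have h2 : (2 : ZMod 2) = 0 := rfl
  have : (1 : ZMod 2) = 0 := by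
    linear_combination e1 + e2 + e3 - t1 - t2 - (wind wa F + wind wb F + wind wc F) * h2
  exact one_ne_zero this

/-- A point joined to a point outside its component in the box reaches the boundary. -/
private theorem f3_reach (hT : T ≤ G) {Λ : Set Site} {y u u' : Site} {R : ℕ} (hu : u ∈ ball y R)
    (h : HC T Λ u u') (hn : ¬ HC T (ball y R) u u') :
    ∃ z, dst y z = R ∧ HC T (ball y R) u z := by
  by_contra hz
  refine hn (h.ind (P := fun x => HC T (ball y R) u x) (HC.refl hu) fun x v _ _ hxv hx => ?_)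
  refine hx.tail hxv ?_
  have h1 : dst y x ≤ R := hx.right_mem
  have h2 : dst y x ≠ R := fun e => hz ⟨x, e, hx⟩
  have h3 := Adj.dst_le (hT hxv) y
  show dst y v ≤ R
  omega

private theorem f3_comps {e r R : ℕ} {y : Site} (h : ¬ DArms (e + 1) T y r R) :
    {C : Set Site | ∃ a z, dst y a ≤ r ∧ dst y z = R ∧ HC T (ball y R) a z ∧
      C = {v | HC T (ball y R) a v}}.Finite ∧
    {C : Set Site | ∃ a z, dst y a ≤ r ∧ dst y z = R ∧ HC T (ball y R) a z ∧
      C = {v | HC T (ball y R) a v}}.ncard ≤ e := by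
  set K := {C : Set Site | ∃ a z, dst y a ≤ r ∧ dst y z = R ∧ HC T (ball y R) a z ∧
      C = {v | HC T (ball y R) a v}} with hK
  have hfin : K.Finite := by
    refine ((ball_finite y r).image fun a => {v | HC T (ball y R) a v}).subset ?_
    rintro C ⟨a, z, ha, -, -, rfl⟩
    exact ⟨a, ha, rfl⟩
  refine ⟨hfin, ?_⟩
  by_contra hlt
  obtain ⟨t, ht, hcard⟩ := Set.exists_subset_card_eq (s := K) (n := e + 1) (by omega)
  have htf : t.Finite := hfin.subset ht
  have := htf.fintype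
  have hc : Fintype.card t = e + 1 := by
    rw [← hcard, ← Set.toFinset_card, Set.ncard_eq_toFinset_card']
  let φ : Fin (e + 1) ≃ t := (Fintype.equivFinOfCardEq hc).symm
  refine h ⟨fun i => (φ i : Set Site), fun i j hij => ?_, fun i => ?_⟩
  · obtain ⟨a, z, -, -, -, e1⟩ := ht (φ i).2
    obtain ⟨a', z', -, -, -, e2⟩ := ht (φ j).2
    show Disjoint (φ i : Set Site) (φ j : Set Site)
    rw [Set.disjoint_left]
    intro v hv hv'
    apply hij
    apply φ.injective
    apply Subtype.ext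
    rw [e1] at hv
    rw [e2] at hv'
    have haa : HC T (ball y R) a a' := HC.trans hv (HC.symm hv')
    rw [e1, e2]
    ext x
    exact ⟨fun hx => haa.symm.trans hx, fun hx => haa.trans hx⟩
  · obtain ⟨a, z, ha, hz, haz, e1⟩ := ht (φ i).2
    refine ⟨a, z, ha, hz.ge, ?_⟩
    show HC T (φ i : Set Site) a z
    rw [e1]
    exact haz.cluster

theorem face3_count {Λ : Set Site} (hT : Span T Λ) {e b R ρ : ℕ} {y : Site}
    (hΛ : ball y (b + 1) ⊆ Λ) (hb : b + 1 ≤ R) (h : ¬ DArms (e + 1) T y (b + 1) R)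
    (hρ : R + b ≤ ρ) : {F : Face | F.1 ∈ ball y b ∧ Face3 T F ρ}.ncard ≤ e ^ 3 := by
  obtain ⟨hfin, hcard⟩ := f3_comps h
  set K := {C : Set Site | ∃ a z, dst y a ≤ b + 1 ∧ dst y z = R ∧ HC T (ball y R) a z ∧
      C = {v | HC T (ball y R) a v}} with hK
  choose a1 a2 a3 n12 n13 n23 hv using exists_three
  have i1 : ∀ F, InF F (a1 F) := fun F => (hv F _).2 (Or.inl rfl)
  have i2 : ∀ F, InF F (a2 F) := fun F => (hv F _).2 (Or.inr (Or.inl rfl))
  have i3 : ∀ F, InF F (a3 F) := fun F => (hv F _).2 (Or.inr (Or.inr rfl))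
  have hnear : ∀ F : Face, F.1 ∈ ball y b → ∀ u, InF F u → dst y u ≤ b + 1 := by
    intro F hF u hu
    have h1 := f3_dst hu
    have h2 : dst y F.1 ≤ b := hF
    have h3 := dst_triangle y F.1 u
    omega
  have hsep : ∀ F : Face, F.1 ∈ ball y b → Face3 T F ρ → ∀ u u', InF F u → InF F u' → u ≠ u' →
      ¬ HC T (ball y R) u u' := by
    intro F hF h3 u u' hu hu' hne hc
    refine h3 u u' hu hu' hne (hc.mono fun v hv => ?_)
    have h1 : dst y v ≤ R := hv
    have h2 : dst y F.1 ≤ b := hF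
    have h3 := dst_triangle F.1 y v
    rw [dst_comm F.1 y] at h3
    show dst F.1 v ≤ ρ
    omega
  have hreach : ∀ F : Face, F.1 ∈ ball y b → Face3 T F ρ → ∀ u u', InF F u → InF F u' → u ≠ u' →
      ∃ z, dst y z = R ∧ HC T (ball y R) u z := by
    intro F hF h3 u u' hu hu' hne
    exact f3_reach hT.le ((hnear F hF u hu).trans hb)
      (hT.conn u (hΛ (hnear F hF u hu)) u' (hΛ (hnear F hF u' hu'))) (hsep F hF h3 u u' hu hu' hne)
  have hmem : ∀ F : Face, F.1 ∈ ball y b → Face3 T F ρ → ∀ u u', InF F u → InF F u' → u ≠ u' →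
      {v | HC T (ball y R) u v} ∈ K := by
    intro F hF h3 u u' hu hu' hne
    obtain ⟨z, hz, hc⟩ := hreach F hF h3 u u' hu hu' hne
    exact ⟨u, z, hnear F hF u hu, hz, hc, rfl⟩
  have hle := Set.ncard_le_ncard_of_injOn (s := {F : Face | F.1 ∈ ball y b ∧ Face3 T F ρ})
    (t := K ×ˢ (K ×ˢ K))
    (fun F => ({v | HC T (ball y R) (a1 F) v}, {v | HC T (ball y R) (a2 F) v},
      {v | HC T (ball y R) (a3 F) v}))
    (fun F hF => ⟨hmem F hF.1 hF.2 _ _ (i1 F) (i2 F) (n12 F),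
      hmem F hF.1 hF.2 _ _ (i2 F) (i3 F) (n23 F), hmem F hF.1 hF.2 _ _ (i3 F) (i1 F) (n13 F).symm⟩)
    (fun F hF F' hF' he => by
      simp only [Prod.mk.injEq] at he
      obtain ⟨e1, e2, e3⟩ := he
      have hsame : ∀ u u' : Site, dst y u' ≤ b + 1 →
          {v | HC T (ball y R) u v} = {v | HC T (ball y R) u' v} → HC T (ball y R) u u' := by
        intro u u' hu' he
        have : u' ∈ {v | HC T (ball y R) u' v} := HC.refl (hu'.trans hb)
        rw [← he] at this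
        exact this
      obtain ⟨z1, r1, q1⟩ := hreach F hF.1 hF.2 _ _ (i1 F) (i2 F) (n12 F)
      obtain ⟨z2, r2, q2⟩ := hreach F hF.1 hF.2 _ _ (i2 F) (i3 F) (n23 F)
      obtain ⟨z3, r3, q3⟩ := hreach F hF.1 hF.2 _ _ (i3 F) (i1 F) (n13 F).symm
      exact f3_inj hT.le (i1 F) (i2 F) (i3 F) (i1 F') (i2 F') (i3 F')
        (hsep F hF.1 hF.2 _ _ (i1 F) (i2 F) (n12 F)) (hsep F hF.1 hF.2 _ _ (i2 F) (i3 F) (n23 F))
        (hsep F hF.1 hF.2 _ _ (i3 F) (i1 F) (n13 F).symm)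
        (hsame _ _ (hnear F' hF'.1 _ (i1 F')) e1) (hsame _ _ (hnear F' hF'.1 _ (i2 F')) e2)
        (hsame _ _ (hnear F' hF'.1 _ (i3 F')) e3) q1 q2 q3 r1 r2 r3)
    (hfin.prod (hfin.prod hfin))
  rw [Set.ncard_prod, Set.ncard_prod] at hle
  refine hle.trans ?_
  calc K.ncard * (K.ncard * K.ncard) = K.ncard ^ 3 := by ring
    _ ≤ e ^ 3 := Nat.pow_le_pow_left hcard 3

/-- The faces based in a centred box. -/
noncomputable def faceF (ρ : ℕ) : Finset Face := ballF 0 ρ ×ˢ Finset.univ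

theorem mem_faceF {ρ : ℕ} {F : Face} : F ∈ faceF ρ ↔ F.1 ∈ ball 0 ρ := by
  simp [faceF]

theorem dst_rnd {q : ℕ} (hq : 1 ≤ q) (x : Site) : dst x (rnd q x) < q := by
  have hq' : (0 : ℤ) < q := by exact_mod_cast hq
  have a1 := Int.emod_nonneg x.1 hq'.ne'
  have a2 := Int.emod_lt_of_pos x.1 hq'
  have a3 := Int.emod_add_ediv_mul x.1 q
  have b1 := Int.emod_nonneg x.2 hq'.ne'
  have b2 := Int.emod_lt_of_pos x.2 hq'
  have b3 := Int.emod_add_ediv_mul x.2 q
  simp only [dst, rnd]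
  generalize x.1 / (q : ℤ) * q = s at *
  generalize x.2 / (q : ℤ) * q = t at *
  generalize x.1 % (q : ℤ) = s' at *
  generalize x.2 % (q : ℤ) = t' at *
  omega

theorem rnd_rnd {q k : ℕ} (x : Site) : rnd (k * q) (rnd q x) = rnd (k * q) x := by
  rcases Nat.eq_zero_or_pos q with rfl | hq
  · simp [rnd]
  have hq' : (0 : ℤ) < q := by exact_mod_cast hq
  have key : ∀ a : ℤ, a / q * q / ((k * q : ℕ) : ℤ) = a / ((k * q : ℕ) : ℤ) := by
    intro a
    push_cast
    rw [Int.mul_ediv_mul_of_pos_left _ _ hq', Int.ediv_ediv_of_nonneg hq'.le, mul_comm]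
  simp only [rnd, key]

theorem card_rnd_image {q ρ c : ℕ} (hq : 1 ≤ q) (h : ρ ≤ c * q) (y : Site) :
    ((ballF y ρ).image (rnd q)).card ≤ (2 * c + 2) ^ 2 := by
  have hq' : (0 : ℤ) < q := by exact_mod_cast hq
  have key : ∀ a a' : ℤ, (a' - a).natAbs ≤ ρ → (a' / q - a / q).natAbs ≤ c := by
    intro a a' ha
    have hρ : (ρ : ℤ) ≤ c * q := by exact_mod_cast h
    have h1 : a' / q ≤ (a + c * q) / q := Int.ediv_le_ediv hq' (by omega)
    have h2 : a / q ≤ (a' + c * q) / q := Int.ediv_le_ediv hq' (by omega)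
    rw [Int.add_mul_ediv_right _ _ hq'.ne'] at h1 h2
    generalize a' / (q : ℤ) = s at *
    generalize a / (q : ℤ) = t at *
    omega
  have hsub : (ballF y ρ).image (rnd q) ⊆
      (ballF (y.1 / q, y.2 / q) c).image fun v : Site => (v.1 * q, v.2 * q) := by
    intro v hv
    obtain ⟨x, hx, rfl⟩ := Finset.mem_image.1 hv
    refine Finset.mem_image.2 ⟨(x.1 / q, x.2 / q), ?_, rfl⟩
    rw [mem_ballF] at hx ⊢
    exact max_le (key _ _ ((le_max_left _ _).trans hx)) (key _ _ ((le_max_right _ _).trans hx))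
  refine (Finset.card_le_card hsub).trans (Finset.card_image_le.trans ?_)
  rw [card_ballF]
  exact Nat.pow_le_pow_left (by omega) 2

open Classical in
theorem mac_count {N e b R ρ ρm c : ℕ} (hT : Span T (ball 0 N)) (hb1 : 1 ≤ b) (hb : b + 1 ≤ R)
    (hN : ρ + 2 * b + 1 ≤ N) (hc : ρ ≤ c * b) (hρ : R + b ≤ ρm)
    (h : ∀ y ∈ ball 0 (ρ + b), ¬ DArms (e + 1) T y (b + 1) R) :
    ((faceF ρ).filter fun F => Mac T F ρm).card ≤ (2 * c + 2) ^ 2 * (2 * e + e ^ 3) := by
  have hmain := Finset.card_le_mul_card_image_of_maps_to (f := fun F : Face => rnd b F.1)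
    (s := (faceF ρ).filter fun F => Mac T F ρm) (t := (ballF 0 ρ).image (rnd b))
    (fun F hF => Finset.mem_image_of_mem _
      (mem_ballF.2 (mem_faceF.1 (Finset.mem_filter.1 hF).1))) (2 * e + e ^ 3) (by
      intro g hg
      obtain ⟨x, hx, rfl⟩ := Finset.mem_image.1 hg
      rw [mem_ballF] at hx
      have hg0 : dst 0 (rnd b x) ≤ ρ + b := by
        have h1 := dst_rnd hb1 x
        have h2 := dst_triangle 0 x (rnd b x)
        omega
      have hno := h _ hg0
      have hΛ : ball (rnd b x) (b + 1) ⊆ ball 0 N := by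
        intro v hv
        have h1 : dst (rnd b x) v ≤ b + 1 := hv
        have h2 := dst_triangle 0 (rnd b x) v
        show dst 0 v ≤ N
        omega
      have c1 := tri_count hT.le hT.acyclic hb hno hρ
      have c2 := face3_count hT hΛ hb hno hρ
      have f1 : {c | c ∈ ball (rnd b x) b ∧ Tri T c ρm}.Finite :=
        (ball_finite _ _).subset fun _ hv => hv.1
      have f2 : {F : Face | F.1 ∈ ball (rnd b x) b ∧ Face3 T F ρm}.Finite :=
        ((ball_finite (rnd b x) b).prod (Set.finite_univ (α := Bool))).subset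
          fun _ hv => ⟨hv.1, Set.mem_univ _⟩
      rw [← Set.ncard_coe_finset]
      refine (Set.ncard_le_ncard (t := {c | c ∈ ball (rnd b x) b ∧ Tri T c ρm} ×ˢ
        (Set.univ : Set Bool) ∪ {F : Face | F.1 ∈ ball (rnd b x) b ∧ Face3 T F ρm}) ?_
        ((f1.prod Set.finite_univ).union f2)).trans ((Set.ncard_union_le _ _).trans ?_)
      · intro F hF
        simp only [Finset.coe_filter, Finset.mem_filter, Set.mem_ofPred_eq] at hF
        have hF1 : F.1 ∈ ball (rnd b x) b := by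
          have h1 := dst_rnd hb1 F.1
          rw [hF.2, dst_comm] at h1
          exact h1.le
        rcases hF.1.2 with h1 | h1
        · exact Or.inl ⟨⟨hF1, h1⟩, Set.mem_univ _⟩
        · exact Or.inr ⟨hF1, h1⟩
      · rw [Set.ncard_prod, Set.ncard_univ, Nat.card_eq_fintype_card, Fintype.card_bool]
        omega)
  refine hmain.trans ?_
  rw [mul_comm]
  exact Nat.mul_le_mul_right _ (card_rnd_image hb1 hc 0)

end Pool.Agent.Work.MP_ccd212_pr
end

-- merged part: Pool.Agent.Work.MP_ccd212_pr.Raise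
section
/-! Raising the blocking sites of one colour. -/

namespace Pool.Agent.Work.MP_ccd212_pr

variable {M N H k0 s d r3 r2 r1 r0 ρ : ℕ} {ω : Site → Fin (2 * M - 1 + 1)} {c g : Site}
  {a b : Fin d → Site} {S0 S : Finset Site} {k : Fin d}

/-- A connection that stays off `S` survives the move. -/
theorem raise_keep (h : Zone ω N H k0 g s) (hS : (S : Set Site) ⊆ XS ω M H 1 g s) {X : Set Site}
    {u v : Site} (hc : HC (tr N ω) X u v) (hX : ∀ x, HC (tr N ω) X u x → x ∉ S) :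
    HC (tr N (mv true H S ω)) X u v :=
  hc.transfer fun x y hx hy hxy => h.adj_up hS hxy (hX x hx) (hX y (hx.tail hxy hy))

/-- After the move at most `d - 1` components cross the ring. -/
theorem raise_break (h : Zone ω N H k0 g s) (ht : Triple (tr N ω) N c r3 r2 r1 r0 a b g s)
    (hd : 2 ≤ d) (h0 : IsS0 ω M H g s S0)
    (hS : ∀ v, v ∈ S ↔ v ∈ S0 ∧ HC (tr N ω) (ann c r3 r0) (a k) v) :
    ¬ DComp d (tr N (mv true H S ω)) c r3 r0 := by
  rintro ⟨a', b', hc'⟩
  have hs := h.hs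
  have e1 := ht.hin
  have e2 := ht.hout
  have e3 := ht.h32
  have e4 := ht.h10
  have hsub : (S : Set Site) ⊆ XS ω M H 1 g s := fun v hv => h0.sub ((hS v).1 hv).1
  have hinj := (h.mv_props true hsub).2.1
  have hb9 : ball g (9 * s) ⊆ ball 0 N := fun v hv => h.sub (Nat.le_succ_of_le hv)
  have hann : ann c r3 r0 ⊆ ball 0 N := fun v hv => ht.sub (le_trans hv.2 (Nat.le_add_right _ _))
  have din : ∀ x, dst c x = r3 → dst g x < s := fun x hx => by
    have := dst_triangle g c x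
    have := dst_comm c g
    omega
  have dout : ∀ x, dst c x = r0 → 9 * s ≤ dst g x := fun x hx => by
    have := dst_triangle c g x
    omega
  have off : ∀ j, j ≠ k → ∀ v, HC (tr N ω) (ann c r3 r0) (a j) v → v ∉ S := fun j hj v hv hv' =>
    ht.comps.2 j k hj (hv.trans ((hS v).1 hv').2.symm)
  obtain ⟨O1, O2, hB, hj⟩ := h.exists_blk
  have hB' : Blk (lev (mv true H S ω) (M + H)) g s O1 O2 := by
    rw [h.lev_up hsub]
    refine ⟨fun v hv => ⟨⟨(hB.1 hv).1, fun hv' => ?_⟩, (hB.1 hv).2⟩,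
      fun v hv => ⟨⟨(hB.2.1 hv).1, fun hv' => ?_⟩, (hB.2.1 hv).2⟩, hB.2.2⟩
    · have k1 := (hB.1 hv).2.2
      have k2 := (hsub hv').1.1
      omega
    · have k1 := (hB.2.1 hv).2.1
      have k2 := (hsub hv').1.2
      omega
  have hj' : ∃ y1 ∈ O1, ∃ y2 ∈ O2, Conn (ball 0 N ∩ lev (mv true H S ω) (M + H)) y1 y2 := by
    have : Nontrivial (Fin d) := Fin.nontrivial_iff_two_le.2 hd
    obtain ⟨j, hjk⟩ := exists_ne k
    obtain ⟨k1, k2, k3⟩ := ht.comps.1 j
    obtain ⟨p, hp, hp'⟩ := k3.exists_path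
    obtain ⟨y1, h1, y2, h2, hy⟩ := (hi_between h.inj (by omega) hb9 hB hj hp (din _ k1)
      (dout _ k2)).1
    refine ⟨y1, h1, y2, h2, (hy.conn h.span.le).mono fun v hv => ⟨hann (hp' v hv.1), ?_⟩⟩
    rw [h.lev_up hsub]
    exact ⟨hv.2, off j hjk v ((HC.of_mem_support p hv.1).mono hp')⟩
  have key : ∀ i, ∃ j, j ≠ k ∧ ∃ v, HC (tr N ω) (ann c r3 r0) (a j) v ∧
      HC (tr N (mv true H S ω)) (ann c r3 r0) (a' i) v := fun i => by
    obtain ⟨k1, k2, k3⟩ := hc'.1 i
    obtain ⟨p, hp, hp'⟩ := k3.exists_path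
    have h3 := (hi_between hinj (by omega) hb9 hB' hj' hp (din _ k1) (dout _ k2)).2.2
    rw [h.lev_up hsub] at h3
    have : ∃ v ∈ p.support, v ∈ S0 ∧ v ∉ S := by
      by_contra hn
      exact h0.kill (h3.mono fun v hv => ⟨hv.2.1, fun hv' => hn ⟨v, hv.1, hv', hv.2.2⟩⟩)
    obtain ⟨v, hv, hv0, hvS⟩ := this
    have m1 := (h0.sub hv0).1
    have m2 := ht.zone_sub (a := a) (b := b) (show v ∈ ann g s (9 * s) from
      ⟨by have := m1.1; omega, by have := m1.2; omega⟩)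
    obtain ⟨j, hj⟩ := ht.colour h.span (show v ∈ ann c (r2 - 1) (r1 + 1) from
      ⟨by have := m2.1; omega, by have := m2.2; omega⟩)
    exact ⟨j, fun e => hvS ((hS v).2 ⟨hv0, e ▸ hj⟩), v, hj, (HC.of_mem_support p hv).mono hp'⟩
  choose f hf w hw hw' using key
  have hni : ¬ Function.Injective f := fun hi => by
    obtain ⟨i, hi'⟩ := Finite.injective_iff_surjective.1 hi k
    exact hf i hi'
  obtain ⟨i, i', e, hne⟩ := Function.not_injective_iff.1 hni
  have q1 : HC (tr N ω) (ann c r3 r0) (w i) (w i') := (hw i).symm.trans (e ▸ hw i')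
  have q2 := raise_keep h hsub q1 fun x hx => off (f i) (hf i) x ((hw i).trans hx)
  exact hc'.2 i i' hne (((hw' i).trans q2).trans (hw' i').symm)

/-- Three branches with one colour each leave a colour free. -/
theorem free_colour {T : SimpleGraph Site} (ht : Triple T N c r3 r2 r1 r0 a b g s) (hd : 4 ≤ d)
    {P : Fin 3 → Set Site}
    (hP : ∀ j, ∀ v ∈ P j ∩ ann c r2 r1, ∀ v' ∈ P j ∩ ann c r2 r1, HC T (ann c r3 r0) v v') :
    ∃ k, ∀ j, ∀ v ∈ P j ∩ ann c r2 r1, ¬ HC T (ann c r3 r0) (a k) v := by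
  by_contra hn
  have key : ∀ k, ∃ j, ∃ v ∈ P j ∩ ann c r2 r1, HC T (ann c r3 r0) (a k) v := fun k => by
    by_contra h'
    exact hn ⟨k, fun j v hv hc => h' ⟨j, v, hv, hc⟩⟩
  choose f w hw hw' using key
  have hi : Function.Injective f := fun i i' e => by
    by_contra hne
    exact ht.comps.2 i i' hne
      (((hw' i).trans (hP (f i) _ (hw i) _ (e ▸ hw i'))).trans (hw' i').symm)
  have := Fintype.card_le_of_injective f hi
  rw [Fintype.card_fin, Fintype.card_fin] at this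
  omega

theorem raise_tri (h : Zone ω N H k0 g s) (hS : (S : Set Site) ⊆ XS ω M H 1 g s)
    {P : Fin 3 → Set Site} (hT : TriP (tr N ω) c ρ P) (hc : c ∉ S) (hP : ∀ j, ∀ v ∈ P j, v ∉ S) :
    TriP (tr N (mv true H S ω)) c ρ P := by
  obtain ⟨y, z, hy, hz⟩ := hT
  refine ⟨y, z, hy, fun i => ?_⟩
  obtain ⟨k1, k2, k3, k4⟩ := hz i
  exact ⟨h.adj_up hS k1 hc (hP i _ k4.left_mem), k2, k3,
    raise_keep h hS k4 fun x hx => hP i x hx.right_mem⟩

theorem raise_face (h : Zone ω N H k0 g s) (ht : Triple (tr N ω) N c r3 r2 r1 r0 a b g s)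
    (hS : (S : Set Site) ⊆ XS ω M H 1 g s) (hk : ∀ v ∈ S, HC (tr N ω) (ann c r3 r0) (a k) v)
    {F : Face} (hc : F.1 = c) (hF : Face3 (tr N ω) F ρ)
    (h1 : ∀ j, j ≠ k → ¬ HC (tr N ω) (ball c r0) (a k) (a j))
    (h2 : ∀ u, InF F u → ¬ HC (tr N ω) (ball c r0) (a k) u) :
    Face3 (tr N (mv true H S ω)) F ρ := by
  intro u u' hu hu' hne hc'
  have hs := h.hs
  have sp := h.span
  have sp' : Span (tr N (mv true H S ω)) (ball 0 N) := tr_span (h.mv_props true hS).2.1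
  have hb : ∀ x, InF F x → x ∈ ball 0 N := fun x hx => by
    refine ht.sub (show dst c x ≤ r0 + 2 from ?_)
    subst hc
    unfold InF at hx
    unfold dst
    omega
  obtain ⟨p, hp, -⟩ := (sp.conn u (hb u hu) u' (hb u' hu')).exists_path
  have off : ∀ v ∈ p.support, v ∉ S := fun v hv hv' => by
    have m1 := (hS hv').1
    have m2 := ht.zone_sub (a := a) (b := b) (show v ∈ ann g s (9 * s) from
      ⟨by have := m1.1; omega, by have := m1.2; omega⟩)
    exact ht.avoid sp h1 (h2 u hu) (h2 u' hu') hp hv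
      ⟨by have := m2.1; omega, by have := m2.2; omega⟩ (hk v hv')
  refine hF u u' hu hu' hne ⟨p, fun v hv => ?_⟩
  have q4 : ∀ d ∈ p.edges, d ∈ (tr N (mv true H S ω)).edgeSet := fun d hd => by
    induction d using Sym2.ind with
    | h x y =>
      exact h.adj_up hS (p.adj_of_mem_edges hd) (off x (p.fst_mem_support_of_mem_edges hd))
        (off y (p.snd_mem_support_of_mem_edges hd))
  refine hc'.path_subset sp'.acyclic (p := p.transfer _ q4) (hp.transfer q4) v ?_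
  rwa [SimpleGraph.Walk.support_transfer]

/-- Surgery at a branch point. -/
theorem surgery_T (h : Zone ω N H k0 g s) (ht : Triple (tr N ω) N c r3 r2 r1 r0 a b g s)
    (hd : 4 ≤ d) {P : Fin 3 → Set Site} (hT : TriP (tr N ω) c ρ P)
    (hP : ∀ j, ∀ v ∈ P j ∩ ann c r2 r1, ∀ v' ∈ P j ∩ ann c r2 r1,
      HC (tr N ω) (ann c r3 r0) v v') :
    ∃ (up : Bool) (S : Finset Site), (S : Set Site) ⊆ XS ω M H 1 g s ∧
      Tri (tr N (mv up H S ω)) c ρ ∧ ¬ DComp d (tr N (mv up H S ω)) c r3 r0 := by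
  classical
  have hs := h.hs
  have e1 := ht.hin
  have e2 := ht.h3
  have e3 := ht.h32
  obtain ⟨S0, h0⟩ := h.exists_S0
  obtain ⟨k, hk⟩ := free_colour ht hd hP
  have hS : ∀ v, v ∈ S0.filter (fun v => HC (tr N ω) (ann c r3 r0) (a k) v) ↔
      v ∈ S0 ∧ HC (tr N ω) (ann c r3 r0) (a k) v := fun v => Finset.mem_filter
  generalize S0.filter (fun v => HC (tr N ω) (ann c r3 r0) (a k) v) = S at hS
  have hsub : (S : Set Site) ⊆ XS ω M H 1 g s := fun v hv => h0.sub ((hS v).1 hv).1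
  have hz : ∀ v ∈ S, v ∈ ann c r2 r1 := fun v hv => by
    have m1 := (hsub hv).1
    have m2 := ht.zone_sub (a := a) (b := b) (show v ∈ ann g s (9 * s) from
      ⟨by have := m1.1; omega, by have := m1.2; omega⟩)
    exact ⟨by have := m2.1; omega, by have := m2.2; omega⟩
  have hc : c ∉ S := fun hv => by
    have := (hz c hv).1
    rw [dst_self] at this
    omega
  obtain ⟨y, z, hy, hz'⟩ := raise_tri h hsub hT hc fun j v hv hv' =>
    hk j v ⟨hv, hz v hv'⟩ ((hS v).1 hv').2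
  refine ⟨true, S, hsub, ⟨y, z, hy, fun i => ?_⟩, raise_break h ht (by omega) h0 hS⟩
  obtain ⟨k1, k2, k3, k4⟩ := hz' i
  exact ⟨k1, k2, k4.mono fun v hv e => k3 (e ▸ hv)⟩

end Pool.Agent.Work.MP_ccd212_pr
end
end

-- merged part: Pool.Agent.Work.MP_ccd212_pr.Port2
section
-- merged part: Pool.Agent.Work.MP_ccd212_pr.Node
section
/-! Grids of crossed squares and bars. -/

namespace Pool.Agent.Work.MP_ccd212_pr

variable {μ : ℕ} {Z Z' X : Set Site}

theorem node_sub_reg {u : Site} (hu : u ∈ Z) : node μ u ⊆ reg μ Z :=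
  fun _ hv => ⟨u, hu, Or.inl hv⟩

theorem hbar_sub_reg {u : Site} (hu : u ∈ Z) (hu' : (u.1 + 1, u.2) ∈ Z) : hbar μ u ⊆ reg μ Z :=
  fun _ hv => ⟨u, hu, Or.inr (Or.inl ⟨hu', hv⟩)⟩

theorem vbar_sub_reg {u : Site} (hu : u ∈ Z) (hu' : (u.1, u.2 + 1) ∈ Z) : vbar μ u ⊆ reg μ Z :=
  fun _ hv => ⟨u, hu, Or.inr (Or.inr ⟨hu', hv⟩)⟩

/-- Inside a full node all crossings are joined. -/
theorem node_join (hF : Full μ Z X) {u a b : Site} (hu : u ∈ Z) (ha : NodeCross μ u X a)
    (hb : NodeCross μ u X b) : Conn (X ∩ node μ u) a b := by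
  obtain ⟨⟨l, l', e1, e2, hl⟩, ⟨t, t', e3, e4, ht⟩, -⟩ := hF u hu
  have hs : X ∩ node μ u ⊆ node μ u := Set.inter_subset_right
  obtain ⟨w, w1, w2⟩ := LR_TB_meet hs hs hl e1 e2 ht e3 e4
  have hlt : Conn (X ∩ node μ u) t l := w2.trans w1.symm
  have key : ∀ c, NodeCross μ u X c → Conn (X ∩ node μ u) c l := by
    rintro c ⟨d, hcd, ⟨f1, f2⟩ | ⟨f1, f2⟩⟩
    · obtain ⟨z, z1, z2⟩ := LR_TB_meet hs hs hcd f1 f2 ht e3 e4
      exact (z1.trans z2.symm).trans hlt
    · obtain ⟨z, z1, z2⟩ := LR_TB_meet hs hs hl e1 e2 hcd f1 f2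
      exact z2.trans z1.symm
  exact (key a ha).trans (key b hb).symm

theorem node_step_h (hF : Full μ Z X) {u : Site} (hu : u ∈ Z) (hu' : (u.1 + 1, u.2) ∈ Z) :
    ∃ a b, NodeCross μ u X a ∧ NodeCross μ (u.1 + 1, u.2) X b ∧ Conn (X ∩ reg μ Z) a b := by
  obtain ⟨p, q, e1, e2, h⟩ := (hF u hu).2.2.1 hu'
  have m0 : (0 : ℤ) ≤ μ := Int.natCast_nonneg μ
  have e : 4 * (μ : ℤ) * (u.1 + 1) = 4 * μ * u.1 + 4 * μ := by ring
  obtain ⟨a, a', f1, f2, h1, h2⟩ := h.sub_LR (x1 := 4 * μ * u.1 - μ) (x2 := 4 * μ * u.1 + μ)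
    (y1 := 4 * μ * u.2 - μ) (y2 := 4 * μ * u.2 + μ) (by linarith) e1.le (by linarith)
    fun v hv _ _ => hv.2.2.2
  obtain ⟨b, b', f3, f4, h3, h4⟩ := h.sub_LR (x1 := 4 * μ * (u.1 + 1) - μ)
    (x2 := 4 * μ * (u.1 + 1) + μ) (y1 := 4 * μ * u.2 - μ) (y2 := 4 * μ * u.2 + μ) (by linarith)
    (by linarith) (by linarith) fun v hv _ _ => hv.2.2.2
  exact ⟨a, b, ⟨a', h1.mono fun v hv => ⟨hv.1.1, hv.2⟩, Or.inl ⟨f1, f2⟩⟩,
    ⟨b', h3.mono fun v hv => ⟨hv.1.1, hv.2⟩, Or.inl ⟨f3, f4⟩⟩,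
    (h2.symm.trans h4).mono fun v hv => ⟨hv.1, hbar_sub_reg hu hu' hv.2⟩⟩

theorem node_step_v (hF : Full μ Z X) {u : Site} (hu : u ∈ Z) (hu' : (u.1, u.2 + 1) ∈ Z) :
    ∃ a b, NodeCross μ u X a ∧ NodeCross μ (u.1, u.2 + 1) X b ∧ Conn (X ∩ reg μ Z) a b := by
  obtain ⟨p, q, e1, e2, h⟩ := (hF u hu).2.2.2 hu'
  have m0 : (0 : ℤ) ≤ μ := Int.natCast_nonneg μ
  have e : 4 * (μ : ℤ) * (u.2 + 1) = 4 * μ * u.2 + 4 * μ := by ring
  obtain ⟨a, a', f1, f2, h1, h2⟩ := h.sub_TB (x1 := 4 * μ * u.1 - μ) (x2 := 4 * μ * u.1 + μ)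
    (y1 := 4 * μ * u.2 - μ) (y2 := 4 * μ * u.2 + μ) (by linarith) e1.le (by linarith)
    fun v hv _ _ => ⟨hv.2.1, hv.2.2.1⟩
  obtain ⟨b, b', f3, f4, h3, h4⟩ := h.sub_TB (x1 := 4 * μ * u.1 - μ) (x2 := 4 * μ * u.1 + μ)
    (y1 := 4 * μ * (u.2 + 1) - μ) (y2 := 4 * μ * (u.2 + 1) + μ) (by linarith)
    (by linarith) (by linarith) fun v hv _ _ => ⟨hv.2.1, hv.2.2.1⟩
  exact ⟨a, b, ⟨a', h1.mono fun v hv => ⟨hv.1.1, hv.2⟩, Or.inr ⟨f1, f2⟩⟩,
    ⟨b', h3.mono fun v hv => ⟨hv.1.1, hv.2⟩, Or.inr ⟨f3, f4⟩⟩,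
    (h2.symm.trans h4).mono fun v hv => ⟨hv.1, vbar_sub_reg hu hu' hv.2⟩⟩

theorem node_step (hF : Full μ Z X) {u v : Site} (hu : u ∈ Z) (hv : v ∈ Z) (h : GAdj u v) :
    ∃ a b, NodeCross μ u X a ∧ NodeCross μ v X b ∧ Conn (X ∩ reg μ Z) a b := by
  rcases h with ⟨h1, h2⟩ | ⟨h1, h2⟩ | ⟨h1, h2⟩ | ⟨h1, h2⟩
  · have e : v = (u.1 + 1, u.2) := Prod.ext h1 h2
    rw [e] at hv ⊢
    exact node_step_h hF hu hv
  · have e : u = (v.1 + 1, v.2) := Prod.ext (by simp [h1]) h2.symm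
    rw [e] at hu ⊢
    obtain ⟨a, b, k1, k2, k3⟩ := node_step_h hF hv hu
    exact ⟨b, a, k2, k1, k3.symm⟩
  · have e : v = (u.1, u.2 + 1) := Prod.ext h1 h2
    rw [e] at hv ⊢
    exact node_step_v hF hu hv
  · have e : u = (v.1, v.2 + 1) := Prod.ext h1.symm (by simp [h2])
    rw [e] at hu ⊢
    obtain ⟨a, b, k1, k2, k3⟩ := node_step_v hF hv hu
    exact ⟨b, a, k2, k1, k3.symm⟩

theorem full_conn (hF : Full μ Z X) {u v a b : Site} (h : GConn Z u v) (ha : NodeCross μ u X a)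
    (hb : NodeCross μ v X b) : Conn (X ∩ reg μ Z) a b := by
  obtain ⟨hu, h⟩ := h
  have j : ∀ {w c d : Site}, w ∈ Z → NodeCross μ w X c → NodeCross μ w X d →
      Conn (X ∩ reg μ Z) c d := fun hw hc hd =>
    (node_join hF hw hc hd).mono (Set.inter_subset_inter_right _ (node_sub_reg hw))
  have key : v ∈ Z ∧ ∀ b, NodeCross μ v X b → Conn (X ∩ reg μ Z) a b := by
    clear hb
    induction h with
    | refl => exact ⟨hu, fun b hb => j hu ha hb⟩
    | tail _ hs ih =>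
      obtain ⟨c, d, k1, k2, k3⟩ := node_step hF ih.1 hs.2 hs.1
      exact ⟨hs.2, fun b hb => ((ih.2 c k1).trans k3).trans (j hs.2 k2 hb)⟩
  exact key.2 b hb

/-- A point of the region lies over a box of nodes with one or two elements. -/
theorem reg_box {v : Site} (hv : v ∈ reg μ Z) :
    ∃ x x' y y' : ℤ, x ≤ x' ∧ y ≤ y' ∧ x' + y' ≤ x + y + 1 ∧
      (∀ w : Site, x ≤ w.1 → w.1 ≤ x' → y ≤ w.2 → w.2 ≤ y' → w ∈ Z) ∧
      4 * μ * x - μ ≤ v.1 ∧ v.1 ≤ 4 * μ * x' + μ ∧ 4 * μ * y - μ ≤ v.2 ∧ v.2 ≤ 4 * μ * y' + μ := by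
  obtain ⟨u, hu, h | ⟨hu', h⟩ | ⟨hu', h⟩⟩ := hv
  · refine ⟨u.1, u.1, u.2, u.2, le_rfl, le_rfl, by omega, fun w h1 h2 h3 h4 => ?_, h⟩
    rwa [show w = u from Prod.ext (by omega) (by omega)]
  · obtain ⟨k1, k2, k3, k4⟩ := h
    refine ⟨u.1, u.1 + 1, u.2, u.2, by omega, le_rfl, by omega, fun w h1 h2 h3 h4 => ?_, k1,
      by linarith, k3, k4⟩
    rcases h1.eq_or_lt with h5 | h5
    · rwa [show w = u from Prod.ext (by omega) (by omega)]
    · rwa [show w = (u.1 + 1, u.2) from Prod.ext (by simp only; omega) (by simp only; omega)]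
  · obtain ⟨k1, k2, k3, k4⟩ := h
    refine ⟨u.1, u.1, u.2, u.2 + 1, le_rfl, by omega, by omega, fun w h1 h2 h3 h4 => ?_, k1, k2,
      k3, by linarith⟩
    rcases h3.eq_or_lt with h5 | h5
    · rwa [show w = u from Prod.ext (by omega) (by omega)]
    · rwa [show w = (u.1, u.2 + 1) from Prod.ext (by simp only; omega) (by simp only; omega)]

theorem node_ov (hμ : 1 ≤ μ) {a b x : ℤ} (h1 : 4 * μ * a - μ ≤ x) (h2 : x ≤ 4 * μ * b + μ) :
    a ≤ b := by
  have m : (0 : ℤ) < μ := by exact_mod_cast hμ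
  have : (μ : ℤ) * (4 * a - 1) ≤ μ * (4 * b + 1) := by linarith
  have := le_of_mul_le_mul_left this m
  omega

theorem reg_disjoint (hμ : 1 ≤ μ) (h : Disjoint Z Z') : Disjoint (reg μ Z) (reg μ Z') := by
  refine Set.disjoint_left.2 fun v hv hv' => ?_
  obtain ⟨x, x', y, y', a1, a2, -, a3, a4, a5, a6, a7⟩ := reg_box hv
  obtain ⟨s, s', t, t', b1, b2, -, b3, b4, b5, b6, b7⟩ := reg_box hv'
  have c1 := node_ov hμ a4 b5
  have c2 := node_ov hμ b4 a5
  have c3 := node_ov hμ a6 b7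
  have c4 := node_ov hμ b6 a7
  exact Set.disjoint_left.1 h
    (a3 (max x s, max y t) (le_max_left _ _) (max_le a1 c2) (le_max_left _ _) (max_le a2 c4))
    (b3 (max x s, max y t) (le_max_right _ _) (max_le c1 b1) (le_max_right _ _) (max_le c3 b2))

/-- The square that contains a node and its two bars. -/
def nbig (μ : ℕ) (u : Site) : Set Site :=
  rect (4 * μ * u.1 - μ) (4 * μ * u.1 + 5 * μ) (4 * μ * u.2 - μ) (4 * μ * u.2 + 5 * μ)

theorem node_sub_big (u : Site) : node μ u ⊆ nbig μ u := fun v hv => by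
  have m0 : (0 : ℤ) ≤ μ := Int.natCast_nonneg μ
  obtain ⟨k1, k2, k3, k4⟩ := hv
  exact ⟨k1, by linarith, k3, by linarith⟩

theorem hbar_sub_big (u : Site) : hbar μ u ⊆ nbig μ u := fun v hv => by
  have m0 : (0 : ℤ) ≤ μ := Int.natCast_nonneg μ
  obtain ⟨k1, k2, k3, k4⟩ := hv
  exact ⟨k1, k2, k3, by linarith⟩

theorem vbar_sub_big (u : Site) : vbar μ u ⊆ nbig μ u := fun v hv => by
  have m0 : (0 : ℤ) ≤ μ := Int.natCast_nonneg μ
  obtain ⟨k1, k2, k3, k4⟩ := hv
  exact ⟨k1, by linarith, k3, k4⟩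

theorem nbig_finite (h : Z.Finite) : (⋃ u ∈ Z, nbig μ u).Finite :=
  h.biUnion fun _ _ => rect_finite _ _ _ _

theorem reg_finite (h : Z.Finite) : (reg μ Z).Finite := by
  refine (nbig_finite (μ := μ) h).subset ?_
  rintro v ⟨u, hu, hv | ⟨-, hv⟩ | ⟨-, hv⟩⟩
  exacts [Set.mem_biUnion hu (node_sub_big u hv), Set.mem_biUnion hu (hbar_sub_big u hv),
    Set.mem_biUnion hu (vbar_sub_big u hv)]

theorem sup_full : Sup (Full μ Z) (reg μ Z) := by
  intro S S' hS hF u hu
  obtain ⟨h1, h2, h3, h4⟩ := hF u hu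
  exact ⟨(sup_LR _ _ _ _).mono (node_sub_reg hu) S S' hS h1,
    (sup_TB _ _ _ _).mono (node_sub_reg hu) S S' hS h2,
    fun hu' => (sup_LR _ _ _ _).mono (hbar_sub_reg hu hu') S S' hS (h3 hu'),
    fun hu' => (sup_TB _ _ _ _).mono (vbar_sub_reg hu hu') S S' hS (h4 hu')⟩

theorem inc_full : Inc (Full μ Z) := by
  intro S S' hS hF u hu
  obtain ⟨h1, h2, h3, h4⟩ := hF u hu
  exact ⟨inc_LR _ _ _ _ S S' hS h1, inc_TB _ _ _ _ S S' hS h2,
    fun hu' => inc_LR _ _ _ _ S S' hS (h3 hu'), fun hu' => inc_TB _ _ _ _ S S' hS (h4 hu')⟩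

/-- Position of the region of a set of nodes. -/
theorem reg_dst {I J : ℕ} (h : Z ⊆ ann 0 I J) {v : Site} (hv : v ∈ reg μ Z) :
    4 * μ * I ≤ dst 0 v + μ ∧ dst 0 v ≤ 4 * μ * J + μ := by
  obtain ⟨x, x', y, y', a1, a2, a0, a3, a4, a5, a6, a7⟩ := reg_box hv
  have b1 := h (a3 (x, y) le_rfl a1 le_rfl a2)
  have b2 := h (a3 (x', y') a1 le_rfl a2 le_rfl)
  simp only [mem_ann, dst, Prod.fst_zero, Prod.snd_zero, sub_zero] at b1 b2 ⊢
  have m0 : (0 : ℤ) ≤ 4 * μ := by positivity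
  have ml : ∀ {s t : ℤ}, s ≤ t → 4 * (μ : ℤ) * s ≤ 4 * μ * t :=
    fun hst => mul_le_mul_of_nonneg_left hst m0
  obtain ⟨P, hP⟩ : ∃ P, P = 4 * μ * I := ⟨_, rfl⟩
  obtain ⟨Q, hQ⟩ : ∃ Q, Q = 4 * μ * J := ⟨_, rfl⟩
  have hP' : 4 * (μ : ℤ) * I = P := by rw [hP]; push_cast; rfl
  have hQ' : 4 * (μ : ℤ) * J = Q := by rw [hQ]; push_cast; rfl
  rw [← hP, ← hQ]
  constructor
  · have c : (I : ℤ) ≤ x ∨ x' ≤ -I ∨ (I : ℤ) ≤ y ∨ y' ≤ -I ∨ I = 0 := by (clear * - a0 a1 a2 b1 b2; omega)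
    rcases c with c | c | c | c | c
    · have d : (P : ℤ) ≤ v.1 + μ := by linarith [ml c]
      omega
    · have d : (P : ℤ) ≤ -v.1 + μ := by linarith [ml c]
      omega
    · have d : (P : ℤ) ≤ v.2 + μ := by linarith [ml c]
      omega
    · have d : (P : ℤ) ≤ -v.2 + μ := by linarith [ml c]
      omega
    · rw [hP, c]; simp
  · have d1 : v.1 ≤ Q + μ := by linarith [ml (show x' ≤ J by omega)]
    have d2 : -v.1 ≤ Q + μ := by linarith [ml (show -(J : ℤ) ≤ x by (clear * - a0 a1 a2 b1 b2; omega))]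
    have d3 : v.2 ≤ Q + μ := by linarith [ml (show y' ≤ J by omega)]
    have d4 : -v.2 ≤ Q + μ := by linarith [ml (show -(J : ℤ) ≤ y by (clear * - a0 a1 a2 b1 b2; omega))]
    omega

/-- On the inner layer the region consists of nodes and of bars along the layer. -/
theorem reg_col {v : Site} (hv : v ∈ reg μ Z) :
    ∃ u ∈ Z, ∃ u' ∈ Z, (u' = u ∨ GAdj u u') ∧
      4 * μ * min u.1 u'.1 - μ ≤ v.1 ∧ v.1 ≤ 4 * μ * max u.1 u'.1 + μ ∧
      4 * μ * min u.2 u'.2 - μ ≤ v.2 ∧ v.2 ≤ 4 * μ * max u.2 u'.2 + μ := by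
  obtain ⟨x, x', y, y', a1, a2, a0, a3, a4⟩ := reg_box hv
  refine ⟨(x, y), a3 _ le_rfl a1 le_rfl a2, (x', y'), a3 _ a1 le_rfl a2 le_rfl, ?_, ?_⟩
  · simp only [GAdj, Prod.mk.injEq]
    omega
  · simpa only [min_eq_left a1, min_eq_left a2, max_eq_right a1, max_eq_right a2] using a4

theorem pr_full {p c : ℝ} {N : ℕ} (h : RSW p c N) (hc : 0 ≤ c) (b : Bool) (hμ : 1 ≤ μ)
    (hN : 2 * μ ≤ N) (Zf : Finset Site) :
    c ^ (24 * Zf.card) ≤ pr (ber p) (ev b (Full μ Zf)) := by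
  have m0 : (0 : ℤ) ≤ μ := Int.natCast_nonneg μ
  have c1 : c ≤ 1 := h.le_one (by omega)
  have h2 : 1 ≤ 2 * μ := by omega
  rw [pow_mul]
  refine le_trans (harris_ev_pow (ber p) b Zf (Φ := fun u X =>
    LR X (4 * μ * u.1 - μ) (4 * μ * u.1 + μ) (4 * μ * u.2 - μ) (4 * μ * u.2 + μ) ∧
    TB X (4 * μ * u.1 - μ) (4 * μ * u.1 + μ) (4 * μ * u.2 - μ) (4 * μ * u.2 + μ) ∧
    LR X (4 * μ * u.1 - μ) (4 * μ * u.1 + 5 * μ) (4 * μ * u.2 - μ) (4 * μ * u.2 + μ) ∧
    TB X (4 * μ * u.1 - μ) (4 * μ * u.1 + μ) (4 * μ * u.2 - μ) (4 * μ * u.2 + 5 * μ))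
    (nbig_finite (μ := μ) Zf.finite_toSet) (fun u hu => ?_) (fun u _ => ?_) (pow_nonneg hc _)
    fun u _ => ?_) (pr_mono _ fun ω hω u hu => ?_)
  · have s : nbig μ u ⊆ ⋃ u ∈ (Zf : Set Site), nbig μ u :=
      Set.subset_biUnion_of_mem (u := fun u => nbig μ u) (Finset.mem_coe.2 hu)
    exact ((sup_LR _ _ _ _).mono ((node_sub_big u).trans s)).and
      (((sup_TB _ _ _ _).mono ((node_sub_big u).trans s)).and
        (((sup_LR _ _ _ _).mono ((hbar_sub_big u).trans s)).and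
          ((sup_TB _ _ _ _).mono ((vbar_sub_big u).trans s))))
  · exact (inc_LR _ _ _ _).and ((inc_TB _ _ _ _).and ((inc_LR _ _ _ _).and (inc_TB _ _ _ _)))
  · refine le_trans ?_ (rsw1_harris _ b (rsw1_IL_LR _ _ _ _) ((rsw1_IL_TB _ _ _ _).and
      ((rsw1_IL_LR _ _ _ _).and (rsw1_IL_TB _ _ _ _))) (by positivity)
      (h.lr hc b (k := 1) le_rfl h2 hN (by linarith) (by push_cast; linarith)
        (by push_cast; linarith))
      (rsw1_harris _ b (rsw1_IL_TB _ _ _ _) ((rsw1_IL_LR _ _ _ _).and (rsw1_IL_TB _ _ _ _))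
        (by positivity)
        (h.tb hc b (k := 1) le_rfl h2 hN (by linarith) (by push_cast; linarith)
          (by push_cast; linarith))
        (rsw1_harris _ b (rsw1_IL_LR _ _ _ _) (rsw1_IL_TB _ _ _ _) (by positivity)
          (h.lr hc b (k := 3) (by norm_num) h2 hN (by linarith) (by push_cast; linarith)
            (by push_cast; linarith))
          (h.tb hc b (k := 3) (by norm_num) h2 hN (by linarith) (by push_cast; linarith)
            (by push_cast; linarith)))))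
    rw [← pow_add, ← pow_add, ← pow_add]
    exact pow_le_pow_of_le_one hc c1 (by norm_num)
  · obtain ⟨k1, k2, k3, k4⟩ := hω u hu
    exact ⟨k1, k2, fun _ => k3, fun _ => k4⟩

end Pool.Agent.Work.MP_ccd212_pr
end

-- merged part: Pool.Agent.Work.MP_ccd212_pr.Port
section
/-! From separation to arms with ports. -/

namespace Pool.Agent.Work.MP_ccd212_pr

/-- The cyclic order only depends on the comparisons between consecutive entries. -/
theorem CCW.transfer {a b c d a' b' c' d' : ℤ} (h : CCW a b c d) (hab : a < b ↔ a' < b')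
    (hbc : b < c ↔ b' < c') (hcd : c < d ↔ c' < d') (hda : d < a ↔ d' < a') (h1 : a' ≠ b')
    (h2 : b' ≠ c') (h3 : c' ≠ d') (h4 : d' ≠ a') : CCW a' b' c' d' := by
  unfold CCW at h ⊢
  rcases h with h | h | h | h <;> (clear * - h h1 h2 h3 h4 hab hbc hcd hda; lia)

theorem Port_sd_sd (o : Bool) (a : Fin 4) (v : Site) : sd o a (sd o a v) = v := by
  cases o <;> exact syf_syf _ _

theorem Port_dst (o : Bool) (a : Fin 4) (c v : Site) : dst (sd o a c) (sd o a v) = dst c v := by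
  cases o <;> exact dst_syf _ _ _

theorem Port_dst0 (o : Bool) (a : Fin 4) (v : Site) : dst 0 (sd o a v) = dst 0 v := by
  cases o <;> exact dst_zero_syf _ _

theorem Port_map (o : Bool) (a : Fin 4) {S : Set Site} {x y : Site}
    (h : Conn (sd o a ⁻¹' S) x y) : Conn S (sd o a x) (sd o a y) := by
  cases o
  · exact Conn.map (sy (a + 2)) h
  · exact Conn.map (sy a) h

theorem Port_corner (o : Bool) (a : Fin 4) {n : ℕ} {c : Site} (h1 : c.1.natAbs = n)
    (h2 : c.2.natAbs = n) : (sd o a c).1.natAbs = n ∧ (sd o a c).2.natAbs = n := by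
  have key : ∀ i : Fin 4, (syf i c).1.natAbs = n ∧ (syf i c).2.natAbs = n := by
    intro i
    unfold syf
    split_ifs <;> simp [h1, h2]
  cases o <;> exact key _

theorem Port_side (o : Bool) {n : ℕ} {t : Site} (ht : dst 0 t = n) :
    ∃ a : Fin 4, (sd o a t).2 = row o n := by
  have h : t.1 = n ∨ t.2 = n ∨ t.1 = -n ∨ t.2 = -n := by
    simp only [dst, Prod.fst_zero, Prod.snd_zero] at ht
    omega
  rcases h with h | h | h | h
  · refine ⟨0, ?_⟩
    cases o
    · exact h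
    · exact congrArg Neg.neg h
  · refine ⟨1, ?_⟩
    cases o
    · exact h
    · exact congrArg Neg.neg h
  · refine ⟨2, ?_⟩
    cases o
    · exact (congrArg Neg.neg h).trans (neg_neg _)
    · exact h
  · refine ⟨3, ?_⟩
    cases o
    · exact (congrArg Neg.neg h).trans (neg_neg _)
    · exact h

/-- The last part of the arm crosses the side rectangle (canonical position). -/
theorem Port_cross {S D : Set Site} {o : Bool} {n m : ℕ} {e t : Site} (hm : 1 ≤ m)
    (hC : ∀ v, Conn (S ∩ D) e v → v ∈ qr (row o n) n m → v.1.natAbs + m < n)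
    (hD : ∀ v ∈ D, v ∉ beyond o n) (he : e ∉ qr (row o n) n m) (ht : t ∈ qr (row o n) n m)
    (hc : Conn (S ∩ D) e t) :
    ∃ u : Site, u.2 = row o n + m ∧ Conn (S ∩ D) e u ∧ Conn (S ∩ qr (row o n) n m) u t := by
  obtain ⟨u, w, h1, h2, h3, h4, h5⟩ :=
    hc.symm.first_hit (T := (qr (row o n) n m)ᶜ) (fun h => h ht) he
  have h1 : u ∈ qr (row o n) n m := not_not.1 h1
  have h6 : Conn (S ∩ D) e u := hc.trans (h4.mono Set.sdiff_subset)
  refine ⟨u, ?_, h6, h4.symm.mono fun v hv => ⟨hv.1.1, not_not.1 hv.2⟩⟩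
  have h7 := hC u h6 h1
  have h8 := hD w h5.left_mem.2
  have h9 : ¬ (-(n : ℤ) ≤ w.1 ∧ w.1 ≤ n ∧ row o n ≤ w.2 ∧ w.2 ≤ row o n + m) := h2
  have h10 : -(n : ℤ) ≤ u.1 ∧ u.1 ≤ n ∧ row o n ≤ u.2 ∧ u.2 ≤ row o n + m := h1
  have h11 : w.1 ≤ u.1 + 1 ∧ u.1 ≤ w.1 + 1 ∧ w.2 ≤ u.2 + 1 ∧ u.2 ≤ w.2 + 1 := by
    unfold Adj at h3
    omega
  cases o
  · have h12 : ¬ max (w.1 - 0).natAbs (w.2 - 0).natAbs < n := h8
    have h13 : row false n = n := rfl
    omega
  · have h12 : ¬ n < max (w.1 - 0).natAbs (w.2 - 0).natAbs := h8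
    have h13 : row true n = -n := rfl
    omega

/-- What one arm gets from separation. The arm lies in `X ∩ D`, where `D` is on the side of the
ring `n` opposite to the ports, it joins a point `e` far from the ring to the ring. -/
theorem port_of_arm {X D : Set Site} {o : Bool} {n m μ T : ℕ} (hμ : 1 ≤ μ) (hm : 16 ^ T * μ ≤ m)
    (hn : 8 * m ≤ n) (hQ : ∀ a : Fin 4, SepQ (sd o a ⁻¹' X) (row o n) n m μ T)
    (hC : ∀ c : Site, c.1.natAbs = n → c.2.natAbs = n → ¬ Arm X c (m + 1) (n / 4))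
    (hD : Disjoint D (beyond o n)) (hD' : ∀ a : Fin 4, sd o a ⁻¹' qr (row o n) n m ⊆ D)
    {e t : Site} (he : if o then dst 0 e ≤ n / 2 else 2 * n ≤ dst 0 e) (ht : dst 0 t = n)
    (hc : Conn (X ∩ D) e t) :
    ∃ (a : Fin 4) (z s u : Site) (j : ℤ) (k : ℕ), k < T ∧ z.2 = row o n ∧ z.1.natAbs + m < n ∧
      j * μ ≤ z.1 ∧ z.1 < j * μ + μ ∧ Conn (X ∩ D) e (sd o a z) ∧ u.2 = row o n + m ∧
      Conn (sd o a ⁻¹' X ∩ qr (row o n) n m) u z ∧
      s ∈ sd o a ⁻¹' pfar (row o n) (j * μ) (16 ^ k * μ) ∧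
      Conn (X ∩ (D ∪ sd o a ⁻¹' pb (row o n) (j * μ) (16 ^ k * μ))) e s ∧
      ∀ z' u' : Site, z'.2 = row o n → z.1 < z'.1 → z'.1 ≤ j * μ + 4 * (16 ^ k * μ : ℕ) →
        u'.2 = row o n + m → ¬ Conn ((sd o a ⁻¹' X)ᶜ ∩ qr (row o n) n m) u' z' := by
  have hm1 : 1 ≤ m := le_trans (Nat.mul_pos (by positivity) hμ) hm
  have hrow : (row o n).natAbs = n := by cases o <;> simp [row]
  have hcor : ∀ c v : Site, c.1.natAbs = n → c.2.natAbs = n → Conn (X ∩ D) e v →
      m + 1 ≤ dst c v := by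
    intro c v h1 h2 hv
    by_contra hlt
    refine hC c h1 h2 ((hv.symm.mono Set.inter_subset_left).arm (by omega)
      (Or.inl (not_le.1 hlt)) ?_)
    have h3 := dst_triangle 0 c e
    have h4 := dst_triangle 0 e c
    have h5 := dst_comm c e
    have h6 : dst 0 c = n := by
      simp only [dst, Prod.fst_zero, Prod.snd_zero, sub_zero, h1, h2, max_self]
    cases o
    · have h7 : 2 * n ≤ dst 0 e := he
      omega
    · have h7 : dst 0 e ≤ n / 2 := he
      omega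
  obtain ⟨a, ha⟩ := Port_side o ht
  have hback : ∀ {S : Set Site} {v : Site}, Conn (sd o a ⁻¹' S) (sd o a e) v →
      Conn S e (sd o a v) := fun h => by
    have := Port_map o a h
    rwa [Port_sd_sd] at this
  have hc' : Conn (sd o a ⁻¹' X ∩ sd o a ⁻¹' D) (sd o a e) (sd o a t) :=
    Port_map o a (hc.mono fun v hv => by
      simpa only [Set.mem_preimage, Set.mem_inter_iff, Port_sd_sd] using hv)
  have hfar : ∀ v, Conn (sd o a ⁻¹' X ∩ sd o a ⁻¹' D) (sd o a e) v →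
      v ∈ qr (row o n) n m → v.1.natAbs + m < n := by
    intro v hv hq
    have hq' : -(n : ℤ) ≤ v.1 ∧ v.1 ≤ n ∧ row o n ≤ v.2 ∧ v.2 ≤ row o n + m := hq
    have key : ∀ x : ℤ, x.natAbs = n →
        m + 1 ≤ max (v.1 - x).natAbs (v.2 - row o n).natAbs := by
      intro x hx
      obtain ⟨h1, h2⟩ := Port_corner o a (c := (x, row o n)) hx hrow
      have h3 := hcor _ _ h1 h2 (hback (S := X ∩ D) hv)
      rwa [Port_dst] at h3
    have h1 := key n (by simp)
    have h2 := key (-n) (by simp)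
    omega
  have hsub : qr (row o n) n m ⊆ sd o a ⁻¹' D := fun v hv =>
    hD' a (by simpa only [Set.mem_preimage, Port_sd_sd] using hv)
  have ht' : sd o a t ∈ qr (row o n) n m := by
    have h1 : max ((sd o a t).1 - 0).natAbs ((sd o a t).2 - 0).natAbs = n :=
      (Port_dst0 o a t).trans ht
    change -(n : ℤ) ≤ _ ∧ _ ≤ (n : ℤ) ∧ row o n ≤ _ ∧ _ ≤ row o n + m
    omega
  have he' : sd o a e ∉ qr (row o n) n m := by
    intro hq
    have hq' : -(n : ℤ) ≤ (sd o a e).1 ∧ (sd o a e).1 ≤ n ∧ row o n ≤ (sd o a e).2 ∧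
      (sd o a e).2 ≤ row o n + m := hq
    have h1 : max ((sd o a e).1 - 0).natAbs ((sd o a e).2 - 0).natAbs = dst 0 e :=
      Port_dst0 o a e
    generalize sd o a e = w at hq' h1
    cases o
    · have h7 : 2 * n ≤ dst 0 e := he
      have h13 : row false n = n := rfl
      omega
    · have h7 : dst 0 e ≤ n / 2 := he
      have h13 : row true n = -n := rfl
      omega
  obtain ⟨u, hu, h1, h2⟩ := Port_cross hm1 hfar (fun v hv hb => Set.disjoint_left.1 hD hv (by
    have h3 := Port_dst0 o a v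
    simpa only [beyond, Set.mem_ofPred_eq, h3] using hb)) he' ht' hc'
  have hup : ∀ v, Conn (sd o a ⁻¹' X ∩ qr (row o n) n m) u v →
      Conn (sd o a ⁻¹' X ∩ sd o a ⁻¹' D) (sd o a e) v := fun v hv =>
    h1.trans (hv.mono (Set.inter_subset_inter_right _ hsub))
  obtain ⟨z, s, j, k, hk, hz, h3, h4, h5, h6, h7, h8⟩ := hQ a u _ hu ha h2 fun v hv =>
    hfar v (hup v hv) hv.right_mem.2
  refine ⟨a, z, sd o a s, u, j, k, hk, hz, hfar z (hup z h3) h3.right_mem.2, h4, h5,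
    hback (S := X ∩ D) (hup z h3), hu, h3, ?_, hback (((hup z h3).mono fun v hv => ?_).trans
      (h7.mono fun v hv => ?_)), h8⟩
  · simpa only [Set.mem_preimage, Port_sd_sd] using h6
  · exact ⟨hv.1, Or.inl hv.2⟩
  · refine ⟨hv.1, hv.2.imp (fun h => hsub h) fun h => ?_⟩
    simpa only [Set.mem_preimage, Port_sd_sd] using h

end Pool.Agent.Work.MP_ccd212_pr
end

-- merged part: Pool.Agent.Work.MP_ccd212_pr.Port2
section
/-! Four separated arms have admissible ports. -/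

namespace Pool.Agent.Work.MP_ccd212_pr

/-- The landing data of one arm. -/
def Port2_L (X D : Set Site) (o : Bool) (n m μ T : ℕ) (e : Site) (a : Fin 4) (z s u : Site)
    (j : ℤ) (k : ℕ) : Prop :=
  k < T ∧ z.2 = row o n ∧ z.1.natAbs + m < n ∧
    j * μ ≤ z.1 ∧ z.1 < j * μ + μ ∧ Conn (X ∩ D) e (sd o a z) ∧ u.2 = row o n + m ∧
    Conn (sd o a ⁻¹' X ∩ qr (row o n) n m) u z ∧
    s ∈ sd o a ⁻¹' pfar (row o n) (j * μ) (16 ^ k * μ) ∧
    Conn (X ∩ (D ∪ sd o a ⁻¹' pb (row o n) (j * μ) (16 ^ k * μ))) e s ∧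
    ∀ z' u' : Site, z'.2 = row o n → z.1 < z'.1 → z'.1 ≤ j * μ + 4 * (16 ^ k * μ : ℕ) →
      u'.2 = row o n + m → ¬ Conn ((sd o a ⁻¹' X)ᶜ ∩ qr (row o n) n m) u' z'

/-- The boundary position of a point of the side `a`. -/
def Port2_R (o : Bool) (a : Fin 4) (n : ℕ) (x : ℤ) : ℤ :=
  (2 * a.val + 1) * n + if o = decide (a.val % 2 = 0) then -x else x

theorem Port2_ridx (o : Bool) (a : Fin 4) {n : ℕ} {x : ℤ} (h : x.natAbs < n) :
    ridx n (sd o a (x, row o n)) = Port2_R o a n x := by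
  cases o <;> fin_cases a <;> simp [ridx, idx, sd, syf, row, Port2_R] <;> omega

theorem Port2_cmp (o : Bool) (a a' : Fin 4) {n : ℕ} {x y x' y' : ℤ} (hx : x.natAbs < n)
    (hy : y.natAbs < n) (hx' : x'.natAbs < n) (hy' : y'.natAbs < n)
    (h : a = a' → (x < x' ∧ y < y') ∨ (x' < x ∧ y' < y)) :
    (Port2_R o a n x < Port2_R o a' n x' ↔ Port2_R o a n y < Port2_R o a' n y') ∧
      Port2_R o a n y ≠ Port2_R o a' n y' := by
  replace hx : -(n : ℤ) < x ∧ x < n := by omega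
  replace hy : -(n : ℤ) < y ∧ y < n := by omega
  replace hx' : -(n : ℤ) < x' ∧ x' < n := by omega
  replace hy' : -(n : ℤ) < y' ∧ y' < n := by omega
  by_cases e : a = a'
  · subst e
    have := h rfl
    unfold Port2_R
    generalize (2 * (a.val : ℤ) + 1) * n = c
    split_ifs <;> omega
  · clear h
    cases o <;> fin_cases a <;> fin_cases a' <;> simp [Port2_R] at e ⊢ <;> omega

theorem Port2_cs_ne (S : Set Site) {i j : Fin 4} (h : i.val % 2 ≠ j.val % 2) :
    cs S j = (cs S i)ᶜ := by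
  unfold cs
  split_ifs with h1 h2 h2
  · omega
  · rw [compl_compl]
  · rfl
  · omega

theorem Port2_size {X D : Set Site} {o : Bool} {n m μ T : ℕ} (hμ : 1 ≤ μ) (hm : 16 ^ T * μ ≤ m)
    {e : Site} {a : Fin 4} {z s u : Site} {j : ℤ} {k : ℕ}
    (h : Port2_L X D o n m μ T e a z s u j k) :
    μ ≤ 16 ^ k * μ ∧ 16 * (16 ^ k * μ) ≤ m ∧ (j * μ).natAbs + m ≤ n + μ ∧
      -((n / μ : ℕ) : ℤ) - 1 ≤ j ∧ j ≤ (n / μ : ℕ) + 1 := by
  obtain ⟨hk, -, h1, h2, h3, -⟩ := h
  have h4 : 16 ^ (k + 1) * μ ≤ m :=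
    (Nat.mul_le_mul_right μ (Nat.pow_le_pow_right (by norm_num) hk)).trans hm
  have h5 : (n : ℤ) < ((n / μ : ℕ) + 1) * μ := by
    have := Nat.lt_div_mul_add (a := n) hμ
    rw [add_mul, one_mul]
    exact_mod_cast this
  have h6 : (0 : ℤ) < μ := by exact_mod_cast hμ
  refine ⟨Nat.le_mul_of_pos_left μ (by positivity), ?_, by omega, ?_, ?_⟩
  · rwa [pow_succ', mul_assoc] at h4
  · have h7 : -(((n / μ : ℕ) : ℤ) + 1) * μ < (j + 1) * μ := by
      rw [neg_mul, add_mul j, one_mul]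
      omega
    have := lt_of_mul_lt_mul_right h7 h6.le
    omega
  · have h7 : j * μ < (((n / μ : ℕ) : ℤ) + 1) * μ := by omega
    exact (lt_of_mul_lt_mul_right h7 h6.le).le

theorem Port2_sep {X D : Set Site} {o : Bool} {n m μ T : ℕ} (hμ : 1 ≤ μ) (hm : 16 ^ T * μ ≤ m)
    {e e' : Site} {a : Fin 4} {z s u z' s' u' : Site} {j j' : ℤ} {k k' : ℕ}
    (h : Port2_L X D o n m μ T e a z s u j k) (h' : Port2_L Xᶜ D o n m μ T e' a z' s' u' j' k')
    (hz : z.1 < z'.1) : j * μ + 2 * (16 ^ k * μ : ℕ) < j' * μ + (16 ^ k' * μ : ℕ) := by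
  have h1 := (Port2_size hμ hm h').1
  obtain ⟨-, a2, -, -, a5, -, a7, a8, -⟩ := h'
  have h2 : ¬ z'.1 ≤ j * μ + 4 * (16 ^ k * μ : ℕ) := fun h2 =>
    h.2.2.2.2.2.2.2.2.2.2 z' u' a2 hz h2 a7 a8
  omega

theorem Port2_order {S D : Set Site} {o : Bool} {n m μ T : ℕ} (hμ : 1 ≤ μ) (hm : 16 ^ T * μ ≤ m)
    {e : Fin 4 → Site} {a : Fin 4 → Fin 4} {z s u : Fin 4 → Site} {j : Fin 4 → ℤ}
    {k : Fin 4 → ℕ}
    (h : ∀ i, Port2_L (cs S i) D o n m μ T (e i) (a i) (z i) (s i) (u i) (j i) (k i))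
    {i l : Fin 4} (hp : i.val % 2 ≠ l.val % 2) (ha : a i = a l) :
    ((z i).1 < (z l).1 ∧ j i * μ + 2 * (16 ^ k i * μ : ℕ) < j l * μ + (16 ^ k l * μ : ℕ)) ∨
      ((z l).1 < (z i).1 ∧ j l * μ + 2 * (16 ^ k l * μ : ℕ) < j i * μ + (16 ^ k i * μ : ℕ)) := by
  have hi := h i
  have hl := h l
  rcases lt_trichotomy (z i).1 (z l).1 with h1 | h1 | h1
  · rw [Port2_cs_ne S hp, ← ha] at hl
    exact Or.inl ⟨h1, Port2_sep hμ hm hi hl h1⟩
  · have h2 : z i = z l := Prod.ext h1 (hi.2.1.trans hl.2.1.symm)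
    have h3 := hi.2.2.2.2.2.1.right_mem.1
    have h4 := hl.2.2.2.2.2.1.right_mem.1
    rw [Port2_cs_ne S hp, ← ha, ← h2] at h4
    exact absurd h3 h4
  · rw [Port2_cs_ne S hp.symm, ha] at hi
    exact Or.inr ⟨h1, Port2_sep hμ hm hl hi h1⟩

theorem Port2_core {S D : Set Site} {o : Bool} {n m μ T : ℕ} (hμ : 1 ≤ μ) (hm : 16 ^ T * μ ≤ m)
    {E : (Fin 4 → Site) → Prop} {e : Fin 4 → Site} (he : E e) {a : Fin 4 → Fin 4}
    {z s u : Fin 4 → Site} {j : Fin 4 → ℤ} {k : Fin 4 → ℕ}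
    (h : ∀ i, Port2_L (cs S i) D o n m μ T (e i) (a i) (z i) (s i) (u i) (j i) (k i))
    (hc : CCW (ridx n (sd o (a 0) (z 0))) (ridx n (sd o (a 1) (z 1)))
      (ridx n (sd o (a 2) (z 2))) (ridx n (sd o (a 3) (z 3)))) :
    ∃ q ∈ qTypes n μ T, ValidQ o n m μ q ∧ ArmsP S D E (port o n q) (far o n q) := by
  have hs := fun i => Port2_size hμ hm (h i)
  have hz : ∀ i, (z i).1.natAbs < n := fun i => by
    have := (h i).2.2.1
    omega
  have hy : ∀ i, (j i * μ + (16 ^ k i * μ : ℕ)).natAbs < n := fun i => by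
    have := hs i
    omega
  have hr : ∀ i, ridx n (sd o (a i) (z i)) = Port2_R o (a i) n (z i).1 := fun i => by
    rw [← Port2_ridx o (a i) (hz i), ← (h i).2.1]
  have key : ∀ i l : Fin 4, i.val % 2 ≠ l.val % 2 →
      (ridx n (sd o (a i) (z i)) < ridx n (sd o (a l) (z l)) ↔
        pkey o n (fun i => (a i, j i * μ, 16 ^ k i * μ)) i <
          pkey o n (fun i => (a i, j i * μ, 16 ^ k i * μ)) l) ∧
      pkey o n (fun i => (a i, j i * μ, 16 ^ k i * μ)) i ≠
        pkey o n (fun i => (a i, j i * μ, 16 ^ k i * μ)) l := by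
    intro i l hp
    simp only [pkey]
    rw [hr, hr, Port2_ridx o _ (hy i), Port2_ridx o _ (hy l)]
    refine Port2_cmp o _ _ (hz i) (hy i) (hz l) (hy l) fun ha => ?_
    have := Port2_order hμ hm h hp ha
    omega
  refine ⟨fun i => (a i, j i * μ, 16 ^ k i * μ), ?_,
    ⟨fun i => ⟨(hs i).1, (hs i).2.1, (hs i).2.2.1⟩, fun i l hp ha => ?_, ?_⟩, e, s, he,
    fun i => ⟨(h i).2.2.2.2.2.1.left_mem.2, (h i).2.2.2.2.2.2.2.2.1, (h i).2.2.2.2.2.2.2.2.2.1⟩⟩
  · refine Fintype.mem_piFinset.2 fun i => Finset.mem_product.2 ⟨Finset.mem_univ _,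
      Finset.mem_product.2 ⟨Finset.mem_image.2 ⟨j i, Finset.mem_Icc.2 (hs i).2.2.2, rfl⟩,
        Finset.mem_image.2 ⟨k i, Finset.mem_range.2 (h i).1, rfl⟩⟩⟩
  · exact (Port2_order hμ hm h hp ha).imp And.right And.right
  · exact hc.transfer (key 0 1 (by decide)).1 (key 1 2 (by decide)).1 (key 2 3 (by decide)).1
      (key 3 0 (by decide)).1 (key 0 1 (by decide)).2 (key 1 2 (by decide)).2
      (key 2 3 (by decide)).2 (key 3 0 (by decide)).2

theorem Port2_dst (o : Bool) (a : Fin 4) (v : Site) : dst 0 (sd o a v) = dst 0 v := by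
  cases o <;> exact dst_zero_syf _ _

theorem Port2_sd_sd (o : Bool) (a : Fin 4) (v : Site) : sd o a (sd o a v) = v := by
  cases o <;> exact syf_syf _ _

theorem Port2_land (o : Bool) (a : Fin 4) {n : ℕ} {z : Site} (h1 : z.2 = row o n)
    (h2 : z.1.natAbs + 2 ≤ n) : dst 0 (sd o a z) = n ∧
      ((sd o a z).1.natAbs + 2 ≤ n ∨ (sd o a z).2.natAbs + 2 ≤ n) := by
  constructor
  · rw [Port2_dst]
    cases o <;> simp only [row, dst, Prod.fst_zero, Prod.snd_zero, sub_zero] at h1 ⊢ <;>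
      simp at h1 <;> omega
  · cases o <;> fin_cases a <;> simp [sd, syf, h2]

theorem Port2_main {S D : Set Site} {o : Bool} {n m μ T : ℕ} (hμ : 1 ≤ μ) (hm : 16 ^ T * μ ≤ m)
    (hn : 8 * m ≤ n) (hS : SepAll S o n m μ T) (hD : Disjoint D (beyond o n))
    (hD' : ∀ a : Fin 4, sd o a ⁻¹' qr (row o n) n m ⊆ D) {E : (Fin 4 → Site) → Prop}
    {e t : Fin 4 → Site} (he : E e) (he' : E ![e 0, e 3, e 2, e 1])
    (h1 : ∀ i, if o then dst 0 (e i) ≤ n / 2 else 2 * n ≤ dst 0 (e i))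
    (ht : ∀ i, dst 0 (t i) = n) (hc : ∀ i, Conn (cs S i ∩ D) (e i) (t i))
    (halt : ∀ p : Fin 4 → Site,
      (∀ i, dst 0 (p i) = n ∧ ((p i).1.natAbs + 2 ≤ n ∨ (p i).2.natAbs + 2 ≤ n)) →
      (∀ i, Conn (cs S i ∩ D) (e i) (p i)) →
      Alt (ridx n (p 0)) (ridx n (p 1)) (ridx n (p 2)) (ridx n (p 3))) :
    ∃ q ∈ qTypes n μ T, ValidQ o n m μ q ∧ ArmsP S D E (port o n q) (far o n q) := by
  have hm1 : 1 ≤ m := (Nat.mul_pos (by positivity) hμ).trans_le hm
  have h : ∀ i, ∃ a z s u j k, Port2_L (cs S i) D o n m μ T (e i) a z s u j k := by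
    intro i
    refine port_of_arm hμ hm hn (fun a => ?_) (fun c c1 c2 => ?_) hD hD' (h1 i) (ht i) (hc i)
    · unfold cs
      split_ifs
      · exact (hS.1 a).1
      · exact (hS.1 a).2
    · unfold cs
      split_ifs
      · exact (hS.2 c c1 c2).1
      · exact (hS.2 c c1 c2).2
  choose a z s u j k h using h
  rcases halt (fun i => sd o (a i) (z i))
    (fun i => Port2_land o _ (h i).2.1 (by have := (h i).2.2.1; omega))
    (fun i => (h i).2.2.2.2.2.1) with h2 | h2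
  · exact Port2_core hμ hm he h h2
  · refine Port2_core hμ hm he' (a := ![a 0, a 3, a 2, a 1]) (z := ![z 0, z 3, z 2, z 1])
      (s := ![s 0, s 3, s 2, s 1]) (u := ![u 0, u 3, u 2, u 1]) (j := ![j 0, j 3, j 2, j 1])
      (k := ![k 0, k 3, k 2, k 1]) (fun i => ?_) h2
    fin_cases i
    · exact h 0
    · exact h 3
    · exact h 2
    · exact h 1

theorem armsOut_of_sep {S : Set Site} {r n m μ T : ℕ} (hr : 1 ≤ r) (hrn : r ≤ n / 2)
    (hμ : 1 ≤ μ) (hm : 16 ^ T * μ ≤ m) (hn : 8 * m ≤ n) (h : Two S 0 r n)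
    (hS : SepAll S true n m μ T) :
    ∃ q ∈ qTypes n μ T, ValidQ true n m μ q ∧ ArmsOut S r n q := by
  obtain ⟨e, z, he, hz, hc⟩ := arms4_of_two hr (by omega) h
  have hc' := hc
  rw [Dom_ball] at hc'
  refine Port2_main hμ hm hn hS (Set.disjoint_left.2 fun v hv hv' => ?_) (fun a v hv => ?_) he
    (fun i => ?_) (fun i => ?_) (fun i => onBd_ball.1 (hz.1 i)) hc' fun p hp hp' => ?_
  · simp only [beyond, mem_ann, if_true, Set.mem_ofPred_eq] at hv hv'
    omega
  · rw [mem_ann, ← Port2_dst true a]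
    simp only [Set.mem_preimage, qr, row, if_true, mem_rect] at hv
    simp only [dst, Prod.fst_zero, Prod.snd_zero, sub_zero]
    omega
  · fin_cases i
    · exact he 0
    · exact he 3
    · exact he 2
    · exact he 1
  · rw [if_pos rfl, (he i).1]
    exact hrn
  · rw [← Dom_ball] at hp'
    exact (altT_move hr ⟨by omega, by omega, by omega, by omega⟩ he hz hc
      (fun i => onBd_ball.2 (hp i).1) fun i => (hc i).symm.trans (hp' i)).2

theorem armsIn_of_sep {S : Set Site} {x1 x2 y1 y2 : ℤ} {n m μ T : ℕ} (hμ : 1 ≤ μ)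
    (hm : 16 ^ T * μ ≤ m) (hn : 8 * m ≤ n) (hB : Big x1 x2 y1 y2 (2 * n))
    {Tg : (Fin 4 → Site) → Prop} (hT : ∀ z, Tg z → AltT x1 x2 y1 y2 z)
    (hT' : ∀ z, Tg z → Tg ![z 0, z 3, z 2, z 1]) (h : Arms4 S x1 x2 y1 y2 n Tg)
    (hS : SepAll S false n m μ T) :
    ∃ q ∈ qTypes n μ T, ValidQ false n m μ q ∧ ArmsIn S x1 x2 y1 y2 n Tg q := by
  obtain ⟨e, z, he, hz, hc⟩ := h
  have hm1 : 1 ≤ m := (Nat.mul_pos (by positivity) hμ).trans_le hm
  obtain ⟨b1, b2, b3, b4⟩ := hB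
  refine Port2_main hμ hm hn hS (Set.disjoint_left.2 fun v hv hv' => ?_) (fun a v hv => ?_) hz
    (hT' z hz) (fun i => ?_) (fun i => (he i).1) (fun i => (hc i).symm) fun p hp hp' => ?_
  · have h1 : n ≤ dst 0 v := hv.2
    have h2 : dst 0 v < n := hv'
    omega
  · have h1 : n ≤ dst 0 v ∧ dst 0 v ≤ 2 * n := by
      rw [← Port2_dst false a]
      simp only [Set.mem_preimage, qr, row, Bool.false_eq_true, if_false, mem_rect] at hv
      simp only [dst, Prod.fst_zero, Prod.snd_zero, sub_zero]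
      omega
    refine ⟨?_, h1.1⟩
    simp only [dst, Prod.fst_zero, Prod.snd_zero, sub_zero] at h1
    rw [mem_rect]
    omega
  · have h1 := ((hT z hz).1 i).2
    rw [if_neg Bool.false_ne_true]
    simp only [dst, Prod.fst_zero, Prod.snd_zero, sub_zero]
    omega
  · exact alt_inner (by omega) ⟨by omega, by omega, by omega, by omega⟩ hp (hT z hz)
      fun i => (hp' i).symm

theorem AltT.swap {x1 x2 y1 y2 : ℤ} {z : Fin 4 → Site} (h : AltT x1 x2 y1 y2 z) :
    AltT x1 x2 y1 y2 ![z 0, z 3, z 2, z 1] := by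
  refine ⟨fun i => ?_, h.2.symm⟩
  fin_cases i
  · exact h.1 0
  · exact h.1 3
  · exact h.1 2
  · exact h.1 1

theorem PivT.swap {x1 x2 y1 y2 : ℤ} {z : Fin 4 → Site} (h : PivT x1 x2 y1 y2 z) :
    PivT x1 x2 y1 y2 ![z 0, z 3, z 2, z 1] :=
  ⟨h.1.swap, h.2.1, h.2.2.1, h.2.2.2.symm.imp And.symm And.symm⟩

end Pool.Agent.Work.MP_ccd212_pr
end
end
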