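import Pool.Agent.Work.MP_ccd212_pr.Top5
import Pool.Agent.Work.MP_ccd212_pr.Piv2

/-! Routing four disjoint grid paths through fifteen concentric layers. -/

namespace Pool.Agent.Work.MP_ccd212_pr

/-- Four increasing positions inside one period. -/
def Adm4 (M : ℤ) (P : Fin 4 → ℤ) : Prop := P 0 < P 1 ∧ P 1 < P 2 ∧ P 2 < P 3 ∧ P 3 < P 0 + M

/-- The four intervals swept from `P` to `P'` are disjoint modulo `M`. -/
def Step4 (M : ℤ) (P P' : Fin 4 → ℤ) : Prop :=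
  max (P 0) (P' 0) < min (P 1) (P' 1) ∧ max (P 1) (P' 1) < min (P 2) (P' 2) ∧
  max (P 2) (P' 2) < min (P 3) (P' 3) ∧ max (P 3) (P' 3) < min (P 0) (P' 0) + M

theorem cyl_route {M : ℤ} (hM : 8 ≤ M) {P P' : Fin 4 → ℤ} (h : Adm4 M P) (h' : Adm4 M P') :
    ∃ (Q : ℕ → Fin 4 → ℤ) (t : ℤ), Q 0 = P ∧ (∀ i, Q 15 i = P' i + t * M) ∧
      ∀ k < 15, Step4 M (Q k) (Q (k + 1)) := by
  obtain ⟨h1, h2, h3, h4⟩ := h
  obtain ⟨h1', h2', h3', h4'⟩ := h'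
  have e := Int.emod_add_mul_ediv (P' 0 - P 0) M
  have r1 := Int.emod_nonneg (P' 0 - P 0) (by omega : M ≠ 0)
  have r2 := Int.emod_lt_of_pos (P' 0 - P 0) (by omega : 0 < M)
  by_cases hc : (P' 0 - P 0) % M ≤ M - 4
  · obtain ⟨t, ht1, ht2⟩ : ∃ t : ℤ, P 0 ≤ P' 0 + t * M ∧ P' 0 + t * M ≤ P 0 + M - 4 := by
      refine ⟨-((P' 0 - P 0) / M), ?_, ?_⟩ <;> linarith
    refine ⟨fun k => [P, ![P 0, P 1, P 2, P 0 + M - 1], ![P 0, P 1, P 0 + M - 2, P 0 + M - 1],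
      ![P 0, P 0 + M - 3, P 0 + M - 2, P 0 + M - 1],
      ![P' 0 + t * M, P 0 + M - 3, P 0 + M - 2, P 0 + M - 1],
      ![P' 0 + t * M, P 0 + M - 3, P 0 + M - 2, P' 0 + t * M + M - 1],
      ![P' 0 + t * M, P 0 + M - 3, P' 0 + t * M + M - 2, P' 0 + t * M + M - 1],
      ![P' 0 + t * M, P' 0 + t * M + M - 3, P' 0 + t * M + M - 2, P' 0 + t * M + M - 1],
      ![P' 0 + t * M, P' 1 + t * M, P' 0 + t * M + M - 2, P' 0 + t * M + M - 1],
      ![P' 0 + t * M, P' 1 + t * M, P' 2 + t * M, P' 0 + t * M + M - 1]].getD k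
      fun i => P' i + t * M, t, rfl, fun i => rfl, fun k hk => ?_⟩
    generalize t * M = T at *
    interval_cases k <;> simp only [Step4, List.getD_cons_zero, List.getD_cons_succ,
      List.getD_nil, Nat.reduceAdd, Matrix.cons_val_zero, Matrix.cons_val_one,
      Matrix.cons_val] <;> omega
  · obtain ⟨t, ht1, ht2⟩ : ∃ t : ℤ, P 0 - 3 ≤ P' 0 + t * M ∧ P' 0 + t * M ≤ P 0 := by
      refine ⟨-((P' 0 - P 0) / M) - 1, ?_, ?_⟩ <;> linarith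
    refine ⟨fun k => [P, ![P 0, P 1, P 2, P 0 + M - 1], ![P 0, P 1, P 0 + M - 2, P 0 + M - 1],
      ![P 0, P 0 + M - 3, P 0 + M - 2, P 0 + M - 1],
      ![P 0, P' 0 + t * M + M - 3, P 0 + M - 2, P 0 + M - 1],
      ![P 0, P' 0 + t * M + M - 3, P' 0 + t * M + M - 2, P 0 + M - 1],
      ![P 0, P' 0 + t * M + M - 3, P' 0 + t * M + M - 2, P' 0 + t * M + M - 1],
      ![P' 0 + t * M, P' 0 + t * M + M - 3, P' 0 + t * M + M - 2, P' 0 + t * M + M - 1],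
      ![P' 0 + t * M, P' 1 + t * M, P' 0 + t * M + M - 2, P' 0 + t * M + M - 1],
      ![P' 0 + t * M, P' 1 + t * M, P' 2 + t * M, P' 0 + t * M + M - 1]].getD k
      fun i => P' i + t * M, t, rfl, fun i => rfl, fun k hk => ?_⟩
    generalize t * M = T at *
    interval_cases k <;> simp only [Step4, List.getD_cons_zero, List.getD_cons_succ,
      List.getD_nil, Nat.reduceAdd, Matrix.cons_val_zero, Matrix.cons_val_one,
      Matrix.cons_val] <;> omega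

/-! ### Grid connections -/

theorem Route_adj_symm {a b : Site} (h : GAdj a b) : GAdj b a := by
  unfold GAdj at *
  omega

theorem Route_refl {Z : Set Site} {a : Site} (h : a ∈ Z) : GConn Z a a :=
  ⟨h, Relation.ReflTransGen.refl⟩

theorem Route_right {Z : Set Site} {a b : Site} (h : GConn Z a b) : b ∈ Z := by
  obtain ⟨h1, h2⟩ := h
  induction h2 with
  | refl => exact h1
  | tail _ h _ => exact h.2

theorem Route_trans {Z : Set Site} {a b c : Site} (h : GConn Z a b) (h' : GConn Z b c) :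
    GConn Z a c := ⟨h.1, h.2.trans h'.2⟩

theorem Route_tail {Z : Set Site} {a b c : Site} (h : GConn Z a b) (h' : GAdj b c) (hc : c ∈ Z) :
    GConn Z a c := ⟨h.1, h.2.tail ⟨h', hc⟩⟩

theorem Route_symm {Z : Set Site} {a b : Site} (h : GConn Z a b) : GConn Z b a := by
  obtain ⟨h1, h2⟩ := h
  induction h2 with
  | refl => exact Route_refl h1
  | tail h3 h ih =>
    exact Route_trans (Route_tail (Route_refl h.2) (Route_adj_symm h.1) (Route_right ⟨h1, h3⟩)) ih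

theorem Route_ver {Z : Set Site} {x y1 y2 : ℤ} (h : y1 ≤ y2)
    (hZ : ∀ y, y1 ≤ y → y ≤ y2 → (x, y) ∈ Z) : GConn Z (x, y1) (x, y2) := by
  induction y2, h using Int.leInduction with
  | base => exact Route_refl (hZ _ le_rfl le_rfl)
  | succ y hy ih =>
    refine Route_tail (ih fun z h1 h2 => hZ z h1 (by omega)) ?_ (hZ _ (by omega) le_rfl)
    simp [GAdj]

theorem Route_hor {Z : Set Site} {y x1 x2 : ℤ} (h : x1 ≤ x2)
    (hZ : ∀ x, x1 ≤ x → x ≤ x2 → (x, y) ∈ Z) : GConn Z (x1, y) (x2, y) := by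
  induction x2, h using Int.leInduction with
  | base => exact Route_refl (hZ _ le_rfl le_rfl)
  | succ x hx ih =>
    refine Route_tail (ih fun z h1 h2 => hZ z h1 (by omega)) ?_ (hZ _ (by omega) le_rfl)
    simp [GAdj]

/-! ### Positions -/

/-- Angular position, with the corners collapsed. -/
def Rpos (ρ : ℤ) (v : Site) : ℤ :=
  if ρ < v.1 then (if v.2 < -ρ then 8 * ρ + 3 else if v.2 ≤ ρ then v.2 + ρ else 2 * ρ)
  else if -ρ ≤ v.1 then (if 0 < v.2 then 3 * ρ + 1 - v.1 else 7 * ρ + 3 + v.1)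
  else (if ρ < v.2 then 4 * ρ + 1 else if -ρ ≤ v.2 then 5 * ρ + 2 - v.2 else 6 * ρ + 2)

/-- Points of the ring `n` with small tangential coordinate. -/
def Rcan (ρ n : ℤ) (v : Site) : Prop :=
  (v.1 = n ∧ -ρ ≤ v.2 ∧ v.2 ≤ ρ) ∨ (v.2 = n ∧ -ρ ≤ v.1 ∧ v.1 ≤ ρ) ∨
  (v.1 = -n ∧ -ρ ≤ v.2 ∧ v.2 ≤ ρ) ∨ (v.2 = -n ∧ -ρ ≤ v.1 ∧ v.1 ≤ ρ)

theorem Route_dst (x y : ℤ) : (dst 0 (x, y) : ℤ) = max |x| |y| := by
  simp [dst]

theorem Route_can_dst {ρ n : ℤ} (hn : ρ < n) {v : Site} (h : Rcan ρ n v) : (dst 0 v : ℤ) = n := by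
  obtain ⟨x, y⟩ := v
  simp only [Rcan, dst, Prod.fst_zero, Prod.snd_zero, sub_zero] at h ⊢
  omega

theorem Route_spec {ρ n : ℤ} (hρ : 0 ≤ ρ) (hn : ρ < n) {v : Site} (h : Rcan ρ n v) :
    (v.1 = n ∧ Rpos ρ v = v.2 + ρ ∧ -ρ ≤ v.2 ∧ v.2 ≤ ρ) ∨
    (v.2 = n ∧ Rpos ρ v = 3 * ρ + 1 - v.1 ∧ -ρ ≤ v.1 ∧ v.1 ≤ ρ) ∨
    (v.1 = -n ∧ Rpos ρ v = 5 * ρ + 2 - v.2 ∧ -ρ ≤ v.2 ∧ v.2 ≤ ρ) ∨
    (v.2 = -n ∧ Rpos ρ v = 7 * ρ + 3 + v.1 ∧ -ρ ≤ v.1 ∧ v.1 ≤ ρ) := by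
  unfold Rpos
  rcases h with h | h | h | h
  · left
    split_ifs <;> omega
  · right; left
    split_ifs <;> omega
  · right; right; left
    split_ifs <;> omega
  · right; right; right
    split_ifs <;> omega

theorem Route_range {ρ n : ℤ} (hρ : 0 ≤ ρ) (hn : ρ < n) {v : Site} (h : Rcan ρ n v) :
    0 ≤ Rpos ρ v ∧ Rpos ρ v < 8 * ρ + 4 := by
  have := Route_spec hρ hn h
  omega

theorem Route_inj {ρ n : ℤ} (hρ : 0 ≤ ρ) (hn : ρ < n) {v w : Site} (h : Rcan ρ n v)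
    (h' : Rcan ρ n w) (e : Rpos ρ v = Rpos ρ w) : v = w := by
  have h1 := Route_spec hρ hn h
  have h2 := Route_spec hρ hn h'
  rcases h1 with h1 | h1 | h1 | h1 <;> rcases h2 with h2 | h2 | h2 | h2 <;>
    refine Prod.ext ?_ ?_ <;> omega

theorem Route_ridx {ρ : ℤ} {n : ℕ} (hρ : 0 ≤ ρ) (hn : ρ < n) {v : Site} (h : Rcan ρ n v) :
    (Rpos ρ v ≤ 2 * ρ ∧ ridx n v = Rpos ρ v + (n - ρ)) ∨
    (2 * ρ + 1 ≤ Rpos ρ v ∧ Rpos ρ v ≤ 4 * ρ + 1 ∧ ridx n v = Rpos ρ v + 3 * (n - ρ) - 1) ∨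
    (4 * ρ + 2 ≤ Rpos ρ v ∧ Rpos ρ v ≤ 6 * ρ + 2 ∧ ridx n v = Rpos ρ v + 5 * (n - ρ) - 2) ∨
    (6 * ρ + 3 ≤ Rpos ρ v ∧ ridx n v = Rpos ρ v + 7 * (n - ρ) - 3) := by
  unfold ridx idx
  rcases Route_spec hρ hn h with h | h | h | h
  · left
    split_ifs <;> omega
  · right; left
    split_ifs <;> omega
  · right; right; left
    split_ifs <;> omega
  · right; right; right
    split_ifs <;> omega

theorem Route_lt {ρ : ℤ} {n : ℕ} (hρ : 0 ≤ ρ) (hn : ρ < n) {v w : Site} (h : Rcan ρ n v)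
    (h' : Rcan ρ n w) (e : ridx n v < ridx n w) : Rpos ρ v < Rpos ρ w := by
  have h1 := Route_ridx hρ hn h
  have h2 := Route_ridx hρ hn h'
  rcases h1 with h1 | h1 | h1 | h1 <;> rcases h2 with h2 | h2 | h2 | h2 <;> omega

theorem Route_lift {ρ : ℤ} {n : ℕ} (hρ : 0 ≤ ρ) (hn : ρ < n) {u : Fin 4 → Site}
    (hu : ∀ i, Rcan ρ n (u i))
    (h : CCW (ridx n (u 0)) (ridx n (u 1)) (ridx n (u 2)) (ridx n (u 3))) :
    ∃ P : Fin 4 → ℤ, Adm4 (8 * ρ + 4) P ∧ ∀ i, (8 * ρ + 4) ∣ P i - Rpos ρ (u i) := by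
  have r0 := Route_range hρ hn (hu 0)
  have r1 := Route_range hρ hn (hu 1)
  have r2 := Route_range hρ hn (hu 2)
  have r3 := Route_range hρ hn (hu 3)
  have lt := fun i j => Route_lt hρ hn (hu i) (hu j)
  rcases h with ⟨a, b, c⟩ | ⟨a, b, c⟩ | ⟨a, b, c⟩ | ⟨a, b, c⟩
  all_goals
    have a := lt _ _ a
    have b := lt _ _ b
    have c := lt _ _ c
  · refine ⟨fun i => Rpos ρ (u i), ⟨a, b, c, by beta_reduce; omega⟩, fun i => by simp⟩
  · refine ⟨fun i => Rpos ρ (u i) + if 1 ≤ i then 8 * ρ + 4 else 0, ?_, fun i => ?_⟩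
    · simp [Adm4]
      omega
    · beta_reduce
      split_ifs <;> simp
  · refine ⟨fun i => Rpos ρ (u i) + if 2 ≤ i then 8 * ρ + 4 else 0, ?_, fun i => ?_⟩
    · simp [Adm4]
      omega
    · beta_reduce
      split_ifs <;> simp
  · refine ⟨fun i => Rpos ρ (u i) + if 3 ≤ i then 8 * ρ + 4 else 0, ?_, fun i => ?_⟩
    · simp [Adm4]
      omega
    · beta_reduce
      split_ifs <;> simp

theorem Route_exists {ρ n : ℤ} (hρ : 0 ≤ ρ) (hn : ρ < n) {q : ℤ} (h0 : 0 ≤ q)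
    (h1 : q < 8 * ρ + 4) : ∃ v, Rcan ρ n v ∧ Rpos ρ v = q := by
  have key : ∀ v, Rcan ρ n v → ((v.1 = n ∧ q = v.2 + ρ) ∨ (v.2 = n ∧ q = 3 * ρ + 1 - v.1) ∨
      (v.1 = -n ∧ q = 5 * ρ + 2 - v.2) ∨ (v.2 = -n ∧ q = 7 * ρ + 3 + v.1)) →
      ∃ v, Rcan ρ n v ∧ Rpos ρ v = q := by
    intro v hv h
    have := Route_spec hρ hn hv
    exact ⟨v, hv, by omega⟩
  by_cases c1 : q ≤ 2 * ρ
  · exact key (n, q - ρ) (by unfold Rcan; dsimp only; omega) (by simp)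
  by_cases c2 : q ≤ 4 * ρ + 1
  · exact key (3 * ρ + 1 - q, n) (by unfold Rcan; dsimp only; omega) (by simp)
  by_cases c3 : q ≤ 6 * ρ + 2
  · exact key (-n, 5 * ρ + 2 - q) (by unfold Rcan; dsimp only; omega) (by simp)
  · exact key (q - (7 * ρ + 3), -n) (by unfold Rcan; dsimp only; omega) (by simp)

theorem Route_radial {ρ n : ℤ} (hρ : 0 ≤ ρ) (hn : ρ < n) {v : Site} (h : Rcan ρ n v) :
    ∃ w, Rcan ρ (n + 1) w ∧ Rpos ρ w = Rpos ρ v ∧ GAdj v w := by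
  have key : ∀ w, Rcan ρ (n + 1) w → ((v.1 = n ∧ w.1 = n + 1 ∧ w.2 = v.2) ∨
      (v.2 = n ∧ w.2 = n + 1 ∧ w.1 = v.1) ∨ (v.1 = -n ∧ w.1 = -n - 1 ∧ w.2 = v.2) ∨
      (v.2 = -n ∧ w.2 = -n - 1 ∧ w.1 = v.1)) →
      ∃ w, Rcan ρ (n + 1) w ∧ Rpos ρ w = Rpos ρ v ∧ GAdj v w := by
    intro w hw h'
    have h1 := Route_spec hρ hn h
    have h2 := Route_spec hρ (by omega) hw
    exact ⟨w, hw, by (clear * - h' h1 h2 hn hρ; lia), by unfold GAdj; (clear * - h' h1 h2 hn hρ; lia)⟩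
  rcases h with h | h | h | h
  · exact key (n + 1, v.2) (by unfold Rcan; dsimp only; omega) (by simp [h.1])
  · exact key (v.1, n + 1) (by unfold Rcan; dsimp only; omega) (by simp [h.1])
  · exact key (-n - 1, v.2) (by unfold Rcan; dsimp only; omega) (by simp [h.1])
  · exact key (v.1, -n - 1) (by unfold Rcan; dsimp only; omega) (by simp [h.1])

theorem Route_corner {ρ n x y x' y' p p' : ℤ} (hρ : 0 ≤ ρ) (hn : ρ < n)
    (h1 : (x = n ∧ p = y + ρ ∧ -ρ ≤ y ∧ y ≤ ρ) ∨ (y = n ∧ p = 3 * ρ + 1 - x ∧ -ρ ≤ x ∧ x ≤ ρ) ∨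
      (x = -n ∧ p = 5 * ρ + 2 - y ∧ -ρ ≤ y ∧ y ≤ ρ) ∨
      (y = -n ∧ p = 7 * ρ + 3 + x ∧ -ρ ≤ x ∧ x ≤ ρ))
    (h2 : (x' = n ∧ p' = y' + ρ ∧ -ρ ≤ y' ∧ y' ≤ ρ) ∨
      (y' = n ∧ p' = 3 * ρ + 1 - x' ∧ -ρ ≤ x' ∧ x' ≤ ρ) ∨
      (x' = -n ∧ p' = 5 * ρ + 2 - y' ∧ -ρ ≤ y' ∧ y' ≤ ρ) ∨
      (y' = -n ∧ p' = 7 * ρ + 3 + x' ∧ -ρ ≤ x' ∧ x' ≤ ρ))
    (e : p' = p + 1 ∨ p' = p + 1 - (8 * ρ + 4))
    (ha : ¬((x' = x + 1 ∧ y' = y) ∨ (x' = x - 1 ∧ y' = y) ∨ (x' = x ∧ y' = y + 1) ∨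
      (x' = x ∧ y' = y - 1))) :
    (x = n ∧ y = ρ ∧ x' = ρ ∧ y' = n ∧ p = 2 * ρ) ∨
      (x = -ρ ∧ y = n ∧ x' = -n ∧ y' = ρ ∧ p = 4 * ρ + 1) ∨
      (x = -n ∧ y = -ρ ∧ x' = -ρ ∧ y' = -n ∧ p = 6 * ρ + 2) ∨
      (x = ρ ∧ y = -n ∧ x' = n ∧ y' = -ρ ∧ p = 8 * ρ + 3) := by
  rcases h1 with h1 | h1 | h1 | h1
  · left
    rcases h2 with h2 | h2 | h2 | h2 <;> (clear * - e h1 h2 ha hn hρ; lia)
  · right; left
    rcases h2 with h2 | h2 | h2 | h2 <;> (clear * - e h1 h2 ha hn hρ; lia)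
  · right; right; left
    rcases h2 with h2 | h2 | h2 | h2 <;> (clear * - e h1 h2 ha hn hρ; lia)
  · right; right; right
    rcases h2 with h2 | h2 | h2 | h2 <;> (clear * - e h1 h2 ha hn; lia)

/-- Consecutive positions on one ring are joined through sites with these two positions. -/
theorem Route_step {ρ n : ℤ} (hρ : 0 ≤ ρ) (hn : ρ < n) {v w : Site} (hv : Rcan ρ n v)
    (hw : Rcan ρ n w) (e : Rpos ρ w = Rpos ρ v + 1 ∨ Rpos ρ w = Rpos ρ v + 1 - (8 * ρ + 4))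
    {Z : Set Site} (hZ : ∀ z, (dst 0 z : ℤ) = n → Rpos ρ z = Rpos ρ v → z ∈ Z) (hwZ : w ∈ Z) :
    GConn Z v w := by
  have h1 := Route_spec hρ hn hv
  have h2 := Route_spec hρ hn hw
  have hvZ := hZ v (Route_can_dst hn hv) rfl
  by_cases ha : GAdj v w
  · exact Route_tail (Route_refl hvZ) ha hwZ
  obtain ⟨x, y⟩ := v
  obtain ⟨x', y'⟩ := w
  simp only [GAdj] at ha h1 h2
  have mem : ∀ a b : ℤ, (a = n ∨ a = -n ∨ b = n ∨ b = -n) → -n ≤ a → a ≤ n → -n ≤ b → b ≤ n →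
      Rpos ρ (a, b) = Rpos ρ (x, y) → (a, b) ∈ Z := by
    intro a b k1 k2 k3 k4 k5 k6
    refine hZ _ ?_ k6
    simp only [dst, Prod.fst_zero, Prod.snd_zero, sub_zero]
    omega
  have hc : (x = n ∧ y = ρ ∧ x' = ρ ∧ y' = n ∧ Rpos ρ (x, y) = 2 * ρ) ∨
      (x = -ρ ∧ y = n ∧ x' = -n ∧ y' = ρ ∧ Rpos ρ (x, y) = 4 * ρ + 1) ∨
      (x = -n ∧ y = -ρ ∧ x' = -ρ ∧ y' = -n ∧ Rpos ρ (x, y) = 6 * ρ + 2) ∨
      (x = ρ ∧ y = -n ∧ x' = n ∧ y' = -ρ ∧ Rpos ρ (x, y) = 8 * ρ + 3) := by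
    exact Route_corner hρ hn h1 h2 e ha
  clear h1 h2 ha e
  rcases hc with ⟨e1, e2, e3, e4, e5⟩ | ⟨e1, e2, e3, e4, e5⟩ | ⟨e1, e2, e3, e4, e5⟩ |
    ⟨e1, e2, e3, e4, e5⟩ <;> rw [e5] at mem <;> rw [e3, e4] at hwZ <;> rw [e1, e2, e3, e4]
  · refine Route_tail (Route_trans (Route_ver (y2 := n) hn.le fun b k1 k2 => ?_)
      (Route_symm (Route_hor (x1 := ρ + 1) hn fun a k1 k2 => ?_))) (by simp [GAdj]) hwZ
    all_goals
      refine mem _ _ (by omega) (by omega) (by omega) (by omega) (by omega) ?_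
      unfold Rpos
      split_ifs <;> omega
  · refine Route_tail (Route_trans (Route_symm (Route_hor (x1 := -n) (by omega) fun b k1 k2 => ?_))
      (Route_symm (Route_ver (y1 := ρ + 1) hn fun a k1 k2 => ?_))) (by simp [GAdj]) hwZ
    all_goals
      refine mem _ _ (by omega) (by omega) (by omega) (by omega) (by omega) ?_
      unfold Rpos
      split_ifs <;> omega
  · refine Route_tail (Route_trans (Route_symm (Route_ver (y1 := -n) (by omega) fun b k1 k2 => ?_))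
      (Route_hor (x2 := -ρ - 1) (by omega) fun a k1 k2 => ?_)) (by simp [GAdj]) hwZ
    all_goals
      refine mem _ _ (by omega) (by omega) (by omega) (by omega) (by omega) ?_
      unfold Rpos
      split_ifs <;> omega
  · refine Route_tail (Route_trans (Route_hor (x2 := n) (by omega) fun b k1 k2 => ?_)
      (Route_ver (y2 := -ρ - 1) (by omega) fun a k1 k2 => ?_)) (by simp [GAdj]) hwZ
    all_goals
      refine mem _ _ (by omega) (by omega) (by omega) (by omega) (by omega) ?_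
      unfold Rpos
      split_ifs <;> omega

/-- The point of the ring `n` at the position `p`. -/
def Rat4 (ρ n p : ℤ) (v : Site) : Prop := Rcan ρ n v ∧ (8 * ρ + 4) ∣ p - Rpos ρ v

theorem Route_at_exists {ρ n : ℤ} (hρ : 0 ≤ ρ) (hn : ρ < n) (p : ℤ) : ∃ v, Rat4 ρ n p v := by
  obtain ⟨v, h1, h2⟩ := Route_exists hρ hn (Int.emod_nonneg p (by omega : 8 * ρ + 4 ≠ 0))
    (Int.emod_lt_of_pos p (by omega))
  exact ⟨v, h1, h2 ▸ Int.dvd_self_sub_emod⟩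

theorem Route_small {M a : ℤ} (h : M ∣ a) (h1 : -M < a) (h2 : a < M) : a = 0 :=
  Int.eq_zero_of_abs_lt_dvd h (abs_lt.2 ⟨h1, h2⟩)

theorem Route_at_unique {ρ n p : ℤ} (hρ : 0 ≤ ρ) (hn : ρ < n) {v w : Site} (hv : Rat4 ρ n p v)
    (hw : Rat4 ρ n p w) : v = w := by
  have r1 := Route_range hρ hn hv.1
  have r2 := Route_range hρ hn hw.1
  have := Route_small (dvd_sub hv.2 hw.2) (by omega) (by omega)
  exact Route_inj hρ hn hv.1 hw.1 (by omega)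

theorem Route_move_le {ρ n p p' : ℤ} (hρ : 0 ≤ ρ) (hn : ρ < n) (hp : p ≤ p') {v w : Site}
    (hv : Rat4 ρ n p v) (hw : Rat4 ρ n p' w) {Z : Set Site}
    (hZ : ∀ z r, (dst 0 z : ℤ) = n → p ≤ r → r ≤ p' → (8 * ρ + 4) ∣ r - Rpos ρ z → z ∈ Z) :
    GConn Z v w := by
  induction p', hp using Int.leInduction generalizing w with
  | base =>
    rw [← Route_at_unique hρ hn hv hw]
    exact Route_refl (hZ v p (Route_can_dst hn hv.1) le_rfl le_rfl hv.2)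
  | succ q hq ih =>
    obtain ⟨z, hz⟩ := Route_at_exists hρ hn q
    refine Route_trans (ih hz fun y r k1 k2 k3 k4 => hZ y r k1 k2 (by omega) k4) ?_
    refine Route_step hρ hn hz.1 hw.1 ?_
      (fun y k1 k2 => hZ y q k1 hq (by omega) (k2 ▸ hz.2))
      (hZ w (q + 1) (Route_can_dst hn hw.1) (by omega) le_rfl hw.2)
    have r1 := Route_range hρ hn hz.1
    have r2 := Route_range hρ hn hw.1
    have d1 := dvd_sub hw.2 hz.2
    by_cases hc : Rpos ρ z + 1 - Rpos ρ w < 8 * ρ + 4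
    · have := Route_small d1 (by omega) (by omega)
      omega
    · omega

theorem Route_move {ρ n p p' : ℤ} (hρ : 0 ≤ ρ) (hn : ρ < n) {v w : Site}
    (hv : Rat4 ρ n p v) (hw : Rat4 ρ n p' w) {Z : Set Site}
    (hZ : ∀ z r, (dst 0 z : ℤ) = n → min p p' ≤ r → r ≤ max p p' →
      (8 * ρ + 4) ∣ r - Rpos ρ z → z ∈ Z) : GConn Z v w := by
  rcases le_total p p' with h | h
  · exact Route_move_le hρ hn h hv hw fun z r k1 k2 k3 => hZ z r k1 (by omega) (by omega)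
  · exact Route_symm
      (Route_move_le hρ hn h hw hv fun z r k1 k2 k3 => hZ z r k1 (by omega) (by omega))

theorem Route_disj {M : ℤ} {P P' : Fin 4 → ℤ} (h : Step4 M P P') {i j : Fin 4} (hij : i ≠ j)
    {r s : ℤ} (h1 : min (P i) (P' i) ≤ r) (h2 : r ≤ max (P i) (P' i)) (h3 : min (P j) (P' j) ≤ s)
    (h4 : s ≤ max (P j) (P' j)) (hd : M ∣ r - s) : False := by
  obtain ⟨a, b, c, d⟩ := h
  have key : r - s ≠ 0 ∧ -M < r - s ∧ r - s < M := by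
    fin_cases i <;> fin_cases j <;> simp only [Fin.zero_eta, Fin.mk_one, Fin.reduceFinMk,
      ne_eq, not_true_eq_false] at h1 h2 h3 h4 hij <;> (clear * - a b c d h1 h2 h3 h4 hij; lia)
  exact key.1 (Route_small hd key.2.1 key.2.2)

/-- Any two cyclically ordered quadruples on the rings `I` and `I + 14`, with the tangential
coordinate smaller than `I`, are joined by disjoint grid paths between the rings. -/
theorem route {I : ℕ} (hI : 2 ≤ I) {u u' : Fin 4 → Site}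
    (hu : ∀ i, dst 0 (u i) = I ∧ ((u i).1.natAbs < I ∨ (u i).2.natAbs < I))
    (hu' : ∀ i, dst 0 (u' i) = I + 14 ∧ ((u' i).1.natAbs < I ∨ (u' i).2.natAbs < I))
    (h : CCW (ridx I (u 0)) (ridx I (u 1)) (ridx I (u 2)) (ridx I (u 3)))
    (h' : CCW (ridx (I + 14) (u' 0)) (ridx (I + 14) (u' 1)) (ridx (I + 14) (u' 2))
      (ridx (I + 14) (u' 3))) :
    ∃ Z : Fin 4 → Finset Site, (∀ i, (Z i : Set Site) ⊆ ann 0 I (I + 14) ∧ GConn (Z i) (u i) (u' i)) ∧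
      ∀ i j, i ≠ j → Disjoint (Z i) (Z j) := by
  classical
  set ρ : ℤ := (I : ℤ) - 1 with hρdef
  have hρ : 0 ≤ ρ := by omega
  have can : ∀ (n : ℕ) (v : Site), I ≤ n → dst 0 v = n → v.1.natAbs < I ∨ v.2.natAbs < I →
      Rcan ρ n v := by
    intro n v h1 h2 h3
    simp only [dst, Prod.fst_zero, Prod.snd_zero, sub_zero] at h2
    unfold Rcan
    (clear * - h1 h2 h3 hI; lia)
  have c1 := fun i => can I (u i) le_rfl (hu i).1 (hu i).2
  have c2 := fun i => can (I + 14) (u' i) (by omega) (hu' i).1 (hu' i).2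
  obtain ⟨P, hP, hPu⟩ := Route_lift hρ (by omega) c1 h
  obtain ⟨P', hP', hPu'⟩ := Route_lift hρ (by push_cast; omega) c2 h'
  obtain ⟨Q, t, hQ0, hQ1, hQ⟩ := cyl_route (by omega) hP hP'
  let Z : Fin 4 → Finset Site := fun i => (annF 0 I (I + 14)).filter fun v => ∃ r,
    min (Q (dst 0 v - I) i) (Q (dst 0 v - I + 1) i) ≤ r ∧
      r ≤ max (Q (dst 0 v - I) i) (Q (dst 0 v - I + 1) i) ∧ (8 * ρ + 4) ∣ r - Rpos ρ v
  have hZ : ∀ i, ∀ k : ℕ, k ≤ 14 → ∀ z r, (dst 0 z : ℤ) = (I : ℤ) + k → min (Q k i) (Q (k + 1) i) ≤ r →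
      r ≤ max (Q k i) (Q (k + 1) i) → (8 * ρ + 4) ∣ r - Rpos ρ z → z ∈ (Z i : Set Site) := by
    intro i k hk z r k1 k2 k3 k4
    have e : dst 0 z - I = k := by omega
    simp only [Z, Finset.coe_filter, mem_annF, Set.mem_ofPred_eq, e]
    exact ⟨by omega, r, k2, k3, k4⟩
  refine ⟨Z, fun i => ⟨fun v hv => ?_, ?_⟩, fun i j hij => ?_⟩
  · exact mem_annF.1 (Finset.mem_filter.1 hv).1
  · have ind : ∀ k : ℕ, k ≤ 14 → ∀ w, Rat4 ρ ((I : ℤ) + k) (Q (k + 1) i) w → GConn (Z i) (u i) w := by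
      intro k
      induction k with
      | zero =>
        intro _ w hw
        refine Route_move hρ (by omega) (p := Q 0 i) ⟨by simpa using c1 i, hQ0 ▸ hPu i⟩ hw
          (hZ i 0 (by omega))
      | succ k ih =>
        intro hk w hw
        obtain ⟨v, hv⟩ := Route_at_exists hρ (by omega : ρ < (I : ℤ) + k) (Q (k + 1) i)
        obtain ⟨v', h1, h2, h3⟩ := Route_radial hρ (by omega) hv.1
        have hv' : Rat4 ρ ((I : ℤ) + (k + 1 : ℕ)) (Q (k + 1) i) v' :=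
          ⟨by push_cast; rwa [← add_assoc], h2 ▸ hv.2⟩
        have hm := Route_move hρ (by push_cast; omega) hv' hw (hZ i (k + 1) hk)
        exact Route_trans (Route_tail (ih (by omega) v hv) h3 hm.1) hm
    refine ind 14 le_rfl _ ⟨by simpa using c2 i, ?_⟩
    rw [hQ1, add_sub_right_comm]
    exact dvd_add (hPu' i) (dvd_mul_left _ _)
  · refine Finset.disjoint_left.2 fun v h1 h2 => ?_
    obtain ⟨h0, r, k1, k2, k3⟩ := Finset.mem_filter.1 h1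
    obtain ⟨-, s, l1, l2, l3⟩ := Finset.mem_filter.1 h2
    have := mem_annF.1 h0
    refine Route_disj (hQ _ (by omega)) hij k1 k2 l1 l2 ?_
    have := dvd_sub k3 l3
    rwa [sub_sub_sub_cancel_right] at this

end Pool.Agent.Work.MP_ccd212_pr
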