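import Pool.Agent.Work.MP_ccd212_pr.Piv2
import Pool.Agent.Work.MP_ccd212_pr.Top5
import Pool.Agent.Work.MP_ccd212_pr.Port2
import Pool.Agent.Work.MP_ccd212_pr.Route

-- merged part: Pool.Agent.Work.MP_ccd212_pr.Glue2
section
-- merged part: Pool.Agent.Work.MP_ccd212_pr.Glue
section
/-! Prolonging arms with the signed Harris inequality. -/

namespace Pool.Agent.Work.MP_ccd212_pr

theorem cs_Col (ω : Site → Bool) (i : Fin 4) : cs (Col ω true) i = Col ω (cb i) := by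
  unfold cs cb
  by_cases h : i.val % 2 = 0
  · simp [h]
  · simp only [h, if_false, decide_false]
    exact (Col_not ω true).symm

theorem sup_armsP (D : Set Site) (E : (Fin 4 → Site) → Prop) (P F : Fin 4 → Set Site) :
    Sup (fun S => ArmsP S D E P F) (D ∪ ⋃ i, P i) := by
  rintro S S' hS ⟨e, s, h1, h2⟩
  refine ⟨e, s, h1, fun i => ⟨(h2 i).1, (h2 i).2.1, (h2 i).2.2.congr_sup fun v hv => ?_⟩⟩
  have hv' : v ∈ D ∪ ⋃ i, P i := by
    rcases hv with hv | hv
    · exact Or.inl hv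
    · exact Or.inr (Set.mem_iUnion.2 ⟨i, hv⟩)
  unfold cs
  split_ifs <;> simp [hS v hv']

/-- An increasing property supported on `Z` passes to any set that is larger on `Z`. -/
private theorem inc_on {Φ : Set Site → Prop} {Z S S' : Set Site} (hs : Sup Φ Z) (hi : Inc Φ)
    (h : ∀ v ∈ Z, v ∈ S → v ∈ S') (hΦ : Φ S) : Φ S' :=
  hi (S ∩ Z) S' (fun v hv => h v hv.2 hv.1) (hs S (S ∩ Z) (fun v hv => by simp [hv]) hΦ)

theorem glue {p c : ℝ} (hc : 0 ≤ c) {Om Mid D D' : Set Site} {P F P' F' : Fin 4 → Set Site}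
    (hL : Link p c Om Mid P F P' F') (hD : D.Finite) (hDO : Disjoint D Om) (hD' : D ∪ Mid ⊆ D')
    (E : (Fin 4 → Site) → Prop) :
    c ^ 4 * pr (ber p) (ev true fun S => ArmsP S D E P F) ≤
      pr (ber p) (ev true fun S => ArmsP S D' E P' F') := by
  obtain ⟨Z, Φ, hZ, hdis, hcon⟩ := hL
  have hfin : ∀ i, (Z i).Finite := fun i => (hZ i).1
  have hPZ : ∀ i, P i ⊆ Z i := fun i => (hZ i).2.1
  have hZO : ∀ i, Z i ⊆ Om := fun i => (hZ i).2.2.1
  have hZM : ∀ i, Z i ⊆ Mid ∪ P' i := fun i => (hZ i).2.2.2.1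
  have hsup : ∀ i, Sup (Φ i) (Z i) := fun i => (hZ i).2.2.2.2.1
  have hinc : ∀ i, Inc (Φ i) := fun i => (hZ i).2.2.2.2.2.1
  have hpr : ∀ i, c ≤ pr (ber p) (ev (cb i) (Φ i)) := fun i => (hZ i).2.2.2.2.2.2
  have hd : Disjoint (Z 0 ∪ Z 2) (Z 1 ∪ Z 3) := by
    rw [Set.disjoint_union_left, Set.disjoint_union_right, Set.disjoint_union_right]
    exact ⟨⟨hdis 0 1 (by decide), hdis 0 3 (by decide)⟩, hdis 2 1 (by decide), hdis 2 3 (by decide)⟩
  have s02 : Sup (fun S => Φ 0 S ∧ Φ 2 S) (Z 0 ∪ Z 2) :=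
    ((hsup 0).mono Set.subset_union_left).and ((hsup 2).mono Set.subset_union_right)
  have s13 : Sup (fun S => Φ 1 S ∧ Φ 3 S) (Z 1 ∪ Z 3) :=
    ((hsup 1).mono Set.subset_union_left).and ((hsup 3).mono Set.subset_union_right)
  have f02 : (Z 0 ∪ Z 2).Finite := (hfin 0).union (hfin 2)
  have f13 : (Z 1 ∪ Z 3).Finite := (hfin 1).union (hfin 3)
  have p02 : c * c ≤ pr (ber p) (ev true fun S => Φ 0 S ∧ Φ 2 S) :=
    (mul_le_mul (hpr 0) (hpr 2) hc (pr_nonneg _ _)).trans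
      (harris_ev (ber p) true f02 ((hsup 0).mono Set.subset_union_left)
        ((hsup 2).mono Set.subset_union_right) (hinc 0) (hinc 2))
  have p13 : c * c ≤ pr (ber p) (ev false fun S => Φ 1 S ∧ Φ 3 S) :=
    (mul_le_mul (hpr 1) (hpr 3) hc (pr_nonneg _ _)).trans
      (harris_ev (ber p) false f13 ((hsup 1).mono Set.subset_union_left)
        ((hsup 3).mono Set.subset_union_right) (hinc 1) (hinc 3))
  have pF : c ^ 4 ≤ pr (ber p)
      ((ev true fun S => Φ 0 S ∧ Φ 2 S) ∩ ev false fun S => Φ 1 S ∧ Φ 3 S) := by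
    rw [pr_inter_indep (ber p) f02 f13 (s02.dep true) (s13.dep false) hd]
    calc c ^ 4 = (c * c) * (c * c) := by ring
      _ ≤ _ := mul_le_mul p02 p13 (mul_nonneg hc hc) (pr_nonneg _ _)
  have hcol : ∀ ω ω' : Site → Bool, (∀ v ∈ Z 0 ∪ Z 2, ω v = true → ω' v = true) →
      (∀ v ∈ Z 1 ∪ Z 3, ω v = false → ω' v = false) →
      ∀ i, ∀ v ∈ Z i, ω v = cb i → ω' v = cb i := by
    intro ω ω' h1 h2 i v hv
    fin_cases i
    · exact h1 v (Or.inl hv)
    · exact h2 v (Or.inl hv)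
    · exact h1 v (Or.inr hv)
    · exact h2 v (Or.inr hv)
  have key := harris_signed (ber p) (E := ev true fun S => ArmsP S D E P F)
    (F := (ev true fun S => Φ 0 S ∧ Φ 2 S) ∩ ev false fun S => Φ 1 S ∧ Φ 3 S) hd
    ((sup_armsP D E P F).loc (hD.union (Set.finite_iUnion fun i => (hfin i).subset (hPZ i))) true)
    ((s02.loc f02 true).inter (s13.loc f13 false)) ?_ ?_
    (((s02.dep true).mono Set.subset_union_left).inter ((s13.dep false).mono Set.subset_union_right))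
  · calc c ^ 4 * pr (ber p) (ev true fun S => ArmsP S D E P F)
        ≤ pr (ber p) (ev true fun S => ArmsP S D E P F) * pr (ber p)
          ((ev true fun S => Φ 0 S ∧ Φ 2 S) ∩ ev false fun S => Φ 1 S ∧ Φ 3 S) := by
          rw [mul_comm]
          exact mul_le_mul_of_nonneg_left pF (pr_nonneg _ _)
      _ ≤ _ := key
      _ ≤ _ := by
          refine pr_mono _ ?_
          rintro ω ⟨⟨e, s, he, hes⟩, ⟨h0, h2⟩, h1, h3⟩
          have hΦ : ∀ i, Φ i (cs (Col ω true) i) := by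
            intro i
            rw [cs_Col]
            fin_cases i
            exacts [h0, h1, h2, h3]
          have hall : ∀ i, ∃ s' ∈ F' i, Conn (cs (Col ω true) i ∩ (D' ∪ P' i)) (e i) s' := by
            intro i
            obtain ⟨h4, h5, h6⟩ := hes i
            obtain ⟨t, _, s', hs', h7, h8⟩ := hcon i _ (e i) (s i)
              (Set.disjoint_left.1 hDO h4) h5 (hΦ i) (h6.mono fun v hv => ⟨hv.1, by
                rcases hv.2 with hv | hv
                · exact Or.inl (Set.disjoint_left.1 hDO hv)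
                · exact Or.inr hv⟩)
            have hZD : Z i ⊆ D' ∪ P' i := fun v hv => by
              rcases hZM i hv with hv | hv
              · exact Or.inl (hD' (Or.inr hv))
              · exact Or.inr hv
            have h9 : D ∪ P i ⊆ D' ∪ P' i := by
              rintro v (hv | hv)
              · exact Or.inl (hD' (Or.inl hv))
              · exact hZD (hPZ i hv)
            exact ⟨s', hs', ((h6.mono (Set.inter_subset_inter_right _ h9)).trans
              (h8.symm.mono (Set.inter_subset_inter_right _ ((hPZ i).trans hZD)))).trans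
              (h7.mono (Set.inter_subset_inter_right _ hZD))⟩
          choose s' hs' hc' using hall
          exact ⟨e, s', he, fun i => ⟨hD' (Or.inl (hes i).1), hs' i, hc' i⟩⟩
  · rintro ω ω' h1 h2 h3 ⟨e, s, he, hes⟩
    refine ⟨e, s, he, fun i => ⟨(hes i).1, (hes i).2.1, (hes i).2.2.mono fun v hv => ⟨?_, hv.2⟩⟩⟩
    have hv1 := hv.1
    rw [cs_Col] at hv1 ⊢
    rcases hv.2 with hv | hv
    · have hO : v ∉ Om := Set.disjoint_left.1 hDO hv
      have := h3 v (fun h => hO (h.elim (hZO 0 ·) (hZO 2 ·)))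
        (fun h => hO (h.elim (hZO 1 ·) (hZO 3 ·)))
      rw [mem_Col] at hv1 ⊢
      rw [← this, hv1]
    · exact hcol ω ω' h1 h2 i v (hPZ i hv) hv1
  · rintro ω ω' h1 h2 _ ⟨⟨h0', h2'⟩, h1', h3'⟩
    exact ⟨⟨inc_on (hsup 0) (hinc 0) (hcol ω ω' h1 h2 0) h0',
      inc_on (hsup 2) (hinc 2) (hcol ω ω' h1 h2 2) h2'⟩,
      inc_on (hsup 1) (hinc 1) (hcol ω ω' h1 h2 1) h1',
      inc_on (hsup 3) (hinc 3) (hcol ω ω' h1 h2 3) h3'⟩

/-- The index of the symmetry `sd o a`. -/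
private def sdi (o : Bool) (a : Fin 4) : Fin 4 := if o then a else a + 2

private theorem sd_eq (o : Bool) (a : Fin 4) : sd o a = syf (sdi o a) := by
  cases o <;> simp [sd, sdi]

private theorem sd_sd (o : Bool) (a : Fin 4) (v : Site) : sd o a (sd o a v) = v := by
  rw [sd_eq, syf_syf]

private theorem dst_sd (o : Bool) (a : Fin 4) (v : Site) : dst 0 (sd o a v) = dst 0 v := by
  rw [sd_eq, dst_zero_syf]

private theorem adj_sd (o : Bool) (a : Fin 4) {u v : Site} (h : Adj u v) :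
    Adj (sd o a u) (sd o a v) := by
  rw [sd_eq]
  exact ((sy (sdi o a)).adj u v).2 h

private theorem conn_sd (o : Bool) (a : Fin 4) {S : Set Site} {u v : Site}
    (h : Conn (sd o a ⁻¹' S) u v) : Conn S (sd o a u) (sd o a v) := by
  rw [sd_eq] at *
  exact Conn.map (sy (sdi o a)) h

private theorem beyond_sd (o : Bool) (a : Fin 4) (n : ℕ) (v : Site) :
    sd o a v ∈ beyond o n ↔ v ∈ beyond o n := by
  simp only [beyond, Set.mem_ofPred_eq, dst_sd]

private theorem mid_sd (o : Bool) (a : Fin 4) (n n' : ℕ) (v : Site) :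
    sd o a v ∈ mid o n n' ↔ v ∈ mid o n n' := by
  simp only [mid, Set.mem_ofPred_eq, dst_sd]

private theorem dst_zero (v : Site) : dst 0 v = max v.1.natAbs v.2.natAbs := by
  simp [dst]

/-- A connection that comes from outside `beyond o n` and ends on the far row of a port ends with a
crossing of the port. -/
theorem port_cross {X : Set Site} {o : Bool} {n η : ℕ} {a : Fin 4} {x : ℤ} (hη : 1 ≤ η)
    (h1 : -(n : ℤ) + 2 * η < x + η) (h2 : x + 2 * η < n - 2 * η) {e s : Site} (he : e ∉ beyond o n)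
    (hs : s ∈ sd o a ⁻¹' pfar (row o n) x η)
    (h : Conn (X ∩ ((beyond o n)ᶜ ∪ sd o a ⁻¹' pb (row o n) x η)) e s) :
    ∃ t : Site, t.2 = row o n - 1 ∧ Conn (sd o a ⁻¹' X ∩ pb (row o n) x η) (sd o a s) t := by
  have hsb : s ∉ (beyond o n)ᶜ := by
    rw [Set.notMem_compl_iff, ← beyond_sd o a]
    obtain ⟨⟨h3, h4, h5, h6⟩, _⟩ := hs
    generalize sd o a s = v at *
    cases o
    · simp only [row, Bool.false_eq_true, if_false] at h5 h6
      simp only [beyond, Set.mem_ofPred_eq, Bool.false_eq_true, if_false, dst_zero]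
      omega
    · simp only [row, if_true] at h5 h6
      simp only [beyond, Set.mem_ofPred_eq, if_true, dst_zero]
      omega
  obtain ⟨t, u, ht, hu, htu, _, hus⟩ := h.last_exit (T := (beyond o n)ᶜ) he hsb
  have hus' : Conn (sd o a ⁻¹' (sd o a ⁻¹' X ∩ pb (row o n) x η)) u s := hus.mono fun v hv => by
    obtain ⟨⟨hv1, hv2⟩, hv3⟩ := hv
    refine ⟨by simpa [sd_sd] using hv1, ?_⟩
    rcases hv2 with hv2 | hv2
    · exact absurd hv2 hv3
    · exact hv2
  refine ⟨sd o a u, ?_, (conn_sd o a hus').symm⟩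
  have hadj := adj_sd o a htu
  have ht' : sd o a t ∉ beyond o n := by rw [beyond_sd]; exact ht
  obtain ⟨h3, h4, h5, h6⟩ := hus'.left_mem.2
  generalize sd o a t = t' at *
  generalize sd o a u = u' at *
  unfold Adj at hadj
  cases o
  · simp only [row, Bool.false_eq_true, if_false] at h5 h6 ⊢
    simp only [beyond, Set.mem_ofPred_eq, Bool.false_eq_true, if_false, dst_zero] at ht'
    omega
  · simp only [row, if_true] at h5 h6 ⊢
    simp only [beyond, Set.mem_ofPred_eq, if_true, dst_zero] at ht'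
    omega

private theorem pb_std (y : ℤ) (w : ℕ) :
    pb y (-3 * (w : ℤ)) (2 * w) = rect (-w) w (y - 4 * w) (y - 1) := by
  ext v
  simp only [pb, mem_rect]
  push_cast
  omega

private theorem sd_abs (o : Bool) (i : Fin 4) (v : Site) :
    if i.val % 2 = 0 then (sd o i v).1.natAbs = v.2.natAbs ∧ (sd o i v).2.natAbs = v.1.natAbs
    else (sd o i v).1.natAbs = v.1.natAbs ∧ (sd o i v).2.natAbs = v.2.natAbs := by
  cases o <;> fin_cases i <;> simp [sd, syf]

/-- The link between standard ports, from the geometric facts in canonical position. -/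
private theorem link_aux {p c : ℝ} {N : ℕ} (h : RSW p c N) (hc : 0 ≤ c) (o : Bool) {n n' m : ℕ}
    (hm1 : 1 ≤ m) (hmw : m ≤ n / 8) (hmw' : m ≤ n' / 8) (hmN : 2 * m ≤ N)
    (hk1 : n / 8 ≤ 60 * m)
    (hk2 : row o n - 1 - (row o n' - 4 * ((n' / 8 : ℕ) : ℤ)) ≤ 880 * m)
    (hrow : row o n' - 4 * ((n' / 8 : ℕ) : ℤ) ≤ row o n - 4 * ((n / 8 : ℕ) : ℤ))
    (hgeo : ∀ v ∈ rect (-((n / 8 : ℕ) : ℤ)) ((n / 8 : ℕ) : ℤ) (row o n - 4 * ((n / 8 : ℕ) : ℤ))
        (row o n - 1) ∪ rect (-(m : ℤ)) m (row o n' - 4 * ((n' / 8 : ℕ) : ℤ)) (row o n - 1),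
      v ∈ beyond o n ∧ v.1.natAbs < v.2.natAbs ∧ (v ∈ mid o n n' ∨
        v ∈ rect (-((n' / 8 : ℕ) : ℤ)) ((n' / 8 : ℕ) : ℤ) (row o n' - 4 * ((n' / 8 : ℕ) : ℤ))
          (row o n' - 1))) :
    Link p (c ^ 1000) (beyond o n) (mid o n n') (port o n (qstd n)) (far o n (qstd n))
      (port o n' (qstd n')) (far o n' (qstd n')) := by
  have hn8 : 8 * (n / 8) ≤ n := Nat.mul_div_le n 8
  have hport : ∀ (k : ℕ) (i : Fin 4), port o k (qstd k) i = sd o i ⁻¹'
      rect (-((k / 8 : ℕ) : ℤ)) ((k / 8 : ℕ) : ℤ) (row o k - 4 * ((k / 8 : ℕ) : ℤ))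
        (row o k - 1) := by
    intro k i
    rw [← pb_std]
    rfl
  have hfar : ∀ (k : ℕ) (i : Fin 4), far o k (qstd k) i =
      sd o i ⁻¹' pfar (row o k) (-3 * ((k / 8 : ℕ) : ℤ)) (2 * (k / 8)) := fun _ _ => rfl
  generalize hw : n / 8 = w at *
  generalize hw' : n' / 8 = w' at *
  generalize hy : row o n = y at *
  generalize hy' : row o n' = y' at *
  have sΨ1 : Sup (fun S => LR S (-w) w (y - 4 * w) (y - 1))
      (rect (-w) w (y - 4 * w) (y - 1) ∪ rect (-m) m (y' - 4 * w') (y - 1)) :=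
    (sup_LR _ _ _ _).mono Set.subset_union_left
  have sΨ2 : Sup (fun S => TB S (-m) m (y' - 4 * w') (y - 1))
      (rect (-w) w (y - 4 * w) (y - 1) ∪ rect (-m) m (y' - 4 * w') (y - 1)) :=
    (sup_TB _ _ _ _).mono Set.subset_union_right
  have hfin : (rect (-w) w (y - 4 * w) (y - 1) ∪ rect (-m) m (y' - 4 * w') (y - 1)).Finite :=
    (rect_finite _ _ _ _).union (rect_finite _ _ _ _)
  refine ⟨fun i => sd o i ⁻¹' (rect (-w) w (y - 4 * w) (y - 1) ∪ rect (-m) m (y' - 4 * w') (y - 1)),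
    fun i X => LR (sd o i ⁻¹' X) (-w) w (y - 4 * w) (y - 1) ∧
      TB (sd o i ⁻¹' X) (-m) m (y' - 4 * w') (y - 1), fun i => ⟨?_, ?_, ?_, ?_, ?_, ?_, ?_⟩, ?_, ?_⟩
  · exact hfin.preimage (Function.LeftInverse.injective (sd_sd o i)).injOn
  · rw [hport, hw, hy]
    exact Set.preimage_mono Set.subset_union_left
  · intro v hv
    rw [← beyond_sd o i]
    exact (hgeo _ hv).1
  · intro v hv
    rcases (hgeo _ hv).2.2 with h1 | h1
    · exact Or.inl ((mid_sd o i n n' v).1 h1)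
    · right
      rw [hport, hw', hy']
      exact h1
  · intro S S' hS hΦ
    exact (sΨ1.and sΨ2) _ _ (fun v hv => hS (sd o i v) (by
      rw [Set.mem_preimage, sd_sd]; exact hv)) hΦ
  · intro S S' hS hΦ
    exact ((inc_LR _ _ _ _).and (inc_TB _ _ _ _)) _ _ (Set.preimage_mono hS) hΦ
  · have e := pr_ev_aut (ber p) (sy (sdi o i)) (cb i) fun S =>
      LR S (-w) w (y - 4 * w) (y - 1) ∧ TB S (-m) m (y' - 4 * w') (y - 1)
    beta_reduce
    rw [sd_eq]
    refine le_trans ?_ e.ge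
    refine le_trans ?_ (harris_ev (ber p) (cb i) hfin sΨ1 sΨ2 (inc_LR _ _ _ _) (inc_TB _ _ _ _))
    have h1 := h.lr hc (cb i) (x1 := -w) (x2 := w) (y1 := y - 4 * w) (y2 := y - 1) (k := 60)
      (n := 2 * m) (by norm_num) (by omega) hmN (by omega) (by push_cast; omega)
      (by push_cast; omega)
    have h2 := h.tb hc (cb i) (x1 := -m) (x2 := m) (y1 := y' - 4 * w') (y2 := y - 1) (k := 440)
      (n := 2 * m) (by norm_num) (by omega) hmN (by omega) (by push_cast; omega)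
      (by push_cast; omega)
    calc c ^ 1000 = c ^ (2 * 60) * c ^ (2 * 440) := by rw [← pow_add]
      _ ≤ _ := mul_le_mul h1 h2 (pow_nonneg hc _) (pr_nonneg _ _)
  · intro i j hij
    rw [Set.disjoint_left]
    intro v hi hj
    have h1 := (hgeo _ hi).2.1
    have h2 := (hgeo _ hj).2.1
    have h3 := sd_abs o i v
    have h4 := sd_abs o j v
    split_ifs at h3 h4 <;> lia
  · rintro i X e s he hs ⟨⟨a, b, ha, hb, hab⟩, ⟨c', d, hc', hd, hcd⟩⟩ hes
    rw [hfar, hw, hy] at hs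
    have hes' : Conn (X ∩ ((beyond o n)ᶜ ∪ sd o i ⁻¹' pb (row o n) (-3 * (w : ℤ)) (2 * w))) e s := by
      rw [hport, hw, hy, ← pb_std] at hes
      rw [hy]
      exact hes
    obtain ⟨t, ht, hst⟩ := port_cross (o := o) (n := n) (η := 2 * w) (a := i) (x := -3 * (w : ℤ))
      (by omega) (by push_cast; omega) (by push_cast; omega) he (by rw [hy]; exact hs) hes'
    rw [hy, pb_std] at hst
    rw [hy] at ht
    have hs2 : (sd o i s).2 = y - 4 * w := by
      have : (sd o i s).2 = y - 2 * ((2 * w : ℕ) : ℤ) := hs.2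
      push_cast at this
      omega
    obtain ⟨v, hav, hsv⟩ := LR_TB_meet Set.inter_subset_right Set.inter_subset_right hab ha hb
      hst hs2 ht
    obtain ⟨a', b', ha', hb', hab', haa'⟩ := hab.sub_LR (x1 := -m) (x2 := m) (y1 := y' - 4 * w')
      (y2 := y - 1) (by omega) (by omega) (by omega) fun u hu _ _ => by
        have := hu.2
        simp only [mem_rect] at this
        omega
    obtain ⟨v', hav', hcv'⟩ := LR_TB_meet Set.inter_subset_right Set.inter_subset_right hab' ha' hb'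
      hcd hc' hd
    have hback : ∀ {A : Set Site} {u u' : Site}, Conn (sd o i ⁻¹' X ∩ A) u u' →
        Conn (X ∩ sd o i ⁻¹' A) (sd o i u) (sd o i u') := fun {A u u'} huu =>
      conn_sd o i (huu.mono fun z hz => ⟨hz.1, by
        rw [Set.mem_preimage, sd_sd]; exact hz.2⟩)
    have h1 := hback (hcv'.symm.mono (Set.inter_subset_inter_right _
      (Set.subset_union_right (s := rect (-w) w (y - 4 * w) (y - 1)))))
    have h2 := hback ((((hav'.mono Set.inter_subset_left).symm.trans haa'.symm).trans hav).trans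
      hsv.symm)
    rw [sd_sd] at h2
    refine ⟨sd o i v', h1.left_mem.2, sd o i c', ?_, h1, ?_⟩
    · rw [hfar, hw', hy', Set.mem_preimage, sd_sd]
      have := hcd.left_mem.2
      simp only [mem_rect] at this
      refine ⟨?_, ?_⟩
      · rw [pb_std]
        simp only [mem_rect]
        omega
      · show c'.2 = y' - 2 * ((2 * w' : ℕ) : ℤ)
        push_cast
        omega
    · rw [hport, hw, hy]
      exact h2

theorem link_std {p c : ℝ} {N : ℕ} (h : RSW p c N) (hc : 0 ≤ c) (o : Bool) {n n' : ℕ}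
    (h8 : 8 ≤ min n n') (hN : min n n' ≤ N)
    (hn : if o then 2 * n ≤ n' ∧ n' ≤ 32 * n else 2 * n' ≤ n ∧ n ≤ 32 * n') :
    Link p (c ^ 1000) (beyond o n) (mid o n n') (port o n (qstd n)) (far o n (qstd n))
      (port o n' (qstd n')) (far o n' (qstd n')) := by
  cases o
  · simp only [Bool.false_eq_true, if_false] at hn
    refine link_aux h hc false (m := n' / 8) (by omega) (by omega) le_rfl (by omega) (by omega)
      ?_ ?_ ?_
    · simp only [row, Bool.false_eq_true, if_false]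
      omega
    · simp only [row, Bool.false_eq_true, if_false]
      omega
    · intro v hv
      simp only [row, beyond, mid, Bool.false_eq_true, if_false, Set.mem_union, mem_rect,
        Set.mem_ofPred_eq, dst_zero] at hv ⊢
      refine ⟨by omega, by omega, by (clear * - hn hv; omega)⟩
  · simp only [if_true] at hn
    refine link_aux h hc true (m := n / 8) (by omega) le_rfl (by omega) (by omega) (by omega)
      ?_ ?_ ?_
    · simp only [row, if_true]
      omega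
    · simp only [row, if_true]
      omega
    · intro v hv
      simp only [row, beyond, mid, if_true, Set.mem_union, mem_rect,
        Set.mem_ofPred_eq, dst_zero] at hv ⊢
      refine ⟨by omega, by omega, by (clear * - hn hv; lia)⟩

end Pool.Agent.Work.MP_ccd212_pr
end

-- merged part: Pool.Agent.Work.MP_ccd212_pr.Glue2
section
/-! Joining outgoing and incoming standard arms; the initial estimates. -/

namespace Pool.Agent.Work.MP_ccd212_pr

theorem g2_conn {S : Set Site} (i : Fin 4) {a b : Site} :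
    Conn (syf i ⁻¹' S) a b ↔ Conn S (syf i a) (syf i b) := conn_preimage (sy i)

theorem g2_conn' {S : Set Site} (i : Fin 4) {a b : Site} (h : Conn S a b) :
    Conn (syf i ⁻¹' S) (syf i a) (syf i b) := by
  rw [g2_conn, syf_syf, syf_syf]; exact h

theorem g2_add_two (i : Fin 4) (v : Site) : syf (i + 2) v = (-(syf i v).1, -(syf i v).2) := by
  fin_cases i <;> simp [syf]

theorem g2_cases (i : Fin 4) (v : Site) :
    (i.val = 0 ∧ (syf i v).1 = -v.2 ∧ (syf i v).2 = -v.1) ∨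
    (i.val = 1 ∧ (syf i v).1 = -v.1 ∧ (syf i v).2 = -v.2) ∨
    (i.val = 2 ∧ (syf i v).1 = v.2 ∧ (syf i v).2 = v.1) ∨
    (i.val = 3 ∧ (syf i v).1 = v.1 ∧ (syf i v).2 = v.2) := by
  fin_cases i <;> simp [syf]

theorem g2_inner (i : Fin 4) {r : ℕ} {v : Site} (h : InnerB 0 r v) : InnerB 0 r (syf i v) :=
  (innerB_map (sy i) (dst_zero_syf i)).2 h

theorem g2_dst (v : Site) : dst 0 v = max v.1.natAbs v.2.natAbs := by
  simp [dst]

theorem g2_mem_port_out {n : ℕ} {i : Fin 4} {v : Site} : v ∈ port true n (qstd n) i ↔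
    syf i v ∈ rect (-(n / 8 : ℕ)) (n / 8 : ℕ) (-n - 4 * (n / 8 : ℕ)) (-n - 1) := by
  simp only [port, sd, qstd, pb, row, if_true, Set.mem_preimage, mem_rect]
  omega

theorem g2_mem_far_out {n : ℕ} {i : Fin 4} {v : Site} : v ∈ far true n (qstd n) i ↔
    syf i v ∈ rect (-(n / 8 : ℕ)) (n / 8 : ℕ) (-n - 4 * (n / 8 : ℕ)) (-n - 1) ∧
      (syf i v).2 = -n - 4 * (n / 8 : ℕ) := by
  simp only [far, pfar, sd, qstd, pb, row, if_true, Set.mem_preimage, mem_rect, Set.mem_inter_iff,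
    Set.mem_ofPred_eq]
  omega

theorem g2_mem_port_in {n : ℕ} {i : Fin 4} {v : Site} : v ∈ port false n (qstd n) i ↔
    syf i v ∈ rect (-(n / 8 : ℕ)) (n / 8 : ℕ) (-n + 1) (-n + 4 * (n / 8 : ℕ)) := by
  simp only [port, sd, qstd, pb, row, Bool.false_eq_true, if_false, Set.mem_preimage, mem_rect,
    g2_add_two]
  omega

theorem g2_mem_far_in {n : ℕ} {i : Fin 4} {v : Site} : v ∈ far false n (qstd n) i ↔
    syf i v ∈ rect (-(n / 8 : ℕ)) (n / 8 : ℕ) (-n + 1) (-n + 4 * (n / 8 : ℕ)) ∧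
      (syf i v).2 = -n + 4 * (n / 8 : ℕ) := by
  simp only [far, pfar, sd, qstd, pb, row, Bool.false_eq_true, if_false, Set.mem_preimage, mem_rect,
    Set.mem_inter_iff, Set.mem_ofPred_eq, g2_add_two]
  omega

/-- Points on the four sides, away from the corners, alternate. -/
theorem g2_altT {R : ℕ} {a : Fin 4 → Site} (h : ∀ i, (a i).2 = -R ∧ (a i).1.natAbs < R) :
    AltT (-R) R (-R) R fun i => syf i (a i) := by
  refine ⟨fun i => ?_, Or.inl (Or.inl ?_)⟩
  · rw [onBd_ball, dst_zero_syf, g2_dst]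
    have := h i
    omega
  · have h0 := h 0
    have h1 := h 1
    have h2 := h 2
    have h3 := h 3
    have e0 : idx (-R) R (-R) R (syf 0 (a 0)) = R - (a 0).1 := by
      have e : syf 0 (a 0) = (-(a 0).2, -(a 0).1) := by simp [syf]
      rw [e]; unfold idx; dsimp only; split_ifs <;> lia
    have e1 : idx (-R) R (-R) R (syf 1 (a 1)) = 3 * R + (a 1).1 := by
      have e : syf 1 (a 1) = (-(a 1).1, -(a 1).2) := by simp [syf]
      rw [e]; unfold idx; dsimp only; split_ifs <;> lia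
    have e2 : idx (-R) R (-R) R (syf 2 (a 2)) = 5 * R - (a 2).1 := by
      have e : syf 2 (a 2) = ((a 2).2, (a 2).1) := by simp [syf]
      rw [e]; unfold idx; dsimp only; split_ifs <;> lia
    have e3 : idx (-R) R (-R) R (syf 3 (a 3)) = 7 * R + (a 3).1 := by
      have e : syf 3 (a 3) = a 3 := by simp [syf]
      rw [e]; unfold idx; split_ifs <;> omega
    rw [e0, e1, e2, e3]
    (clear * - e0 h0 h1 h2 h3; lia)

/-- The same property holds in the four cones, for alternating colours. -/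
def g2Four (Ψ : Set Site → Prop) : Set (Site → Bool) := {ω | ∀ i, Ψ (syf i ⁻¹' Col ω (cb i))}

theorem g2_sup {Ψ : Set Site → Prop} {Z : Set Site} (hs : Sup Ψ Z) (i : Fin 4) :
    Sup (fun S => Ψ (syf i ⁻¹' S)) (syf i ⁻¹' Z) := by
  intro S S' h hS
  refine hs _ _ (fun v hv => ?_) hS
  exact h (syf i v) (by rw [Set.mem_preimage, syf_syf]; exact hv)

theorem g2_fin {Z : Set Site} (hZ : Z.Finite) (i : Fin 4) : (syf i ⁻¹' Z).Finite :=
  hZ.preimage (sy i).e.injective.injOn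

theorem g2_four (ν : PW Bool) {Ψ : Set Site → Prop} {Z : Set Site} (hZ : Z.Finite) (hs : Sup Ψ Z)
    (hcone : ∀ v ∈ Z, (v.1.natAbs : ℤ) < -v.2) {c : ℝ} (hc : 0 ≤ c) (h : ∀ b, c ≤ pr ν (ev b Ψ)) :
    c ^ 4 ≤ pr ν (g2Four Ψ) := by
  have e : g2Four Ψ = ⋂ i ∈ (Finset.univ : Finset (Fin 4)),
      ev (cb i) fun S => Ψ (syf i ⁻¹' S) := by
    ext ω; simp [g2Four]
  rw [e, pr_biInter_indep ν Finset.univ _ (fun i => syf i ⁻¹' Z) (fun i _ => g2_fin hZ i)
    (fun i _ => (g2_sup hs i).dep _) ?_]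
  · have : c ^ 4 = ∏ _i : Fin 4, c := by simp
    rw [this]
    refine Finset.prod_le_prod (fun _ _ => hc) fun i _ => ?_
    have := pr_ev_aut ν (sy i) (cb i) Ψ
    exact (h (cb i)).trans (le_of_eq this.symm)
  · intro i _ j _ hij
    rw [Set.disjoint_left]
    intro v hi hj
    have h1 := hcone _ hi
    have h2 := hcone _ hj
    have h3 := g2_cases i v
    have h4 := g2_cases j v
    have h5 : i.val ≠ j.val := fun e => hij (Fin.ext e)
    omega

theorem g2_column {p : ℝ} (h0 : 1 / 4 ≤ p) (h1 : p ≤ 3 / 4) (b : Bool) {y1 y2 : ℤ} {L : ℕ}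
    (hy : y1 ≤ y2) (hL : y2 + 1 - y1 ≤ L) :
    (1 / 4 : ℝ) ^ L ≤ pr (ber p) (ev b fun S => TB S 0 0 y1 y2) := by
  refine le_trans ?_ ((pr_all_col h0 h1 b (rectF 0 0 y1 y2)).trans (pr_mono _ fun ω hω => ?_))
  · refine pow_le_pow_of_le_one (by norm_num) (by norm_num) ?_
    rw [card_rectF]
    have : ((0 : ℤ) + 1 - 0).toNat = 1 := rfl
    rw [this]
    omega
  · refine ⟨(0, y1), (0, y2), rfl, rfl, conn_ver hy fun y h2 h3 => ⟨hω _ ?_, ?_⟩⟩
    · simp only [mem_rectF]; omega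
    · simp only [mem_rect]; omega

/-- The deterministic part of the junction, in the coordinates of the bottom side. -/
theorem g2_canon {X D1 D2 : Set Site} {n n' w w' : ℕ} (hw : 1 ≤ w) (hww : w ≤ w')
    (hn : n + 4 * w + 4 * w' < n') (hn' : 5 * w' < n') (hD1 : ∀ v ∈ D1, -(n : ℤ) ≤ v.2)
    (hD2 : ∀ v ∈ D2, n' ≤ dst 0 v) {e s z s' : Site} (he : e ∈ D1) (hs : s.2 = -n - 4 * w)
    (c1 : Conn (X ∩ (D1 ∪ rect (-w) w (-n - 4 * w) (-n - 1))) e s) (hz : z ∈ D2)
    (hs' : s' ∈ rect (-w') w' (-n' + 1) (-n' + 4 * w')) (hs2 : s'.2 = -n' + 4 * w')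
    (c2 : Conn (X ∩ (D2 ∪ rect (-w') w' (-n' + 1) (-n' + 4 * w'))) z s')
    (l1 : LR X (-w) w (-n - 4 * w) (-n - 1)) (l2 : TB X (-w) w (-n' + 1) (-n - 1))
    (l3 : LR X (-w') w' (-n' + 1) (-n' + 4 * w')) :
    Conn (X ∩ (D1 ∪ D2 ∪ rect (-w') w' (-n' + 1) (-n - 1))) e z := by
  set U : Set Site := X ∩ (D1 ∪ D2 ∪ rect (-w') w' (-n' + 1) (-n - 1)) with hU
  have s1 : X ∩ (D1 ∪ rect (-w) w (-n - 4 * w) (-n - 1)) ⊆ U := by
    rintro v ⟨hx, hv | hv⟩
    · exact ⟨hx, Or.inl (Or.inl hv)⟩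
    · refine ⟨hx, Or.inr ?_⟩
      simp only [mem_rect] at *; omega
  have s2 : X ∩ (D2 ∪ rect (-w') w' (-n' + 1) (-n' + 4 * w')) ⊆ U := by
    rintro v ⟨hx, hv | hv⟩
    · exact ⟨hx, Or.inl (Or.inr hv)⟩
    · refine ⟨hx, Or.inr ?_⟩
      simp only [mem_rect] at *; omega
  have s3 : X ∩ rect (-w) w (-n' + 1) (-n - 1) ⊆ U := by
    rintro v ⟨hx, hv⟩
    refine ⟨hx, Or.inr ?_⟩
    simp only [mem_rect] at *; omega
  have s4 : X ∩ rect (-w) w (-n - 4 * w) (-n - 1) ⊆ U := fun v hv => s1 ⟨hv.1, Or.inr hv.2⟩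
  have s5 : X ∩ rect (-w') w' (-n' + 1) (-n' + 4 * w') ⊆ U := fun v hv => s2 ⟨hv.1, Or.inr hv.2⟩
  obtain ⟨a1, b1, ha1, hb1, k1⟩ := l1
  obtain ⟨a2, b2, ha2, hb2, k2⟩ := l2
  obtain ⟨a3, b3, ha3, hb3, k3⟩ := l3
  -- the outgoing arm crosses its port
  obtain ⟨a4, b4, ha4, hb4, k4, k4'⟩ := c1.symm.sub_TB (x1 := -w) (x2 := w) (y1 := -n - 4 * w)
    (y2 := -n - 1) (by omega) hs.le (by have := hD1 e he; omega) (by
      rintro v ⟨_, hv | hv⟩ h1 h2
      · have := hD1 v hv; omega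
      · exact ⟨hv.1, hv.2.1⟩)
  obtain ⟨v1, m1, m1'⟩ := LR_TB_meet Set.inter_subset_right Set.inter_subset_right k1 ha1 hb1 k4
    ha4 hb4
  -- the corridor crosses both ports
  obtain ⟨a5, b5, ha5, hb5, k5, k5'⟩ := k2.sub_TB (x1 := -w) (x2 := w) (y1 := -n - 4 * w)
    (y2 := -n - 1) (by omega) (by omega) hb2.ge fun v hv _ _ => ⟨hv.2.1, hv.2.2.1⟩
  obtain ⟨v2, m2, m2'⟩ := LR_TB_meet Set.inter_subset_right Set.inter_subset_right k1 ha1 hb1 k5
    ha5 hb5
  obtain ⟨a6, b6, ha6, hb6, k6, k6'⟩ := k2.sub_TB (x1 := -w') (x2 := w') (y1 := -n' + 1)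
    (y2 := -n' + 4 * w') (by omega) ha2.le (by omega) fun v hv _ _ => by
      have := hv.2
      simp only [mem_rect] at this; omega
  obtain ⟨v3, m3, m3'⟩ := LR_TB_meet Set.inter_subset_right Set.inter_subset_right k3 ha3 hb3 k6
    ha6 hb6
  -- the incoming arm crosses its port
  obtain ⟨u, t, hu, ht, hut, k7, _⟩ := c2.symm.first_hit (T := {v | n' ≤ dst 0 v}) (by
    simp only [Set.mem_ofPred_eq, g2_dst]
    simp only [mem_rect] at hs'
    (clear * - ha1 ha2 ha3 ha4 ha5 ha6 hb1 hb2 hb3 hb4 hb5 hb6 hn hn' hs hs' hs2 hw; lia)) (hD2 z hz)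
  have s6 : (X ∩ (D2 ∪ rect (-w') w' (-n' + 1) (-n' + 4 * w'))) \ {v | n' ≤ dst 0 v} ⊆
      X ∩ rect (-w') w' (-n' + 1) (-n' + 4 * w') := by
    rintro v ⟨⟨hx, hv | hv⟩, hv'⟩
    · exact absurd (hD2 v hv) hv'
    · exact ⟨hx, hv⟩
  have k8 := k7.mono s6
  have hu2 : u.2 = -n' + 1 := by
    have h1 := k8.right_mem.2
    simp only [Set.mem_ofPred_eq, g2_dst] at ht
    simp only [mem_rect] at h1
    unfold Adj at hut
    (clear * - h1 ha1 ha2 ha3 ha4 ha5 ha6 hb1 hb2 hb3 hb4 hb5 hb6 hn hn' hs hs2 ht hut hw; lia)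
  obtain ⟨v4, m4, m4'⟩ := LR_TB_meet Set.inter_subset_right Set.inter_subset_right k3 ha3 hb3
    k8.symm hu2 hs2
  have t1 : Conn U e a1 := (c1.mono s1).trans <| (k4'.mono s1).trans <|
    (m1'.mono fun v hv => s1 hv.1).trans (m1.mono s4).symm
  have t2 : Conn U a1 a2 := (m2.mono s4).trans <|
    (m2'.mono fun v hv => s3 hv.1).symm.trans (k5'.mono s3).symm
  have t3 : Conn U a2 a3 := (k6'.mono s3).trans <|
    (m3'.mono fun v hv => s3 hv.1).trans (m3.mono s5).symm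
  have t4 : Conn U a3 z := (m4.mono s5).trans <| (m4'.mono s5).symm.trans <|
    (k8.mono s5).symm.trans (c2.mono s2).symm
  exact t1.trans (t2.trans (t3.trans t4))

theorem g2_cb (i : Fin 4) : (cb i = true ∧ i.val % 2 = 0) ∨ (cb i = false ∧ i.val % 2 = 1) := by
  fin_cases i <;> simp [cb]

theorem g2_col_mono {Zp Zm : Set Site} {ω ω' : Site → Bool}
    (h1 : ∀ v ∈ Zp, ω v = true → ω' v = true) (h2 : ∀ v ∈ Zm, ω v = false → ω' v = false)
    (h3 : ∀ v, v ∉ Zp → v ∉ Zm → ω v = ω' v) {b : Bool} {v : Site} (hp : b = true → v ∉ Zm)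
    (hm : b = false → v ∉ Zp) (hv : v ∈ Col ω b) : v ∈ Col ω' b := by
  rw [mem_Col] at *
  cases b
  · by_cases h : v ∈ Zm
    · exact h2 v h hv
    · rw [← h3 v (hm rfl) h]; exact hv
  · by_cases h : v ∈ Zp
    · exact h1 v h hv
    · rw [← h3 v h (hp rfl)]; exact hv

theorem g2_smono_arms {Zp Zm D : Set Site} {E : (Fin 4 → Site) → Prop} {P F : Fin 4 → Set Site}
    (h : ∀ i, ∀ v ∈ D ∪ P i, (cb i = true → v ∉ Zm) ∧ (cb i = false → v ∉ Zp)) :
    SMono (ev true fun S => ArmsP S D E P F) Zp Zm := by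
  rintro ω ω' h1 h2 h3 ⟨e, s, hE, hc⟩
  refine ⟨e, s, hE, fun i => ⟨(hc i).1, (hc i).2.1, (hc i).2.2.mono fun v hv => ⟨?_, hv.2⟩⟩⟩
  have hv1 := hv.1
  rw [cs_Col] at hv1 ⊢
  exact g2_col_mono h1 h2 h3 (h i v hv.2).1 (h i v hv.2).2 hv1

theorem g2_smono_four {Zp Zm Z : Set Site} {Ψ : Set Site → Prop} (hs : Sup Ψ Z) (hi : Inc Ψ)
    (h : ∀ i, ∀ v, syf i v ∈ Z → (cb i = true → v ∉ Zm) ∧ (cb i = false → v ∉ Zp)) :
    SMono (g2Four Ψ) Zp Zm := by
  intro ω ω' h1 h2 h3 hω i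
  have k : Ψ (syf i ⁻¹' Col ω (cb i) ∩ Z) := hs _ _ (fun v hv => by simp [hv]) (hω i)
  refine hi _ _ (fun v hv => ?_) k
  have hz := h i (syf i v) (by rw [syf_syf]; exact hv.2)
  exact g2_col_mono h1 h2 h3 hz.1 hz.2 hv.1

theorem g2_dep_four {Z W : Set Site} {Ψ : Set Site → Prop} (hs : Sup Ψ Z)
    (h : ∀ i, ∀ v, syf i v ∈ Z → v ∈ W) : Dep (g2Four Ψ) W := fun ω ω' hω hh i =>
  ((g2_sup hs i).dep (cb i)).mono (h i) ω ω' hω (hh i)

theorem g2_par (i : Fin 4) {v : Site} (h : (((syf i v).1.natAbs : ℕ) : ℤ) < -(syf i v).2) :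
    (cb i = true → v.2.natAbs < v.1.natAbs) ∧ (cb i = false → v.1.natAbs < v.2.natAbs) := by
  have h3 := g2_cases i v
  rcases g2_cb i with hb | hb
  · exact ⟨fun _ => by omega, fun a => by rw [hb.1] at a; exact absurd a (by decide)⟩
  · exact ⟨fun a => by rw [hb.1] at a; exact absurd a (by decide), fun _ => by omega⟩

theorem glue_std {p c : ℝ} {N : ℕ} (h : RSW p c N) (hc : 0 ≤ c) {r n n' : ℕ} {x1 x2 y1 y2 : ℤ}
    (hr : r ≤ n) (h8 : 8 ≤ n) (hN : n ≤ N) (h1 : 4 * n ≤ n') (h2 : n' ≤ 64 * n)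
    (hB : Big x1 x2 y1 y2 n') (T : (Fin 4 → Site) → Prop) :
    c ^ 8000 * (pr (ber p) (ev true fun S => ArmsOut S r n (qstd n)) *
        pr (ber p) (ev true fun S => ArmsIn S x1 x2 y1 y2 n' T (qstd n'))) ≤
      pr (ber p) (ev true fun S => Arms4 S x1 x2 y1 y2 r T) := by
  obtain ⟨w, hw⟩ : ∃ w, w = n / 8 := ⟨_, rfl⟩
  obtain ⟨w', hw'⟩ : ∃ w', w' = n' / 8 := ⟨_, rfl⟩
  have c1 : c ≤ 1 := h.le_one (by omega)
  set E1 := ev true fun S => ArmsOut S r n (qstd n) with hE1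
  set E2 := ev true fun S => ArmsIn S x1 x2 y1 y2 n' T (qstd n') with hE2
  let Z : Set Site := rect (-w) w (-n' + 1) (-n - 1) ∪ rect (-w') w' (-n' + 1) (-n' + 4 * w')
  let Ψ : Set Site → Prop := fun X => (LR X (-w) w (-n - 4 * w) (-n - 1) ∧
    TB X (-w) w (-n' + 1) (-n - 1)) ∧ LR X (-w') w' (-n' + 1) (-n' + 4 * w')
  let Zp : Set Site := {v | n < dst 0 v ∧ dst 0 v < n' ∧ v.2.natAbs < v.1.natAbs}
  let Zm : Set Site := {v | n < dst 0 v ∧ dst 0 v < n' ∧ v.1.natAbs < v.2.natAbs}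
  have fZ : Z.Finite := (rect_finite _ _ _ _).union (rect_finite _ _ _ _)
  have sΨ : Sup Ψ Z := by
    refine (((sup_LR _ _ _ _).mono fun v hv => Or.inl ?_).and
      ((sup_TB _ _ _ _).mono Set.subset_union_left)).and
      ((sup_LR _ _ _ _).mono Set.subset_union_right)
    simp only [mem_rect] at *; omega
  have iΨ : Inc Ψ := ((inc_LR _ _ _ _).and (inc_TB _ _ _ _)).and (inc_LR _ _ _ _)
  have hZ : ∀ v ∈ Z, (v.1.natAbs : ℤ) < -v.2 ∧ n < dst 0 v ∧ dst 0 v < n' := by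
    rintro v (hv | hv) <;> simp only [mem_rect] at hv <;> rw [g2_dst] <;> omega
  have pΨ : ∀ b, c ^ 2000 ≤ pr (ber p) (ev b Ψ) := fun b => by
    have a1 := h.lr hc b (x1 := -w) (x2 := w) (y1 := -n - 4 * w) (y2 := -n - 1) (k := 2) (n := w)
      (by omega) (by omega) (by omega) (by omega) (by omega) (by omega)
    have a2 := h.tb hc b (x1 := -w) (x2 := w) (y1 := -n' + 1) (y2 := -n - 1) (k := 480)
      (n := 2 * w) (by omega) (by omega) (by omega) (by omega) (by omega) (by omega)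
    have a3 := h.lr hc b (x1 := -w') (x2 := w') (y1 := -n' + 1) (y2 := -n' + 4 * w') (k := 16)
      (n := n) (by omega) (by omega) (by omega) (by omega) (by omega) (by omega)
    have a4 := rsw1_harris (ber p) b (rsw1_IL_LR _ _ _ _) (rsw1_IL_TB _ _ _ _) (pow_nonneg hc _)
      a1 a2
    have a5 := rsw1_harris (ber p) b ((rsw1_IL_LR _ _ _ _).and (rsw1_IL_TB _ _ _ _))
      (rsw1_IL_LR _ _ _ _) (pow_nonneg hc _) a4 a3
    refine le_trans ?_ a5
    rw [← pow_add, ← pow_add]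
    exact pow_le_pow_of_le_one hc c1 (by norm_num)
  have pF := g2_four (ber p) fZ sΨ (fun v hv => (hZ v hv).1) (pow_nonneg hc _) pΨ
  rw [← pow_mul] at pF
  -- the supports of the two arm events
  have d1 : Dep E1 (ball 0 (n + 4 * w)) := by
    refine ((sup_armsP _ _ _ _).mono ?_).dep true
    rintro v (hv | hv)
    · simp only [mem_ann, mem_ball] at *; omega
    · obtain ⟨i, hi⟩ := Set.mem_iUnion.1 hv
      rw [g2_mem_port_out, ← hw, mem_rect] at hi
      rw [mem_ball, ← dst_zero_syf i, g2_dst]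
      omega
  have d2 : Dep E2 (rect x1 x2 y1 y2 ∩ {v | n + 4 * w < dst 0 v}) := by
    refine ((sup_armsP _ _ _ _).mono ?_).dep true
    rintro v (hv | hv)
    · refine ⟨hv.1, ?_⟩
      have : n' ≤ dst 0 v := hv.2
      simp only [Set.mem_ofPred_eq]; omega
    · obtain ⟨i, hi⟩ := Set.mem_iUnion.1 hv
      rw [g2_mem_port_in, ← hw', mem_rect] at hi
      have k : n + 4 * w < dst 0 v ∧ dst 0 v < n' := by
        rw [← dst_zero_syf i, g2_dst]
        omega
      refine ⟨?_, k.1⟩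
      have k2 := k.2
      rw [g2_dst] at k2
      unfold Big at hB
      simp only [mem_rect]; omega
  have f2 : (rect x1 x2 y1 y2 ∩ {v | n + 4 * w < dst 0 v}).Finite :=
    (rect_finite _ _ _ _).subset Set.inter_subset_left
  have hind := pr_inter_indep (ber p) (ball_finite _ _) f2 d1 d2 (by
    rw [Set.disjoint_left]
    intro v hv hv'
    have k : n + 4 * w < dst 0 v := hv'.2
    simp only [mem_ball] at hv; omega)
  have par : ∀ (i : Fin 4) (v : Site), (((syf i v).1.natAbs : ℕ) : ℤ) < -(syf i v).2 →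
      (cb i = true → v ∉ Zm) ∧ (cb i = false → v ∉ Zp) := fun i v hv => by
    have k := g2_par i hv
    exact ⟨fun hb hm => by have := k.1 hb; have := hm.2.2; omega,
      fun hb hm => by have := k.2 hb; have := hm.2.2; omega⟩
  have m1 : SMono E1 Zp Zm := by
    refine g2_smono_arms fun i v hv => ?_
    rcases hv with hv | hv
    · exact ⟨fun _ hm => by have := hm.1; have := hv.2; omega,
        fun _ hm => by have := hm.1; have := hv.2; omega⟩
    · rw [g2_mem_port_out, ← hw, mem_rect] at hv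
      exact par i v (by omega)
  have m2 : SMono E2 Zp Zm := by
    refine g2_smono_arms fun i v hv => ?_
    rcases hv with hv | hv
    · have k : n' ≤ dst 0 v := hv.2
      exact ⟨fun _ hm => by have := hm.2.1; omega, fun _ hm => by have := hm.2.1; omega⟩
    · rw [g2_mem_port_in, ← hw', mem_rect] at hv
      exact par i v (by omega)
  have m3 : SMono (g2Four Ψ) Zp Zm := g2_smono_four sΨ iΨ fun i v hv => par i v (hZ _ hv).1
  have d3 : Dep (g2Four Ψ) (Zp ∪ Zm) := g2_dep_four sΨ fun i v hv => by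
    have k := hZ _ hv
    rw [dst_zero_syf] at k
    rcases g2_cb i with hb | hb
    · exact Or.inl ⟨k.2.1, k.2.2, (g2_par i k.1).1 hb.1⟩
    · exact Or.inr ⟨k.2.1, k.2.2, (g2_par i k.1).2 hb.1⟩
  have l3 : Loc (g2Four Ψ) := ⟨ball 0 n', ball_finite _ _, g2_dep_four sΨ fun i v hv => by
    have k := hZ _ hv
    rw [dst_zero_syf] at k
    exact k.2.2.le⟩
  have hH := harris_signed (ber p) (E := E1 ∩ E2) (F := g2Four Ψ) (Zp := Zp) (Zm := Zm) (by
      rw [Set.disjoint_left]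
      intro v hv hv'
      have := hv.2.2
      have := hv'.2.2
      omega)
    (Loc.inter ⟨_, ball_finite _ _, d1⟩ ⟨_, f2, d2⟩) l3
    (fun ω ω' a1 a2 a3 hω => ⟨m1 ω ω' a1 a2 a3 hω.1, m2 ω ω' a1 a2 a3 hω.2⟩) m3 d3
  rw [← hind, mul_comm]
  refine le_trans (mul_le_mul_of_nonneg_left pF (pr_nonneg _ _)) (hH.trans (pr_mono _ ?_))
  rintro ω ⟨⟨⟨e, s, he, hs⟩, ⟨z, s', hz, hs'⟩⟩, hF⟩
  refine ⟨e, z, he, hz, fun i => ?_⟩
  obtain ⟨k1, k2, k3⟩ := hs i
  obtain ⟨k4, k5, k6⟩ := hs' i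
  obtain ⟨⟨l1, l2⟩, l3⟩ := hF i
  rw [g2_mem_far_out, ← hw] at k2
  rw [g2_mem_far_in, ← hw'] at k5
  rw [cs_Col] at k3 k6 ⊢
  have key := g2_canon (X := syf i ⁻¹' Col ω (cb i)) (D1 := ann 0 r n)
    (D2 := syf i ⁻¹' Dom x1 x2 y1 y2 n') (n := n) (n' := n') (w := w) (w' := w') (by omega)
    (by omega) (by omega) (by omega)
    (fun v hv => by have := hv.2; rw [g2_dst] at this; omega)
    (fun v hv => by have : n' ≤ dst 0 (syf i v) := hv.2; rwa [dst_zero_syf] at this)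
    (e := syf i (e i)) (s := syf i (s i)) (z := syf i (z i)) (s' := syf i (s' i))
    (by simpa only [mem_ann, dst_zero_syf] using k1) k2.2
    ((g2_conn' i k3).mono fun v hv => ⟨hv.1, hv.2.imp
      (fun a => by simpa only [mem_ann, dst_zero_syf] using a)
      fun a => by rwa [g2_mem_port_out, ← hw, syf_syf] at a⟩)
    (by rw [Set.mem_preimage, syf_syf]; exact k4) k5.1 k5.2
    ((g2_conn' i k6).mono fun v hv => ⟨hv.1, hv.2.imp id
      fun a => by rwa [g2_mem_port_in, ← hw', syf_syf] at a⟩) l1 l2 l3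
  have key2 := (g2_conn i).1 (key.mono (T := syf i ⁻¹' (Col ω (cb i) ∩ Dom x1 x2 y1 y2 r)) ?_)
  · rwa [syf_syf, syf_syf] at key2
  · have hin : ∀ v : Site, r ≤ dst 0 v → dst 0 v ≤ n' → syf i v ∈ Dom x1 x2 y1 y2 r := by
      intro v a1 a2
      rw [← dst_zero_syf i] at a1 a2
      refine ⟨?_, a1⟩
      rw [g2_dst] at a2
      unfold Big at hB
      simp only [mem_rect]; omega
    rintro v ⟨hv, (a | a) | a⟩
    · exact ⟨hv, hin v a.1 (by have := a.2; omega)⟩
    · refine ⟨hv, a.1, ?_⟩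
      have : n' ≤ dst 0 (syf i v) := a.2
      simp only [Set.mem_ofPred_eq]; omega
    · simp only [mem_rect] at a
      exact ⟨hv, hin v (by rw [g2_dst]; omega) (by rw [g2_dst]; omega)⟩

theorem two_of_stdOut {S : Set Site} {r n : ℕ} (hr : 1 ≤ r) (hn : r ≤ n) (h8 : 8 ≤ n)
    (h : ArmsOut S r n (qstd n)) : Two S 0 r n := by
  obtain ⟨e, s, he, hs⟩ := h
  have key : ∀ i, ∃ u : Site, (u.2 = -n ∧ u.1.natAbs < n) ∧
      Conn (cs S i ∩ ann 0 r n) (e i) (syf i u) := fun i => by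
    obtain ⟨k1, k2, k3⟩ := hs i
    rw [g2_mem_far_out] at k2
    have hT : ∀ v ∈ ann 0 r n, ¬ (syf i v).2 ≤ -n - 1 := fun v hv => by
      have := hv.2
      rw [← dst_zero_syf i, g2_dst] at this
      omega
    obtain ⟨u, t, hu, ht, hut, k4, k5⟩ := k3.first_hit (T := {v | (syf i v).2 ≤ -n - 1})
      (hT _ k1) (by have := k2.2; simp only [Set.mem_ofPred_eq]; omega)
    have hut' : Adj (syf i u) (syf i t) := ((sy i).adj u t).2 hut
    have ht' : t ∈ port true n (qstd n) i := k5.left_mem.2.resolve_left fun a => hT t a ht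
    rw [g2_mem_port_out, mem_rect] at ht'
    simp only [Set.mem_ofPred_eq] at hu ht
    refine ⟨syf i u, by unfold Adj at hut'; omega, ?_⟩
    rw [syf_syf]
    refine k4.mono fun v hv => ⟨hv.1.1, hv.1.2.resolve_right fun a => hv.2 ?_⟩
    rw [g2_mem_port_out, mem_rect] at a
    exact a.2.2.2
  choose u hu hc using key
  refine two_of_arms4 hr hn ⟨e, fun i => syf i (u i), he, g2_altT hu, fun i => ?_⟩
  rw [Dom_ball]
  exact hc i

theorem g2_innerB {r : ℕ} {b : Site} (h1 : b.2 = -r) (h2 : b.1.natAbs < r) : InnerB 0 r b := by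
  refine ⟨by rw [g2_dst]; omega, (b.1, b.2 + 1), by simp [Adj], ?_⟩
  rw [g2_dst]; dsimp only; omega

theorem g2_out_core (ν : PW Bool) {r n u : ℕ} (hn : r ≤ n) (h8 : 8 ≤ n) (hu : u ≤ n / 8)
    (hur : u < r) {c : ℝ} (hc : 0 ≤ c)
    (h : ∀ b, c ≤ pr ν (ev b fun S => TB S (-u) u (-n - 4 * (n / 8 : ℕ)) (-r))) :
    c ^ 4 ≤ pr ν (ev true fun S => ArmsOut S r n (qstd n)) := by
  refine (g2_four ν (rect_finite _ _ _ _) (sup_TB _ _ _ _) (fun v hv => ?_) hc h).trans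
    (pr_mono _ fun ω hω => ?_)
  · simp only [mem_rect] at hv; omega
  · choose a b ha hb hab using hω
    have ib : ∀ i, InnerB 0 r (syf i (b i)) := fun i => g2_inner i (g2_innerB (hb i) (by
      have := (hab i).right_mem.2
      simp only [mem_rect] at this; omega))
    refine ⟨fun i => syf i (b i), fun i => syf i (a i), ib, fun i => ⟨?_, ?_, ?_⟩⟩
    · have := (ib i).1
      simp only [mem_ann]; omega
    · have := (hab i).left_mem.2
      have := ha i
      rw [g2_mem_far_out, syf_syf]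
      simp only [mem_rect] at *; omega
    · rw [cs_Col]
      refine (g2_conn i).1 ((hab i).symm.mono fun v hv => ⟨hv.1, ?_⟩)
      have k := hv.2
      simp only [mem_rect] at k
      by_cases hy : -(n : ℤ) ≤ v.2
      · left
        rw [mem_ann, dst_zero_syf, g2_dst]; omega
      · right
        rw [g2_mem_port_out, syf_syf, mem_rect]; omega

theorem base_out {c : ℝ} (hc : 0 < c) (K : ℕ) : ∃ c' : ℝ, 0 < c' ∧ ∀ (p : ℝ) (N : ℕ), RSW p c N →
    ∀ r n : ℕ, 1 ≤ r → r ≤ n → 8 ≤ n → n ≤ N → (n ≤ K * r ∨ n ≤ K) →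
      c' ≤ pr (ber p) (ev true fun S => ArmsOut S r n (qstd n)) := by
  refine ⟨min ((c ^ (2 * (30 * K + 1))) ^ 4) (((1 / 4 : ℝ) ^ (16 * K)) ^ 4),
    lt_min (by positivity) (by positivity), fun p N h r n h1 h2 h8 hN hK => ?_⟩
  by_cases hs : n ≤ 8 * K
  · refine (min_le_right _ _).trans (g2_out_core _ (u := 0) h2 h8 (Nat.zero_le _) h1
      (by positivity) fun b => ?_)
    have := g2_column h.1 h.2.1 b (y1 := -n - 4 * (n / 8 : ℕ)) (y2 := -r) (L := 16 * K)
      (by omega) (by omega)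
    simpa using this
  · have hK' : n ≤ K * r := hK.resolve_right (by omega)
    have hr : 8 ≤ r := by
      by_contra hlt
      have : K * r ≤ K * 8 := Nat.mul_le_mul_left _ (by omega)
      omega
    refine (min_le_left _ _).trans (g2_out_core _ (u := r / 8) h2 h8 (by omega) (by omega)
      (by positivity) fun b => ?_)
    refine h.tb hc.le b (n := r / 8) (by omega) (by omega) (by omega) (by omega) ?_ (by omega)
    have k1 : K * r ≤ K * (15 * (r / 8)) := Nat.mul_le_mul_left _ (by omega)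
    have k2 : 2 * n ≤ (30 * K + 1) * (r / 8) := by nlinarith only [h8, hK', k1]
    have k3 : ((2 * n : ℕ) : ℤ) ≤ ((30 * K + 1) * (r / 8) : ℕ) := by exact_mod_cast k2
    rw [Nat.cast_mul (30 * K + 1)] at k3
    omega

theorem base_in {c : ℝ} (hc : 0 < c) (K : ℕ) : ∃ c' : ℝ, 0 < c' ∧ ∀ (p : ℝ) (N : ℕ), RSW p c N →
    ∀ n R : ℕ, 8 ≤ n → n ≤ R → n ≤ N → R ≤ K * n →
      c' ≤ pr (ber p) (ev true fun S => ArmsIn S (-R) R (-R) R n (AltT (-R) R (-R) R) (qstd n)) := by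
  refine ⟨(c ^ (2 * (15 * K + 1))) ^ 4, by positivity, fun p N h n R h8 hR hN hK => ?_⟩
  obtain ⟨w, hw⟩ : ∃ w, w = n / 8 := ⟨_, rfl⟩
  have hp : ∀ b, c ^ (2 * (15 * K + 1)) ≤
      pr (ber p) (ev b fun S => TB S (-w) w (-R) (-n + 4 * w)) := fun b => by
    refine h.tb hc.le b (n := w) (by omega) (by omega) (by omega) (by omega) ?_ (by omega)
    have k1 : K * n ≤ K * (15 * w) := Nat.mul_le_mul_left _ (by omega)
    have k2 : R ≤ (15 * K + 1) * w := by linarith only [hK, k1]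
    have k3 : ((R : ℕ) : ℤ) ≤ ((15 * K + 1) * w : ℕ) := by exact_mod_cast k2
    rw [Nat.cast_mul (15 * K + 1)] at k3
    omega
  refine (g2_four _ (rect_finite _ _ _ _) (sup_TB _ _ _ _) (fun v hv => ?_) (by positivity)
    hp).trans (pr_mono _ fun ω hω => ?_)
  · simp only [mem_rect] at hv; omega
  · choose a b ha hb hab using hω
    have hin : ∀ (i : Fin 4) (v : Site), n ≤ dst 0 v → dst 0 v ≤ R →
        syf i v ∈ Dom (-R) R (-R) R n := fun i v a1 a2 => by
      rw [Dom_ball, mem_ann, dst_zero_syf]; exact ⟨a1, a2⟩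
    have ka : ∀ i, (a i).2 = -R ∧ (a i).1.natAbs < R := fun i => by
      have k := (hab i).left_mem.2
      have := ha i
      simp only [mem_rect] at k; omega
    refine ⟨fun i => syf i (a i), fun i => syf i (b i), g2_altT ka, fun i => ⟨?_, ?_, ?_⟩⟩
    · have := ka i
      exact hin i _ (by rw [g2_dst]; omega) (by rw [g2_dst]; omega)
    · have := (hab i).right_mem.2
      have := hb i
      rw [g2_mem_far_in, syf_syf, ← hw]
      simp only [mem_rect] at *; omega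
    · rw [cs_Col]
      refine (g2_conn i).1 ((hab i).mono fun v hv => ⟨hv.1, ?_⟩)
      have k := hv.2
      simp only [mem_rect] at k
      by_cases hy : v.2 ≤ -(n : ℤ)
      · exact Or.inl (hin i v (by rw [g2_dst]; omega) (by rw [g2_dst]; omega))
      · right
        rw [g2_mem_port_in, syf_syf, ← hw, mem_rect]; omega

/-- Small rings. -/
theorem alpha_small {p : ℝ} (h0 : 1 / 4 ≤ p) (h1 : p ≤ 3 / 4) {r R : ℕ} (hr : 1 ≤ r) (hR : r ≤ R) :
    (1 / 4 : ℝ) ^ (4 * R) ≤ alpha p r R := by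
  rw [mul_comm, pow_mul]
  have hp : ∀ b, (1 / 4 : ℝ) ^ R ≤ pr (ber p) (ev b fun S => TB S 0 0 (-R) (-r)) := fun b =>
    g2_column h0 h1 b (by omega) (by omega)
  refine (g2_four _ (rect_finite _ _ _ _) (sup_TB _ _ _ _) (fun v hv => ?_) (by positivity)
    hp).trans (pr_mono _ fun ω hω => ?_)
  · simp only [mem_rect] at hv; omega
  · choose a b ha hb hab using hω
    refine two_of_arms4 hr hR ⟨fun i => syf i (b i), fun i => syf i (a i), fun i => ?_,
      g2_altT fun i => ?_, fun i => ?_⟩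
    · have k := (hab i).right_mem.2
      simp only [mem_rect] at k
      exact g2_inner i (g2_innerB (hb i) (by omega))
    · have k := (hab i).left_mem.2
      have := ha i
      simp only [mem_rect] at k; omega
    · rw [cs_Col, Dom_ball]
      refine (g2_conn i).1 ((hab i).symm.mono fun v hv => ⟨hv.1, ?_⟩)
      have k := hv.2
      simp only [mem_rect] at k
      rw [mem_ann, dst_zero_syf, g2_dst]; omega

end Pool.Agent.Work.MP_ccd212_pr
end
end

-- merged part: Pool.Agent.Work.MP_ccd212_pr.LinkO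
section
/-! From admissible ports outside a box to standard ports. -/

namespace Pool.Agent.Work.MP_ccd212_pr

theorem LinkO_conn (a : Fin 4) {X R : Set Site} {p q : Site} (h : Conn (syf a ⁻¹' X ∩ R) p q) :
    Conn (X ∩ syf a ⁻¹' R) (syf a p) (syf a q) := by
  refine Conn.map (sy a) (h.mono fun v hv => ⟨hv.1, ?_⟩)
  show syf a (syf a v) ∈ R
  rw [syf_syf]
  exact hv.2

theorem LinkO_sup (a : Fin 4) {Φ : Set Site → Prop} {R : Set Site} (h : Sup Φ R) :
    Sup (fun S => Φ (syf a ⁻¹' S)) (syf a ⁻¹' R) := by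
  intro S S' hS
  refine h _ _ fun v hv => hS (syf a v) ?_
  show syf a (syf a v) ∈ R
  rw [syf_syf]
  exact hv

theorem LinkO_inc (a : Fin 4) {Φ : Set Site → Prop} (h : Inc Φ) :
    Inc fun S => Φ (syf a ⁻¹' S) := fun _ _ hS => h _ _ (Set.preimage_mono hS)

theorem LinkO_finite (a : Fin 4) {R : Set Site} (h : R.Finite) : (syf a ⁻¹' R).Finite :=
  h.preimage (sy a).e.injective.injOn

theorem LinkO_pr (ν : PW Bool) (a : Fin 4) (b : Bool) (Φ : Set Site → Prop) :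
    pr ν (ev b fun S => Φ (syf a ⁻¹' S)) = pr ν (ev b Φ) := pr_ev_aut ν (sy a) b Φ

theorem LinkO_node (a : Fin 4) (μ : ℕ) (u : Site) :
    syf a ⁻¹' node μ u = node μ (syf a u) := by
  ext v
  fin_cases a <;> simp [syf, node] <;> omega

theorem LinkO_node_sub {μ : ℕ} {Z : Set Site} {u : Site} (hu : u ∈ Z) : node μ u ⊆ reg μ Z :=
  fun _ hv => ⟨u, hu, Or.inl hv⟩

theorem LinkO_right_mem {Z : Set Site} {u v : Site} (h : GConn Z u v) : v ∈ Z := by
  obtain ⟨h1, h2⟩ := h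
  cases h2 with
  | refl => exact h1
  | tail _ h => exact h.2

theorem LinkO_nodeCross (a : Fin 4) {μ : ℕ} {u : Site} {X : Set Site} {p q : Site}
    (h : Conn (syf a ⁻¹' X ∩ node μ u) p q) (hp : p.2 = 4 * μ * u.2 - μ)
    (hq : q.2 = 4 * μ * u.2 + μ) :
    ∃ r, NodeCross μ (syf a u) X r ∧ Conn (X ∩ node μ (syf a u)) (syf a p) r := by
  have h' := LinkO_conn a h
  rw [LinkO_node] at h'
  fin_cases a
  · refine ⟨_, ⟨_, h'.symm, Or.inl ?_⟩, h'⟩
    simp [syf]
    omega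
  · refine ⟨_, ⟨_, h'.symm, Or.inr ?_⟩, h'⟩
    simp [syf]
    omega
  · refine ⟨_, ⟨_, h', Or.inl ?_⟩, Conn.refl h'.left_mem⟩
    simp [syf]
    omega
  · refine ⟨_, ⟨_, h', Or.inr ?_⟩, Conn.refl h'.left_mem⟩
    simp [syf]
    omega

/-- From a crossing of the port into the strip. -/
theorem LinkO_start {X : Set Site} {x1 x2 y1 y2 z1 z2 y0 y0' : ℤ} (hx1 : x1 ≤ z1) (hz : z1 ≤ z2)
    (hx2 : z2 ≤ x2) (hy0 : y0 ≤ y0') (hy : y0' ≤ y2) (hy1 : y0 ≤ y1) (hy12 : y1 ≤ y2)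
    {s t : Site} (hc : Conn (X ∩ rect x1 x2 y1 y2) s t) (hs : s.2 = y1) (ht : t.2 = y2)
    (hLR : LR X x1 x2 y1 y2) (hTB : TB X z1 z2 y0 y2) :
    ∃ p q, Conn (X ∩ (rect x1 x2 y1 y2 ∪ rect z1 z2 y0 y2)) s p ∧
      Conn (X ∩ rect z1 z2 y0 y0') p q ∧ p.2 = y0 ∧ q.2 = y0' := by
  obtain ⟨a, b, ha, hb, hab⟩ := hLR
  obtain ⟨c, d, hc', hd, hcd⟩ := hTB
  obtain ⟨v, hv1, hv2⟩ := LR_TB_meet Set.inter_subset_right Set.inter_subset_right hab ha hb hc hs ht
  obtain ⟨a', b', ha', hb', hab', haa⟩ := hab.sub_LR (y1 := y1) (y2 := y2) hz (by omega) (by omega)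
    fun v hv _ _ => hv.2.2.2
  obtain ⟨c', d', hc'', hd', hcd', hcc⟩ := hcd.sub_TB (x1 := z1) (x2 := z2) hy12 (by omega)
    (by omega) fun v hv _ _ => ⟨hv.2.1, hv.2.2.1⟩
  obtain ⟨v', hv1', hv2'⟩ := LR_TB_meet Set.inter_subset_right Set.inter_subset_right hab' ha' hb'
    hcd' hc'' hd'
  obtain ⟨p, q, hp, hq, hpq, hcp⟩ := hcd.sub_TB (x1 := z1) (x2 := z2) hy0 (by omega)
    (by omega) fun v hv _ _ => ⟨hv.2.1, hv.2.2.1⟩
  have l : X ∩ rect x1 x2 y1 y2 ⊆ X ∩ (rect x1 x2 y1 y2 ∪ rect z1 z2 y0 y2) :=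
    fun v hv => ⟨hv.1, Or.inl hv.2⟩
  have r : X ∩ rect z1 z2 y0 y2 ⊆ X ∩ (rect x1 x2 y1 y2 ∪ rect z1 z2 y0 y2) :=
    fun v hv => ⟨hv.1, Or.inr hv.2⟩
  refine ⟨p, q, ?_, hpq.mono fun v hv => ⟨hv.1.1, hv.2⟩, hp, hq⟩
  exact (((hv2.trans hv1.symm).trans (haa.trans (hv1'.mono Set.inter_subset_left))).mono l).trans
    ((((hv2'.mono Set.inter_subset_left).symm.trans hcc.symm).trans hcp).mono r)

theorem LinkO_ridx (a : Fin 4) {n : ℕ} {t : ℤ} (h1 : -(n : ℤ) < t) (h2 : t < n) :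
    ridx n (syf a (t, -(n : ℤ))) =
      if a = 0 then n - t else if a = 1 then 3 * n + t else if a = 2 then 5 * n - t
        else 7 * n + t := by
  fin_cases a <;> simp [syf, ridx, idx] <;> (try split_ifs) <;> omega

theorem LinkO_cmp {a b : Fin 4} {n I : ℕ} {s t k l : ℤ} (h1 : -(n : ℤ) < s) (h2 : s < n)
    (h3 : -(n : ℤ) < t) (h4 : t < n) (h5 : -(I : ℤ) < k) (h6 : k < I) (h7 : -(I : ℤ) < l)
    (h8 : l < I) (h : a = b → (s < t ∧ k < l) ∨ (t < s ∧ l < k)) :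
    (ridx n (syf a (s, -(n : ℤ))) < ridx n (syf b (t, -(n : ℤ))) ↔
      ridx I (syf a (k, -(I : ℤ))) < ridx I (syf b (l, -(I : ℤ)))) ∧
      ridx I (syf a (k, -(I : ℤ))) ≠ ridx I (syf b (l, -(I : ℤ))) := by
  rw [LinkO_ridx a h1 h2, LinkO_ridx b h3 h4, LinkO_ridx a h5 h6, LinkO_ridx b h7 h8]
  fin_cases a <;> fin_cases b <;> simp at h ⊢ <;> omega

/-- Points beyond two different sides. -/
theorem LinkO_side {a b : Fin 4} {v : Site} {r : ℤ} (h1 : -r ≤ (syf a v).1) (h2 : (syf a v).1 ≤ r)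
    (h3 : (syf a v).2 < -r) (h4 : -r ≤ (syf b v).1) (h5 : (syf b v).1 ≤ r)
    (h6 : (syf b v).2 < -r) : a = b := by
  fin_cases a <;> fin_cases b <;> simp [syf] at * <;> omega

theorem LinkO_dst (a : Fin 4) (v : Site) :
    dst 0 v = max (syf a v).1.natAbs (syf a v).2.natAbs := by
  rw [← dst_zero_syf a v]
  simp [dst]

theorem LinkO_ring (a : Fin 4) {I J : ℕ} {k : ℤ} (h1 : -(I : ℤ) < k) (h2 : k < I) (h : I ≤ J) :
    dst 0 (syf a (k, -(J : ℤ))) = J ∧
      ((syf a (k, -(J : ℤ))).1.natAbs < I ∨ (syf a (k, -(J : ℤ))).2.natAbs < I) := by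
  refine ⟨?_, ?_⟩
  · rw [dst_zero_syf]
    simp only [dst, Prod.fst_zero, Prod.snd_zero]
    omega
  · fin_cases a <;> simp [syf] <;> omega

theorem LinkO_harris (ν : PW Bool) (b : Bool) {Φ Ψ : Set Site → Prop} {Z : Set Site}
    (hZ : Z.Finite) (sΦ : Sup Φ Z) (sΨ : Sup Ψ Z) (iΦ : Inc Φ) (iΨ : Inc Ψ) {c : ℝ} (hc : 0 ≤ c)
    {k l : ℕ} (h : c ^ k ≤ pr ν (ev b Φ)) (h' : c ^ l ≤ pr ν (ev b Ψ)) :
    c ^ (k + l) ≤ pr ν (ev b fun S => Φ S ∧ Ψ S) := by
  rw [pow_add]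
  exact (mul_le_mul h h' (pow_nonneg hc _) (pr_nonneg _ _)).trans (harris_ev ν b hZ sΦ sΨ iΦ iΨ)

theorem link_sep_out {c : ℝ} (hc : 0 < c) (A : ℕ) : ∃ c' : ℝ, 0 < c' ∧ ∀ (p : ℝ) (N : ℕ),
    RSW p c N → ∀ (n m μ0 : ℕ) (q : PType), 1 ≤ μ0 → 8 * m ≤ n → n ≤ A * μ0 → n ≤ N →
      ValidQ true n m (8 * μ0) q →
      Link p c' (beyond true n) (mid true n (2 * n)) (port true n q) (far true n q)
        (port true (2 * n) (qstd (2 * n))) (far true (2 * n) (qstd (2 * n))) := by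
  refine ⟨c ^ (2 * 1 + 2 * A + (24 * (2 * (A + 16) + 1) ^ 2 + 2 * (3 * A))), pow_pos hc _, ?_⟩
  intro p N hR n m μ q hμ hm hA hN hq
  obtain ⟨hq1, hq2, hq3⟩ := hq
  have hmμ : 128 * μ ≤ m := by
    have := hq1 0
    omega
  have hc1 : c ≤ 1 := hR.le_one (by omega)
  have hA1 : 1 ≤ A := by
    rcases Nat.eq_zero_or_pos A with h | h
    · subst h
      omega
    · exact h
  obtain ⟨I, M, hM, hI2, hIA, hM1, hM2⟩ : ∃ I M : ℕ, 4 * μ * I = M ∧ 2 ≤ I ∧ I ≤ A + 2 ∧
      n + m / 8 + 4 * μ < M ∧ M ≤ n + m / 8 + 8 * μ := by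
    have h4 : 0 < 4 * μ := by omega
    have h1 := Nat.div_add_mod (n + m / 8) (4 * μ)
    have h2 := Nat.mod_lt (n + m / 8) h4
    refine ⟨(n + m / 8) / (4 * μ) + 2, _, rfl, Nat.le_add_left _ _, ?_, ?_, ?_⟩
    · refine Nat.add_le_add_right (Nat.div_le_of_le_mul ?_) 2
      have : 4 * μ * A = 4 * (A * μ) := by ring
      omega
    · rw [mul_add]
      omega
    · rw [mul_add]
      omega
  have hM' : 4 * μ * (I + 14) = M + 56 * μ := by
    rw [← hM]
    ring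
  have hMz : 4 * (μ : ℤ) * (I : ℤ) = M := by exact_mod_cast hM
  have hMz' : 4 * (μ : ℤ) * ((I + 14 : ℕ) : ℤ) = M + 56 * μ := by exact_mod_cast hM'
  have hμz : (0 : ℤ) < 4 * μ := by omega
  obtain ⟨k, K, hK, hK1, hK2⟩ : ∃ k K : Fin 4 → ℤ, (∀ i, 4 * (μ : ℤ) * k i = K i) ∧
      (∀ i, (q i).2.1 + (q i).2.2 ≤ K i - μ) ∧ ∀ i, K i + μ ≤ (q i).2.1 + 2 * (q i).2.2 := by
    refine ⟨fun i => ((q i).2.1 + (q i).2.2 + 5 * μ) / (4 * μ), _, fun i => rfl, fun i => ?_,
      fun i => ?_⟩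
    · have h1 := Int.mul_ediv_add_emod ((q i).2.1 + (q i).2.2 + 5 * μ) (4 * μ)
      have h2 := Int.emod_lt_of_pos ((q i).2.1 + (q i).2.2 + 5 * μ) hμz
      dsimp only
      omega
    · have h1 := Int.mul_ediv_add_emod ((q i).2.1 + (q i).2.2 + 5 * μ) (4 * μ)
      have h2 := Int.emod_nonneg ((q i).2.1 + (q i).2.2 + 5 * μ) hμz.ne'
      have h3 := hq1 i
      dsimp only
      omega
  have hx : ∀ i, -(n : ℤ) + 2 * (q i).2.2 < (q i).2.1 + (q i).2.2 ∧
      (q i).2.1 + 2 * (q i).2.2 < n - 2 * (q i).2.2 ∧ 8 * μ ≤ (q i).2.2 ∧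
      2 * (q i).2.2 ≤ m / 8 := fun i => by
    have := hq1 i
    omega
  have hk : ∀ i, -(I : ℤ) < k i ∧ k i < I := fun i => by
    have h1 := hx i
    have h2 := hK1 i
    have h3 := hK2 i
    constructor
    · refine lt_of_mul_lt_mul_left (a := 4 * (μ : ℤ)) ?_ hμz.le
      rw [mul_neg, hMz, hK]
      omega
    · refine lt_of_mul_lt_mul_left (a := 4 * (μ : ℤ)) ?_ hμz.le
      rw [hMz, hK]
      omega
  have hcmp : ∀ i j : Fin 4, i.val % 2 ≠ j.val % 2 →
      (pkey true n q i < pkey true n q j ↔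
        ridx I (syf (q i).1 (k i, -(I : ℤ))) < ridx I (syf (q j).1 (k j, -(I : ℤ)))) ∧
      ridx I (syf (q i).1 (k i, -(I : ℤ))) ≠ ridx I (syf (q j).1 (k j, -(I : ℤ))) := by
    intro i j hij
    have h1 := hx i
    have h2 := hx j
    refine LinkO_cmp (s := (q i).2.1 + (q i).2.2) (t := (q j).2.1 + (q j).2.2) (by omega)
      (by omega) (by omega) (by omega) (hk i).1 (hk i).2 (hk j).1 (hk j).2 fun e => ?_
    have h3 := hK1 i
    have h4 := hK2 i
    have h5 := hK1 j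
    have h6 := hK2 j
    rcases hq2 i j hij e with h | h
    · refine Or.inl ⟨by omega, lt_of_mul_lt_mul_left (a := 4 * (μ : ℤ)) ?_ hμz.le⟩
      rw [hK, hK]
      omega
    · refine Or.inr ⟨by omega, lt_of_mul_lt_mul_left (a := 4 * (μ : ℤ)) ?_ hμz.le⟩
      rw [hK, hK]
      omega
  obtain ⟨Z, hZ, hZd⟩ := route hI2 (u := fun i => syf (q i).1 (k i, -(I : ℤ)))
    (u' := fun i => syf i (0, -((I + 14 : ℕ) : ℤ)))
    (fun i => LinkO_ring _ (hk i).1 (hk i).2 le_rfl)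
    (fun i => LinkO_ring _ (by omega) (by omega) (by omega))
    (hq3.transfer (hcmp 0 1 (by decide)).1 (hcmp 1 2 (by decide)).1 (hcmp 2 3 (by decide)).1
      (hcmp 3 0 (by decide)).1 (hcmp 0 1 (by decide)).2 (hcmp 1 2 (by decide)).2
      (hcmp 2 3 (by decide)).2 (hcmp 3 0 (by decide)).2)
    (by
      rw [LinkO_ridx 0 (by omega) (by omega), LinkO_ridx 1 (by omega) (by omega),
        LinkO_ridx 2 (by omega) (by omega), LinkO_ridx 3 (by omega) (by omega)]
      left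
      simp
      omega)
  obtain ⟨w, hw⟩ : ∃ w : ℕ, 2 * n / 8 = w := ⟨_, rfl⟩
  have hw1 : μ ≤ w ∧ 4 * w ≤ n := by omega
  have hn1 : ∀ i, node μ (k i, -(I : ℤ)) = rect (K i - μ) (K i + μ) (-M - μ) (-M + μ) := fun i => by
    simp only [node, mul_neg, hMz, hK]
  have hn2 : node μ (0, -((I + 14 : ℕ) : ℤ)) =
      rect (-μ) μ (-(M + 56 * μ) - μ) (-(M + 56 * μ) + μ) := by
    simp only [node, mul_neg, hMz', mul_zero, zero_sub, zero_add]
  let C : Fin 4 → Set Site := fun i => syf (q i).1 ⁻¹'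
    (pb (-n) (q i).2.1 (q i).2.2 ∪ rect (K i - μ) (K i + μ) (-M - μ) (-n - 1))
  let B : Fin 4 → Set Site := fun i => syf i ⁻¹'
    rect (-μ) μ (-(2 * n) - 4 * w) (-(M + 56 * μ) + μ)
  have hC : ∀ i, ∀ v ∈ C i, (q i).2.1 + (q i).2.2 ≤ (syf (q i).1 v).1 ∧
      (syf (q i).1 v).1 ≤ (q i).2.1 + 2 * (q i).2.2 ∧ (syf (q i).1 v).2 < -n ∧
      n < dst 0 v ∧ dst 0 v ≤ M + μ ∧ (M ≤ dst 0 v + μ → v ∈ reg μ (Z i)) := by
    intro i v hv
    have h1 := hx i
    have h2 := hK1 i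
    have h3 := hK2 i
    have h4 := LinkO_dst (q i).1 v
    rcases hv with hv | hv
    · simp only [pb, mem_rect] at hv
      refine ⟨by omega, by omega, by omega, by omega, by omega, fun h => ?_⟩
      (clear * - h h1 h4 hM' hM1 hM2 hMz hMz' hv; omega)
    · simp only [mem_rect] at hv
      refine ⟨by omega, by omega, by omega, by omega, by (clear * - h1 h2 h3 h4 hM' hM1 hMz hMz' hmμ hv; omega), fun h => ?_⟩
      refine LinkO_node_sub (hZ i).2.1 ?_
      rw [← LinkO_node, hn1]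
      simp only [Set.mem_preimage, mem_rect]
      (clear * - h h1 h2 h3 h4 hM' hM1 hMz hMz' hmμ hv; lia)
  have hB : ∀ i, ∀ v ∈ B i, -(μ : ℤ) ≤ (syf i v).1 ∧ (syf i v).1 ≤ μ ∧ (syf i v).2 < -μ ∧
      M + 55 * μ ≤ dst 0 v ∧ (dst 0 v ≤ M + 57 * μ → v ∈ reg μ (Z i)) ∧
      (2 * n < dst 0 v → v ∈ port true (2 * n) (qstd (2 * n)) i) := by
    intro i v hv
    have h4 := LinkO_dst i v
    simp only [B, Set.mem_preimage, mem_rect] at hv
    refine ⟨by omega, by omega, by omega, by omega, fun h => ?_, fun h => ?_⟩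
    · refine LinkO_node_sub (LinkO_right_mem (hZ i).2) ?_
      rw [← LinkO_node, hn2]
      simp only [Set.mem_preimage, mem_rect]
      omega
    · simp only [port, qstd, sd, row, pb, hw, if_true, Set.mem_preimage, mem_rect]
      (clear * - h h4 hM hM' hMz hMz' hv hw1 hμ; omega)
  have hG : ∀ i, ∀ v ∈ reg μ (Z i), M ≤ dst 0 v + μ ∧ dst 0 v ≤ M + 57 * μ := by
    intro i v hv
    have := reg_dst (hZ i).1 hv
    rw [hM, hM'] at this
    omega
  have hGd : ∀ i j : Fin 4, i ≠ j → ∀ v ∈ reg μ (Z i), v ∉ reg μ (Z j) := fun i j hij =>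
    Set.disjoint_left.1 (reg_disjoint hμ (Finset.disjoint_coe.2 (hZd i j hij)))
  refine ⟨fun i => C i ∪ (reg μ (Z i) ∪ B i), fun i X =>
    (LR (syf (q i).1 ⁻¹' X) ((q i).2.1 + (q i).2.2) ((q i).2.1 + 2 * (q i).2.2)
        (-n - 2 * (q i).2.2) (-n - 1) ∧
      TB (syf (q i).1 ⁻¹' X) (K i - μ) (K i + μ) (-M - μ) (-n - 1)) ∧
    Full μ (Z i) X ∧ TB (syf i ⁻¹' X) (-μ) μ (-(2 * n) - 4 * w) (-(M + 56 * μ) + μ),
    fun i => ?_, fun i j hij => ?_, fun i X e s he hs hΦ hcon => ?_⟩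
  · have hfin : (C i ∪ (reg μ (Z i) ∪ B i)).Finite :=
      (LinkO_finite _ ((rect_finite _ _ _ _).union (rect_finite _ _ _ _))).union
        ((reg_finite (Z i).finite_toSet).union (LinkO_finite _ (rect_finite _ _ _ _)))
    have s1 := (LinkO_sup (q i).1 (sup_LR ((q i).2.1 + (q i).2.2) ((q i).2.1 + 2 * (q i).2.2)
      (-n - 2 * (q i).2.2) (-n - 1))).mono (Z' := C i ∪ (reg μ (Z i) ∪ B i))
      fun v hv => Or.inl (Or.inl hv)
    have s2 := (LinkO_sup (q i).1 (sup_TB (K i - μ) (K i + μ) (-M - μ) (-n - 1))).mono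
      (Z' := C i ∪ (reg μ (Z i) ∪ B i)) fun v hv => Or.inl (Or.inr hv)
    have s3 := (sup_full (μ := μ) (Z := Z i)).mono (Z' := C i ∪ (reg μ (Z i) ∪ B i))
      fun v hv => Or.inr (Or.inl hv)
    have s4 := (LinkO_sup i (sup_TB (-μ) μ (-(2 * n) - 4 * w) (-(M + 56 * μ) + μ))).mono
      (Z' := C i ∪ (reg μ (Z i) ∪ B i)) fun v hv => Or.inr (Or.inr hv)
    have i1 := LinkO_inc (q i).1 (inc_LR ((q i).2.1 + (q i).2.2) ((q i).2.1 + 2 * (q i).2.2)
      (-n - 2 * (q i).2.2) (-n - 1))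
    have i2 := LinkO_inc (q i).1 (inc_TB (K i - μ) (K i + μ) (-M - μ) (-n - 1))
    have i3 := inc_full (μ := μ) (Z := Z i)
    have i4 := LinkO_inc i (inc_TB (-μ) μ (-(2 * n) - 4 * w) (-(M + 56 * μ) + μ))
    have h1 := hx i
    have hAz : (n : ℤ) ≤ A * μ := by exact_mod_cast hA
    refine ⟨hfin, fun v hv => Or.inl (Or.inl hv), ?_, ?_, (s1.and s2).and (s3.and s4),
      (i1.and i2).and (i3.and i4), ?_⟩
    · rintro v (hv | hv | hv)
      · exact (hC i v hv).2.2.2.1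
      · have := hG i v hv
        show n < dst 0 v
        omega
      · have := hB i v hv
        show n < dst 0 v
        omega
    · rintro v (hv | hv | hv)
      · have := hC i v hv
        left
        show n < dst 0 v ∧ dst 0 v ≤ 2 * n
        omega
      · have := hG i v hv
        left
        show n < dst 0 v ∧ dst 0 v ≤ 2 * n
        omega
      · have := hB i v hv
        by_cases h : 2 * n < dst 0 v
        · exact Or.inr (this.2.2.2.2.2 h)
        · left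
          show n < dst 0 v ∧ dst 0 v ≤ 2 * n
          omega
    · refine LinkO_harris _ _ hfin (s1.and s2) (s3.and s4) (i1.and i2) (i3.and i4) hc.le
        (LinkO_harris _ _ hfin s1 s2 i1 i2 hc.le ?_ ?_)
        (LinkO_harris _ _ hfin s3 s4 i3 i4 hc.le ?_ ?_)
      · rw [LinkO_pr _ _ _ fun S => LR S _ _ _ _]
        exact hR.lr hc.le _ (k := 1) (n := (q i).2.2) le_rfl (by omega) (by omega) (by omega)
          (by omega) (by omega)
      · rw [LinkO_pr _ _ _ fun S => TB S _ _ _ _]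
        exact hR.tb hc.le _ (k := A) (n := μ) hA1 hμ (by omega) (by omega) (by omega) (by omega)
      · refine le_trans (pow_le_pow_of_le_one hc.le hc1 (Nat.mul_le_mul_left 24 ?_))
          (pr_full hR hc.le _ hμ (by omega) (Z i))
        rw [← card_ballF 0 (A + 16)]
        refine Finset.card_le_card fun v hv => ?_
        have := ((hZ i).1 hv).2
        rw [mem_ballF]
        omega
      · rw [LinkO_pr _ _ _ fun S => TB S _ _ _ _]
        refine hR.tb hc.le _ (k := 3 * A) (n := μ) (by omega) hμ (by omega) (by omega) ?_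
          (by omega)
        push_cast
        rw [mul_assoc]
        omega
  · have hne : i ≠ j := fun e => hij (by rw [e])
    rw [Set.disjoint_left]
    rintro v (hv | hv | hv) (hv' | hv' | hv')
    · have h1 := hC i v hv
      have h2 := hC j v hv'
      have h3 := hx i
      have h4 := hx j
      have e : (q i).1 = (q j).1 := LinkO_side (r := n) (v := v) (by omega) (by omega) (by omega)
        (by omega) (by omega) (by omega)
      have h5 := hq2 i j hij e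
      rw [e] at h1
      omega
    · exact hGd i j hne v ((hC i v hv).2.2.2.2.2 (hG j v hv').1) hv'
    · have h1 := hC i v hv
      have h2 := hB j v hv'
      omega
    · exact hGd i j hne v hv ((hC j v hv').2.2.2.2.2 (hG i v hv).1)
    · exact hGd i j hne v hv hv'
    · exact hGd i j hne v hv ((hB j v hv').2.2.2.2.1 (hG i v hv).2)
    · have h1 := hB i v hv
      have h2 := hC j v hv'
      omega
    · exact hGd i j hne v ((hB i v hv).2.2.2.2.1 (hG j v hv').2) hv'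
    · have h1 := hB i v hv
      have h2 := hB j v hv'
      exact hne (LinkO_side h1.1 h1.2.1 h1.2.2.1 h2.1 h2.2.1 h2.2.2.1)
  · obtain ⟨⟨Φ1, Φ2⟩, Φ3, c0, d0, hc0, hd0, Φ4⟩ := hΦ
    have h1 := hx i
    have h2 := hK1 i
    have h3 := hK2 i
    obtain ⟨t, ht, hst⟩ := port_cross (o := true) (by omega) h1.1 h1.2.1 he hs hcon
    obtain ⟨p1, q1, hp1, hpq1, e1, e1'⟩ := LinkO_start (y0' := -M + μ)
      (y1 := -n - 2 * (q i).2.2) (y2 := -n - 1) h2 (by omega) h3 (by omega)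
      (by omega) (by omega) (by omega) hst hs.2 ht Φ1 Φ2
    rw [← hn1] at hpq1
    obtain ⟨r1, hr1, hr1'⟩ := LinkO_nodeCross (q i).1 hpq1 (by rw [e1, mul_neg, hMz])
      (by rw [e1', mul_neg, hMz])
    obtain ⟨p2, q2, e2, e2', hpq2, hcp⟩ := Φ4.sub_TB (x1 := -μ) (x2 := μ)
      (y1 := -(M + 56 * μ) - μ) (y2 := -(M + 56 * μ) + μ) (by omega) (by (clear * - h1 h2 h3 hM' hM1 hM2 hMz hMz' hc0 hd0 hm hmμ hw hμ; lia)) (by omega)
      fun v hv _ _ => ⟨hv.2.1, hv.2.2.1⟩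
    have hpq2' : Conn (syf i ⁻¹' X ∩ node μ (0, -((I + 14 : ℕ) : ℤ))) p2 q2 := by
      rw [hn2]
      exact hpq2.mono fun v hv => ⟨hv.1.1, hv.2⟩
    obtain ⟨r2, hr2, hr2'⟩ := LinkO_nodeCross i hpq2' (by rw [e2, mul_neg, hMz'])
      (by rw [e2', mul_neg, hMz'])
    have k1 := LinkO_conn (q i).1 hp1
    have k1' : Conn (X ∩ C i) s (syf (q i).1 p1) := by
      have e : syf (q i).1 (sd true (q i).1 s) = s := syf_syf _ _
      rw [e] at k1
      exact k1
    have k2 := full_conn Φ3 (hZ i).2 hr1 hr2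
    have k3 : Conn (X ∩ B i) (syf i c0) (syf i p2) := LinkO_conn i hcp
    have k4 : Conn (X ∩ reg μ (Z i)) (syf (q i).1 p1) (syf i p2) :=
      ((hr1'.mono (Set.inter_subset_inter_right _ (LinkO_node_sub (hZ i).2.1))).trans k2).trans
        (hr2'.mono (Set.inter_subset_inter_right _
          (LinkO_node_sub (LinkO_right_mem (hZ i).2)))).symm
    refine ⟨s, Or.inl (Or.inl hs.1), syf i c0, ?_, ?_, Conn.refl ⟨hcon.right_mem.1, hs.1⟩⟩
    · have := Φ4.left_mem.2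
      simp only [mem_rect] at this
      simp only [far, qstd, sd, row, pfar, pb, hw, if_true, Set.mem_preimage, syf_syf, mem_rect,
        Set.mem_inter_iff, Set.mem_ofPred_eq]
      (clear * - e2 e2' h1 h2 h3 hM' hMz hMz' hc0 hd0 hm hw hμ this; omega)
    · refine Conn.trans (Conn.trans (k1'.mono ?_) (k4.mono ?_)) (k3.symm.mono ?_)
      · exact fun v hv => ⟨hv.1, Or.inl hv.2⟩
      · exact fun v hv => ⟨hv.1, Or.inr (Or.inl hv.2)⟩
      · exact fun v hv => ⟨hv.1, Or.inr (Or.inr hv.2)⟩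

end Pool.Agent.Work.MP_ccd212_pr
end

-- merged part: Pool.Agent.Work.MP_ccd212_pr.LinkI
section
/-! From admissible ports inside a box to standard ports. -/

namespace Pool.Agent.Work.MP_ccd212_pr

theorem li_sd (a : Fin 4) : sd false a = syf (a + 2) := by simp [sd]

theorem li_row (n : ℕ) : row false n = n := by simp [row]

theorem li_conn (a : Fin 4) {S : Set Site} {u v : Site} (h : Conn (syf a ⁻¹' S) u v) :
    Conn S (syf a u) (syf a v) := Conn.map (sy a) h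

theorem li_conn2 (a : Fin 4) {X T : Set Site} {u v : Site} (h : Conn (syf a ⁻¹' X ∩ T) u v) :
    Conn (X ∩ syf a ⁻¹' T) (syf a u) (syf a v) :=
  li_conn a (h.mono fun w hw => ⟨hw.1, by simpa [syf_syf] using hw.2⟩)

theorem li_node (a : Fin 4) (μ : ℕ) (u v : Site) (h : v ∈ node μ u) :
    syf a v ∈ node μ (syf a u) := by
  simp only [node, mem_rect] at *
  fin_cases a <;> simp [syf] <;> omega

theorem li_nc (a : Fin 4) {μ : ℕ} {u c : Site} {X : Set Site}
    (h : NodeCross μ u (syf a ⁻¹' X) c) :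
    ∃ c2, NodeCross μ (syf a u) X c2 ∧ Conn (X ∩ node μ (syf a u)) (syf a c) c2 := by
  obtain ⟨b, hc, hb⟩ := h
  have hc' : Conn (X ∩ node μ (syf a u)) (syf a c) (syf a b) :=
    li_conn a (hc.mono fun w hw => ⟨hw.1, li_node a μ u w hw.2⟩)
  by_cases ha : a = 0 ∨ a = 1
  · refine ⟨syf a b, ⟨syf a c, hc'.symm, ?_⟩, hc'⟩
    rcases ha with rfl | rfl <;> simp [syf] <;> omega
  · refine ⟨syf a c, ⟨syf a b, hc', ?_⟩, Conn.refl hc'.left_mem⟩
    have ha' : a = 2 ∨ a = 3 := by omega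
    rcases ha' with rfl | rfl <;> simp [syf] <;> omega

/-- A vertical strip crossing that passes a node starts a crossing of the node. -/
theorem li_strip {Y : Set Site} {μ : ℕ} {k J y1 y2 : ℤ} {c d : Site}
    (h : Conn (Y ∩ rect (4 * μ * k - μ) (4 * μ * k + μ) y1 y2) c d) (hc : c.2 ≤ 4 * μ * J - μ)
    (hd : 4 * μ * J + μ ≤ d.2) :
    ∃ c', NodeCross μ (k, J) Y c' ∧ Conn (Y ∩ rect (4 * μ * k - μ) (4 * μ * k + μ) y1 y2) c c' := by
  obtain ⟨c', d', h1, h2, h3, h4⟩ := h.sub_TB (x1 := 4 * μ * k - μ) (x2 := 4 * μ * k + μ)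
    (y1 := 4 * μ * J - μ) (y2 := 4 * μ * J + μ) (by omega) hc hd
    fun v hv _ _ => ⟨hv.2.1, hv.2.2.1⟩
  exact ⟨c', ⟨d', h3.mono fun v hv => ⟨hv.1.1, hv.2⟩, Or.inr ⟨h1, h2⟩⟩, h4⟩

theorem li_side {a b : Fin 4} {v : Site}
    (h1 : -(syf a v).2 < (syf a v).1 ∧ (syf a v).1 < (syf a v).2)
    (h2 : -(syf b v).2 < (syf b v).1 ∧ (syf b v).1 < (syf b v).2) : a = b := by
  fin_cases a <;> fin_cases b <;> simp [syf] at * <;> omega

theorem li_dst {a : Fin 4} {v : Site}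
    (h1 : -(syf a v).2 < (syf a v).1 ∧ (syf a v).1 < (syf a v).2) :
    (dst 0 v : ℤ) = (syf a v).2 := by
  rw [← dst_zero_syf a]
  simp only [dst, Prod.fst_zero, Prod.snd_zero]
  omega

theorem li_ridx (a : Fin 4) (R : ℕ) (y : ℤ) (h1 : -(R : ℤ) < y) (h2 : y < R) :
    ridx R (syf (a + 2) (y, R)) =
      if a = 0 then R + y else if a = 1 then 3 * R - y else if a = 2 then 5 * R + y
      else 7 * R - y := by
  have e0 : (0 : Fin 4) + 2 = 2 := rfl
  have e1 : (1 : Fin 4) + 2 = 3 := rfl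
  have e2 : (2 : Fin 4) + 2 = 0 := rfl
  have e3 : (3 : Fin 4) + 2 = 1 := rfl
  have ha : a = 0 ∨ a = 1 ∨ a = 2 ∨ a = 3 := by omega
  rcases ha with rfl | rfl | rfl | rfl <;> simp [e0, e1, e2, e3, syf, ridx, idx] <;>
    split_ifs <;> omega

theorem li_cmp {a a' : Fin 4} {R R' : ℕ} {y y' z z' : ℤ} (h1 : -(R : ℤ) < y) (h2 : y < R)
    (h3 : -(R : ℤ) < y') (h4 : y' < R) (h5 : -(R' : ℤ) < z) (h6 : z < R') (h7 : -(R' : ℤ) < z')
    (h8 : z' < R') (h : a = a' → (y < y' ∧ z < z') ∨ (y' < y ∧ z' < z)) :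
    (ridx R (syf (a + 2) (y, R)) < ridx R (syf (a' + 2) (y', R)) ↔
      ridx R' (syf (a + 2) (z, R')) < ridx R' (syf (a' + 2) (z', R'))) ∧
    ridx R' (syf (a + 2) (z, R')) ≠ ridx R' (syf (a' + 2) (z', R')) := by
  rw [li_ridx a R y h1 h2, li_ridx a' R y' h3 h4, li_ridx a R' z h5 h6, li_ridx a' R' z' h7 h8]
  have ha : a = 0 ∨ a = 1 ∨ a = 2 ∨ a = 3 := by omega
  have ha' : a' = 0 ∨ a' = 1 ∨ a' = 2 ∨ a' = 3 := by omega
  rcases ha with rfl | rfl | rfl | rfl <;> rcases ha' with rfl | rfl | rfl | rfl <;>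
    simp at h ⊢ <;> omega

theorem li_IL (a : Fin 4) {Φ : Set Site → Prop} (h : Rsw1IL Φ) :
    Rsw1IL fun S => Φ (syf a ⁻¹' S) := by
  obtain ⟨h1, Z, h2, h3⟩ := h
  refine ⟨fun S S' hS => h1 _ _ (Set.preimage_mono hS), syf a ⁻¹' Z,
    h2.preimage (sy a).e.injective.injOn, fun S S' hS => h3 _ _ fun v hv => hS _ ?_⟩
  simpa [syf_syf] using hv

theorem li_sup (a : Fin 4) {Φ : Set Site → Prop} {Z W : Set Site} (h : Sup Φ Z)
    (hW : syf a ⁻¹' Z ⊆ W) : Sup (fun S => Φ (syf a ⁻¹' S)) W :=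
  fun S S' hS => h _ _ fun v hv => hS _ (hW (by simpa [syf_syf] using hv))

theorem li_pr (ν : PW Bool) (a : Fin 4) (b : Bool) (Φ : Set Site → Prop) :
    pr ν (ev b fun S => Φ (syf a ⁻¹' S)) = pr ν (ev b Φ) := pr_ev_aut ν (sy a) b Φ

theorem li_node_reg {μ : ℕ} {Z : Set Site} {u : Site} (hu : u ∈ Z) : node μ u ⊆ reg μ Z :=
  fun _ hv => ⟨u, hu, Or.inl hv⟩

theorem li_gconn_right {Z : Set Site} {u v : Site} (h : GConn Z u v) : v ∈ Z := by
  obtain ⟨h1, h2⟩ := h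
  induction h2 with
  | refl => exact h1
  | tail _ h _ => exact h.2

/-- The outer part of the region of one arm. -/
def liA (n μ J : ℕ) (a : Fin 4) (x : ℤ) (η : ℕ) : Set Site :=
  syf a ⁻¹' rect (x + η) (x + 2 * η) (4 * μ * J + μ + 1) (n - 1)

/-- The inner part of the region of one arm. -/
def liC (y : ℤ) (μ I : ℕ) (b : Fin 4) : Set Site :=
  syf b ⁻¹' rect (-μ) μ y (4 * μ * I - μ - 1)

/-- The event of one arm. -/
def liF (n μ I J : ℕ) (a b : Fin 4) (x k y : ℤ) (η : ℕ) (Z : Set Site) (X : Set Site) : Prop :=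
  ((LR (syf a ⁻¹' X) (x + η) (x + 2 * η) (n - 2 * η) (n - 1) ∧
    TB (syf a ⁻¹' X) (4 * μ * k - μ) (4 * μ * k + μ) (4 * μ * J - μ) (n - 1)) ∧ Full μ Z X) ∧
    TB (syf b ⁻¹' X) (4 * μ * 0 - μ) (4 * μ * 0 + μ) y (4 * μ * I + μ)

section arm

variable {n μ I J η : ℕ} {a b : Fin 4} {x k y : ℤ} {Z : Set Site}

theorem li_sub1 (h3 : (4 * μ * J + μ : ℤ) < n - 2 * η) :
    syf a ⁻¹' rect (x + η) (x + 2 * η) (n - 2 * η) (n - 1) ⊆
      liA n μ J a x η ∪ reg μ Z ∪ liC y μ I b := by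
  intro v hv
  refine Or.inl (Or.inl ?_)
  simp only [liA, Set.mem_preimage, mem_rect] at *
  omega

theorem li_sub2 (h1 : x + η ≤ 4 * μ * k - μ) (h2 : 4 * μ * k + μ ≤ x + 2 * η)
    (hZ : syf a (k, J) ∈ Z) :
    syf a ⁻¹' rect (4 * μ * k - μ) (4 * μ * k + μ) (4 * μ * J - μ) (n - 1) ⊆
      liA n μ J a x η ∪ reg μ Z ∪ liC y μ I b := by
  intro v hv
  by_cases h : (syf a v).2 ≤ 4 * μ * J + μ
  · refine Or.inl (Or.inr (li_node_reg hZ ?_))
    rw [← syf_syf a v]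
    refine li_node a μ _ _ ?_
    simp only [node, Set.mem_preimage, mem_rect] at *
    omega
  · refine Or.inl (Or.inl ?_)
    simp only [liA, Set.mem_preimage, mem_rect] at *
    omega

theorem li_sub3 (hZ : syf b (0, I) ∈ Z) :
    syf b ⁻¹' rect (4 * μ * 0 - μ) (4 * μ * 0 + μ) y (4 * μ * I + μ) ⊆
      liA n μ J a x η ∪ reg μ Z ∪ liC y μ I b := by
  intro v hv
  by_cases h : 4 * μ * I - μ ≤ (syf b v).2
  · refine Or.inl (Or.inr (li_node_reg hZ ?_))
    rw [← syf_syf b v]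
    refine li_node b μ _ _ ?_
    simp only [node, Set.mem_preimage, mem_rect] at *
    omega
  · refine Or.inr ?_
    simp only [liC, Set.mem_preimage, mem_rect] at *
    omega

theorem li_supF (h1 : x + η ≤ 4 * μ * k - μ) (h2 : 4 * μ * k + μ ≤ x + 2 * η)
    (h3 : (4 * μ * J + μ : ℤ) < n - 2 * η) (hZ : syf a (k, J) ∈ Z) (hZ' : syf b (0, I) ∈ Z) :
    Sup (liF n μ I J a b x k y η Z) (liA n μ J a x η ∪ reg μ Z ∪ liC y μ I b) :=
  (((li_sup a (sup_LR _ _ _ _) (li_sub1 h3)).and (li_sup a (sup_TB _ _ _ _) (li_sub2 h1 h2 hZ))).and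
    (sup_full.mono fun _ hv => Or.inl (Or.inr hv))).and (li_sup b (sup_TB _ _ _ _) (li_sub3 hZ'))

theorem li_incF : Inc (liF n μ I J a b x k y η Z) :=
  (((li_IL a (rsw1_IL_LR _ _ _ _)).1.and (li_IL a (rsw1_IL_TB _ _ _ _)).1).and inc_full).and
    (li_IL b (rsw1_IL_TB _ _ _ _)).1

theorem li_prF {p c : ℝ} {N A : ℕ} (hR : RSW p c N) (hc : 0 ≤ c) (col : Bool) (Zf : Finset Site)
    (hμ : 1 ≤ μ) (hη : 1 ≤ η) (hηN : η ≤ N) (hμN : 2 * μ ≤ N) (hA : n ≤ A * μ) (hn : 1 ≤ n)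
    (h3 : (4 * μ * J + μ : ℤ) < n - 2 * η) (h4 : (μ : ℤ) ≤ 4 * μ * J) (h5 : 0 ≤ y)
    (h6 : y ≤ 4 * μ * I) (h7 : (4 * μ * I + μ : ℤ) ≤ n) (hcard : Zf.card ≤ (2 * A + 1) ^ 2) :
    c ^ (2 * 1) * c ^ (2 * A) * c ^ (24 * (2 * A + 1) ^ 2) * c ^ (2 * A) ≤
      pr (ber p) (ev col (liF n μ I J a b x k y η Zf)) := by
  have hA1 : 1 ≤ A := by
    rcases Nat.eq_zero_or_pos A with rfl | h
    · omega
    · exact h
  have hA' : (n : ℤ) ≤ A * μ := by exact_mod_cast hA
  have c1 : c ≤ 1 := hR.le_one (by omega)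
  have ilF : Rsw1IL (Full μ (Zf : Set Site)) :=
    ⟨inc_full, _, reg_finite Zf.finite_toSet, sup_full⟩
  have p1 := hR.lr hc col (x1 := x + η) (x2 := x + 2 * η) (y1 := n - 2 * η) (y2 := n - 1) (k := 1)
    (n := η) le_rfl hη hηN (by omega) (by push_cast; omega) (by omega)
  have p2 := hR.tb hc col (x1 := 4 * μ * k - μ) (x2 := 4 * μ * k + μ) (y1 := 4 * μ * J - μ)
    (y2 := n - 1) (k := A) (n := μ) hA1 hμ (by omega) (by omega) (by omega) (by omega)
  have p3 : c ^ (24 * (2 * A + 1) ^ 2) ≤ pr (ber p) (ev col (Full μ Zf)) :=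
    (pow_le_pow_of_le_one hc c1 (Nat.mul_le_mul_left _ hcard)).trans (pr_full hR hc col hμ hμN Zf)
  have p4 := hR.tb hc col (x1 := 4 * μ * 0 - μ) (x2 := 4 * μ * 0 + μ) (y1 := y)
    (y2 := 4 * μ * I + μ) (k := A) (n := μ) hA1 hμ (by omega) (by omega) (by omega) (by omega)
  rw [← li_pr _ a] at p1 p2
  rw [← li_pr _ b] at p4
  have i1 := li_IL a (rsw1_IL_LR (x + η) (x + 2 * η) (n - 2 * η) (n - 1))
  have i2 := li_IL a (rsw1_IL_TB (4 * μ * k - μ) (4 * μ * k + μ) (4 * μ * J - μ) (n - 1))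
  have i4 := li_IL b (rsw1_IL_TB (4 * μ * 0 - μ) (4 * μ * 0 + μ) y (4 * μ * I + μ))
  exact rsw1_harris _ col ((i1.and i2).and ilF) i4 (pow_nonneg hc _)
    (rsw1_harris _ col (i1.and i2) ilF (pow_nonneg hc _)
      (rsw1_harris _ col i1 i2 (pow_nonneg hc _) p1 p2) p3) p4

theorem li_link (h1 : x + η ≤ 4 * μ * k - μ) (h2 : 4 * μ * k + μ ≤ x + 2 * η)
    (h3 : (4 * μ * J + μ : ℤ) < n - 2 * η) (hη : 1 ≤ η) (h6 : y ≤ 4 * μ * I - μ)
    (hG : GConn Z (syf b (0, I)) (syf a (k, J))) {X : Set Site} {s t0 : Site}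
    (hF : liF n μ I J a b x k y η Z X) (hs : s.2 = n - 2 * η) (ht : t0.2 = n - 1)
    (hc : Conn (syf a ⁻¹' X ∩ rect (x + η) (x + 2 * η) (n - 2 * η) (n - 1)) s t0) :
    ∃ t s' : Site, s'.2 = y ∧ -(μ : ℤ) ≤ s'.1 ∧ s'.1 ≤ μ ∧
      Conn (X ∩ (liA n μ J a x η ∪ reg μ Z ∪ liC y μ I b)) (syf a t) (syf b s') ∧
      Conn (syf a ⁻¹' X ∩ rect (x + η) (x + 2 * η) (n - 2 * η) (n - 1)) t s := by
  obtain ⟨⟨⟨⟨l, r, hl, hr, hlr⟩, ⟨c, d, hc2, hd, hcd⟩⟩, hFu⟩, ⟨f, g, hf, hg, hfg⟩⟩ := hF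
  have hZ := li_gconn_right hG
  have hZ' := hG.1
  obtain ⟨t, ht1, ht2⟩ := LR_TB_meet Set.inter_subset_right Set.inter_subset_right hlr hl hr hc hs ht
  obtain ⟨c', d', e1, e2, e3, e4⟩ := hcd.sub_TB (x1 := x + η) (x2 := x + 2 * η) (y1 := n - 2 * η)
    (y2 := n - 1) (by omega) (by omega) (by omega) fun v hv _ _ => by
      have := hv.2
      simp only [mem_rect] at this
      omega
  obtain ⟨v, hv1, hv2⟩ :=
    LR_TB_meet Set.inter_subset_right Set.inter_subset_right hlr hl hr e3 e1 e2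
  obtain ⟨c1, n1, k1⟩ := li_strip (J := J) hcd (by omega) (by omega)
  obtain ⟨c2, n2, k2⟩ := li_nc a n1
  obtain ⟨f1, n3, k3⟩ := li_strip (J := I) hfg (by omega) (by omega)
  obtain ⟨f2, n4, k4⟩ := li_nc b n3
  have k5 := full_conn hFu hG n4 n2
  have m1 := Set.inter_subset_inter_right X (li_sub1 (a := a) (x := x) (Z := Z) (y := y) (I := I)
    (b := b) h3)
  have m2 := Set.inter_subset_inter_right X (li_sub2 (n := n) (y := y) (I := I) (b := b) h1 h2 hZ)
  have m3 := Set.inter_subset_inter_right X (li_sub3 (n := n) (μ := μ) (J := J) (a := a) (x := x)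
    (η := η) (y := y) hZ')
  have m4 : X ∩ reg μ Z ⊆ X ∩ (liA n μ J a x η ∪ reg μ Z ∪ liC y μ I b) :=
    fun w hw => ⟨hw.1, Or.inl (Or.inr hw.2)⟩
  have hfm := hfg.left_mem.2
  simp only [mem_rect] at hfm
  refine ⟨t, f, hf, by omega, by omega, ?_, ht2.symm⟩
  refine ((li_conn2 a (ht1.symm.trans hv1)).mono m1).trans ?_
  refine ((li_conn2 a ((hv2.symm.mono Set.inter_subset_left).trans (e4.symm.trans k1))).mono
    m2).trans ?_
  refine ((k2.mono (Set.inter_subset_inter_right X (li_node_reg hZ))).mono m4).trans ?_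
  refine (k5.symm.mono m4).trans ?_
  refine ((k4.symm.mono (Set.inter_subset_inter_right X (li_node_reg hZ'))).mono m4).trans ?_
  exact (li_conn2 b k3.symm).mono m3

end arm

theorem li_layer {n m μ : ℕ} (hμ : 1 ≤ μ) (h1 : 128 * μ ≤ m) (hm : 8 * m ≤ n) :
    ∃ I : ℕ, 2 ≤ I ∧ 4 * μ * I + 60 * μ + m / 8 ≤ n ∧ n < 4 * μ * I + 64 * μ + m / 8 := by
  have h4 : 0 < 4 * μ := by omega
  have e1 := Nat.div_add_mod (n - m / 8) (4 * μ)
  have e2 := Nat.mod_lt (n - m / 8) h4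
  have e3 : 17 ≤ (n - m / 8) / (4 * μ) := (Nat.le_div_iff_mul_le h4).2 (by omega)
  obtain ⟨I, hI⟩ : ∃ I, (n - m / 8) / (4 * μ) = I + 15 := ⟨(n - m / 8) / (4 * μ) - 15, by omega⟩
  rw [hI] at e1 e3
  have e4 : 4 * μ * (I + 15) = 4 * μ * I + 60 * μ := by ring
  exact ⟨I, by omega, by omega, by omega⟩

theorem li_col {μ η : ℕ} (hμ : 1 ≤ μ) (h : 8 * μ ≤ η) (x : ℤ) :
    ∃ k : ℤ, x + η ≤ 4 * μ * k - μ ∧ 4 * μ * k + μ ≤ x + 2 * η := by
  have h4 : (0 : ℤ) < 4 * μ := by omega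
  have e1 := Int.mul_ediv_add_emod (x + η + 5 * μ) (4 * μ)
  have e2 := Int.emod_lt_of_pos (x + η + 5 * μ) h4
  have e3 := Int.emod_nonneg (x + η + 5 * μ) h4.ne'
  exact ⟨(x + η + 5 * μ) / (4 * μ), by omega, by omega⟩

theorem li_lt {μ : ℕ} (hμ : 1 ≤ μ) {k k' : ℤ} (h : 4 * μ * k < 4 * μ * k') : k < k' :=
  lt_of_mul_lt_mul_left h (by omega)

theorem li_ring (a : Fin 4) {I J : ℕ} {k : ℤ} (hIJ : I ≤ J) (h1 : -(I : ℤ) < k) (h2 : k < I) :
    dst 0 (syf a (k, J)) = J ∧ ((syf a (k, J)).1.natAbs < I ∨ (syf a (k, J)).2.natAbs < I) := by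
  refine ⟨?_, ?_⟩
  · rw [dst_zero_syf]
    simp only [dst, Prod.fst_zero, Prod.snd_zero]
    omega
  · fin_cases a <;> simp [syf] <;> omega

theorem link_sep_in {c : ℝ} (hc : 0 < c) (A : ℕ) : ∃ c' : ℝ, 0 < c' ∧ ∀ (p : ℝ) (N : ℕ),
    RSW p c N → ∀ (n m μ0 : ℕ) (q : PType), 1 ≤ μ0 → 8 * m ≤ n → n ≤ A * μ0 → n ≤ N →
      ValidQ false n m (8 * μ0) q →
      Link p c' (beyond false n) (mid false n (n / 2)) (port false n q) (far false n q)
        (port false (n / 2) (qstd (n / 2))) (far false (n / 2) (qstd (n / 2))) := by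
  refine ⟨c ^ (2 * 1) * c ^ (2 * A) * c ^ (24 * (2 * A + 1) ^ 2) * c ^ (2 * A), by positivity, ?_⟩
  intro p N hR n m μ q hμ hm hA hN hq
  obtain ⟨hq1, hq2, hq3⟩ := hq
  have h128 : 128 * μ ≤ m := by have := hq1 0; omega
  obtain ⟨I, hI2, hI3, hI4⟩ := li_layer hμ h128 hm
  choose k hk1 hk2 using fun i => li_col hμ (hq1 i).1 (q i).2.1
  have eI : ((4 * μ * I : ℕ) : ℤ) = 4 * μ * I := by push_cast; ring
  have eJ : (4 * μ * ((I + 14 : ℕ) : ℤ)) = 4 * μ * I + 56 * μ := by push_cast; ring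
  have eJ' : ((4 * μ * (I + 14) : ℕ) : ℤ) = 4 * μ * I + 56 * μ := by push_cast; ring
  have hkI : ∀ i, -(I : ℤ) < k i ∧ k i < I := fun i => by
    have h1 := hq1 i
    have h2 := hk1 i
    have h3 := hk2 i
    refine ⟨li_lt hμ ?_, li_lt hμ (by omega)⟩
    rw [mul_neg]
    omega
  have hx : ∀ i, -(n : ℤ) < (q i).2.1 + (q i).2.2 ∧ (q i).2.1 + (q i).2.2 < n := fun i => by
    have h1 := hq1 i
    omega
  have hcmp : ∀ i j : Fin 4, i.val % 2 ≠ j.val % 2 →
      (pkey false n q i < pkey false n q j ↔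
        ridx (I + 14) (syf ((q i).1 + 2) (k i, (I + 14 : ℕ))) <
          ridx (I + 14) (syf ((q j).1 + 2) (k j, (I + 14 : ℕ)))) ∧
      ridx (I + 14) (syf ((q i).1 + 2) (k i, (I + 14 : ℕ))) ≠
        ridx (I + 14) (syf ((q j).1 + 2) (k j, (I + 14 : ℕ))) := fun i j hij => by
    have h1 := hkI i
    have h2 := hkI j
    simp only [pkey, li_sd, li_row]
    refine li_cmp (hx i).1 (hx i).2 (hx j).1 (hx j).2 (by omega) (by omega) (by omega) (by omega)
      fun hab => ?_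
    have h3 := hk1 i
    have h4 := hk2 i
    have h5 := hk1 j
    have h6 := hk2 j
    rcases hq2 i j hij hab with h | h
    · exact Or.inl ⟨by omega, li_lt hμ (by omega)⟩
    · exact Or.inr ⟨by omega, li_lt hμ (by omega)⟩
  have hI0 : -(I : ℤ) < 0 ∧ (0 : ℤ) < I := by omega
  obtain ⟨Zf, hZ1, hZ2⟩ := route hI2 (u := fun i => syf (i + 2) (0, I))
    (u' := fun i => syf ((q i).1 + 2) (k i, (I + 14 : ℕ)))
    (fun i => li_ring _ le_rfl hI0.1 hI0.2)
    (fun i => li_ring _ (Nat.le_add_right I 14) (hkI i).1 (hkI i).2)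
    (by
      simp only [li_ridx _ I 0 hI0.1 hI0.2]
      simp only [CCW]
      simp
      omega)
    (hq3.transfer (hcmp 0 1 (by decide)).1 (hcmp 1 2 (by decide)).1 (hcmp 2 3 (by decide)).1
      (hcmp 3 0 (by decide)).1 (hcmp 0 1 (by decide)).2 (hcmp 1 2 (by decide)).2
      (hcmp 2 3 (by decide)).2 (hcmp 3 0 (by decide)).2)
  have hw : ((2 * (n / 2 / 8) : ℕ) : ℤ) = 2 * ((n / 2 / 8 : ℕ) : ℤ) := by push_cast; ring
  obtain ⟨y, hy⟩ : ∃ y : ℤ, y = ((n / 2 : ℕ) : ℤ) - 4 * ((n / 2 / 8 : ℕ) : ℤ) := ⟨_, rfl⟩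
  have hA' : ∀ i v, v ∈ liA n μ (I + 14) ((q i).1 + 2) (q i).2.1 (q i).2.2 →
      (-(syf ((q i).1 + 2) v).2 < (syf ((q i).1 + 2) v).1 ∧
        (syf ((q i).1 + 2) v).1 < (syf ((q i).1 + 2) v).2) ∧
      (4 * μ * I + 57 * μ : ℤ) < dst 0 v ∧ dst 0 v < n := fun i v hv => by
    have h1 := hq1 i
    simp only [liA, Set.mem_preimage, mem_rect] at hv
    have h2 : -(syf ((q i).1 + 2) v).2 < (syf ((q i).1 + 2) v).1 ∧
        (syf ((q i).1 + 2) v).1 < (syf ((q i).1 + 2) v).2 := by omega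
    have h3 := li_dst h2
    exact ⟨h2, by omega, by omega⟩
  have hB' : ∀ i v, v ∈ reg μ (Zf i : Set Site) →
      (4 * μ * I - μ : ℤ) ≤ dst 0 v ∧ (dst 0 v : ℤ) ≤ 4 * μ * I + 57 * μ := fun i v hv => by
    have := reg_dst (hZ1 i).1 hv
    omega
  have hC' : ∀ i v, v ∈ liC y μ I (i + 2) →
      (-(syf (i + 2) v).2 < (syf (i + 2) v).1 ∧ (syf (i + 2) v).1 < (syf (i + 2) v).2) ∧
      (dst 0 v : ℤ) < 4 * μ * I - μ ∧ (dst 0 v : ℤ) = (syf (i + 2) v).2 := fun i v hv => by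
    simp only [liC, Set.mem_preimage, mem_rect] at hv
    have h2 : -(syf (i + 2) v).2 < (syf (i + 2) v).1 ∧ (syf (i + 2) v).1 < (syf (i + 2) v).2 := by
      omega
    have h3 := li_dst h2
    exact ⟨h2, by omega, h3⟩
  have h3 : ∀ i, (4 * μ * ((I + 14 : ℕ) : ℤ) + μ : ℤ) < n - 2 * (q i).2.2 := fun i => by
    have h1 := hq1 i
    omega
  have hP : ∀ i, port false n q i ⊆ liA n μ (I + 14) ((q i).1 + 2) (q i).2.1 (q i).2.2 ∪
      reg μ (Zf i) ∪ liC y μ I (i + 2) := fun i => by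
    simp only [port, li_sd, li_row, pb]
    exact li_sub1 (h3 i)
  refine ⟨fun i => liA n μ (I + 14) ((q i).1 + 2) (q i).2.1 (q i).2.2 ∪ reg μ (Zf i) ∪
      liC y μ I (i + 2),
    fun i => liF n μ I (I + 14) ((q i).1 + 2) (i + 2) (q i).2.1 (k i) y (q i).2.2 (Zf i),
    fun i => ⟨?_, hP i, ?_, ?_, ?_, li_incF, ?_⟩, fun i j hij => ?_, fun i X e s he hs hF hcn => ?_⟩
  · exact (((rect_finite _ _ _ _).preimage (sy _).e.injective.injOn).union
      (reg_finite (Zf i).finite_toSet)).union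
      ((rect_finite _ _ _ _).preimage (sy _).e.injective.injOn)
  · intro v hv
    have : dst 0 v < n := by
      rcases hv with (hv | hv) | hv
      · exact (hA' i v hv).2.2
      · have := hB' i v hv
        omega
      · have := hC' i v hv
        omega
    simpa [beyond] using this
  · intro v hv
    by_cases hn : n / 2 ≤ dst 0 v ∧ dst 0 v < n
    · exact Or.inl (by simpa [mid] using hn)
    · right
      rcases hv with (hv | hv) | hv
      · have := hA' i v hv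
        omega
      · have := hB' i v hv
        omega
      · have h1 := hC' i v hv
        simp only [liC, Set.mem_preimage, mem_rect] at hv
        simp only [port, li_sd, li_row, pb, qstd, Set.mem_preimage, mem_rect]
        omega
  · exact li_supF (hk1 i) (hk2 i) (h3 i) (li_gconn_right (hZ1 i).2) (hZ1 i).2.1
  · have h1 := hq1 i
    refine li_prF hR hc.le _ _ hμ (by omega) (by omega) (by omega) hA (by omega) (h3 i) (by omega)
      (by omega) (by omega) (by omega) ?_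
    have hIA : I + 14 ≤ A := by
      refine le_of_mul_le_mul_right (a := μ) ?_ (by omega)
      have : (I + 14) * μ ≤ 4 * μ * I + 14 * μ := by (clear * - eI; linarith only [eI])
      omega
    rw [← card_ballF 0 A]
    exact Finset.card_le_card fun v hv => mem_ballF.2 (((hZ1 i).1 hv).2.trans hIA)
  · have hne : i ≠ j := fun h => hij (by rw [h])
    rw [Set.disjoint_left]
    rintro v ((hv | hv) | hv) ((hw | hw) | hw)
    · have hab := li_side (hA' i v hv).1 (hA' j v hw).1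
      have h1 := hq2 i j hij (add_right_cancel hab)
      simp only [liA, Set.mem_preimage, mem_rect] at hv hw
      rw [hab] at hv
      omega
    · have := hA' i v hv
      have := hB' j v hw
      omega
    · have := hA' i v hv
      have := hC' j v hw
      omega
    · have := hB' i v hv
      have := hA' j v hw
      omega
    · exact Set.disjoint_left.1 (reg_disjoint hμ (Finset.disjoint_coe.2 (hZ2 i j hne))) hv hw
    · have := hB' i v hv
      have := hC' j v hw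
      omega
    · have := hC' i v hv
      have := hA' j v hw
      omega
    · have := hC' i v hv
      have := hB' j v hw
      omega
    · exact hne (add_right_cancel (li_side (hC' i v hv).1 (hC' j v hw).1))
  · have h1 := hq1 i
    obtain ⟨t0, ht0, hc0⟩ := port_cross (o := false) (n := n) (a := (q i).1) (x := (q i).2.1)
      (η := (q i).2.2) (by omega) (by omega) (by omega) he hs hcn
    simp only [far, pfar, li_sd, li_row, pb, Set.mem_preimage, Set.mem_inter_iff] at hs ht0 hc0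
    obtain ⟨t, s', e1, e2, e3, e4, e5⟩ := li_link (hk1 i) (hk2 i) (h3 i) (by omega) (by omega)
      (hZ1 i).2 hF hs.2 ht0 hc0
    refine ⟨syf ((q i).1 + 2) t, e4.left_mem.2, syf (i + 2) s', ?_, e4, ?_⟩
    · simp only [far, pfar, li_sd, li_row, pb, qstd, Set.mem_preimage, Set.mem_inter_iff, mem_rect,
        syf_syf, Set.mem_ofPred_eq]
      omega
    · have := li_conn2 _ e5
      rw [syf_syf] at this
      simpa only [port, li_sd, li_row, pb] using this

end Pool.Agent.Work.MP_ccd212_pr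
end
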