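import Pool.Agent.Work.MP_ccd212_pr.Defs

/-!
The minimal spanning tree of the triangular lattice and the Aizenman-Burchard-Newman-Wilson space
of immersed trees in the Riemann sphere.
-/

namespace Pool.Agent.Work.MP_ccd212_pr

open MeasureTheory TopologicalSpace
open scoped NNReal ENNReal unitInterval

/-- Label of the edge `x y`: larger and smaller vertex label, ordered lexicographically. -/
def key {β : Type} [LinearOrder β] (V : Site → β) (x y : Site) : β ×ₗ β :=
  toLex (max (V x) (V y), min (V x) (V y))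

/-- The minimal spanning tree of the lattice restricted to `Λ`: an edge is kept unless its end
points are joined in `Λ` by a walk made of edges with smaller labels. -/
def mstG {β : Type} [LinearOrder β] (Λ : Set Site) (V : Site → β) : SimpleGraph Site where
  Adj x y := G.Adj x y ∧ x ∈ Λ ∧ y ∈ Λ ∧ ¬ ∃ w : G.Walk x y, (∀ v ∈ w.support, v ∈ Λ) ∧
    ∀ d ∈ w.darts, key V d.fst d.snd < key V x y
  symm := ⟨fun x y ⟨h1, h2, h3, h4⟩ => ⟨h1.symm, h3, h2, fun ⟨w, hw1, hw2⟩ => h4 ⟨w.reverse,
    by simpa using hw1, fun d hd => by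
      have h := hw2 d.symm (by
        rw [SimpleGraph.Walk.mem_darts_reverse] at hd; exact hd)
      simpa [key, max_comm, min_comm] using h⟩⟩⟩
  loopless := ⟨fun x h => G.loopless.1 x h.1⟩

/-- Independent uniform labels on the sites. -/
noncomputable def labelLaw : Measure (Site → I) := Measure.infinitePi fun _ => volume

/-- The unit sphere of Euclidean three-space. -/
abbrev Sph := Metric.sphere (0 : EuclideanSpace ℝ (Fin 3)) 1

/-- Inverse stereographic projection. -/
noncomputable def stereo (z : ℂ) : Sph :=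
  ⟨!₂[2 * z.re / (1 + ‖z‖ ^ 2), 2 * z.im / (1 + ‖z‖ ^ 2), (‖z‖ ^ 2 - 1) / (1 + ‖z‖ ^ 2)], by
    have h : (0 : ℝ) < 1 + ‖z‖ ^ 2 := by positivity
    have hz : ‖z‖ ^ 2 = z.re ^ 2 + z.im ^ 2 := by
      rw [Complex.sq_norm, Complex.normSq_apply]; ring
    rw [mem_sphere_zero_iff_norm, EuclideanSpace.norm_eq, Real.sqrt_eq_one]
    simp only [Fin.sum_univ_three, Real.norm_eq_abs, sq_abs]
    simp only [Matrix.cons_val_zero, Matrix.cons_val_one, Matrix.cons_val]
    field_simp
    rw [hz]; ring⟩

/-- A finite reference tree with a continuous map to the sphere: positions of the vertices and a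
curve for each oriented edge. -/
structure Imm where
  n : ℕ
  T : SimpleGraph (Fin n)
  tree : T.IsTree
  pos : Fin n → Sph
  arc : Fin n → Fin n → C(I, Sph)
  arc_zero : ∀ u v, T.Adj u v → arc u v 0 = pos u
  arc_symm : ∀ u v, T.Adj u v → ∀ t, arc v u t = arc u v (σ t)

/-- A continuous monotone reparametrisation of an edge. -/
def Repar (φ : I → I) : Prop := Continuous φ ∧ Monotone φ ∧ φ 0 = 0 ∧ φ 1 = 1

/-- The reference tree of `g` is obtained from that of `f` by contracting edges (possibly none),
and `f` is uniformly `ε`-close, after reparametrising the edges, to `g` made constant on the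
contracted edges. -/
def Close (ε : ℝ≥0) (f g : Imm) : Prop :=
  ∃ π : Fin f.n → Fin g.n, Function.Surjective π ∧
    (∀ u v, π u = π v → ∃ w : f.T.Walk u v, ∀ x ∈ w.support, π x = π u) ∧
    (∀ a b, g.T.Adj a b → ∃! e : Fin f.n × Fin f.n, f.T.Adj e.1 e.2 ∧ π e.1 = a ∧ π e.2 = b) ∧
    (∀ u, dist (f.pos u) (g.pos (π u)) ≤ ε) ∧
    ∀ u v, f.T.Adj u v →
      (π u = π v ∧ ∀ t, dist (f.arc u v t) (g.pos (π u)) ≤ ε) ∨
      (g.T.Adj (π u) (π v) ∧ ∃ φ ψ : I → I, Repar φ ∧ Repar ψ ∧
        ∀ t, dist (f.arc u v (φ t)) (g.arc (π u) (π v) (ψ t)) ≤ ε)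

/-- A chain of steps inside patches, of total length `a`. -/
inductive Chain : Imm → Imm → ℝ≥0 → Prop
  | refl (f : Imm) : Chain f f 0
  | step {f g h : Imm} {a ε : ℝ≥0} : Chain f g a → (Close ε g h ∨ Close ε h g) → Chain f h (a + ε)

theorem Chain.trans {f g h : Imm} {a b : ℝ≥0} (h1 : Chain f g a) (h2 : Chain g h b) :
    Chain f h (a + b) := by
  induction h2 with
  | refl => simpa using h1
  | step _ hc ih => rw [← add_assoc]; exact .step ih hc

theorem Chain.symm {f g : Imm} {a : ℝ≥0} (h : Chain f g a) : Chain g f a := by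
  induction h with
  | refl => exact .refl _
  | step _ hc ih =>
    have := (Chain.step (.refl _) hc.symm).trans ih
    rwa [zero_add, add_comm] at this

/-- The distance of immersed trees: infimum of the lengths of chains. -/
noncomputable instance : PseudoEMetricSpace Imm where
  edist f g := ⨅ (a : ℝ≥0) (_ : Chain f g a), (a : ℝ≥0∞)
  edist_self f := le_antisymm (iInf₂_le_of_le 0 (.refl f) (by simp)) (zero_le)
  edist_comm f g := le_antisymm (le_iInf₂ fun a h => iInf₂_le a h.symm)
    (le_iInf₂ fun a h => iInf₂_le a h.symm)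
  edist_triangle f g h := by
    refine ENNReal.le_iInf_add_iInf fun a b => ?_
    by_cases ha : Chain f g a
    · by_cases hb : Chain g h b
      · simp only [ha, hb, iInf_pos]
        exact iInf₂_le_of_le (a + b) (ha.trans hb) (by simp)
      · simp [hb]
    · simp [ha]

/-- Immersed trees: classes of maps at distance zero. -/
abbrev Tr := SeparationQuotient Imm

/-- Graded closed families of immersed trees, with the product of the Hausdorff topologies. -/
abbrev Forest := ℕ → Closeds Tr

/-- Number of leaves of the reference tree. -/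
noncomputable def Imm.leaves (f : Imm) : ℕ := {v | (f.T.neighborSet v).ncard ≤ 1}.ncard

/-- The map is not constant on any segment of an edge. -/
def Imm.Light (f : Imm) : Prop :=
  ∀ u v, f.T.Adj u v → ∀ s t : I, s < t → ∃ r, s ≤ r ∧ r ≤ t ∧ f.arc u v r ≠ f.arc u v s

/-- Sum of the degrees of the vertices mapped to `x`, plus two for each inner point of an edge
mapped to `x`. -/
noncomputable def Imm.deg (f : Imm) (x : Sph) : ℕ∞ :=
  {e : Fin f.n × Fin f.n | f.T.Adj e.1 e.2 ∧ f.pos e.1 = x}.encard +
  2 * {e : Fin f.n × Fin f.n × I | e.1 < e.2.1 ∧ f.T.Adj e.1 e.2.1 ∧ 0 < e.2.2 ∧ e.2.2 < 1 ∧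
    f.arc e.1 e.2.1 e.2.2 = x}.encard

/-- Degree of a point in a graded family of immersed trees. -/
noncomputable def degF (F : Forest) (x : Sph) : ℕ∞ :=
  ⨆ (l : ℕ) (f : Imm) (_ : f.Light ∧ SeparationQuotient.mk f ∈ F l), f.deg x

/-- Position of a site in the plane. -/
noncomputable def emb (v : Site) : ℂ := v.1 + v.2 * (1 / 2 + √3 / 2 * Complex.I)

/-- The polygonal line through the vertices of a walk, at constant speed. -/
noncomputable def poly {H : SimpleGraph Site} {a b : Site} (p : H.Walk a b) (t : I) : ℂ :=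
  AffineMap.lineMap (emb (p.getVert ⌊(t : ℝ) * p.length⌋₊))
    (emb (p.getVert (⌊(t : ℝ) * p.length⌋₊ + 1))) (Int.fract ((t : ℝ) * p.length))

/-- `f` is immersed in the graph `H` drawn at mesh `η`: vertices go to sites, edges to edge-disjoint
simple paths of `H` (a path may be reduced to a point). -/
def InTree (H : SimpleGraph Site) (η : ℝ) (f : Imm) : Prop :=
  ∃ (a : Fin f.n → Site) (p : ∀ u v, f.T.Adj u v → H.Walk (a u) (a v)),
    (∀ u, f.pos u = stereo (η * emb (a u))) ∧
    (∀ u v h, (p u v h).IsPath ∧ ∀ t, f.arc u v t = stereo (η * poly (p u v h) t)) ∧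
    ∀ u v h u' v' h', s(u, v) ≠ s(u', v') → (p u v h).edges.Disjoint (p u' v' h').edges

/-- The minimal spanning tree at mesh `η` as a graded closed family: in degree `l`, the closure of
the subtrees indexed by admissible reference trees with `l` leaves. -/
noncomputable def mstF (adm : (n : ℕ) → SimpleGraph (Fin n) → Prop) (η : ℝ) (V : Site → I) :
    Forest := fun l => Closeds.closure
  (SeparationQuotient.mk '' {f : Imm | f.leaves = l ∧ adm f.n f.T ∧ InTree (mstG Set.univ V) η f})

end Pool.Agent.Work.MP_ccd212_pr
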