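import Pool.Agent.Work.MP_ccd212_pr.LinkI
import Pool.Agent.Work.MP_ccd212_pr.Port2
import Pool.Agent.Work.MP_ccd212_pr.Piv2
import Pool.Agent.Work.MP_ccd212_pr.Top5
import Pool.Agent.Work.MP_ccd212_pr.StDefs

-- merged part: Pool.Agent.Work.MP_ccd212_pr.Blocks2
section
-- merged part: Pool.Agent.Work.MP_ccd212_pr.Rec1
section
/-! Arm separation on the outer boundary. -/

namespace Pool.Agent.Work.MP_ccd212_pr

theorem Rec1_glue {p c : ℝ} (hc : 0 ≤ c) {r n n' : ℕ} {q q' : PType} (hr : r ≤ n) (hn : n ≤ n')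
    (hL : Link p c (beyond true n) (mid true n n') (port true n q) (far true n q)
      (port true n' q') (far true n' q')) :
    c ^ 4 * pr (ber p) (ev true fun S => ArmsOut S r n q) ≤
      pr (ber p) (ev true fun S => ArmsOut S r n' q') := by
  refine glue hc hL (ann_finite 0 r n) (Set.disjoint_left.2 fun v hv hv' => ?_)
    (fun v hv => ?_) _
  · have h1 : n < dst 0 v := hv'
    exact absurd (mem_ann.1 hv).2 (not_le.2 h1)
  · rcases hv with hv | hv
    · exact mem_ann.2 ⟨(mem_ann.1 hv).1, (mem_ann.1 hv).2.trans hn⟩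
    · have h1 : n < dst 0 v ∧ dst 0 v ≤ n' := hv
      exact mem_ann.2 ⟨hr.trans h1.1.le, h1.2⟩

theorem step_out {c ε : ℝ} (hc : 0 < c) (hε : 0 < ε) : ∃ (C : ℝ) (n0 : ℕ), 0 < C ∧
    ∀ (p : ℝ) (N : ℕ), RSW p c N → ∀ r n : ℕ, 1 ≤ r → r ≤ n / 8 → n0 ≤ n → n ≤ N →
      alpha p r n ≤ C * pr (ber p) (ev true fun S => ArmsOut S r (2 * n) (qstd (2 * n))) +
        ε * alpha p r (n / 8) := by
  classical
  obtain ⟨T, A, n0, hT, H⟩ := sepAll_prob hc hε
  obtain ⟨c', hc', HL⟩ := link_sep_out hc A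
  have hK : 0 < (4 * (2 * A + 3) * T) ^ 4 := by positivity
  refine ⟨((4 * (2 * A + 3) * T) ^ 4 : ℕ) / c' ^ 4, n0,
    div_pos (Nat.cast_pos.2 hK) (pow_pos hc' 4), fun p N hR r n hr hrn hn hN => ?_⟩
  obtain ⟨m, μ0, h1, h2, h3, h4, h5⟩ := H n hn
  have hμ : 1 ≤ 8 * μ0 := by omega
  have e1 : pr (ber p) (ev true fun S => Two S 0 r n ∧ SepAll S true n m (8 * μ0) T) ≤
      ((4 * (2 * A + 3) * T) ^ 4 : ℕ) / c' ^ 4 *
        pr (ber p) (ev true fun S => ArmsOut S r (2 * n) (qstd (2 * n))) := by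
    refine (pr_le_sum (ber p) ((qTypes n (8 * μ0) T).filter (ValidQ true n m (8 * μ0)))
      (fun q => ev true fun S => ArmsOut S r n q) fun ω hω => ?_).trans ?_
    · obtain ⟨q, q1, q2, q3⟩ := armsOut_of_sep hr (by omega) hμ h2 h3 hω.1 hω.2
      exact ⟨q, Finset.mem_filter.2 ⟨q1, q2⟩, q3⟩
    refine (Finset.sum_le_card_nsmul _ _
      (pr (ber p) (ev true fun S => ArmsOut S r (2 * n) (qstd (2 * n))) / c' ^ 4)
      fun q hq => ?_).trans ?_
    · rw [le_div_iff₀' (pow_pos hc' 4)]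
      exact Rec1_glue hc'.le (by omega) (by omega)
        (HL p N hR n m μ0 q h1 h3 h4 hN (Finset.mem_filter.1 hq).2)
    · rw [nsmul_eq_mul, div_mul_eq_mul_div, mul_div_assoc]
      refine mul_le_mul_of_nonneg_right (Nat.cast_le.2 ?_)
        (div_nonneg (pr_nonneg _ _) (pow_pos hc' 4).le)
      have h6 : n / (8 * μ0) ≤ A := Nat.div_le_of_le_mul (by linarith only [h4])
      refine (Finset.card_filter_le _ _).trans ((card_qTypes _ _ _).trans ?_)
      gcongr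
  have e2 : pr (ber p) ((ev true fun S => Two S 0 r (n / 8)) ∩
      ev true fun S => ¬ SepAll S true n m (8 * μ0) T) ≤ ε * alpha p r (n / 8) := by
    rw [pr_inter_indep (ber p) (ann_finite 0 r (n / 8)) (ann_finite 0 (n / 2 + 1) (2 * n))
      ((sup_Two 0 r (n / 8)).dep true) ((sup_sepAll true hμ h2 h3).not.dep true)
      (Set.disjoint_left.2 fun v hv hv' => by
        have a1 := (mem_ann.1 hv).2
        have a2 := (mem_ann.1 hv').1
        omega), mul_comm]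
    exact mul_le_mul_of_nonneg_right (h5 p N hR hN true) (pr_nonneg _ _)
  refine le_trans ?_ ((pr_union_le _ _ _).trans (add_le_add e1 e2))
  refine pr_mono _ fun ω hω => ?_
  by_cases hs : SepAll (Col ω true) true n m (8 * μ0) T
  · exact Or.inl ⟨hω, hs⟩
  · exact Or.inr ⟨Two.mono_ring hω le_rfl hrn (Nat.div_le_self _ _), hs⟩

theorem alpha_le_stdOut {c : ℝ} (hc : 0 < c) : ∃ C : ℝ, 0 < C ∧ ∀ (p : ℝ) (N : ℕ), RSW p c N →
    ∀ r n : ℕ, 1 ≤ r → r ≤ n → 4 ≤ n → 2 * n ≤ N →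
      alpha p r n ≤ C * pr (ber p) (ev true fun S => ArmsOut S r (2 * n) (qstd (2 * n))) := by
  have hε : 0 < (c ^ 1000) ^ 4 / 2 := by positivity
  obtain ⟨C, n0, hC, H⟩ := step_out hc hε
  obtain ⟨c', hc', HB⟩ := base_out hc (2 * n0 + 64)
  refine ⟨2 * C + 1 / c', by positivity, fun p N hR r n hr => ?_⟩
  induction n using Nat.strong_induction_on with
  | _ n ih =>
    intro hrn h4 hN
    have hS := pr_nonneg (ber p) (ev true fun S => ArmsOut S r (2 * n) (qstd (2 * n)))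
    by_cases hb : n0 ≤ n ∧ 32 ≤ n ∧ r ≤ n / 8
    · obtain ⟨b1, b2, b3⟩ := hb
      have h1 := H p N hR r n hr b3 b1 (by omega)
      have h2 := ih (n / 8) (by omega) b3 (by omega) (by omega)
      have h3 := Rec1_glue (r := r) (pow_pos hc 1000).le (by omega) (by omega)
        (link_std hR hc.le true (n := 2 * (n / 8)) (n' := 2 * n) (by omega) (by omega)
          (by simp only [if_true]; omega))
      have h5 := mul_le_mul_of_nonneg_left h2 hε.le
      have h6 := mul_le_mul_of_nonneg_left h3 (by positivity : 0 ≤ 2 * C + 1 / c')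
      have h7 := mul_nonneg (one_div_pos.2 hc').le hS
      generalize (c ^ 1000) ^ 4 = γ at *
      linarith only [h7, h1, h5, h6]
    · have h1 := HB p N hR r (2 * n) hr (by omega) (by omega) hN (by
        by_cases h2 : r ≤ n / 8
        · right
          omega
        · left
          have : 64 * r ≤ (2 * n0 + 64) * r := Nat.mul_le_mul_right _ (by omega)
          omega)
      have h2 : alpha p r n ≤ 1 := pr_le_one _ _
      have h3 : 1 ≤ 1 / c' * pr (ber p) (ev true fun S => ArmsOut S r (2 * n) (qstd (2 * n))) := by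
        rw [one_div, ← div_eq_inv_mul, le_div_iff₀ hc', one_mul]
        exact h1
      have h5 := mul_nonneg hC.le hS
      linarith only [h2, h3, h5]

end Pool.Agent.Work.MP_ccd212_pr
end

-- merged part: Pool.Agent.Work.MP_ccd212_pr.Rec2
section
/-! Arm separation on the inner boundary. -/

namespace Pool.Agent.Work.MP_ccd212_pr

/-- Prolonging inner arms from the ring `n` to the ring `n'`. -/
theorem Rec2_glue {p c : ℝ} (hc : 0 ≤ c) {x1 x2 y1 y2 : ℤ} {n n' : ℕ} (hn : n' ≤ n)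
    (hB : Big x1 x2 y1 y2 n) {q q' : PType}
    (hL : Link p c (beyond false n) (mid false n n') (port false n q) (far false n q)
      (port false n' q') (far false n' q')) (T : (Fin 4 → Site) → Prop) :
    c ^ 4 * pr (ber p) (ev true fun S => ArmsIn S x1 x2 y1 y2 n T q) ≤
      pr (ber p) (ev true fun S => ArmsIn S x1 x2 y1 y2 n' T q') := by
  refine glue hc hL ((rect_finite _ _ _ _).subset Set.inter_subset_left)
    (Set.disjoint_left.2 fun v hv hb => ?_) ?_ T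
  · have h1 : n ≤ dst 0 v := hv.2
    have h2 : dst 0 v < n := hb
    omega
  · rintro v (hv | hv)
    · exact ⟨hv.1, hn.trans hv.2⟩
    · have h1 : n' ≤ dst 0 v ∧ max (v.1 - 0).natAbs (v.2 - 0).natAbs < n := hv
      obtain ⟨b1, b2, b3, b4⟩ := hB
      refine ⟨?_, h1.1⟩
      rw [mem_rect]
      omega

theorem Rec2_big {x1 x2 y1 y2 : ℤ} {n n' : ℕ} (hB : Big x1 x2 y1 y2 n) (hn : n' ≤ n) :
    Big x1 x2 y1 y2 n' := by
  unfold Big at *
  omega

theorem step_in {c ε : ℝ} (hc : 0 < c) (hε : 0 < ε) : ∃ (C : ℝ) (n0 : ℕ), 0 < C ∧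
    ∀ (p : ℝ) (N : ℕ), RSW p c N → ∀ (n : ℕ) (x1 x2 y1 y2 : ℤ) (T : (Fin 4 → Site) → Prop),
      n0 ≤ n → n ≤ N → Big x1 x2 y1 y2 (8 * n) → (∀ z, T z → AltT x1 x2 y1 y2 z) →
      (∀ z, T z → T ![z 0, z 3, z 2, z 1]) →
      pr (ber p) (ev true fun S => Arms4 S x1 x2 y1 y2 n T) ≤
        C * pr (ber p) (ev true fun S => ArmsIn S x1 x2 y1 y2 (n / 2) T (qstd (n / 2))) +
        ε * pr (ber p) (ev true fun S => Arms4 S x1 x2 y1 y2 (8 * n) T) := by
  classical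
  obtain ⟨T0, A, n0, hT0, hsep⟩ := sepAll_prob hc hε
  obtain ⟨c', hc', hlink⟩ := link_sep_in hc A
  have hc4 : 0 < c' ^ 4 := pow_pos hc' 4
  refine ⟨(((4 * (2 * A + 3) * T0) ^ 4 : ℕ) : ℝ) / c' ^ 4, n0,
    div_pos (Nat.cast_pos.2 (by positivity)) hc4, ?_⟩
  intro p N hR n x1 x2 y1 y2 T hn hN hB hT hT'
  obtain ⟨m, μ0, h1, h2, h3, h4, h5⟩ := hsep n hn
  have hm : 1 ≤ m := le_trans (Nat.mul_pos (by positivity) (by omega)) h2
  have hsub : (ev true fun S => Arms4 S x1 x2 y1 y2 n T) ⊆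
      (ev true fun S => ∃ q ∈ qTypes n (8 * μ0) T0, ValidQ false n m (8 * μ0) q ∧
        ArmsIn S x1 x2 y1 y2 n T q) ∪
      ((ev true fun S => ¬ SepAll S false n m (8 * μ0) T0) ∩
        ev true fun S => Arms4 S x1 x2 y1 y2 (8 * n) T) := by
    intro ω hω
    by_cases hS : SepAll (Col ω true) false n m (8 * μ0) T0
    · exact Or.inl (armsIn_of_sep (by omega) h2 h3 (Rec2_big hB (by omega)) hT hT' hω hS)
    · exact Or.inr ⟨hS, Arms4.mono_inner hω hT (by omega) hB⟩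
  refine ((pr_mono _ hsub).trans (pr_union_le _ _ _)).trans (add_le_add ?_ ?_)
  · refine (pr_le_sum _ ((qTypes n (8 * μ0) T0).filter fun q => ValidQ false n m (8 * μ0) q)
      (fun q => ev true fun S => ArmsIn S x1 x2 y1 y2 n T q) ?_).trans ?_
    · rintro ω ⟨q, hq1, hq2, hq3⟩
      exact ⟨q, Finset.mem_filter.2 ⟨hq1, hq2⟩, hq3⟩
    · refine (Finset.sum_le_card_nsmul _ _ (pr (ber p) (ev true fun S =>
        ArmsIn S x1 x2 y1 y2 (n / 2) T (qstd (n / 2))) / c' ^ 4) fun q hq => ?_).trans ?_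
      · rw [le_div_iff₀' hc4]
        exact Rec2_glue hc'.le (Nat.div_le_self n 2) (Rec2_big hB (by omega))
          (hlink p N hR n m μ0 q h1 h3 h4 hN (Finset.mem_filter.1 hq).2) T
      · rw [nsmul_eq_mul, div_mul_eq_mul_div, mul_div_assoc]
        refine mul_le_mul_of_nonneg_right (Nat.cast_le.2 ?_) (div_nonneg (pr_nonneg _ _) hc4.le)
        refine ((Finset.card_filter_le _ _).trans (card_qTypes _ _ _)).trans ?_
        have h6 : n / (8 * μ0) ≤ A := Nat.div_le_of_le_mul (by linarith only [h3, h4, hm])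
        gcongr
  · rw [pr_inter_indep _ (ann_finite 0 _ _) ((rect_finite _ _ _ _).subset Set.inter_subset_left)
      ((sup_sepAll false (by omega) h2 h3).not.dep true) ((sup_arms4 _ _ _ _ _ T).dep true)
      (Set.disjoint_left.2 fun v hv hv' => by
        have h7 : dst 0 v ≤ 2 * n := hv.2
        have h8 : 8 * n ≤ dst 0 v := hv'.2
        omega)]
    exact mul_le_mul_of_nonneg_right (h5 p N hR hN false) (pr_nonneg _ _)

theorem alpha_le_stdIn {c : ℝ} (hc : 0 < c) : ∃ (C : ℝ) (n0 : ℕ), 0 < C ∧ ∀ (p : ℝ) (N : ℕ),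
    RSW p c N → ∀ n R : ℕ, n0 ≤ n → n ≤ R → R ≤ N →
      alpha p n R ≤ C * pr (ber p) (ev true fun S =>
        ArmsIn S (-R) R (-R) R (n / 2) (AltT (-R) R (-R) R) (qstd (n / 2))) := by
  have hd : 0 < (c ^ 1000) ^ 4 := by positivity
  obtain ⟨C1, n0, hC1, hstep⟩ := step_in hc (half_pos hd)
  obtain ⟨c0, hc0, hbase⟩ := base_in hc 32
  have hC : 0 < 2 * C1 + c0⁻¹ := by positivity
  refine ⟨2 * C1 + c0⁻¹, max n0 16, hC, fun p N hR n R hn hnR hRN => ?_⟩
  have base : ∀ n : ℕ, 16 ≤ n → n ≤ R → R < 8 * n → 1 ≤ (2 * C1 + c0⁻¹) *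
      pr (ber p) (ev true fun S =>
        ArmsIn S (-R) R (-R) R (n / 2) (AltT (-R) R (-R) R) (qstd (n / 2))) := by
    intro n h1 h2 h3
    have h4 := hbase p N hR (n / 2) R (by omega) (by omega) (by omega) (by omega)
    calc (1 : ℝ) = c0⁻¹ * c0 := (inv_mul_cancel₀ hc0.ne').symm
      _ ≤ _ := mul_le_mul (by linarith only [hC1]) h4 hc0.le hC.le
  have key : ∀ k n : ℕ, max n0 16 ≤ n → n ≤ R → R - n < k →
      pr (ber p) (ev true fun S => Arms4 S (-R) R (-R) R n (AltT (-R) R (-R) R)) ≤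
      (2 * C1 + c0⁻¹) * pr (ber p) (ev true fun S =>
        ArmsIn S (-R) R (-R) R (n / 2) (AltT (-R) R (-R) R) (qstd (n / 2))) := by
    intro k
    induction k with
    | zero => intro n _ _ h; omega
    | succ k ih =>
      intro n h1 h2 h3
      rcases lt_or_ge R (8 * n) with h4 | h4
      · exact (pr_le_one _ _).trans (base n (by omega) h2 h4)
      · have hB : Big (-R) R (-R) R (8 * n) := by
          unfold Big
          omega
        have h5 := hstep p N hR n _ _ _ _ _ (by omega) (by omega) hB (fun _ h => h)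
          fun _ h => AltT.swap h
        have h6 := ih (8 * n) (by omega) h4 (by omega)
        have h7 := Rec2_glue (n := 8 * n / 2) (n' := n / 2) (pow_nonneg hc.le 1000) (by omega)
          (Rec2_big hB (by omega)) (link_std hR hc.le false (by omega) (by omega)
            (by rw [if_neg Bool.false_ne_true]; omega)) (AltT (-R) R (-R) R)
        have h8 := pr_nonneg (ber p) (ev true fun S =>
          ArmsIn S (-R) R (-R) R (n / 2) (AltT (-R) R (-R) R) (qstd (n / 2)))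
        generalize pr (ber p) (ev true fun S =>
          ArmsIn S (-R) R (-R) R (n / 2) (AltT (-R) R (-R) R) (qstd (n / 2))) = a at *
        generalize pr (ber p) (ev true fun S =>
          ArmsIn S (-R) R (-R) R (8 * n / 2) (AltT (-R) R (-R) R) (qstd (8 * n / 2))) = b at *
        have h9 := mul_le_mul_of_nonneg_left h6 (half_pos hd).le
        have h10 := mul_le_mul_of_nonneg_left h7 (half_pos hC).le
        have h11 := mul_nonneg (inv_nonneg.2 hc0.le) h8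
        generalize (c ^ 1000) ^ 4 = d at *
        linarith only [h11, h5, h9, h10]
  rcases lt_or_ge R (8 * n) with h4 | h4
  · exact (alpha_le_one _ _ _).trans (base n (by omega) hnR h4)
  · refine le_trans (pr_mono _ fun ω hω => ?_) (key _ n hn hnR (Nat.lt_succ_self _))
    exact arms4_of_two (by omega) (by omega) hω

end Pool.Agent.Work.MP_ccd212_pr
end

-- merged part: Pool.Agent.Work.MP_ccd212_pr.QM
section
/-! Quasi-multiplicativity of the four-arm probabilities at `p = 1/2`. -/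

namespace Pool.Agent.Work.MP_ccd212_pr

/-- Four-arm probability at the critical point. -/
noncomputable def al (r R : ℕ) : ℝ := alpha (1 / 2) r R

theorem al_pos {r R : ℕ} (hr : 1 ≤ r) (hR : r ≤ R) : 0 < al r R :=
  lt_of_lt_of_le (by positivity) (alpha_small (p := 1 / 2) (by norm_num) (by norm_num) hr hR)

theorem QM_out {r n : ℕ} (hr : 1 ≤ r) (hn : r ≤ n) (h8 : 8 ≤ n) :
    pr (ber (1 / 2)) (ev true fun S => ArmsOut S r n (qstd n)) ≤ al r n :=
  pr_mono _ fun _ h => two_of_stdOut hr hn h8 h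

theorem QM_small {r R K : ℕ} (hr : 1 ≤ r) (hR : r ≤ R) (hK : R ≤ K) :
    (1 / 4 : ℝ) ^ (4 * K) ≤ al r R :=
  (pow_le_pow_of_le_one (by norm_num) (by norm_num) (by omega)).trans
    (alpha_small (p := 1 / 2) (by norm_num) (by norm_num) hr hR)

/-- Bounded ratios of radii cost a constant. -/
theorem al_lower (K : ℕ) : ∃ c : ℝ, 0 < c ∧ ∀ r R : ℕ, 1 ≤ r → r ≤ R → R ≤ K * r → c ≤ al r R := by
  obtain ⟨c, hc, h⟩ := rsw_half
  obtain ⟨c', hc', h'⟩ := base_out hc K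
  refine ⟨min c' ((1 / 4) ^ (4 * 8)), lt_min hc' (by positivity), fun r R h1 h2 h3 => ?_⟩
  rcases le_total 8 R with h8 | h8
  · exact (min_le_left _ _).trans
      ((h' _ R (h R) r R h1 h2 h8 le_rfl (Or.inl h3)).trans (QM_out h1 h2 h8))
  · exact (min_le_right _ _).trans (QM_small h1 h2 h8)

theorem al_double : ∃ C : ℝ, 0 < C ∧ ∀ r n : ℕ, 1 ≤ r → r ≤ n → al r n ≤ C * al r (2 * n) := by
  obtain ⟨c, hc, h⟩ := rsw_half
  obtain ⟨C, hC, h'⟩ := alpha_le_stdOut hc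
  refine ⟨max C (4 ^ (4 * 8)), lt_max_of_lt_left hC, fun r n h1 h2 => ?_⟩
  have h0 : 0 ≤ al r (2 * n) := alpha_nonneg _ _ _
  rcases le_total 4 n with h4 | h4
  · exact (h' _ _ (h (2 * n)) r n h1 h2 h4 le_rfl).trans (mul_le_mul (le_max_left _ _)
      (QM_out h1 (by omega) (by omega)) (pr_nonneg _ _) (hC.le.trans (le_max_left _ _)))
  · have h5 := mul_le_mul_of_nonneg_left (QM_small (K := 8) (R := 2 * n) h1 (by omega) (by omega))
      (show (0 : ℝ) ≤ 4 ^ (4 * 8) by positivity)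
    rw [← mul_pow, mul_one_div_cancel (by norm_num), one_pow] at h5
    exact (alpha_le_one _ _ _).trans (h5.trans (mul_le_mul_of_nonneg_right (le_max_right _ _) h0))

theorem QM_ext (K : ℕ) : ∃ C : ℝ, 0 < C ∧ ∀ r n R : ℕ, 1 ≤ r → r ≤ n → r ≤ R → R ≤ K * n →
    al r n ≤ C * al r R := by
  obtain ⟨C, hC, h⟩ := al_double
  have key : ∀ k r n : ℕ, 1 ≤ r → r ≤ n → al r n ≤ C ^ k * al r (2 ^ k * n) := by
    intro k r n h1 h2
    induction k with
    | zero => simp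
    | succ k ih =>
      have h3 := h r (2 ^ k * n) h1 (h2.trans (Nat.le_mul_of_pos_left _ (by positivity)))
      rw [pow_succ C, mul_assoc, pow_succ' 2, mul_assoc]
      exact ih.trans (mul_le_mul_of_nonneg_left h3 (by positivity))
  exact ⟨C ^ K, by positivity, fun r n R h1 h2 h3 h4 => (key K r n h1 h2).trans
    (mul_le_mul_of_nonneg_left (alpha_mono _ le_rfl h3
      (h4.trans (Nat.mul_le_mul_right _ Nat.lt_two_pow_self.le))) (by positivity))⟩

theorem al_qm : ∃ C : ℝ, 1 ≤ C ∧ ∀ r t R : ℕ, 1 ≤ r → r ≤ t → t ≤ R →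
    al r t * al t R ≤ C * al r R := by
  obtain ⟨c, hc, h⟩ := rsw_half
  obtain ⟨C₁, hC₁, h₁⟩ := alpha_le_stdOut hc
  obtain ⟨C₂, n0, hC₂, h₂⟩ := alpha_le_stdIn hc
  obtain ⟨C₃, hC₃, h₃⟩ := QM_ext (16 * (n0 + 4))
  refine ⟨max 1 (max C₃ (C₃ * C₁ * C₂ / c ^ 8000)), le_max_left _ _, fun r t R h1 h2 h3 => ?_⟩
  have h0 : 0 ≤ al r R := alpha_nonneg _ _ _
  obtain ⟨a, ha⟩ : ∃ a, a = (n0 + 4) * t := ⟨_, rfl⟩
  have a1 : t ≤ a := ha ▸ Nat.le_mul_of_pos_left _ (by omega)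
  have a2 : n0 + 4 ≤ a := ha ▸ Nat.le_mul_of_pos_right _ (by omega)
  have a3 : 16 * (n0 + 4) * t = 16 * a := by rw [ha, mul_assoc]
  rcases le_total R (16 * a) with h4 | h4
  · refine (mul_le_of_le_one_right (alpha_nonneg _ _ _) (alpha_le_one _ _ _)).trans
      ((h₃ r t R h1 h2 (by omega) (by omega)).trans (mul_le_mul_of_nonneg_right ?_ h0))
    exact le_max_of_le_right (le_max_left _ _)
  · have e1 := (h₃ r t a h1 h2 (by omega) (by omega)).trans (mul_le_mul_of_nonneg_left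
      (h₁ _ R (h R) r a h1 (by omega) (by omega) (by omega)) hC₃.le)
    have e2 := (alpha_mono (1 / 2) (r := t) (R := R) (by omega) h4 le_rfl).trans
      (h₂ _ R (h R) (16 * a) R (by omega) h4 le_rfl)
    rw [show 16 * a / 2 = 8 * a by omega] at e2
    have e3 := (glue_std (h R) hc.le (r := r) (n := 2 * a) (n' := 8 * a) (x1 := -R) (x2 := R)
      (y1 := -R) (y2 := R) (by omega) (by omega) (by omega) (by omega) (by omega)
      (by unfold Big; omega) (AltT (-R) R (-R) R)).trans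
        (pr_mono _ fun _ h => two_of_arms4 h1 (by omega) h : _ ≤ al r R)
    have e4 := mul_le_mul e1 e2 (alpha_nonneg _ _ _)
      (mul_nonneg hC₃.le (mul_nonneg hC₁.le (pr_nonneg _ _)))
    refine e4.trans (le_trans ?_ (mul_le_mul_of_nonneg_right
      (le_max_of_le_right (le_max_right _ _)) h0))
    have hp : 0 < c ^ 8000 := pow_pos hc _
    generalize c ^ 8000 = d at e3 hp
    rw [div_mul_eq_mul_div, le_div_iff₀ hp]
    refine le_of_eq_of_le ?_ (mul_le_mul_of_nonneg_left e3 (by positivity))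
    ring

/-- Changing both radii by bounded factors. -/
theorem al_comp (K : ℕ) : ∃ C : ℝ, 1 ≤ C ∧ ∀ r r' R' R : ℕ, 1 ≤ r → r ≤ r' → r' ≤ R' → R' ≤ R →
    r' ≤ K * r → R ≤ K * R' → al r' R' ≤ C * al r R := by
  obtain ⟨c, hc, h⟩ := al_lower K
  obtain ⟨C₁, hC₁, h₁⟩ := QM_ext K
  obtain ⟨C₂, hC₂, h₂⟩ := al_qm
  refine ⟨max 1 (C₁ * C₂ / c), le_max_left _ _, fun r r' R' R h1 h2 h3 h4 h5 h6 => ?_⟩
  refine (h₁ r' R' R (by omega) h3 (by omega) h6).trans (le_trans ?_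
    (mul_le_mul_of_nonneg_right (le_max_right _ _) (alpha_nonneg _ _ _)))
  have e := (mul_le_mul_of_nonneg_right (h r r' h1 h2 h5) (alpha_nonneg (1 / 2) r' R)).trans
    (h₂ r r' R h1 h2 (by omega))
  rw [div_mul_eq_mul_div, le_div_iff₀ hc, mul_assoc, mul_assoc, mul_comm _ c]
  exact mul_le_mul_of_nonneg_left e hC₁.le

end Pool.Agent.Work.MP_ccd212_pr
end

-- merged part: Pool.Agent.Work.MP_ccd212_pr.Grow
section
/-! The four-arm exponent is smaller than two. -/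

namespace Pool.Agent.Work.MP_ccd212_pr

/-- Expected number of four-arm points at scale `u`. -/
noncomputable def pi4 (u : ℕ) : ℝ := (u : ℝ) ^ 2 * al 1 u

/-- Sum of the four-arm probabilities over a box, up to the factor eight. -/
noncomputable def sig (R : ℕ) : ℝ := ∑ t ∈ Finset.Icc 1 R, (t : ℝ) * al 1 t

theorem Grow_nonneg (u : ℕ) : 0 ≤ pi4 u := mul_nonneg (sq_nonneg _) (alpha_nonneg _ _ _)

theorem Grow_sig_nonneg (R : ℕ) : 0 ≤ sig R :=
  Finset.sum_nonneg fun _ _ => mul_nonneg (Nat.cast_nonneg _) (alpha_nonneg _ _ _)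

theorem al_grow (M : ℝ) : ∃ L : ℕ, 2 ≤ L ∧ ∀ u : ℕ, 1 ≤ u → M ≤ (L : ℝ) ^ 2 * al u (L * u) := by
  obtain ⟨c, lam, hc, hl, h⟩ := piv_sum
  obtain ⟨c0, hc0, hR⟩ := rsw_half
  obtain ⟨j, hj⟩ := pow_unbounded_of_one_lt (48 * M / (c * c0 ^ 6)) hl
  have h64 : 1 ≤ 64 ^ j := Nat.one_le_pow _ _ (by norm_num)
  refine ⟨50 * 64 ^ j, by omega, fun u hu => ?_⟩
  obtain ⟨L, hL⟩ : ∃ L : ℕ, L = 50 * 64 ^ j := ⟨_, rfl⟩
  rw [← hL]
  have hLu : u ≤ L * u := Nat.le_mul_of_pos_left _ (by omega)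
  obtain ⟨s, hs⟩ : ∃ s : ℕ, s = 2 * (L * u) := ⟨_, rfl⟩
  have hs2 : s / 2 = L * u := by omega
  have h1 := h (1 / 2) le_rfl (by norm_num) s u j hu (by rw [hs, hL]; exact le_of_eq (by ring))
  have h2 : c0 ^ (2 * 3) ≤ pr (ber (1 / 2)) (ev false fun S => TB S s (5 * s) 0 (3 * s)) :=
    (hR s).tb hc0.le false (by norm_num) (by omega) le_rfl (by omega) (by omega) (by omega)
  have h3 := Finset.sum_le_card_nsmul (core s) (fun v => pr (ber (1 / 2)) (ev true (PivBox s v u)))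
    (al u (L * u)) fun v hv => by
      rw [al, alpha, ← pr_Two_shift _ _ v, ← hs2]
      exact pr_mono _ fun ω hω => PivBox.two hu (by omega) hv hω
  have h4 : (core s).card = (5 * s + 1) * (s + 1) := by
    rw [core, card_rectF]
    congr 1 <;> omega
  have h5 : ((core s).card : ℝ) ≤ 48 * (L : ℝ) ^ 2 * (u : ℝ) ^ 2 := by
    have h6 : (1 : ℝ) ≤ L * u := by exact_mod_cast hu.trans hLu
    rw [h4, hs]
    push_cast
    linarith only [h6, mul_nonneg_of_nonpos_of_nonpos (Mathlib.Tactic.Linarith.sub_nonpos_of_le h6) (Mathlib.Tactic.Linarith.sub_nonpos_of_le h6)]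
  rw [nsmul_eq_mul] at h3
  have hu' : (0 : ℝ) < (u : ℝ) ^ 2 := by positivity
  have hl0 : 0 < lam ^ j := by positivity
  have h6 := mul_le_mul_of_nonneg_right h5 (alpha_nonneg (1 / 2) u (L * u))
  have h7 := mul_le_mul_of_nonneg_right (mul_le_mul_of_nonneg_right
    (mul_le_mul_of_nonneg_left h2 hc.le) hl0.le) hu'.le
  rw [div_lt_iff₀ (by positivity)] at hj
  have h8 := mul_lt_mul_of_pos_right hj hu'
  refine le_of_mul_le_mul_right (?_ : M * (48 * (u : ℝ) ^ 2) ≤ _) (by positivity)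
  unfold al at h3 ⊢
  linarith only [h1, h3, h6, h7, h8]

theorem pi4_grow : ∃ (C : ℝ) (L : ℕ), 1 ≤ C ∧ 2 ≤ L ∧ ∀ j t R : ℕ, 1 ≤ t → L ^ j * t ≤ R →
    2 ^ j * pi4 t ≤ C * pi4 R := by
  obtain ⟨C0, hC0, hq⟩ := al_qm
  obtain ⟨L, hL, hg⟩ := al_grow (2 * C0)
  obtain ⟨C, hC, hc⟩ := al_comp L
  have step : ∀ u : ℕ, 1 ≤ u → 2 * pi4 u ≤ pi4 (L * u) := fun u hu => by
    have h1 := hq 1 u (L * u) le_rfl hu (Nat.le_mul_of_pos_left _ (by omega))
    have h2 := mul_le_mul_of_nonneg_left (hg u hu) (Grow_nonneg u)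
    have h3 := mul_le_mul_of_nonneg_left h1 (show 0 ≤ (L : ℝ) ^ 2 * (u : ℝ) ^ 2 by positivity)
    refine le_of_mul_le_mul_left ?_ (zero_lt_one.trans_le hC0)
    unfold pi4 at h2 ⊢
    push_cast
    linarith only [h2, h3]
  have cmp : ∀ k t R : ℕ, 1 ≤ t → t ≤ R → R ≤ t + k → pi4 t ≤ C * pi4 R := by
    intro k
    have base : ∀ t R : ℕ, 1 ≤ t → t ≤ R → R ≤ L * t → pi4 t ≤ C * pi4 R := fun t R h1 h2 h3 => by
      have h4 := hc 1 1 t R le_rfl le_rfl h1 h2 (by omega) h3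
      have h5 : (t : ℝ) ^ 2 ≤ (R : ℝ) ^ 2 := by exact_mod_cast Nat.pow_le_pow_left h2 2
      have := mul_le_mul h5 h4 (alpha_nonneg _ _ _) (sq_nonneg _)
      unfold pi4
      linarith only [this]
    induction k with
    | zero => exact fun t R h1 h2 h3 => base t R h1 h2 (by nlinarith only [hL, h3, h1])
    | succ k ih =>
      intro t R h1 h2 h3
      rcases le_or_gt R (L * t) with h | h
      · exact base t R h1 h2 h
      · have := ih (L * t) R (by nlinarith only [hL, h1]) h.le (by nlinarith only [hL, h3, h1])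
        linarith only [this, step, h1, step t h1, Grow_nonneg t]
  have it : ∀ j t : ℕ, 1 ≤ t → 2 ^ j * pi4 t ≤ pi4 (L ^ j * t) := fun j t ht => by
    induction j with
    | zero => simp
    | succ j ih =>
      have := step (L ^ j * t) (Nat.mul_pos (by positivity) ht)
      rw [pow_succ' L, mul_assoc L, pow_succ]
      linarith
  exact ⟨C, L, hC, hL, fun j t R ht h => (it j t ht).trans
    (cmp R _ R (Nat.mul_pos (by positivity) ht) h (Nat.le_add_left _ _))⟩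

theorem sig_pos {R : ℕ} (hR : 1 ≤ R) : 0 < sig R := by
  refine Finset.sum_pos (fun t ht => ?_) ⟨1, Finset.mem_Icc.2 ⟨le_rfl, hR⟩⟩
  have h := (Finset.mem_Icc.1 ht).1
  exact mul_pos (by exact_mod_cast h) (al_pos le_rfl h)

theorem sig_mono {t R : ℕ} (h : t ≤ R) : sig t ≤ sig R := by
  exact Finset.sum_le_sum_of_subset_of_nonneg (Finset.Icc_subset_Icc_right h)
    fun _ _ _ => mul_nonneg (Nat.cast_nonneg _) (alpha_nonneg _ _ _)

theorem pi4_le_sig (R : ℕ) : pi4 R ≤ 2 * sig R := by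
  have h1 : ∀ n : ℕ, (n : ℝ) ^ 2 ≤ 2 * ∑ t ∈ Finset.Icc 1 n, (t : ℝ) := fun n => by
    induction n with
    | zero => simp
    | succ n ih =>
      rw [Finset.sum_Icc_succ_top (by omega)]
      push_cast
      linarith
  have h2 : (∑ t ∈ Finset.Icc 1 R, (t : ℝ)) * al 1 R ≤ sig R := by
    rw [Finset.sum_mul]
    refine Finset.sum_le_sum fun t ht => mul_le_mul_of_nonneg_left ?_ (Nat.cast_nonneg _)
    exact alpha_mono _ le_rfl (Finset.mem_Icc.1 ht).1 (Finset.mem_Icc.1 ht).2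
  have h3 := mul_le_mul_of_nonneg_right (h1 R) (alpha_nonneg (1 / 2) 1 R)
  unfold pi4
  unfold al at h2 ⊢
  linarith only [h2, h3]

theorem Grow_block {L r : ℕ} (hL : 1 ≤ L) {B : ℝ} (hB : 0 ≤ B) (hr : 1 ≤ r)
    (h : ∀ t, 1 ≤ t → t ≤ r → pi4 t ≤ B) : sig r ≤ sig (r / L) + L * B := by
  have hs : Finset.Icc 1 (r / L) ⊆ Finset.Icc 1 r :=
    Finset.Icc_subset_Icc_right (Nat.div_le_self _ _)
  have hr' : (0 : ℝ) < r := by exact_mod_cast hr
  have h1 := Finset.sum_le_card_nsmul (Finset.Icc 1 r \ Finset.Icc 1 (r / L))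
    (fun t : ℕ => (t : ℝ) * al 1 t) (L * B / r) fun t ht => by
      simp only [Finset.mem_sdiff, Finset.mem_Icc] at ht
      have h2 : r ≤ L * t := by
        have := Nat.lt_div_mul_add (a := r) hL
        nlinarith only [this, ht, show r / L + 1 ≤ t by omega]
      have h3 : (r : ℝ) ≤ L * t := by exact_mod_cast h2
      have h4 := mul_le_mul_of_nonneg_left (h t ht.1.1 ht.1.2) (Nat.cast_nonneg (α := ℝ) L)
      have h5 := mul_le_mul_of_nonneg_left h3
        (mul_nonneg (Nat.cast_nonneg (α := ℝ) t) (alpha_nonneg (1 / 2) 1 t))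
      rw [le_div_iff₀ hr']
      unfold pi4 at h4
      unfold al at h4 ⊢
      linarith only [h4, h5]
  have h2 : ((Finset.Icc 1 r \ Finset.Icc 1 (r / L)).card : ℝ) ≤ r := by
    exact_mod_cast (Finset.card_le_card Finset.sdiff_subset).trans (by simp)
  have h3 := mul_le_mul_of_nonneg_right h2 (show 0 ≤ L * B / r by positivity)
  rw [mul_div_cancel₀ _ hr'.ne'] at h3
  rw [nsmul_eq_mul] at h1
  rw [sig, sig, ← Finset.sum_sdiff hs]
  linarith only [h1, h3]

theorem Grow_sig : ∃ (C : ℝ) (L : ℕ), 0 < C ∧ 2 ≤ L ∧ ∀ R r j : ℕ, L ^ j * r ≤ R →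
    2 ^ j * sig r ≤ C * pi4 R := by
  obtain ⟨C, L, hC, hL, h⟩ := pi4_grow
  have hL' : (0 : ℝ) < L := by exact_mod_cast (show 0 < L by omega)
  have hC' : 0 < C := zero_lt_one.trans_le hC
  refine ⟨2 * L * C, L, by positivity, hL, fun R r => ?_⟩
  have hp := Grow_nonneg R
  induction r using Nat.strong_induction_on with
  | _ r ih =>
    intro j hj
    rcases Nat.eq_zero_or_pos r with rfl | hr
    · simp only [sig, Nat.zero_lt_one, Finset.Icc_eq_empty_of_lt, Finset.sum_empty, mul_zero]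
      positivity
    have h2 : (0 : ℝ) < 2 ^ j := by positivity
    have h1 := Grow_block (L := L) (B := C * pi4 R / 2 ^ j) (by omega) (by positivity) hr
      fun t ht ht' => by
        rw [le_div_iff₀' h2]
        exact h j t R ht ((Nat.mul_le_mul_left _ ht').trans hj)
    have h3 := ih (r / L) (Nat.div_lt_self hr hL) (j + 1) (by
      rw [pow_succ, mul_assoc]
      exact (Nat.mul_le_mul_left _ (Nat.mul_div_le r L)).trans hj)
    have h4 := mul_le_mul_of_nonneg_left h1 h2.le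
    have h5 : 2 ^ j * (C * pi4 R / 2 ^ j) = C * pi4 R := mul_div_cancel₀ _ h2.ne'
    rw [pow_succ] at h3
    rw [mul_add, mul_left_comm, h5] at h4
    linarith only [h3, h4]

theorem sig_le_pi4 : ∃ C : ℝ, 0 < C ∧ ∀ R : ℕ, 1 ≤ R → sig R ≤ C * pi4 R := by
  obtain ⟨C, L, hC, -, h⟩ := Grow_sig
  exact ⟨C, hC, fun R _ => by simpa using h R R 0 (by simp)⟩

theorem sig_small {ε : ℝ} (hε : 0 < ε) : ∃ L : ℕ, 1 ≤ L ∧ ∀ t R : ℕ, L * t ≤ R →
    sig t ≤ ε * sig R := by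
  obtain ⟨C, L, hC, hL, h⟩ := Grow_sig
  obtain ⟨j, hj⟩ := pow_unbounded_of_one_lt (2 * C / ε) (one_lt_two (α := ℝ))
  refine ⟨L ^ j, Nat.one_le_pow _ _ (by omega), fun t R hR => ?_⟩
  have h1 := (h R t j hR).trans (mul_le_mul_of_nonneg_left (pi4_le_sig R) hC.le)
  rw [div_lt_iff₀ hε] at hj
  have h2 := mul_le_mul_of_nonneg_right hj.le (Grow_sig_nonneg R)
  refine le_of_mul_le_mul_left ?_ (show (0 : ℝ) < 2 ^ j by positivity)
  linarith only [h1, h2]

theorem sig_large (M : ℝ) : ∃ R0 : ℕ, ∀ R, R0 ≤ R → M ≤ sig R := by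
  obtain ⟨C, L, hC, -, h⟩ := pi4_grow
  have h0 : 0 < pi4 1 := mul_pos (by norm_num) (al_pos le_rfl le_rfl)
  obtain ⟨j, hj⟩ := pow_unbounded_of_one_lt (2 * C * M / pi4 1) (one_lt_two (α := ℝ))
  refine ⟨L ^ j * 1, fun R hR => ?_⟩
  have h1 := (h j 1 R le_rfl hR).trans
    (mul_le_mul_of_nonneg_left (pi4_le_sig R) (zero_le_one.trans hC))
  rw [div_lt_iff₀ h0] at hj
  refine le_of_mul_le_mul_left ?_ (show 0 < 2 * C by linarith only [hC])
  linarith

end Pool.Agent.Work.MP_ccd212_pr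
end

-- merged part: Pool.Agent.Work.MP_ccd212_pr.Stab
section
/-! Stability of the four-arm event in a window of labels. -/

namespace Pool.Agent.Work.MP_ccd212_pr

/-- `Two` for some set between the sites with label in `lo` and the sites with label in `hi`. -/
def sand {α : Type} (lo hi : Set α) (c : Site) (r R : ℕ) : Set (Site → α) :=
  {ω | SandTwo {v | ω v ∈ lo} {v | ω v ∈ hi} c r R}

theorem dep_sand {α : Type} (lo hi : Set α) (hlh : lo ⊆ hi) (c : Site) (r R : ℕ) :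
    Dep (sand lo hi c r R) (ann c r R) := by
  rintro ω ω' hω ⟨X, hL, hH, hT⟩
  refine ⟨{v | (v ∈ ann c r R ∧ v ∈ X) ∨ (v ∉ ann c r R ∧ ω' v ∈ lo)}, fun v hv => ?_,
    fun v hv => ?_, sup_Two c r R X _ (fun v hv => ?_) hT⟩
  · by_cases ha : v ∈ ann c r R
    · refine Or.inl ⟨ha, hL ?_⟩
      show ω v ∈ lo
      rw [hω v ha]; exact hv
    · exact Or.inr ⟨ha, hv⟩
  · rcases hv with ⟨ha, hx⟩ | ⟨_, hx⟩
    · have h1 : ω v ∈ hi := hH hx
      show ω' v ∈ hi
      rw [← hω v ha]; exact h1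
    · exact hlh hx
  · constructor
    · exact fun hx => Or.inl ⟨hv, hx⟩
    · rintro (⟨_, hx⟩ | ⟨ha, _⟩)
      · exact hx
      · exact absurd hv ha

theorem pr_sand_shift {α : Type} [Fintype α] (μ : PW α) (lo hi : Set α) (c : Site) (r R : ℕ) :
    pr μ (sand lo hi c r R) = pr μ (sand lo hi 0 r R) := by
  rw [← pr_equiv μ (sh c).e (sand lo hi 0 r R)]
  congr 1
  ext ω
  constructor
  · rintro ⟨X, hL, hH, hT⟩
    exact ⟨(sh c).e ⁻¹' X, fun v hv => hL hv, fun v hv => hH hv, (two_map (sh c) (dst_sh c)).1 hT⟩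
  · rintro ⟨X, hL, hH, hT⟩
    refine ⟨(sh c).e '' X, fun v hv => ?_, ?_, (two_map (sh c) (dst_sh c)).2 ?_⟩
    · obtain ⟨v, rfl⟩ := (sh c).e.surjective v
      exact ⟨v, hL hv, rfl⟩
    · rintro _ ⟨v, hv, rfl⟩
      exact hH hv
    · rwa [Set.preimage_image_eq _ (sh c).e.injective]

/-- The event attached to a pivotal site at distance `t` of the origin. -/
def h29piv {α : Type} (lo hi : Set α) (r R t : ℕ) (u : Site) : Set (Site → α) :=
  {ω | ω u ∈ hi \ lo} ∩ (sand lo hi u 1 (t / 3) ∩ (sand lo hi 0 r (t / 2) ∩ sand lo hi 0 (2 * t) R))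

theorem h29_pr_piv {α : Type} [Fintype α] (μ : PW α) {lo hi : Set α} (hlh : lo ⊆ hi) (r R : ℕ)
    {t : ℕ} (ht : 1 ≤ t) {u : Site} (hu : dst 0 u = t) :
    pr μ (h29piv lo hi r R t u) = μ.mass (hi \ lo) * (pr μ (sand lo hi 0 1 (t / 3)) *
      pr μ (sand lo hi 0 r (t / 2)) * pr μ (sand lo hi 0 (2 * t) R)) := by
  have d0 : Dep {ω : Site → α | ω u ∈ hi \ lo} {u} := fun ω ω' hω h => by
    have h1 : ω u ∈ hi \ lo := h
    show ω' u ∈ hi \ lo
    rwa [← hω u rfl]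
  have d1 := dep_sand lo hi hlh u 1 (t / 3)
  have d2 := dep_sand lo hi hlh 0 r (t / 2)
  have d3 := dep_sand lo hi hlh 0 (2 * t) R
  have f1 := ann_finite u 1 (t / 3)
  have f2 := ann_finite 0 r (t / 2)
  have f3 := ann_finite 0 (2 * t) R
  have d23 : Dep (sand lo hi 0 r (t / 2) ∩ sand lo hi 0 (2 * t) R)
      (ann 0 r (t / 2) ∪ ann 0 (2 * t) R) :=
    (d2.mono Set.subset_union_left).inter (d3.mono Set.subset_union_right)
  have d123 : Dep (sand lo hi u 1 (t / 3) ∩ (sand lo hi 0 r (t / 2) ∩ sand lo hi 0 (2 * t) R))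
      (ann u 1 (t / 3) ∪ (ann 0 r (t / 2) ∪ ann 0 (2 * t) R)) :=
    (d1.mono Set.subset_union_left).inter (d23.mono Set.subset_union_right)
  have e23 : Disjoint (ann 0 r (t / 2)) (ann 0 (2 * t) R) := by
    rw [Set.disjoint_left]
    intro v h1 h2
    rw [mem_ann] at h1 h2
    omega
  have e123 : Disjoint (ann u 1 (t / 3)) (ann 0 r (t / 2) ∪ ann 0 (2 * t) R) := by
    rw [Set.disjoint_left]
    intro v h1 h2
    have t1 := dst_triangle 0 u v
    have t2 := dst_triangle 0 v u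
    have t3 := dst_comm u v
    rw [mem_ann] at h1
    rcases h2 with h2 | h2 <;> rw [mem_ann] at h2 <;> omega
  have e0 : Disjoint ({u} : Set Site) (ann u 1 (t / 3) ∪ (ann 0 r (t / 2) ∪ ann 0 (2 * t) R)) := by
    rw [Set.disjoint_singleton_left]
    have t1 := dst_self u
    rintro (h2 | h2 | h2) <;> rw [mem_ann] at h2 <;> omega
  unfold h29piv
  rw [pr_inter_indep μ (Set.finite_singleton u) (f1.union (f2.union f3)) d0 d123 e0,
    pr_inter_indep μ f1 (f2.union f3) d1 d23 e123, pr_inter_indep μ f2 f3 d2 d3 e23, pr_site,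
    pr_sand_shift μ lo hi u]
  ring

/-- The deterministic dichotomy behind the recursion. -/
theorem h29_split {α : Type} {lo md hi : Set α} (h1 : lo ⊆ md) (h2 : md ⊆ hi) {r R : ℕ}
    (hr : 1 ≤ r) (hR : 6 * r ≤ R) {ω : Site → α} (h : ω ∈ sand lo hi 0 r R) :
    Two {v | ω v ∈ md} 0 (3 * r) (R / 2) ∨
      ∃ u : Site, 3 * r ≤ dst 0 u ∧ dst 0 u ≤ R / 2 ∧ ω ∈ h29piv lo hi r R (dst 0 u) u := by
  obtain ⟨X, hL, hH, hT⟩ := h
  let F : Set Site := ann 0 (3 * r) (R / 2)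
  let X' : Set Site := {v | (v ∈ F ∧ ω v ∈ md) ∨ (v ∉ F ∧ v ∈ X)}
  have hin : ∀ v ∈ F, v ∈ X' ↔ ω v ∈ md := fun v hv =>
    ⟨fun h => h.elim (fun h => h.2) fun h => absurd hv h.1, fun h => Or.inl ⟨hv, h⟩⟩
  have hout : ∀ v, v ∉ F → (v ∈ X ↔ v ∈ X') := fun v hv =>
    ⟨fun h => Or.inr ⟨hv, h⟩, fun h => h.elim (fun h => absurd h.1 hv) fun h => h.2⟩
  by_cases hT' : Two X' 0 r R
  · left
    exact sup_Two 0 (3 * r) (R / 2) X' _ hin (hT'.mono_ring (by omega) (by omega) (by omega))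
  · right
    obtain ⟨u, hu, hne, Y, Y', hY1, hY2, -, -, hag, -, -, hTY, hTY'⟩ :=
      exists_switch (Φ := fun S => Two S 0 r R) (ann_finite 0 (3 * r) (R / 2)) hout hT hT'
    have hu' : 3 * r ≤ dst 0 u ∧ dst 0 u ≤ R / 2 := hu
    have hLY : {v | ω v ∈ lo} ⊆ Y := fun v hv => hY1 ⟨hL hv, by
      by_cases hF : v ∈ F
      · exact (hin v hF).2 (h1 hv)
      · exact (hout v hF).1 (hL hv)⟩
    have hYH : Y ⊆ {v | ω v ∈ hi} := fun v hv => by
      rcases hY2 hv with hx | hx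
      · exact hH hx
      · by_cases hF : v ∈ F
        · exact h2 ((hin v hF).1 hx)
        · exact hH ((hout v hF).2 hx)
    refine ⟨u, hu'.1, hu'.2, ⟨?_, ?_⟩, ⟨Y, hLY, hYH, ?_⟩, ⟨Y, hLY, hYH, ?_⟩, ⟨Y, hLY, hYH, ?_⟩⟩
    · by_contra hc
      exact hne ⟨fun hx => absurd (hH hx) hc, fun hx => absurd (h2 ((hin u hu).1 hx)) hc⟩
    · intro hc
      exact hne ⟨fun _ => (hin u hu).2 (h1 hc), fun _ => hL hc⟩
    · exact two_of_piv_two (by omega) (by omega) (by omega) hag hTY hTY'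
    · exact hTY.mono_ring le_rfl (by omega) (by omega)
    · exact hTY.mono_ring (by omega) (by omega) le_rfl

/-- One step of the recursion. -/
theorem sand_rec {α : Type} [Fintype α] (μ : PW α) {lo md hi : Set α} (h1 : lo ⊆ md) (h2 : md ⊆ hi)
    (hm : μ.mass md = 1 / 2) {r R : ℕ} (hr : 1 ≤ r) (hR : 6 * r ≤ R) :
    pr μ (sand lo hi 0 r R) ≤ al (3 * r) (R / 2) + ∑ t ∈ Finset.Icc (3 * r) (R / 2),
      8 * t * μ.mass (hi \ lo) * (pr μ (sand lo hi 0 1 (t / 3)) * pr μ (sand lo hi 0 r (t / 2)) *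
        pr μ (sand lo hi 0 (2 * t) R)) := by
  let A : Set (Site → α) := {ω | Two {v | ω v ∈ md} 0 (3 * r) (R / 2)}
  let B : ℕ → Set (Site → α) := fun t => {ω | ∃ u ∈ annF 0 t t, ω ∈ h29piv lo hi r R t u}
  let D : Set (Site → α) := {ω | ∃ t ∈ Finset.Icc (3 * r) (R / 2), ω ∈ B t}
  have hsub : sand lo hi 0 r R ⊆ A ∪ D := fun ω hω => by
    rcases h29_split h1 h2 hr hR hω with h | ⟨u, hu1, hu2, hu⟩
    · exact Or.inl h
    · exact Or.inr ⟨dst 0 u, Finset.mem_Icc.2 ⟨hu1, hu2⟩, u, mem_annF.2 ⟨le_rfl, le_rfl⟩, hu⟩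
  have hA : pr μ A = al (3 * r) (R / 2) := by
    have := pr_pred μ md (ann_finite 0 (3 * r) (R / 2)) (sup_Two 0 (3 * r) (R / 2))
    rw [hm] at this
    exact this
  have hD : pr μ D ≤ ∑ t ∈ Finset.Icc (3 * r) (R / 2), pr μ (B t) :=
    pr_le_sum μ _ B fun ω hω => hω
  refine (pr_mono μ hsub).trans ((pr_union_le μ A D).trans ?_)
  rw [hA]
  refine add_le_add le_rfl (hD.trans (Finset.sum_le_sum fun t ht => ?_))
  have ht1 : 1 ≤ t := by have := (Finset.mem_Icc.1 ht).1; omega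
  have hB : pr μ (B t) ≤ ∑ u ∈ annF 0 t t, pr μ (h29piv lo hi r R t u) :=
    pr_le_sum μ _ (fun u => h29piv lo hi r R t u) fun ω hω => hω
  refine hB.trans (le_of_eq ?_)
  rw [Finset.sum_congr rfl fun u hu => h29_pr_piv μ (h1.trans h2) r R ht1
    (by have := mem_annF.1 hu; omega), Finset.sum_const, card_annF_self 0 ht1, nsmul_eq_mul]
  push_cast
  ring

theorem h29_al_nonneg (r R : ℕ) : 0 ≤ al r R := pr_nonneg _ _

theorem stab_upper : ∃ η C : ℝ, 0 < η ∧ 1 ≤ C ∧ ∀ (α : Type) [Fintype α] (μ : PW α)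
    (lo md hi : Set α), lo ⊆ md → md ⊆ hi → μ.mass md = 1 / 2 → ∀ R0 : ℕ,
      μ.mass (hi \ lo) * sig R0 ≤ η → ∀ (c : Site) (r R : ℕ), 1 ≤ r → r ≤ R → R ≤ R0 →
        pr μ (sand lo hi c r R) ≤ C * al r R := by
  obtain ⟨Ca, hCa1, hCa⟩ := al_comp 5
  obtain ⟨Cq, hCq1, hCq⟩ := al_qm
  obtain ⟨c0, hc0, hlow⟩ := al_lower 6
  obtain ⟨C, hC1, hC2⟩ : ∃ C : ℝ, 2 * Ca ≤ C ∧ 1 / c0 ≤ C :=
    ⟨max (2 * Ca) (1 / c0), le_max_left _ _, le_max_right _ _⟩
  have hC : 1 ≤ C := by linarith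
  have hCa0 : 0 < Ca := by linarith
  have hCq0 : 0 < Cq := by linarith
  have hC0 : 0 < C := by linarith
  refine ⟨1 / (16 * C ^ 2 * Ca ^ 3 * Cq), C, by positivity, hC, ?_⟩
  intro α _ μ lo md hi h1 h2 hm R0 hη c r R hr hrR hR0
  rw [pr_sand_shift]
  have hm0 : 0 ≤ μ.mass (hi \ lo) := PW.mass_nonneg μ _
  have key : ∀ n r R : ℕ, R - r = n → 1 ≤ r → r ≤ R → R ≤ R0 →
      pr μ (sand lo hi 0 r R) ≤ C * al r R := by
    intro n
    induction n using Nat.strong_induction_on with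
    | _ n ih =>
      intro r R hn hr hrR hR0
      have ha0 := h29_al_nonneg r R
      by_cases hR : 6 * r ≤ R
      · refine (sand_rec μ h1 h2 hm hr hR).trans ?_
        have e1 : al (3 * r) (R / 2) ≤ Ca * al r R :=
          hCa r (3 * r) (R / 2) R hr (by omega) (by omega) (by omega) (by omega) (by omega)
        have e2 : ∀ t ∈ Finset.Icc (3 * r) (R / 2), 8 * t * μ.mass (hi \ lo) *
            (pr μ (sand lo hi 0 1 (t / 3)) * pr μ (sand lo hi 0 r (t / 2)) *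
              pr μ (sand lo hi 0 (2 * t) R)) ≤
            8 * C ^ 3 * Ca ^ 3 * Cq * μ.mass (hi \ lo) * al r R * ((t : ℝ) * al 1 t) := by
          intro t ht
          obtain ⟨ht1, ht2⟩ := Finset.mem_Icc.1 ht
          have p1 : pr μ (sand lo hi 0 1 (t / 3)) ≤ C * (Ca * al 1 t) :=
            (ih (t / 3 - 1) (by omega) 1 (t / 3) rfl le_rfl (by omega) (by omega)).trans
              (mul_le_mul_of_nonneg_left (hCa 1 1 (t / 3) t le_rfl le_rfl (by omega) (by omega)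
                (by omega) (by omega)) hC0.le)
          have p2 : pr μ (sand lo hi 0 r (t / 2)) ≤ C * (Ca * al r t) :=
            (ih (t / 2 - r) (by omega) r (t / 2) rfl hr (by omega) (by omega)).trans
              (mul_le_mul_of_nonneg_left (hCa r r (t / 2) t hr le_rfl (by omega) (by omega)
                (by omega) (by omega)) hC0.le)
          have p3 : pr μ (sand lo hi 0 (2 * t) R) ≤ C * (Ca * al t R) :=
            (ih (R - 2 * t) (by omega) (2 * t) R rfl (by omega) (by omega) hR0).trans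
              (mul_le_mul_of_nonneg_left (hCa t (2 * t) R R (by omega) (by omega) (by omega) le_rfl
                (by omega) (by omega)) hC0.le)
          have q : al r t * al t R ≤ Cq * al r R := hCq r t R hr (by omega) (by omega)
          have a1 := h29_al_nonneg 1 t
          have a2 := h29_al_nonneg r t
          have a3 := h29_al_nonneg t R
          have s1 : pr μ (sand lo hi 0 1 (t / 3)) * pr μ (sand lo hi 0 r (t / 2)) *
              pr μ (sand lo hi 0 (2 * t) R) ≤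
              C * (Ca * al 1 t) * (C * (Ca * al r t)) * (C * (Ca * al t R)) :=
            mul_le_mul (mul_le_mul p1 p2 (pr_nonneg _ _) (by positivity)) p3 (pr_nonneg _ _)
              (by positivity)
          have s2 : C * (Ca * al 1 t) * (C * (Ca * al r t)) * (C * (Ca * al t R)) ≤
              C ^ 3 * Ca ^ 3 * al 1 t * (Cq * al r R) := by
            calc C * (Ca * al 1 t) * (C * (Ca * al r t)) * (C * (Ca * al t R))
                = C ^ 3 * Ca ^ 3 * al 1 t * (al r t * al t R) := by ring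
              _ ≤ _ := mul_le_mul_of_nonneg_left q (by positivity)
          calc _ ≤ 8 * t * μ.mass (hi \ lo) * (C ^ 3 * Ca ^ 3 * al 1 t * (Cq * al r R)) :=
                mul_le_mul_of_nonneg_left (s1.trans s2) (by positivity)
            _ = _ := by ring
        have e3 : ∑ t ∈ Finset.Icc (3 * r) (R / 2), (t : ℝ) * al 1 t ≤ sig R0 := by
          unfold sig
          refine Finset.sum_le_sum_of_subset_of_nonneg (fun t ht => ?_) fun t _ _ => ?_
          · rw [Finset.mem_Icc] at ht ⊢; omega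
          · have := h29_al_nonneg 1 t; positivity
        have e4 := Finset.sum_le_sum e2
        rw [← Finset.mul_sum] at e4
        have e5 : 8 * C ^ 3 * Ca ^ 3 * Cq * μ.mass (hi \ lo) * al r R *
            ∑ t ∈ Finset.Icc (3 * r) (R / 2), (t : ℝ) * al 1 t ≤ C / 2 * al r R := by
          calc _ ≤ 8 * C ^ 3 * Ca ^ 3 * Cq * μ.mass (hi \ lo) * al r R * sig R0 :=
                mul_le_mul_of_nonneg_left e3 (by positivity)
            _ = 8 * C ^ 3 * Ca ^ 3 * Cq * al r R * (μ.mass (hi \ lo) * sig R0) := by ring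
            _ ≤ 8 * C ^ 3 * Ca ^ 3 * Cq * al r R * (1 / (16 * C ^ 2 * Ca ^ 3 * Cq)) :=
                mul_le_mul_of_nonneg_left hη (by positivity)
            _ = C / 2 * al r R := by field_simp; ring
        have e6 : Ca * al r R ≤ C / 2 * al r R := mul_le_mul_of_nonneg_right (by linarith only [hC1]) ha0
        linarith only [e1, e4, e5, e6]
      · have hl := hlow r R hr hrR (by omega)
        calc pr μ (sand lo hi 0 r R) ≤ 1 := pr_le_one μ _
          _ = 1 / c0 * c0 := by field_simp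
          _ ≤ C * al r R := mul_le_mul hC2 hl hc0.le hC0.le
  exact key _ r R rfl hr hrR hR0

end Pool.Agent.Work.MP_ccd212_pr
end

-- merged part: Pool.Agent.Work.MP_ccd212_pr.Stab2
section
/-! Box crossings and four arms slightly above the critical point. -/

namespace Pool.Agent.Work.MP_ccd212_pr

/-- Three labels: open at `1/2`, opened between `1/2` and `p`, closed at `p`. -/
noncomputable def tri (p : ℝ) (h0 : 1 / 2 ≤ p) (h1 : p ≤ 1) : PW (Fin 3) where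
  w := ![1 / 2, p - 1 / 2, 1 - p]
  nonneg a := by fin_cases a <;> simp <;> linarith
  sum_one := by simp [Fin.sum_univ_three]

section
variable {p : ℝ} (h0 : 1 / 2 ≤ p) (h1 : p ≤ 1)

private theorem m0 : (tri p h0 h1).mass {a | a = 0} = 1 / 2 := by
  simp [PW.mass, tri, Set.indicator]

private theorem m1 : (tri p h0 h1).mass {a | a = 1} = p - 1 / 2 := by
  simp [PW.mass, tri, Set.indicator]

private theorem m2 : (tri p h0 h1).mass {a | a = 2} = 1 - p := by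
  simp [PW.mass, tri, Set.indicator]

private theorem n0 : (tri p h0 h1).mass {a | a ≠ 0} = 1 / 2 := by
  simp [PW.mass, Fin.sum_univ_three, tri, Set.indicator]
  ring

private theorem n2 : (tri p h0 h1).mass {a | a ≠ 2} = p := by
  simp [PW.mass, Fin.sum_univ_three, tri, Set.indicator]

end

private theorem d02 : ({a | a ≠ 0} \ {a | a = 2} : Set (Fin 3)) = {a | a = 1} := by
  ext a; fin_cases a <;> simp

private theorem d20 : ({a | a ≠ 2} \ {a | a = 0} : Set (Fin 3)) = {a | a = 1} := by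
  ext a; fin_cases a <;> simp

private theorem s20 : ({a | a = 2} : Set (Fin 3)) ⊆ {a | a ≠ 0} := by
  rintro a rfl; simp

private theorem s02 : ({a | a = 0} : Set (Fin 3)) ⊆ {a | a ≠ 2} := by
  rintro a rfl; simp

private theorem site_indep {α : Type} [Fintype α] (μ : PW α) (u : Site) (A : Set α)
    {E : Set (Site → α)} {Z : Set Site} (hZ : Z.Finite) (hE : Dep E Z) (hu : u ∉ Z) :
    pr μ ({ω | ω u ∈ A} ∩ E) = μ.mass A * pr μ E := by
  rw [pr_inter_indep μ (S := {u}) (Set.finite_singleton u) hZ ?_ hE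
    (Set.disjoint_singleton_left.2 hu), pr_site]
  intro ω ω' h1 h2
  simp only [Set.mem_ofPred_eq] at h2 ⊢
  rw [← h1 u rfl]
  exact h2

private theorem rsw_det {n q : ℕ} (hq : 1 ≤ q) (hn : 3 * q ≤ n) (ω : Site → Fin 3)
    (hA : LR {v | ω v ∈ {a : Fin 3 | a ≠ 0}} (-q) (2 * n + q) q (2 * q))
    (hB : ¬ LR {v | ω v ∈ {a : Fin 3 | a = 2}} 0 (2 * n) 0 n) :
    ∃ u ∈ rectF 0 (2 * n) q (2 * q),
      ω ∈ {ω : Site → Fin 3 | ω u ∈ {a : Fin 3 | a = 1}} ∩ sand {a | a = 2} {a | a ≠ 0} u 1 q := by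
  obtain ⟨u, hu, hne, Y, Y', y1, y2, -, -, hag, hY, hY', hΦ, hΦ'⟩ := exists_switch
    (Φ := fun S => LR S (-q) (2 * n + q) 0 n)
    (X := {v | ω v ≠ 0 ∧ (v ∈ rect 0 (2 * n) 0 n → v ∉ rect 0 (2 * n) q (2 * q) → ω v = 2)})
    (X' := {v | ω v ≠ 0 ∧ (v ∈ rect 0 (2 * n) 0 n → ω v = 2)})
    (rect_finite 0 (2 * n) q (2 * q))
    (fun v hv => by simp only [Set.mem_ofPred_eq, hv, not_false_iff, true_imp_iff])
    (by
      obtain ⟨a, b, ha, hb, hc⟩ := hA
      refine ⟨a, b, ha, hb, hc.mono fun v hv => ?_⟩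
      have h2 := hv.2
      simp only [mem_rect] at h2
      exact ⟨⟨hv.1, fun h3 h4 => absurd (by simp only [mem_rect] at h3 ⊢; omega) h4⟩,
        by simp only [mem_rect]; omega⟩)
    (by
      rintro ⟨a, b, ha, hb, hc⟩
      obtain ⟨a', b', h1, h2, h3, -⟩ := hc.sub_LR (x1 := 0) (x2 := 2 * n) (y1 := 0) (y2 := n)
        (by omega) (by omega) (by omega) fun v hv _ _ => hv.2.2.2
      exact hB ⟨a', b', h1, h2, h3.mono fun v hv => ⟨hv.1.1.2 hv.2, hv.2⟩⟩)
  have hu' := hu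
  simp only [mem_rect] at hu'
  have hR : u ∈ rect 0 (2 * n) 0 n := by simp only [mem_rect]; omega
  simp only [Set.mem_ofPred_eq, hu, hR, not_true, false_imp_iff, true_imp_iff, and_true]
    at hne hY hY'
  have h1 : ω u = 1 := by
    revert hne
    generalize ω u = a
    fin_cases a <;> simp
  refine ⟨u, mem_rectF.2 hu', h1, Y, fun v hv => y1 ?_, fun v hv => ?_, ?_⟩
  · exact ⟨⟨s20 hv, fun _ _ => hv⟩, s20 hv, fun _ => hv⟩
  · exact (y2 hv).elim (fun h => h.1) fun h => h.1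
  · have e : Y' = Y \ {u} := by
      ext v
      by_cases hv : v = u
      · subst hv
        simp [hY', h1]
      · simp [hv, hag v hv]
    refine two_of_cut (D := rect (-q) (2 * n + q) 0 n) (A := {a | a.1 = -q})
      (B := {b | b.1 = 2 * n + q}) hq (fun v hv => ?_) (fun a ha => ?_) (fun a ha => ?_) ?_ ?_
    · simp only [mem_ball, dst, mem_rect] at hv ⊢
      omega
    · simp only [Set.mem_ofPred_eq, dst] at ha ⊢
      omega
    · simp only [Set.mem_ofPred_eq, dst] at ha ⊢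
      omega
    · obtain ⟨a, b, ha, hb, hc⟩ := hΦ
      exact ⟨a, ha, b, hb, hc⟩
    · rintro ⟨a, ha, b, hb, hc⟩
      exact hΦ' ⟨a, b, ha, hb, e ▸ hc⟩

/-- The event seen at a switching site at distance `t`. -/
private def swE (u : Site) (t R : ℕ) : Set (Site → Fin 3) :=
  {ω | ω u ∈ {a : Fin 3 | a = 1}} ∩ (sand {a | a = 0} {a | a ≠ 2} 0 (2 * t) R ∩
    {ω | 3 ≤ t → ω ∈ sand {a | a = 0} {a | a ≠ 2} u 1 (t / 3) ∩
      sand {a | a = 0} {a | a ≠ 2} 0 1 (t / 2)})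

private theorem low_det {R : ℕ} (hR : 2 ≤ R) (ω : Site → Fin 3)
    (hA : Two {v | ω v ∈ {a : Fin 3 | a = 0}} 0 1 R)
    (hB : ¬ Two {v | ω v ∈ {a : Fin 3 | a ≠ 2}} 0 1 (R / 2)) :
    ∃ i ∈ (Finset.Icc 1 (R / 2)).sigma fun t => annF 0 t t, ω ∈ swE i.2 i.1 R := by
  obtain ⟨u, hu, hne, Y, Y', y1, y2, -, -, hag, -, -, hΦ, hΦ'⟩ := exists_switch
    (Φ := fun S => Two S 0 1 R) (X := {v | ω v = 0})
    (X' := {v | ω v = 0 ∨ (ω v ≠ 2 ∧ v ∈ ann 0 1 (R / 2))}) (ann_finite 0 1 (R / 2))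
    (fun v hv => by simp only [Set.mem_ofPred_eq, hv, and_false, or_false]) hA
    (fun h => hB (sup_Two 0 1 (R / 2) _ _ (fun v hv => by
      simp only [Set.mem_ofPred_eq, hv, and_true]
      exact ⟨fun h => h.elim (fun h => s02 h) id, Or.inr⟩)
      (h.mono_ring le_rfl (by omega) (by omega))))
  simp only [Set.mem_ofPred_eq, hu, and_true] at hne
  have h1 : ω u = 1 := by
    revert hne
    generalize ω u = a
    fin_cases a <;> simp
  have a1 : {v | ω v ∈ {a : Fin 3 | a = 0}} ⊆ Y := fun v hv => y1 ⟨hv, Or.inl hv⟩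
  have a2 : Y ⊆ {v | ω v ∈ {a : Fin 3 | a ≠ 2}} := fun v hv =>
    (y2 hv).elim (fun h => s02 h) fun h => h.elim (fun h => s02 h) fun h => h.1
  rw [mem_ann] at hu
  refine ⟨⟨dst 0 u, u⟩, by simp [hu.1, hu.2], ?_⟩
  show ω ∈ swE u (dst 0 u) R
  refine ⟨h1, ⟨Y, a1, a2, hΦ.mono_ring (by omega) (by omega) le_rfl⟩, fun ht =>
    ⟨⟨Y, a1, a2, two_of_piv_two (by omega) (by omega) (by omega) hag hΦ hΦ'⟩,
      Y, a1, a2, hΦ.mono_ring le_rfl (by omega) (by omega)⟩⟩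

private theorem al_nn (r R : ℕ) : 0 ≤ al r R := alpha_nonneg _ _ _

private theorem swE_le {C : ℝ} (hC : 1 ≤ C) : ∃ K : ℝ, 0 < K ∧ ∀ (μ : PW (Fin 3)) (R : ℕ),
    (∀ (c : Site) (r s : ℕ), 1 ≤ r → r ≤ s → s ≤ R →
      pr μ (sand {a | a = 0} {a | a ≠ 2} c r s) ≤ C * al r s) →
    ∀ (u : Site) (t : ℕ), 1 ≤ t → 2 * t ≤ R → dst 0 u = t →
      pr μ (swE u t R) ≤ μ.mass {a | a = 1} * (K * (al 1 t * al 1 R)) := by
  obtain ⟨C1, hC1, comp⟩ := al_comp 6
  obtain ⟨C2, hC2, qm⟩ := al_qm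
  obtain ⟨c, hc, low⟩ := al_lower 2
  refine ⟨C ^ 3 * C1 ^ 2 * C2 + C * C1 / c, by positivity, fun μ R H u t ht hR hu => ?_⟩
  have hm := μ.mass_nonneg {a | a = 1}
  have p1 := al_nn 1 t
  have p2 := al_nn 1 R
  have D := dep_sand _ _ s02
  by_cases h3 : 3 ≤ t
  · have e : swE u t R = {ω | ω u ∈ {a : Fin 3 | a = 1}} ∩
        (sand {a | a = 0} {a | a ≠ 2} 0 (2 * t) R ∩ (sand {a | a = 0} {a | a ≠ 2} u 1 (t / 3) ∩
          sand {a | a = 0} {a | a ≠ 2} 0 1 (t / 2))) := by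
      simp only [swE, h3, true_imp_iff, Set.ofPred_mem_eq]
    have d1 : Dep (sand {a | a = 0} {a | a ≠ 2} u 1 (t / 3) ∩
        sand {a : Fin 3 | a = 0} {a | a ≠ 2} 0 1 (t / 2)) (ann u 1 (t / 3) ∪ ann 0 1 (t / 2)) :=
      ((D _ _ _).mono Set.subset_union_left).inter ((D _ _ _).mono Set.subset_union_right)
    have f1 := (ann_finite u 1 (t / 3)).union (ann_finite 0 1 (t / 2))
    rw [e, site_indep μ u _ ((ann_finite 0 (2 * t) R).union f1)
      (((D _ _ _).mono Set.subset_union_left).inter (d1.mono Set.subset_union_right))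
      (by simp only [Set.mem_union, mem_ann, dst_self]; omega),
      pr_inter_indep μ (ann_finite _ _ _) f1 (D _ _ _) d1 (Set.disjoint_left.2 fun v a b => by
        have := dst_triangle 0 u v
        simp only [Set.mem_union, mem_ann] at a b
        omega),
      pr_inter_indep μ (ann_finite _ _ _) (ann_finite _ _ _) (D _ _ _) (D _ _ _)
        (Set.disjoint_left.2 fun v a b => by
          have := dst_triangle 0 v u
          have := dst_comm u v
          simp only [mem_ann] at a b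
          omega)]
    refine mul_le_mul_of_nonneg_left ?_ hm
    have b1 := H 0 (2 * t) R (by omega) hR le_rfl
    have b2 := (H u 1 (t / 3) le_rfl (by omega) (by omega)).trans (mul_le_mul_of_nonneg_left
      (comp 1 1 (t / 3) t le_rfl le_rfl (by omega) (by omega) (by omega) (by omega)) (by positivity))
    have b3 := (H 0 1 (t / 2) le_rfl (by omega) (by omega)).trans (mul_le_mul_of_nonneg_left
      (comp 1 1 (t / 2) (2 * t) le_rfl le_rfl (by omega) (by omega) (by omega) (by omega))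
      (by positivity))
    have b4 := qm 1 (2 * t) R le_rfl (by omega) hR
    have p3 := al_nn 1 (2 * t)
    have p4 := al_nn (2 * t) R
    calc _ ≤ C * al (2 * t) R * (C * (C1 * al 1 t) * (C * (C1 * al 1 (2 * t)))) :=
          mul_le_mul b1 (mul_le_mul b2 b3 (pr_nonneg _ _) (by positivity))
            (mul_nonneg (pr_nonneg _ _) (pr_nonneg _ _)) (by positivity)
      _ = C ^ 3 * C1 ^ 2 * al 1 t * (al 1 (2 * t) * al (2 * t) R) := by ring
      _ ≤ C ^ 3 * C1 ^ 2 * al 1 t * (C2 * al 1 R) :=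
          mul_le_mul_of_nonneg_left b4 (by positivity)
      _ = C ^ 3 * C1 ^ 2 * C2 * (al 1 t * al 1 R) := by ring
      _ ≤ _ := mul_le_mul_of_nonneg_right (le_add_of_nonneg_right (by positivity))
          (by positivity)
  · have e : swE u t R = {ω | ω u ∈ {a : Fin 3 | a = 1}} ∩
        sand {a | a = 0} {a | a ≠ 2} 0 (2 * t) R := by
      simp only [swE, h3, false_imp_iff, Set.ofPred_true, Set.inter_univ]
    rw [e, site_indep μ u _ (ann_finite 0 (2 * t) R) (D _ _ _) (by rw [mem_ann]; omega)]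
    refine mul_le_mul_of_nonneg_left ?_ hm
    have b1 := (H 0 (2 * t) R (by omega) hR le_rfl).trans (mul_le_mul_of_nonneg_left
      (comp 1 (2 * t) R R le_rfl (by omega) hR le_rfl (by omega) (by omega)) (by positivity))
    have b2 := low 1 t le_rfl ht (by omega)
    calc _ ≤ C * (C1 * al 1 R) := b1
      _ = C * C1 / c * (c * al 1 R) := by field_simp
      _ ≤ C * C1 / c * (al 1 t * al 1 R) :=
          mul_le_mul_of_nonneg_left (mul_le_mul_of_nonneg_right b2 p2) (by positivity)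
      _ ≤ _ := mul_le_mul_of_nonneg_right (le_add_of_nonneg_left (by positivity))
          (by positivity)

theorem stab_rsw : ∃ η c : ℝ, 0 < η ∧ 0 < c ∧ ∀ (p : ℝ) (N : ℕ), 1 / 2 ≤ p → p ≤ 3 / 4 →
    (p - 1 / 2) * sig N ≤ η → RSW p c N := by
  obtain ⟨η, C, hη, hC, up⟩ := stab_upper
  obtain ⟨c, hc, half⟩ := rsw_half
  refine ⟨min η (c ^ 24 / (88 * C)), min c (min ((1 / 4) ^ 5) (c ^ 24 / 2)), by positivity,
    by positivity, fun p N h0 h1 hs => ⟨by linarith only [h0], h1, fun n hn hN b => ?_⟩⟩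
  cases b
  swap
  · exact (min_le_left _ _).trans (((half N).2.2 n hn hN true).trans
      (pr_ber_mono h0 (rect_finite _ _ _ _) (sup_LR _ _ _ _) (inc_LR _ _ _ _)))
  refine (min_le_right _ _).trans ?_
  by_cases h3 : n < 3
  · refine (min_le_left _ _).trans (le_trans ?_ ((pr_all_col (by linarith only [h0]) h1 false
      (rectF 0 (2 * n) 0 0)).trans (pr_mono _ fun ω hω => ?_)))
    · refine pow_le_pow_of_le_one (by norm_num) (by norm_num) ?_
      rw [card_rectF, show ((0 : ℤ) + 1 - 0).toNat = 1 from rfl]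
      omega
    · exact ⟨(0, 0), (2 * n, 0), rfl, rfl, conn_hor (by omega) fun t _ _ =>
        ⟨hω _ (by simp only [mem_rectF]; omega), by simp only [mem_rect]; omega⟩⟩
  refine (min_le_right _ _).trans ?_
  have h1' : p ≤ 1 := by linarith only [h1]
  set μ := tri p h0 h1'
  set q := n / 3 with hq
  have eB := pr_pred μ {a | a = 2} (rect_finite _ _ _ _) (sup_LR 0 (2 * n) 0 n)
  have eA := pr_pred μ {a | a ≠ 0} (rect_finite _ _ _ _) (sup_LR (-q) (2 * n + q) q (2 * q))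
  rw [m2] at eB
  rw [n0] at eA
  rw [pr_ev_flip (by linarith only [h0]) h1' false (rect_finite _ _ _ _) (sup_LR _ _ _ _), Bool.not_false,
    ← eB]
  have lA := (half N).lr hc.le true (x1 := -q) (x2 := 2 * n + q) (y1 := q) (y2 := 2 * q)
    (k := 12) (n := q) (by omega) (by omega) (by omega) (by omega) (by push_cast; omega) (by omega)
  rw [← eA] at lA
  have u1 := pr_le_sum μ (rectF 0 (2 * n) q (2 * q))
    (fun u => {ω : Site → Fin 3 | ω u ∈ {a : Fin 3 | a = 1}} ∩ sand {a | a = 2} {a | a ≠ 0} u 1 q)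
    (A := {ω | LR {v | ω v ∈ {a : Fin 3 | a ≠ 0}} (-q) (2 * n + q) q (2 * q) ∧
      ¬ LR {v | ω v ∈ {a : Fin 3 | a = 2}} 0 (2 * n) 0 n})
    fun ω hω => rsw_det (by omega) (by omega) ω hω.1 hω.2
  have u2 := (pr_mono μ (E := {ω | LR {v | ω v ∈ {a : Fin 3 | a ≠ 0}} (-q) (2 * n + q) q (2 * q)})
    fun ω hω => (em _).imp id fun h => And.intro hω h).trans (pr_union_le μ
      {ω | LR {v | ω v ∈ {a : Fin 3 | a = 2}} 0 (2 * n) 0 n}
      {ω | LR {v | ω v ∈ {a : Fin 3 | a ≠ 0}} (-q) (2 * n + q) q (2 * q) ∧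
        ¬ LR {v | ω v ∈ {a : Fin 3 | a = 2}} 0 (2 * n) 0 n})
  have u3 := u1.trans (Finset.sum_le_card_nsmul _ _ ((p - 1 / 2) * (C * al 1 q)) fun u _ => by
    rw [site_indep μ u _ (ann_finite u 1 q) (dep_sand _ _ s20 _ _ _)
      (by rw [mem_ann, dst_self]; omega), m1]
    exact mul_le_mul_of_nonneg_left (up _ μ _ _ _ s20 subset_rfl (n0 _ _) N
      (by rw [d02, m1]; exact hs.trans (min_le_left _ _)) u 1 q le_rfl (by omega) (by omega))
      (by linarith only [h0]))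
  have hcard : ((rectF 0 (2 * n) q (2 * q)).card : ℝ) ≤ 22 * (q : ℝ) ^ 2 := by
    have a1 : (2 * (n : ℤ) + 1 - 0).toNat ≤ 11 * q := by omega
    have a2 : (2 * (q : ℤ) + 1 - q).toNat ≤ 2 * q := by omega
    have a3 := Nat.mul_le_mul a1 a2
    rw [← card_rectF] at a3
    have : ((rectF 0 (2 * n) q (2 * q)).card : ℝ) ≤ ((11 * q * (2 * q) : ℕ) : ℝ) := by
      exact_mod_cast a3
    push_cast at this
    linarith only [this]
  have hp : 0 ≤ p - 1 / 2 := by linarith only [h0]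
  have v1 := mul_le_mul_of_nonneg_right hcard
    (mul_nonneg hp (mul_nonneg (by linarith only [hC] : (0 : ℝ) ≤ C) (al_nn 1 q)))
  have v2 := mul_le_mul_of_nonneg_left ((pi4_le_sig q).trans
    (mul_le_mul_of_nonneg_left (sig_mono (show q ≤ N by omega)) zero_le_two)) hp
  have v3 := (le_div_iff₀ (by positivity)).1 (hs.trans (min_le_right _ _))
  have v4 := mul_le_mul_of_nonneg_left v2 (by linarith only [hC] : (0 : ℝ) ≤ C)
  rw [nsmul_eq_mul] at u3
  rw [pi4] at v4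
  norm_num only at lA
  linarith only [u2, u3, v1, v3, v4, lA]

theorem stab_lower : ∃ η : ℝ, 0 < η ∧ ∀ (p : ℝ) (R : ℕ), 1 / 2 ≤ p → p ≤ 3 / 4 → 2 ≤ R →
    (p - 1 / 2) * sig R ≤ η → al 1 R / 2 ≤ alpha p 1 (R / 2) := by
  obtain ⟨η, C, hη, hC, up⟩ := stab_upper
  obtain ⟨K, hK, bd⟩ := swE_le hC
  refine ⟨min η (1 / (16 * K)), by positivity, fun p R h0 h1 hR hs => ?_⟩
  have h1' : p ≤ 1 := by linarith only [h1]
  set μ := tri p h0 h1'
  have eA := pr_pred μ {a | a = 0} (ann_finite _ _ _) (sup_Two 0 1 R)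
  have eB := pr_pred μ {a | a ≠ 2} (ann_finite _ _ _) (sup_Two 0 1 (R / 2))
  rw [m0] at eA
  rw [n2] at eB
  have u1 := pr_le_sum μ ((Finset.Icc 1 (R / 2)).sigma fun t => annF 0 t t)
    (fun i => swE i.2 i.1 R) (A := {ω | Two {v | ω v ∈ {a : Fin 3 | a = 0}} 0 1 R ∧
      ¬ Two {v | ω v ∈ {a : Fin 3 | a ≠ 2}} 0 1 (R / 2)}) fun ω hω => low_det hR ω hω.1 hω.2
  have u2 := (pr_mono μ (E := {ω | Two {v | ω v ∈ {a : Fin 3 | a = 0}} 0 1 R})
    fun ω hω => (em _).imp id fun h => And.intro hω h).trans (pr_union_le μ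
      {ω | Two {v | ω v ∈ {a : Fin 3 | a ≠ 2}} 0 1 (R / 2)}
      {ω | Two {v | ω v ∈ {a : Fin 3 | a = 0}} 0 1 R ∧
        ¬ Two {v | ω v ∈ {a : Fin 3 | a ≠ 2}} 0 1 (R / 2)})
  rw [eA, eB] at u2
  have hp : 0 ≤ p - 1 / 2 := by linarith only [h0]
  have p2 := al_nn 1 R
  have H := up _ μ _ _ _ subset_rfl s02 (m0 _ _) R
    (by rw [d20, m1]; exact hs.trans (min_le_left _ _))
  rw [Finset.sum_sigma] at u1
  have u3 : ∑ t ∈ Finset.Icc 1 (R / 2), ∑ u ∈ annF 0 t t, pr μ (swE u t R) ≤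
      ∑ t ∈ Finset.Icc 1 (R / 2), 8 * K * (p - 1 / 2) * al 1 R * (t * al 1 t) :=
    Finset.sum_le_sum fun t ht => by
      rw [Finset.mem_Icc] at ht
      refine (Finset.sum_le_card_nsmul _ _ _ fun u hu => bd μ R H u t ht.1 (by omega)
        (by rw [mem_annF] at hu; omega)).trans_eq ?_
      rw [card_annF_self _ ht.1, m1, nsmul_eq_mul]
      push_cast
      ring
  rw [← Finset.mul_sum] at u3
  have v2 := mul_le_mul_of_nonneg_left (sig_mono (show R / 2 ≤ R by omega))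
    (show 0 ≤ 8 * K * (p - 1 / 2) * al 1 R by positivity)
  have v3 := mul_le_mul_of_nonneg_right
    ((le_div_iff₀ (by positivity)).1 (hs.trans (min_le_right _ _))) p2
  change al 1 R ≤ alpha p 1 (R / 2) + _ at u2
  change _ ≤ _ * sig (R / 2) at u3
  linarith only [u1, v2, v3, u2, u3]

end Pool.Agent.Work.MP_ccd212_pr
end

-- merged part: Pool.Agent.Work.MP_ccd212_pr.Sharp
section
/-! Crossings become likely at a bounded multiple of the stable scale. -/

namespace Pool.Agent.Work.MP_ccd212_pr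

theorem Sharp_big {s n : ℕ} {v : Site} (hv : v ∈ core s) (hn : n ≤ s / 2) :
    Big (-v.1) (6 * s - v.1) (-v.2) (3 * s - v.2) n := by
  simp only [core, mem_rectF] at hv
  unfold Big
  omega

theorem Sharp_pivot {s : ℕ} {v : Site} {S : Set Site}
    (h : Pivot (fun S => LR S (-v.1) (6 * s - v.1) (-v.2) (3 * s - v.2)) 0 ((sh v).e ⁻¹' S)) :
    Pivot (fun S => LR S 0 (6 * s) 0 (3 * s)) v S := by
  have key : ∀ X : Set Site, LR X 0 (6 * s) 0 (3 * s) ↔
      LR ((sh v).e ⁻¹' X) (-v.1) (6 * s - v.1) (-v.2) (3 * s - v.2) := fun X => by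
    rw [← LR_sh]; simp
  have h0 : (sh v).e ⁻¹' ({v} : Set Site) = {0} := by
    ext w; simp
  unfold Pivot at *
  beta_reduce
  rw [key, key, Set.preimage_union, Set.preimage_sdiff, h0]
  exact h

/-- A pivotal box with separated arms contains pivotal sites. -/
theorem pivot_ge {c : ℝ} (hc : 0 < c) : ∃ c' : ℝ, 0 < c' ∧ ∀ (p : ℝ) (N : ℕ), RSW p c N →
    ∀ (s u : ℕ) (v : Site), 256 ≤ u → u ≤ N → u ≤ s → v ∈ core s →
      c' * alpha p 1 (u / 32) * pr (ber p) (ev true fun S =>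
        ArmsIn ((sh v).e ⁻¹' S) (-v.1) (6 * s - v.1) (-v.2) (3 * s - v.2) (u / 2)
          (PivT (-v.1) (6 * s - v.1) (-v.2) (3 * s - v.2)) (qstd (u / 2))) ≤
      pr (ber p) (ev true (Pivot (fun S => LR S 0 (6 * s) 0 (3 * s)) v)) := by
  obtain ⟨C, hC, hA⟩ := alpha_le_stdOut hc
  refine ⟨c ^ 8000 / C, by positivity, fun p N h s u v hu hN hs hv => ?_⟩
  have a1 := hA p N h 1 (u / 32) le_rfl (by omega) (by omega) (by omega)
  have a2 := glue_std h hc.le (r := 1) (n := 2 * (u / 32)) (n' := u / 2) (by omega) (by omega)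
    (by omega) (by omega) (by omega) (Sharp_big hv (by omega))
    (PivT (-v.1) (6 * s - v.1) (-v.2) (3 * s - v.2))
  rw [pr_ev_aut (ber p) (sh v) true (fun S =>
    ArmsIn S (-v.1) (6 * s - v.1) (-v.2) (3 * s - v.2) (u / 2)
      (PivT (-v.1) (6 * s - v.1) (-v.2) (3 * s - v.2)) (qstd (u / 2)))]
  have a3 : pr (ber p) (ev true fun S => Arms4 S (-v.1) (6 * s - v.1) (-v.2) (3 * s - v.2) 1
      (PivT (-v.1) (6 * s - v.1) (-v.2) (3 * s - v.2))) ≤
      pr (ber p) (ev true (Pivot (fun S => LR S 0 (6 * s) 0 (3 * s)) v)) := by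
    rw [← pr_ev_aut (ber p) (sh v) true (fun S =>
      Arms4 S (-v.1) (6 * s - v.1) (-v.2) (3 * s - v.2) 1
        (PivT (-v.1) (6 * s - v.1) (-v.2) (3 * s - v.2)))]
    exact pr_mono _ fun ω hω => Sharp_pivot (pivot_of_arms4 (Sharp_big hv (by omega)) hω)
  refine le_trans ?_ (a2.trans a3)
  have hc8 : 0 < c ^ 8000 := by positivity
  generalize c ^ 8000 = d at hc8 ⊢
  rw [← mul_assoc]
  refine mul_le_mul_of_nonneg_right ?_ (pr_nonneg _ _)
  rw [div_mul_eq_mul_div, div_le_iff₀ hC, mul_assoc]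
  exact mul_le_mul_of_nonneg_left (by linarith only [a1]) hc8.le

/-- A real-variable lemma: one of the levels has at least half of its mass separated. -/
theorem exists_level {a b : ℕ → ℝ} {ε B : ℝ} {J : ℕ} (hε : 0 ≤ ε)
    (h : ∀ i < J, a i ≤ b i + ε * a (i + 1)) (hB : a J ≤ B) (h0 : (2 * ε) ^ J * B < a 0) :
    ∃ i < J, a i ≤ 2 * b i := by
  by_contra hn
  have key : ∀ k ≤ J, a 0 ≤ (2 * ε) ^ k * a k := by
    intro k
    induction k with
    | zero => simp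
    | succ k ih =>
      intro hk
      have h1 := h k hk
      have h2 : 2 * b k < a k := not_le.1 fun hh => hn ⟨k, hk, hh⟩
      refine (ih (by omega)).trans ?_
      rw [pow_succ, mul_assoc]
      exact mul_le_mul_of_nonneg_left (by linarith only [h1, h2]) (by positivity)
  have h3 := key J le_rfl
  have h4 : (2 * ε) ^ J * a J ≤ (2 * ε) ^ J * B := mul_le_mul_of_nonneg_left hB (by positivity)
  linarith

/-- Expected number of pivotal boxes. -/
noncomputable def SharpA (p : ℝ) (s u : ℕ) : ℝ :=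
  ∑ v ∈ core s, pr (ber p) (ev true (PivBox s v u))

/-- Expected number of pivotal boxes with standard ports. -/
noncomputable def SharpB (p : ℝ) (s u : ℕ) : ℝ :=
  ∑ v ∈ core s, pr (ber p) (ev true fun S =>
    ArmsIn ((sh v).e ⁻¹' S) (-v.1) (6 * s - v.1) (-v.2) (3 * s - v.2) (u / 2)
      (PivT (-v.1) (6 * s - v.1) (-v.2) (3 * s - v.2)) (qstd (u / 2)))

theorem Sharp_swap {x1 x2 y1 y2 : ℤ} {z : Fin 4 → Site} (h : PivT x1 x2 y1 y2 z) :
    PivT x1 x2 y1 y2 ![z 0, z 3, z 2, z 1] := by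
  obtain ⟨⟨h1, h2⟩, h3, h4, h5⟩ := h
  refine ⟨⟨fun i => ?_, h2.symm⟩, h3, h4, ?_⟩
  · fin_cases i
    exacts [h1 0, h1 3, h1 2, h1 1]
  · rcases h5 with h5 | h5
    · exact Or.inr ⟨h5.2, h5.1⟩
    · exact Or.inl ⟨h5.2, h5.1⟩

theorem Sharp_step {c ε : ℝ} (hc : 0 < c) (hε : 0 < ε) : ∃ (C : ℝ) (n0 : ℕ), 0 < C ∧
    ∀ (p : ℝ) (N : ℕ), RSW p c N → ∀ s n : ℕ, n0 ≤ n → n ≤ N → 8 * n ≤ s / 2 →
      SharpA p s n ≤ C * SharpB p s n + ε * SharpA p s (8 * n) := by
  obtain ⟨C, n0, hC, H⟩ := step_in hc hε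
  refine ⟨C, n0, hC, fun p N h s n h1 h2 h3 => ?_⟩
  unfold SharpA SharpB
  rw [Finset.mul_sum, Finset.mul_sum, ← Finset.sum_add_distrib]
  refine Finset.sum_le_sum fun v hv => ?_
  have a1 := H p N h n _ _ _ _ (PivT (-v.1) (6 * s - v.1) (-v.2) (3 * s - v.2)) h1 h2
    (Sharp_big hv h3) (fun z hz => hz.1) (fun z hz => Sharp_swap hz)
  rw [← pr_ev_aut (ber p) (sh v) true,
    ← pr_ev_aut (ber p) (sh v) true (fun S => ArmsIn S _ _ _ _ _ _ _),
    ← pr_ev_aut (ber p) (sh v) true (fun S => Arms4 S _ _ _ _ (8 * n) _)] at a1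
  exact a1

theorem Sharp_A_le (p : ℝ) {s : ℕ} (hs : 1 ≤ s) (u : ℕ) : SharpA p s u ≤ 14 * (s : ℝ) ^ 2 := by
  have h1 : SharpA p s u ≤ (core s).card := by
    unfold SharpA
    simpa using Finset.sum_le_card_nsmul (core s) _ 1 fun v _ => pr_le_one (ber p) _
  have h2 : (core s).card ≤ 7 * s * (2 * s) := by
    rw [core, card_rectF]
    exact Nat.mul_le_mul (by omega) (by omega)
  have h3 : ((core s).card : ℝ) ≤ 7 * s * (2 * s) := by exact_mod_cast h2
  linarith only [h1, h3]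

theorem Sharp_div {s M : ℕ} (hM : 1 ≤ M) (h : 1 ≤ s / M) : s ≤ 2 * M * (s / M) := by
  have h1 := Nat.lt_mul_div_succ s (show 0 < M from hM)
  have h2 : M * 1 ≤ M * (s / M) := Nat.mul_le_mul_left _ h
  linarith only [h1, h2]

/-- The numerical condition that makes `exists_level` applicable. -/
theorem Sharp_num1 {q m j0 : ℕ} (hq : 1 ≤ q) {d l s u : ℝ} (hd : 2240000 < d * 4096 ^ j0)
    (hl : 1 ≤ l) (hs0 : 0 ≤ s) (hu : 0 < u)
    (hs : s ≤ 4 * (100 * 64 ^ (q * m)) * 8 ^ (m + j0) * u) :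
    (2 * (1 / (128 * 4096 ^ q))) ^ (m + j0) * (14 * s ^ 2) < d * l * u ^ 2 := by
  have hd0 : 0 < d := by
    by_contra hh
    have : d * 4096 ^ j0 ≤ 0 := mul_nonpos_of_nonpos_of_nonneg (not_lt.1 hh) (by positivity)
    linarith only [hd, this]
  have e1 : (2 * (1 / (128 * 4096 ^ q)) : ℝ) ^ (m + j0) =
      1 / (64 ^ (m + j0) * (4096 ^ (q * m) * 4096 ^ (q * j0))) := by
    rw [← pow_add, ← mul_add, pow_mul, ← mul_pow, ← one_div_pow]
    congr 1
    field_simp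
    norm_num
  have e2 : ((64 : ℝ) ^ (q * m)) ^ 2 = 4096 ^ (q * m) := by
    rw [← pow_mul, mul_comm, pow_mul]; norm_num
  have e3 : ((8 : ℝ) ^ (m + j0)) ^ 2 = 64 ^ (m + j0) := by
    rw [← pow_mul, mul_comm, pow_mul]; norm_num
  have e4 : s ^ 2 ≤ 160000 * 4096 ^ (q * m) * 64 ^ (m + j0) * u ^ 2 := by
    refine (pow_le_pow_left₀ hs0 hs 2).trans (le_of_eq ?_)
    rw [← e2, ← e3]; ring
  have e5 : (4096 : ℝ) ^ j0 ≤ 4096 ^ (q * j0) :=
    pow_le_pow_right₀ (by norm_num) (Nat.le_mul_of_pos_left _ hq)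
  have e6 : 2240000 < d * l * 4096 ^ (q * j0) := by
    have : d * 1 * 4096 ^ j0 ≤ d * l * 4096 ^ (q * j0) := by gcongr
    linarith only [hd, this]
  rw [e1, one_div_mul_eq_div, div_lt_iff₀ (by positivity)]
  have e7 : (0 : ℝ) < 4096 ^ (q * m) * 64 ^ (m + j0) * u ^ 2 := by positivity
  have e8 := mul_lt_mul_of_pos_right e6 e7
  linarith only [e4, e8]

/-- The lower bound on the expected number of pivotal sites. -/
theorem Sharp_piv : ∃ η0 : ℝ, 0 < η0 ∧ ∃ (q n1 : ℕ) (κ : ℝ), 0 < κ ∧ ∀ δ : ℝ, 0 < δ → ∃ j0 : ℕ,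
    ∀ (m s t : ℕ) (p : ℝ), t = s / (100 * 64 ^ (q * m)) → n1 ≤ t / 8 ^ (m + j0) → 1 / 2 ≤ p →
      p ≤ 3 / 4 → (p - 1 / 2) * sig t ≤ η0 →
      δ ≤ pr (ber p) (ev false fun S => TB S s (5 * s) 0 (3 * s)) →
      κ * δ * (64 ^ m / 64 ^ j0) * pi4 t ≤
        ∑ v ∈ core s, pr (ber p) (ev true (Pivot (fun S => LR S 0 (6 * s) 0 (3 * s)) v)) := by
  obtain ⟨η1, c, hη1, hc, H1⟩ := stab_rsw
  obtain ⟨η2, hη2, H2⟩ := stab_lower
  obtain ⟨cp, lam, hcp, hlam, H3⟩ := piv_sum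
  obtain ⟨c', hc', H4⟩ := pivot_ge hc
  obtain ⟨q, hq⟩ := pow_unbounded_of_one_lt (4096 : ℝ) hlam
  have hq1 : 1 ≤ q := by
    rcases Nat.eq_zero_or_pos q with rfl | h
    · norm_num at hq
    · exact h
  obtain ⟨C, n0, hC, H5⟩ := Sharp_step (ε := 1 / (128 * 4096 ^ q)) hc (by positivity)
  refine ⟨min η1 η2, lt_min hη1 hη2, q, max n0 256, c' * cp / (16 * C), by positivity,
    fun δ hδ => ?_⟩
  obtain ⟨j0, hj0⟩ := pow_unbounded_of_one_lt (2240000 / (cp * δ)) (show (1 : ℝ) < 4096 by norm_num)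
  rw [div_lt_iff₀ (by positivity), mul_comm] at hj0
  refine ⟨j0, fun m s t p ht hu hp1 hp2 hη hP => ?_⟩
  obtain ⟨M, hM⟩ : ∃ M, M = 100 * 64 ^ (q * m) := ⟨_, rfl⟩
  obtain ⟨J, hJ⟩ : ∃ J, J = m + j0 := ⟨_, rfl⟩
  rw [← hM] at ht
  rw [← hJ] at hu
  obtain ⟨u0, hu0⟩ : ∃ u0, u0 = t / 8 ^ J := ⟨_, rfl⟩
  rw [← hu0] at hu
  have hu1 : n0 ≤ u0 := le_trans (le_max_left _ _) hu
  have hu2 : 256 ≤ u0 := le_trans (le_max_right _ _) hu
  have hM1 : 100 ≤ M := by
    have : 1 ≤ 64 ^ (q * m) := Nat.one_le_pow _ _ (by norm_num)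
    omega
  have h8 : 1 ≤ 8 ^ J := Nat.one_le_pow _ _ (by norm_num)
  have hJt : 8 ^ J * u0 ≤ t := hu0 ▸ Nat.mul_div_le t _
  have hMt : M * t ≤ s := ht ▸ Nat.mul_div_le s _
  have hlo : ∀ i, u0 ≤ 8 ^ i * u0 := fun i => Nat.le_mul_of_pos_left _ (by positivity)
  have hhi : ∀ i ≤ J, 8 ^ i * u0 ≤ t := fun i hi =>
    le_trans (Nat.mul_le_mul_right _ (Nat.pow_le_pow_right (by norm_num) hi)) hJt
  have ht1 : 256 ≤ t := le_trans hu2 ((hlo J).trans hJt)
  have hts : 100 * t ≤ s := le_trans (Nat.mul_le_mul_right _ hM1) hMt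
  have hs2 : s ≤ 2 * M * t := ht ▸ Sharp_div (by omega) (by omega)
  have ht2 : t ≤ 2 * 8 ^ J * u0 := hu0 ▸ Sharp_div h8 (by omega)
  have hR : RSW p c t := H1 p t hp1 hp2 (hη.trans (min_le_left _ _))
  have hA : ∀ i ≤ J, cp * δ * lam ^ (q * m) * ((8 ^ i * u0 : ℕ) : ℝ) ^ 2 ≤
      SharpA p s (8 ^ i * u0) := by
    clear * - J u0 hlo cp δ lam q m p s hP hcp hlam hu2 H3 hp1 hp2 n0 j0 t M hu0 hM hhi hMt
    intro i hi
    have h1 := hlo i
    refine le_trans ?_ (H3 p hp1 hp2 s (8 ^ i * u0) (q * m) (by omega) ?_)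
    · gcongr
    · rw [← hM]
      exact le_trans (Nat.mul_le_mul_left _ (hhi i hi)) hMt
  have hl1 : 1 ≤ lam ^ (q * m) := one_le_pow₀ hlam.le
  obtain ⟨i, hi, hi2⟩ := exists_level (a := fun i => SharpA p s (8 ^ i * u0))
    (b := fun i => C * SharpB p s (8 ^ i * u0)) (ε := 1 / (128 * 4096 ^ q))
    (B := 14 * (s : ℝ) ^ 2) (J := J) (by positivity)
    (fun i hi => by
      have h1 := hlo i
      have h2 := hhi i hi.le
      have h3 := hhi (i + 1) hi
      have h4 : 8 ^ (i + 1) * u0 = 8 * (8 ^ i * u0) := by ring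
      have := H5 p t hR s (8 ^ i * u0) (by omega) h2 (by omega)
      simpa only [h4] using this)
    (Sharp_A_le p (by omega) _)
    (by
      refine lt_of_lt_of_le ?_ (hA 0 (Nat.zero_le _))
      rw [hJ]
      refine Sharp_num1 hq1 hj0 hl1 (by positivity) (by simp; omega) ?_
      have h1 : s ≤ 4 * M * 8 ^ J * u0 := by
        calc s ≤ 2 * M * t := hs2
          _ ≤ 2 * M * (2 * 8 ^ J * u0) := Nat.mul_le_mul_left _ ht2
          _ = _ := by ring
      rw [hM, hJ] at h1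
      simp only [pow_zero, one_mul]
      exact_mod_cast h1)
  obtain ⟨u, hu⟩ : ∃ u, u = 8 ^ i * u0 := ⟨_, rfl⟩
  have g1 := hA i hi.le
  have g2 := hlo i
  have g3 := hhi i hi.le
  simp only [← hu] at hi2 g1 g2 g3
  have g4 : c' * alpha p 1 (u / 32) * SharpB p s u ≤
      ∑ v ∈ core s, pr (ber p) (ev true (Pivot (fun S => LR S 0 (6 * s) 0 (3 * s)) v)) := by
    unfold SharpB
    rw [Finset.mul_sum]
    exact Finset.sum_le_sum fun v hv => H4 p t hR s u v (by omega) g3 (by omega) hv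
  refine le_trans ?_ g4
  have g5 : al 1 t / 2 ≤ alpha p 1 (u / 32) := by
    clear * - u p H2 hp1 hp2 q n0 j0 m s t M J u0 hu0 hu2 i hu g2 η2 ht ht1 g3 η1 hη
    have h1 := H2 p (2 * (u / 32)) hp1 hp2 (by omega) (le_trans
      (mul_le_mul_of_nonneg_left (sig_mono (show 2 * (u / 32) ≤ t by omega)) (by linarith only [hp1]))
      (hη.trans (min_le_right _ _)))
    rw [Nat.mul_div_cancel_left _ (by norm_num)] at h1
    have h2 : al 1 t ≤ al 1 (2 * (u / 32)) := alpha_mono _ le_rfl (by omega) (by omega)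
    linarith only [h1, h2]
  have g6 : (t : ℝ) ^ 2 ≤ 4 * 64 ^ J * (u : ℝ) ^ 2 := by
    have h1 : t ≤ 2 * 8 ^ J * u := ht2.trans (Nat.mul_le_mul_left _ g2)
    have h2 : (t : ℝ) ≤ 2 * 8 ^ J * u := by exact_mod_cast h1
    have e3 : ((8 : ℝ) ^ J) ^ 2 = 64 ^ J := by
      rw [← pow_mul, mul_comm, pow_mul]; norm_num
    refine (pow_le_pow_left₀ (by positivity) h2 2).trans (le_of_eq ?_)
    rw [← e3]; ring
  have g7 : (64 : ℝ) ^ m / 64 ^ j0 * 64 ^ J ≤ lam ^ (q * m) := by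
    have h1 : (64 : ℝ) ^ m / 64 ^ j0 * 64 ^ J = 4096 ^ m := by
      rw [hJ, pow_add, show (4096 : ℝ) = 64 * 64 by norm_num, mul_pow]
      field_simp
    rw [h1, pow_mul]
    exact pow_le_pow_left₀ (by norm_num) hq.le m
  have g8 : cp * δ * lam ^ (q * m) * (u : ℝ) ^ 2 / (2 * C) ≤ SharpB p s u := by
    rw [div_le_iff₀ (by positivity)]
    linarith only [hi2, g1]
  have g9 : 0 ≤ al 1 t := alpha_nonneg _ _ _
  calc c' * cp / (16 * C) * δ * (64 ^ m / 64 ^ j0) * pi4 t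
      = c' * (al 1 t / 2) * (cp * δ * (64 ^ m / 64 ^ j0) * ((t : ℝ) ^ 2 / 4) / (2 * C)) := by
        clear * - c' cp C δ m j0 t ht1 hδ hC hcp hc'
        unfold pi4; field_simp; ring
    _ ≤ c' * (al 1 t / 2) * (cp * δ * (64 ^ m / 64 ^ j0) * (64 ^ J * (u : ℝ) ^ 2) / (2 * C)) := by
        clear * - c' t cp δ m j0 C J u g6 hcp hδ hC hc' g9
        gcongr; linarith only [g6]
    _ = c' * (al 1 t / 2) * (cp * δ * (64 ^ m / 64 ^ j0 * 64 ^ J) * (u : ℝ) ^ 2 / (2 * C)) := by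
        ring
    _ ≤ c' * (al 1 t / 2) * (cp * δ * lam ^ (q * m) * (u : ℝ) ^ 2 / (2 * C)) := by clear * - c' t cp δ m j0 J u C lam q g7 hcp hδ hC hc' g9; gcongr
    _ ≤ c' * alpha p 1 (u / 32) * SharpB p s u := by
        clear * - p u c' t cp δ lam q m C s g5 hc' g8 hcp hδ hlam hC
        have := alpha_nonneg p 1 (u / 32)
        gcongr

theorem sharp : ∃ η0 : ℝ, 0 < η0 ∧ ∀ η δ : ℝ, 0 < η → η ≤ η0 → 0 < δ → ∃ M s0 : ℕ, 1 ≤ M ∧
    ∀ s, s0 ≤ s → ∀ p : ℝ, 1 / 2 + η / sig (s / M) ≤ p →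
      pr (ber p) (ev false fun S => TB S s (5 * s) 0 (3 * s)) ≤ δ := by
  obtain ⟨η0, hη0, q, n1, κ, hκ, H⟩ := Sharp_piv
  obtain ⟨Cs, hCs, H2⟩ := sig_le_pi4
  refine ⟨η0, hη0, fun η δ hη hle hδ => ?_⟩
  obtain ⟨j0, H⟩ := H δ hδ
  obtain ⟨R0, hR0⟩ := sig_large (4 * η)
  obtain ⟨m, hm⟩ := pow_unbounded_of_one_lt (Cs * 64 ^ j0 / (κ * δ * η))
    (show (1 : ℝ) < 64 by norm_num)
  have hM : 1 ≤ 100 * 64 ^ (q * m) := Nat.succ_le_of_lt (by positivity)
  refine ⟨100 * 64 ^ (q * m), (R0 + 1 + n1 * 8 ^ (m + j0)) * (100 * 64 ^ (q * m)), hM,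
    fun s hs p hp => ?_⟩
  obtain ⟨t, ht⟩ : ∃ t, t = s / (100 * 64 ^ (q * m)) := ⟨_, rfl⟩
  rw [← ht] at hp
  have ht0 : R0 + 1 + n1 * 8 ^ (m + j0) ≤ t := ht ▸ (Nat.le_div_iff_mul_le hM).2 hs
  have hn1 : n1 ≤ t / 8 ^ (m + j0) := (Nat.le_div_iff_mul_le (by positivity)).2 (by omega)
  have hsig : 4 * η ≤ sig t := hR0 t (by omega)
  have hsp : 0 < sig t := by linarith only [hη, hsig]
  have hh0 : 0 < η / sig t := by positivity
  have hh1 : η / sig t ≤ 1 / 4 := by rw [div_le_iff₀ hsp]; linarith only [hsig]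
  by_contra hcon
  have hcon := (not_le.1 hcon).le
  have hr := russo_le (Φ := fun S => LR S 0 (6 * s) 0 (3 * s)) (rect_finite _ _ _ _)
    (sup_LR _ _ _ _) (inc_LR _ _ _ _) (core s) (p1 := 1 / 2) (p2 := 1 / 2 + η / sig t)
    (a := κ * δ * (64 ^ m / 64 ^ j0) * pi4 t) (by norm_num) (by linarith only [hh0]) (by linarith only [hh0, hh1])
    (fun p' h1 h2 => H m s t p' ht hn1 h1 (by linarith only [hh1, h2])
      (by
        have h3 : (p' - 1 / 2) * sig t ≤ η / sig t * sig t :=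
          mul_le_mul_of_nonneg_right (by linarith only [h2]) hsp.le
        rw [div_mul_cancel₀ _ hsp.ne'] at h3
        linarith only [hle, h3])
      (hcon.trans (pr_ber_anti (h2.trans hp) (rect_finite _ _ _ _) (sup_TB _ _ _ _)
        (inc_TB _ _ _ _))))
  have h4 := H2 t (by omega)
  rw [add_sub_cancel_left, mul_div_assoc', div_le_one hsp] at hr
  rw [div_lt_iff₀ (by positivity)] at hm
  have h5 : 0 < pi4 t := by
    by_contra hh
    have : Cs * pi4 t ≤ 0 := mul_nonpos_of_nonneg_of_nonpos hCs.le (not_lt.1 hh)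
    linarith only [hη, hsig, h4, this]
  have h6 : Cs < κ * δ * (64 ^ m / 64 ^ j0) * η := by
    have : κ * δ * (64 ^ m / 64 ^ j0) * η = 64 ^ m * (κ * δ * η) / 64 ^ j0 := by ring
    rw [this, lt_div_iff₀ (by positivity)]
    exact hm
  have h7 := mul_lt_mul_of_pos_right h6 h5
  linarith only [hr, h4, h7]

end Pool.Agent.Work.MP_ccd212_pr
end

-- merged part: Pool.Agent.Work.MP_ccd212_pr.GoodT
section
/-! Good scales are likely. -/

namespace Pool.Agent.Work.MP_ccd212_pr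

theorem goodT_XS {m : ℕ} (M H : ℕ) (g : Site) {s : ℕ} {ω ω' : Site → Fin m}
    (h : ∀ v ∈ ann g s (9 * s), ω v = ω' v) : XS ω M H 5 g s ⊆ XS ω' M H 5 g s := by
  rintro v ⟨h1, h2, h3⟩
  have hv : ω v = ω' v := h v (by rw [mem_ann] at h1 ⊢; omega)
  have hs : ∀ u ∈ ann v 1 s, ω u = ω' u := fun u hu => h u (by
    have a := dst_triangle g v u
    have b := dst_triangle g u v
    rw [dst_comm u v] at b
    rw [mem_ann] at h1 hu ⊢
    omega)
  have hlh : {x : Fin m | (x : ℕ) < M - 5 * H} ⊆ {x : Fin m | (x : ℕ) < M + 5 * H} :=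
    fun x (hx : (x : ℕ) < M - 5 * H) => show (x : ℕ) < M + 5 * H by omega
  refine ⟨h1, ?_, h3.imp (fun h => ?_) fun h => ?_⟩
  · unfold win at h2 ⊢
    rw [Set.mem_setOf_eq, ← hv]
    exact h2
  · exact dep_sand _ _ hlh v 1 s ω ω' hs h
  · exact dep_sand _ _ (Set.compl_subset_compl.2 hlh) v 1 s ω ω' hs h

theorem dep_good (m M H k0 : ℕ) (g : Site) {s : ℕ} (hs : 2 ≤ s) :
    Dep {ω : Site → Fin m | Good ω M H k0 g s} (ann g s (9 * s)) := by
  intro ω ω' h hω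
  have e : XS ω' M H 5 g s = XS ω M H 5 g s :=
    Set.Subset.antisymm (goodT_XS M H g fun v hv => (h v hv).symm) (goodT_XS M H g h)
  have a : ∀ (k r R : ℕ), s ≤ r → R ≤ 9 * s → ∀ v ∈ ann g r R, v ∈ lev ω k ↔ v ∈ lev ω' k := by
    intro k r R h1 h2 v hv
    have : ω v = ω' v := h v (by rw [mem_ann] at hv ⊢; omega)
    simp only [lev, Set.mem_setOf_eq, this]
  obtain ⟨g1, g2, g3, g4, g5, g6, g7, g8, g9⟩ := hω
  refine ⟨sup_Arm _ _ _ _ _ (a _ _ _ le_rfl le_rfl) g1,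
    (sup_Arm _ _ _).compl.not _ _ (a _ _ _ le_rfl (by omega)) g2,
    (sup_Arm _ _ _).compl.not _ _ (a _ _ _ (by omega) (by omega)) g3,
    (sup_Arm _ _ _).compl.not _ _ (a _ _ _ (by omega) le_rfl) g4,
    (sup_Arm _ _ _).not _ _ (a _ _ _ le_rfl (by omega)) g5,
    (sup_Arm _ _ _).not _ _ (a _ _ _ (by omega) (by omega)) g6,
    (sup_Arm _ _ _).not _ _ (a _ _ _ (by omega) le_rfl) g7, by rw [e]; exact g8, ?_⟩
  rw [e]
  intro v hv u h1 h2 h3
  refine g9 v hv u h1 h2 ?_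
  have hv1 := hv.1
  have : ω u = ω' u := h u (by
    have a := dst_triangle g v u
    have b := dst_triangle g u v
    rw [dst_comm u v] at b
    rw [mem_ann] at hv1 ⊢
    omega)
  unfold win at h3 ⊢
  rw [Set.mem_setOf_eq, this]
  exact h3

theorem goodT_sig_nonneg (R : ℕ) : 0 ≤ sig R :=
  Finset.sum_nonneg fun _ _ => mul_nonneg (Nat.cast_nonneg _) (alpha_nonneg _ _ _)

theorem goodT_ring (ν : PW Bool) (b : Bool) {t : ℕ} (ht : 1 ≤ t) {δ : ℝ}
    (h : pr ν (ev b fun S => ¬ LR S 0 (4 * t) 0 (3 * t)) ≤ δ) (g : Site) {r R : ℕ}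
    (h1 : r + 3 * t ≤ R) (h2 : 2 * R ≤ 90 * t) :
    pr ν (ev b fun S => Arm Sᶜ g r R) ≤ 724 * δ := by
  have a1 := not_LR_le ν b ht h (x1 := g.1 - R) (x2 := g.1 + R) (y1 := g.2 + r) (y2 := g.2 + R)
    (k := 90) (by omega) (by omega) (by omega)
  have a2 := not_LR_le ν b ht h (x1 := g.1 - R) (x2 := g.1 + R) (y1 := g.2 - R) (y2 := g.2 - r)
    (k := 90) (by omega) (by omega) (by omega)
  have a3 : pr ν (ev b fun S => ¬ TB S (g.1 + r) (g.1 + R) (g.2 - R) (g.2 + R)) ≤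
      (2 * (90 : ℕ) + 1) * δ := by
    rw [rsw1_not_TB, pr_TB_eq, ← rsw1_not_LR]
    exact not_LR_le ν b ht h (by omega) (by omega) (by omega)
  have a4 : pr ν (ev b fun S => ¬ TB S (g.1 - R) (g.1 - r) (g.2 - R) (g.2 + R)) ≤
      (2 * (90 : ℕ) + 1) * δ := by
    rw [rsw1_not_TB, pr_TB_eq, ← rsw1_not_LR]
    exact not_LR_le ν b ht h (by omega) (by omega) (by omega)
  have a5 := (pr_union_le ν _ _).trans (add_le_add ((pr_union_le ν _ _).trans (add_le_add a1 a2))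
    ((pr_union_le ν _ _).trans (add_le_add a3 a4)))
  refine le_trans (pr_mono _ fun ω hω => ?_) (a5.trans (le_of_eq (by push_cast; ring)))
  by_contra hn
  simp only [Set.mem_union, mem_ev, not_or, not_not] at hn
  exact not_arm_of_long (by omega) hn.1.1 hn.1.2 hn.2.1 hn.2.2 hω

theorem goodT_radial {S : Set Site} {g : Site} {s : ℕ} (hs : 1 ≤ s)
    (h : LR S (g.1 + s) (g.1 + 9 * s) (g.2 - (s - 1)) (g.2 + (s - 1))) : Arm S g s (9 * s) := by
  obtain ⟨a, b, ha, hb, hc⟩ := h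
  have h1 := hc.left_mem.2
  have h2 := hc.right_mem.2
  rw [mem_rect] at h1 h2
  refine ⟨a, b, ⟨?_, (a.1 - 1, a.2), ?_, ?_⟩, ?_, hc.mono fun v hv => ⟨hv.1, ?_⟩⟩
  · unfold dst; omega
  · unfold Adj; dsimp only; omega
  · unfold dst; dsimp only; omega
  · unfold dst; omega
  · have := hv.2
    rw [mem_rect] at this
    rw [mem_ann]
    unfold dst
    omega

/-- The crossing part. -/
theorem good_cross {δ η : ℝ} (hδ : 0 < δ) (hη : 0 < η) : ∃ η' : ℝ, ∃ K s0 : ℕ, 0 < η' ∧ η' ≤ η ∧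
    1 ≤ K ∧ ∀ s, s0 ≤ s → ∀ (p : ℝ) (b : Bool) (g : Site), p ≤ 1 →
      1 / 2 + η' / sig (s / K) ≤ p →
      let ν := ber (if b then p else 1 - p)
      pr ν (ev b fun S => ¬ Arm S g s (9 * s)) ≤ δ ∧ pr ν (ev b fun S => Arm Sᶜ g s (2 * s)) ≤ δ ∧
      pr ν (ev b fun S => Arm Sᶜ g (5 * s) (6 * s)) ≤ δ ∧
      pr ν (ev b fun S => Arm Sᶜ g (8 * s) (9 * s)) ≤ δ := by
  obtain ⟨η0, h0, hsh⟩ := sharp
  obtain ⟨M, s0, hM, hsh⟩ := hsh (min η η0) (δ / 724) (lt_min hη h0) (min_le_right _ _)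
    (by positivity)
  refine ⟨min η η0, 3 * M, 3 * s0 + 3, lt_min hη h0, min_le_left _ _, by omega, ?_⟩
  intro s hs p b g hp1 hp ν
  have hp0 : 0 ≤ p := by
    have := div_nonneg (lt_min hη h0).le (goodT_sig_nonneg (s / (3 * M)))
    linarith only [hp, this]
  rw [← Nat.div_div_eq_div_mul] at hp
  have a1 := hsh (s / 3) (by omega) p hp
  obtain ⟨t, ht⟩ : ∃ t, t = s / 3 := ⟨_, rfl⟩
  rw [← ht] at a1
  have ht1 : 1 ≤ t := by omega
  have a2 : pr (ber p) (ev true fun S => ¬ LR S 0 (4 * t) 0 (3 * t)) ≤ δ / 724 := by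
    have e := pr_LR_shift (ber p) true t (5 * t) 0 (3 * t)
    rw [show (5 * t : ℤ) - t = 4 * t by ring, sub_zero] at e
    rw [rsw1_not_LR, ← e, ← rsw1_not_LR]
    refine le_trans (pr_mono _ fun ω hω => ?_) a1
    have := (hex (Col ω true) (by omega) (by omega)).resolve_left hω
    rw [← Col_not] at this
    exact this
  have a3 : pr ν (ev b fun S => ¬ LR S 0 (4 * t) 0 (3 * t)) ≤ δ / 724 := by
    cases b
    · rw [pr_ev_flip hp0 hp1 true (rect_finite _ _ _ _) (sup_LR _ _ _ _).not] at a2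
      exact a2
    · exact a2
  refine ⟨?_, (goodT_ring ν b ht1 a3 g (by omega) (by omega)).trans (le_of_eq (by ring)),
    (goodT_ring ν b ht1 a3 g (by omega) (by omega)).trans (le_of_eq (by ring)),
    (goodT_ring ν b ht1 a3 g (by omega) (by omega)).trans (le_of_eq (by ring))⟩
  have a4 := not_LR_le ν b ht1 a3 (x1 := g.1 + s) (x2 := g.1 + 9 * s) (y1 := g.2 - (s - 1))
    (y2 := g.2 + (s - 1)) (k := 90) (by omega) (by omega) (by omega)
  refine le_trans (pr_mono _ fun ω hω hh => hω (goodT_radial (by omega) hh)) (a4.trans ?_)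
  push_cast
  linarith only [hδ]

theorem goodT_site {α : Type} [Fintype α] (μ : PW α) (A : Set α) {v : Site}
    {F : Set (Site → α)} {T : Set Site} (hT : T.Finite) (hF : Dep F T) (hv : v ∉ T) :
    pr μ ({ω | ω v ∈ A} ∩ F) = μ.mass A * pr μ F := by
  rw [pr_inter_indep μ (S := {v}) (Set.finite_singleton v) hT
    (fun ω ω' h hω => by
      rw [Set.mem_setOf_eq, ← h v rfl]
      exact hω) hF (Set.disjoint_singleton_left.2 hv), pr_site]

theorem goodT_mass {M : ℕ} (hM : 1 ≤ M) (a : ℕ) {b : ℕ} (hb : b ≤ 2 * M) :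
    (unif (2 * M - 1)).mass {x | a ≤ (x : ℕ) ∧ (x : ℕ) < b} = ((b - a : ℕ) : ℝ) / (2 * M) := by
  rw [unif_mass_Ico _ _ _ (by omega), Nat.cast_sub (show 1 ≤ 2 * M by omega)]
  push_cast
  ring

theorem goodT_mass' {M : ℕ} (hM : 1 ≤ M) {b : ℕ} (hb : b ≤ 2 * M) :
    (unif (2 * M - 1)).mass {x | (x : ℕ) < b} = (b : ℝ) / (2 * M) := by
  have := goodT_mass hM 0 hb
  simpa using this

/-- Four arms of one of the two colours in some intermediate configuration. -/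
def goodTSand {α : Type} (lo hi : Set α) (c : Site) (r R : ℕ) : Set (Site → α) :=
  sand lo hi c r R ∪ sand hiᶜ loᶜ c r R

theorem goodT_dep {α : Type} {lo hi : Set α} (h : lo ⊆ hi) (c : Site) (r R : ℕ) :
    Dep (goodTSand lo hi c r R) (ann c r R) :=
  (dep_sand _ _ h c r R).union (dep_sand _ _ (Set.compl_subset_compl.2 h) c r R)

theorem goodT_mono {α : Type} {lo hi : Set α} {c : Site} {r R r' R' : ℕ} (h1 : r ≤ r')
    (h2 : r' ≤ R') (h3 : R' ≤ R) : goodTSand lo hi c r R ⊆ goodTSand lo hi c r' R' :=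
  fun _ h => h.imp (fun h => SandTwo.mono_ring h h1 h2 h3) fun h => SandTwo.mono_ring h h1 h2 h3

theorem goodT_stab : ∃ η C : ℝ, 0 < η ∧ 1 ≤ C ∧ ∀ (α : Type) [Fintype α] (μ : PW α)
    (lo md hi : Set α), lo ⊆ md → md ⊆ hi → μ.mass md = 1 / 2 → ∀ R : ℕ,
      μ.mass (hi \ lo) * sig R ≤ η → ∀ (c : Site) (r : ℕ), 1 ≤ r → r ≤ R →
        pr μ (goodTSand lo hi c r R) ≤ C * al r R := by
  obtain ⟨η, C, h1, h2, h⟩ := stab_upper
  refine ⟨η, 2 * C, h1, by linarith, fun α _ μ lo md hi a1 a2 a3 R a4 c r b1 b2 => ?_⟩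
  have c1 := h α μ lo md hi a1 a2 a3 R a4 c r R b1 b2 le_rfl
  have c2 := h α μ hiᶜ mdᶜ loᶜ (Set.compl_subset_compl.2 a2) (Set.compl_subset_compl.2 a1)
    (by rw [PW.mass_compl, a3]; norm_num) R (by rw [compl_sdiff_compl]; exact a4) c r R b1 b2 le_rfl
  have := pr_union_le μ (sand lo hi c r R) (sand hiᶜ loᶜ c r R)
  unfold goodTSand
  linarith only [c1, c2, this]

theorem goodT_card (g : Site) {s : ℕ} (hs : 1 ≤ s) :
    ((annF g (5 * s) (6 * s)).card : ℝ) ≤ 169 * (s : ℝ) ^ 2 := by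
  have h1 : (annF g (5 * s) (6 * s)).card ≤ (13 * s) ^ 2 :=
    (Finset.card_filter_le _ _).trans (by
      rw [card_ballF]
      exact Nat.pow_le_pow_left (by omega) 2)
  have h2 : ((annF g (5 * s) (6 * s)).card : ℝ) ≤ (((13 * s) ^ 2 : ℕ) : ℝ) := by exact_mod_cast h1
  push_cast at h2
  linarith only [h2]

/-- The window part: few window sites have four arms, and they are isolated. -/
theorem good_window {δ : ℝ} (hδ : 0 < δ) (K : ℕ) (hK : 1 ≤ K) : ∃ k0 s0 : ℕ, ∀ s, s0 ≤ s →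
    ∀ (M H : ℕ) (g : Site), 1 ≤ M → 10 * H ≤ M → (H : ℝ) / (2 * M) * sig (s / K) ≤ 1 →
      pr (unif (2 * M - 1)) {ω | k0 < (XS ω M H 5 g s).ncard} ≤ δ ∧
      pr (unif (2 * M - 1)) {ω | ∃ v ∈ XS ω M H 5 g s, ∃ u, u ≠ v ∧ dst v u ≤ 2 ∧
        u ∈ win ω M H 5} ≤ δ := by
  classical
  obtain ⟨η, C, hη, hC, hst⟩ := goodT_stab
  obtain ⟨L, hL, hsm⟩ := sig_small (ε := η / 10) (by positivity)
  obtain ⟨C3, hC3, hcomp⟩ := al_comp 3
  obtain ⟨B, hB⟩ : ∃ B : ℝ, B = 1352 * C * ((K * L : ℕ) : ℝ) ^ 2 * η := ⟨_, rfl⟩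
  obtain ⟨R0, hR0⟩ := sig_large (250 * C3 * B / δ)
  refine ⟨⌈B / δ⌉₊, 3 * (K * L) + R0 * K, fun s hs M H g hM hH hw => ?_⟩
  have hKL : 0 < K * L := Nat.mul_pos hK hL
  obtain ⟨t, ht⟩ : ∃ t, t = s / (K * L) := ⟨_, rfl⟩
  have ht3 : 3 ≤ t := by
    rw [ht, Nat.le_div_iff_mul_le hKL]
    omega
  have hts : t ≤ s := ht ▸ Nat.div_le_self _ _
  have hst2 : s ≤ 2 * t * (K * L) := by
    have h1 : s < (t + 1) * (K * L) := by
      rw [ht, ← Nat.div_lt_iff_lt_mul hKL]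
      omega
    have h2 : (t + 1) * (K * L) ≤ 2 * t * (K * L) := Nat.mul_le_mul_right _ (by omega)
    omega
  have hR : R0 ≤ s / K := by
    rw [Nat.le_div_iff_mul_le hK]
    omega
  have hLt : L * t ≤ s / K := by
    rw [ht, ← Nat.div_div_eq_div_mul]
    exact Nat.mul_div_le _ _
  set μ := unif (2 * M - 1) with hμ
  set lo : Set (Fin (2 * M - 1 + 1)) := {x | (x : ℕ) < M - 5 * H} with hlo
  set hi : Set (Fin (2 * M - 1 + 1)) := {x | (x : ℕ) < M + 5 * H} with hhi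
  have hlh : lo ⊆ hi := fun x (hx : (x : ℕ) < M - 5 * H) => show (x : ℕ) < M + 5 * H by omega
  have hM' : (0 : ℝ) < M := by exact_mod_cast hM
  have eW : hi \ lo = {x : Fin (2 * M - 1 + 1) | M - 5 * H ≤ (x : ℕ) ∧ (x : ℕ) < M + 5 * H} := by
    ext x
    simp only [hhi, hlo, Set.mem_diff, Set.mem_setOf_eq]
    omega
  obtain ⟨w, hwd⟩ : ∃ w, w = μ.mass (hi \ lo) := ⟨_, rfl⟩
  have hw0 : 0 ≤ w := hwd ▸ PW.mass_nonneg _ _
  have hw1 : w * sig (s / K) ≤ 10 := by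
    clear * - w s K M μ hi lo hwd H eW hM L R0 hH t hw
    rw [hwd, eW, goodT_mass hM _ (by omega), show M + 5 * H - (M - 5 * H) = 10 * H by omega]
    push_cast
    have : 10 * (H : ℝ) / (2 * M) * sig (s / K) = 10 * ((H : ℝ) / (2 * M) * sig (s / K)) := by ring
    linarith only [hw, this]
  have hw2 : w * sig t ≤ η := by
    have := mul_le_mul_of_nonneg_left (hsm t _ hLt) hw0
    linarith only [this, hη, hw1, mul_nonneg_of_nonpos_of_nonpos (le_of_lt (Mathlib.Tactic.Linarith.sub_neg_of_lt hη)) (Mathlib.Tactic.Linarith.sub_nonpos_of_le hw1)]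
  have hP : ∀ (c : Site) (r : ℕ), 1 ≤ r → r ≤ t → pr μ (goodTSand lo hi c r t) ≤ C * al r t :=
    hst _ μ lo {x | (x : ℕ) < M} hi
      (fun x (hx : (x : ℕ) < M - 5 * H) => show (x : ℕ) < M by omega)
      (fun x (hx : (x : ℕ) < M) => show (x : ℕ) < M + 5 * H by omega)
      (by rw [goodT_mass' hM (by omega)]; field_simp) t (hwd ▸ hw2)
  have ha0 : 0 ≤ al 1 t := alpha_nonneg _ _ _
  have hkey : 169 * (s : ℝ) ^ 2 * (w * (C * al 1 t)) ≤ B := by
    clear * - s t K L hst2 w η hw0 hw2 C hC ha0 B hK hL hB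
    have h1 : (s : ℝ) ≤ 2 * t * ((K * L : ℕ) : ℝ) := by exact_mod_cast hst2
    have h2 : (s : ℝ) ^ 2 ≤ (2 * t * ((K * L : ℕ) : ℝ)) ^ 2 :=
      pow_le_pow_left₀ (Nat.cast_nonneg s) h1 2
    have h3 : (t : ℝ) ^ 2 * al 1 t ≤ 2 * sig t := pi4_le_sig t
    have h4 : w * ((t : ℝ) ^ 2 * al 1 t) ≤ 2 * η := by
      have := mul_le_mul_of_nonneg_left h3 hw0
      linarith only [hw2, this]
    have h5 : 0 ≤ w * (C * al 1 t) := by positivity
    calc 169 * (s : ℝ) ^ 2 * (w * (C * al 1 t))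
        ≤ 169 * (2 * t * ((K * L : ℕ) : ℝ)) ^ 2 * (w * (C * al 1 t)) := by gcongr
      _ = 676 * C * ((K * L : ℕ) : ℝ) ^ 2 * (w * ((t : ℝ) ^ 2 * al 1 t)) := by ring
      _ ≤ 676 * C * ((K * L : ℕ) : ℝ) ^ 2 * (2 * η) := by gcongr
      _ = B := by rw [hB]; ring
  have hcard := goodT_card g (s := s) (by omega)
  have hX : ∀ ω v, v ∈ XS ω M H 5 g s ↔ v ∈ annF g (5 * s) (6 * s) ∧
      ω ∈ {ω : Site → Fin (2 * M - 1 + 1) | ω v ∈ hi \ lo} ∩ goodTSand lo hi v 1 s := by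
    intro ω v
    rw [eW, mem_annF]
    rfl
  constructor
  · have m1 := pr_markov μ (annF g (5 * s) (6 * s))
      (fun v => {ω | ω v ∈ hi \ lo} ∩ goodTSand lo hi v 1 s)
      (fun v _ => Loc.inter ⟨{v}, Set.finite_singleton v, fun ω ω' h hω => by
        rw [Set.mem_setOf_eq, ← h v rfl]
        exact hω⟩ ⟨_, ann_finite _ _ _, goodT_dep hlh v 1 s⟩) ⌈B / δ⌉₊
    have m2 : ∑ v ∈ annF g (5 * s) (6 * s),
        pr μ ({ω | ω v ∈ hi \ lo} ∩ goodTSand lo hi v 1 s) ≤ B := by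
      clear * - g s M μ hi lo w C t B hlh hwd K L R0 H ht ht3 hts hP hw0 hcard hC ha0 hkey
      refine le_trans (Finset.sum_le_card_nsmul _ _ (w * (C * al 1 t)) fun v _ => ?_) ?_
      · rw [goodT_site μ _ (ann_finite _ _ _) (goodT_dep hlh v 1 s) (by simp [dst_self]), ← hwd]
        exact mul_le_mul_of_nonneg_left ((pr_mono _ (goodT_mono le_rfl (by omega) hts)).trans
          (hP v 1 le_rfl (by omega))) hw0
      · rw [nsmul_eq_mul]
        exact le_trans (mul_le_mul_of_nonneg_right hcard (by positivity)) hkey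
    have m3 : {ω : Site → Fin (2 * M - 1 + 1) | ⌈B / δ⌉₊ < (XS ω M H 5 g s).ncard} =
        {ω | ⌈B / δ⌉₊ < ((annF g (5 * s) (6 * s)).filter fun v =>
          ω ∈ {ω : Site → Fin (2 * M - 1 + 1) | ω v ∈ hi \ lo} ∩ goodTSand lo hi v 1 s).card} := by
      ext ω
      rw [Set.mem_setOf_eq, Set.mem_setOf_eq, ← Set.ncard_coe_finset]
      congr! 2
      ext v
      rw [hX, Finset.mem_coe, Finset.mem_filter]
    rw [m3]
    have m4 : B / δ ≤ ⌈B / δ⌉₊ := Nat.le_ceil _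
    rw [div_le_iff₀ hδ] at m4
    have m5 := m1.trans m2
    by_contra hc
    push Not at hc
    have m6 : (0 : ℝ) < (⌈B / δ⌉₊ : ℝ) + 1 := by clear * - B δ; positivity
    have m7 := mul_lt_mul_of_pos_left hc m6
    have m8 := lt_of_lt_of_le m7 (by convert m5)
    linarith only [hδ, m4, m8]
  · have p1 : ∀ v u : Site, u ≠ v → dst v u ≤ 2 →
        pr μ ({ω | ω v ∈ hi \ lo} ∩ ({ω | ω u ∈ hi \ lo} ∩ goodTSand lo hi v 3 t)) ≤
          w * C3 * (w * (C * al 1 t)) := by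
      clear * - M μ hi lo t w C3 C hlh K L R0 s H hwd hP ht3 hcomp ht hC hw0
      intro v u h1 h2
      rw [goodT_site μ _ (T := insert u (ann v 3 t)) ((ann_finite _ _ _).insert u)
        (Dep.inter (fun ω ω' h hω => by
          rw [Set.mem_setOf_eq, ← h u (Set.mem_insert _ _)]
          exact hω) ((goodT_dep hlh v 3 t).mono (Set.subset_insert _ _)))
        (by simp [dst_self, h1.symm]),
        goodT_site μ _ (ann_finite _ _ _) (goodT_dep hlh v 3 t) (by rw [mem_ann]; omega), ← hwd]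
      have h3 := hP v 3 (by omega) ht3
      have h4 := hcomp 1 3 t t le_rfl (by omega) ht3 le_rfl (by omega) (by omega)
      calc w * (w * pr μ (goodTSand lo hi v 3 t)) ≤ w * (w * (C * (C3 * al 1 t))) := by
            gcongr
            exact h3.trans (by gcongr)
        _ = w * C3 * (w * (C * al 1 t)) := by ring
    have p2 := pr_le_sum μ ((annF g (5 * s) (6 * s)).sigma fun v => (ballF v 2).erase v)
      (fun x => {ω | ω x.1 ∈ hi \ lo} ∩ ({ω | ω x.2 ∈ hi \ lo} ∩ goodTSand lo hi x.1 3 t))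
      (A := {ω | ∃ v ∈ XS ω M H 5 g s, ∃ u, u ≠ v ∧ dst v u ≤ 2 ∧ u ∈ win ω M H 5}) (by
        rintro ω ⟨v, hv, u, h1, h2, h3⟩
        rw [hX] at hv
        refine ⟨⟨v, u⟩, Finset.mem_sigma.2 ⟨hv.1, Finset.mem_erase.2 ⟨h1, mem_ballF.2 h2⟩⟩,
          hv.2.1, ?_, goodT_mono (by omega) ht3 hts hv.2.2⟩
        rw [eW]
        exact h3)
    refine p2.trans ?_
    rw [Finset.sum_sigma]
    have q0 : 0 ≤ w * C3 * (w * (C * al 1 t)) := by clear * - w C3 C t hw0 hC3 hC ha0; positivity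
    refine le_trans (Finset.sum_le_card_nsmul _ _ (25 * (w * C3 * (w * (C * al 1 t))))
      fun v _ => ?_) ?_
    · refine le_trans (Finset.sum_le_card_nsmul _ _ (w * C3 * (w * (C * al 1 t))) fun u hu => ?_) ?_
      · rw [Finset.mem_erase, mem_ballF] at hu
        exact p1 v u hu.1 hu.2
      · rw [nsmul_eq_mul]
        refine mul_le_mul_of_nonneg_right ?_ q0
        have : ((ballF v 2).erase v).card ≤ 25 :=
          Finset.card_erase_le.trans (by rw [card_ballF]; norm_num)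
        exact_mod_cast this
    · rw [nsmul_eq_mul]
      have q1 := mul_le_mul_of_nonneg_left (hR0 _ hR) hw0
      have q2 : w * (250 * C3 * B) ≤ 10 * δ := by
        have := q1.trans hw1
        rwa [← mul_div_assoc, div_le_iff₀ hδ] at this
      calc ((annF g (5 * s) (6 * s)).card : ℝ) * (25 * (w * C3 * (w * (C * al 1 t))))
          ≤ 169 * (s : ℝ) ^ 2 * (25 * (w * C3 * (w * (C * al 1 t)))) := by clear * - w C3 C t g s hcard hw0 hC3 hC ha0; gcongr
        _ = 25 * (w * C3) * (169 * (s : ℝ) ^ 2 * (w * (C * al 1 t))) := by ring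
        _ ≤ 25 * (w * C3) * B := by clear * - w C3 s C t B hkey hw0 hC3; gcongr
        _ ≤ δ := by linarith only [q2]

/-- THEOREM G. -/
theorem good_scale {δ : ℝ} (hδ : 0 < δ) : ∃ k0 s0 : ℕ, 2 ≤ s0 ∧ ∀ s, s0 ≤ s → ∃ M0 : ℕ, 1 ≤ M0 ∧
    ∀ M, M0 ≤ M → ∃ H : ℕ, 1 ≤ H ∧ 10 * H ≤ M ∧ ∀ g : Site,
      pr (unif (2 * M - 1)) {ω | ¬ Good ω M H k0 g s} ≤ δ := by
  obtain ⟨η, K, s0, h0, h1, hK, hcr⟩ := good_cross (δ := δ / 9) (η := 1 / 2) (by positivity)
    (by norm_num)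
  obtain ⟨k0, s1, hwin⟩ := good_window (δ := δ / 9) (by positivity) K hK
  obtain ⟨R0, hR0⟩ := sig_large 20
  refine ⟨k0, 2 + s0 + s1 + R0 * K, by omega, fun s hs => ?_⟩
  have hσ := hR0 (s / K) (by rw [Nat.le_div_iff_mul_le hK]; omega)
  obtain ⟨σ, hσd⟩ : ∃ σ, σ = sig (s / K) := ⟨_, rfl⟩
  rw [← hσd] at hσ
  refine ⟨20 + ⌈σ⌉₊, by omega, fun M hM => ?_⟩
  have hσ0 : 0 < σ := by linarith only [h0, h1, hσ]
  have hM1 : 1 ≤ M := by omega
  have hM20 : (20 : ℝ) ≤ M := by exact_mod_cast (show 20 ≤ M by omega)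
  have hMσ : σ ≤ M := (Nat.le_ceil σ).trans (by exact_mod_cast (show ⌈σ⌉₊ ≤ M by omega))
  have hpos : 0 < 2 * (M : ℝ) * (η / σ) := by positivity
  obtain ⟨H, hH⟩ : ∃ H, H = ⌈2 * (M : ℝ) * (η / σ)⌉₊ := ⟨_, rfl⟩
  have a1 : 2 * (M : ℝ) * (η / σ) ≤ H := hH ▸ Nat.le_ceil _
  have a2 : (H : ℝ) < 2 * (M : ℝ) * (η / σ) + 1 := hH ▸ Nat.ceil_lt_add_one hpos.le
  have a3 : η / σ ≤ 1 / 40 := by
    rw [div_le_iff₀ hσ0]
    linarith only [h1, hσ]
  have a4 : 10 * H ≤ M := by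
    have : (10 : ℝ) * H ≤ M := by linarith only [hM20, a2, a3, mul_nonneg_of_nonpos_of_nonpos (Mathlib.Tactic.Linarith.sub_nonpos_of_le (Mathlib.Tactic.Linarith.natCast_nonneg ℝ M)) (Mathlib.Tactic.Linarith.sub_nonpos_of_le a3)]
    exact_mod_cast this
  have a5 : (H : ℝ) / (2 * M) * sig (s / K) ≤ 1 := by
    rw [← hσd, div_mul_eq_mul_div, div_le_one (by positivity)]
    have e : 2 * (M : ℝ) * (η / σ) * σ = 2 * M * η := by field_simp
    have := mul_le_mul_of_nonneg_right a2.le hσ0.le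
    linarith only [hMσ, e, this, h1, mul_nonneg_of_nonpos_of_nonpos (Mathlib.Tactic.Linarith.sub_nonpos_of_le (Mathlib.Tactic.Linarith.natCast_nonneg ℝ M)) (Mathlib.Tactic.Linarith.sub_nonpos_of_le h1)]
  refine ⟨H, hH ▸ Nat.ceil_pos.2 hpos, a4, fun g => ?_⟩
  obtain ⟨p, hp⟩ : ∃ p : ℝ, p = ((M + H : ℕ) : ℝ) / (2 * M) := ⟨_, rfl⟩
  have a6 : (H : ℝ) ≤ M := by exact_mod_cast (show H ≤ M by omega)
  obtain ⟨c1, c2, c3, c4⟩ := hcr s (by omega) p true g
    (by rw [hp, div_le_one (by positivity)]; push_cast; linarith only [a6])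
    (by
      rw [hp, ← hσd, le_div_iff₀ (by positivity)]
      push_cast
      linarith only [a1])
  simp only [if_true] at c1 c2 c3 c4
  obtain ⟨w1, w2⟩ := hwin s (by omega) M H g hM1 a4 a5
  set μ := unif (2 * M - 1) with hμ
  have m1 : μ.mass {x | (x : ℕ) < M + H} = p := by rw [goodT_mass' hM1 (by omega), hp]
  have m2 : μ.mass {x | (x : ℕ) < M - H}ᶜ = p := by
    rw [PW.mass_compl, goodT_mass' hM1 (by omega), hp, Nat.cast_sub (by omega)]
    push_cast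
    field_simp
    ring
  have e1 : ∀ {Φ : Set Site → Prop} {r R : ℕ}, Sup Φ (ann g r R) →
      pr μ {ω | Φ (lev ω (M + H))} = pr (ber p) (ev true Φ) := fun h => by
    rw [← m1, ← pr_pred μ _ (ann_finite _ _ _) h]
    rfl
  have e2 : ∀ r R : ℕ, pr μ {ω | Arm (lev ω (M - H)) g r R} =
      pr (ber p) (ev true fun S => Arm Sᶜ g r R) := fun r R => by
    rw [← m2, ← pr_pred μ _ (ann_finite _ _ _) (sup_Arm g r R).compl]
    congr 1
    ext ω
    rw [Set.mem_setOf_eq, Set.mem_setOf_eq, ← compl_compl (lev ω (M - H))]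
    rfl
  have d1 := (e1 (sup_Arm g s (9 * s)).not).trans_le c1
  have d2 := (e1 (sup_Arm g s (2 * s)).compl).trans_le c2
  have d3 := (e1 (sup_Arm g (5 * s) (6 * s)).compl).trans_le c3
  have d4 := (e1 (sup_Arm g (8 * s) (9 * s)).compl).trans_le c4
  have d5 := (e2 _ _).trans_le c2
  have d6 := (e2 _ _).trans_le c3
  have d7 := (e2 _ _).trans_le c4
  have u : ∀ {E F : Set (Site → Fin (2 * M - 1 + 1))} {x y : ℝ}, pr μ E ≤ x → pr μ F ≤ y →
      pr μ (E ∪ F) ≤ x + y := fun h h' => (pr_union_le μ _ _).trans (add_le_add h h')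
  have d := u d1 (u d2 (u d3 (u d4 (u d5 (u d6 (u d7 (u w1 w2)))))))
  refine le_trans (pr_mono _ fun ω hω => ?_) (d.trans (le_of_eq (by ring)))
  by_contra hn
  simp only [Set.mem_union, Set.mem_setOf_eq, not_or, not_not, not_lt] at hn
  obtain ⟨n1, n2, n3, n4, n5, n6, n7, n8, n9⟩ := hn
  exact hω ⟨n1, n2, n3, n4, n5, n6, n7, n8, fun v hv u h1 h2 h3 => n9 ⟨v, hv, u, h1, h2, h3⟩⟩

end Pool.Agent.Work.MP_ccd212_pr
end

-- merged part: Pool.Agent.Work.MP_ccd212_pr.Blocks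
section
/-! Blocks of scales. -/

namespace Pool.Agent.Work.MP_ccd212_pr

theorem exists_goodK : ∃ k0, 3 ≤ k0 ∧ GoodK k0 := by
  obtain ⟨k0, s0, h2, h⟩ := good_scale (δ := (1 / 4096) ^ 2) (by positivity)
  refine ⟨k0 + 3, by omega, s0, h2, fun s hs => ?_⟩
  obtain ⟨M0, h1, h⟩ := h s hs
  refine ⟨M0, h1, fun M hM => ?_⟩
  obtain ⟨H, a, b, c⟩ := h M hM
  refine ⟨H, a, b, fun g => le_trans (pr_mono _ ?_) (c g)⟩
  intro ω hω hg
  exact hω { hg with card_le := hg.card_le.trans (Nat.le_add_right _ _) }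

/-- Product of the ratios of the first `B` blocks. -/
def Dv (Js : ℕ → ℕ) (B : ℕ) : ℕ := ∏ j ∈ Finset.range B, (2 * 32 ^ Js j)

theorem Dv_pos (Js : ℕ → ℕ) (B : ℕ) : 1 ≤ Dv Js B := by
  have : 0 < ∏ j ∈ Finset.range B, (2 * 32 ^ Js j) := Finset.prod_pos fun j _ => by positivity
  exact this

theorem rad_eq (a : ℕ) (Js : ℕ → ℕ) (B : ℕ) : rad a Js B = a / Dv Js B := by
  induction B with
  | zero => simp [rad, Dv]
  | succ B ih => rw [rad, ih, Nat.div_div_eq_div_mul, Dv, Dv, Finset.prod_range_succ]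

theorem rad_anti (a : ℕ) (Js : ℕ → ℕ) {i j : ℕ} (h : i ≤ j) : rad a Js j ≤ rad a Js i := by
  induction h with
  | refl => exact le_rfl
  | step _ ih => exact (Nat.div_le_self _ _).trans ih

theorem rad_gap (a : ℕ) {Js : ℕ → ℕ} {j : ℕ} (h : 1 ≤ Js j) :
    64 * rad a Js (j + 1) ≤ rad a Js j := by
  have h1 : 32 ^ 1 ≤ 32 ^ Js j := Nat.pow_le_pow_right (by norm_num) h
  calc 64 * rad a Js (j + 1) ≤ 2 * 32 ^ Js j * (rad a Js j / (2 * 32 ^ Js j)) :=
        Nat.mul_le_mul_right _ (by omega)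
    _ ≤ rad a Js j := Nat.mul_div_le _ _

private theorem pr_pairs (M N k : ℕ) (hM : 1 ≤ M) :
    pr (unif (2 * M - 1)) {ω | ∃ u ∈ ball 0 N, ∃ v ∈ ball 0 N, u ≠ v ∧ (ω u : ℕ) = ω v + k} ≤
      (2 * N + 1) ^ 4 / (2 * M) := by
  classical
  have hb := pr_le_sum (unif (2 * M - 1))
    ((ballF 0 N ×ˢ ballF 0 N).filter fun p => p.1 ≠ p.2)
    (fun p => {ω | (ω p.1 : ℕ) = ω p.2 + k})
    (A := {ω | ∃ u ∈ ball 0 N, ∃ v ∈ ball 0 N, u ≠ v ∧ (ω u : ℕ) = ω v + k}) (by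
      rintro ω ⟨u, hu, v, hv, huv, h⟩
      refine ⟨(u, v), ?_, h⟩
      rw [Finset.mem_filter, Finset.mem_product, mem_ballF, mem_ballF]
      exact ⟨⟨hu, hv⟩, huv⟩)
  refine hb.trans ?_
  have e : ((2 * M - 1 : ℕ) : ℝ) + 1 = 2 * M := by
    have : 2 * M - 1 + 1 = 2 * M := by omega
    exact_mod_cast this
  have hM' : (0 : ℝ) < M := by exact_mod_cast hM
  refine (Finset.sum_le_card_nsmul _ _ (1 / (2 * M : ℝ)) fun p hp => ?_).trans ?_
  · rw [← e]; exact pr_unif_diff _ (Finset.mem_filter.1 hp).2 k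
  · have c1 : ((ballF 0 N ×ˢ ballF 0 N).filter fun p => p.1 ≠ p.2).card ≤ (2 * N + 1) ^ 4 := by
      refine (Finset.card_filter_le _ _).trans ?_
      rw [Finset.card_product, card_ballF]
      exact le_of_eq (by ring)
    have c2 : ((((ballF 0 N ×ˢ ballF 0 N).filter fun p => p.1 ≠ p.2).card : ℕ) : ℝ) ≤
        (2 * N + 1) ^ 4 := by exact_mod_cast c1
    rw [nsmul_eq_mul, mul_one_div]
    gcongr

theorem pr_ties (M N : ℕ) (hM : 1 ≤ M) :
    pr (unif (2 * M - 1)) {ω | ¬ Set.InjOn ω (ball 0 N)} ≤ (2 * N + 1) ^ 4 / (2 * M) := by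
  refine (pr_mono _ fun ω hω => ?_).trans (pr_pairs M N 0 hM)
  by_contra hn
  refine hω fun u hu v hv h => ?_
  by_contra huv
  exact hn ⟨u, hu, v, hv, huv, by rw [h]; rfl⟩

private theorem pr_gen (M N H : ℕ) (hM : 1 ≤ M) :
    pr (unif (2 * M - 1)) {ω | ¬ Gen ω (ball 0 N) H} ≤ (2 * N + 1) ^ 4 / M := by
  have hM' : (0 : ℝ) < M := by exact_mod_cast hM
  have h := (pr_union_le (unif (2 * M - 1)) _ _).trans
    (add_le_add (pr_pairs M N 0 hM) (pr_pairs M N (2 * H) hM))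
  refine (pr_mono _ fun ω hω => ?_).trans (h.trans (le_of_eq (by field_simp; norm_num)))
  by_contra hn
  refine hω fun u hu v hv huv => ⟨fun e => hn (Or.inl ⟨u, hu, v, hv, huv, e⟩),
    fun e => hn (Or.inr ⟨u, hu, v, hv, huv, e⟩)⟩

private theorem q_facts {r : ℕ} (hr : 1 ≤ r) {i j : ℕ} (h : i < j) :
    r ≤ 32 ^ i * r ∧ 32 * (32 ^ i * r) ≤ 32 ^ j * r := by
  refine ⟨Nat.le_mul_of_pos_left _ (by positivity), ?_⟩
  rw [← mul_assoc, ← pow_succ']
  exact Nat.mul_le_mul_right _ (Nat.pow_le_pow_right (by norm_num) h)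

private theorem dst_ctr {r : ℕ} (hr : 1 ≤ r) (j : ℕ) (x : Site) :
    dst x (ctr r j x) < 32 ^ j * r :=
  dst_rnd (hr.trans (q_facts hr (Nat.lt_succ_self j)).1) x

open Classical in
/-- The part of the bad event of a block that concerns labels and scales. -/
def BadS {M : ℕ} (N k0 ρ r J : ℕ) (Hs : ℕ → ℕ) : Set (Site → Fin (2 * M - 1 + 1)) :=
  {ω | (∃ j < J, ¬ Gen ω (ball 0 N) (Hs j)) ∨ ∃ x ∈ ball 0 ρ,
    J ≤ 2 * ((Finset.range J).filter fun j => ¬ Good ω M (Hs j) k0 (ctr r j x) (scl r j)).card}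

theorem loc_badS {M N k0 ρ r J : ℕ} (hr : 1 ≤ r) (Hs : ℕ → ℕ) :
    Loc (BadS (M := M) N k0 ρ r J Hs) := by
  classical
  refine ⟨ball 0 N ∪ ball 0 (ρ + 2 * (32 ^ J * r)), (ball_finite _ _).union (ball_finite _ _), ?_⟩
  rintro ω ω' h (⟨j, hj, hg⟩ | ⟨x, hx, hc⟩)
  · refine Or.inl ⟨j, hj, fun g => hg fun u hu v hv huv => ?_⟩
    rw [h u (Or.inl hu), h v (Or.inl hv)]
    exact g u hu v hv huv
  · refine Or.inr ⟨x, hx, hc.trans (Nat.mul_le_mul_left _ (Finset.card_le_card fun j hj => ?_))⟩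
    rw [Finset.mem_filter] at hj ⊢
    have hq := q_facts hr (Finset.mem_range.1 hj.1)
    refine ⟨hj.1, fun g => hj.2 (dep_good _ M (Hs j) k0 _ (by unfold scl; omega) ω' ω
      (fun v hv => (h v (Or.inr ?_)).symm) g)⟩
    have h1 := dst_ctr hr j x
    have h2 := dst_triangle 0 x v
    have h3 := dst_triangle x (ctr r j x) v
    have h4 : dst (ctr r j x) v ≤ 9 * (4 * (32 ^ j * r)) := hv.2
    have h5 : dst 0 x ≤ ρ := hx
    show dst 0 v ≤ _
    omega

theorem loc_badB {M d N k0 ρ r R J : ℕ} (hr : 1 ≤ r) (Hs : ℕ → ℕ) :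
    Loc (BadB (M := M) d N k0 ρ r R J Hs) := by
  have e : BadB (M := M) d N k0 ρ r R J Hs = BadS N k0 ρ r J Hs ∪
      {ω | ∃ x ∈ ball 0 ρ, DArms (d + 1) (tr N ω) x (r + 1) (R - 1)} := by
    ext ω
    constructor
    · rintro (h | ⟨x, hx, h | h⟩)
      exacts [Or.inl (Or.inl h), Or.inr ⟨x, hx, h⟩, Or.inl (Or.inr ⟨x, hx, h⟩)]
    · rintro ((h | ⟨x, hx, h⟩) | ⟨x, hx, h⟩)
      exacts [Or.inl h, Or.inr ⟨x, hx, Or.inr h⟩, Or.inr ⟨x, hx, Or.inl h⟩]
  rw [e]
  exact (loc_badS hr Hs).union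
    (loc_tr N fun T => ∃ x ∈ ball 0 ρ, DArms (d + 1) T x (r + 1) (R - 1))

open Classical in
private theorem pr_centre {M k0 r J : ℕ} (hr : 1 ≤ r) (Hs : ℕ → ℕ)
    (h : ∀ j < J, ∀ g : Site,
      pr (unif (2 * M - 1)) {ω | ¬ Good ω M (Hs j) k0 g (scl r j)} ≤ (1 / 4096) ^ 2) (y : Site) :
    pr (unif (2 * M - 1)) {ω | J ≤ 2 * ((Finset.range J).filter fun j =>
      ¬ Good ω M (Hs j) k0 (ctr r j y) (scl r j)).card} ≤ (1 / 2048) ^ J := by
  have key : ∀ i j, i < j → Disjoint (ann (ctr r i y) (scl r i) (9 * scl r i))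
      (ann (ctr r j y) (scl r j) (9 * scl r j)) := by
    intro i j hij
    rw [Set.disjoint_left]
    intro v hv hw
    have hq := q_facts hr hij
    have h1 := dst_ctr hr i y
    have h2 := dst_ctr hr j y
    have h3 := dst_triangle y (ctr r i y) v
    have h4 := dst_triangle (ctr r j y) y v
    have h5 := dst_comm y (ctr r j y)
    have h6 : dst (ctr r i y) v ≤ 9 * (4 * (32 ^ i * r)) := hv.2
    have h7 : 4 * (32 ^ j * r) ≤ dst (ctr r j y) v := hw.1
    omega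
  have := pr_many_bad (unif (2 * M - 1)) (Finset.range J)
    (fun j => {ω | ¬ Good ω M (Hs j) k0 (ctr r j y) (scl r j)})
    (fun j => ann (ctr r j y) (scl r j) (9 * scl r j)) (fun j _ => ann_finite _ _ _)
    (fun j _ => (dep_good _ M (Hs j) k0 _ (by
      have := (q_facts hr (Nat.lt_succ_self j)).1
      unfold scl; omega)).compl)
    (fun i _ j _ hij => (lt_or_gt_of_ne hij).elim (key i j) fun h => (key j i h).symm)
    (δ := 1 / 4096) (by norm_num) (by norm_num) (fun j hj => h j (Finset.mem_range.1 hj) _)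
  rw [Finset.card_range] at this
  have e : (2 * (1 / 4096) : ℝ) = 1 / 2048 := by norm_num
  rw [e] at this
  convert this using 7
  ext j
  simp only [Finset.mem_filter, Set.mem_ofPred_eq]

theorem bad_scales {k0 : ℕ} (hk : GoodK k0) (c : ℕ) {ε : ℝ} (hε : 0 < ε) :
    ∃ J0, 1 ≤ J0 ∧ ∀ J, J0 ≤ J → ∃ n0, ∀ R, n0 ≤ R → ∀ ρ, ρ ≤ c * R → ∀ N, ∃ M0, ∀ M, M0 ≤ M →
      ∃ Hs : ℕ → ℕ, (∀ j < J, 1 ≤ Hs j ∧ 10 * Hs j ≤ M) ∧
        pr (unif (2 * M - 1)) (BadS N k0 ρ (R / (2 * 32 ^ J)) J Hs) ≤ ε := by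
  classical
  obtain ⟨s0, -, hk⟩ := hk
  obtain ⟨J1, hJ1⟩ := exists_pow_lt_of_lt_one
    (show 0 < ε / 2 / (8 * c + 2) ^ 2 by positivity) (show (1 / 2 : ℝ) < 1 by norm_num)
  refine ⟨J1 + 1, by omega, fun J hJ => ⟨2 * 32 ^ J * (s0 + 1), fun R hR ρ hρ N => ?_⟩⟩
  have hP : 0 < 2 * 32 ^ J := by positivity
  have hr0 : s0 + 1 ≤ R / (2 * 32 ^ J) := (Nat.le_div_iff_mul_le hP).2 (by rw [mul_comm]; exact hR)
  have hR1 : R < 2 * 32 ^ J * (R / (2 * 32 ^ J) + 1) := Nat.lt_mul_div_succ R hP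
  generalize R / (2 * 32 ^ J) = r at hr0 hR1 ⊢
  have hr : 1 ≤ r := by omega
  have hs : ∀ j, s0 ≤ scl r j := fun j => by
    have := (q_facts hr (Nat.lt_succ_self j)).1
    unfold scl; omega
  choose M0 _ hM0 using fun j => hk (scl r j) (hs j)
  obtain ⟨M1, hM1⟩ := exists_nat_ge (J * (2 * N + 1) ^ 4 / (ε / 2) : ℝ)
  refine ⟨∑ j ∈ Finset.range J, M0 j + M1 + 1, fun M hM => ?_⟩
  have hle : ∀ j < J, M0 j ≤ M := fun j hj => by
    have := Finset.single_le_sum (f := M0) (fun _ _ => Nat.zero_le _) (Finset.mem_range.2 hj)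
    omega
  have hex : ∀ j, ∃ H : ℕ, j < J → (1 ≤ H ∧ 10 * H ≤ M) ∧ ∀ g : Site,
      pr (unif (2 * M - 1)) {ω | ¬ Good ω M H k0 g (scl r j)} ≤ (1 / 4096) ^ 2 := by
    intro j
    by_cases hj : j < J
    · obtain ⟨H, a, b, d⟩ := hM0 j M (hle j hj)
      exact ⟨H, fun _ => ⟨⟨a, b⟩, d⟩⟩
    · exact ⟨0, fun h => absurd h hj⟩
  choose Hs hHs using hex
  refine ⟨Hs, fun j hj => (hHs j hj).1, ?_⟩
  have hM' : (0 : ℝ) < M := by exact_mod_cast (show 0 < M by omega)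
  have p1 : pr (unif (2 * M - 1)) {ω | ∃ j < J, ¬ Gen ω (ball 0 N) (Hs j)} ≤ ε / 2 := by
    refine le_trans (pr_le_sum _ (Finset.range J) (fun j => {ω | ¬ Gen ω (ball 0 N) (Hs j)})
      (by rintro ω ⟨j, hj, h⟩; exact ⟨j, Finset.mem_range.2 hj, h⟩)) ?_
    refine (Finset.sum_le_card_nsmul _ _ _ fun j _ => pr_gen M N (Hs j) (by omega)).trans ?_
    rw [Finset.card_range, nsmul_eq_mul, ← mul_div_assoc, div_le_iff₀ hM']
    rw [div_le_iff₀ (by positivity)] at hM1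
    have : (M1 : ℝ) ≤ M := by exact_mod_cast (show M1 ≤ M by omega)
    linarith only [hM1, hε, this, mul_nonneg_of_nonpos_of_nonpos (le_of_lt (Mathlib.Tactic.Linarith.sub_neg_of_lt hε)) (Mathlib.Tactic.Linarith.sub_nonpos_of_le this)]
  have hρ' : ρ ≤ 4 * c * 32 ^ J * r := by
    have : R ≤ 4 * 32 ^ J * r := by nlinarith only [hr0, hR1]
    calc ρ ≤ c * R := hρ
      _ ≤ c * (4 * 32 ^ J * r) := Nat.mul_le_mul_left _ this
      _ = _ := by ring
  have p2 : pr (unif (2 * M - 1)) {ω | ∃ x ∈ ball 0 ρ, J ≤ 2 * ((Finset.range J).filter fun j =>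
      ¬ Good ω M (Hs j) k0 (ctr r j x) (scl r j)).card} ≤ ε / 2 := by
    refine le_trans (pr_le_sum _ ((ballF 0 ρ).image (rnd r)) (fun y => {ω | J ≤ 2 *
      ((Finset.range J).filter fun j => ¬ Good ω M (Hs j) k0 (ctr r j y) (scl r j)).card})
      ?_) ?_
    · rintro ω ⟨x, hx, h⟩
      refine ⟨rnd r x, Finset.mem_image_of_mem _ (mem_ballF.2 hx), ?_⟩
      have e : ∀ j, ctr r j (rnd r x) = ctr r j x := fun j => rnd_rnd x
      simp only [Set.mem_ofPred_eq, e]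
      exact h
    refine (Finset.sum_le_card_nsmul _ _ _ fun y _ =>
      pr_centre hr Hs (fun j hj => (hHs j hj).2) y).trans ?_
    have c1 : ((ballF 0 ρ).image (rnd r)).card ≤ (8 * c + 2) ^ 2 * 1024 ^ J := by
      refine (card_rnd_image hr hρ' 0).trans ?_
      have h1 : 1 ≤ 32 ^ J := Nat.one_le_pow _ _ (by norm_num)
      have h2 : 1024 ^ J = (32 ^ J) ^ 2 := by rw [← pow_mul, mul_comm, pow_mul]; norm_num
      rw [h2, ← mul_pow]
      exact Nat.pow_le_pow_left (by linarith only [h1]) 2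
    have c2 : ((((ballF 0 ρ).image (rnd r)).card : ℕ) : ℝ) ≤ (8 * c + 2) ^ 2 * 1024 ^ J := by
      exact_mod_cast c1
    have c3 : (1 / 2 : ℝ) ^ J ≤ (1 / 2) ^ J1 :=
      pow_le_pow_of_le_one (by norm_num) (by norm_num) (by omega)
    have c4 : (1024 : ℝ) ^ J * (1 / 2048) ^ J = (1 / 2) ^ J := by rw [← mul_pow]; norm_num
    rw [lt_div_iff₀ (by positivity)] at hJ1
    rw [nsmul_eq_mul]
    calc _ ≤ (8 * c + 2 : ℝ) ^ 2 * 1024 ^ J * (1 / 2048) ^ J := by gcongr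
      _ = (1 / 2) ^ J * (8 * c + 2 : ℝ) ^ 2 := by rw [mul_assoc, c4, mul_comm]
      _ ≤ (1 / 2) ^ J1 * (8 * c + 2 : ℝ) ^ 2 := by gcongr
      _ ≤ ε / 2 := hJ1.le
  have := (pr_union_le (unif (2 * M - 1)) _ _).trans (add_le_add p1 p2)
  rw [add_halves] at this
  exact this

theorem scale_geo {r R J j : ℕ} (hr : 1 ≤ r) (hR : 2 * 32 ^ J * r ≤ R) (hj : j < J) (x : Site) :
    dst x (ctr r j x) + r < scl r j ∧ dst x (ctr r j x) + 9 * scl r j < R := by
  have hq := q_facts hr hj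
  have h1 := dst_ctr hr j x
  rw [mul_assoc] at hR
  unfold scl
  omega

open Classical in
/-- Off the bad event more than half of the scales give a zone. -/
theorem zones_of_not_badS {M N k0 ρ r R J : ℕ} {Hs : ℕ → ℕ} {ω : Site → Fin (2 * M - 1 + 1)}
    (h : ω ∉ BadS N k0 ρ r J Hs) (hH : ∀ j < J, 1 ≤ Hs j ∧ 10 * Hs j ≤ M) (hr : 1 ≤ r)
    (hR : 2 * 32 ^ J * r ≤ R) (hN : ρ + R ≤ N) {x : Site} (hx : x ∈ ball 0 ρ) :
    J < 2 * ((Finset.range J).filter fun j =>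
      Zone ω N (Hs j) k0 (ctr r j x) (scl r j)).card := by
  have h1 : ∀ j < J, Gen ω (ball 0 N) (Hs j) := fun j hj => by
    by_contra hn
    exact h (Or.inl ⟨j, hj, hn⟩)
  have h2 : 2 * ((Finset.range J).filter fun j =>
      ¬ Good ω M (Hs j) k0 (ctr r j x) (scl r j)).card < J :=
    not_le.1 fun hn => h (Or.inr ⟨x, hx, hn⟩)
  have h3 := Finset.card_filter_add_card_filter_not (s := Finset.range J)
    fun j => Good ω M (Hs j) k0 (ctr r j x) (scl r j)
  rw [Finset.card_range] at h3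
  have h4 : ((Finset.range J).filter fun j => Good ω M (Hs j) k0 (ctr r j x) (scl r j)).card ≤
      ((Finset.range J).filter fun j => Zone ω N (Hs j) k0 (ctr r j x) (scl r j)).card := by
    refine Finset.card_le_card fun j hj => ?_
    rw [Finset.mem_filter] at hj ⊢
    have hj' := Finset.mem_range.1 hj.1
    have hg := scale_geo hr hR hj' x
    refine ⟨hj.1, (hH j hj').1, (hH j hj').2, by omega, h1 j hj', hj.2, fun v hv => ?_⟩
    have a1 := dst_triangle 0 x v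
    have a2 := dst_triangle x (ctr r j x) v
    have a3 : dst (ctr r j x) v ≤ 9 * scl r j + 1 := hv
    have a4 : dst 0 x ≤ ρ := hx
    show dst 0 v ≤ N
    omega
  omega

end Pool.Agent.Work.MP_ccd212_pr
end

-- merged part: Pool.Agent.Work.MP_ccd212_pr.Blocks2
section
/-! Sequences of blocks and the number of macroscopic centres. -/

namespace Pool.Agent.Work.MP_ccd212_pr

theorem mem_badB {M d N k0 ρ r R J : ℕ} {Hs : ℕ → ℕ} {ω : Site → Fin (2 * M - 1 + 1)} :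
    ω ∈ BadB d N k0 ρ r R J Hs ↔ ω ∈ BadS N k0 ρ r J Hs ∨
      ∃ x ∈ ball 0 ρ, DArms (d + 1) (tr N ω) x (r + 1) (R - 1) := by
  simp only [BadB, BadS, Set.mem_ofPred_eq]
  constructor
  · rintro (h | ⟨x, hx, h | h⟩)
    · exact Or.inl (Or.inl h)
    · exact Or.inr ⟨x, hx, h⟩
    · exact Or.inl (Or.inr ⟨x, hx, h⟩)
  · rintro ((h | ⟨x, hx, h⟩) | ⟨x, hx, h⟩)
    · exact Or.inl h
    · exact Or.inr ⟨x, hx, Or.inr h⟩
    · exact Or.inr ⟨x, hx, Or.inl h⟩

theorem loc_runs {m d N ρ ρm a K : ℕ} (Js : ℕ → ℕ) :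
    Loc (RunT (m := m) d N ρ ρm a Js K ∪ RunD d N ρ ρm a Js K) ∧
      Loc (RunA (m := m) d N ρ a Js K) := by
  refine ⟨Loc.union ?_ ?_, ?_⟩
  · exact loc_tr N fun T => ∃ c ∈ ball 0 ρ, ∃ P, TriP T c ρm P ∧ ∀ i < K,
      DComp d T c (rad a Js (4 * i + 3)) (rad a Js (4 * i)) ∧
      ∀ j, ∀ v ∈ P j ∩ ann c (rad a Js (4 * i + 2)) (rad a Js (4 * i + 1)),
        ∀ v' ∈ P j ∩ ann c (rad a Js (4 * i + 2)) (rad a Js (4 * i + 1)),
          HC T (ann c (rad a Js (4 * i + 3)) (rad a Js (4 * i))) v v'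
  · exact loc_tr N fun T => ∃ F : Face, F.1 ∈ ball 0 ρ ∧ Face3 T F ρm ∧ ∀ i < K,
      DCompIn d T F.1 (rad a Js (4 * i + 3)) (rad a Js (4 * i))
  · exact loc_tr N fun T => ∃ x ∈ ball 0 ρ, ∃ j < K,
      DArms (d + 1) T x (rad a Js (j + 1) + 1) (rad a Js j - 1)

theorem DArms.mono_num {d e : ℕ} {T : SimpleGraph Site} {x : Site} {r R : ℕ} (h : DArms d T x r R)
    (he : e ≤ d) : DArms e T x r R := by
  obtain ⟨P, h1, h2⟩ := h
  exact ⟨fun i => P (Fin.castLE he i),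
    fun i j hij => h1 _ _ fun e => hij (Fin.castLE_injective he e), fun i => h2 _⟩

theorem bad_block {k0 d : ℕ} (hk : GoodK k0) (hH : Hyp (DArms (d + 1))) (c : ℕ) {ε : ℝ}
    (hε : 0 < ε) : ∃ J n0, 1 ≤ J ∧ ∀ R, n0 ≤ R → ∀ ρ, ρ ≤ c * R → ∀ N, ρ + 2 * R ≤ N →
      ∃ M0, ∀ M, M0 ≤ M → ∃ Hs : ℕ → ℕ, (∀ j < J, 1 ≤ Hs j ∧ 10 * Hs j ≤ M) ∧
        pr (unif (2 * M - 1)) (BadB d N k0 ρ (R / (2 * 32 ^ J)) R J Hs) ≤ ε := by
  obtain ⟨L, n1, hL, h1⟩ := hH (2 * c) (ε / 2) (half_pos hε)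
  obtain ⟨J0, hJ0, h2⟩ := bad_scales hk c (half_pos hε)
  obtain ⟨n2, h2⟩ := h2 (max J0 L) (le_max_left _ _)
  refine ⟨max J0 L, n1 + 1 + n2 + 4 * L, hJ0.trans (le_max_left _ _), fun R hR ρ hρ N hN => ?_⟩
  obtain ⟨M1, h1⟩ := h1 (R - 1) (by omega) ρ (by
    have : R ≤ 2 * (R - 1) := by omega
    calc ρ ≤ c * R := hρ
      _ ≤ c * (2 * (R - 1)) := Nat.mul_le_mul_left _ this
      _ = 2 * c * (R - 1) := by ring) N (by omega)
  obtain ⟨M2, h2⟩ := h2 R (by omega) ρ hρ N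
  refine ⟨max M1 M2, fun M hM => ?_⟩
  obtain ⟨Hs, hHs, h2⟩ := h2 M ((le_max_right _ _).trans hM)
  have h1 := h1 M ((le_max_left _ _).trans hM)
  refine ⟨Hs, hHs, ?_⟩
  have hr : R / (2 * 32 ^ max J0 L) + 1 ≤ (R - 1) / L := by
    have e1 : L ≤ 32 ^ max J0 L :=
      (le_max_right J0 L).trans (Nat.lt_pow_self (by norm_num)).le
    have e2 : R / (2 * 32 ^ max J0 L) ≤ R / (2 * L) :=
      Nat.div_le_div_left (by omega) (by omega)
    have e3 : R / (2 * L) * (2 * L) ≤ R := Nat.div_mul_le_self _ _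
    have e4 : R / (2 * 32 ^ max J0 L) * L ≤ R / (2 * L) * L := Nat.mul_le_mul_right _ e2
    have e5 : R / (2 * L) * (2 * L) = 2 * (R / (2 * L) * L) := by ring
    rw [Nat.le_div_iff_mul_le (by omega), add_mul]
    omega
  refine (pr_mono _ (F := BadS N k0 ρ (R / (2 * 32 ^ max J0 L)) (max J0 L) Hs ∪
    {ω | ∃ x ∈ ball 0 ρ, DArms (d + 1) (tr N ω) x ((R - 1) / L) (R - 1)}) fun ω hω => ?_).trans
    ((pr_union_le _ _ _).trans (by linarith only [h2, h1]))
  rcases mem_badB.1 hω with h | ⟨x, hx, h⟩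
  · exact Or.inl h
  · exact Or.inr ⟨x, hx, h.mono_ring hr le_rfl⟩

theorem blocks {k0 d : ℕ} (hk : GoodK k0) (hH : Hyp (DArms (d + 1))) (c B : ℕ) {ε : ℝ}
    (hε : 0 < ε) : ∃ (Js : ℕ → ℕ) (n0 : ℕ), (∀ i, 1 ≤ Js i) ∧ ∀ a, n0 ≤ a → ∀ ρ, ρ ≤ c * a →
      ∀ N, ρ + 2 * a ≤ N → ∃ M0, ∀ M, M0 ≤ M → ∃ Hs : ℕ → ℕ → ℕ,
        (∀ i < B, ∀ j < Js i, 1 ≤ Hs i j ∧ 10 * Hs i j ≤ M) ∧ pr (unif (2 * M - 1))
          {ω | ∃ i < B, ω ∈ BadB d N k0 ρ (rad a Js (i + 1)) (rad a Js i) (Js i) (Hs i)} ≤ ε := by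
  induction B generalizing ε with
  | zero =>
    refine ⟨fun _ => 1, 0, fun _ => le_rfl, fun a _ ρ _ N _ => ⟨0, fun M _ => ⟨fun _ _ => 0,
      fun i hi => absurd hi (Nat.not_lt_zero i), ?_⟩⟩⟩
    simp only [Nat.not_lt_zero, false_and, exists_false, Set.ofPred_false]
    rw [pr_empty]
    exact hε.le
  | succ B ih =>
    obtain ⟨Js, n0, hJs, h1⟩ := ih (half_pos hε)
    obtain ⟨J, n1, hJ, h2⟩ := bad_block hk hH (2 * c * Dv Js B) (half_pos hε)
    have hD := Dv_pos Js B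
    have hne : ∀ i, i < B → Function.update Js B J i = Js i := fun i hi =>
      Function.update_of_ne hi.ne _ _
    have hrad : ∀ a i, i ≤ B → rad a (Function.update Js B J) i = rad a Js i := by
      intro a i hi
      induction i with
      | zero => rfl
      | succ i ihi => rw [rad, rad, ihi (by omega), hne i (by omega)]
    refine ⟨Function.update Js B J, n0 + Dv Js B + n1 * Dv Js B, fun i => ?_,
      fun a ha ρ hρ N hN => ?_⟩
    · by_cases hi : i = B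
      · rw [hi, Function.update_self]; exact hJ
      · rw [Function.update_of_ne hi]; exact hJs i
    obtain ⟨M1, h1⟩ := h1 a (by omega) ρ hρ N hN
    have hR1 : n1 ≤ rad a Js B := by
      rw [rad_eq, Nat.le_div_iff_mul_le hD]; omega
    have hR2 : a ≤ 2 * Dv Js B * rad a Js B := by
      rw [rad_eq]
      have e1 : 1 ≤ a / Dv Js B := by
        rw [Nat.le_div_iff_mul_le hD]; omega
      have e2 := Nat.div_add_mod a (Dv Js B)
      have e3 := Nat.mod_lt a hD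
      have e4 : Dv Js B * 1 ≤ Dv Js B * (a / Dv Js B) := Nat.mul_le_mul_left _ e1
      have e5 : 2 * Dv Js B * (a / Dv Js B) = 2 * (Dv Js B * (a / Dv Js B)) := by ring
      omega
    have hR3 : rad a Js B ≤ a := rad_anti a Js (Nat.zero_le B)
    obtain ⟨M2, h2⟩ := h2 (rad a Js B) hR1 ρ (by
      calc ρ ≤ c * a := hρ
        _ ≤ c * (2 * Dv Js B * rad a Js B) := Nat.mul_le_mul_left _ hR2
        _ = 2 * c * Dv Js B * rad a Js B := by ring) N (by omega)
    refine ⟨max M1 M2, fun M hM => ?_⟩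
    obtain ⟨Hs, hHs, h1⟩ := h1 M ((le_max_left _ _).trans hM)
    obtain ⟨H1, hH1, h2⟩ := h2 M ((le_max_right _ _).trans hM)
    refine ⟨Function.update Hs B H1, fun i hi j hj => ?_, ?_⟩
    · by_cases e : i = B
      · rw [e, Function.update_self] at hj
        rw [e, Function.update_self]
        exact hH1 j hj
      · rw [Function.update_of_ne e] at hj
        rw [Function.update_of_ne e]
        exact hHs i (by omega) j hj
    · refine (pr_mono _ (F := {ω | ∃ i < B,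
          ω ∈ BadB d N k0 ρ (rad a Js (i + 1)) (rad a Js i) (Js i) (Hs i)} ∪
          BadB d N k0 ρ (rad a Js B / (2 * 32 ^ J)) (rad a Js B) J H1) fun ω hω => ?_).trans
        ((pr_union_le _ _ _).trans (by linarith only [h1, h2]))
      obtain ⟨i, hi, h⟩ := hω
      by_cases e : i = B
      · subst e
        rw [rad, hrad a i le_rfl, Function.update_self, Function.update_self] at h
        exact Or.inr h
      · have hi' : i < B := by omega
        rw [hrad a (i + 1) hi', hrad a i hi'.le, hne i hi', Function.update_of_ne e] at h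
        exact Or.inl ⟨i, hi', h⟩

open Classical in
/-- Some spanning tree with at most `k` edges outside `T` has more than `Q` macroscopic centres. -/
def Many (N ρ ρm k Q : ℕ) (T : SimpleGraph Site) : Prop :=
  ∃ T', Span T' (ball 0 N) ∧ (∃ E : Finset (Sym2 Site), E.card ≤ k ∧
    ∀ a b, T'.Adj a b → ¬ T.Adj a b → s(a, b) ∈ E) ∧
    Q < ((faceF ρ).filter fun F => Mac T' F ρm).card

theorem count_block {d : ℕ} (hH : Hyp (DArms (d + 1))) (c k : ℕ) {ε : ℝ} (hε : 0 < ε) :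
    ∃ Q n0, ∀ n, n0 ≤ n → ∀ ρ, ρ ≤ c * n → ∀ N, ρ + 2 * n ≤ N → ∃ M0, ∀ M, M0 ≤ M →
      pr (unif (2 * M - 1)) {ω | Many N ρ (n / 2) k Q (tr N ω)} ≤ ε := by
  obtain ⟨L, n1, hL, h1⟩ := hH (8 * c + 1) ε hε
  refine ⟨(2 * (24 * c * L) + 2) ^ 2 * (2 * (d + k) + (d + k) ^ 3), 4 * (n1 + 2 * L),
    fun n hn ρ hρ N hN => ?_⟩
  have hρ' : ρ ≤ 8 * (c * (n / 4)) := by
    have : n ≤ 8 * (n / 4) := by omega
    calc ρ ≤ c * n := hρ
      _ ≤ c * (8 * (n / 4)) := Nat.mul_le_mul_left _ this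
      _ = 8 * (c * (n / 4)) := by ring
  obtain ⟨M0, h1⟩ := h1 (n / 4) (by omega) (ρ + n / 4) (by
    have : (8 * c + 1) * (n / 4) = 8 * (c * (n / 4)) + n / 4 := by ring
    omega) N (by omega)
  refine ⟨M0, fun M hM => (pr_mono _ fun ω hω => ?_).trans (h1 M hM)⟩
  obtain ⟨T', hT', ⟨E, hE, hE'⟩, hQ⟩ := hω
  by_contra hno
  have e1 : 2 ≤ n / 4 / L := by
    rw [Nat.le_div_iff_mul_le hL]; omega
  have e2 : n / 4 / L ≤ n / 4 := Nat.div_le_self _ _
  have e3 : n / 4 ≤ 3 * L * (n / 4 / L - 1) := by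
    have a1 := Nat.div_add_mod (n / 4) L
    have a2 := Nat.mod_lt (n / 4) hL
    obtain ⟨b, hb⟩ : ∃ b, n / 4 / L = b + 2 := ⟨n / 4 / L - 2, by omega⟩
    rw [hb] at a1 ⊢
    have a3 : 3 * L * (b + 2 - 1) = 3 * (L * b) + 3 * L := by
      rw [show b + 2 - 1 = b + 1 from rfl]; ring
    have a4 : L * (b + 2) = L * b + 2 * L := by ring
    omega
  refine absurd hQ (not_lt.2 (mac_count (b := n / 4 / L - 1) (R := n / 4) hT' (by omega) (by omega)
    (by omega) ?_ (by omega) fun y hy hA => hno ⟨y, ?_, ?_⟩))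
  · calc ρ ≤ 8 * (c * (n / 4)) := hρ'
      _ ≤ 8 * (c * (3 * L * (n / 4 / L - 1))) :=
        Nat.mul_le_mul_left _ (Nat.mul_le_mul_left _ e3)
      _ = 24 * c * L * (n / 4 / L - 1) := by ring
  · have : dst 0 y ≤ ρ + (n / 4 / L - 1) := hy
    show dst 0 y ≤ ρ + n / 4
    omega
  · exact (darms_add E hE' (hA.mono_num (by omega))).mono_ring (by omega) le_rfl

end Pool.Agent.Work.MP_ccd212_pr
end
end

-- merged part: Pool.Agent.Work.MP_ccd212_pr.PropI
section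
-- merged part: Pool.Agent.Work.MP_ccd212_pr.Lower2
section
/-! Two crossings inside the two colours, and the topological step. -/

namespace Pool.Agent.Work.MP_ccd212_pr

variable {N s d r3 r2 r1 r0 : ℕ} {c g : Site} {a b : Fin d → Site} {i1 i2 : Fin d}

/-- If `d` components still cross after adding edges inside the two colours, two of them lie in
these colours and start in different colours. -/
theorem two_in_pair {T T' : SimpleGraph Site} (hT : Span T (ball 0 N)) (hT' : T' ≤ G)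
    (ht : Triple T N c r3 r2 r1 r0 a b g s) (hne : i1 ≠ i2)
    (hnew : ∀ x y, T'.Adj x y → ¬ T.Adj x y → x ∈ Cst T c r3 r0 (a i1) (a i2) ∧
      y ∈ Cst T c r3 r0 (a i1) (a i2) ∧ x ∈ ann c (r2 + 1) (r1 - 1) ∧ y ∈ ann c (r2 + 1) (r1 - 1))
    (hD : DComp d T' c r3 r0) :
    ∃ y1 y2 z1 z2, dst c y1 = r3 ∧ dst c y2 = r3 ∧ dst c z1 = r0 ∧ dst c z2 = r0 ∧
      HC T (ann c r3 r0) (a i1) y1 ∧ HC T (ann c r3 r0) (a i2) y2 ∧
      HC T' (Cst T c r3 r0 (a i1) (a i2)) y1 z1 ∧ HC T' (Cst T c r3 r0 (a i1) (a i2)) y2 z2 ∧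
      ¬ HC T' (ann c r3 r0) y1 y2 := by
  obtain ⟨a', b', hc, hn⟩ := hD
  have h32 := ht.h32
  have hlt := colour_lt ht
  have h10 := ht.h10
  have key : ∀ k, ∃ (y v : Site) (j : Fin d), dst c y = r3 ∧ dst c v = r2 - 1 ∧
      HC T ({x | HC T' (ann c r3 r0) (a' k) x} ∩ ann c r3 r0) y v ∧
      HC T' (ann c r3 r0) (a' k) y ∧ HC T (ann c r3 r0) (a j) y := fun k => by
    obtain ⟨h1, h2, h3⟩ := hc k
    obtain ⟨y, v, hy, hv, k1, k2, -⟩ := h3.cluster.sub_ann hT' (c := c) (r := r3) (R := r2 - 1)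
      (by omega) h1.le (by omega)
    have k3 : HC T ({x | HC T' (ann c r3 r0) (a' k) x} ∩ ann c r3 (r2 - 1)) y v :=
      k1.transfer fun x z _ hz hxz => by
        by_contra hno
        have e1 := (hnew x z hxz hno).2.2.2.1
        have e2 := hz.2.2
        omega
    have k4 : HC T ({x | HC T' (ann c r3 r0) (a' k) x} ∩ ann c r3 r0) y v :=
      k3.mono fun x hx => ⟨hx.1, hx.2.1, by have := hx.2.2; omega⟩
    obtain ⟨j, hj⟩ := ht.colour hT (v := v) ⟨by omega, by omega⟩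
    exact ⟨y, v, j, hy, hv, k4, k2.right_mem, hj.trans (k4.mono Set.inter_subset_right).symm⟩
  choose y v col hy hv hyv hay hcol using key
  have hinj : Function.Injective col := by
    intro k l hkl
    by_contra hne'
    have hd : Disjoint {x | HC T' (ann c r3 r0) (a' k) x} {x | HC T' (ann c r3 r0) (a' l) x} :=
      Set.disjoint_left.2 fun x h1 h2 => hn k l hne' (HC.trans h1 (HC.symm h2))
    refine ht.few_in hT.le {col k} (P := (![{x | HC T' (ann c r3 r0) (a' k) x},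
      {x | HC T' (ann c r3 r0) (a' l) x}] : Fin 2 → Set Site)) ?_ ?_
    · change ∀ i j : Fin 2, _
      intro i j hij
      fin_cases i <;> fin_cases j
      exacts [absurd rfl hij, hd, hd.symm, absurd rfl hij]
    · change ∀ j : Fin 2, _
      intro j
      fin_cases j
      · exact ⟨y k, v k, by have := hy k; omega, (hv k).ge, hyv k, col k,
          Finset.mem_singleton_self _, hcol k⟩
      · exact ⟨y l, v l, by have := hy l; omega, (hv l).ge, hyv l, col k,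
          Finset.mem_singleton_self _, hkl ▸ hcol l⟩
  have hsurj := Finite.surjective_of_injective hinj
  obtain ⟨k1, rfl⟩ := hsurj i1
  obtain ⟨k2, rfl⟩ := hsurj i2
  have stay : ∀ k, y k ∈ Cst T c r3 r0 (a (col k1)) (a (col k2)) →
      HC T' (Cst T c r3 r0 (a (col k1)) (a (col k2))) (y k) (b' k) := fun k hk => by
    refine (((hay k).symm.trans (hc k).2.2).inter_of fun x hx => ?_).mono Set.inter_subset_right
    refine hx.ind hk fun x z _ hz hxz hp => ?_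
    by_cases h : T.Adj x z
    · exact hp.imp (fun q => q.tail h hz) fun q => q.tail h hz
    · exact (hnew x z hxz h).2.1
  exact ⟨y k1, y k2, b' k1, b' k2, hy k1, hy k2, (hc k1).2.1, (hc k2).2.1, hcol k1, hcol k2,
    stay k1 (Or.inl (hcol k1)), stay k2 (Or.inr (hcol k2)),
    fun h => hn k1 k2 (fun e => hne (congrArg col e)) ((hay k1).trans (h.trans (hay k2).symm))⟩

/-- Following the boundary of `U` on the side of the curve that does not contain `Y`. -/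
theorem side_cross {U Y X : Set Site} {y1 y2 z1 z2 : Site} (γ1 : G.Walk y1 z1) (γ2 : G.Walk y2 z2)
    (β : G.Walk y1 y2) (hs : 1 ≤ s) (hr : dst c g + 7 * s < r0) (hz1 : dst c z1 = r0)
    (hz2 : dst c z2 = r0) (hβ : ∀ v ∈ β.support, dst g v < s)
    (h1 : ∀ v ∈ γ1.support, v ∈ U) (h2 : ∀ v ∈ γ2.support, v ∉ U) (hY : IsConn Y)
    (hY1 : ∀ v ∈ Y, dst c v ≤ r0 ∧ v ∉ γ1.support ∧ v ∉ γ2.support ∧ v ∉ β.support)
    (hX : ∀ y y', Adj y y' → y ∈ U → y' ∉ U → y ∈ ann g (3 * s) (7 * s) →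
      y' ∈ ann g (3 * s) (7 * s) → y ∉ Y → y' ∉ Y →
      (y' ∉ γ2.support → ∀ t, Adj y' t → t ∉ Y) → y ∈ X ∨ y' ∈ X) :
    Arm X g (4 * s) (7 * s) := by
  classical
  obtain ⟨t1, a1, d1⟩ := Top3_out hz1
  obtain ⟨t2, a2, d2⟩ := Top3_out hz2
  obtain ⟨δ, hδ⟩ : Conn (ann c (r0 + 1) (r0 + 1) ∪ {z1, z2}) z2 z1 :=
    Conn.head a2 (Or.inr (Or.inr rfl))
      (((Top3_ring_conn c r0 t2 ⟨d2.ge, d2.le⟩ t1 ⟨d1.ge, d1.le⟩).mono
        Set.subset_union_left).tail a1.symm (Or.inr (Or.inl rfl)))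
  have hδ' : ∀ v ∈ δ.support, 7 * s < dst g v := fun v hv => by
    have h3 := dst_triangle c g v
    rcases hδ v hv with h | rfl | rfl
    · have := h.1; omega
    · omega
    · omega
  obtain ⟨W, hW, hm⟩ : ∃ W : G.Walk z1 z1, (∀ v ∈ W.support, v ∈ γ1.support ∨ v ∈ β.support ∨
      v ∈ γ2.support ∨ v ∈ δ.support) ∧
      ∀ e, Cut U e → dst g e.1 ≤ 7 * s → mult W e.1 e.2 = mult β e.1 e.2 := by
    refine ⟨γ1.reverse.append (β.append (γ2.append δ)), fun v hv => ?_, fun e he hd => ?_⟩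
    · simpa only [SimpleGraph.Walk.mem_support_append_iff, SimpleGraph.Walk.support_reverse,
        List.mem_reverse] using hv
    · rw [mult_append, mult_append, mult_append, mult_reverse, Top3_mult_swap γ1,
        mult_eq_zero γ1 fun h => he.2.2 (h1 _ h), mult_eq_zero γ2 fun h => h2 _ h he.2.1,
        mult_eq_zero δ fun h => by have := hδ' _ h; omega, zero_add, add_zero, add_zero]
  have hYW : ∀ v ∈ Y, v ∉ W.support := fun v hv h => by
    obtain ⟨k1, k2, k3, k4⟩ := hY1 v hv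
    rcases hW v h with h | h | h | h
    · exact k2 h
    · exact k4 h
    · exact k3 h
    · rcases hδ v h with h | rfl | rfl
      · have := h.1; omega
      · exact k2 γ1.end_mem_support
      · exact k3 γ2.end_mem_support
  obtain ⟨φ, hφ⟩ : ∃ φ : ZMod 2, ∀ v ∈ Y, ∀ f, InF f v → wind W f = φ := by
    rcases Y.eq_empty_or_nonempty with rfl | ⟨v0, hv0⟩
    · exact ⟨0, fun v hv => hv.elim⟩
    · obtain ⟨f0, hf0⟩ := exists_inF v0
      exact ⟨wind W f0, fun v hv f hf => wind_eq_of_conn W hYW (hY v hv v0 hv0) hf hf0⟩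
  have near : ∀ {f : Face} {u v : Site}, InF f u → InF f v → dst g v ≤ dst g u + 1 :=
    fun {f u v} hu hv => by
      by_cases e : u = v
      · rw [e]; omega
      · exact (hu.adj hv e).dst_le g
  have z2a : ∀ ψ x y : ZMod 2, x + y = 1 → x ≠ ψ ∧ y = ψ ∨ y ≠ ψ ∧ x = ψ := by decide
  have z2b : ∀ x y : ZMod 2, x + y ≠ 1 → x = y := by decide
  let F : Set Face := {f | wind W f ≠ φ ∧ ∀ v, InF f v → dst g v ≤ 7 * s}
  have hF : F.Finite := by
    refine ((ball_finite g (7 * s + 1)).prod (Set.finite_univ (α := Bool))).subset fun f hf => ?_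
    refine ⟨?_, trivial⟩
    have k := hf.2 (f.1.1 + 1, f.1.2) (Or.inl ⟨rfl, rfl⟩)
    simp only [mem_ball, dst] at k ⊢
    omega
  obtain ⟨E1, hodd, hE⟩ := odd_cut_of_walk (U := U) β (h1 _ γ1.start_mem_support)
    (h2 _ γ2.start_mem_support)
  have hE1 : ∀ e ∈ E1, dst g e.1 < s := fun e he => hβ _ (by
    by_contra hno
    have := ((hE e).1 he).2
    rw [mult_eq_zero β hno] at this
    exact zero_ne_one this)
  have hEx : ∀ e ∈ E1, Cut U e ∧ Exit F e := fun e he => by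
    obtain ⟨k1, k2⟩ := (hE e).1 he
    have k3 := hE1 e he
    refine ⟨k1, ?_⟩
    obtain ⟨f, f', hs'⟩ := k1.1.exists_shares
    have k4 := wind_shares W hs'
    rw [hm e k1 (by omega), k2] at k4
    rcases z2a φ _ _ k4 with k | k
    · exact ⟨f, f', hs', ⟨k.1, fun v hv => by have := near hs'.2.2.1 hv; omega⟩,
        fun h => h.1 k.2⟩
    · exact ⟨f', f, hs'.symm, ⟨k.1, fun v hv => by have := near hs'.2.2.2.2.1 hv; omega⟩,
        fun h => h.1 k.2⟩
  obtain ⟨e, he, e', he', hc', ⟨f, f', hs', hf, hf'⟩, hch⟩ := cut_follow hF E1 hEx hodd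
  have hend : 7 * s ≤ dst g e'.1 ∧ 7 * s ≤ dst g e'.2 := by
    have k1 := wind_shares W hs'
    rw [hm e' hc' (hf.2 _ hs'.2.2.1)] at k1
    have k2 := z2b _ _ fun h => he' ((hE e').2 ⟨hc', k1.symm.trans h⟩)
    have k3 : ¬ ∀ v, InF f' v → dst g v ≤ 7 * s := fun h => hf' ⟨k2 ▸ hf.1, h⟩
    push Not at k3
    obtain ⟨x, hx, hx'⟩ := k3
    have := near hs'.2.2.2.2.1 hx
    have := near hs'.2.2.2.2.2 hx
    omega
  let sel : Site × Site → Site := fun e => if e.1 ∈ X then e.1 else e.2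
  have hsel : ∀ e, sel e = e.1 ∨ sel e = e.2 := fun e => by
    by_cases h : e.1 ∈ X
    · exact Or.inl (if_pos h)
    · exact Or.inr (if_neg h)
  have hT : ∀ e, Cut U e → (∃ f ∈ F, InF f e.1 ∧ InF f e.2) →
      sel e ∈ X ∪ {v | dst g v < 4 * s} := by
    rintro e he ⟨f, hf, k1, k2⟩
    have n1 := near k1 k2
    have n2 := near k2 k1
    by_cases h : 3 * s ≤ dst g e.1 ∧ 3 * s ≤ dst g e.2
    · left
      have k := hX e.1 e.2 he.1 he.2.1 he.2.2 ⟨h.1, hf.2 _ k1⟩ ⟨h.2, hf.2 _ k2⟩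
        (fun hy => hf.1 (hφ _ hy f k1)) (fun hy => hf.1 (hφ _ hy f k2)) fun hγ t ht hty => by
          obtain ⟨f1, _, hs1⟩ := ht.exists_shares
          refine hf.1 ((wind_eq_of_conn W (S := {e.2}) ?_ (Conn.refl rfl) k2 hs1.2.2.1).trans
            (hφ t hty f1 hs1.2.2.2.1))
          rintro v rfl hv
          rcases hW _ hv with hv | hv | hv | hv
          · exact he.2.2 (h1 _ hv)
          · have := hβ _ hv; omega
          · exact hγ hv
          · have := hδ' _ hv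
            have := hf.2 _ k2
            omega
      by_cases h' : e.1 ∈ X
      · rw [show sel e = e.1 from if_pos h']; exact h'
      · rw [show sel e = e.2 from if_neg h']; exact k.resolve_left h'
    · right
      change dst g (sel e) < 4 * s
      rcases hsel e with k | k <;> rw [k] <;> omega
  obtain ⟨k1, f0, _, hs0, hf0, _⟩ := hEx e he
  have hcon := conn_of_chain sel hsel hT k1 ⟨f0, hf0, hs0.2.2.1, hs0.2.2.2.1⟩ hch
  have harm : Arm (X ∪ {v | dst g v < 4 * s}) g (4 * s) (7 * s) := by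
    refine hcon.arm (by omega) (Or.inl ?_) ?_
    · have := hE1 e he
      have := k1.1.dst_le g
      rcases hsel e with k | k <;> rw [k] <;> omega
    · rcases hsel e' with k | k <;> rw [k]
      exacts [hend.1, hend.2]
  refine sup_Arm g (4 * s) (7 * s) _ _ (fun v hv => ⟨fun h => h.resolve_right fun h' => ?_,
    Or.inl⟩) harm
  have k2 : dst g v < 4 * s := h'
  have := hv.1
  omega

end Pool.Agent.Work.MP_ccd212_pr
end

-- merged part: Pool.Agent.Work.MP_ccd212_pr.Lower3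
section
/-! Lowering breaks the triple; surgery at a three-coloured face. -/

namespace Pool.Agent.Work.MP_ccd212_pr

variable {M N H k0 s d r3 r2 r1 r0 ρ : ℕ} {ω : Site → Fin (2 * M - 1 + 1)} {c g : Site}
  {a b : Fin d → Site} {S1 S : Finset Site} {i1 i2 : Fin d}

/-- The two neighbours of an inner vertex of a simple path. -/
private theorem l3_nbrs {V : Type} {T : SimpleGraph V} {y z v : V} {γ : T.Walk y z}
    (hγ : γ.IsPath) (hv : v ∈ γ.support) (h1 : v ≠ y) (h2 : v ≠ z) :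
    ∃ p ∈ γ.support, ∃ q ∈ γ.support, T.Adj v p ∧ T.Adj v q ∧ p ≠ q := by
  obtain ⟨t, e, rfl⟩ := SimpleGraph.Walk.mem_support_iff_exists_append.1 hv
  obtain ⟨q, hq, e', rfl⟩ := SimpleGraph.Walk.exists_eq_cons_of_ne h2 e
  obtain ⟨p, hp, t', ht⟩ := SimpleGraph.Walk.exists_eq_cons_of_ne h1 t.reverse
  have k1 : p ∈ t.support := by
    have k : p ∈ t.reverse.support := by
      rw [ht, SimpleGraph.Walk.support_cons]
      exact List.mem_cons_of_mem _ t'.start_mem_support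
    simpa using k
  have k2 := hγ.support_nodup
  rw [SimpleGraph.Walk.support_append, SimpleGraph.Walk.support_cons, List.tail_cons,
    List.nodup_append] at k2
  refine ⟨p, (SimpleGraph.Walk.mem_support_append_iff _ _).2 (Or.inl k1), q,
    (SimpleGraph.Walk.mem_support_append_iff _ _).2 (Or.inr ?_), hp, hq,
    k2.2.2 p k1 q e'.start_mem_support⟩
  rw [SimpleGraph.Walk.support_cons]
  exact List.mem_cons_of_mem _ e'.start_mem_support

/-- An unmoved window site on a tree crossing of the zone has its two neighbours on the crossing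
low, distinct and not adjacent. -/
theorem Zone.path_nbrs (h : Zone ω N H k0 g s) (hS : (S : Set Site) ⊆ XS ω M H 1 g s) {y z v : Site}
    {γ : (tr N (mv false H S ω)).Walk y z} (hγ : γ.IsPath) (hy : dst g y < s)
    (hz : 9 * s ≤ dst g z) (hv : v ∈ γ.support) (hX : v ∈ XS ω M H 1 g s) (hvS : v ∉ S) :
    ∃ p ∈ γ.support, ∃ q ∈ γ.support, Adj v p ∧ Adj v q ∧ (ω p : ℕ) < M - 5 * H ∧
      (ω q : ℕ) < M - 5 * H ∧ p ≠ q ∧ ¬ Adj p q := by
  have hs := h.hs
  have hH := h.hH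
  have hM := h.hM
  have e1 : 5 * s ≤ dst g v := hX.1.1
  have e2 : dst g v ≤ 6 * s := hX.1.2
  obtain ⟨p, hp, q, hq, k1, k2, k3⟩ := l3_nbrs hγ hv
    (by rintro rfl; omega) (by rintro rfl; omega)
  have inj := (h.mv_props false hS).2.1
  have sp := tr_span inj
  obtain ⟨O1, O2, hB, hj⟩ := h.exists_blk
  rw [← (h.lev_down hS).2] at hB hj
  have hb := (hi_between inj (by omega) (fun v hv => h.sub (Nat.le_succ_of_le hv)) hB hj hγ
    hy hz).2.1
  rw [(h.lev_down hS).2] at hb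
  have low : ∀ x ∈ γ.support, Adj v x → (ω x : ℕ) < M - 5 * H := by
    intro x hx hvx
    have f1 := hvx.dst_le g
    have f2 := hvx.symm.dst_le g
    have f3 : (ω x : ℕ) < M + H := hb x hx (mem_ann.2 (by omega))
    have f4 := h.low_or_high hX hvx.ne.symm (by rw [hvx.dst_eq]; omega)
    omega
  have l1 := low p hp (sp.le k1)
  have l2 := low q hq (sp.le k2)
  refine ⟨p, hp, q, hq, sp.le k1, sp.le k2, l1, l2, k3, fun hpq => ?_⟩
  have lt : ∀ x, (ω x : ℕ) < M - 5 * H → mv false H S ω x < mv false H S ω v := by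
    intro x hx
    have f1 : x ∉ S := fun hh => by
      have := (hS hh).2.1.1
      omega
    have f2 := hX.2.1.1
    rw [mv_of_not_mem f1, mv_of_not_mem hvS, Fin.lt_def]
    omega
  exact mst_no_low k1 k2 k3 inj
    (Conn.of_adj hpq ⟨(sp.mem _ _ k1).2, lt p l1⟩ ⟨(sp.mem _ _ k2).2, lt q l2⟩)

/-- Four neighbours of a site cannot be pairwise distinct and not adjacent. -/
private theorem l3_hex {v p q t x : Site} (hp : Adj v p) (hq : Adj v q) (ht : Adj v t)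
    (hx : Adj v x) (h1 : ¬ (p = q ∨ Adj p q)) (h2 : ¬ (p = t ∨ Adj p t))
    (h3 : ¬ (q = t ∨ Adj q t)) (h4 : ¬ (x = t ∨ Adj x t)) (h5 : ¬ (p = x ∨ Adj p x))
    (h6 : ¬ (q = x ∨ Adj q x)) : False := by
  have sy : ∀ {u w : Site}, (u = w ∨ Adj u w) → (w = u ∨ Adj w u) :=
    fun hh => hh.imp Eq.symm Adj.symm
  obtain ⟨i, j, hij, hh⟩ := hexagon (v := v) ![p, q, t, x] (fun i => by
    fin_cases i
    exacts [hp, hq, ht, hx])
  fin_cases i <;> fin_cases j
  exacts [hij rfl, h1 hh, h2 hh, h5 hh, h1 (sy hh), hij rfl, h3 hh, h6 hh, h2 (sy hh), h3 (sy hh),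
    hij rfl, h4 (sy hh), h5 (sy hh), h6 (sy hh), h4 hh, hij rfl]

private theorem l3_zone {T : SimpleGraph Site} (ht : Triple T N c r3 r2 r1 r0 a b g s) :
    ann g s (9 * s - 1) ⊆ ann c r3 r0 := by
  intro v hv
  have h1 := ht.zone_sub (show v ∈ ann g s (9 * s) from ⟨hv.1, hv.2.trans (Nat.sub_le _ _)⟩)
  have h2 := ht.h32
  have h3 := ht.h10
  rw [mem_ann] at h1 ⊢
  omega

/-- A site of the zone has one of the two colours or another colour. -/
private theorem l3_col {T : SimpleGraph Site} (hT : Span T (ball 0 N))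
    (ht : Triple T N c r3 r2 r1 r0 a b g s) {v : Site} (hv : v ∈ ann g s (9 * s)) :
    v ∈ Cst T c r3 r0 (a i1) (a i2) ∨ ∃ j, j ≠ i1 ∧ j ≠ i2 ∧ HC T (ball c r0) (a j) v := by
  have h1 := ht.zone_sub hv
  rw [mem_ann] at h1
  obtain ⟨i, hi⟩ := ht.colour hT (v := v) (mem_ann.2 (by omega))
  by_cases e1 : i = i1
  · exact Or.inl (Or.inl (e1 ▸ hi))
  · by_cases e2 : i = i2
    · exact Or.inl (Or.inr (e2 ▸ hi))
    · exact Or.inr ⟨i, e1, e2, hi.mono colour_ann_sub⟩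

/-- Low sites that are equal or adjacent have the same colour. -/
private theorem l3_same (h : Zone ω N H k0 g s) (ht : Triple (tr N ω) N c r3 r2 r1 r0 a b g s)
    {p t : Site} (hp : p ∈ ann g (2 * s) (8 * s - 1)) (lp : (ω p : ℕ) < M - 5 * H)
    (lt : (ω t : ℕ) < M - 5 * H) (hc : p ∈ Cst (tr N ω) c r3 r0 (a i1) (a i2))
    (hpt : p = t ∨ Adj p t) : t ∈ Cst (tr N ω) c r3 r0 (a i1) (a i2) := by
  rcases hpt with rfl | hpt
  · exact hc
  · have k : HC (tr N ω) (ann c r3 r0) p t :=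
      (h.low_join0 hp (Conn.of_adj hpt (show (ω p : ℕ) < M - H by omega)
        (show (ω t : ℕ) < M - H by omega))).mono fun v hv => l3_zone ht hv.2
    exact hc.imp (fun hh => hh.trans k) fun hh => hh.trans k

theorem lower_break (h : Zone ω N H k0 g s) (ht : Triple (tr N ω) N c r3 r2 r1 r0 a b g s)
    (h1 : IsS1 ω M H g s S1) (hS : IsLow ω N H c r3 r0 (a i1) (a i2) S1 S) (hne : i1 ≠ i2)
    (h12 : HC (tr N ω) (ball c r0) (a i1) (a i2)) {F : Face}
    (hj : ∀ j, j ≠ i1 → j ≠ i2 → ¬ HC (tr N ω) (ball c r0) (a j) (a i1) ∧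
      ∃ u, InF F u ∧ HC (tr N ω) (ball c r0) (a j) u) :
    ¬ DComp d (tr N (mv false H S ω)) c r3 r0 := by
  intro hD
  have hs := h.hs
  have hH := h.hH
  have hM := h.hM
  have t1 := ht.hin
  have t2 := ht.hout
  have t3 := ht.h32
  have t4 := ht.h10
  have hSX := IsLow.sub h1 hS
  have sp := h.span
  have sp' := tr_span (h.mv_props false hSX).2.1
  obtain ⟨y1, y2, z1, z2, d1, d2, d3, d4, c1, c2, c3, c4, c5⟩ := two_in_pair sp sp'.le ht hne
    (fun x y hxy hn => new_edge_col h ht h1 hS hxy hn) hD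
  obtain ⟨γ1, p1, s1⟩ := c3.exists_path
  obtain ⟨γ2, p2, s2⟩ := c4.exists_path
  obtain ⟨β, sβ⟩ := ht.beta sp hne h12 (fun j k1 k2 => (hj j k1 k2).1) d1 d2 c1 c2
  have lev1 := (h.lev_down hSX).1
  -- geometry of the ends
  have gy : ∀ y, dst c y ≤ r2 → dst g y < s := fun y hy => by
    have := dst_triangle g c y
    have := dst_comm c g
    omega
  have gz : ∀ z, dst c z = r0 → 9 * s ≤ dst g z := fun z hz => by
    have := dst_triangle c g z
    omega
  have cs : Cst (tr N ω) c r3 r0 (a i1) (a i2) ⊆ ann c r3 r0 :=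
    fun v hv => hv.elim HC.right_mem HC.right_mem
  have cl : ∀ v ∈ Cst (tr N ω) c r3 r0 (a i1) (a i2), HC (tr N ω) (ball c r0) (a i1) v :=
    fun v hv => hv.elim (fun hh => hh.mono colour_ann_sub)
      fun hh => h12.trans (hh.mono colour_ann_sub)
  obtain ⟨U, hU⟩ : ∃ U : Set Site, ∀ v, v ∈ U ↔ v ∈ γ1.support ∨ ∃ u ∈ γ1.support,
      u ∈ ann g (2 * s) (8 * s - 1) ∧ Conn (lev (mv false H S ω) (M - H)) u v :=
    ⟨{v | v ∈ γ1.support ∨ ∃ u ∈ γ1.support,
      u ∈ ann g (2 * s) (8 * s - 1) ∧ Conn (lev (mv false H S ω) (M - H)) u v}, fun _ => Iff.rfl⟩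
  obtain ⟨Y, hY⟩ : ∃ Y : Set Site, ∀ v, v ∈ Y ↔
      ∃ j, j ≠ i1 ∧ j ≠ i2 ∧ HC (tr N ω) (ball c r0) (a j) v :=
    ⟨{v | ∃ j, j ≠ i1 ∧ j ≠ i2 ∧ HC (tr N ω) (ball c r0) (a j) v}, fun _ => Iff.rfl⟩
  have Yn : ∀ v ∈ Y, ¬ HC (tr N ω) (ball c r0) (a i1) v := fun v hv hh => by
    obtain ⟨j, k1, k2, k3⟩ := (hY v).1 hv
    exact (hj j k1 k2).1 (k3.trans hh.symm)
  have U1 : ∀ v ∈ U, HC (tr N (mv false H S ω)) (ann c r3 r0) y1 v := by
    intro v hv
    have k : ∀ u ∈ γ1.support, HC (tr N (mv false H S ω)) (ann c r3 r0) y1 u :=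
      fun u hu => (HC.of_mem_support γ1 hu).mono fun x hx => cs (s1 x hx)
    rcases (hU v).1 hv with hv | ⟨u, hu, hu', hc⟩
    · exact k v hv
    · exact (k u hu).trans ((h.low_join hSX hu' hc).mono fun x hx => l3_zone ht hx.2)
  have U2 : ∀ v ∈ γ2.support, v ∉ U := fun v hv hv' =>
    c5 ((U1 v hv').trans ((HC.of_mem_support γ2 hv).mono fun x hx => cs (s2 x hx)).symm)
  have U3 : ∀ x ∈ U, x ∈ ann g (2 * s) (8 * s - 1) → x ∈ lev (mv false H S ω) (M - H) →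
      ∀ x' ∈ lev (mv false H S ω) (M - H), (x = x' ∨ Adj x x') → x' ∈ U := by
    intro x hx ha hl x' hl' hxx
    rcases hxx with rfl | hxx
    · exact hx
    · rcases (hU x).1 hx with hx | ⟨u, hu, hu', hc⟩
      · exact (hU x').2 (Or.inr ⟨x, hx, ha, Conn.of_adj hxx hl hl'⟩)
      · exact (hU x').2 (Or.inr ⟨u, hu, hu', hc.tail hxx hl'⟩)
  have lo : ∀ x, (ω x : ℕ) < M - 5 * H → x ∈ lev (mv false H S ω) (M - H) := fun x hx => by
    rw [lev1]
    exact Or.inl (show (ω x : ℕ) < M - H by omega)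
  have nb : ∀ w ∈ S1, ∀ x, Adj w x → x ∈ ann g (2 * s) (8 * s - 1) := fun w hw x hx => by
    have f1 : 5 * s ≤ dst g w := (h1.sub hw).1.1
    have f2 : dst g w ≤ 6 * s := (h1.sub hw).1.2
    have f3 := hx.dst_le g
    have f4 := hx.symm.dst_le g
    exact mem_ann.2 (by omega)
  have col : ∀ x ∈ ann g (2 * s) (8 * s - 1), x ∉ Y → x ∈ Cst (tr N ω) c r3 r0 (a i1) (a i2) :=
    fun x hx hn => (l3_col sp ht (v := x) (by rw [mem_ann] at hx ⊢; omega)).resolve_right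
      fun hh => hn ((hY x).2 hh)
  have ex : ∀ w ∈ S1, w ∉ S → ∃ t, Adj w t ∧ (ω t : ℕ) < M - 5 * H ∧ t ∈ Y ∧
      t ∉ Cst (tr N ω) c r3 r0 (a i1) (a i2) := by
    intro w hw hn
    by_contra hh
    refine hn ((hS w).2 ⟨hw, fun u hu hl => ?_⟩)
    by_contra hc
    refine hh ⟨u, hu, hl, ?_, hc⟩
    by_contra hy
    exact hc (col u (nb w hw u hu) hy)
  refine h1.kill (side_cross (c := c) (r0 := r0) (U := U) (Y := Y) (γ1.mapLe sp'.le)
    (γ2.mapLe sp'.le) (β.mapLe sp.le) (by omega) (by omega) d3 d4 ?_ ?_ ?_ ?_ ?_ ?_)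
  · intro v hv
    rw [SimpleGraph.Walk.support_mapLe_eq_support] at hv
    have k : dst c v ≤ r2 - 1 := (sβ v hv).1
    exact gy v (by omega)
  · intro v hv
    rw [SimpleGraph.Walk.support_mapLe_eq_support] at hv
    exact (hU v).2 (Or.inl hv)
  · intro v hv
    rw [SimpleGraph.Walk.support_mapLe_eq_support] at hv
    exact U2 v hv
  · have k : ∀ v ∈ Y, ∃ u, InF F u ∧ Conn Y v u := by
      intro v hv
      obtain ⟨j, k1, k2, k3⟩ := (hY v).1 hv
      obtain ⟨u, k4, k5⟩ := (hj j k1 k2).2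
      have m : {x | HC (tr N ω) (ball c r0) (a j) x} ⊆ Y := fun x hx => (hY x).2 ⟨j, k1, k2, hx⟩
      exact ⟨u, k4, ((k3.cluster.symm.trans k5.cluster).mono m).conn sp.le⟩
    intro v hv v' hv'
    obtain ⟨u, k1, k2⟩ := k v hv
    obtain ⟨u', k3, k4⟩ := k v' hv'
    by_cases e : u = u'
    · exact k2.trans (e ▸ k4.symm)
    · exact (k2.tail (k1.adj k3 e) k4.right_mem).trans k4.symm
  · intro v hv
    simp only [SimpleGraph.Walk.support_mapLe_eq_support]
    obtain ⟨j, -, -, k3⟩ := (hY v).1 hv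
    exact ⟨k3.right_mem, fun hh => Yn v hv (cl v (s1 v hh)), fun hh => Yn v hv (cl v (s2 v hh)),
      fun hh => Yn v hv (sβ v hh).2⟩
  · intro y y' hyy hyU hyU' ha ha' hy hy' hγ
    rw [SimpleGraph.Walk.support_mapLe_eq_support] at hγ
    have b1 : y ∈ ann g (2 * s) (8 * s - 1) := by rw [mem_ann] at ha ⊢; omega
    have b2 : y' ∈ ann g (2 * s) (8 * s - 1) := by rw [mem_ann] at ha' ⊢; omega
    by_contra hn
    rw [not_or, Set.mem_compl_iff, Set.mem_compl_iff, not_not, not_not] at hn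
    obtain ⟨n1, n2⟩ := hn
    have un : ∀ x ∈ lev ω (M - H) ∪ S1, x ∉ lev (mv false H S ω) (M - H) → x ∈ S1 ∧ x ∉ S := by
      intro x hx hx'
      rw [lev1] at hx'
      exact ⟨hx.resolve_left fun hh => hx' (Or.inl hh), fun hh => hx' (Or.inr hh)⟩
    have lw : ∀ w ∈ S1, ∀ x ∈ lev ω (M - H) ∪ S1, Adj w x → (ω x : ℕ) < M - 5 * H := by
      intro w hw x hx hwx
      have f1 := h.low_or_high (h1.sub hw) hwx.ne.symm (by rw [hwx.dst_eq]; omega)
      rcases hx with hx | hx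
      · have f2 : (ω x : ℕ) < M - H := hx
        omega
      · have f2 := (h1.sub hx).2.1.2
        omega
    by_cases hl : y ∈ lev (mv false H S ω) (M - H)
    · obtain ⟨m1, m2⟩ := un y' n2 fun hh => hyU' (U3 y hyU b1 hl y' hh (Or.inr hyy))
      obtain ⟨t, q1, q2, q3, q4⟩ := ex y' m1 m2
      have m3 : y' ∈ γ2.support := by
        by_contra hh
        exact hγ hh t q1 q3
      obtain ⟨p, hp, q, hq, a1, a2, a3, a4, a5, a6⟩ :=
        h.path_nbrs hSX p2 (gy y2 (by omega)) (gz z2 d4) m3 (h1.sub m1) m2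
      exact l3_hex a1 a2 q1 hyy.symm (fun hh => hh.elim a5 a6)
        (fun hh => q4 (l3_same h ht (nb _ m1 _ a1) a3 q2 (s2 p hp) hh))
        (fun hh => q4 (l3_same h ht (nb _ m1 _ a2) a4 q2 (s2 q hq) hh))
        (fun hh => q4 (l3_same h ht b1 (lw _ m1 y n1 hyy.symm) q2 (col y b1 hy) hh))
        (fun hh => U2 p hp (U3 y hyU b1 hl p (lo p a3) (hh.imp Eq.symm Adj.symm)))
        (fun hh => U2 q hq (U3 y hyU b1 hl q (lo q a4) (hh.imp Eq.symm Adj.symm)))
    · obtain ⟨m1, m2⟩ := un y n1 hl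
      obtain ⟨t, q1, q2, q3, q4⟩ := ex y m1 m2
      have m3 : y ∈ γ1.support := ((hU y).1 hyU).resolve_right fun ⟨_, _, _, hc⟩ => hl hc.right_mem
      obtain ⟨p, hp, q, hq, a1, a2, a3, a4, a5, a6⟩ :=
        h.path_nbrs hSX p1 (gy y1 (by omega)) (gz z1 d3) m3 (h1.sub m1) m2
      have m4 := lw _ m1 y' n2 hyy
      exact l3_hex a1 a2 q1 hyy (fun hh => hh.elim a5 a6)
        (fun hh => q4 (l3_same h ht (nb _ m1 _ a1) a3 q2 (s1 p hp) hh))
        (fun hh => q4 (l3_same h ht (nb _ m1 _ a2) a4 q2 (s1 q hq) hh))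
        (fun hh => q4 (l3_same h ht b2 m4 q2 (col y' b2 hy') hh))
        (fun hh => hyU' (U3 p ((hU p).2 (Or.inl hp)) (nb _ m1 _ a1) (lo p a3) y' (lo y' m4) hh))
        (fun hh => hyU' (U3 q ((hU q).2 (Or.inl hq)) (nb _ m1 _ a2) (lo q a4) y' (lo y' m4) hh))

/-- Surgery at a three-coloured face. -/
theorem surgery_D (h : Zone ω N H k0 g s) (ht : Triple (tr N ω) N c r3 r2 r1 r0 a b g s)
    (hd : 4 ≤ d) {F : Face} (hc : F.1 = c) (hρ : r0 ≤ ρ) (hF : Face3 (tr N ω) F ρ) {j0 : Fin d}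
    (hj : ∀ i j, i ≠ j → i ≠ j0 → j ≠ j0 → ¬ HC (tr N ω) (ball c r0) (a i) (a j)) :
    ∃ (up : Bool) (S : Finset Site), (S : Set Site) ⊆ XS ω M H 1 g s ∧
      Face3 (tr N (mv up H S ω)) F ρ ∧ ¬ DComp d (tr N (mv up H S ω)) c r3 r0 := by
  classical
  rcases Triple.cases hd hρ hF hc hj with ⟨k, k1, k2⟩ | ⟨i1, i2, hne, h12, hj'⟩
  · obtain ⟨S0, h0⟩ := h.exists_S0
    have hS : ∀ v, v ∈ S0.filter (fun v => HC (tr N ω) (ann c r3 r0) (a k) v) ↔
        v ∈ S0 ∧ HC (tr N ω) (ann c r3 r0) (a k) v := fun v => Finset.mem_filter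
    have hX : ((S0.filter fun v => HC (tr N ω) (ann c r3 r0) (a k) v : Finset Site) : Set Site) ⊆
        XS ω M H 1 g s := fun v hv => h0.sub ((hS v).1 hv).1
    exact ⟨true, _, hX, raise_face h ht hX (fun v hv => ((hS v).1 hv).2) hc hF k1 k2,
      raise_break h ht (by omega) h0 hS⟩
  · obtain ⟨S1, h1⟩ := h.exists_S1
    have hS : IsLow ω N H c r3 r0 (a i1) (a i2) S1 (S1.filter fun v => ∀ u, Adj v u →
        (ω u : ℕ) < M - 5 * H →
        HC (tr N ω) (ann c r3 r0) (a i1) u ∨ HC (tr N ω) (ann c r3 r0) (a i2) u) :=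
      fun v => Finset.mem_filter
    exact ⟨false, _, IsLow.sub h1 hS, lower_face h ht h1 hS h12 hc hρ hF,
      lower_break h ht h1 hS hne h12 hj'⟩

end Pool.Agent.Work.MP_ccd212_pr
end

-- merged part: Pool.Agent.Work.MP_ccd212_pr.Trans
section
/-! Mass transport along label moves. -/

namespace Pool.Agent.Work.MP_ccd212_pr

theorem trans_sand {L U L' U' : Set Site} {c : Site} {r R : ℕ} (hLU : L' ⊆ U')
    (hL : ∀ v ∈ ann c r R, v ∈ L' → v ∈ L) (hU : ∀ v ∈ ann c r R, v ∈ U → v ∈ U')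
    (h : SandTwo L U c r R) : SandTwo L' U' c r R := by
  obtain ⟨X, h1, h2, hT⟩ := h
  refine ⟨{v | (v ∈ ann c r R ∧ v ∈ X) ∨ (v ∉ ann c r R ∧ v ∈ L')}, fun v hv => ?_,
    fun v hv => ?_, sup_Two c r R X _ (fun v hv => ?_) hT⟩
  · by_cases ha : v ∈ ann c r R
    · exact Or.inl ⟨ha, h1 (hL v ha hv)⟩
    · exact Or.inr ⟨ha, hv⟩
  · rcases hv with ⟨ha, hx⟩ | ⟨_, hx⟩
    · exact hU v ha (h2 hx)
    · exact hLU hx
  · constructor
    · exact fun hx => Or.inl ⟨hv, hx⟩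
    · rintro (⟨_, hx⟩ | ⟨ha, _⟩)
      · exact hx
      · exact absurd hv ha

theorem trans_XS_sub {m M H j s : ℕ} {g : Site} {ω ω' : Site → Fin m}
    (h : ∀ v ∈ ball g (7 * s), ω v = ω' v) : XS ω M H j g s ⊆ XS ω' M H j g s := by
  rintro v ⟨h1, h2, h3⟩
  have h1' : 5 * s ≤ dst g v ∧ dst g v ≤ 6 * s := h1
  have hv : ω v = ω' v := h v (show dst g v ≤ 7 * s by omega)
  have hs : ∀ u ∈ ann v 1 s, ω u = ω' u := fun u hu => h u (by
    have a := dst_triangle g v u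
    have hu' : 1 ≤ dst v u ∧ dst v u ≤ s := hu
    show dst g u ≤ 7 * s
    omega)
  have hl : ∀ k, ∀ u ∈ ann v 1 s, u ∈ lev ω k ↔ u ∈ lev ω' k := fun k u hu => by
    simp only [lev, Set.mem_ofPred_eq, hs u hu]
  have hlh : lev ω' (M - j * H) ⊆ lev ω' (M + j * H) :=
    fun x (hx : (ω' x : ℕ) < M - j * H) => show (ω' x : ℕ) < M + j * H by omega
  refine ⟨h1, ?_, h3.imp (fun h => ?_) fun h => ?_⟩
  · unfold win at h2 ⊢
    rw [Set.mem_ofPred_eq, ← hv]
    exact h2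
  · exact trans_sand hlh (fun u hu hx => (hl _ u hu).2 hx) (fun u hu hx => (hl _ u hu).1 hx) h
  · refine trans_sand (Set.compl_subset_compl.2 hlh) ?_ ?_ h
    · exact fun u hu hx hy => hx ((hl _ u hu).1 hy)
    · exact fun u hu hx hy => hx ((hl _ u hu).2 hy)

theorem trans_XS_eq {m M H j s : ℕ} {g : Site} {ω ω' : Site → Fin m}
    (h : ∀ v ∈ ball g (7 * s), ω v = ω' v) : XS ω M H j g s = XS ω' M H j g s :=
  Set.Subset.antisymm (trans_XS_sub h) (trans_XS_sub fun v hv => (h v hv).symm)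

theorem dep_XS {m M H j s : ℕ} {g : Site} (hs : 1 ≤ s) {ω ω' : Site → Fin m}
    (h : ∀ v ∈ ball g (7 * s), ω v = ω' v) : XS ω M H j g s = XS ω' M H j g s := by
  have _ := hs
  exact trans_XS_eq h

theorem loc_mv {m H : ℕ} (up : Bool) (S : Finset Site) {A : Set (Site → Fin m)} (hA : Loc A) :
    Loc {ω | mv up H S ω ∈ A} := by
  obtain ⟨Z, hZ, hd⟩ := hA
  refine ⟨Z, hZ, fun ω ω' h hω => hd _ _ (fun v hv => ?_) hω⟩
  simp only [mv, h v hv]

theorem trans_loc_XS {m M H j s : ℕ} (g : Site) (Φ : Set Site → Prop) :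
    Loc {ω : Site → Fin m | Φ (XS ω M H j g s)} :=
  ⟨ball g (7 * s), ball_finite _ _, fun ω ω' h hω => by
    rw [Set.mem_ofPred_eq, ← trans_XS_eq h]; exact hω⟩

theorem trans_loc_lab {α : Type} (S : Finset Site) (D : Set α) :
    Loc {ω : Site → α | ∀ v ∈ S, ω v ∈ D} :=
  ⟨S, S.finite_toSet, fun ω ω' h hω v hv => by rw [← h v hv]; exact hω v hv⟩

theorem trans_shf_inj {m : ℕ} (up : Bool) (H : ℕ) :
    Set.InjOn (shf up H) {x : Fin m | 2 * H ≤ (x : ℕ) ∧ (x : ℕ) + 2 * H < m} := by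
  rintro x ⟨hx1, hx2⟩ y ⟨hy1, hy2⟩ h
  apply Fin.ext
  cases up
  · simp only [shf, Bool.false_eq_true, if_false, Fin.mk.injEq] at h
    omega
  · simp only [shf, if_true, dif_pos hx2, dif_pos hy2, Fin.mk.injEq] at h
    omega

/-- The index set of the double counting. -/
def transIdx {ι κ γ σ : Type} (I : Finset ι) (J : ι → ℕ) (C : Finset κ)
    (Gs : ι → ℕ → κ → Finset γ) (P : ι → ℕ → γ → Finset σ) :
    Finset ((_ : ι) × (_ : ℕ) × (_ : κ) × (_ : γ) × σ) :=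
  I.sigma fun i => (Finset.range (J i)).sigma fun j => C.sigma fun F => (Gs i j F).sigma fun g =>
    P i j g

theorem trans_ge {ι κ γ σ : Type} (I : Finset ι) (J : ι → ℕ) (C : Finset κ)
    (Gs : ι → ℕ → κ → Finset γ) (P : ι → ℕ → γ → Finset σ)
    (p : ((_ : ι) × (_ : ℕ) × (_ : κ) × (_ : γ) × σ) → Prop) [DecidablePred p]
    (hJ : ∀ i ∈ I, 1 ≤ J i)
    (h : ∀ i ∈ I, ∃ T ⊆ Finset.range (J i), J i ≤ 2 * T.card ∧ ∀ j ∈ T, ∃ F ∈ C, ∃ g ∈ Gs i j F,
      ∃ y ∈ P i j g, p ⟨i, j, F, g, y⟩) :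
    (I.card : ℝ) / 2 ≤ ∑ x ∈ transIdx I J C Gs P, if p x then 1 / (J x.1 : ℝ) else 0 := by
  unfold transIdx
  rw [Finset.sum_sigma]
  have e : (I.card : ℝ) / 2 = ∑ _i ∈ I, (1 / 2 : ℝ) := by
    rw [Finset.sum_const, nsmul_eq_mul]; ring
  rw [e]
  refine Finset.sum_le_sum fun i hi => ?_
  obtain ⟨T, hT, hc, hp⟩ := h i hi
  have hJ0 : (0 : ℝ) < J i := by exact_mod_cast hJ i hi
  have nn : ∀ x : (_ : ℕ) × (_ : κ) × (_ : γ) × σ,
      (0 : ℝ) ≤ if p ⟨i, x⟩ then 1 / (J i : ℝ) else 0 := fun x => by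
    split_ifs
    · positivity
    · exact le_rfl
  rw [Finset.sum_sigma]
  refine le_trans ?_ (Finset.sum_le_sum_of_subset_of_nonneg hT fun j _ _ =>
    Finset.sum_nonneg fun y _ => nn ⟨j, y⟩)
  have e2 : (1 / 2 : ℝ) ≤ ∑ _j ∈ T, 1 / (J i : ℝ) := by
    rw [Finset.sum_const, nsmul_eq_mul, mul_one_div, div_le_div_iff₀ (by norm_num) hJ0]
    have : (J i : ℝ) ≤ 2 * T.card := by exact_mod_cast hc
    linarith only [this]
  refine e2.trans (Finset.sum_le_sum fun j hj => ?_)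
  obtain ⟨F, hF, g, hg, y, hy, hpp⟩ := hp j hj
  have hm : (⟨F, g, y⟩ : (_ : κ) × (_ : γ) × σ) ∈
      C.sigma fun F => (Gs i j F).sigma fun g => P i j g := by
    simp only [Finset.mem_sigma]
    exact ⟨hF, hg, hy⟩
  refine le_trans ?_ (Finset.single_le_sum (fun z _ => nn ⟨j, z⟩) hm)
  rw [if_pos hpp]

theorem trans_le {ι κ γ σ : Type} (I : Finset ι) (J : ι → ℕ) (C : Finset κ)
    (Gs : ι → ℕ → κ → Finset γ) (P : ι → ℕ → γ → Finset σ)
    (p : ((_ : ι) × (_ : ℕ) × (_ : κ) × (_ : γ) × σ) → Prop) [DecidablePred p]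
    (q : ι → κ → Prop) [∀ i F, Decidable (q i F)] {Gm K T : ℕ}
    (hJ : ∀ i ∈ I, 1 ≤ J i) (hG : ∀ i j F, (Gs i j F).card ≤ Gm)
    (hp : ∀ i j F g, ((P i j g).filter fun y => p ⟨i, j, F, g, y⟩).card ≤ if q i F then K else 0)
    (hq : ∑ F ∈ C, (I.filter fun i => q i F).card ≤ T) :
    (∑ x ∈ transIdx I J C Gs P, if p x then 1 / (J x.1 : ℝ) else 0) ≤ T * Gm * K := by
  unfold transIdx
  rw [Finset.sum_sigma]
  have key : ∀ i ∈ I, (∑ x ∈ (Finset.range (J i)).sigma fun j => C.sigma fun F =>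
      (Gs i j F).sigma fun g => P i j g, if p ⟨i, x⟩ then 1 / (J i : ℝ) else 0) ≤
      ∑ F ∈ C, (if q i F then (Gm * K : ℝ) else 0) := by
    intro i hi
    have hJ0 : (0 : ℝ) < J i := by exact_mod_cast hJ i hi
    rw [Finset.sum_sigma]
    have e : ∑ F ∈ C, (if q i F then (Gm * K : ℝ) else 0) =
        ∑ _j ∈ Finset.range (J i), ∑ F ∈ C, (if q i F then (Gm * K : ℝ) else 0) / J i := by
      rw [Finset.sum_const, Finset.card_range, nsmul_eq_mul, ← Finset.sum_div]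
      field_simp
    rw [e]
    refine Finset.sum_le_sum fun j _ => ?_
    rw [Finset.sum_sigma]
    refine Finset.sum_le_sum fun F _ => ?_
    rw [Finset.sum_sigma]
    have k2 : ∀ g ∈ Gs i j F, (∑ y ∈ P i j g, if p ⟨i, j, F, g, y⟩ then 1 / (J i : ℝ) else 0) ≤
        (if q i F then (K : ℝ) else 0) / J i := by
      intro g _
      rw [← Finset.sum_filter, Finset.sum_const, nsmul_eq_mul, mul_one_div]
      refine div_le_div_of_nonneg_right ?_ hJ0.le
      have := hp i j F g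
      split_ifs at this ⊢
      · exact_mod_cast this
      · exact_mod_cast this
    refine (Finset.sum_le_card_nsmul _ _ _ k2).trans ?_
    rw [nsmul_eq_mul]
    have hG' : ((Gs i j F).card : ℝ) ≤ Gm := by exact_mod_cast hG i j F
    split_ifs
    · rw [mul_div_assoc]
      exact mul_le_mul_of_nonneg_right hG' (by positivity)
    · simp
  refine (Finset.sum_le_sum key).trans ?_
  rw [Finset.sum_comm]
  have e3 : ∀ F ∈ C, ∑ i ∈ I, (if q i F then (Gm * K : ℝ) else 0) =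
      ((I.filter fun i => q i F).card : ℝ) * (Gm * K) := fun F _ => by
    rw [← Finset.sum_filter, Finset.sum_const, nsmul_eq_mul]
  rw [Finset.sum_congr rfl e3, ← Finset.sum_mul, mul_assoc]
  refine mul_le_mul_of_nonneg_right ?_ (by positivity)
  exact_mod_cast hq

theorem trans_pow {σ : Type} (P : Finset (Bool × Finset σ)) (p : Bool × Finset σ → Prop)
    [DecidablePred p] {X : Set σ} (hX : X.Finite) {k : ℕ}
    (h : ∀ y, p y → (y.2 : Set σ) ⊆ X ∧ X.ncard ≤ k) : (P.filter p).card ≤ 2 * 2 ^ k := by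
  classical
  rcases (P.filter p).eq_empty_or_nonempty with he | ⟨y, hy⟩
  · rw [he]; simp
  · have hk : hX.toFinset.card ≤ k := by
      rw [← Set.ncard_eq_toFinset_card X hX]
      exact (h y (Finset.mem_filter.1 hy).2).2
    have hs : P.filter p ⊆ (Finset.univ : Finset Bool) ×ˢ hX.toFinset.powerset := by
      intro z hz
      rw [Finset.mem_product, Finset.mem_powerset]
      refine ⟨Finset.mem_univ _, fun v hv => ?_⟩
      rw [Set.Finite.mem_toFinset]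
      exact (h z (Finset.mem_filter.1 hz).2).1 hv
    refine (Finset.card_le_card hs).trans ?_
    rw [Finset.card_product, Finset.card_powerset, Finset.card_univ, Fintype.card_bool]
    exact Nat.mul_le_mul_left _ (Nat.pow_le_pow_right (by norm_num) hk)

open Classical in
theorem transport {M N k0 Q B Gm : ℕ} {ι κ : Type} (I : Finset ι) (J : ι → ℕ) (Hs sc : ι → ℕ → ℕ)
    (C : Finset κ) (Gs : ι → ℕ → κ → Finset Site) (hG : ∀ i j F, (Gs i j F).card ≤ Gm)
    (hJ : ∀ i ∈ I, 1 ≤ J i) (mac : SimpleGraph Site → κ → Prop)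
    (brk : SimpleGraph Site → κ → ι → Prop) {E A : Set (Site → Fin (2 * M - 1 + 1))} (hE : Loc E)
    (hA : Loc A)
    (h : ∀ ω ∈ E, ∀ i ∈ I, J i ≤ 2 * ((Finset.range (J i)).filter fun j =>
      ∃ F ∈ C, ∃ g ∈ Gs i j F, Zone ω N (Hs i j) k0 g (sc i j) ∧ ∃ (up : Bool) (S : Finset Site),
        (S : Set Site) ⊆ XS ω M (Hs i j) 1 g (sc i j) ∧ mv up (Hs i j) S ω ∈ A ∧
        mac (tr N (mv up (Hs i j) S ω)) F ∧ brk (tr N (mv up (Hs i j) S ω)) F i ∧
        (C.filter fun F' => mac (tr N (mv up (Hs i j) S ω)) F').card ≤ Q ∧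
        (I.filter fun i' => brk (tr N (mv up (Hs i j) S ω)) F i').card ≤ B).card) :
    I.card * pr (unif (2 * M - 1)) E ≤ 4 * Q * B * Gm * 2 ^ k0 * pr (unif (2 * M - 1)) A := by
  have _ := hE
  obtain ⟨P, hP⟩ : ∃ P : ι → ℕ → Site → Finset (Bool × Finset Site), P = fun i j g =>
    (Finset.univ : Finset Bool) ×ˢ (ballF g (6 * sc i j)).powerset := ⟨_, rfl⟩
  obtain ⟨q, hq⟩ : ∃ q : SimpleGraph Site → ι → κ → Prop, q = fun T i F => mac T F ∧ brk T F i ∧
    (C.filter fun F' => mac T F').card ≤ Q ∧ (I.filter fun i' => brk T F i').card ≤ B := ⟨_, rfl⟩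
  obtain ⟨A', hA'⟩ : ∃ A' : ((_ : ι) × (_ : ℕ) × (_ : κ) × (_ : Site) × (Bool × Finset Site)) →
      Set (Site → Fin (2 * M - 1 + 1)), A' = fun x => (A ∩ {ω | q (tr N ω) x.1 x.2.2.1}) ∩
      {ω | (x.2.2.2.2.2 : Set Site) ⊆ XS ω M (Hs x.1 x.2.1) 3 x.2.2.2.1 (sc x.1 x.2.1) ∧
        (XS ω M (Hs x.1 x.2.1) 3 x.2.2.2.1 (sc x.1 x.2.1)).ncard ≤ k0} := ⟨_, rfl⟩
  obtain ⟨E', hE'⟩ : ∃ E' : ((_ : ι) × (_ : ℕ) × (_ : κ) × (_ : Site) × (Bool × Finset Site)) →
      Set (Site → Fin (2 * M - 1 + 1)), E' = fun x => {ω | ∀ v ∈ x.2.2.2.2.2, ω v ∈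
        {y : Fin (2 * M - 1 + 1) | 2 * Hs x.1 x.2.1 ≤ (y : ℕ) ∧
          (y : ℕ) + 2 * Hs x.1 x.2.1 < 2 * M - 1 + 1}} ∩
      {ω | mv x.2.2.2.2.1 (Hs x.1 x.2.1) x.2.2.2.2.2 ω ∈ A' x} := ⟨_, rfl⟩
  have lA : ∀ x, Loc (A' x) := fun x => by
    rw [hA']
    exact (hA.inter (loc_tr N fun T => q T x.1 x.2.2.1)).inter
      (trans_loc_XS _ fun X => (x.2.2.2.2.2 : Set Site) ⊆ X ∧ X.ncard ≤ k0)
  have lE : ∀ x, Loc (E' x) := fun x => by
    rw [hE']
    exact (trans_loc_lab _ _).inter (loc_mv _ _ (lA x))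
  have w0 : ∀ x ∈ transIdx I J C Gs P, (0 : ℝ) ≤ 1 / (J x.1 : ℝ) := fun x _ => by positivity
  have s1 := pr_count_ge (unif (2 * M - 1)) (transIdx I J C Gs P) (fun x => 1 / (J x.1 : ℝ)) E'
    (fun x _ => lE x) w0 (A := E) (a := (I.card : ℝ) / 2) (fun ω hω => by
      refine trans_ge I J C Gs P (fun x => ω ∈ E' x) hJ fun i hi =>
        ⟨_, Finset.filter_subset _ _, h ω hω i hi, fun j hj => ?_⟩
      obtain ⟨F, hF, g, hg, hz, up, S, hS, h1, h2⟩ := (Finset.mem_filter.1 hj).2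
      obtain ⟨_, _, m3, m4⟩ := hz.mv_props up hS
      refine ⟨F, hF, g, hg, (up, S), ?_, ?_⟩
      · rw [hP, Finset.mem_product, Finset.mem_powerset]
        exact ⟨Finset.mem_univ _, fun v hv => mem_ballF.2 (hS hv).1.2⟩
      · rw [hE', hA', hq]
        refine ⟨fun v hv => ?_, ⟨h1, h2⟩, m3, m4⟩
        have hw : M - 1 * Hs i j ≤ (ω v : ℕ) ∧ (ω v : ℕ) < M + 1 * Hs i j := (hS hv).2.1
        have a1 := hz.hH
        have a2 := hz.hM
        show 2 * Hs i j ≤ (ω v : ℕ) ∧ (ω v : ℕ) + 2 * Hs i j < 2 * M - 1 + 1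
        omega)
  have s2 : ∀ x, pr (unif (2 * M - 1)) (E' x) ≤ pr (unif (2 * M - 1)) (A' x) := fun x =>
    pr_unif_inj (2 * M - 1) x.2.2.2.2.2 (shf x.2.2.2.2.1 (Hs x.1 x.2.1)) (lE x) (lA x) _
      (fun ω hω => by rw [hE'] at hω; exact hω.1) (trans_shf_inj _ _)
      (fun ω hω => by rw [hE'] at hω; exact hω.2)
  have s3 := pr_count_le (unif (2 * M - 1)) (transIdx I J C Gs P) (fun x => 1 / (J x.1 : ℝ)) A'
    (fun x _ => lA x) w0 (A := A) (a := ((Q * B : ℕ) : ℝ) * Gm * ((2 * 2 ^ k0 : ℕ) : ℝ))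
    (by positivity) (fun x _ => by rw [hA']; exact fun ω hω => hω.1.1) (fun ω => by
      refine trans_le I J C Gs P (fun x => ω ∈ A' x) (q (tr N ω)) hJ hG (fun i j F g => ?_) ?_
      · split_ifs with hqq
        · refine trans_pow _ _ (XS_finite (ω := ω) (H := Hs i j) (g := g) (s := sc i j) 3)
            fun y hy => ?_
          rw [hA'] at hy
          exact hy.2
        · rw [Nat.le_zero, Finset.card_eq_zero, Finset.filter_eq_empty_iff]
          intro y _ hy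
          rw [hA'] at hy
          exact hqq hy.1.2
      · by_cases hQ : (C.filter fun F' => mac (tr N ω) F').card ≤ Q
        · have t1 : ∀ F ∈ C, (I.filter fun i => q (tr N ω) i F).card ≤
              if mac (tr N ω) F then B else 0 := by
            intro F _
            rcases (I.filter fun i => q (tr N ω) i F).eq_empty_or_nonempty with he | ⟨i, hi⟩
            · rw [he]; simp
            · have hi2 := (Finset.mem_filter.1 hi).2
              rw [hq] at hi2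
              rw [if_pos hi2.1]
              refine le_trans (Finset.card_le_card fun i' hi' => ?_) hi2.2.2.2
              have hi3 := Finset.mem_filter.1 hi'
              rw [hq] at hi3
              exact Finset.mem_filter.2 ⟨hi3.1, hi3.2.2.1⟩
          refine (Finset.sum_le_sum t1).trans ?_
          rw [← Finset.sum_filter, Finset.sum_const, smul_eq_mul]
          exact Nat.mul_le_mul_right _ hQ
        · refine le_trans (le_of_eq (Finset.sum_eq_zero fun F _ => ?_)) (Nat.zero_le _)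
          rw [Finset.card_eq_zero, Finset.filter_eq_empty_iff]
          intro i _ hi
          rw [hq] at hi
          exact hQ hi.2.2.1)
  have s4 := Finset.sum_le_sum fun x (hx : x ∈ transIdx I J C Gs P) =>
    mul_le_mul_of_nonneg_left (s2 x) (w0 x hx)
  have s5 := (s1.trans s4).trans s3
  push_cast at s5
  linarith only [s5]

end Pool.Agent.Work.MP_ccd212_pr
end

-- merged part: Pool.Agent.Work.MP_ccd212_pr.PropI
section
/-! A macroscopic centre with a long run of full triples is unlikely. -/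

namespace Pool.Agent.Work.MP_ccd212_pr

theorem propI_dcomp_congr {T T' : SimpleGraph Site} {d r R : ℕ} {c : Site}
    (h : ∀ a ∈ ann c r R, ∀ b ∈ ann c r R, T.Adj a b ↔ T'.Adj a b) (hD : DComp d T c r R) :
    DComp d T' c r R := by
  obtain ⟨a, b, h1, h2⟩ := hD
  exact ⟨a, b, fun i => ⟨(h1 i).1, (h1 i).2.1, (hc_congr h).1 (h1 i).2.2⟩,
    fun i j hij hc => h2 i j hij ((hc_congr h).2 hc)⟩

theorem propI_rad_pos {a K i : ℕ} {Js : ℕ → ℕ} (ha : 1 ≤ rad a Js (4 * K)) (hi : i ≤ 4 * K) :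
    1 ≤ rad a Js i := ha.trans (rad_anti a Js hi)

open Classical in
/-- A move breaks few of the triples of a full run. -/
theorem few_broken {M N H k0 s d a K : ℕ} {ω : Site → Fin (2 * M - 1 + 1)} {g c : Site}
    (h : Zone ω N H k0 g s) (up : Bool) {S : Finset Site} (hS : (S : Set Site) ⊆ XS ω M H 1 g s)
    {Js : ℕ → ℕ} (hJ : ∀ i, 1 ≤ Js i) (ha : 1 ≤ rad a Js (4 * K))
    (hD : ∀ i < K, DComp d (tr N ω) c (rad a Js (4 * i + 3)) (rad a Js (4 * i))) :
    ((Finset.range K).filter fun i => ¬ DComp d (tr N (mv up H S ω)) c (rad a Js (4 * i + 3))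
      (rad a Js (4 * i))).card ≤ 12 * k0 := by
  obtain ⟨E, -, hE, -, hE1, -⟩ := h.diff up hS
  have key : ∀ i j, i < j → j < K → rad a Js (4 * j) < rad a Js (4 * i + 3) := by
    intro i j hij hj
    have h1 := rad_gap a (hJ (4 * i + 3))
    have h2 : rad a Js (4 * j) ≤ rad a Js (4 * i + 3 + 1) := rad_anti a Js (by omega)
    have h3 : 1 ≤ rad a Js (4 * j) := propI_rad_pos ha (by omega)
    omega
  have := few_touched (T := tr N ω) (T' := tr N (mv up H S ω)) (Finset.range K) c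
    (fun i => rad a Js (4 * i + 3)) (fun i => rad a Js (4 * i)) (fun i hi j hj hij => by
      rw [Finset.mem_range] at hi hj
      rcases lt_or_gt_of_ne hij with h' | h'
      · exact Or.inr (key i j h' hj)
      · exact Or.inl (key j i h' hi)) E hE1
  refine le_trans (Finset.card_le_card fun i hi => ?_) (this.trans hE)
  rw [Finset.mem_filter] at hi ⊢
  exact ⟨hi.1, fun hc => hi.2 (propI_dcomp_congr hc (hD i (Finset.mem_range.1 hi.1)))⟩

theorem propI_triple {m N d a K ρ i j : ℕ} {ω : Site → Fin m} {Js : ℕ → ℕ}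
    (hJ : ∀ i, 1 ≤ Js i) (ha : 1 ≤ rad a Js (4 * K)) (hN : ρ + a + 2 ≤ N)
    (hA : ω ∉ RunA d N ρ a Js (4 * K)) {c : Site} (hc : c ∈ ball 0 ρ) (hi : i < K)
    (hj : j < Js (4 * i + 1)) {A B : Fin d → Site}
    (hC : Comps (tr N ω) c (rad a Js (4 * i + 3)) (rad a Js (4 * i)) A B) :
    Triple (tr N ω) N c (rad a Js (4 * i + 3)) (rad a Js (4 * i + 2)) (rad a Js (4 * i + 1))
      (rad a Js (4 * i)) A B (ctr (rad a Js (4 * i + 2)) j c) (scl (rad a Js (4 * i + 2)) j) := by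
  have g0 := rad_gap a (hJ (4 * i))
  have g1 := rad_gap a (hJ (4 * i + 1))
  have g2 := rad_gap a (hJ (4 * i + 2))
  have g3 := rad_gap a (hJ (4 * i + 3))
  have p4 : 1 ≤ rad a Js (4 * i + 3 + 1) := propI_rad_pos ha (by omega)
  have hle : rad a Js (4 * i) ≤ a := rad_anti a Js (Nat.zero_le (4 * i))
  have e2 : 4 * i + 1 + 1 = 4 * i + 2 := rfl
  have e3 : 4 * i + 2 + 1 = 4 * i + 3 := rfl
  rw [e2] at g1
  rw [e3] at g2
  have hR : 2 * 32 ^ Js (4 * i + 1) * rad a Js (4 * i + 2) ≤ rad a Js (4 * i + 1) :=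
    Nat.mul_div_le _ _
  obtain ⟨s1, s2⟩ := scale_geo (r := rad a Js (4 * i + 2)) (by omega) hR hj c
  refine ⟨by omega, by omega, by omega, s1, s2, fun v hv => ?_, hC, fun h => hA ?_, fun h => hA ?_⟩
  · have := dst_triangle 0 c v
    simp only [ball, Set.mem_ofPred_eq] at hv hc ⊢
    omega
  · exact ⟨c, hc, 4 * i + 2, by omega, h⟩
  · exact ⟨c, hc, 4 * i, by omega, h⟩

/-- The deterministic step: at every zone of the middle block of triple `i` a move keeps the centre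
and breaks the triple. -/
theorem run_surgery {M N k0 d a K ρ ρm : ℕ} {ω : Site → Fin (2 * M - 1 + 1)} {Js : ℕ → ℕ}
    (hd : 4 ≤ d) (hJ : ∀ i, 1 ≤ Js i) (ha : 1 ≤ rad a Js (4 * K)) (hρ : a ≤ ρm)
    (hN : ρ + a + 2 ≤ N) (hA : ω ∉ RunA d N ρ a Js (4 * K))
    (hR : ω ∈ RunT d N ρ ρm a Js K ∪ RunD d N ρ ρm a Js K) :
    ∃ F ∈ faceF ρ, (∀ i < K, DComp d (tr N ω) F.1 (rad a Js (4 * i + 3)) (rad a Js (4 * i))) ∧
      ∀ i < K, ∀ j < Js (4 * i + 1), ∀ H,
      Zone ω N H k0 (ctr (rad a Js (4 * i + 2)) j F.1) (scl (rad a Js (4 * i + 2)) j) →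
      ∃ (up : Bool) (S : Finset Site), (S : Set Site) ⊆
        XS ω M H 1 (ctr (rad a Js (4 * i + 2)) j F.1) (scl (rad a Js (4 * i + 2)) j) ∧
        Mac (tr N (mv up H S ω)) F ρm ∧
        ¬ DComp d (tr N (mv up H S ω)) F.1 (rad a Js (4 * i + 3)) (rad a Js (4 * i)) := by
  rcases hR with ⟨c, hc, P, hP, hr⟩ | ⟨F, hF, h3, hr⟩
  · refine ⟨(c, false), mem_faceF.2 hc, fun i hi => (hr i hi).1, fun i hi j hj H hZ => ?_⟩
    obtain ⟨⟨A, B, hC⟩, hcol⟩ := hr i hi
    obtain ⟨up, S, h1, h2, h3⟩ :=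
      surgery_T hZ (propI_triple hJ ha hN hA hc hi hj hC) hd hP hcol
    exact ⟨up, S, h1, Or.inl h2, h3⟩
  · refine ⟨F, mem_faceF.2 hF, fun i hi => (hr i hi).dcomp, fun i hi j hj H hZ => ?_⟩
    obtain ⟨A, B, hC, j0, hj0⟩ := hr i hi
    have hle : rad a Js (4 * i) ≤ a := rad_anti a Js (Nat.zero_le (4 * i))
    obtain ⟨up, S, h1, h2, h4⟩ :=
      surgery_D hZ (propI_triple hJ ha hN hA hF hi hj hC) hd rfl (hle.trans hρ) h3 hj0
    exact ⟨up, S, h1, Or.inr h2, h4⟩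

open Classical in
theorem mac_card_le {M N H k0 s ρ ρm Q : ℕ} {ω : Site → Fin (2 * M - 1 + 1)} {g : Site}
    (h : Zone ω N H k0 g s) (up : Bool) {S : Finset Site} (hS : (S : Set Site) ⊆ XS ω M H 1 g s)
    (hM : ¬ Many N ρ ρm (6 * k0) Q (tr N ω)) :
    ((faceF ρ).filter fun F => Mac (tr N (mv up H S ω)) F ρm).card ≤ Q := by
  by_contra hc
  obtain ⟨-, E', -, hE', -, h2⟩ := h.diff up hS
  exact hM ⟨_, tr_span (h.mv_props up hS).2.1, ⟨E', hE', h2⟩, not_le.1 hc⟩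

theorem loc_exists_lt {α : Type} (B : ℕ) {E : ℕ → Set (Site → α)} (h : ∀ i < B, Loc (E i)) :
    Loc {ω | ∃ i < B, ω ∈ E i} := by
  induction B with
  | zero => exact ⟨∅, Set.finite_empty, fun _ _ _ ⟨_, hi, _⟩ => absurd hi (Nat.not_lt_zero _)⟩
  | succ B ih =>
    have e : {ω | ∃ i < B + 1, ω ∈ E i} = {ω | ∃ i < B, ω ∈ E i} ∪ E B := by
      ext ω
      simp only [Set.mem_ofPred_eq, Set.mem_union]
      constructor
      · rintro ⟨i, hi, hω⟩
        rcases Nat.lt_succ_iff_lt_or_eq.1 hi with h' | rfl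
        · exact Or.inl ⟨i, h', hω⟩
        · exact Or.inr hω
      · rintro (⟨i, hi, hω⟩ | hω)
        · exact ⟨i, by omega, hω⟩
        · exact ⟨B, by omega, hω⟩
    rw [e]
    exact (ih fun i hi => h i (by omega)).union (h B (by omega))

theorem propI_core {M N k0 d a K ρ ρm Q : ℕ} {Js : ℕ → ℕ} {Hs : ℕ → ℕ → ℕ} (hd : 4 ≤ d)
    (hJ : ∀ i, 1 ≤ Js i) (ha : 1 ≤ rad a Js (4 * K)) (hρ : a ≤ ρm) (hN : ρ + a + 2 ≤ N)
    (hH : ∀ i < 4 * K, ∀ j < Js i, 1 ≤ Hs i j ∧ 10 * Hs i j ≤ M) :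
    K * pr (unif (2 * M - 1)) ((RunT d N ρ ρm a Js K ∪ RunD d N ρ ρm a Js K) ∩
      ({ω | Many N ρ ρm (6 * k0) Q (tr N ω)} ∪ {ω | ∃ i < 4 * K,
        ω ∈ BadB d N k0 ρ (rad a Js (i + 1)) (rad a Js i) (Js i) (Hs i)})ᶜ) ≤
      4 * Q * (12 * k0 : ℕ) * 2 ^ k0 := by
  classical
  have hl : Loc ((RunT (m := 2 * M - 1 + 1) d N ρ ρm a Js K ∪ RunD d N ρ ρm a Js K) ∩
      ({ω | Many N ρ ρm (6 * k0) Q (tr N ω)} ∪ {ω | ∃ i < 4 * K,
        ω ∈ BadB d N k0 ρ (rad a Js (i + 1)) (rad a Js i) (Js i) (Hs i)})ᶜ) :=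
    (loc_runs Js).1.inter ((loc_tr N _).union (loc_exists_lt _ fun i hi =>
      loc_badB (propI_rad_pos ha (by omega)) _)).compl
  have := transport (M := M) (N := N) (k0 := k0) (Q := Q) (B := 12 * k0) (Gm := 1) (Finset.range K)
    (fun i => Js (4 * i + 1)) (fun i j => Hs (4 * i + 1) j)
    (fun i j => scl (rad a Js (4 * i + 2)) j) (faceF ρ)
    (fun i j F => {ctr (rad a Js (4 * i + 2)) j F.1}) (fun _ _ _ => by simp) (fun i _ => hJ _)
    (fun T F => Mac T F ρm)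
    (fun T F i => ¬ DComp d T F.1 (rad a Js (4 * i + 3)) (rad a Js (4 * i))) hl
    (A := Set.univ) ⟨∅, Set.finite_empty, fun _ _ _ _ => trivial⟩ ?_
  · rw [pr_univ, Finset.card_range] at this
    simpa using this
  rintro ω ⟨hR, hB⟩ i hi
  rw [Finset.mem_range] at hi
  simp only [Set.mem_compl_iff, Set.mem_union, Set.mem_ofPred_eq, not_or, not_exists,
    not_and] at hB
  obtain ⟨hM, hB⟩ := hB
  have hA : ω ∉ RunA d N ρ a Js (4 * K) := fun ⟨x, hx, j, hj, h⟩ =>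
    hB j hj (mem_badB.2 (Or.inr ⟨x, hx, h⟩))
  obtain ⟨F, hF, hD, hs⟩ := run_surgery (k0 := k0) hd hJ ha hρ hN hA hR
  have hb : ω ∉ BadS N k0 ρ (rad a Js (4 * i + 2)) (Js (4 * i + 1)) (Hs (4 * i + 1)) :=
    fun h => hB (4 * i + 1) (by omega) (mem_badB.2 (Or.inl h))
  have hle : rad a Js (4 * i + 1) ≤ a := rad_anti a Js (Nat.zero_le _)
  have hz := zones_of_not_badS (R := rad a Js (4 * i + 1)) hb (hH _ (by omega))
    (propI_rad_pos ha (by omega)) (Nat.mul_div_le _ _) (by omega) (mem_faceF.1 hF)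
  refine hz.le.trans (Nat.mul_le_mul_left 2 (Finset.card_le_card fun j hj => ?_))
  rw [Finset.mem_filter] at hj ⊢
  obtain ⟨up, S, h1, h2, h3⟩ := hs i hi j (Finset.mem_range.1 hj.1) _ hj.2
  refine ⟨hj.1, F, hF, _, Finset.mem_singleton_self _, hj.2, up, S, h1, trivial, h2, h3, ?_, ?_⟩
  · convert mac_card_le hj.2 up h1 hM
  · convert few_broken hj.2 up h1 hJ ha hD

theorem prop_I {k0 d : ℕ} (hd : 4 ≤ d) (hk : GoodK k0) (hH : Hyp (DArms (d + 1))) (c D : ℕ)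
    (hD : 2 ≤ D) {ε : ℝ} (hε : 0 < ε) : ∃ (K : ℕ) (Js : ℕ → ℕ) (n0 : ℕ), 1 ≤ K ∧ (∀ i, 1 ≤ Js i) ∧
      ∀ n, n0 ≤ n → ∀ ρ, ρ ≤ c * n → ∀ N, ρ + 2 * n ≤ N → ∃ M0, ∀ M, M0 ≤ M →
        pr (unif (2 * M - 1))
          (RunT d N ρ (n / 2) (n / D) Js K ∪ RunD d N ρ (n / 2) (n / D) Js K) ≤ ε ∧
        pr (unif (2 * M - 1)) (RunA d N ρ (n / D) Js (4 * K)) ≤ ε := by
  obtain ⟨Q, n1, hQ⟩ := count_block hH c (6 * k0) (ε := ε / 3) (by positivity)
  obtain ⟨K, hK⟩ := exists_nat_gt (4 * Q * (12 * k0 : ℕ) * 2 ^ k0 / (ε / 3) : ℝ)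
  have hK0 : (0 : ℝ) < K := lt_of_le_of_lt (by positivity) hK
  obtain ⟨Js, n2, hJ, hB⟩ := blocks hk hH (c * (2 * D)) (4 * K) (ε := ε / 3) (by positivity)
  refine ⟨K, Js, n1 + D * (n2 + Dv Js (4 * K) + 2), by exact_mod_cast hK0, hJ,
    fun n hn ρ hρ N hN => ?_⟩
  have ha : n2 + Dv Js (4 * K) + 2 ≤ n / D := by
    rw [Nat.le_div_iff_mul_le (by omega), mul_comm]; omega
  have h2 : n / D ≤ n / 2 := Nat.div_le_div_left hD (by norm_num)
  have h3 : n ≤ 2 * D * (n / D) := by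
    have := Nat.lt_mul_div_succ n (show 0 < D by omega)
    linarith only [hn, this, mul_nonneg_of_nonpos_of_nonpos (Mathlib.Tactic.Linarith.sub_nonpos_of_le (Mathlib.Tactic.Linarith.natCast_nonneg ℤ D)) (Mathlib.Tactic.Linarith.sub_nonpos_of_le (Mathlib.Tactic.Linarith.natCast_nonneg ℤ n2)), mul_nonneg_of_nonpos_of_nonpos (Mathlib.Tactic.Linarith.sub_nonpos_of_le (Mathlib.Tactic.Linarith.natCast_nonneg ℤ D)) (Mathlib.Tactic.Linarith.sub_nonpos_of_le (Mathlib.Tactic.Linarith.natCast_nonneg ℤ (Dv Js ((4 : ℕ) * K))))]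
  obtain ⟨M1, hM1⟩ := hQ n (by omega) ρ hρ N hN
  obtain ⟨M2, hM2⟩ := hB (n / D) (by omega) ρ
    (hρ.trans (by rw [mul_assoc]; exact Nat.mul_le_mul_left c h3)) N (by omega)
  refine ⟨max M1 M2, fun M hM => ?_⟩
  have q1 := hM1 M (le_of_max_le_left hM)
  obtain ⟨Hs, hHs, q2⟩ := hM2 M (le_of_max_le_right hM)
  have hr : 1 ≤ rad (n / D) Js (4 * K) := by
    rw [rad_eq, Nat.le_div_iff_mul_le (Dv_pos _ _)]; omega
  have q3 := propI_core (N := N) (k0 := k0) (ρ := ρ) (Q := Q) hd hJ hr h2 (by omega) hHs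
  refine ⟨?_, le_trans (pr_mono _ ?_) (q2.trans (by linarith only [hε]))⟩
  · set R := RunT (m := 2 * M - 1 + 1) d N ρ (n / 2) (n / D) Js K ∪ RunD d N ρ (n / 2) (n / D) Js K
    set X := {ω : Site → Fin (2 * M - 1 + 1) | Many N ρ (n / 2) (6 * k0) Q (tr N ω)}
    set Y := {ω : Site → Fin (2 * M - 1 + 1) | ∃ i < 4 * K, ω ∈ BadB d N k0 ρ
      (rad (n / D) Js (i + 1)) (rad (n / D) Js i) (Js i) (Hs i)}
    have s1 : R ⊆ (R ∩ (X ∪ Y)ᶜ) ∪ (X ∪ Y) := fun ω hω => by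
      by_cases h : ω ∈ X ∪ Y
      · exact Or.inr h
      · exact Or.inl ⟨hω, h⟩
    have s2 := (pr_mono (unif (2 * M - 1)) s1).trans (pr_union_le _ _ _)
    have s3 := pr_union_le (unif (2 * M - 1)) X Y
    have s4 : pr (unif (2 * M - 1)) (R ∩ (X ∪ Y)ᶜ) ≤ ε / 3 := by
      rw [div_lt_iff₀ (by positivity)] at hK
      exact le_of_mul_le_mul_left (q3.trans hK.le) hK0
    linarith only [q1, q2, s2, s3, s4]
  · rintro ω ⟨x, hx, j, hj, h⟩
    exact ⟨j, hj, mem_badB.2 (Or.inr ⟨x, hx, h⟩)⟩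

/-- `W` successive runs. -/
theorem runs {k0 d : ℕ} (hd : 4 ≤ d) (hk : GoodK k0) (hH : Hyp (DArms (d + 1))) (c W : ℕ)
    {ε : ℝ} (hε : 0 < ε) : ∃ (K D : ℕ → ℕ) (Js : ℕ → ℕ → ℕ) (n0 : ℕ), D 0 = 2 ∧
      (∀ t, 1 ≤ K t ∧ (∀ i, 1 ≤ Js t i) ∧ D (t + 1) = D t * Dv (Js t) (4 * K t)) ∧
      ∀ n, n0 ≤ n → ∀ ρ, ρ ≤ c * n → ∀ N, ρ + 2 * n ≤ N → ∃ M0, ∀ M, M0 ≤ M → ∀ t < W,
        pr (unif (2 * M - 1)) (RunT d N ρ (n / 2) (n / D t) (Js t) (K t) ∪
          RunD d N ρ (n / 2) (n / D t) (Js t) (K t)) ≤ ε ∧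
        pr (unif (2 * M - 1)) (RunA d N ρ (n / D t) (Js t) (4 * K t)) ≤ ε := by
  choose fK fJ fn h1 h2 h3 using fun D : ℕ => prop_I hd hk hH c (max 2 D) (le_max_left _ _) hε
  let D : ℕ → ℕ := fun t => Nat.rec 2 (fun _ x => x * Dv (fJ x) (4 * fK x)) t
  have hD : ∀ t, 2 ≤ D t := by
    intro t
    induction t with
    | zero => exact le_rfl
    | succ t ih => exact ih.trans (Nat.le_mul_of_pos_right _ (Dv_pos _ _))
  refine ⟨fun t => fK (D t), D, fun t => fJ (D t), (Finset.range W).sup fun t => fn (D t), rfl,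
    fun t => ⟨h1 _, h2 _, rfl⟩, fun n hn ρ hρ N hN => ?_⟩
  have : ∀ t, ∃ M0, t < W → ∀ M, M0 ≤ M → pr (unif (2 * M - 1))
      (RunT d N ρ (n / 2) (n / D t) (fJ (D t)) (fK (D t)) ∪
        RunD d N ρ (n / 2) (n / D t) (fJ (D t)) (fK (D t))) ≤ ε ∧
      pr (unif (2 * M - 1)) (RunA d N ρ (n / D t) (fJ (D t)) (4 * fK (D t))) ≤ ε := by
    intro t
    by_cases ht : t < W
    · obtain ⟨M0, hM0⟩ := h3 (D t) n ((Finset.le_sup (f := fun t => fn (D t))
        (Finset.mem_range.2 ht)).trans hn) ρ hρ N hN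
      rw [max_eq_right (hD t)] at hM0
      exact ⟨M0, fun _ => hM0⟩
    · exact ⟨0, fun h => absurd h ht⟩
  choose fM hfM using this
  exact ⟨(Finset.range W).sup fM, fun M hM t ht =>
    hfM t ht M ((Finset.le_sup (Finset.mem_range.2 ht)).trans hM)⟩

end Pool.Agent.Work.MP_ccd212_pr
end
end

-- merged part: Pool.Agent.Work.MP_ccd212_pr.Br4
section
-- merged part: Pool.Agent.Work.MP_ccd212_pr.Br1
section
/-! Four segments of an immersed tree that cross a spherical ring; stability. -/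

namespace Pool.Agent.Work.MP_ccd212_pr

open scoped NNReal ENNReal unitInterval

/-- Four segments of edges, with disjoint interiors, from distance below `r` to distance above
`R` of `y`. -/
def Seg (f : Imm) (y : Sph) (r R : ℝ) : Prop :=
  ∃ (u v : Fin 4 → Fin f.n) (s t : Fin 4 → I),
    (∀ i, f.T.Adj (u i) (v i) ∧ dist (f.arc (u i) (v i) (s i)) y < r ∧
      R < dist (f.arc (u i) (v i) (t i)) y) ∧
    ∀ i j, i ≠ j → s(u i, v i) = s(u j, v j) → u i = u j ∧ v i = v j ∧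
      (max (s i) (t i) ≤ min (s j) (t j) ∨ max (s j) (t j) ≤ min (s i) (t i))

theorem Seg.mono {f : Imm} {y : Sph} {r R r' R' : ℝ} (h : Seg f y r R) (hr : r ≤ r')
    (hR : R' ≤ R) : Seg f y r' R' := by
  obtain ⟨u, v, s, t, h1, h2⟩ := h
  exact ⟨u, v, s, t, fun i => ⟨(h1 i).1, (h1 i).2.1.trans_le hr, hR.trans_lt (h1 i).2.2⟩, h2⟩

/-- A reparametrisation has a monotone right inverse. -/
theorem Repar.exists_inv {φ : I → I} (h : Repar φ) : ∃ ρ : I → I, Monotone ρ ∧ ∀ t, φ (ρ t) = t := by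
  have hs : Function.Surjective φ := fun t =>
    intermediate_value_univ 0 1 h.1 (by rw [h.2.2.1, h.2.2.2]; exact ⟨t.2.1, t.2.2⟩)
  refine ⟨Function.surjInv hs, fun t t' htt => ?_, Function.surjInv_eq hs⟩
  rcases htt.eq_or_lt with rfl | hlt
  · exact le_rfl
  · by_contra hc
    have h1 := h.2.1 (not_le.1 hc).le
    rw [Function.surjInv_eq hs, Function.surjInv_eq hs] at h1
    exact hlt.not_ge h1

theorem Br1_lt {p q y : Sph} {r ε : ℝ} (h : dist p q ≤ ε) (h' : dist q y < r) :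
    dist p y < r + ε := by
  linarith [dist_triangle p q y]

theorem Br1_gt {p q y : Sph} {R ε : ℝ} (h : dist p q ≤ ε) (h' : R < dist q y) :
    R - ε < dist p y := by
  rw [dist_comm] at h
  linarith [dist_triangle q p y]

theorem Br1_ord {κ : I → I} (hκ : Monotone κ) {a b c d : I}
    (h : max a b ≤ min c d ∨ max c d ≤ min a b) :
    max (κ a) (κ b) ≤ min (κ c) (κ d) ∨ max (κ c) (κ d) ≤ min (κ a) (κ b) := by
  simp only [← hκ.map_max, ← hκ.map_min]
  exact h.imp (fun h => hκ h) fun h => hκ h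

theorem Seg.close {f g : Imm} {ε : ℝ≥0} (hc : Close ε f g) {y : Sph} {r R : ℝ}
    (hε : r + 2 * ε ≤ R) (h : Seg f y r R) : Seg g y (r + ε) (R - ε) := by
  obtain ⟨π, -, -, huniq, -, he⟩ := hc
  obtain ⟨u, v, s, t, h1, h2⟩ := h
  have key : ∀ a b : Fin f.n, ∃ κ : I → I, Monotone κ ∧ (f.T.Adj a b → π a ≠ π b →
      g.T.Adj (π a) (π b) ∧ ∀ x, dist (f.arc a b x) (g.arc (π a) (π b) (κ x)) ≤ ε) := by
    intro a b
    by_cases hab : f.T.Adj a b
    · rcases he a b hab with ⟨h0, -⟩ | ⟨hg, φ, ψ, hφ, hψ, hd⟩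
      · exact ⟨id, monotone_id, fun _ hne => absurd h0 hne⟩
      · obtain ⟨ρ, hρ, hρ'⟩ := hφ.exists_inv
        refine ⟨ψ ∘ ρ, hψ.2.1.comp hρ, fun _ _ => ⟨hg, fun x => ?_⟩⟩
        have := hd (ρ x)
        rwa [hρ'] at this
    · exact ⟨id, monotone_id, fun h => absurd h hab⟩
  choose κ hκ hκ' using key
  have hne : ∀ i, π (u i) ≠ π (v i) := by
    intro i h0
    rcases he _ _ (h1 i).1 with ⟨-, hd⟩ | ⟨hg, -⟩
    · have a1 := hd (s i)
      have a2 := hd (t i)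
      have a3 := dist_triangle4 (f.arc (u i) (v i) (t i)) (g.pos (π (u i)))
        (f.arc (u i) (v i) (s i)) y
      rw [dist_comm] at a1
      linarith [(h1 i).2.1, (h1 i).2.2]
    · exact hg.ne h0
  have hk := fun i => hκ' _ _ (h1 i).1 (hne i)
  refine ⟨fun i => π (u i), fun i => π (v i), fun i => κ (u i) (v i) (s i),
    fun i => κ (u i) (v i) (t i), fun i => ⟨(hk i).1, ?_, ?_⟩, fun i j hij hs => ?_⟩
  · exact Br1_lt ((dist_comm _ _).trans_le ((hk i).2 _)) (h1 i).2.1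
  · exact Br1_gt ((dist_comm _ _).trans_le ((hk i).2 _)) (h1 i).2.2
  · have hs' : s(u i, v i) = s(u j, v j) := by
      rcases Sym2.eq_iff.1 hs with ⟨e1, e2⟩ | ⟨e1, e2⟩
      · have := (huniq _ _ (hk i).1).unique (y₁ := (u i, v i)) (y₂ := (u j, v j))
          ⟨(h1 i).1, rfl, rfl⟩ ⟨(h1 j).1, e1.symm, e2.symm⟩
        exact Sym2.eq_iff.2 (Or.inl (Prod.mk.inj this))
      · have := (huniq _ _ (hk i).1).unique (y₁ := (u i, v i)) (y₂ := (v j, u j))
          ⟨(h1 i).1, rfl, rfl⟩ ⟨(h1 j).1.symm, e1.symm, e2.symm⟩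
        exact Sym2.eq_iff.2 (Or.inr (Prod.mk.inj this))
    obtain ⟨e1, e2, e3⟩ := h2 i j hij hs'
    refine ⟨congrArg π e1, congrArg π e2, ?_⟩
    dsimp only
    rw [← e1, ← e2]
    exact Br1_ord (hκ _ _) e3

theorem Seg.close' {f g : Imm} {ε : ℝ≥0} (hc : Close ε f g) {y : Sph} {r R : ℝ}
    (h : Seg g y r R) : Seg f y (r + ε) (R - ε) := by
  obtain ⟨π, hsurj, -, huniq, -, he⟩ := hc
  obtain ⟨u, v, s, t, h1, h2⟩ := h
  have key : ∀ a b : Fin g.n, ∃ (e : Fin f.n × Fin f.n) (κ : I → I), Monotone κ ∧ (g.T.Adj a b →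
      f.T.Adj e.1 e.2 ∧ π e.1 = a ∧ π e.2 = b ∧
        ∀ x, dist (f.arc e.1 e.2 (κ x)) (g.arc a b x) ≤ ε) := by
    intro a b
    by_cases hab : g.T.Adj a b
    · obtain ⟨e, ⟨hf, rfl, rfl⟩, -⟩ := huniq a b hab
      rcases he _ _ hf with ⟨h0, -⟩ | ⟨-, φ, ψ, hφ, hψ, hd⟩
      · exact absurd h0 hab.ne
      · obtain ⟨ρ, hρ, hρ'⟩ := hψ.exists_inv
        refine ⟨e, φ ∘ ρ, hφ.2.1.comp hρ, fun _ => ⟨hf, rfl, rfl, fun x => ?_⟩⟩
        have := hd (ρ x)
        rwa [hρ'] at this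
    · obtain ⟨c, -⟩ := hsurj a
      exact ⟨(c, c), id, monotone_id, fun h => absurd h hab⟩
  choose e κ hκ hκ' using key
  have hk := fun i => hκ' _ _ (h1 i).1
  refine ⟨fun i => (e (u i) (v i)).1, fun i => (e (u i) (v i)).2, fun i => κ (u i) (v i) (s i),
    fun i => κ (u i) (v i) (t i), fun i => ⟨(hk i).1, ?_, ?_⟩, fun i j hij hs => ?_⟩
  · exact Br1_lt ((hk i).2.2.2 _) (h1 i).2.1
  · exact Br1_gt ((hk i).2.2.2 _) (h1 i).2.2
  · have hs' := congrArg (Sym2.map π) hs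
    simp only [Sym2.map_mk, (hk i).2.1, (hk i).2.2.1, (hk j).2.1, (hk j).2.2.1] at hs'
    obtain ⟨e1, e2, e3⟩ := h2 i j hij hs'
    dsimp only
    rw [← e1, ← e2]
    exact ⟨rfl, rfl, Br1_ord (hκ _ _) e3⟩

theorem Seg.chain {f g : Imm} {a : ℝ≥0} (hc : Chain f g a) {y : Sph} {r R : ℝ}
    (ha : r + 2 * a ≤ R) (h : Seg f y r R) : Seg g y (r + a) (R - a) := by
  induction hc with
  | refl => simpa using h
  | @step g k a ε _ hc ih =>
    have h0 : (0 : ℝ) ≤ ε := ε.2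
    rw [NNReal.coe_add] at ha ⊢
    have h1 := ih (by linarith)
    rw [← add_assoc, ← sub_sub]
    rcases hc with hc | hc
    · exact h1.close hc (by linarith)
    · exact h1.close' hc

theorem isOpen_seg (y : Sph) {r R : ℝ} (h : r ≤ R) : IsOpen {f : Imm | Seg f y r R} := by
  refine EMetric.isOpen_iff.2 ?_
  rintro f ⟨u, v, s, t, h1, h2⟩
  have hev : ∀ᶠ δ : ℝ in nhds 0, ∀ i, dist (f.arc (u i) (v i) (s i)) y < r - δ ∧
      R + δ < dist (f.arc (u i) (v i) (t i)) y := by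
    refine Filter.eventually_all.2 fun i => Filter.Eventually.and ?_ ?_
    · exact continuousAt_const.eventually_lt (continuous_const.sub continuous_id).continuousAt
        (by simpa using (h1 i).2.1)
    · exact (continuous_const.add continuous_id).continuousAt.eventually_lt continuousAt_const
        (by simpa using (h1 i).2.2)
  obtain ⟨δ, hδ, h0⟩ := ((hev.filter_mono nhdsWithin_le_nhds).and
    (self_mem_nhdsWithin (s := Set.Ioi (0 : ℝ)))).exists
  have hf : Seg f y (r - δ) (R + δ) := ⟨u, v, s, t, fun i => ⟨(h1 i).1, hδ i⟩, h2⟩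
  refine ⟨ENNReal.ofReal δ, ENNReal.ofReal_pos.2 h0, fun g hg => ?_⟩
  have h3 : (⨅ (a : ℝ≥0) (_ : Chain f g a), (a : ℝ≥0∞)) < ENNReal.ofReal δ :=
    (edist_comm f g).trans_lt hg
  obtain ⟨a, ha⟩ := iInf_lt_iff.1 h3
  obtain ⟨hc, ha'⟩ := iInf_lt_iff.1 ha
  rw [← ENNReal.ofReal_coe_nnreal, ENNReal.ofReal_lt_ofReal_iff h0] at ha'
  exact (hf.chain hc (by linarith)).mono (by linarith) (by linarith)

end Pool.Agent.Work.MP_ccd212_pr
end

-- merged part: Pool.Agent.Work.MP_ccd212_pr.Br2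
section
/-! Points of degree four give four segments; the corresponding open sets of forests. -/

namespace Pool.Agent.Work.MP_ccd212_pr

open TopologicalSpace
open scoped NNReal ENNReal unitInterval Topology

theorem br2_exists_pos_lt {ι : Type} [Finite ι] (c : ι → ℝ) (hc : ∀ i, 0 < c i) :
    ∃ δ : ℝ, 0 < δ ∧ ∀ i, δ < c i := by
  have h1 : ∀ᶠ δ in 𝓝[>] (0 : ℝ), ∀ i, δ < c i := by
    refine Filter.eventually_all.2 fun i => ?_
    filter_upwards [Ioo_mem_nhdsGT (hc i)] with δ hδ using hδ.2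
  obtain ⟨δ, h2, h3⟩ := (h1.and self_mem_nhdsWithin).exists
  exact ⟨δ, h3, h2⟩

/-- Germs of edges at a point. -/
def br2Germ (f : Imm) (y : Sph) : Set (Fin f.n × Fin f.n × I × Bool) :=
  {g | g.1 < g.2.1 ∧ f.T.Adj g.1 g.2.1 ∧ f.arc g.1 g.2.1 g.2.2.1 = y ∧
    (g.2.2.2 = true → g.2.2.1 < 1) ∧ (g.2.2.2 = false → 0 < g.2.2.1)}

theorem br2_deg_le (f : Imm) (y : Sph) : f.deg y ≤ (br2Germ f y).encard := by
  classical
  set A : Set (Fin f.n × Fin f.n) := {e | f.T.Adj e.1 e.2 ∧ f.pos e.1 = y} with hA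
  set B : Set (Fin f.n × Fin f.n × I) := {e | e.1 < e.2.1 ∧ f.T.Adj e.1 e.2.1 ∧ 0 < e.2.2 ∧
    e.2.2 < 1 ∧ f.arc e.1 e.2.1 e.2.2 = y} with hB
  let α : Fin f.n × Fin f.n → Fin f.n × Fin f.n × I × Bool := fun e =>
    if e.1 < e.2 then (e.1, e.2, 0, true) else (e.2, e.1, 1, false)
  let β : Bool → Fin f.n × Fin f.n × I → Fin f.n × Fin f.n × I × Bool := fun d e =>
    (e.1, e.2.1, e.2.2, d)
  have hα : Function.Injective α := by
    rintro ⟨a, b⟩ ⟨c, d⟩ h
    simp only [α] at h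
    split_ifs at h with h1 h2 h2
    · simp only [Prod.mk.injEq] at h; rw [h.1, h.2.1]
    · simp at h
    · simp at h
    · simp only [Prod.mk.injEq] at h; rw [h.1, h.2.1]
  have hβ : ∀ d, Function.Injective (β d) := by
    rintro d ⟨a, b, s⟩ ⟨c, e, t⟩ h
    simp only [β, Prod.mk.injEq] at h
    rw [h.1, h.2.1, h.2.2.1]
  have hd1 : Disjoint (β true '' B) (β false '' B) := by
    rw [Set.disjoint_left]
    rintro _ ⟨e, -, rfl⟩ ⟨e', -, h⟩
    simp [β] at h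
  have hd2 : Disjoint (α '' A) (β true '' B ∪ β false '' B) := by
    rw [Set.disjoint_left]
    rintro _ ⟨e, -, rfl⟩ hm
    have : ∃ d, ∃ e' ∈ B, β d e' = α e := by
      rcases hm with ⟨e', h1, h2⟩ | ⟨e', h1, h2⟩
      · exact ⟨true, e', h1, h2⟩
      · exact ⟨false, e', h1, h2⟩
    obtain ⟨d, e', h1, h2⟩ := this
    obtain ⟨-, -, h3, h4, -⟩ := h1
    simp only [α, β] at h2
    split_ifs at h2 with h5
    · simp only [Prod.mk.injEq] at h2
      exact absurd h2.2.2.1 h3.ne'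
    · simp only [Prod.mk.injEq] at h2
      exact absurd h2.2.2.1 h4.ne
  have hsub : α '' A ∪ (β true '' B ∪ β false '' B) ⊆ br2Germ f y := by
    rintro _ (⟨e, ⟨h1, h2⟩, rfl⟩ | ⟨e, ⟨h1, h2, h3, h4, h5⟩, rfl⟩ | ⟨e, ⟨h1, h2, h3, h4, h5⟩, rfl⟩)
    · by_cases h : e.1 < e.2
      · simp only [α, if_pos h]
        refine ⟨h, h1, ?_, fun _ => zero_lt_one, fun h => by simp at h⟩
        rw [← h2]; exact f.arc_zero _ _ h1
      · simp only [α, if_neg h]
        refine ⟨lt_of_le_of_ne (not_lt.1 h) h1.ne', h1.symm, ?_, fun h => by simp at h,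
          fun _ => zero_lt_one⟩
        show f.arc e.2 e.1 1 = y
        rw [f.arc_symm _ _ h1, unitInterval.symm_one, ← h2]; exact f.arc_zero _ _ h1
    · exact ⟨h1, h2, h5, fun _ => h4, fun _ => h3⟩
    · exact ⟨h1, h2, h5, fun _ => h4, fun _ => h3⟩
  refine le_trans (le_of_eq ?_) (Set.encard_le_encard hsub)
  rw [Set.encard_union_eq hd2, Set.encard_union_eq hd1, hα.encard_image, (hβ true).encard_image,
    (hβ false).encard_image, ← two_mul]
  rfl

theorem br2_dir {f : Imm} (hf : f.Light) {y : Sph} {g : Fin f.n × Fin f.n × I × Bool}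
    (hg : g ∈ br2Germ f y) {δ : ℝ} (hδ : 0 < δ) :
    ∃ t : I, f.arc g.1 g.2.1 t ≠ y ∧ (t : ℝ) ≤ g.2.2.1 + δ ∧ (g.2.2.1 : ℝ) - δ ≤ t ∧
      (g.2.2.2 = true → g.2.2.1 ≤ t) ∧ (g.2.2.2 = false → t ≤ g.2.2.1) := by
  obtain ⟨u, v, s, d⟩ := g
  obtain ⟨-, hadj, hy, h1, h0⟩ := hg
  simp only at hadj hy h1 h0 ⊢
  cases d with
  | true =>
    have hs : (s : ℝ) < 1 := h1 rfl
    let s' : I := ⟨min (s + δ) 1, le_min (by linarith only [hδ, s.2.1]) zero_le_one, min_le_right _ _⟩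
    have hss : s < s' := by
      show (s : ℝ) < min (s + δ) 1
      exact lt_min (by linarith) hs
    obtain ⟨r, hr1, hr2, hr3⟩ := hf u v hadj s s' hss
    have hr1' : (s : ℝ) ≤ r := hr1
    have hr2' : (r : ℝ) ≤ min (s + δ) 1 := hr2
    exact ⟨r, hy ▸ hr3, hr2'.trans (min_le_left _ _), by linarith, fun _ => hr1,
      fun h => by simp at h⟩
  | false =>
    have hs : (0 : ℝ) < s := h0 rfl
    let s' : I := ⟨max (s - δ) 0, le_max_right _ _, max_le (by linarith [s.2.2]) zero_le_one⟩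
    have hss : s' < s := by
      show max (s - δ) 0 < (s : ℝ)
      exact max_lt (by linarith) hs
    have hss' : (s' : ℝ) < s := hss
    have hs'1 : (s : ℝ) - δ ≤ s' := le_max_left _ _
    by_cases hc : f.arc u v s' = y
    · obtain ⟨r, hr1, hr2, hr3⟩ := hf u v hadj s' s hss
      have hr1' : (s' : ℝ) ≤ r := hr1
      have hr2' : (r : ℝ) ≤ s := hr2
      exact ⟨r, hc ▸ hr3, by linarith only [hδ, hr2'], by linarith, fun h => by simp at h, fun _ => hr2⟩
    · exact ⟨s', hc, by linarith, hs'1, fun h => by simp at h, fun _ => hss.le⟩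

theorem seg_of_deg {f : Imm} (hf : f.Light) {y : Sph} (h : 3 < f.deg y) :
    ∃ R, 0 < R ∧ ∀ r, 0 < r → Seg f y r R := by
  classical
  have h4 : (Set.univ : Set (Fin 4)).encard ≤ (br2Germ f y).encard := by
    have h3 : (3 : ℕ∞) < (br2Germ f y).encard := h.trans_le (br2_deg_le f y)
    have : (Set.univ : Set (Fin 4)).encard = 3 + 1 := by
      rw [Set.encard_univ]; simp; rfl
    rw [this]
    exact Order.add_one_le_of_lt h3
  have hne : (br2Germ f y).Nonempty := by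
    rw [← Set.encard_pos]
    exact lt_of_lt_of_le (by norm_num) (h.trans_le (br2_deg_le f y)).le
  have : Nonempty (Fin f.n × Fin f.n × I × Bool) := ⟨hne.some⟩
  obtain ⟨g, hg, hinj⟩ := Set.Finite.exists_injOn_of_encard_le Set.finite_univ h4
  have hg' : ∀ i, g i ∈ br2Germ f y := fun i => hg (Set.mem_univ i)
  obtain ⟨δ, hδ, hgap⟩ := br2_exists_pos_lt (ι := Fin 4 × Fin 4)
    (fun p => if ((g p.1).2.2.1 : ℝ) < (g p.2).2.2.1 then
      (((g p.2).2.2.1 : ℝ) - (g p.1).2.2.1) / 2 else 1) (by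
      intro p
      split_ifs with hp
      · linarith only [hp]
      · exact one_pos)
  have hgap' : ∀ i j, ((g i).2.2.1 : ℝ) < (g j).2.2.1 →
      ((g i).2.2.1 : ℝ) + δ ≤ (g j).2.2.1 - δ := by
    intro i j hij
    have := hgap (i, j)
    simp only [if_pos hij] at this
    linarith
  choose t ht1 ht2 ht3 ht4 ht5 using fun i => br2_dir hf (hg' i) hδ
  obtain ⟨R, hR, hRt⟩ := br2_exists_pos_lt (fun i => dist (f.arc (g i).1 (g i).2.1 (t i)) y)
    (fun i => dist_pos.2 (ht1 i))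
  refine ⟨R, hR, fun r hr => ⟨fun i => (g i).1, fun i => (g i).2.1, fun i => (g i).2.2.1, t,
    fun i => ⟨(hg' i).2.1, ?_, hRt i⟩, fun i j hij he => ?_⟩⟩
  · rw [(hg' i).2.2.1, dist_self]; exact hr
  · have huv : (g i).1 = (g j).1 ∧ (g i).2.1 = (g j).2.1 := by
      rcases Sym2.eq_iff.1 he with h' | h'
      · exact h'
      · exfalso
        have a1 := (hg' i).1
        have a2 := (hg' j).1
        have e1 : (g i).1 = (g j).2.1 := h'.1
        have e2 : (g i).2.1 = (g j).1 := h'.2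
        rw [e1, e2] at a1
        exact lt_asymm a1 a2
    refine ⟨huv.1, huv.2, ?_⟩
    have key : ∀ i j, ((g i).2.2.1 : ℝ) < (g j).2.2.1 →
        max (g i).2.2.1 (t i) ≤ min (g j).2.2.1 (t j) := by
      intro i j hlt
      have b := hgap' i j hlt
      have b2 := ht2 i
      have b3 := ht3 j
      refine max_le (le_min ?_ ?_) (le_min ?_ ?_)
      · exact hlt.le
      · show ((g i).2.2.1 : ℝ) ≤ t j
        linarith
      · show (t i : ℝ) ≤ (g j).2.2.1
        linarith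
      · show (t i : ℝ) ≤ t j
        linarith
    rcases lt_trichotomy ((g i).2.2.1 : ℝ) (g j).2.2.1 with hlt | heq | hlt
    · exact Or.inl (key i j hlt)
    · have hs : (g i).2.2.1 = (g j).2.2.1 := Subtype.ext heq
      have hd : (g i).2.2.2 ≠ (g j).2.2.2 := by
        intro hd
        exact hij (hinj (Set.mem_univ i) (Set.mem_univ j)
          (Prod.ext huv.1 (Prod.ext huv.2 (Prod.ext hs hd))))
      cases hdi : (g i).2.2.2 with
      | true =>
        have hdj : (g j).2.2.2 = false := by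
          rw [hdi] at hd
          simpa using hd.symm
        right
        have c1 := ht4 i hdi
        have c2 := ht5 j hdj
        show max (g j).2.2.1 (t j) ≤ min (g i).2.2.1 (t i)
        rw [max_eq_left c2, min_eq_left c1, hs]
      | false =>
        have hdj : (g j).2.2.2 = true := by
          rw [hdi] at hd
          simpa using hd.symm
        left
        have c1 := ht5 i hdi
        have c2 := ht4 j hdj
        show max (g i).2.2.1 (t i) ≤ min (g j).2.2.1 (t j)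
        rw [max_eq_left c1, min_eq_left c2, hs]
    · exact Or.inr (key j i hlt)

/-- Forests with a tree that has four segments around some point of the disc of radius `k`. -/
def SegF (k r R : ℝ) : Set Forest :=
  {F | ∃ (l : ℕ) (f : Imm) (z : ℂ), ‖z‖ ≤ k ∧ SeparationQuotient.mk f ∈ F l ∧ Seg f (stereo z) r R}

theorem isOpen_segF (k : ℝ) {r R : ℝ} (h : r ≤ R) : IsOpen (SegF k r R) := by
  have : SegF k r R = ⋃ (l : ℕ) (z : ℂ) (_ : ‖z‖ ≤ k), (fun F : Forest => F l) ⁻¹'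
      {C : Closeds Tr | ((C : Set Tr) ∩
        SeparationQuotient.mk '' {f : Imm | Seg f (stereo z) r R}).Nonempty} := by
    ext F
    simp only [SegF, Set.mem_ofPred_eq, Set.mem_iUnion, Set.mem_preimage]
    constructor
    · rintro ⟨l, f, z, hz, hf, hs⟩
      exact ⟨l, z, hz, _, hf, f, hs, rfl⟩
    · rintro ⟨l, z, hz, _, hf, f, hs, rfl⟩
      exact ⟨l, f, z, hz, hf, hs⟩
  rw [this]
  refine isOpen_iUnion fun l => isOpen_iUnion fun z => isOpen_iUnion fun _ => ?_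
  have ho : IsOpen (SeparationQuotient.mk '' {f : Imm | Seg f (stereo z) r R} : Set Tr) :=
    SeparationQuotient.isOpenMap_mk _ (isOpen_seg (stereo z) h)
  exact (Closeds.isOpen_inter_nonempty_of_isOpen (α := Tr) ho).preimage (continuous_apply l)

theorem inTree_of_segF {adm : (n : ℕ) → SimpleGraph (Fin n) → Prop} {η : ℝ} {V : Site → I}
    {k r R : ℝ} (h : r ≤ R) (hV : mstF adm η V ∈ SegF k r R) :
    ∃ (f : Imm) (z : ℂ), ‖z‖ ≤ k ∧ InTree (mstG Set.univ V) η f ∧ Seg f (stereo z) r R := by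
  obtain ⟨l, f, z, hz, hf, hs⟩ := hV
  have hf' : SeparationQuotient.mk f ∈ closure (SeparationQuotient.mk ''
      {f : Imm | f.leaves = l ∧ adm f.n f.T ∧ InTree (mstG Set.univ V) η f}) := hf
  obtain ⟨_, ⟨g, hg, rfl⟩, g', hg', he⟩ := mem_closure_iff.1 hf' _
    (SeparationQuotient.isOpenMap_mk _ (isOpen_seg (stereo z) h)) ⟨f, hs, rfl⟩
  have hin : Inseparable g' g := SeparationQuotient.mk_eq_mk.1 he
  exact ⟨g', z, hz, hg'.2.2, (hin.mem_open_iff (isOpen_seg (stereo z) h)).2 hg⟩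

theorem segF_of_degF {F : Forest} {x : ℂ} (h : ¬ degF F (stereo x) ≤ 3) :
    ∃ k m : ℕ, ∀ r, 0 < r → F ∈ SegF k r (1 / (m + 1)) := by
  rw [not_le, degF] at h
  obtain ⟨l, h⟩ := lt_iSup_iff.1 h
  obtain ⟨f, h⟩ := lt_iSup_iff.1 h
  obtain ⟨⟨hf, hF⟩, h⟩ := lt_iSup_iff.1 h
  obtain ⟨R, hR, hs⟩ := seg_of_deg hf h
  obtain ⟨k, hk⟩ := exists_nat_ge ‖x‖
  obtain ⟨m, hm⟩ := exists_nat_one_div_lt hR
  exact ⟨k, m, fun r hr => ⟨l, f, x, hk, hF, (hs r hr).mono le_rfl hm.le⟩⟩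

end Pool.Agent.Work.MP_ccd212_pr
end

-- merged part: Pool.Agent.Work.MP_ccd212_pr.Br3
section
/-! From segments on the sphere to lattice arms. -/

namespace Pool.Agent.Work.MP_ccd212_pr

open scoped unitInterval

theorem br3_dist_sq (z w : ℂ) :
    dist (stereo z) (stereo w) ^ 2 * ((1 + ‖z‖ ^ 2) * (1 + ‖w‖ ^ 2)) = 4 * ‖z - w‖ ^ 2 := by
  have hz : (0 : ℝ) < 1 + ‖z‖ ^ 2 := by positivity
  have hw : (0 : ℝ) < 1 + ‖w‖ ^ 2 := by positivity
  have e : ∀ z : ℂ, ‖z‖ ^ 2 = z.re ^ 2 + z.im ^ 2 := fun z => by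
    rw [Complex.sq_norm, Complex.normSq_apply]; ring
  rw [Subtype.dist_eq, EuclideanSpace.dist_eq, Real.sq_sqrt (by positivity)]
  simp only [stereo, Fin.sum_univ_three, Real.dist_eq, sq_abs]
  simp only [Matrix.cons_val_zero, Matrix.cons_val_one, Matrix.cons_val]
  field_simp
  rw [e z, e w, e (z - w), Complex.sub_re, Complex.sub_im]
  ring

theorem dist_stereo_le (z w : ℂ) : dist (stereo z) (stereo w) ≤ 2 * ‖z - w‖ := by
  have h := br3_dist_sq z w
  have h1 : 1 ≤ (1 + ‖z‖ ^ 2) * (1 + ‖w‖ ^ 2) := by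
    linarith only [sq_nonneg ‖z‖, sq_nonneg ‖w‖, mul_nonneg (sq_nonneg ‖z‖) (sq_nonneg ‖w‖), sq_nonneg ‖z‖, sq_nonneg ‖w‖]
  refine le_of_sq_le_sq ?_ (by positivity)
  linarith only [h, h1, sq_nonneg (dist (stereo z) (stereo w)), mul_nonneg_of_nonpos_of_nonpos (Mathlib.Tactic.Linarith.sub_nonpos_of_le (sq_nonneg (dist (stereo z) (stereo w)))) (Mathlib.Tactic.Linarith.sub_nonpos_of_le h1)]

theorem norm_le_of_stereo {z w : ℂ} {k r : ℝ} (hz : ‖z‖ ≤ k) (hr : r * (1 + k) ≤ 1)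
    (h : dist (stereo w) (stereo z) < r) : ‖w - z‖ ≤ r * (1 + k) ^ 2 := by
  have h1 := br3_dist_sq w z
  have hk : 0 ≤ k := (norm_nonneg _).trans hz
  have hd := dist_nonneg (x := stereo w) (y := stereo z)
  have hD := norm_nonneg (w - z)
  have h2 : ‖w‖ ≤ k + ‖w - z‖ := by
    have := norm_add_le z (w - z)
    rw [add_sub_cancel] at this
    linarith
  have h3 : 1 + ‖z‖ ^ 2 ≤ (1 + k) ^ 2 := by linarith only [hk, hz, norm_nonneg z, mul_nonneg_of_nonpos_of_nonpos (Mathlib.Tactic.Linarith.sub_nonpos_of_le hz) (Mathlib.Tactic.Linarith.sub_nonpos_of_le hk), mul_nonneg_of_nonpos_of_nonpos (Mathlib.Tactic.Linarith.sub_nonpos_of_le hz) (Mathlib.Tactic.Linarith.sub_nonpos_of_le (norm_nonneg z))]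
  have h4 : 1 + ‖w‖ ^ 2 ≤ (1 + k + ‖w - z‖) ^ 2 := by linarith only [hk, hD, h2, norm_nonneg w, mul_nonneg_of_nonpos_of_nonpos (Mathlib.Tactic.Linarith.sub_nonpos_of_le hk) (Mathlib.Tactic.Linarith.sub_nonpos_of_le h2), mul_nonneg_of_nonpos_of_nonpos (Mathlib.Tactic.Linarith.sub_nonpos_of_le hD) (Mathlib.Tactic.Linarith.sub_nonpos_of_le h2), mul_nonneg_of_nonpos_of_nonpos (Mathlib.Tactic.Linarith.sub_nonpos_of_le h2) (Mathlib.Tactic.Linarith.sub_nonpos_of_le (norm_nonneg w))]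
  have h5 : dist (stereo w) (stereo z) ^ 2 ≤ r ^ 2 := pow_le_pow_left₀ hd h.le 2
  have hr0 : 0 ≤ r := hd.trans h.le
  have h6 : 2 * ‖w - z‖ ≤ r * ((1 + k + ‖w - z‖) * (1 + k)) := by
    refine le_of_sq_le_sq ?_ (by positivity)
    rw [mul_pow, mul_pow, mul_pow, show (2 : ℝ) ^ 2 = 4 by norm_num, ← h1]
    gcongr
  linarith only [h6, hr, hD, mul_nonneg_of_nonpos_of_nonpos (Mathlib.Tactic.Linarith.sub_nonpos_of_le hr) (Mathlib.Tactic.Linarith.sub_nonpos_of_le hD)]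

theorem br3_norm_sq (a b : ℝ) :
    ‖(a : ℂ) + b * (1 / 2 + √3 / 2 * Complex.I)‖ ^ 2 = a ^ 2 + a * b + b ^ 2 := by
  have h3 : √3 ^ 2 = (3 : ℝ) := Real.sq_sqrt (by norm_num)
  rw [Complex.sq_norm, Complex.normSq_apply]
  simp
  nlinarith

theorem br3_emb_sq (u v : Site) : ‖emb u - emb v‖ ^ 2 =
    ((v.1 - u.1 : ℤ) : ℝ) ^ 2 + (v.1 - u.1 : ℤ) * (v.2 - u.2 : ℤ) + ((v.2 - u.2 : ℤ) : ℝ) ^ 2 := by
  rw [← br3_norm_sq, norm_sub_rev]
  congr 2
  simp only [emb]
  push_cast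
  ring

theorem br3_dst (u v : Site) :
    (dst u v : ℝ) = max |((v.1 - u.1 : ℤ) : ℝ)| |((v.2 - u.2 : ℤ) : ℝ)| := by
  rw [dst, Nat.cast_max, Nat.cast_natAbs, Nat.cast_natAbs, Int.cast_abs, Int.cast_abs]

theorem dst_le_norm (u v : Site) : (dst u v : ℝ) ≤ 2 * ‖emb u - emb v‖ := by
  have h := br3_emb_sq u v
  rw [br3_dst]
  generalize ((v.1 - u.1 : ℤ) : ℝ) = a at h ⊢
  generalize ((v.2 - u.2 : ℤ) : ℝ) = b at h ⊢
  refine max_le (abs_le_of_sq_le_sq ?_ (by positivity)) (abs_le_of_sq_le_sq ?_ (by positivity))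
  · linarith only [h, sq_nonneg (a + 2 * b), sq_nonneg a, sq_nonneg (a + (2 : ℝ) * b), sq_nonneg ‖emb u - emb v‖]
  · linarith only [h, sq_nonneg (2 * a + b), sq_nonneg b, sq_nonneg ((2 : ℝ) * a + b), sq_nonneg ‖emb u - emb v‖]

theorem norm_le_dst (u v : Site) : ‖emb u - emb v‖ ≤ 2 * dst u v := by
  have h := br3_emb_sq u v
  have h0 : (0 : ℝ) ≤ dst u v := Nat.cast_nonneg _
  have h1 := br3_dst u v
  generalize ((v.1 - u.1 : ℤ) : ℝ) = a at h h1
  generalize ((v.2 - u.2 : ℤ) : ℝ) = b at h h1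
  have h2 : a ^ 2 ≤ (dst u v : ℝ) ^ 2 := sq_le_sq.2 (by
    rw [abs_of_nonneg h0, h1]; exact le_max_left _ _)
  have h3 : b ^ 2 ≤ (dst u v : ℝ) ^ 2 := sq_le_sq.2 (by
    rw [abs_of_nonneg h0, h1]; exact le_max_right _ _)
  refine le_of_sq_le_sq ?_ (by positivity)
  linarith only [h, h2, h3, sq_nonneg (a - b), sq_nonneg (dst u v : ℝ), sq_nonneg ↑(dst u v), sq_nonneg (a - b)]

theorem exists_site_near (z : ℂ) : ∃ x : Site, ‖emb x - z‖ ≤ 2 := by
  have h3 : (√3 : ℝ) ≠ 0 := by positivity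
  set b : ℝ := 2 * z.im / √3 with hb
  set a : ℝ := z.re - b / 2 with ha
  have e : emb (⌊a⌋, ⌊b⌋) - z =
      -(((Int.fract a : ℝ) : ℂ) + (Int.fract b : ℝ) * (1 / 2 + √3 / 2 * Complex.I)) := by
    have hz : z = (a : ℂ) + b * (1 / 2 + √3 / 2 * Complex.I) := by
      apply Complex.ext
      · simp [ha]
        ring
      · simp [hb]
        field_simp
    rw [Int.fract, Int.fract]
    conv_lhs => rw [hz]
    simp only [emb]
    push_cast
    ring
  refine ⟨(⌊a⌋, ⌊b⌋), le_of_sq_le_sq ?_ (by norm_num)⟩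
  rw [e, norm_neg, br3_norm_sq]
  linarith only [Int.fract_nonneg a, Int.fract_nonneg b, Int.fract_lt_one a, Int.fract_lt_one b, mul_nonneg_of_nonpos_of_nonpos (Mathlib.Tactic.Linarith.sub_nonpos_of_le (Int.fract_nonneg a)) (le_of_lt (Mathlib.Tactic.Linarith.sub_neg_of_lt (Int.fract_lt_one a))), mul_nonneg_of_nonpos_of_nonpos (Mathlib.Tactic.Linarith.sub_nonpos_of_le (Int.fract_nonneg a)) (le_of_lt (Mathlib.Tactic.Linarith.sub_neg_of_lt (Int.fract_lt_one b))), mul_nonneg_of_nonpos_of_nonpos (Mathlib.Tactic.Linarith.sub_nonpos_of_le (Int.fract_nonneg b)) (le_of_lt (Mathlib.Tactic.Linarith.sub_neg_of_lt (Int.fract_lt_one b)))]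

theorem br3_adj {x y : Site} (h : Adj x y) : ‖emb x - emb y‖ ≤ 1 := by
  refine le_of_sq_le_sq ?_ zero_le_one
  rw [br3_emb_sq]
  rcases h with h | h | h | h | h | h <;> rw [h.1, h.2] <;> norm_num

theorem br3_step {H : SimpleGraph Site} (hH : H ≤ G) {a b : Site} (p : H.Walk a b) (l : ℕ) :
    ‖emb (p.getVert l) - emb (p.getVert (l + 1))‖ ≤ 1 := by
  rcases lt_or_ge l p.length with h | h
  · exact br3_adj (hH (p.adj_getVert_succ h))
  · rw [p.getVert_of_length_le h, p.getVert_of_length_le (h.trans (Nat.le_succ _))]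
    simp

theorem poly_near {H : SimpleGraph Site} (hH : H ≤ G) {a b : Site} (p : H.Walk a b) (t : I)
    {i : ℕ} (hi : |(t : ℝ) * p.length - i| ≤ 1) : ‖poly p t - emb (p.getVert i)‖ ≤ 2 := by
  have h0 : 0 ≤ (t : ℝ) * p.length := mul_nonneg t.2.1 (Nat.cast_nonneg _)
  set m := ⌊(t : ℝ) * p.length⌋₊ with hm
  have h1 : ‖poly p t - emb (p.getVert m)‖ ≤ 1 := by
    rw [poly, ← hm, AffineMap.lineMap_apply, vsub_eq_sub, vadd_eq_add, add_sub_cancel_right,
      norm_smul, norm_sub_rev, Real.norm_of_nonneg (Int.fract_nonneg _)]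
    exact mul_le_one₀ (Int.fract_lt_one _).le (norm_nonneg _) (br3_step hH p m)
  have h2 : ‖emb (p.getVert m) - emb (p.getVert i)‖ ≤ 1 := by
    have h3 : (m : ℝ) ≤ t * p.length := Nat.floor_le h0
    have h4 : (t : ℝ) * p.length < m + 1 := Nat.lt_floor_add_one _
    obtain ⟨h5, h6⟩ := abs_le.1 hi
    have h7 : m ≤ i + 1 := by exact_mod_cast (show (m : ℝ) ≤ i + 1 by linarith only [h3, h6])
    have h8 : i < m + 2 := by exact_mod_cast (show (i : ℝ) < m + 2 by linarith only [h4, h5])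
    obtain h | h | h : m = i + 1 ∨ m = i ∨ i = m + 1 := by omega
    · rw [h, norm_sub_rev]; exact br3_step hH p i
    · rw [h]; simp
    · rw [h]; exact br3_step hH p m
  have := norm_sub_le_norm_sub_add_norm_sub (poly p t) (emb (p.getVert m)) (emb (p.getVert i))
  linarith only [h1, h2, this]

theorem br3_subpath {H : SimpleGraph Site} {a b : Site} {p : H.Walk a b} (hp : p.IsPath)
    {i j : ℕ} (hij : i ≤ j) : ∃ q : H.Walk (p.getVert i) (p.getVert j), q.IsPath ∧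
      ∀ e ∈ q.edges, ∃ l, i ≤ l ∧ l < j ∧ l < p.length ∧
        e = s(p.getVert l, p.getVert (l + 1)) := by
  refine ⟨((p.take j).drop i).copy (by rw [p.take_getVert, min_eq_right hij]) rfl,
    (SimpleGraph.Walk.isPath_copy _ _ _).2 ((hp.take j).drop i), fun e he => ?_⟩
  rw [SimpleGraph.Walk.edges_copy] at he
  induction e using Sym2.ind with
  | _ x y =>
    obtain ⟨l, hl, h⟩ := (SimpleGraph.Walk.mk_mem_edges_iff_exists _).1 he
    rw [SimpleGraph.Walk.drop_length, SimpleGraph.Walk.take_length] at hl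
    simp only [SimpleGraph.Walk.drop_getVert, SimpleGraph.Walk.take_getVert] at h
    rw [min_eq_right (by omega), min_eq_right (by omega)] at h
    exact ⟨i + l, by omega, by omega, by omega, h.symm⟩

/-- The part of a simple path between two positions. -/
theorem exists_subpath {H : SimpleGraph Site} {a b : Site} {p : H.Walk a b} (hp : p.IsPath)
    (i j : ℕ) : ∃ q : H.Walk (p.getVert i) (p.getVert j), q.IsPath ∧
      ∀ e ∈ q.edges, ∃ l, min i j ≤ l ∧ l < max i j ∧ l < p.length ∧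
        e = s(p.getVert l, p.getVert (l + 1)) := by
  rcases le_total i j with h | h
  · rw [min_eq_left h, max_eq_right h]
    exact br3_subpath hp h
  · rw [min_eq_right h, max_eq_left h]
    obtain ⟨q, hq, he⟩ := br3_subpath hp h
    exact ⟨q.reverse, hq.reverse, fun e he' => he e (by simpa using he')⟩

theorem br3_idx {α β : ℝ} (hα : 0 ≤ α) (hαβ : α ≤ β) {P Q : ℕ → Prop}
    (hP : ∀ l : ℕ, |α - l| ≤ 1 → P l) (hQ : ∀ l : ℕ, |β - l| ≤ 1 → Q l)
    (hPQ : ∀ l, P l → Q l → False) : ∃ i j, P i ∧ Q j ∧ i ≤ j ∧ α ≤ i ∧ j ≤ β := by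
  have h1 := Nat.le_ceil α
  have h2 := Nat.ceil_lt_add_one hα
  have h3 := Nat.floor_le (hα.trans hαβ)
  have h4 := Nat.lt_floor_add_one β
  have h5 : Q ⌊β⌋₊ := hQ _ (abs_le.2 ⟨by linarith, by linarith⟩)
  refine ⟨⌈α⌉₊, ⌊β⌋₊, hP _ (abs_le.2 ⟨by linarith, by linarith⟩), h5, ?_, h1, h3⟩
  by_contra h
  have h6 : (⌊β⌋₊ : ℝ) + 1 ≤ ⌈α⌉₊ := by exact_mod_cast not_le.1 h
  exact hPQ _ (hP _ (abs_le.2 ⟨by linarith only [hαβ, h2, h4, h6], by linarith⟩)) h5

theorem br3_seg {H : SimpleGraph Site} {a b : Site} {q : H.Walk a b} (hq : q.IsPath) (s t : I)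
    {x : Site} {r' R' : ℕ} (h3 : r' < R')
    (hn : ∀ l : ℕ, |(s : ℝ) * q.length - l| ≤ 1 → dst x (q.getVert l) ≤ r')
    (hf : ∀ l : ℕ, |(t : ℝ) * q.length - l| ≤ 1 → R' ≤ dst x (q.getVert l)) :
    ∃ (a' b' : Site) (w : H.Walk a' b'), (w.IsPath ∧ dst x a' ≤ r' ∧ R' ≤ dst x b') ∧
      ∀ e ∈ w.edges, ∃ l < q.length, ((min s t : I) : ℝ) * q.length ≤ l ∧
        (l + 1 : ℝ) ≤ ((max s t : I) : ℝ) * q.length ∧ e = s(q.getVert l, q.getVert (l + 1)) := by
  have hn0 : (0 : ℝ) ≤ q.length := Nat.cast_nonneg _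
  have key : ∃ i j : ℕ, dst x (q.getVert i) ≤ r' ∧ R' ≤ dst x (q.getVert j) ∧
      ((min s t : I) : ℝ) * q.length ≤ (min i j : ℕ) ∧
      ((max i j : ℕ) : ℝ) ≤ ((max s t : I) : ℝ) * q.length := by
    rcases le_total s t with h | h
    · obtain ⟨i, j, h4, h5, h6, h7, h8⟩ := br3_idx (mul_nonneg s.2.1 hn0)
        (mul_le_mul_of_nonneg_right (show (s : ℝ) ≤ t from h) hn0) hn hf fun l h h' => by omega
      refine ⟨i, j, h4, h5, ?_⟩
      rw [min_eq_left h, max_eq_right h, min_eq_left h6, max_eq_right h6]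
      exact ⟨h7, h8⟩
    · obtain ⟨j, i, h4, h5, h6, h7, h8⟩ := br3_idx (mul_nonneg t.2.1 hn0)
        (mul_le_mul_of_nonneg_right (show (t : ℝ) ≤ s from h) hn0) hf hn fun l h h' => by omega
      refine ⟨i, j, h5, h4, ?_⟩
      rw [min_eq_right h, max_eq_left h, min_eq_right h6, max_eq_left h6]
      exact ⟨h7, h8⟩
  obtain ⟨i, j, h4, h5, h6, h7⟩ := key
  obtain ⟨w, hw, he⟩ := exists_subpath hq i j
  refine ⟨_, _, w, ⟨hw, h4, h5⟩, fun e he' => ?_⟩
  obtain ⟨l, h8, h9, h10, rfl⟩ := he e he'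
  exact ⟨l, h10, h6.trans (by exact_mod_cast h8), le_trans (by exact_mod_cast h9) h7, rfl⟩

theorem br3_ne {H : SimpleGraph Site} {a b : Site} {q : H.Walk a b} (hq : q.IsPath) {l m : ℕ}
    (hlm : l < m) (hm : m < q.length) :
    s(q.getVert l, q.getVert (l + 1)) ≠ s(q.getVert m, q.getVert (m + 1)) := by
  intro h
  rcases Sym2.eq_iff.1 h with h | h
  · have := hq.getVert_injOn (show l ≤ q.length by omega) (show m ≤ q.length by omega) h.1
    omega
  · have := hq.getVert_injOn (show l ≤ q.length by omega) (show m + 1 ≤ q.length by omega) h.1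
    omega

theorem earms_of_seg {H : SimpleGraph Site} (hH : H ≤ G) {η : ℝ} (hη : 0 < η) {f : Imm}
    (hf : InTree H η f) {z : ℂ} {k r R : ℝ} (hz : ‖z‖ ≤ k) (hr : r * (1 + k) ≤ 1)
    (h : Seg f (stereo z) r R) {ρ r' R' : ℕ} (hρ : 2 * (k / η) + 4 ≤ ρ)
    (h1 : 2 * (r * (1 + k) ^ 2 / η) + 8 ≤ r') (h2 : (R' : ℝ) + 2 ≤ R / η / 4) (h3 : r' < R') :
    ∃ x ∈ ball 0 ρ, EArms H x r' R' := by
  obtain ⟨a, p, -, hp, hdis⟩ := hf
  obtain ⟨u, v, s, t, huv, hord⟩ := h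
  obtain ⟨x, hx⟩ := exists_site_near (z / η)
  have hη' : (η : ℂ) ≠ 0 := Complex.ofReal_ne_zero.2 hη.ne'
  have hsc : ∀ w : ℂ, ‖w - z / η‖ = ‖η * w - z‖ / η := fun w => by
    rw [show w - z / η = (η * w - z) / η by field_simp, norm_div, Complex.norm_real,
      Real.norm_of_nonneg hη.le]
  refine ⟨x, ?_, ?_⟩
  · have h4 := dst_le_norm 0 x
    have h5 : emb 0 = 0 := by simp [emb]
    have h6 : ‖z / η‖ ≤ k / η := by
      rw [norm_div, Complex.norm_real, Real.norm_of_nonneg hη.le]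
      gcongr
    have h7 := norm_add_le (emb x - z / η) (z / η)
    rw [sub_add_cancel] at h7
    rw [h5, zero_sub, norm_neg] at h4
    exact_mod_cast (show (dst 0 x : ℝ) ≤ ρ by linarith only [hρ, hx, h4, h6, h7])
  have key := fun i => br3_seg (hp _ _ (huv i).1).1 (s i) (t i) (x := x) h3
    (fun l hl => by
      have h4 := poly_near hH _ _ hl
      have h5 := (huv i).2.1
      rw [(hp _ _ (huv i).1).2] at h5
      have h6 := div_le_div_of_nonneg_right (norm_le_of_stereo hz hr h5) hη.le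
      rw [← hsc] at h6
      have h7 := dst_le_norm x ((p _ _ (huv i).1).getVert l)
      have h8 := dist_triangle4 (emb x) (z / η) (poly (p _ _ (huv i).1) (s i))
        (emb ((p _ _ (huv i).1).getVert l))
      rw [dist_comm (z / η)] at h8
      simp only [dist_eq_norm] at h8
      exact_mod_cast (show (dst x ((p _ _ (huv i).1).getVert l) : ℝ) ≤ r' by linarith only [huv, h1, hx, h4, h6, h7, h8]))
    (fun l hl => by
      have h4 := poly_near hH _ _ hl
      have h5 := (huv i).2.2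
      rw [(hp _ _ (huv i).1).2] at h5
      have h6 := div_le_div_of_nonneg_right (h5.le.trans (dist_stereo_le _ _)) hη.le
      rw [mul_div_assoc, ← hsc] at h6
      have h7 := norm_le_dst x ((p _ _ (huv i).1).getVert l)
      have h8 := dist_triangle4 (poly (p _ _ (huv i).1) (t i))
        (emb ((p _ _ (huv i).1).getVert l)) (emb x) (z / η)
      rw [dist_comm _ (emb x)] at h8
      simp only [dist_eq_norm] at h8
      exact_mod_cast (show (R' : ℝ) ≤ dst x ((p _ _ (huv i).1).getVert l) by linarith only [huv, h2, hx, h4, h6, h7, h8]))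
  choose a' b' w hw he using key
  refine ⟨a', b', w, hw, fun i j hij e hi hj => ?_⟩
  obtain ⟨l, hl, hl1, hl2, rfl⟩ := he i e hi
  obtain ⟨m, hm, hm1, hm2, hlm⟩ := he j _ hj
  by_cases hs : s(u i, v i) = s(u j, v j)
  · obtain ⟨e1, e2, e3⟩ := hord i j hij hs
    have e4 : ∀ u v h u' v' h', u = u' → v = v' → (p u v h).getVert = (p u' v' h').getVert ∧
        (p u v h).length = (p u' v' h').length := by
      rintro u v h _ _ h' rfl rfl
      exact ⟨rfl, rfl⟩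
    obtain ⟨e5, e6⟩ := e4 _ _ (huv i).1 _ _ (huv j).1 e1 e2
    rw [e5] at hlm
    rw [e6] at hl hl1 hl2
    have hn0 : (0 : ℝ) ≤ (p _ _ (huv j).1).length := Nat.cast_nonneg _
    rcases e3 with e3 | e3
    · have := mul_le_mul_of_nonneg_right (Subtype.coe_le_coe.2 e3) hn0
      exact br3_ne (hp _ _ (huv j).1).1
        (by exact_mod_cast (show (l : ℝ) < m by linarith only [huv, hl2, hm1, this])) hm hlm
    · have := mul_le_mul_of_nonneg_right (Subtype.coe_le_coe.2 e3) hn0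
      exact br3_ne (hp _ _ (huv j).1).1
        (by exact_mod_cast (show (m : ℝ) < l by linarith only [huv, hl1, hm2, this])) hl hlm.symm
  · exact hdis _ _ (huv i).1 _ _ (huv j).1 hs
      ((SimpleGraph.Walk.mk_mem_edges_iff_exists _).2 ⟨l, hl, rfl⟩)
      ((SimpleGraph.Walk.mk_mem_edges_iff_exists _).2 ⟨m, hm, hlm.symm⟩)

end Pool.Agent.Work.MP_ccd212_pr
end

-- merged part: Pool.Agent.Work.MP_ccd212_pr.Br4
section
/-! From uniform labels in the unit interval to finitely many labels. -/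

namespace Pool.Agent.Work.MP_ccd212_pr

open MeasureTheory
open scoped unitInterval

/-- Rounding of a label. -/
noncomputable def disc (m : ℕ) (x : I) : Fin (m + 1) :=
  ⟨min ⌊(x : ℝ) * (m + 1)⌋₊ m, Nat.lt_succ_of_le (min_le_right _ _)⟩

theorem disc_mono (m : ℕ) : Monotone (disc m) := fun _ _ h =>
  min_le_min_right m (Nat.floor_mono (mul_le_mul_of_nonneg_right h (by positivity)))

private theorem br4_vol (m : ℕ) (k : Fin (m + 1)) :
    volume (disc m ⁻¹' {k}) = ENNReal.ofReal (1 / (m + 1 : ℝ)) := by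
  have hm : (0 : ℝ) < m + 1 := by positivity
  have hk : (k : ℝ) + 1 ≤ m + 1 := by exact_mod_cast k.isLt
  have hk0 : (0 : ℝ) ≤ k := Nat.cast_nonneg _
  let a : I := ⟨k / (m + 1), by positivity, (div_le_one hm).2 (by linarith)⟩
  let b : I := ⟨(k + 1) / (m + 1), by positivity, (div_le_one hm).2 hk⟩
  have hab : (b : ℝ) - a = 1 / (m + 1 : ℝ) := by
    simp only [a, b]
    ring
  refine le_antisymm ?_ ?_
  · rw [← hab, ← unitInterval.volume_Icc]
    refine measure_mono fun x hx => ?_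
    have hx' : min ⌊(x : ℝ) * (m + 1)⌋₊ m = k := congrArg Fin.val (Set.mem_singleton_iff.1 hx)
    have hx0 : 0 ≤ (x : ℝ) * (m + 1) := mul_nonneg x.2.1 hm.le
    refine ⟨?_, ?_⟩
    · change (k : ℝ) / (m + 1) ≤ x
      rw [div_le_iff₀ hm, ← Nat.le_floor_iff hx0, ← hx']
      exact min_le_left _ _
    · change (x : ℝ) ≤ (k + 1) / (m + 1)
      rw [le_div_iff₀ hm]
      rcases min_cases ⌊(x : ℝ) * (m + 1)⌋₊ m with h | h
      · rw [← hx', h.1]
        exact (Nat.lt_floor_add_one _).le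
      · rw [← hx', h.1]
        exact mul_le_of_le_one_left hm.le x.2.2
  · rw [← hab, ← unitInterval.volume_Ico]
    refine measure_mono fun x hx => ?_
    have h1 : (k : ℝ) / (m + 1) ≤ x := hx.1
    have h2 : (x : ℝ) < (k + 1) / (m + 1) := hx.2
    rw [div_le_iff₀ hm] at h1
    rw [lt_div_iff₀ hm] at h2
    have h3 : ⌊(x : ℝ) * (m + 1)⌋₊ = k := (Nat.floor_eq_iff (hk0.trans h1)).2 ⟨h1, h2⟩
    refine Set.mem_singleton_iff.2 (Fin.ext ?_)
    change min ⌊(x : ℝ) * (m + 1)⌋₊ m = k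
    rw [h3]
    exact min_eq_left (Nat.le_of_lt_succ k.isLt)

theorem labelLaw_disc (m : ℕ) {E : Set (Site → Fin (m + 1))} (hE : Loc E) :
    labelLaw {V | (fun v => disc m (V v)) ∈ E} = ENNReal.ofReal (pr (unif m) E) := by
  let _ : MeasurableSpace (Fin (m + 1)) := ⊤
  have hgm : Measurable (disc m) := measurable_to_countable' fun k =>
    (Set.ordConnected_singleton.preimage_mono (disc_mono m)).measurableSet
  have hgm' : Measurable fun (x : Site → I) (i : Site) => disc m (x i) :=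
    measurable_pi_lambda _ fun v => hgm.comp (measurable_pi_apply v)
  have hm : (volume : Measure I).map (disc m) = (unif m).meas := by
    refine Measure.ext_of_singleton fun k => ?_
    rw [Measure.map_apply hgm trivial, br4_vol, PW.meas_apply, PW.mass_singleton]
    rfl
  have h := Measure.infinitePi_map_pi (fun _ : Site => (volume : Measure I))
    (f := fun _ => disc m) (fun _ => hgm)
  simp only [hm] at h
  rw [pr, ENNReal.ofReal_toReal (measure_ne_top _ _)]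
  unfold PW.prod labelLaw
  rw [← h, Measure.map_apply hgm' hE.measurableSet]
  rfl

private theorem br4_cut {T H : SimpleGraph Site} {x : Site} {R : ℕ} (hT : T ≤ G)
    (hH : ∀ u v, T.Adj u v → dst x u ≤ R → dst x v ≤ R → H.Adj u v) {a b : Site}
    (w : T.Walk a b) (hw : w.IsPath) (ha : dst x a ≤ R) (hb : R ≤ dst x b) :
    ∃ (b' : Site) (w' : H.Walk a b'), w'.IsPath ∧ R ≤ dst x b' ∧ w'.support ⊆ w.support ∧
      w'.edges ⊆ w.edges := by
  induction w with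
  | nil => exact ⟨_, .nil, .nil, hb, by simp, by simp⟩
  | @cons u v _ h p ih =>
    by_cases hu : R ≤ dst x u
    · exact ⟨_, .nil, .nil, hu, by simp, by simp⟩
    have hv : dst x v ≤ R := by
      have := Adj.dst_le (hT h) x
      omega
    rw [SimpleGraph.Walk.cons_isPath_iff] at hw
    obtain ⟨b', w', h1, h2, h3, h4⟩ := ih hw.1 hv hb
    refine ⟨b', .cons (hH u v h ha hv) w', ?_, h2, ?_, ?_⟩
    · rw [SimpleGraph.Walk.cons_isPath_iff]
      exact ⟨h1, fun h5 => hw.2 (h3 h5)⟩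
    · simp only [SimpleGraph.Walk.support_cons]
      exact List.cons_subset_cons _ h3
    · simp only [SimpleGraph.Walk.edges_cons]
      exact List.cons_subset_cons _ h4

theorem EArms.truncate {β : Type} [LinearOrder β] {V : Site → β} {x : Site} {r R : ℕ} (hr : r ≤ R)
    {Λ : Set Site} (hΛ : ball x R ⊆ Λ) (h : EArms (mstG Set.univ V) x r R) :
    EArms (mstG Λ V) x r R := by
  obtain ⟨a, b, w, h1, h2⟩ := h
  choose b' w' k1 k2 _ k4 using fun i => br4_cut (H := mstG Λ V) mst_le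
    (fun u v huv hu hv => mst_mono_dom (Set.subset_univ _) huv (hΛ hu) (hΛ hv)) (w i) (h1 i).1
    ((h1 i).2.1.trans hr) (h1 i).2.2
  exact ⟨a, b', w', fun i => ⟨k1 i, (h1 i).2.1, k2 i⟩,
    fun i j hij e he he' => h2 i j hij (k4 i he) (k4 j he')⟩

theorem label_small (hH : Hyp EArms) (c : ℕ) {ε : ℝ} (hε : 0 < ε) :
    ∃ L n0 : ℕ, 1 ≤ L ∧ ∀ a, n0 ≤ a → ∀ ρ, ρ ≤ c * a →
      labelLaw {V | ∃ x ∈ ball 0 ρ, EArms (mstG Set.univ V) x (a / L) a} ≤ ENNReal.ofReal ε := by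
  obtain ⟨L, n0, hL, h⟩ := hH c (ε / 2) (half_pos hε)
  refine ⟨L, n0, hL, fun a ha ρ hρ => ?_⟩
  obtain ⟨M0, hM0⟩ := h a ha ρ hρ (ρ + 2 * a) le_rfl
  set N := ρ + 2 * a with hN
  obtain ⟨M1, hM1⟩ := exists_nat_ge ((2 * N + 1 : ℝ) ^ 4 / ε)
  set M := M0 + M1 + 1 with hM
  have h1 := hM0 M (by omega)
  have h2 := pr_ties M N (by omega)
  have h3 : (2 * N + 1 : ℝ) ^ 4 / (2 * M) ≤ ε / 2 := by
    have h4 : (M1 : ℝ) ≤ M := by exact_mod_cast (by omega : M1 ≤ M)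
    have h5 : (0 : ℝ) < M := by exact_mod_cast (by omega : 0 < M)
    rw [div_le_iff₀ hε] at hM1
    rw [div_le_iff₀ (by positivity)]
    linarith only [hM1, hε, h4, mul_nonneg_of_nonpos_of_nonpos (le_of_lt (Mathlib.Tactic.Linarith.sub_neg_of_lt hε)) (Mathlib.Tactic.Linarith.sub_nonpos_of_le h4)]
  have l1 : Loc {ω : Site → Fin (2 * M - 1 + 1) | ∃ x ∈ ball 0 ρ, EArms (tr N ω) x (a / L) a} :=
    loc_tr N fun T => ∃ x ∈ ball 0 ρ, EArms T x (a / L) a
  have l2 : Loc {ω : Site → Fin (2 * M - 1 + 1) | ¬ Set.InjOn ω (ball 0 N)} :=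
    ⟨ball 0 N, ball_finite _ _, fun ω ω' he hω hi => hω fun u hu v hv huv =>
      hi hu hv (by rw [← he u hu, ← he v hv, huv])⟩
  refine le_trans (measure_mono ?_) ((labelLaw_disc _ (l1.union l2)).trans_le
    (ENNReal.ofReal_le_ofReal ((pr_union_le _ _ _).trans (by linarith only [h1, h2, h3]))))
  rintro V ⟨x, hx, hV⟩
  by_cases hi : Set.InjOn (fun v => disc (2 * M - 1) (V v)) (ball 0 N)
  · refine Or.inl ⟨x, hx, ?_⟩
    have hsub : ball x a ⊆ ball 0 N := fun v hv => by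
      have := dst_triangle 0 x v
      rw [mem_ball] at hx hv ⊢
      omega
    have he : mstG (ball 0 N) V = tr N fun v => disc (2 * M - 1) (V v) := by
      refine mst_congr fun u hu v hv => ⟨fun huv => ?_, fun huv => (disc_mono _).reflect_lt huv⟩
      exact lt_of_le_of_ne (disc_mono _ huv.le) fun e => huv.ne (by rw [hi hu hv e])
    rw [← he]
    exact hV.truncate (Nat.div_le_self _ _) hsub
  · exact Or.inr hi

end Pool.Agent.Work.MP_ccd212_pr
end
end

-- merged part: Pool.Agent.Work.MP_ccd212_pr.Main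
section
-- merged part: Pool.Agent.Work.MP_ccd212_pr.Dual2
section
/-! Creating a three-coloured face. -/

namespace Pool.Agent.Work.MP_ccd212_pr

private theorem d2_dst {f : Face} {u v : Site} (hu : InF f u) (hv : InF f v) : dst u v ≤ 1 := by
  by_cases h : u = v
  · rw [h, dst_self]
    exact zero_le_one
  · exact (hu.adj hv h).dst_eq.le

private theorem d2_dst1 {f : Face} {v : Site} (hv : InF f v) : dst f.1 v ≤ 1 := by
  unfold InF at hv
  unfold dst
  omega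

private theorem d2_conn {f : Face} {X : Set Site} {a u v : Site} (h : Conn X a u) (hu : InF f u)
    (hv : InF f v) (hX : v ∈ X) : Conn X a v := by
  by_cases e : u = v
  · exact e ▸ h
  · exact h.tail (hu.adj hv e) hX

/-- A tree path between two inner points, closed up inside the inner box, colours the faces. -/
private theorem d2_close {T : SimpleGraph Site} (hT : T ≤ G) {g a b : Site} {r : ℕ}
    (ha : a ∈ ball g r) (hb : b ∈ ball g r) (p : T.Walk a b) :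
    ∃ c : Face → ZMod 2, ∀ f f' x y, Shares f f' x y → r < dst g x →
      c f + c f' = (p.edges.count s(x, y) : ℕ) := by
  have hc : IsConn (ball g r) := by
    rw [ball_eq_rect]
    exact isConn_rect _ _ _ _
  obtain ⟨q, hq⟩ := hc b hb a ha
  refine ⟨wind ((p.mapLe hT).append q), fun f f' x y e hx => ?_⟩
  rw [wind_shares _ e, mult_append, mult_eq_zero q fun h => absurd (hq x h) (not_le.2 hx),
    add_zero, mult, SimpleGraph.Walk.edges_mapLe_eq_edges]

/-- A simple path that leaves the outer box has a far edge. -/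
private theorem d2_far {T : SimpleGraph Site} {g a b : Site} {R : ℕ} (hb : b ∈ ball g R)
    (hn : ¬ HC T (ball g R) a b) {p : T.Walk a b} (hp : p.IsPath) :
    ∃ x y, R < dst g x ∧ T.Adj x y ∧ p.edges.count s(x, y) = 1 := by
  have h1 : ∃ x ∈ p.support, R < dst g x := by
    by_contra h
    exact hn ⟨p, fun v hv => not_lt.1 fun hl => h ⟨v, hv, hl⟩⟩
  obtain ⟨x, hx, hd⟩ := h1
  rcases SimpleGraph.Walk.mem_support_iff_exists_mem_edges.1 hx with e | ⟨e, he, hxe⟩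
  · exact absurd hb (not_le.2 (e ▸ hd))
  · obtain ⟨y, rfl⟩ := Sym2.mem_iff_exists.1 hxe
    exact ⟨x, y, hd, p.adj_of_mem_edges he, hp.isTrail.count_edges_eq_one he⟩

private theorem d2_fin : ∀ a1 a2 b1 b2 c1 c2 d1 d2 : ZMod 2,
    (a1 + b1, a2 + b2) ≠ (0, 0) → (c1 + d1, c2 + d2) ≠ (0, 0) →
    (a1 + b1, a2 + b2) ≠ (c1 + d1, c2 + d2) → (a1, a2) ≠ (b1, b2) ∧
      (((a1, a2) ≠ (c1, c2) ∧ (b1, b2) ≠ (c1, c2)) ∨
        ((a1, a2) ≠ (d1, d2) ∧ (b1, b2) ≠ (d1, d2))) := by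
  decide

private theorem d2_fin2 : ∀ a b c : ZMod 2, (((1 : ZMod 2), a) ≠ (0, 0) ∧ (b, (1 : ZMod 2)) ≠ (0, 0) ∧
    (c, c + 1) ≠ (0, 0)) ∧ (((1 : ZMod 2), a) ≠ (b, 1) ∨ ((1 : ZMod 2), a) ≠ (c, c + 1)) := by
  decide

private theorem d2_three {α : Type} {Q : Face → Prop} {c : Face → α} {f0 f1 f2 : Face} (q0 : Q f0)
    (q1 : Q f1) (q2 : Q f2) (h01 : c f0 ≠ c f1) (h02 : c f0 ≠ c f2) (h12 : c f1 ≠ c f2) :
    ∃ F : Fin 3 → Face, (∀ i, Q (F i)) ∧ ∀ i j, i ≠ j → c (F i) ≠ c (F j) := by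
  refine ⟨![f0, f1, f2], fun i => ?_, fun i j hij => ?_⟩
  · fin_cases i
    exacts [q0, q1, q2]
  · fin_cases i <;> fin_cases j
    exacts [(hij rfl).elim, h01, h02, h01.symm, (hij rfl).elim, h12, h02.symm, h12.symm,
      (hij rfl).elim]

/-- Three inner points that are joined only far away give three far faces that are not joined
by dual edges away from the inner box. -/
theorem three_far_faces {T : SimpleGraph Site} {Λ : Set Site} (hT : Span T Λ) {g : Site} {r R : ℕ}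
    (hr : r ≤ R) {u : Fin 3 → Site} (hu : ∀ i, u i ∈ ball g r ∧ u i ∈ Λ)
    (hn : ∀ i j, i ≠ j → ¬ HC T (ball g R) (u i) (u j)) :
    ∃ F : Fin 3 → Face, (∀ i, ∃ v, InF (F i) v ∧ R < dst g v) ∧ ∀ i j, i ≠ j →
      ¬ HC (dualG T) {f | ∀ v, InF f v → r < dst g v} (F i) (F j) := by
  have hR : ∀ i, u i ∈ ball g R := fun i => le_trans (hu i).1 hr
  obtain ⟨p0, hp0, -⟩ := (hT.conn _ (hu 0).2 _ (hu 1).2).exists_path
  obtain ⟨p1, hp1, -⟩ := (hT.conn _ (hu 1).2 _ (hu 2).2).exists_path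
  obtain ⟨p2, hp2, -⟩ := (hT.conn _ (hu 2).2 _ (hu 0).2).exists_path
  obtain ⟨c0, hc0⟩ := d2_close hT.le (hu 0).1 (hu 1).1 p0
  obtain ⟨c1, hc1⟩ := d2_close hT.le (hu 1).1 (hu 2).1 p1
  have hev : ∀ e, p2.edges.count e = 1 →
      ((p1.edges.count e : ℕ) : ZMod 2) = (p0.edges.count e : ℕ) + 1 := fun e he => by
    have h1 := even_count hT.acyclic (p0.append (p1.append p2)) e
    rw [SimpleGraph.Walk.edges_append, SimpleGraph.Walk.edges_append, List.count_append,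
      List.count_append, he] at h1
    have h2 := (ZMod.natCast_eq_zero_iff_even).2 h1
    have h3 := CharTwo.add_self_eq_zero (R := ZMod 2) (p1.edges.count e : ℕ)
    have h4 := CharTwo.add_self_eq_zero (R := ZMod 2) (p0.edges.count e : ℕ)
    have h5 := CharTwo.add_self_eq_zero (R := ZMod 2) 1
    push_cast at h2
    linear_combination h2 - h4 - h5
  have key : ∀ x y x' y', R < dst g x → R < dst g x' → T.Adj x y → T.Adj x' y' →
      (((p0.edges.count s(x, y) : ℕ) : ZMod 2), ((p1.edges.count s(x, y) : ℕ) : ZMod 2)) ≠ (0, 0) →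
      (((p0.edges.count s(x', y') : ℕ) : ZMod 2), ((p1.edges.count s(x', y') : ℕ) : ZMod 2)) ≠
        (0, 0) →
      (((p0.edges.count s(x, y) : ℕ) : ZMod 2), ((p1.edges.count s(x, y) : ℕ) : ZMod 2)) ≠
        (((p0.edges.count s(x', y') : ℕ) : ZMod 2), ((p1.edges.count s(x', y') : ℕ) : ZMod 2)) →
      ∃ F : Fin 3 → Face, (∀ i, ∃ v, InF (F i) v ∧ R < dst g v) ∧ ∀ i j, i ≠ j →
        (c0 (F i), c1 (F i)) ≠ (c0 (F j), c1 (F j)) := by
    intro x y x' y' hx hx' hxy hxy' n1 n2 n3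
    obtain ⟨f1, f2, e⟩ := Adj.exists_shares (hT.le hxy)
    obtain ⟨f3, f4, e'⟩ := Adj.exists_shares (hT.le hxy')
    rw [← hc0 _ _ _ _ e (by omega), ← hc1 _ _ _ _ e (by omega)] at n1 n3
    rw [← hc0 _ _ _ _ e' (by omega), ← hc1 _ _ _ _ e' (by omega)] at n2 n3
    obtain ⟨k1, k2 | k2⟩ := d2_fin _ _ _ _ _ _ _ _ n1 n2 n3
    · exact d2_three (Q := fun f => ∃ v, InF f v ∧ R < dst g v) (c := fun f => (c0 f, c1 f))
        ⟨x, e.2.2.1, hx⟩ ⟨x, e.2.2.2.2.1, hx⟩ ⟨x', e'.2.2.1, hx'⟩ k1 k2.1 k2.2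
    · exact d2_three (Q := fun f => ∃ v, InF f v ∧ R < dst g v) (c := fun f => (c0 f, c1 f))
        ⟨x, e.2.2.1, hx⟩ ⟨x, e.2.2.2.2.1, hx⟩ ⟨x', e'.2.2.2.2.1, hx'⟩ k1 k2.1 k2.2
  obtain ⟨x0, y0, a0, b0, e0⟩ := d2_far (hR 1) (hn 0 1 (by decide)) hp0
  obtain ⟨x1, y1, a1, b1, e1⟩ := d2_far (hR 2) (hn 1 2 (by decide)) hp1
  obtain ⟨x2, y2, a2, b2, e2⟩ := d2_far (hR 0) (hn 2 0 (by decide)) hp2
  obtain ⟨F, hF, hc⟩ : ∃ F : Fin 3 → Face, (∀ i, ∃ v, InF (F i) v ∧ R < dst g v) ∧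
      ∀ i j, i ≠ j → (c0 (F i), c1 (F i)) ≠ (c0 (F j), c1 (F j)) := by
    obtain ⟨⟨n0, n1, n2⟩, n3 | n3⟩ := d2_fin2 (p1.edges.count s(x0, y0) : ℕ)
      (p0.edges.count s(x1, y1) : ℕ) (p0.edges.count s(x2, y2) : ℕ)
    · refine key x0 y0 x1 y1 a0 a1 b0 b1 ?_ ?_ ?_
      · rwa [e0, Nat.cast_one]
      · rwa [e1, Nat.cast_one]
      · rwa [e0, e1, Nat.cast_one]
    · refine key x0 y0 x2 y2 a0 a2 b0 b2 ?_ ?_ ?_
      · rwa [e0, Nat.cast_one]
      · rwa [hev _ e2]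
      · rwa [e0, hev _ e2, Nat.cast_one]
  refine ⟨F, hF, fun i j hij hj => hc i j hij ?_⟩
  refine hj.ind (P := fun f => (c0 (F i), c1 (F i)) = (c0 f, c1 f)) rfl fun f f' hf _ hff hp => ?_
  obtain ⟨x, y, e, hxy⟩ := hff
  have hx : r < dst g x := hf.right_mem x e.2.2.1
  have k0 := hc0 _ _ _ _ e hx
  have k1 := hc1 _ _ _ _ e hx
  rw [List.count_eq_zero.2 fun h => hxy (p0.adj_of_mem_edges h), Nat.cast_zero] at k0
  rw [List.count_eq_zero.2 fun h => hxy (p1.adj_of_mem_edges h), Nat.cast_zero] at k1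
  have h0 := CharTwo.add_self_eq_zero (R := ZMod 2) (c0 f')
  have h1 := CharTwo.add_self_eq_zero (R := ZMod 2) (c1 f')
  rw [hp, show c0 f = c0 f' by linear_combination k0 - h0,
    show c1 f = c1 f' by linear_combination k1 - h1]

variable {M N H k0 s ρ : ℕ} {ω : Site → Fin (2 * M - 1 + 1)} {g : Site} {S : Finset Site}

/-- After raising `S0` a cluster of high sites of the zone blocks the fat ring and contains `S0`. -/
theorem Zone.high_blocker (h : Zone ω N H k0 g s) (h0 : IsS0 ω M H g s S) :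
    ∃ z0, (∀ v, Conn (lev (mv true H S ω) (M + H))ᶜ z0 v → v ∈ ann g s (9 * s - 1)) ∧
      (∀ v ∈ S, Conn (lev (mv true H S ω) (M + H))ᶜ z0 v) ∧
      Conn (lev (mv true H S ω) (M + H))ᶜ z0 z0 ∧
      ¬ Arm {v | Conn (lev (mv true H S ω) (M + H))ᶜ z0 v}ᶜ g (4 * s) (7 * s) := by
  have hs := h.hs
  rw [h.lev_up h0.sub]
  obtain ⟨K, k1, k2, k3⟩ := ring_dual (by omega) (by omega) h0.kill
  have hit : ∀ X : Set Site, Arm X g (4 * s) (7 * s) → ∃ y ∈ K, y ∈ X := fun X hX => by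
    by_contra hn
    exact k3 (hX.mono fun v hv hv' => hn ⟨v, hv', hv⟩)
  obtain ⟨z0, hz, -⟩ := hit _ (h.good.radial.mono_ring (by omega) (by omega) (by omega))
  have hK : ∀ v ∈ K, Conn (lev ω (M + H) \ S)ᶜ z0 v := fun v hv =>
    (k2 z0 hz v hv).mono fun x hx => (k1 hx).1
  have off : ∀ a b, (b < 5 * s ∨ 6 * s < a) → ¬ Arm (lev ω (M + H))ᶜ g a b →
      ¬ Arm (lev ω (M + H) \ S)ᶜ g a b := fun a b hab hA hB => by
    refine hA (sup_Arm g a b _ _ (fun v hv => ?_) hB)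
    refine ⟨fun h1 h2 => h1 ⟨h2, fun h3 => ?_⟩, fun h1 h2 => h1 h2.1⟩
    have m1 := (h0.sub h3).1.1
    have m2 := (h0.sub h3).1.2
    have m3 := hv.1
    have m4 := hv.2
    omega
  refine ⟨z0, fun v hv => ?_, fun v hv => ?_, hK z0 hz, fun hA => k3 (hA.mono ?_)⟩
  · have m1 := (k1 hz).2.1
    have m2 := (k1 hz).2.2
    exact (confined (by omega) (off _ _ (by omega) h.good.hi_in) (off _ _ (by omega) h.good.hi_out)
      ⟨by omega, by omega⟩ hv).right_mem.2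
  · obtain ⟨y, hy, hy'⟩ := hit _ (h0.min v hv)
    have e : y = v := by
      by_contra hne
      exact (k1 hy).1 ⟨hy'.1, fun h3 => hy'.2 ⟨h3, hne⟩⟩
    exact hK v (e ▸ hy)
  · exact fun v hv hv' => hv (hK v hv')

theorem raise_all_face (h : Zone ω N H k0 g s) (h0 : IsS0 ω M H g s S) (hρ : 1 ≤ ρ)
    {u : Fin 3 → Site} (hu : ∀ i, dst g (u i) < s)
    (hn : ∀ i j, i ≠ j → ¬ HC (tr N ω) (ball g (ρ + 9 * s)) (u i) (u j)) :
    ∃ F : Face, dst g F.1 ≤ 9 * s ∧ Face3 (tr N (mv true H S ω)) F ρ := by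
  have hs := h.hs
  have sp' : Span (tr N (mv true H S ω)) (ball 0 N) := tr_span (h.mv_props true h0.sub).2.1
  obtain ⟨F, hF, hFF⟩ := three_far_faces h.span (r := s - 1) (by omega)
    (fun i => by
      have := hu i
      exact ⟨show dst g (u i) ≤ s - 1 by omega, h.sub (show dst g (u i) ≤ 9 * s + 1 by omega)⟩) hn
  choose v hv hv' using hF
  obtain ⟨z0, z1, z2, z3, z4⟩ := h.high_blocker h0
  set X := (lev (mv true H S ω) (M + H))ᶜ with hX
  set K : Set Face := {f | ∃ x, Conn X z0 x ∧ InF f x} with hK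
  have cK : ∀ a ∈ K, ∀ b ∈ K, HC (dualG (tr N (mv true H S ω))) K a b := fun a ha b hb =>
    dual_high (V := mv true H S ω) (D := {x | ¬ (x : ℕ) < M + H}) (ball_finite 0 N) sp'
      (fun _ _ hab ha hb => ha (lt_of_le_of_lt hab hb))
      (fun x hx y hy => h.sub (by
        have m1 := (z1 x hx).2
        have m2 := dst_triangle g x y
        rw [mem_ball] at hy ⊢
        omega)) ha hb
  have nK : ∀ i, F i ∉ K := fun i ⟨x, hx, hx'⟩ => by
    have m1 := (z1 x hx).2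
    have m2 := dst_triangle g x (v i)
    have m3 := d2_dst hx' (hv i)
    have m4 := hv' i
    omega
  obtain ⟨f0, hf0⟩ := exists_inF z0
  have ex : ∀ i, ∃ y k, k ∈ K ∧ (dualG (tr N (mv true H S ω))).Adj k y ∧
      HC (dualG (tr N (mv true H S ω))) Kᶜ (F i) y := fun i => by
    obtain ⟨y, k, -, a2, a3, a4, -⟩ := (dual_conn (ball_finite 0 N) sp' (F i) f0).first_hit
      (nK i) ⟨z0, z3, hf0⟩
    exact ⟨y, k, a2, a3.symm, a4.mono fun f hf => hf.2⟩
  choose y k hk hadj hy using ex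
  have far : ∀ i f, HC (dualG (tr N (mv true H S ω))) Kᶜ (F i) f →
      ∀ x, InF f x → s - 1 < dst g x := fun i f hf x hx => by
    have c1 : ∀ x, InF f x → Conn {v | Conn X z0 v}ᶜ (v i) x :=
      hf.ind (P := fun f => ∀ x, InF f x → Conn {v | Conn X z0 v}ᶜ (v i) x)
        (fun x hx => d2_conn (Conn.refl fun hc => nK i ⟨_, hc, hv i⟩) (hv i) hx
          fun hc => nK i ⟨_, hc, hx⟩)
        fun f1 f2 _ h2 ⟨a, b, e, _⟩ ih x hx =>
          d2_conn (ih a e.2.2.1) e.2.2.2.2.1 hx fun hc => h2 ⟨_, hc, hx⟩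
    by_contra hlt
    have m4 := hv' i
    exact z4 ((c1 x hx).symm.arm (by omega) (Or.inl (by omega)) (by omega))
  have old : ∀ i f, HC (dualG (tr N (mv true H S ω))) Kᶜ (F i) f →
      HC (dualG (tr N ω)) {f | ∀ x, InF f x → s - 1 < dst g x} (F i) f := fun i f hf =>
    ((hf.inter_of (far i)).transfer (H' := dualG (tr N ω))
      fun f1 f2 h1 _ ⟨a, b, e, hab⟩ => ⟨a, b, e, fun hab' => hab (h.adj_up h0.sub hab'
        (fun ha => h1.right_mem.1 ⟨a, z2 a ha, e.2.2.1⟩)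
        fun hb => h1.right_mem.1 ⟨b, z2 b hb, e.2.2.2.1⟩)⟩).mono Set.inter_subset_right
  obtain ⟨m, ⟨t, ht, ht'⟩, P, y', hP, hy'⟩ := tripod cK
    (O := fun i => {f | HC (dualG (tr N (mv true H S ω))) Kᶜ (F i) f})
    (fun i j hij => Set.disjoint_left.2 fun f h1 h2 =>
      hFF i j hij ((old i f h1).trans (old j f h2).symm))
    (fun i => Set.disjoint_left.2 fun f h1 => HC.right_mem h1) hk hadj
    fun i => (hy i).cluster.symm
  have m1 := (z1 t ht).2
  have m2 := dst_triangle g t m.1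
  have m3 := d2_dst1 ht'
  have m4 := dst_comm t m.1
  refine ⟨m, by omega, face3_of_dual_arms sp'.le hρ (P := P) (y := y') (z := F)
    (fun i j e => ?_) (fun i => (hy' i).2.2.1) (fun i => (hy' i).1) (fun i => (hy' i).2.2.2)
    fun i => ⟨v i, hv i, ?_⟩⟩
  · by_contra hne
    exact Set.disjoint_left.1 (hP i j hne) (hy' i).2.2.2.left_mem (e ▸ (hy' j).2.2.2.left_mem)
  · have m5 := hv' i
    have m6 := dst_triangle g m.1 (v i)
    omega

end Pool.Agent.Work.MP_ccd212_pr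
end

-- merged part: Pool.Agent.Work.MP_ccd212_pr.TwoDet
section
/-! One surgery at the innermost block creates a macroscopic centre with full triples. -/

namespace Pool.Agent.Work.MP_ccd212_pr

/-- The setting: `d` components cross `ann x r A`, the zone lies in `ball x R`, the macroscopic
scale is `n`, and there is no further arm in the buffer block. -/
structure Sett {M d : ℕ} (ω : Site → Fin (2 * M - 1 + 1)) (N H k0 : ℕ) (g : Site) (s : ℕ) (x : Site)
    (r R n A : ℕ) (a b : Fin d → Site) : Prop where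
  zone : Zone ω N H k0 g s
  comps : Comps (tr N ω) x r A a b
  hr : 1 ≤ r
  hin : dst x g + r < s
  hout : dst x g + 9 * s < R
  hR : 2 * R ≤ n
  hA : n + 2 ≤ A
  sub : ball x A ⊆ ball 0 N
  buf : ¬ DArms (d + 1) (tr N ω) x (n + 1) (A - 1)

/-- Radii of a triple of blocks between the zone and the macroscopic scale. -/
def Geo (R n r3 r2 r1 r0 : ℕ) : Prop :=
  2 * R ≤ r3 ∧ r3 + 3 ≤ r2 ∧ 9 * (r2 + 1) < r1 ∧ r1 + 3 ≤ r0 ∧ 2 * r0 ≤ n

/-- The two graphs have the same edges inside `S`. -/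
def Agree (T T' : SimpleGraph Site) (S : Set Site) : Prop := ∀ a ∈ S, ∀ b ∈ S, T.Adj a b ↔ T'.Adj a b

variable {M N H k0 s d r R n A : ℕ} {ω : Site → Fin (2 * M - 1 + 1)} {x g : Site}
  {a b : Fin d → Site}

theorem twoDet_congr {T T' : SimpleGraph Site} {c : Site} {r3 r0 : ℕ} {a' b' : Fin d → Site}
    (hc : Comps T c r3 r0 a' b') (hag : Agree T T' (ann c r3 r0)) : Comps T' c r3 r0 a' b' :=
  ⟨fun i => ⟨(hc.1 i).1, (hc.1 i).2.1, (hc_congr hag).1 (hc.1 i).2.2⟩,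
    fun i j hij hh => hc.2 i j hij ((hc_congr hag).2 hh)⟩

theorem twoDet_three (hd : 4 ≤ d) (j0 : Fin d) :
    ∃ e : Fin 3 → Fin d, Function.Injective e ∧ ∀ i, e i ≠ j0 := by
  obtain ⟨d', rfl⟩ : ∃ d', d = d' + 1 := ⟨d - 1, by omega⟩
  have h3 : 3 ≤ d' := by omega
  exact ⟨fun i => j0.succAbove (Fin.castLE h3 i),
    Fin.succAbove_right_injective.comp (Fin.castLE_injective h3),
    fun i => Fin.succAbove_ne _ _⟩

theorem twoDet_disj {T : SimpleGraph Site} (hc : Comps T x r A a b) (i j : Fin d) (hij : i ≠ j) :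
    Disjoint {v | HC T (ann x r A) (a i) v} {v | HC T (ann x r A) (a j) v} := by
  rw [Set.disjoint_left]
  exact fun v hv hv' => hc.2 i j hij (HC.trans hv (HC.symm hv'))

theorem two_det_T (h : Sett ω N H k0 g s x r R n A a b) {e : Fin 3 → Fin d}
    (he : ∀ i j, i ≠ j → ¬ HC (tr N ω) {v | r ≤ dst x v} (b (e i)) (b (e j))) :
    ∃ S : Finset Site, (S : Set Site) ⊆ XS ω M H 1 g s ∧ ∃ c P, dst g c ≤ 9 * s ∧
      TriP (tr N (mv false H S ω)) c (n / 2) P ∧ ∀ r3 r2 r1 r0, Geo R n r3 r2 r1 r0 →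
        ¬ DArms (d + 1) (tr N ω) c (r3 + 1) (r2 - 1) → ¬ DArms (d + 1) (tr N ω) c (r1 + 1) (r0 - 1) →
        Agree (tr N ω) (tr N (mv false H S ω)) (ann c r3 r0) →
        DComp d (tr N (mv false H S ω)) c r3 r0 ∧ ∀ j, ∀ v ∈ P j ∩ ann c r2 r1,
          ∀ v' ∈ P j ∩ ann c r2 r1, HC (tr N (mv false H S ω)) (ann c r3 r0) v v' := by
  obtain ⟨S, hS⟩ := h.zone.exists_S1
  have hspan := h.zone.span
  have hin := h.hin
  have hout := h.hout
  have hR := h.hR
  have hA := h.hA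
  have hb : ∀ i, b (e i) ∈ ball 0 N ∧ n / 2 + 9 * s ≤ dst g (b (e i)) := by
    intro i
    have h1 := (h.comps.1 (e i)).2.1
    have h2 := dst_triangle x g (b (e i))
    exact ⟨h.sub (mem_ball.2 h1.le), by omega⟩
  have hn : ∀ i j, i ≠ j → ¬ HC (tr N ω) {v | s ≤ dst g v} (b (e i)) (b (e j)) := by
    intro i j hij hc
    refine he i j hij (hc.mono fun v hv => ?_)
    have h1 : s ≤ dst g v := hv
    have h2 := dst_triangle g x v
    have h3 := dst_comm g x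
    change r ≤ dst x v
    omega
  obtain ⟨c, P, hc, hT, hP⟩ := lower_all (ρ := n / 2) (b := fun i => b (e i)) h.zone hS hb hn
  refine ⟨S, hS.sub, c, P, hc, hT, fun r3 r2 r1 r0 hG hno1 hno2 hag => ?_⟩
  obtain ⟨g1, g2, g3, g4, g5⟩ := hG
  have hxc : dst x c < R := by
    have := dst_triangle x g c
    omega
  obtain ⟨a', b', hc', hab⟩ := h.comps.restrict hspan.le (c := c) (r' := r3) (R' := r0)
    (by omega) (by omega) (by omega) (by omega)
  refine ⟨⟨a', b', twoDet_congr hc' hag⟩, fun j v hv v' hv' => ?_⟩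
  have ht : Triple (tr N ω) N c r3 r2 r1 r0 a' b' c (r2 + 1) :=
    { h3 := by omega
      h32 := g2
      h10 := g4
      hin := by rw [dst_self]; omega
      hout := by rw [dst_self]; omega
      sub := fun w hw => h.sub (by
        have h1 := mem_ball.1 hw
        have h2 := dst_triangle x c w
        exact mem_ball.2 (by omega))
      comps := hc'
      no_in := hno1
      no_out := hno2 }
  have far : ∀ w, w ∈ ann c r2 r1 → 9 * s ≤ dst g w ∧ w ∈ ann c (r2 - 1) (r1 + 1) := by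
    intro w hw
    have h1 := mem_ann.1 hw
    have h2 := dst_triangle c g w
    have h3 := dst_comm c g
    exact ⟨by omega, mem_ann.2 (by omega)⟩
  have hj := hP j v hv.1 v' hv'.1 (far v hv.2).1 (far v' hv'.2).1
  have hj' : HC (tr N ω) (ann x r A) v v' := by
    refine hj.mono fun w hw => ?_
    have h1 := mem_ann.1 hw
    have h2 := dst_triangle g x w
    have h3 := dst_comm g x
    have h4 := dst_triangle x g w
    exact mem_ann.2 (by omega)
  have hsub : ann c r3 r0 ⊆ ann x r A := by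
    intro w hw
    have h1 := mem_ann.1 hw
    have h2 := dst_triangle c x w
    have h3 := dst_comm c x
    have h4 := dst_triangle x c w
    exact mem_ann.2 (by omega)
  obtain ⟨i, hi⟩ := ht.colour hspan (far v hv.2).2
  obtain ⟨i', hi'⟩ := ht.colour hspan (far v' hv'.2).2
  have hii : i = i' := by
    by_contra hne
    exact h.comps.2 i i' hne ((((hab i).1.trans (hi.mono hsub)).trans hj').trans
      ((hab i').1.trans (hi'.mono hsub)).symm)
  subst hii
  exact (hc_congr hag).1 (hi.symm.trans hi')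

theorem two_det_D (h : Sett ω N H k0 g s x r R n A a b) (hd : 4 ≤ d)
    (he : ∀ i j l, i ≠ j → i ≠ l → j ≠ l → HC (tr N ω) {v | r ≤ dst x v} (b i) (b j) ∨
      HC (tr N ω) {v | r ≤ dst x v} (b i) (b l) ∨ HC (tr N ω) {v | r ≤ dst x v} (b j) (b l)) :
    ∃ S : Finset Site, (S : Set Site) ⊆ XS ω M H 1 g s ∧ ∃ F : Face, dst g F.1 ≤ 9 * s ∧
      Face3 (tr N (mv true H S ω)) F (n / 2) ∧ ∀ r3 r2 r1 r0, Geo R n r3 r2 r1 r0 →
        Agree (tr N ω) (tr N (mv true H S ω)) (ann F.1 r3 r0) →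
        DCompIn d (tr N (mv true H S ω)) F.1 r3 r0 := by
  obtain ⟨S, hS⟩ := h.zone.exists_S0
  have hspan := h.zone.span
  have hin := h.hin
  have hout := h.hout
  have hR := h.hR
  have hA := h.hA
  have hbj : ∀ i j, i ≠ j → HC (tr N ω) {v | r ≤ dst x v} (b i) (b j) →
      HC (tr N ω) {v | n < dst x v} (b i) (b j) := fun i j hij hc =>
    buffer_join hspan.le hspan.acyclic h.comps (by omega) hA h.buf hij hc
  have h3 : ∀ i j l, i ≠ j → i ≠ l → j ≠ l → HC (tr N ω) {v | n < dst x v} (b i) (b j) ∨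
      HC (tr N ω) {v | n < dst x v} (b i) (b l) ∨ HC (tr N ω) {v | n < dst x v} (b j) (b l) :=
    fun i j l h1 h2 h3 => (he i j l h1 h2 h3).imp (hbj i j h1) (Or.imp (hbj i l h2) (hbj j l h3))
  have hbo : ∀ i, b i ∈ {v | n < dst x v} := fun i => by
    have h1 := (h.comps.1 i).2.1
    change n < dst x (b i)
    omega
  obtain ⟨j0, hj0⟩ := in_out hspan.acyclic (by omega) (In := ball x n) (Out := {v | n < dst x v})
    (Set.disjoint_left.2 fun v hv hv' => absurd (mem_ball.1 hv) (not_le.2 hv'))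
    (twoDet_disj h.comps) (a := a) (b := b)
    (fun i => mem_ball.2 (by have := (h.comps.1 i).1; omega)) hbo
    (fun i => (h.comps.1 i).2.2.cluster) h3
  obtain ⟨e, he1, he2⟩ := twoDet_three hd j0
  obtain ⟨F, hF, hF3⟩ := raise_all_face (ρ := n / 2) h.zone hS (by omega) (u := fun i => a (e i))
    (fun i => by
      have h1 := (h.comps.1 (e i)).1
      have h2 := dst_triangle g x (a (e i))
      have h3 := dst_comm g x
      omega)
    (fun i j hij hc => hj0 (e i) (e j) (he1.ne hij) (he2 i) (he2 j) (hc.mono fun v hv => by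
      have h1 := mem_ball.1 hv
      have h2 := dst_triangle x g v
      exact mem_ball.2 (by omega)))
  refine ⟨S, hS.sub, F, hF, hF3, fun r3 r2 r1 r0 hG hag => ?_⟩
  obtain ⟨g1, g2, g3, g4, g5⟩ := hG
  have hxc : dst x F.1 < R := by
    have := dst_triangle x g F.1
    omega
  obtain ⟨a', b', hc', hab⟩ := h.comps.restrict hspan.le (c := F.1) (r' := r3) (R' := r0)
    (by omega) (by omega) (by omega) (by omega)
  have hS6 : ∀ v ∈ S, dst g v ≤ 6 * s := fun v hv => (mem_ann.1 (hS.sub hv).1).2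
  have hS1 : ∀ v, v ∉ ball F.1 (r3 - 1) → v ∉ S := by
    intro v hv hvS
    have h1 := hS6 v hvS
    have h2 := dst_triangle F.1 g v
    have h3 := dst_comm F.1 g
    exact hv (mem_ball.2 (by omega))
  have hS2 : ∀ v ∈ {v | n < dst x v}, v ∉ S := by
    intro v hv hvS
    have h0 : n < dst x v := hv
    have h1 := hS6 v hvS
    have h2 := dst_triangle x g v
    omega
  have hup : ∀ {i j}, HC (tr N ω) {v | n < dst x v} (b i) (b j) →
      HC (tr N (mv true H S ω)) {v | n < dst x v} (b i) (b j) := fun hc =>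
    hc.transfer fun p q hp hq hpq => h.zone.adj_up hS.sub hpq (hS2 p hp.right_mem) (hS2 q hq)
  have hA' := (tr_span (h.zone.mv_props true hS.sub).2.1).acyclic
  refine ⟨a', b', twoDet_congr hc' hag, in_out hA' (by omega) (In := ball F.1 r0)
    (Out := {v | n < dst x v})
    (P := fun i => (ann x r A \ ball F.1 (r3 - 1)) ∩ {v | HC (tr N ω) (ann x r A) (a i) v})
    (a := a') (b := b) ?_ ?_ ?_ hbo ?_ ?_⟩
  · refine Set.disjoint_left.2 fun v hv hv' => ?_
    have h0 : n < dst x v := hv'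
    have h1 := mem_ball.1 hv
    have h2 := dst_triangle x F.1 v
    omega
  · exact fun i j hij =>
      (twoDet_disj h.comps i j hij).mono Set.inter_subset_right Set.inter_subset_right
  · exact fun i => mem_ball.2 (by have := (hc'.1 i).1; omega)
  · intro i
    refine ((hab i).2.inter_of (T := {v | HC (tr N ω) (ann x r A) (a i) v}) fun v hv =>
      (hab i).1.trans (hv.mono Set.sdiff_subset)).transfer fun p q hp hq hpq => ?_
    exact h.zone.adj_up hS.sub hpq (hS1 p hp.right_mem.1.2) (hS1 q hq.1.2)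
  · exact fun i j l h1 h2 h4 => (h3 i j l h1 h2 h4).imp hup (Or.imp hup hup)

end Pool.Agent.Work.MP_ccd212_pr
end

-- merged part: Pool.Agent.Work.MP_ccd212_pr.TwoRun
section
/-! The surgery at the innermost block leads to one of the run events. -/

namespace Pool.Agent.Work.MP_ccd212_pr

/-- The radii of the successive runs. -/
theorem twoRun_succ {n : ℕ} {K D : ℕ → ℕ} {Js : ℕ → ℕ → ℕ}
    (hD : ∀ t, 1 ≤ K t ∧ (∀ i, 1 ≤ Js t i) ∧ D (t + 1) = D t * Dv (Js t) (4 * K t)) (t : ℕ) :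
    n / D (t + 1) = rad (n / D t) (Js t) (4 * K t) := by
  rw [rad_eq, Nat.div_div_eq_div_mul, (hD t).2.2]

theorem twoRun_anti {n : ℕ} {K D : ℕ → ℕ} {Js : ℕ → ℕ → ℕ}
    (hD : ∀ t, 1 ≤ K t ∧ (∀ i, 1 ≤ Js t i) ∧ D (t + 1) = D t * Dv (Js t) (4 * K t)) :
    Antitone fun t => n / D t := by
  refine antitone_nat_of_succ_le fun t => ?_
  rw [twoRun_succ hD]
  exact rad_anti (n / D t) (Js t) (Nat.zero_le _)

/-- One of the runs is not touched by the move, and its triples have the required geometry. -/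
theorem twoRun_geo {k0 n : ℕ} {K D : ℕ → ℕ} {Js : ℕ → ℕ → ℕ} (hD0 : D 0 = 2)
    (hD : ∀ t, 1 ≤ K t ∧ (∀ i, 1 ≤ Js t i) ∧ D (t + 1) = D t * Dv (Js t) (4 * K t))
    (hR : 1 ≤ n / D (12 * k0 + 1)) {T T' : SimpleGraph Site} (E : Finset (Sym2 Site))
    (hE : E.card ≤ 12 * k0) (hE' : ∀ a b, ¬ (T.Adj a b ↔ T'.Adj a b) → s(a, b) ∈ E) (c : Site) :
    ∃ t < 12 * k0 + 1, ∀ i < K t,
      Geo (n / D (12 * k0 + 1)) n (rad (n / D t) (Js t) (4 * i + 3))
        (rad (n / D t) (Js t) (4 * i + 2)) (rad (n / D t) (Js t) (4 * i + 1))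
        (rad (n / D t) (Js t) (4 * i)) ∧
      Agree T T' (ann c (rad (n / D t) (Js t) (4 * i + 3)) (rad (n / D t) (Js t) (4 * i))) := by
  classical
  have anti := twoRun_anti (n := n) hD
  have h1 := few_touched (T := T) (T' := T') (Finset.range (12 * k0 + 1)) c
    (fun t => n / D (t + 1) + 1) (fun t => n / D t) (fun i _ j _ hij => by
      rcases lt_or_gt_of_ne hij with h | h
      · exact Or.inr (Nat.lt_succ_of_le (anti (Nat.succ_le_of_lt h)))
      · exact Or.inl (Nat.lt_succ_of_le (anti (Nat.succ_le_of_lt h)))) E hE'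
  have h2 : ∃ t < 12 * k0 + 1, Agree T T' (ann c (n / D (t + 1) + 1) (n / D t)) := by
    by_contra hn
    have h3 : (Finset.range (12 * k0 + 1)).card ≤ E.card := by
      refine le_trans (Finset.card_le_card fun t ht => ?_) h1
      rw [Finset.mem_filter]
      exact ⟨ht, fun h => hn ⟨t, Finset.mem_range.1 ht, h⟩⟩
    rw [Finset.card_range] at h3
    omega
  obtain ⟨t, ht, hag⟩ := h2
  refine ⟨t, ht, fun i hi => ?_⟩
  have e0 : n / D (12 * k0 + 1) ≤ n / D (t + 1) := anti (Nat.succ_le_of_lt ht)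
  have e1 : n / D (t + 1) ≤ rad (n / D t) (Js t) (4 * i + 3 + 1) := by
    rw [twoRun_succ hD]
    exact rad_anti _ _ (by omega)
  have e2 := rad_gap (n / D t) ((hD t).2.1 (4 * i + 3))
  have e3 : 64 * rad (n / D t) (Js t) (4 * i + 3) ≤ _ := rad_gap (n / D t) ((hD t).2.1 (4 * i + 2))
  have e4 : 64 * rad (n / D t) (Js t) (4 * i + 2) ≤ _ := rad_gap (n / D t) ((hD t).2.1 (4 * i + 1))
  have e5 := rad_gap (n / D t) ((hD t).2.1 (4 * i))
  have e6 : rad (n / D t) (Js t) (4 * i) ≤ n / D t := rad_anti (n / D t) (Js t) (Nat.zero_le _)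
  have e7 : n / D t ≤ n / D 0 := anti (Nat.zero_le t)
  rw [hD0] at e7
  generalize rad (n / D t) (Js t) (4 * i + 3 + 1) = r4 at *
  generalize rad (n / D t) (Js t) (4 * i + 3) = r3 at *
  generalize rad (n / D t) (Js t) (4 * i + 2) = r2 at *
  generalize rad (n / D t) (Js t) (4 * i + 1) = r1 at *
  generalize rad (n / D t) (Js t) (4 * i) = r0 at *
  generalize n / D (12 * k0 + 1) = R at *
  generalize n / D (t + 1) = u at *
  generalize n / D t = w at *
  refine ⟨⟨by omega, by omega, by omega, by omega, by omega⟩, fun p hp q hq => hag p ?_ q ?_⟩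
  · exact ⟨le_trans (by omega) hp.1, hp.2.trans e6⟩
  · exact ⟨le_trans (by omega) hq.1, hq.2.trans e6⟩

theorem two_run {M N H k0 s d r n A ρ : ℕ} {ω : Site → Fin (2 * M - 1 + 1)} {x g : Site}
    {a b : Fin d → Site} (hd : 4 ≤ d) {K D : ℕ → ℕ} {Js : ℕ → ℕ → ℕ} (hD0 : D 0 = 2)
    (hD : ∀ t, 1 ≤ K t ∧ (∀ i, 1 ≤ Js t i) ∧ D (t + 1) = D t * Dv (Js t) (4 * K t))
    (h : Sett ω N H k0 g s x r (n / D (12 * k0 + 1)) n A a b) (hx : dst 0 x + n ≤ ρ)
    (hA : ∀ t < 12 * k0 + 1, ω ∉ RunA d N ρ (n / D t) (Js t) (4 * K t)) :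
    ∃ (up : Bool) (S : Finset Site), (S : Set Site) ⊆ XS ω M H 1 g s ∧ ∃ F ∈ faceF ρ,
      dst F.1 g ≤ 9 * s ∧ Mac (tr N (mv up H S ω)) F (n / 2) ∧ ∃ t < 12 * k0 + 1,
        mv up H S ω ∈ RunT d N ρ (n / 2) (n / D t) (Js t) (K t) ∪
          RunD d N ρ (n / 2) (n / D t) (Js t) (K t) := by
  have hout := h.hout
  have hR := h.hR
  have hR1 : 1 ≤ n / D (12 * k0 + 1) := by omega
  have hball : ∀ c : Site, dst g c ≤ 9 * s → c ∈ ball 0 ρ := fun c hc => by
    have h1 := dst_triangle 0 x c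
    have h2 := dst_triangle x g c
    rw [mem_ball]
    omega
  by_cases he : ∀ i j l, i ≠ j → i ≠ l → j ≠ l → HC (tr N ω) {v | r ≤ dst x v} (b i) (b j) ∨
      HC (tr N ω) {v | r ≤ dst x v} (b i) (b l) ∨ HC (tr N ω) {v | r ≤ dst x v} (b j) (b l)
  · obtain ⟨S, hS, F, hF, hf, hrun⟩ := two_det_D h hd he
    obtain ⟨E, -, hE, -, hE', -⟩ := h.zone.diff true hS
    obtain ⟨t, ht, hgeo⟩ := twoRun_geo hD0 hD hR1 E hE hE' F.1
    refine ⟨true, S, hS, F, mem_faceF.2 (hball _ hF), by rwa [dst_comm], Or.inr hf, t, ht,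
      Or.inr ⟨F, hball _ hF, hf, fun i hi => hrun _ _ _ _ (hgeo i hi).1 (hgeo i hi).2⟩⟩
  · simp only [not_forall, not_or] at he
    obtain ⟨i, j, l, -, -, -, h1, h2, h3⟩ := he
    have he' : ∀ p q : Fin 3, p ≠ q →
        ¬ HC (tr N ω) {v | r ≤ dst x v} (b (![i, j, l] p)) (b (![i, j, l] q)) := by
      intro p q hpq
      fin_cases p <;> fin_cases q
      · exact absurd rfl hpq
      · exact h1
      · exact h2
      · exact fun hc => h1 hc.symm
      · exact absurd rfl hpq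
      · exact h3
      · exact fun hc => h2 hc.symm
      · exact fun hc => h3 hc.symm
      · exact absurd rfl hpq
    obtain ⟨S, hS, c, P, hc, hP, hrun⟩ := two_det_T h he'
    obtain ⟨E, -, hE, -, hE', -⟩ := h.zone.diff false hS
    obtain ⟨t, ht, hgeo⟩ := twoRun_geo hD0 hD hR1 E hE hE' c
    refine ⟨false, S, hS, (c, false), mem_faceF.2 (hball _ hc), by rwa [dst_comm], Or.inl hP.tri,
      t, ht, Or.inl ⟨c, hball _ hc, P, hP, fun k hk => ?_⟩⟩
    exact hrun _ _ _ _ (hgeo k hk).1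
      (fun hh => hA t ht ⟨c, hball _ hc, 4 * k + 2, by omega, hh⟩)
      (fun hh => hA t ht ⟨c, hball _ hc, 4 * k, by omega, hh⟩) (hgeo k hk).2

end Pool.Agent.Work.MP_ccd212_pr
end

-- merged part: Pool.Agent.Work.MP_ccd212_pr.HypD
section
/-! The induction step for crossing components. -/

namespace Pool.Agent.Work.MP_ccd212_pr

theorem hypD_core {M N k0 d r n A ρ Q J : ℕ} (hd : 4 ≤ d) {K D : ℕ → ℕ} {Js : ℕ → ℕ → ℕ}
    (hD0 : D 0 = 2)
    (hD : ∀ t, 1 ≤ K t ∧ (∀ i, 1 ≤ Js t i) ∧ D (t + 1) = D t * Dv (Js t) (4 * K t))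
    {Hs : ℕ → ℕ} (hH : ∀ j < J, 1 ≤ Hs j ∧ 10 * Hs j ≤ M) (hJ : 1 ≤ J) (hr : 1 ≤ r)
    (hR : 2 * 32 ^ J * r ≤ n / D (12 * k0 + 1)) (hR2 : 2 * (n / D (12 * k0 + 1)) ≤ n)
    (hA : n + 2 ≤ A) (hN : ρ + A ≤ N) :
    pr (unif (2 * M - 1)) ({ω | ∃ x ∈ ball 0 ρ, DComp d (tr N ω) x r A} ∩
      (({ω | ∃ x ∈ ball 0 ρ, DArms (d + 1) (tr N ω) x (n + 1) (A - 1)} ∪
        {ω | Many N (ρ + n) (n / 2) (6 * k0) Q (tr N ω)}) ∪
        ({ω | ∃ t < 12 * k0 + 1, ω ∈ RunA d N (ρ + n) (n / D t) (Js t) (4 * K t)} ∪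
          BadS N k0 ρ r J Hs))ᶜ) ≤
      4 * Q * 74 ^ 2 * 2 ^ k0 * pr (unif (2 * M - 1)) {ω | ∃ t < 12 * k0 + 1,
        ω ∈ RunT d N (ρ + n) (n / 2) (n / D t) (Js t) (K t) ∪
          RunD d N (ρ + n) (n / 2) (n / D t) (Js t) (K t)} := by
  classical
  have hl : Loc ({ω : Site → Fin (2 * M - 1 + 1) | ∃ x ∈ ball 0 ρ, DComp d (tr N ω) x r A} ∩
      (({ω | ∃ x ∈ ball 0 ρ, DArms (d + 1) (tr N ω) x (n + 1) (A - 1)} ∪
        {ω | Many N (ρ + n) (n / 2) (6 * k0) Q (tr N ω)}) ∪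
        ({ω | ∃ t < 12 * k0 + 1, ω ∈ RunA d N (ρ + n) (n / D t) (Js t) (4 * K t)} ∪
          BadS N k0 ρ r J Hs))ᶜ) :=
    (loc_tr N fun T => ∃ x ∈ ball 0 ρ, DComp d T x r A).inter
      (((loc_tr N fun T => ∃ x ∈ ball 0 ρ, DArms (d + 1) T x (n + 1) (A - 1)).union
        (loc_tr N _)).union ((loc_exists_lt _ fun t _ => (loc_runs (ρm := 0) (Js t)).2).union
          (loc_badS hr Hs))).compl
  have := transport (M := M) (N := N) (k0 := k0) (Q := Q) (B := 1) (Gm := 74 ^ 2)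
    ({()} : Finset Unit) (fun _ => J) (fun _ j => Hs j) (fun _ j => scl r j) (faceF (ρ + n))
    (fun _ j F => (ballF F.1 (36 * (32 ^ j * r))).image (rnd (32 ^ j * r)))
    (fun _ j F => card_rnd_image (c := 36) (Nat.mul_pos (by positivity) hr) le_rfl F.1)
    (fun _ _ => hJ) (fun T F => Mac T F (n / 2)) (fun _ _ _ => True) hl
    (A := {ω | ∃ t < 12 * k0 + 1, ω ∈ RunT d N (ρ + n) (n / 2) (n / D t) (Js t) (K t) ∪
      RunD d N (ρ + n) (n / 2) (n / D t) (Js t) (K t)})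
    (loc_exists_lt _ fun t _ => (loc_runs (Js t)).1) ?_
  · simpa only [Finset.card_singleton, Nat.cast_one, one_mul, mul_one, Nat.cast_pow,
      Nat.cast_ofNat] using this
  rintro ω ⟨⟨x, hx, a, b, hC⟩, hB⟩ _ _
  simp only [Set.mem_compl_iff, Set.mem_union, Set.mem_ofPred_eq, not_or, not_exists,
    not_and] at hB
  obtain ⟨⟨hb1, hM⟩, hb2, hb3⟩ := hB
  have hz := zones_of_not_badS hb3 hH hr hR (by omega) hx
  refine hz.le.trans (Nat.mul_le_mul_left 2 (Finset.card_le_card fun j hj => ?_))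
  rw [Finset.mem_filter] at hj ⊢
  obtain ⟨s1, s2⟩ := scale_geo hr hR (Finset.mem_range.1 hj.1) x
  have hx' : dst 0 x ≤ ρ := hx
  have hS : Sett ω N (Hs j) k0 (ctr r j x) (scl r j) x r (n / D (12 * k0 + 1)) n A a b :=
    ⟨hj.2, hC, hr, s1, s2, hR2, hA, fun v hv => by
      have := dst_triangle 0 x v
      simp only [ball, Set.mem_ofPred_eq] at hv ⊢
      omega, hb1 x hx⟩
  obtain ⟨up, S, h1, F, hF, h2, h3, h4⟩ := two_run (ρ := ρ + n) hd hD0 hD hS (by omega) hb2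
  refine ⟨hj.1, F, hF, ctr r j x, ?_, hj.2, up, S, h1, h4, h3, trivial, ?_, by simp⟩
  · refine Finset.mem_image.2 ⟨ctr r j x, ?_, ?_⟩
    · rw [mem_ballF]
      unfold scl at h2
      show dst _ _ ≤ _
      omega
    · have := rnd_rnd (q := 32 ^ j * r) (k := 1) x
      rwa [one_mul] at this
  · convert mac_card_le hj.2 up h1 hM

theorem hypD_D {K D : ℕ → ℕ} {Js : ℕ → ℕ → ℕ} (hD0 : D 0 = 2)
    (hD : ∀ t, 1 ≤ K t ∧ (∀ i, 1 ≤ Js t i) ∧ D (t + 1) = D t * Dv (Js t) (4 * K t)) (t : ℕ) :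
    2 ≤ D t := by
  induction t with
  | zero => exact hD0.ge
  | succ t ih => rw [(hD t).2.2]; exact ih.trans (Nat.le_mul_of_pos_right _ (Dv_pos _ _))

theorem hypD_div {a q : ℕ} (hq : 1 ≤ q) (h : q ≤ a) : a ≤ 2 * q * (a / q) := by
  have h1 := Nat.lt_mul_div_succ a hq
  have h2 : 1 ≤ a / q := (Nat.le_div_iff_mul_le hq).2 (by omega)
  nlinarith only [h1, h2]

theorem hyp_dcomp {k0 d : ℕ} (hd : 4 ≤ d) (hk : GoodK k0) (hH : Hyp (DArms (d + 1))) :
    Hyp (DComp d) := by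
  intro c ε hε
  obtain ⟨L1, n1, hL1, h1⟩ := hH (2 * c) (ε / 5) (by positivity)
  obtain ⟨Q, n2, h2⟩ := count_block hH (c * (2 * (4 * L1)) + 1) (6 * k0) (ε := ε / 5)
    (by positivity)
  obtain ⟨C, hC⟩ : ∃ C : ℝ, C = 4 * Q * 74 ^ 2 * 2 ^ k0 := ⟨_, rfl⟩
  have hC0 : 0 ≤ C := by rw [hC]; positivity
  obtain ⟨W, hW⟩ : ∃ W : ℕ, W = 12 * k0 + 1 := ⟨_, rfl⟩
  have hW0 : (0 : ℝ) < W := by rw [hW]; positivity
  obtain ⟨K, D, Js, n3, hD0, hD, h3⟩ := runs hd hk hH (c * (2 * (4 * L1)) + 1) W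
    (ε := ε / (5 * W * (C + 1))) (by positivity)
  have hDW := hypD_D hD0 hD W
  obtain ⟨J, hJ, h4⟩ := bad_scales hk (c * (2 * (4 * L1)) * (2 * D W)) (ε := ε / 5)
    (by positivity)
  obtain ⟨n4, h4⟩ := h4 J le_rfl
  have hp : 1 ≤ 2 * 32 ^ J := Nat.mul_pos (by norm_num) (by positivity)
  refine ⟨4 * L1 * D W * (2 * 32 ^ J), n1 + 1 + 4 * L1 * (n2 + n3 + D W * (n4 + 2 * 32 ^ J) + 1),
    Nat.mul_pos (Nat.mul_pos (by omega) (by omega)) hp, fun a ha ρ hρ N hN => ?_⟩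
  obtain ⟨n, hn⟩ : ∃ n, n = a / (4 * L1) := ⟨_, rfl⟩
  have n_ge : n2 + n3 + D W * (n4 + 2 * 32 ^ J) + 1 ≤ n := by
    rw [hn, Nat.le_div_iff_mul_le (by omega), mul_comm]; omega
  have n_le : 4 * L1 * n ≤ a := hn ▸ Nat.mul_div_le _ _
  have hn4 : 4 * n ≤ a := le_trans (by nlinarith only [hL1]) n_le
  have a_le : a ≤ 2 * (4 * L1) * n := by
    rw [hn]
    exact hypD_div (by omega) (le_trans (Nat.le_mul_of_pos_right _ (by omega)) n_le)
  have R_ge : n4 + 2 * 32 ^ J ≤ n / D W := by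
    rw [Nat.le_div_iff_mul_le (by omega), mul_comm]; omega
  have n_le' : n ≤ 2 * D W * (n / D W) :=
    hypD_div (by omega) (le_trans (Nat.le_mul_of_pos_right _ (by omega))
      (show D W * (n4 + 2 * 32 ^ J) ≤ n by omega))
  have R_le : 2 * (n / D W) ≤ n :=
    le_trans (Nat.mul_le_mul_right _ hDW) (Nat.mul_div_le _ _)
  have ρ_le : ρ ≤ c * (2 * (4 * L1)) * n :=
    hρ.trans (by rw [mul_assoc c]; exact Nat.mul_le_mul_left c a_le)
  have buf : n + 1 ≤ (a - 1) / L1 := by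
    rw [Nat.le_div_iff_mul_le hL1]
    have : 1 ≤ n := by omega
    have : (n + 1) * L1 + 1 ≤ 4 * L1 * n := by nlinarith only [hp, hn4, a_le, R_ge, R_le]
    omega
  obtain ⟨M1, hM1⟩ := h1 (a - 1) (by omega) ρ
    (hρ.trans (by rw [mul_comm 2 c, mul_assoc]; exact Nat.mul_le_mul_left c (by omega))) N
    (by omega)
  obtain ⟨M2, hM2⟩ := h2 n (by omega) (ρ + n) (by rw [add_mul, one_mul]; omega) N (by omega)
  obtain ⟨M3, hM3⟩ := h3 n (by omega) (ρ + n) (by rw [add_mul, one_mul]; omega) N (by omega)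
  obtain ⟨M4, hM4⟩ := h4 (n / D W) (by omega) ρ
    (ρ_le.trans (by rw [mul_assoc _ (2 * D W)]; exact Nat.mul_le_mul_left _ n_le')) N
  refine ⟨M1 + M2 + M3 + M4, fun M hM => ?_⟩
  have q1 := hM1 M (by omega)
  have q2 := hM2 M (by omega)
  have q3 := hM3 M (by omega)
  obtain ⟨Hs, hHs, q4⟩ := hM4 M (by omega)
  have e : a / (4 * L1 * D W * (2 * 32 ^ J)) = n / D W / (2 * 32 ^ J) := by
    rw [hn, Nat.div_div_eq_div_mul, Nat.div_div_eq_div_mul, mul_assoc (4 * L1)]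
  rw [e]
  have hr : 1 ≤ n / D W / (2 * 32 ^ J) := (Nat.le_div_iff_mul_le hp).2 (by omega)
  have q5 := hypD_core (M := M) (N := N) (k0 := k0) (n := n) (A := a) (ρ := ρ) (Q := Q) hd hD0 hD
    hHs hJ hr (hW ▸ Nat.mul_div_le _ _) (hW ▸ R_le) (by omega) (by omega)
  rw [← hW, ← hC] at q5
  have q1' : pr (unif (2 * M - 1))
      {ω | ∃ x ∈ ball 0 ρ, DArms (d + 1) (tr N ω) x (n + 1) (a - 1)} ≤ ε / 5 := by
    refine le_trans (pr_mono _ ?_) q1
    rintro ω ⟨x, hx, h⟩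
    exact ⟨x, hx, h.mono_ring buf le_rfl⟩
  have hε' : W * (ε / (5 * W * (C + 1))) = ε / 5 / (C + 1) := by field_simp
  have q6 : pr (unif (2 * M - 1))
      {ω | ∃ t < W, ω ∈ RunA d N (ρ + n) (n / D t) (Js t) (4 * K t)} ≤ ε / 5 / (C + 1) := by
    refine (pr_le_sum _ (Finset.range W) (fun t => RunA d N (ρ + n) (n / D t) (Js t) (4 * K t))
      ?_).trans ?_
    · rintro ω ⟨t, ht, h⟩
      exact ⟨t, Finset.mem_range.2 ht, h⟩
    refine (Finset.sum_le_card_nsmul _ _ _ fun t ht => (q3 t (Finset.mem_range.1 ht)).2).trans ?_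
    rw [Finset.card_range, nsmul_eq_mul, hε']
  have q7 : pr (unif (2 * M - 1)) {ω | ∃ t < W,
      ω ∈ RunT d N (ρ + n) (n / 2) (n / D t) (Js t) (K t) ∪
        RunD d N (ρ + n) (n / 2) (n / D t) (Js t) (K t)} ≤ ε / 5 / (C + 1) := by
    refine (pr_le_sum _ (Finset.range W) (fun t =>
      RunT d N (ρ + n) (n / 2) (n / D t) (Js t) (K t) ∪
        RunD d N (ρ + n) (n / 2) (n / D t) (Js t) (K t))
      ?_).trans ?_
    · rintro ω ⟨t, ht, h⟩
      exact ⟨t, Finset.mem_range.2 ht, h⟩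
    refine (Finset.sum_le_card_nsmul _ _ _ fun t ht => (q3 t (Finset.mem_range.1 ht)).1).trans ?_
    rw [Finset.card_range, nsmul_eq_mul, hε']
  have q8 : C * (ε / 5 / (C + 1)) ≤ ε / 5 := by
    rw [mul_div_assoc', div_le_iff₀ (by positivity)]; linarith only [hε]
  have q9 : ε / 5 / (C + 1) ≤ ε / 5 := div_le_self (by positivity) (by linarith only [hC0])
  have q10 := q5.trans ((mul_le_mul_of_nonneg_left q7 hC0).trans q8)
  set E := {ω : Site → Fin (2 * M - 1 + 1) |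
    ∃ x ∈ ball 0 ρ, DComp d (tr N ω) x (n / D W / (2 * 32 ^ J)) a}
  set X1 := {ω : Site → Fin (2 * M - 1 + 1) |
    ∃ x ∈ ball 0 ρ, DArms (d + 1) (tr N ω) x (n + 1) (a - 1)}
  set X2 := {ω : Site → Fin (2 * M - 1 + 1) | Many N (ρ + n) (n / 2) (6 * k0) Q (tr N ω)}
  set X3 := {ω : Site → Fin (2 * M - 1 + 1) |
    ∃ t < W, ω ∈ RunA d N (ρ + n) (n / D t) (Js t) (4 * K t)}
  set X4 := BadS (M := M) N k0 ρ (n / D W / (2 * 32 ^ J)) J Hs
  have s1 : E ⊆ (E ∩ (X1 ∪ X2 ∪ (X3 ∪ X4))ᶜ) ∪ (X1 ∪ X2 ∪ (X3 ∪ X4)) := fun ω hω => by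
    by_cases h : ω ∈ X1 ∪ X2 ∪ (X3 ∪ X4)
    · exact Or.inr h
    · exact Or.inl ⟨hω, h⟩
  have s2 := (pr_mono (unif (2 * M - 1)) s1).trans (pr_union_le _ _ _)
  have s3 := pr_union_le (unif (2 * M - 1)) (X1 ∪ X2) (X3 ∪ X4)
  have s4 := pr_union_le (unif (2 * M - 1)) X1 X2
  have s5 := pr_union_le (unif (2 * M - 1)) X3 X4
  linarith only [q9, q1', q2, q6, q4, q10, s2, s3, s4, s5]

end Pool.Agent.Work.MP_ccd212_pr
end

-- merged part: Pool.Agent.Work.MP_ccd212_pr.Induct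
section
/-! The downward induction on the number of arms. -/

namespace Pool.Agent.Work.MP_ccd212_pr

theorem hyp_base {k0 : ℕ} (hk : GoodK k0) : Hyp (DArms (k0 + 1)) := by
  classical
  intro c ε hε
  obtain ⟨J, hJ, h⟩ := bad_scales hk c hε
  obtain ⟨n0, h⟩ := h J le_rfl
  have hp : 1 ≤ 2 * 32 ^ J := Nat.mul_pos (by norm_num) (by positivity)
  refine ⟨2 * 32 ^ J, n0 + 2 * 32 ^ J, hp, fun a ha ρ hρ N hN => ?_⟩
  obtain ⟨M0, hM0⟩ := h a (by omega) ρ hρ N
  refine ⟨M0, fun M hM => ?_⟩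
  obtain ⟨Hs, hHs, q⟩ := hM0 M hM
  refine le_trans (pr_mono _ ?_) q
  rintro ω ⟨x, hx, hA⟩
  by_contra hb
  have hr : 1 ≤ a / (2 * 32 ^ J) := (Nat.le_div_iff_mul_le hp).2 (by omega)
  have hz := zones_of_not_badS (R := a) hb hHs hr (Nat.mul_div_le _ _) (by omega) hx
  obtain ⟨j, hj⟩ := Finset.card_pos.1 (Nat.pos_of_mul_pos_left ((Nat.zero_le _).trans_lt hz))
  rw [Finset.mem_filter] at hj
  obtain ⟨s1, s2⟩ := scale_geo hr (Nat.mul_div_le a _) (Finset.mem_range.1 hj.1) x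
  exact hj.2.base (hA.shift (by omega) (by omega))

theorem hyp_of_rings (W : ℕ) {A B : SimpleGraph Site → Site → ℕ → ℕ → Prop}
    (h : ∀ T, T ≤ G → T.IsAcyclic → ∀ x r R, B T x r R → ∀ lo hi : Fin W → ℕ,
      (∀ j, r ≤ lo j ∧ lo j ≤ hi j ∧ hi j ≤ R) → (∀ i j, i ≠ j → hi i < lo j ∨ hi j < lo i) →
      ∃ j, A T x (lo j) (hi j)) (hA : Hyp A) : Hyp B := by
  intro c ε hε
  have hε' : 0 < ε / (W + 1) := by positivity
  choose fL fn h1 h2 using fun D : ℕ => hA (c * (2 * D)) (ε / (W + 1)) hε'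
  let D : ℕ → ℕ := fun t => Nat.rec 1 (fun _ x => x * fL x * 2) t
  have hDs : ∀ t, D (t + 1) = D t * fL (D t) * 2 := fun _ => rfl
  have hD : ∀ t, 1 ≤ D t := by
    intro t
    induction t with
    | zero => exact le_rfl
    | succ t ih => exact Nat.mul_pos (Nat.mul_pos ih (h1 _)) (by norm_num)
  have hmono : Monotone D := monotone_nat_of_le_succ fun t => by
    rw [hDs, mul_assoc]
    exact Nat.le_mul_of_pos_right _ (Nat.mul_pos (h1 _) (by norm_num))
  refine ⟨D W, D W * ((Finset.range W).sup (fun t => fn (D t)) + 1), hD W,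
    fun a ha ρ hρ N hN => ?_⟩
  have hW : D W ≤ a := le_trans (Nat.le_mul_of_pos_right _ (by omega)) ha
  have e : ∀ t, a / D (t + 1) = a / D t / fL (D t) / 2 := fun t => by
    rw [hDs, Nat.div_div_eq_div_mul, Nat.div_div_eq_div_mul, mul_assoc]
  have : ∀ t, ∃ M0, t < W → ∀ M, M0 ≤ M → pr (unif (2 * M - 1))
      {ω | ∃ x ∈ ball 0 ρ, A (tr N ω) x (a / D t / fL (D t)) (a / D t)} ≤ ε / (W + 1) := by
    intro t
    by_cases ht : t < W
    · have q1 : fn (D t) ≤ a / D t := by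
        rw [Nat.le_div_iff_mul_le (hD t), mul_comm]
        refine le_trans (Nat.mul_le_mul (hmono ht.le) ?_) ha
        exact (Finset.le_sup (f := fun t => fn (D t)) (Finset.mem_range.2 ht)).trans
          (Nat.le_succ _)
      have q2 := hypD_div (hD t) ((hmono ht.le).trans hW)
      have q3 : a / D t ≤ a := Nat.div_le_self _ _
      obtain ⟨M0, hM0⟩ := h2 (D t) (a / D t) q1 ρ
        (hρ.trans (by rw [mul_assoc]; exact Nat.mul_le_mul_left c q2)) N (by omega)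
      exact ⟨M0, fun _ => hM0⟩
    · exact ⟨0, fun h => absurd h ht⟩
  choose fM hfM using this
  obtain ⟨M1, hM1⟩ := exists_nat_gt (((2 * N + 1 : ℝ) ^ 4) / (ε / (W + 1)))
  refine ⟨(Finset.range W).sup fM + M1 + 1, fun M hM => ?_⟩
  have s1 : {ω : Site → Fin (2 * M - 1 + 1) | ∃ x ∈ ball 0 ρ, B (tr N ω) x (a / D W) a} ⊆
      {ω | ¬ Set.InjOn ω (ball 0 N)} ∪ {ω | ∃ t < W,
        ω ∈ {ω | ∃ x ∈ ball 0 ρ, A (tr N ω) x (a / D t / fL (D t)) (a / D t)}} := by
    rintro ω ⟨x, hx, hB⟩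
    by_cases hi : Set.InjOn ω (ball 0 N)
    · have hs := tr_span hi
      have key : ∀ i j : ℕ, i < j → j ≤ W → a / D j < a / D i / fL (D i) := by
        intro i j hij hj
        have a1 : a / D j ≤ a / D (i + 1) := Nat.div_le_div_left (hmono (show i + 1 ≤ j from hij)) (hD (i + 1))
        have a2 : 1 ≤ a / D j := (Nat.le_div_iff_mul_le (hD j)).2 (by
          have := hmono hj; omega)
        rw [e] at a1
        omega
      obtain ⟨j, hj⟩ := h _ hs.le hs.acyclic x _ _ hB (fun j => a / D j / fL (D j))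
        (fun j => a / D j) (fun j => ⟨(key j W j.2 le_rfl).le, Nat.div_le_self _ _,
          Nat.div_le_self _ _⟩) (fun i j hij => by
          rcases lt_or_gt_of_ne (Fin.val_ne_of_ne hij) with h' | h'
          · exact Or.inr (key i j h' j.2.le)
          · exact Or.inl (key j i h' i.2.le))
      exact Or.inr ⟨j, j.2, x, hx, hj⟩
    · exact Or.inl hi
  refine ((pr_mono _ s1).trans (pr_union_le _ _ _)).trans ?_
  have q1 := pr_ties M N (by omega)
  have q2 : ((2 * N + 1 : ℝ) ^ 4) / (2 * M) ≤ ε / (W + 1) := by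
    have hM' : (M1 : ℝ) + 1 ≤ M := by exact_mod_cast (by omega : M1 + 1 ≤ M)
    have hM0 : (0 : ℝ) ≤ M1 := Nat.cast_nonneg _
    rw [div_lt_iff₀ hε'] at hM1
    rw [div_le_iff₀ (by linarith only [hM'])]
    linarith only [hε', hM1, hM', mul_nonneg_of_nonpos_of_nonpos (Mathlib.Tactic.Linarith.sub_nonpos_of_le (Mathlib.Tactic.Linarith.natCast_nonneg ℝ M)) (le_of_lt (Mathlib.Tactic.Linarith.sub_neg_of_lt hε')), mul_nonneg_of_nonpos_of_nonpos (le_of_lt (Mathlib.Tactic.Linarith.sub_neg_of_lt hε')) (Mathlib.Tactic.Linarith.sub_nonpos_of_le hM')]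
  have q3 : pr (unif (2 * M - 1)) {ω | ∃ t < W,
      ω ∈ {ω | ∃ x ∈ ball 0 ρ, A (tr N ω) x (a / D t / fL (D t)) (a / D t)}} ≤
      W * (ε / (W + 1)) := by
    refine (pr_le_sum _ (Finset.range W) (fun t =>
      {ω | ∃ x ∈ ball 0 ρ, A (tr N ω) x (a / D t / fL (D t)) (a / D t)}) ?_).trans ?_
    · rintro ω ⟨t, ht, h⟩
      exact ⟨t, Finset.mem_range.2 ht, h⟩
    refine (Finset.sum_le_card_nsmul _ _ _ fun t ht => hfM t (Finset.mem_range.1 ht) M
      ((Finset.le_sup ht).trans (by omega))).trans ?_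
    rw [Finset.card_range, nsmul_eq_mul]
  have q4 : ε / (W + 1) + W * (ε / (W + 1)) = ε := by field_simp; ring
  linarith only [q1, q2, q3, q4]

theorem hyp_earms : Hyp EArms := by
  obtain ⟨k0, h3, hk⟩ := exists_goodK
  have h4 : Hyp (DArms 4) := by
    refine Nat.decreasingInduction (motive := fun d _ => 4 ≤ d → Hyp (DArms d)) (n := k0 + 1)
      (fun d _ ih hd => ?_) (fun _ => hyp_base hk) (show 4 ≤ k0 + 1 by omega) le_rfl
    exact hyp_of_rings d (fun T h1 h2 x r R hB lo hi q1 q2 =>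
      dcomp_of_darms h1 h2 (by omega) hB lo hi q1 q2) (hyp_dcomp hd hk (ih (by omega)))
  exact hyp_of_rings 7 (fun T h1 h2 x r R hB lo hi q1 q2 =>
    darms_of_earms h1 h2 hB lo hi q1 q2) h4

end Pool.Agent.Work.MP_ccd212_pr
end

-- merged part: Pool.Agent.Work.MP_ccd212_pr.Main
section
/-! No point of degree four or more in a scaling limit of the minimal spanning tree. -/

namespace Pool.Agent.Work.MP_ccd212_pr

open MeasureTheory Filter Topology

theorem main_earms_mono {T : SimpleGraph Site} {x : Site} {r r' R : ℕ} (hr : r ≤ r')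
    (h : EArms T x r R) : EArms T x r' R := by
  obtain ⟨a, b, w, h1, h2⟩ := h
  exact ⟨a, b, w, fun i => ⟨(h1 i).1, (h1 i).2.1.trans hr, (h1 i).2.2⟩, h2⟩

theorem main_div {a L : ℕ} (hL : 1 ≤ L) : (a : ℝ) / (2 * L) - 1 ≤ ((a / (2 * L) : ℕ) : ℝ) := by
  have h0 : 0 < 2 * L := by omega
  have h1 : a < (a / (2 * L) + 1) * (2 * L) := by
    rw [← Nat.div_lt_iff_lt_mul h0]
    omega
  have h2 : (a : ℝ) < ((a / (2 * L) : ℕ) + 1) * (2 * L) := by exact_mod_cast h1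
  have h3 : (0 : ℝ) < 2 * L := by exact_mod_cast h0
  rw [sub_le_iff_le_add, div_le_iff₀ h3]
  exact h2.le

theorem segF_small (adm : (n : ℕ) → SimpleGraph (Fin n) → Prop) (k m : ℕ) {ε : ℝ} (hε : 0 < ε) :
    ∃ r η0 : ℝ, 0 < r ∧ r ≤ 1 / (m + 1) ∧ 0 < η0 ∧ ∀ η, 0 < η → η < η0 →
      labelLaw {V | mstF adm η V ∈ SegF k r (1 / (m + 1))} ≤ ENNReal.ofReal ε := by
  obtain ⟨L, n0, hL, hsm⟩ := label_small hyp_earms (64 * (k + 1) * (m + 1)) hε
  have hL' : (1 : ℝ) ≤ L := by exact_mod_cast hL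
  have hk : (0 : ℝ) ≤ k := Nat.cast_nonneg k
  have hm : (0 : ℝ) ≤ m := Nat.cast_nonneg m
  have hn0 : (0 : ℝ) ≤ n0 := Nat.cast_nonneg n0
  set R : ℝ := 1 / (m + 1) with hRdef
  have hR : 0 < R := by positivity
  have hR1 : R ≤ 1 := by
    rw [hRdef, div_le_one (by positivity)]
    linarith only []
  have hk2 : 1 + (k : ℝ) ≤ 128 * L * (1 + k) ^ 2 := by linarith only [hL', mul_nonneg_of_nonpos_of_nonpos (Mathlib.Tactic.Linarith.sub_nonpos_of_le (sq_nonneg ((1 : ℝ) + ↑k))) (Mathlib.Tactic.Linarith.sub_nonpos_of_le hL'), mul_nonneg_of_nonpos_of_nonpos (Mathlib.Tactic.Linarith.sub_nonpos_of_le (Mathlib.Tactic.Linarith.natCast_nonneg ℝ k)) (Mathlib.Tactic.Linarith.sub_nonpos_of_le (Mathlib.Tactic.Linarith.natCast_nonneg ℝ k))]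
  have hden : (0 : ℝ) < 128 * L * (1 + k) ^ 2 := by positivity
  have hrR : R / (128 * L * (1 + k) ^ 2) ≤ R := div_le_self hR.le (by linarith only [hk2])
  refine ⟨R / (128 * L * (1 + k) ^ 2), R / (256 * L + 16 * n0), by positivity, hrR,
    by positivity, fun η hη hη0 => ?_⟩
  set X : ℝ := R / η with hXdef
  have hX : 256 * L + 16 * n0 < X := by
    rw [lt_div_iff₀ (by positivity)] at hη0
    rw [hXdef, lt_div_iff₀ hη]
    linarith only [hη0]
  have ha1 : ((⌊X / 8⌋₊ : ℕ) : ℝ) ≤ X / 8 := Nat.floor_le (by linarith only [hL', hX])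
  have ha2 : X / 8 < (⌊X / 8⌋₊ : ℕ) + 1 := Nat.lt_floor_add_one _
  set a : ℕ := ⌊X / 8⌋₊ with hadef
  have ha3 : X / 16 ≤ a := by linarith only [hL', hX, ha2]
  have hkη : (k : ℝ) / η = k * (m + 1) * X := by
    rw [hXdef, hRdef]
    field_simp
  have hρ1 : 2 * ((k : ℝ) / η) + 4 ≤ (⌈2 * ((k : ℝ) / η) + 4⌉₊ : ℕ) := Nat.le_ceil _
  have hρ2 : ((⌈2 * ((k : ℝ) / η) + 4⌉₊ : ℕ) : ℝ) < 2 * ((k : ℝ) / η) + 4 + 1 :=
    Nat.ceil_lt_add_one (by positivity)
  set ρ : ℕ := ⌈2 * ((k : ℝ) / η) + 4⌉₊ with hρdef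
  have hna : n0 ≤ a := by
    have : (n0 : ℝ) ≤ a := by linarith only [hL', hX, ha2]
    exact_mod_cast this
  have hρa : ρ ≤ 64 * (k + 1) * (m + 1) * a := by
    clear * - k m X a ha3 n0 L η R hL' hX hη ρ hkη hρ2
    have h1 : 64 * ((k : ℝ) + 1) * (m + 1) * (X / 16) ≤ 64 * ((k : ℝ) + 1) * (m + 1) * a :=
      mul_le_mul_of_nonneg_left ha3 (by positivity)
    have hX0 : 0 ≤ X := by linarith only [hL', hX]
    have h2 : 0 ≤ (k : ℝ) * (m + 1) * X := by positivity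
    have h3 : 0 ≤ (m : ℝ) * X := by positivity
    have : (ρ : ℝ) ≤ 64 * (k + 1) * (m + 1) * a := by
      rw [hkη] at hρ2
      linarith only [hL', hX, hρ2, h1, h2, h3]
    exact_mod_cast this
  refine le_trans (measure_mono fun V hV => ?_) (hsm a hna ρ hρa)
  obtain ⟨f, z, hz, hf, hs⟩ := inTree_of_segF hrR hV
  have hr : R / (128 * L * (1 + k) ^ 2) * (1 + k) ≤ 1 := by
    rw [div_mul_eq_mul_div, div_le_one hden]
    linarith only [hR1, hL', mul_nonneg_of_nonpos_of_nonpos (Mathlib.Tactic.Linarith.sub_nonpos_of_le (sq_nonneg ((1 : ℝ) + ↑k))) (Mathlib.Tactic.Linarith.sub_nonpos_of_le hL'), mul_nonneg_of_nonpos_of_nonpos (Mathlib.Tactic.Linarith.sub_nonpos_of_le (Mathlib.Tactic.Linarith.natCast_nonneg ℝ k)) (Mathlib.Tactic.Linarith.sub_nonpos_of_le (Mathlib.Tactic.Linarith.natCast_nonneg ℝ k)), mul_nonneg_of_nonpos_of_nonpos (Mathlib.Tactic.Linarith.sub_nonpos_of_le (Mathlib.Tactic.Linarith.natCast_nonneg ℝ k))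 (Mathlib.Tactic.Linarith.sub_nonpos_of_le hR1)]
  have h1 : 2 * (R / (128 * L * (1 + k) ^ 2) * (1 + k) ^ 2 / η) + 8 ≤ (a / (2 * L) : ℕ) := by
    clear * - R L k η X hXdef hη hL hR a m ha3 ha2 hL' n0 hX
    have e1 : 2 * (R / (128 * L * (1 + k) ^ 2) * (1 + k) ^ 2 / η) = X / L / 64 := by
      rw [hXdef]
      field_simp
      ring
    have e2 : X / L / 32 ≤ (a : ℝ) / (2 * L) := by
      rw [show X / L / 32 = X / 16 / (2 * L) by field_simp; ring]
      exact div_le_div_of_nonneg_right ha3 (by positivity)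
    have e3 : (X / 8 - 1) / (2 * L) ≤ (a : ℝ) / (2 * L) :=
      div_le_div_of_nonneg_right (by linarith only [ha2]) (by positivity)
    have e4 : (X / 8 - 1) / (2 * L) = X / L / 16 - 1 / (2 * L) := by
      field_simp
      ring
    have e5 : (1 : ℝ) / (2 * L) ≤ 1 := by
      rw [div_le_one (by positivity)]
      linarith only [hL']
    have e6 : 256 ≤ X / L := by
      rw [le_div_iff₀ (by positivity)]
      linarith only [hX]
    have e7 := main_div (a := a) hL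
    rw [e1]
    linarith only [e3, e4, e5, e6, e7]
  have h3 : a / (2 * L) < a := by
    clear * - a n0 L X m η R hL' hX ha2 k hL
    have : (0 : ℝ) < a := by linarith only [hL', hX, ha2]
    exact Nat.div_lt_self (by exact_mod_cast this) (by omega)
  obtain ⟨x, hx, hE⟩ := earms_of_seg mst_le hη hf hz hr hs hρ1 h1 (R' := a) (by linarith only [hL', hX, ha1]) h3
  exact ⟨x, hx, main_earms_mono (Nat.div_le_div_left (by omega) (by omega)) hE⟩

theorem main (adm : (n : ℕ) → SimpleGraph (Fin n) → Prop) (η : ℕ → ℝ) (hη : ∀ n, 0 < η n)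
    (h0 : Tendsto η atTop (𝓝 0)) (μ : @Measure Forest (borel _))
    (hμ : ∀ U : Set Forest, IsOpen U →
      μ U ≤ liminf (fun n => labelLaw {V | mstF adm (η n) V ∈ U}) atTop) :
    ∀ᵐ F ∂μ, ∀ x : ℂ, degF F (stereo x) ≤ 3 := by
  have key : ∀ k m : ℕ, μ {F | ∀ r, 0 < r → F ∈ SegF k r (1 / (m + 1))} = 0 := by
    intro k m
    refine le_antisymm (ENNReal.le_of_forall_pos_le_add fun ε hε _ => ?_) zero_le
    obtain ⟨r, η0, hr, hrR, hη0, hsm⟩ := segF_small adm k m (ε := ε) hε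
    rw [zero_add]
    refine le_trans (measure_mono fun F hF => hF r hr) ((hμ _ (isOpen_segF k hrR)).trans ?_)
    refine liminf_le_of_frequently_le' (Eventually.frequently ?_)
    filter_upwards [h0.eventually (gt_mem_nhds hη0)] with n hn
    simpa using hsm (η n) (hη n) hn
  rw [ae_iff]
  refine measure_mono_null (fun F hF => ?_)
    (measure_iUnion_null fun k => measure_iUnion_null fun m => key k m)
  obtain ⟨x, hx⟩ := not_forall.1 hF
  obtain ⟨k, m, h⟩ := segF_of_degF hx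
  exact Set.mem_iUnion.2 ⟨k, Set.mem_iUnion.2 ⟨m, h⟩⟩

end Pool.Agent.Work.MP_ccd212_pr
end
end
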